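import Mathlib

/-!
# Complex multiplication, in the classical form of Abel
-/

namespace VK

open Polynomial

/-- the elliptic curve `y² = F(x)`, `F = x³ + A x + B`, has complex multiplication: the rational function `f = P / Q`,
not constant, is a solution of Abel's equation `s F(f) = F f'²`, that is `df / √F(f) = √s dx / √F(x)`, where `s` is not
the square of an integer; `f(x)` is the `x`-coordinate of the image of the point `(x, y)` under the endomorphism `√s`
(up to the addition of a point of order two).  Every elliptic curve over a number field with complex multiplication has
such an `f`: take an endomorphism over `K` which is not an integer, or, if there is none, one of trace `0` -/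
def HasCM {K : Type} [Field K] (A B : K) : Prop :=
  ∃ (P Q : K[X]) (s : K), (∀ n : ℤ, s ≠ (n : K) ^ 2) ∧ derivative P * Q - P * derivative Q ≠ 0 ∧
    C s * (Q * (P ^ 3 + C A * P * Q ^ 2 + C B * Q ^ 3)) =
      (X ^ 3 + C A * X + C B) * (derivative P * Q - P * derivative Q) ^ 2

end VK
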