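import Mathlib

/-!
# LEAF TD: the number of the finite sets of places with bounded product of the norms

PROOF of `card_nrm`.  The norm of every maximal ideal is at least `2` (`Ideal.absNorm_eq_one_iff`, `Ideal.absNorm_eq_zero_iff`, `HeightOneSpectrum.one_lt_absNorm`), so `2 ^ S.card ≤ ∏ ≤ T` (`Finset.pow_card_le_prod` or `Finset.prod_le_prod`), take logarithms.
PROOF of `cnt_nrm`.  The map `S ↦ ∏ v ∈ S, v.maximalIdeal.asIdeal` is injective: `v.maximalIdeal.asIdeal ∣ ∏ v' ∈ S, v'.maximalIdeal.asIdeal ↔ v ∈ S` (prime ideals: `Prime.dvd_finset_prod_iff`, two maximal ideals one dividing the other are equal, `FinitePlace` is determined by `maximalIdeal`: `FinitePlace.mk_maximalIdeal`).  Its norm is the product of the norms (`map_prod`), not `0`.  So the number is at most the number of nonzero ideals of norm at most `T`, which is finite (`Ideal.finite_setOf_absNorm_le`) and at most `C T` for `T ≥ 1`: `NumberField.Ideal.tendsto_norm_le_div_atTop` (the number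 of the nonzero ideals of norm at most `s` divided by `s` has a limit), bounded near infinity; for `1 ≤ T ≤ s0` use monotonicity and the count at `s0`.
-/

namespace OCM

open Finset NumberField

/-- the norm of a finite place -/
noncomputable def nrm {K : Type} [Field K] [NumberField K] (v : FinitePlace K) : ℕ := Ideal.absNorm v.maximalIdeal.asIdeal

private theorem TD_two_le {K : Type} [Field K] [NumberField K] (v : FinitePlace K) : 2 ≤ nrm v :=
  NumberField.HeightOneSpectrum.one_lt_absNorm v.maximalIdeal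

private theorem TD_pow_le {K : Type} [Field K] [NumberField K] (S : Finset (FinitePlace K)) :
    (2 : ℝ) ^ S.card ≤ ∏ v ∈ S, (nrm v : ℝ) := by
  rw [← Finset.prod_const]
  refine Finset.prod_le_prod (fun _ _ => by norm_num) (fun v _ => ?_)
  exact_mod_cast TD_two_le v

private theorem TD_dvd {K : Type} [Field K] [NumberField K] (S : Finset (FinitePlace K))
    (v : FinitePlace K) :
    v.maximalIdeal.asIdeal ∣ ∏ w ∈ S, w.maximalIdeal.asIdeal ↔ v ∈ S := by
  constructor
  · intro h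
    obtain ⟨w, hw, hd⟩ := (Prime.dvd_finsetProd_iff v.maximalIdeal.prime _).1 h
    have hle : w.maximalIdeal.asIdeal ≤ v.maximalIdeal.asIdeal := Ideal.dvd_iff_le.1 hd
    have heq : w.maximalIdeal.asIdeal = v.maximalIdeal.asIdeal :=
      w.maximalIdeal.isMaximal.eq_of_le v.maximalIdeal.isPrime.ne_top hle
    have h1 : w.maximalIdeal = v.maximalIdeal :=
      IsDedekindDomain.HeightOneSpectrum.asIdeal_injective heq
    have h2 : w = v := FinitePlace.maximalIdeal_injective h1
    exact h2 ▸ hw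
  · intro h
    exact Finset.dvd_prod_of_mem _ h

private theorem TD_inj {K : Type} [Field K] [NumberField K] :
    Function.Injective (fun S : Finset (FinitePlace K) => ∏ w ∈ S, w.maximalIdeal.asIdeal) := by
  intro S T h
  have h' : ∏ w ∈ S, w.maximalIdeal.asIdeal = ∏ w ∈ T, w.maximalIdeal.asIdeal := h
  ext v
  rw [← TD_dvd S v, ← TD_dvd T v, h']

private theorem TD_norm {K : Type} [Field K] [NumberField K] (S : Finset (FinitePlace K)) :
    ((Ideal.absNorm (∏ w ∈ S, w.maximalIdeal.asIdeal) : ℕ) : ℝ) = ∏ v ∈ S, (nrm v : ℝ) := by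
  rw [map_prod, Nat.cast_prod]
  rfl

private theorem TD_fin (K : Type) [Field K] [NumberField K] (T : ℝ) :
    {I : Ideal (𝓞 K) | (Ideal.absNorm I : ℝ) ≤ T}.Finite := by
  refine (Ideal.finite_setOfPred_absNorm_le (S := 𝓞 K) ⌊T⌋₊).subset ?_
  intro I hI
  have h1 : (Ideal.absNorm I : ℝ) ≤ T := hI
  exact Nat.le_floor h1

private theorem TD_mono (K : Type) [Field K] [NumberField K] {s t : ℝ} (h : s ≤ t) :
    Nat.card {I : Ideal (𝓞 K) // (Ideal.absNorm I : ℝ) ≤ s} ≤
      Nat.card {I : Ideal (𝓞 K) // (Ideal.absNorm I : ℝ) ≤ t} :=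
  Nat.card_mono (TD_fin K t) (fun _ hI => le_trans hI h)

private theorem TD_count (K : Type) [Field K] [NumberField K] : ∃ C : ℝ, 0 < C ∧ ∀ T : ℝ, 1 ≤ T →
    (Nat.card {I : Ideal (𝓞 K) // (Ideal.absNorm I : ℝ) ≤ T} : ℝ) ≤ C * T := by
  have hlim := NumberField.Ideal.tendsto_norm_le_div_atTop K
  set c : ℝ := (2 ^ InfinitePlace.nrRealPlaces K * (2 * Real.pi) ^ InfinitePlace.nrComplexPlaces K *
    Units.regulator K * classNumber K) / (Units.torsionOrder K * Real.sqrt |discr K|) with hc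
  have hev : ∀ᶠ s : ℝ in Filter.atTop,
      (Nat.card {I : Ideal (𝓞 K) // (Ideal.absNorm I : ℝ) ≤ s} : ℝ) / s < c + 1 :=
    hlim.eventually (gt_mem_nhds (lt_add_one c))
  obtain ⟨s0, hs0⟩ := Filter.eventually_atTop.1 hev
  set s1 : ℝ := max s0 1 with hs1
  have hs1one : 1 ≤ s1 := le_max_right _ _
  set N : ℝ := (Nat.card {I : Ideal (𝓞 K) // (Ideal.absNorm I : ℝ) ≤ s1} : ℝ) with hN
  have hN0 : 0 ≤ N := Nat.cast_nonneg _
  refine ⟨max (c + 1) N + 1, ?_, ?_⟩
  · have := le_max_right (c + 1) N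
    linarith
  · intro T hT
    have hT0 : 0 < T := lt_of_lt_of_le one_pos hT
    by_cases h : s1 ≤ T
    · have h1 := hs0 T (le_trans (le_max_left _ _) h)
      rw [div_lt_iff₀ hT0] at h1
      refine h1.le.trans (mul_le_mul_of_nonneg_right ?_ hT0.le)
      have := le_max_left (c + 1) N
      linarith
    · have h1 : (Nat.card {I : Ideal (𝓞 K) // (Ideal.absNorm I : ℝ) ≤ T} : ℝ) ≤ N := by
        rw [hN]
        exact_mod_cast TD_mono K (not_le.1 h).le
      have h2 : N ≤ max (c + 1) N + 1 := by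
        have := le_max_right (c + 1) N
        linarith
      calc (Nat.card {I : Ideal (𝓞 K) // (Ideal.absNorm I : ℝ) ≤ T} : ℝ) ≤ N := h1
        _ ≤ (max (c + 1) N + 1) * 1 := by rw [mul_one]; exact h2
        _ ≤ (max (c + 1) N + 1) * T := by
          refine mul_le_mul_of_nonneg_left hT ?_
          linarith

theorem card_nrm {K : Type} [Field K] [NumberField K] {S : Finset (FinitePlace K)} {T : ℝ}
    (h : ∏ v ∈ S, (nrm v : ℝ) ≤ T) : (S.card : ℝ) * Real.log 2 ≤ Real.log T := by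
  have h1 : (2 : ℝ) ^ S.card ≤ T := (TD_pow_le S).trans h
  have h2 : (0 : ℝ) < 2 ^ S.card := by positivity
  have h3 := Real.log_le_log h2 h1
  rwa [Real.log_pow] at h3

theorem cnt_nrm (K : Type) [Field K] [NumberField K] : ∃ C : ℝ, 0 < C ∧ ∀ T : ℝ, 1 ≤ T →
    ∃ 𝒮 : Finset (Finset (FinitePlace K)), (∀ S : Finset (FinitePlace K), ∏ v ∈ S, (nrm v : ℝ) ≤ T → S ∈ 𝒮) ∧
      (∀ S ∈ 𝒮, ∏ v ∈ S, (nrm v : ℝ) ≤ T) ∧ (𝒮.card : ℝ) ≤ C * T := by
  classical
  obtain ⟨C, hC0, hC⟩ := TD_count K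
  refine ⟨C, hC0, fun T hT => ?_⟩
  have hfin : {S : Finset (FinitePlace K) | ∏ v ∈ S, (nrm v : ℝ) ≤ T}.Finite := by
    refine Set.Finite.of_finite_image (f := fun S : Finset (FinitePlace K) =>
      ∏ w ∈ S, w.maximalIdeal.asIdeal) ((TD_fin K T).subset ?_) TD_inj.injOn
    rintro _ ⟨S, hS, rfl⟩
    have hS' : ∏ v ∈ S, (nrm v : ℝ) ≤ T := hS
    show ((Ideal.absNorm (∏ w ∈ S, w.maximalIdeal.asIdeal) : ℕ) : ℝ) ≤ T
    rw [TD_norm]
    exact hS'
  refine ⟨hfin.toFinset, fun S hS => hfin.mem_toFinset.2 hS, fun S hS => hfin.mem_toFinset.1 hS, ?_⟩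
  refine le_trans ?_ (hC T hT)
  have hI := TD_fin K T
  have hcard : hfin.toFinset.card ≤ hI.toFinset.card := by
    refine Finset.card_le_card_of_injOn (fun S : Finset (FinitePlace K) =>
      ∏ w ∈ S, w.maximalIdeal.asIdeal) ?_ TD_inj.injOn
    intro S hS
    have hS' : ∏ v ∈ S, (nrm v : ℝ) ≤ T := hfin.mem_toFinset.1 (Finset.mem_coe.1 hS)
    refine Finset.mem_coe.2 (hI.mem_toFinset.2 ?_)
    show ((Ideal.absNorm (∏ w ∈ S, w.maximalIdeal.asIdeal) : ℕ) : ℝ) ≤ T
    rw [TD_norm]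
    exact hS'
  have h2 : Nat.card {I : Ideal (𝓞 K) // (Ideal.absNorm I : ℝ) ≤ T} = hI.toFinset.card :=
    Nat.card_eq_card_finite_toFinset hI
  rw [h2]
  exact_mod_cast hcard

end OCM
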