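import Pool.Agent.Lib.MP_17a322_ntOC.S9

/-!
# BLOCK B: few primes of norm form with a large prime factor of the order
-/

namespace OCM

open Finset

theorem badD_card {δ : ℕ} (hδ : 1 ≤ δ) : ∃ C : ℝ, 0 < C ∧ ∀ A : ℝ, 1 < A → A ≤ 2 → ∀ Q : ℝ, 1 ≤ Q →
    ∃ x0 : ℝ, 2 ≤ x0 ∧ ∀ x : ℝ, x0 ≤ x → ∀ t : ℝ, x / Q ≤ t → t ≤ x →
      ((badD δ A x t).card : ℝ) ≤ C * (1 - 1 / A) * t / Real.log x :=
  badD_card' hδ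

end OCM
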