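import Pool.Agent.Lib.MP_17a322_ntOC.PDefs
import Pool.Agent.Lib.MP_17a322_ntOC.SMain
import Pool.Agent.Lib.MP_17a322_ntVB.BC
import Pool.Agent.Lib.MP_17a322_ntVY.ZS

/-!
# LEAF PA: many primes such that all the orders are smooth

PROOF.  Copy the proof of `smoothV` (`Pool/Agent/Lib/MP_17a322_ntVB/BC.lean`; the private lemmas `BC_block`, `BC_blocks` too, with the prefix `PA_`).  `Mean L (fun _ => True)` is `LVH.d1_sum L` (`MP_17a322_ntLH/T3A.lean`); `w = 1 / Module.finrank ℚ L`.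
Let `d0`, `p0` be good for `CMF (A' l) (B' l)` for all `l` (sums over `l`, or the case `h = 0`).  Three kinds of bad primes: `badm A x t` (`badm_card`: prime factors of `p - 1`), `MWS.bad A x t` (`MWS.bad_card`: prime factors of `p + 1`) and `badD δ A x t`, `1 ≤ δ ≤ d0` (`badD_card`): their union has at most `C (1 - 1 / A) t / log x` elements with `C = Ca + Cb + ∑ δ ∈ Icc 1 d0, C δ` (choose the `C δ`; `x0` the maximum or the sum of all the `x0`s).
A prime `p` of `(x / Q, x]` of degree one in `L` with `p ≥ p0` (take `x0 ≥ Q (p0 + 1)`) which is not in `SO L A' B' A Q x` is bad: if `p - 1` has a prime factor with `x < q ^ A` it is in `badm`.  Otherwise there are `π`, `l`; `res_hom π` (leaf `VD` of `MP_17a322_ntVY`: `φ : 𝓞 K →+* ZMod p` with `φ a = res π a`); by `CMF` the discriminant is not `0` (`ds (φ A) (φ B)` unfolds to `4 * (φ A) ^ 3 + 27 * (φ B) ^ 2`), so there is a prime `q ∣ nz + 1` with `x < q ^ A`.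
If `nz = p`: `p` is in `MWS.bad`.  Otherwise with `a = p - nz`: `(4 p - a²) δ = k²`, `1 ≤ δ ≤ d0`, and `nz + 1 = p + 1 - a`: `p` is in `badD δ` (`δ` as a natural number: `Int.toNat`).
-/

namespace OCM

open Finset NumberField LVH VK

open Classical in
/-- one block -/
private theorem PA_block {R : ℕ → Prop} {S : Finset ℕ} {x t B : ℝ} (hx : 1 < x) (ht : 0 < t) (htx : t ≤ x)
    (hS : ∀ p, 1 ≤ p → p ≤ ⌊t⌋₊ → p.Prime → R p → p ∈ S)
    (h : (S.card : ℝ) ≤ B * t / Real.log x) :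
    ∑ p ∈ Ioc ⌊t / 2⌋₊ ⌊t⌋₊, (if p.Prime ∧ R p then Real.log p / (p : ℝ) else 0) ≤ 2 * B := by
  have hlog : 0 < Real.log x := Real.log_pos hx
  have hsub : (Ioc ⌊t / 2⌋₊ ⌊t⌋₊).filter (fun p => p.Prime ∧ R p) ⊆ S := by
    intro p hp
    rw [mem_filter, mem_Ioc] at hp
    exact hS p (by omega) hp.1.2 hp.2.1 hp.2.2
  rw [← sum_filter]
  have h1 : ∀ p ∈ (Ioc ⌊t / 2⌋₊ ⌊t⌋₊).filter (fun p => p.Prime ∧ R p),
      Real.log p / (p : ℝ) ≤ Real.log x * (2 / t) := by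
    intro p hp
    rw [mem_filter, mem_Ioc] at hp
    obtain ⟨⟨hp1, hp2⟩, _⟩ := hp
    have h2 : t / 2 < p := (Nat.floor_lt (by positivity)).1 hp1
    have h3 : (p : ℝ) ≤ t := (Nat.le_floor_iff ht.le).1 hp2
    have hp0 : (0 : ℝ) < p := by linarith
    have h4 : Real.log p ≤ Real.log x := Real.log_le_log hp0 (h3.trans htx)
    have h5 : 1 / (p : ℝ) ≤ 2 / t := by
      rw [div_le_div_iff₀ hp0 ht]
      linarith
    calc Real.log p / (p : ℝ) = Real.log p * (1 / (p : ℝ)) := by ring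
      _ ≤ Real.log x * (1 / (p : ℝ)) := by gcongr
      _ ≤ Real.log x * (2 / t) := by gcongr
  refine (sum_le_card_nsmul _ _ _ h1).trans ?_
  rw [nsmul_eq_mul]
  have h2 : (((Ioc ⌊t / 2⌋₊ ⌊t⌋₊).filter (fun p => p.Prime ∧ R p)).card : ℝ) ≤ B * t / Real.log x := by
    refine le_trans ?_ h
    exact_mod_cast card_le_card hsub
  calc (((Ioc ⌊t / 2⌋₊ ⌊t⌋₊).filter (fun p => p.Prime ∧ R p)).card : ℝ) *
        (Real.log x * (2 / t)) ≤ B * t / Real.log x * (Real.log x * (2 / t)) := by gcongr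
    _ = 2 * B := by
        field_simp

open Classical in
/-- the blocks `(x / 2 ^ r, x]` -/
private theorem PA_blocks {R : ℕ → Prop} {S : ℝ → Finset ℕ} {x B : ℝ} (hx : 1 < x)
    (hS : ∀ t p, 1 ≤ p → p ≤ ⌊t⌋₊ → p.Prime → R p → p ∈ S t) (r : ℕ)
    (h : ∀ i : ℕ, i < r → ((S (x / 2 ^ i)).card : ℝ) ≤ B * (x / 2 ^ i) / Real.log x) :
    ∑ p ∈ Ioc ⌊x / 2 ^ r⌋₊ ⌊x⌋₊, (if p.Prime ∧ R p then Real.log p / (p : ℝ) else 0) ≤ 2 * B * r := by
  induction r with
  | zero => simp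
  | succ r ih =>
    have h1 := ih fun i hi => h i (by omega)
    have h2 : x / 2 ^ (r + 1) = x / 2 ^ r / 2 := by
      rw [pow_succ]
      field_simp
    have h3 : ⌊x / 2 ^ (r + 1)⌋₊ ≤ ⌊x / 2 ^ r⌋₊ := by
      apply Nat.floor_le_floor
      rw [h2]
      have : 0 < x / 2 ^ r := by positivity
      linarith
    have h4 : ⌊x / 2 ^ r⌋₊ ≤ ⌊x⌋₊ := by
      apply Nat.floor_le_floor
      apply div_le_self (by linarith)
      exact one_le_pow₀ (by norm_num)
    rw [← Finset.sum_Ioc_consecutive _ h3 h4, h2]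
    have h5 := PA_block (R := R) (S := S (x / 2 ^ r)) hx (t := x / 2 ^ r) (by positivity)
      (div_le_self (by linarith) (one_le_pow₀ (by norm_num))) (hS (x / 2 ^ r)) (h r (by omega))
    push_cast
    linarith

/-- a family of sets with few elements -/
private def PA_Bd (S : ℝ → ℝ → ℝ → Finset ℕ) : Prop :=
  ∃ C : ℝ, 0 < C ∧ ∀ A : ℝ, 1 < A → A ≤ 2 → ∀ Q : ℝ, 1 ≤ Q → ∃ x0 : ℝ, 2 ≤ x0 ∧ ∀ x : ℝ, x0 ≤ x →
    ∀ t : ℝ, x / Q ≤ t → t ≤ x → ((S A x t).card : ℝ) ≤ C * (1 - 1 / A) * t / Real.log x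

private theorem PA_union {S S' : ℝ → ℝ → ℝ → Finset ℕ} (h : PA_Bd S) (h' : PA_Bd S') :
    PA_Bd (fun A x t => S A x t ∪ S' A x t) := by
  obtain ⟨C, hC, h⟩ := h
  obtain ⟨C', hC', h'⟩ := h'
  refine ⟨C + C', by positivity, fun A hA hA2 Q hQ => ?_⟩
  obtain ⟨x0, hx0, h⟩ := h A hA hA2 Q hQ
  obtain ⟨x0', hx0', h'⟩ := h' A hA hA2 Q hQ
  refine ⟨max x0 x0', hx0.trans (le_max_left _ _), fun x hx t h1 h2 => ?_⟩
  have h3 := h x ((le_max_left _ _).trans hx) t h1 h2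
  have h4 := h' x ((le_max_right _ _).trans hx) t h1 h2
  have h5 : ((S A x t ∪ S' A x t).card : ℝ) ≤ ((S A x t).card : ℝ) + ((S' A x t).card : ℝ) := by
    exact_mod_cast card_union_le _ _
  have h6 : (C + C') * (1 - 1 / A) * t / Real.log x =
      C * (1 - 1 / A) * t / Real.log x + C' * (1 - 1 / A) * t / Real.log x := by ring
  rw [h6]
  linarith

private theorem PA_biUnion {S : ℕ → ℝ → ℝ → ℝ → Finset ℕ} (T : Finset ℕ) (h : ∀ δ ∈ T, PA_Bd (S δ)) :
    PA_Bd (fun A x t => T.biUnion fun δ => S δ A x t) := by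
  induction T using Finset.induction_on with
  | empty =>
    refine ⟨1, one_pos, fun A hA hA2 Q hQ => ⟨2, le_rfl, fun x hx t h1 h2 => ?_⟩⟩
    show (((∅ : Finset ℕ).biUnion fun δ => S δ A x t).card : ℝ) ≤ _
    rw [biUnion_empty, card_empty, Nat.cast_zero]
    have h3 : 0 ≤ 1 - 1 / A := by
      have : 1 / A ≤ 1 := by
        rw [div_le_one (by linarith)]
        exact hA.le
      linarith
    have h4 : 0 ≤ t := le_trans (div_nonneg (by linarith) (by linarith)) h1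
    have h5 : 0 ≤ Real.log x := Real.log_nonneg (by linarith)
    positivity
  | insert δ T hδ ih =>
    have h1 := PA_union (h δ (mem_insert_self δ T)) (ih fun δ' hδ' => h δ' (mem_insert_of_mem hδ'))
    have h2 : (fun A x t => (insert δ T).biUnion fun δ => S δ A x t) =
        fun A x t => S δ A x t ∪ T.biUnion fun δ => S δ A x t := by
      funext A x t
      rw [biUnion_insert]
    rw [h2]
    exact h1

open Classical in
private theorem PA_main (L : Type) [Field L] [NumberField L] {S : ℝ → ℝ → ℝ → Finset ℕ} (hS : PA_Bd S)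
    (O : ℝ → ℝ → ℝ → Finset ℕ) (hO : ∀ A Q x, O A Q x ⊆ Ioc ⌊x / Q⌋₊ ⌊x⌋₊)
    (hb : ∀ Q : ℝ, 1 ≤ Q → ∃ x1 : ℝ, ∀ x : ℝ, x1 ≤ x → ∀ A : ℝ, ∀ p ∈ Ioc ⌊x / Q⌋₊ ⌊x⌋₊, p.Prime → D1 L p →
      p ∉ O A Q x → ∀ t : ℝ, p ≤ ⌊t⌋₊ → p ∈ S A x t) :
    ∃ A : ℝ, 1 < A ∧ A ≤ 2 ∧ ∃ Q : ℝ, 1 ≤ Q ∧ ∃ x0 : ℝ, 2 ≤ x0 ∧ ∀ x : ℝ, x0 ≤ x →
      x / (Q * Real.log x) ≤ ((O A Q x).card : ℝ) := by
  obtain ⟨C, hC, hbad⟩ := hS
  obtain ⟨CD, hCD, hin⟩ := LVH.d1_sum L
  obtain ⟨w, hw⟩ : ∃ w : ℝ, w = 1 / (Module.finrank ℚ L : ℝ) := ⟨_, rfl⟩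
  have hw0 : 0 < w := by
    have hn0 : 0 < Module.finrank ℚ L := Module.finrank_pos
    rw [hw]
    positivity
  rw [← hw] at hin
  have hl2 : 0 < Real.log 2 := Real.log_pos (by norm_num)
  obtain ⟨c, hc⟩ : ∃ c : ℝ, c = min 1 (w * Real.log 2 / (4 * C)) := ⟨_, rfl⟩
  have hc0 : 0 < c := by rw [hc]; exact lt_min one_pos (by positivity)
  have hc1 : c ≤ 1 := by rw [hc]; exact min_le_left _ _
  have hc2 : 4 * C * c ≤ w * Real.log 2 := by
    have h1 : c ≤ w * Real.log 2 / (4 * C) := by rw [hc]; exact min_le_right _ _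
    rwa [le_div_iff₀ (by positivity), mul_comm] at h1
  have hAc : 1 - 1 / (1 + c) ≤ c := by
    have h1 : 1 - 1 / (1 + c) = c / (1 + c) := by
      field_simp
      ring
    rw [h1]
    exact div_le_self hc0.le (by linarith)
  obtain ⟨r, hr⟩ := exists_nat_ge (2 * (CD + 1) / (w * Real.log 2))
  have hr' : 2 * (CD + 1) ≤ r * (w * Real.log 2) := by rwa [div_le_iff₀ (by positivity)] at hr
  obtain ⟨Q, hQ⟩ : ∃ Q : ℝ, Q = 2 ^ r := ⟨_, rfl⟩
  have hQ1 : 1 ≤ Q := by rw [hQ]; exact one_le_pow₀ (by norm_num)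
  have hQ0 : 0 < Q := by linarith
  obtain ⟨xa, hxa2, hxa⟩ := hbad (1 + c) (by linarith) (by linarith) Q hQ1
  obtain ⟨xb, hxb⟩ := hb Q hQ1
  refine ⟨1 + c, by linarith, by linarith, Q, hQ1, max (max xa xb) (2 * Q),
    le_trans hxa2 (le_trans (le_max_left _ _) (le_max_left _ _)), fun x hx => ?_⟩
  have hxxa : xa ≤ x := ((le_max_left _ _).trans (le_max_left _ _)).trans hx
  have hxxb : xb ≤ x := ((le_max_right _ _).trans (le_max_left _ _)).trans hx
  have hx2Q : 2 * Q ≤ x := (le_max_right _ _).trans hx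
  have hx2 : 2 ≤ x := by linarith
  have hx0 : 0 < x := by linarith
  have hlog : 0 < Real.log x := Real.log_pos (by linarith)
  have hxQ2 : 2 ≤ x / Q := by
    rw [le_div_iff₀ hQ0]
    exact hx2Q
  have hlogQ : Real.log Q = r * Real.log 2 := by rw [hQ, Real.log_pow]
  have h1 := hin (x / Q) x hxQ2 (div_le_self hx0.le hQ1)
  have h2 : x / (x / Q) = Q := by
    field_simp
  rw [h2, hlogQ] at h1
  -- the bad primes
  obtain ⟨R, hR⟩ : ∃ R : ℕ → Prop, R = fun p => p ∈ Ioc ⌊x / Q⌋₊ ⌊x⌋₊ ∧ D1 L p ∧ p ∉ O (1 + c) Q x :=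
    ⟨_, rfl⟩
  have h3 := PA_blocks (R := R) (S := fun t => S (1 + c) x t) (x := x)
    (B := C * (1 - 1 / (1 + c))) (by linarith) (by
      intro t p hp1 hp2 hp hRp
      rw [hR] at hRp
      exact hxb x hxxb (1 + c) p hRp.1 hp hRp.2.1 hRp.2.2 t hp2) r (by
    intro i hi
    have h4 : x / Q ≤ x / 2 ^ i := by
      rw [hQ]
      apply div_le_div_of_nonneg_left hx0.le (by positivity)
      exact pow_le_pow_right₀ (by norm_num) hi.le
    have h5 : x / 2 ^ i ≤ x := div_le_self hx0.le (one_le_pow₀ (by norm_num))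
    exact hxa x hxxa (x / 2 ^ i) h4 h5)
  rw [← hQ] at h3
  have h4 : 2 * (C * (1 - 1 / (1 + c))) * r ≤ 1 / 2 * (r * (w * Real.log 2)) := by
    have h5 : C * (1 - 1 / (1 + c)) ≤ C * c := mul_le_mul_of_nonneg_left hAc hC.le
    have h6 : 2 * (C * (1 - 1 / (1 + c))) ≤ 1 / 2 * (w * Real.log 2) := by linarith
    calc 2 * (C * (1 - 1 / (1 + c))) * r ≤ 1 / 2 * (w * Real.log 2) * r := by gcongr
      _ = 1 / 2 * (r * (w * Real.log 2)) := by ring
  -- splitting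
  have h5 : ∑ p ∈ (Ioc ⌊x / Q⌋₊ ⌊x⌋₊).filter (fun p => p.Prime ∧ D1 L p), Real.log p / (p : ℝ) ≤
      (∑ p ∈ O (1 + c) Q x, Real.log p / (p : ℝ)) +
      ∑ p ∈ Ioc ⌊x / Q⌋₊ ⌊x⌋₊, (if p.Prime ∧ R p then Real.log p / (p : ℝ) else 0) := by
    have e1 : ∑ p ∈ O (1 + c) Q x, Real.log p / (p : ℝ) =
        ∑ p ∈ Ioc ⌊x / Q⌋₊ ⌊x⌋₊, (if p ∈ O (1 + c) Q x then Real.log p / (p : ℝ) else 0) := by
      rw [sum_ite_mem, inter_eq_right.2 (hO _ _ _)]
    rw [e1, sum_filter, ← sum_add_distrib]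
    apply sum_le_sum
    intro p hpI
    have hp0 : 0 ≤ Real.log p / (p : ℝ) := div_nonneg (Real.log_natCast_nonneg p) (Nat.cast_nonneg p)
    by_cases ha : p.Prime ∧ D1 L p
    · rw [if_pos ha]
      by_cases hb : p ∈ O (1 + c) Q x
      · rw [if_pos hb]
        have : 0 ≤ (if p.Prime ∧ R p then Real.log p / (p : ℝ) else 0) := by
          split_ifs
          · exact hp0
          · exact le_rfl
        linarith
      · have hRp : R p := by rw [hR]; exact ⟨hpI, ha.2, hb⟩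
        rw [if_neg hb, if_pos (⟨ha.1, hRp⟩ : p.Prime ∧ R p), zero_add]
    · rw [if_neg ha]
      apply add_nonneg
      · split_ifs
        · exact hp0
        · exact le_rfl
      · split_ifs
        · exact hp0
        · exact le_rfl
  have h6 : 1 ≤ ∑ p ∈ O (1 + c) Q x, Real.log p / (p : ℝ) := by
    have e1 : w * ((r : ℝ) * Real.log 2) = r * (w * Real.log 2) := by ring
    rw [e1] at h1
    linarith
  -- each term
  have h7 : ∀ p ∈ O (1 + c) Q x, Real.log p / (p : ℝ) ≤ Real.log x * (Q / x) := by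
    intro p hp
    have hpI := hO _ _ _ hp
    rw [mem_Ioc] at hpI
    have h8 : x / Q < p := (Nat.floor_lt (by positivity)).1 hpI.1
    have h9 : (p : ℝ) ≤ x := (Nat.le_floor_iff hx0.le).1 hpI.2
    have hp0 : (0 : ℝ) < p := by linarith
    have h10 : Real.log p ≤ Real.log x := Real.log_le_log hp0 h9
    have h11 : 1 / (p : ℝ) ≤ Q / x := by
      rw [div_le_div_iff₀ hp0 hx0]
      rw [div_lt_iff₀ hQ0] at h8
      linarith
    calc Real.log p / (p : ℝ) = Real.log p * (1 / (p : ℝ)) := by ring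
      _ ≤ Real.log x * (1 / (p : ℝ)) := by gcongr
      _ ≤ Real.log x * (Q / x) := by gcongr
  have h8 := sum_le_card_nsmul _ _ _ h7
  rw [nsmul_eq_mul] at h8
  rw [div_le_iff₀ (by positivity)]
  have h9 : 1 ≤ ((O (1 + c) Q x).card : ℝ) * (Real.log x * (Q / x)) := h6.trans h8
  have h10 : ((O (1 + c) Q x).card : ℝ) * (Real.log x * (Q / x)) =
      ((O (1 + c) Q x).card : ℝ) * (Q * Real.log x) / x := by ring
  rw [h10, le_div_iff₀ hx0, one_mul] at h9
  exact h9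

theorem smo_of {K : Type} [Field K] [NumberField K] (L : Type) [Field L] [NumberField L] {h : ℕ} (A' B' : Fin h → 𝓞 K)
    (hc : ∀ l, CMF (A' l) (B' l)) : Smo L A' B' := by
  classical
  choose d p0 hcm using hc
  obtain ⟨D, hD⟩ : ∃ D : ℕ, ∀ l, d l ≤ D := ⟨univ.sup d, fun l => le_sup (f := d) (mem_univ l)⟩
  obtain ⟨P, hP⟩ : ∃ P : ℕ, ∀ l, p0 l ≤ P := ⟨univ.sup p0, fun l => le_sup (f := p0) (mem_univ l)⟩
  have hS : PA_Bd (fun A x t => (badm A x t ∪ MWS.bad A x t) ∪ (Icc 1 D).biUnion fun δ => badD δ A x t) :=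
    PA_union (PA_union badm_card MWS.bad_card)
      (PA_biUnion (Icc 1 D) fun δ hδ => badD_card (mem_Icc.1 hδ).1)
  refine PA_main L hS (fun A Q x => SO L A' B' A Q x) (fun A Q x => ?_) ?_
  · unfold SO
    exact filter_subset _ _
  · intro Q hQ
    refine ⟨Q * (P + 1), fun x hx A p hpI hp hD1 hpO t hpt => ?_⟩
    have hQ0 : 0 < Q := by linarith
    have hx1 : (P : ℝ) + 1 ≤ x / Q := by
      rw [le_div_iff₀ hQ0, mul_comm]
      exact hx
    have hPp : P ≤ p := by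
      have h1 : x / Q < p := (Nat.floor_lt (le_trans (by positivity) hx1)).1 (mem_Ioc.1 hpI).1
      have h2 : (P : ℝ) ≤ p := by linarith
      exact_mod_cast h2
    have hpF : Fact p.Prime := ⟨hp⟩
    by_contra hcon
    rw [mem_union, mem_union, not_or, not_or] at hcon
    obtain ⟨⟨hm, hb⟩, hd⟩ := hcon
    apply hpO
    unfold SO
    rw [mem_filter]
    refine ⟨hpI, hp, hD1, fun π l => ?_, fun q hq hqd => ?_⟩
    · obtain ⟨φ, hφ⟩ := res_hom π
      obtain ⟨h1, h2⟩ := hcm l p ((hP l).trans hPp) φ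
      rw [hφ, hφ] at h1 h2
      refine ⟨h1, fun q hq hqd => ?_⟩
      by_contra hqx
      rw [not_le] at hqx
      rcases h2 with h2 | ⟨δ, k, hδ1, hδ2, h2⟩
      · apply hb
        unfold MWS.bad
        rw [mem_filter, mem_Icc]
        rw [h2] at hqd
        exact ⟨⟨hp.one_le, hpt⟩, hp, q, hq, hqd, hqx⟩
      · apply hd
        rw [mem_biUnion]
        have e1 : ((δ.toNat : ℕ) : ℤ) = δ := Int.toNat_of_nonneg (by omega)
        refine ⟨δ.toNat, ?_, ?_⟩
        · rw [mem_Icc]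
          have := hD l
          omega
        · unfold badD
          rw [mem_filter, mem_Icc]
          refine ⟨⟨hp.one_le, hpt⟩, hp, (p : ℤ) - MWS.nz (res π ((A' l : 𝓞 K) : K)) (res π ((B' l : 𝓞 K) : K)), k,
            ?_, q, hq, ?_, hqx⟩
          · rw [e1]
            exact h2
          · have e2 : (p : ℤ) + 1 - ((p : ℤ) - MWS.nz (res π ((A' l : 𝓞 K) : K)) (res π ((B' l : 𝓞 K) : K))) =
                ((MWS.nz (res π ((A' l : 𝓞 K) : K)) (res π ((B' l : 𝓞 K) : K)) + 1 : ℕ) : ℤ) := by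
              push_cast
              ring
            rw [e2]
            exact Int.natCast_dvd_natCast.2 hqd
    · by_contra hqx
      rw [not_le] at hqx
      apply hm
      unfold badm
      rw [mem_filter, mem_Icc]
      exact ⟨⟨hp.one_le, hpt⟩, hp, q, hq, hqd, hqx⟩

end OCM
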