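import Pool.Agent.Lib.MP_17a322_ntVU.W1
import Pool.Agent.Lib.MP_17a322_ntVU.W3
import Pool.Agent.Lib.MP_17a322_ntLH.F8

/-!
# LEAF TE: the primes under the places of `S`

PROOF of `below`.  For a finite place `v` there is at most one prime `p` with `v (p : K) < 1` (`LVH.place_coprime`: for `p' ≠ p`, `¬ p ∣ p'`, so `v p' = 1`).  Choose `f v` = a prime with `v (f v) < 1` if there is one, else `0`; `Bd = S.image f` (`Finset.card_image_le`).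
PROOF of `su_unit`.  `pl_iff K hp π` gives `v` with `v p < 1` and `x ∈ π.V ↔ v x ≤ 1`; `v ∉ S`, so `v γ = 1`, `v γ⁻¹ = 1`.
PROOF of `sup_unit`.  The `g : Kˣ` with `g ∈ π.V`, `g⁻¹ ∈ π.V` form a subgroup `U` (define it, as in `fg_pl` of `MP_17a322_ntCT/PD.lean`); `Γ₁ ≤ U`, `Γ₂ ≤ U`, `sup_le`.
-/

namespace OCM

open NumberField LVH VK VU

theorem below {K : Type} [Field K] [NumberField K] (S : Finset (FinitePlace K)) : ∃ Bd : Finset ℕ, Bd.card ≤ S.card ∧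
    ∀ p : ℕ, p.Prime → p ∉ Bd → ∀ v : FinitePlace K, v (p : K) < 1 → v ∉ S := by
  classical
  let f : FinitePlace K → ℕ := fun v => if h : ∃ p : ℕ, p.Prime ∧ v (p : K) < 1 then h.choose else 0
  refine ⟨S.image f, Finset.card_image_le, fun p hp hpB v hv hvS => hpB (Finset.mem_image.2 ⟨v, hvS, ?_⟩)⟩
  have h : ∃ p : ℕ, p.Prime ∧ v (p : K) < 1 := ⟨p, hp, hv⟩
  show (if h : ∃ p : ℕ, p.Prime ∧ v (p : K) < 1 then h.choose else 0) = p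
  rw [dif_pos h]
  by_contra hne
  have h1 : ¬ h.choose ∣ p := fun hd => hne ((Nat.prime_dvd_prime_iff_eq h.choose_spec.1 hp).1 hd)
  have h2 := place_coprime K v h.choose_spec.1 h.choose_spec.2 h1
  rw [h2] at hv
  exact lt_irrefl _ hv

theorem su_unit {K : Type} [Field K] [NumberField K] {S : Finset (FinitePlace K)} {p : ℕ} (hp : p.Prime) (π : Pl K p)
    (h : ∀ v : FinitePlace K, v (p : K) < 1 → v ∉ S) : ∀ γ ∈ Su S, (γ : K) ∈ π.V ∧ (γ : K)⁻¹ ∈ π.V := by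
  intro γ hγ
  obtain ⟨v, hv, hx⟩ := pl_iff K hp π
  have h1 := mem_Su.1 hγ v (h v hv)
  refine ⟨(hx _).2 h1.le, (hx _).2 ?_⟩
  rw [map_inv₀, h1, inv_one]

theorem sup_unit {K : Type} [Field K] {p : ℕ} {π : Pl K p} {Γ₁ Γ₂ : Subgroup Kˣ}
    (h1 : ∀ γ ∈ Γ₁, (γ : K) ∈ π.V ∧ (γ : K)⁻¹ ∈ π.V) (h2 : ∀ γ ∈ Γ₂, (γ : K) ∈ π.V ∧ (γ : K)⁻¹ ∈ π.V) :
    ∀ γ ∈ Γ₁ ⊔ Γ₂, (γ : K) ∈ π.V ∧ (γ : K)⁻¹ ∈ π.V := by
  let U : Subgroup Kˣ :=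
    { carrier := {g | (g : K) ∈ π.V ∧ (g : K)⁻¹ ∈ π.V}
      mul_mem' := fun {a b} ha hb => by
        show ((a * b : Kˣ) : K) ∈ π.V ∧ ((a * b : Kˣ) : K)⁻¹ ∈ π.V
        rw [Units.val_mul, mul_inv]
        exact ⟨π.V.mul_mem _ _ ha.1 hb.1, π.V.mul_mem _ _ ha.2 hb.2⟩
      one_mem' := by
        show ((1 : Kˣ) : K) ∈ π.V ∧ ((1 : Kˣ) : K)⁻¹ ∈ π.V
        rw [Units.val_one, inv_one]
        exact ⟨π.V.one_mem, π.V.one_mem⟩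
      inv_mem' := fun {a} ha => by
        show ((a⁻¹ : Kˣ) : K) ∈ π.V ∧ ((a⁻¹ : Kˣ) : K)⁻¹ ∈ π.V
        rw [Units.val_inv_eq_inv_val, inv_inv]
        exact ⟨ha.2, ha.1⟩ }
  have h : Γ₁ ⊔ Γ₂ ≤ U := sup_le (fun γ hγ => h1 γ hγ) (fun γ hγ => h2 γ hγ)
  exact fun γ hγ => h hγ

end OCM
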