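import Pool.Agent.Lib.MP_17a322_ntVK.SD6

/-!
# LEAF TF: the box: the trivial bound and the union bound

PROOF of `box_triv`.  As in `box_le` (`MP_17a322_ntVK/SD6.lean`): the subtype injects into the finite type `(Fin g → (Fin e → Icc (-H²) H²) × (Fin e → Icc (-H³) H³)) × (τ → Icc (-H) H)`, of cardinality `(((2 H² + 1) ^ e) * ((2 H³ + 1) ^ e)) ^ g * (2 H + 1) ^ card τ ≤ ((16 H^5) ^ e) ^ g * (4 H) ^ card τ` (`2 H² + 1 ≤ 4 H²`, `2 H³ + 1 ≤ 4 H³`, `2 H + 1 ≤ 4 H` as `H ≥ 1`; `PC_B0` in `MP_17a322_ntOC/PC.lean` is the same computation).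
PROOF of `box_union`.  All the subtypes are finite (the same injection).  `Nat.card` of the sigma type `Σ i : 𝒮, {z // Box ω H z ∧ Q' i z}` is the sum (`Nat.card_sigma`, `Finset.sum_coe_sort`), and the subtype injects into it.
-/

namespace OCM

open Finset NumberField VK

private abbrev TF_T (e g : ℕ) (τ : Type) (H : ℕ) : Type :=
  (Fin g → (Fin e → (Icc (-(H : ℤ) ^ 2) ((H : ℤ) ^ 2) : Finset ℤ)) ×
    (Fin e → (Icc (-(H : ℤ) ^ 3) ((H : ℤ) ^ 3) : Finset ℤ))) × (τ → (Icc (-(H : ℤ)) H : Finset ℤ))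

private theorem TF_inj {K : Type} [Field K] [NumberField K] {e g : ℕ} {τ : Type} (ω : Fin e → 𝓞 K) (H : ℕ)
    (Q : Cv e g × (τ → ℤ) → Prop) :
    ∃ f : {z : Cv e g × (τ → ℤ) // Box ω H z ∧ Q z} → TF_T e g τ H, Function.Injective f := by
  refine ⟨fun z => (fun l => (fun i => ⟨(z.1.1 l).1 i, mem_Icc.2 (abs_le.1 ((z.2.1.1 l).2.1 i))⟩,
        fun i => ⟨(z.1.1 l).2 i, mem_Icc.2 (abs_le.1 ((z.2.1.1 l).2.2 i))⟩),
        fun i => ⟨z.1.2 i, mem_Icc.2 (abs_le.1 (z.2.1.2 i))⟩), fun a b hab => ?_⟩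
  have h1 : a.1.1 = b.1.1 := by
    funext l
    refine Prod.ext (funext fun i => ?_) (funext fun i => ?_)
    · exact congrArg (fun w : TF_T e g τ H => ((w.1 l).1 i : ℤ)) hab
    · exact congrArg (fun w : TF_T e g τ H => ((w.1 l).2 i : ℤ)) hab
  have h2 : a.1.2 = b.1.2 := by
    funext i
    exact congrArg (fun w : TF_T e g τ H => (w.2 i : ℤ)) hab
  exact Subtype.ext (Prod.ext h1 h2)

private theorem TF_fin {K : Type} [Field K] [NumberField K] {e g : ℕ} {τ : Type} [Fintype τ] (ω : Fin e → 𝓞 K) (H : ℕ)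
    (Q : Cv e g × (τ → ℤ) → Prop) : Finite {z : Cv e g × (τ → ℤ) // Box ω H z ∧ Q z} := by
  obtain ⟨f, hf⟩ := TF_inj ω H Q
  exact Finite.of_injective f hf

private theorem TF_card (e g : ℕ) (τ : Type) [Fintype τ] (H : ℕ) : Nat.card (TF_T e g τ H) =
    ((2 * H ^ 2 + 1) ^ e * (2 * H ^ 3 + 1) ^ e) ^ g * (2 * H + 1) ^ Fintype.card τ := by
  classical
  have e1 : (Icc (-(H : ℤ) ^ 2) ((H : ℤ) ^ 2)).card = 2 * H ^ 2 + 1 := by
    rw [Int.card_Icc]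
    have : (H : ℤ) ^ 2 + 1 - -(H : ℤ) ^ 2 = ((2 * H ^ 2 + 1 : ℕ) : ℤ) := by push_cast; ring
    rw [this, Int.toNat_natCast]
  have e2 : (Icc (-(H : ℤ) ^ 3) ((H : ℤ) ^ 3)).card = 2 * H ^ 3 + 1 := by
    rw [Int.card_Icc]
    have : (H : ℤ) ^ 3 + 1 - -(H : ℤ) ^ 3 = ((2 * H ^ 3 + 1 : ℕ) : ℤ) := by push_cast; ring
    rw [this, Int.toNat_natCast]
  have e3 : (Icc (-(H : ℤ)) (H : ℤ)).card = 2 * H + 1 := by
    rw [Int.card_Icc]
    have : (H : ℤ) + 1 - -(H : ℤ) = ((2 * H + 1 : ℕ) : ℤ) := by push_cast; ring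
    rw [this, Int.toNat_natCast]
  rw [Nat.card_eq_fintype_card, Fintype.card_prod, Fintype.card_fun, Fintype.card_fun, Fintype.card_prod,
    Fintype.card_fun, Fintype.card_fun, Fintype.card_coe, Fintype.card_coe, Fintype.card_coe, e1, e2, e3,
    Fintype.card_fin, Fintype.card_fin]

theorem box_triv {K : Type} [Field K] [NumberField K] {e g : ℕ} {τ : Type} [Fintype τ] (ω : Fin e → 𝓞 K) {H : ℕ}
    (hH : 1 ≤ H) (Q : Cv e g × (τ → ℤ) → Prop) :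
    (Nat.card {z : Cv e g × (τ → ℤ) // Box ω H z ∧ Q z} : ℝ) ≤
      (16 ^ e) ^ g * 4 ^ Fintype.card τ * (H : ℝ) ^ (Fintype.card τ + 5 * e * g) := by
  obtain ⟨f, hf⟩ := TF_inj ω H Q
  have h0 : Nat.card {z : Cv e g × (τ → ℤ) // Box ω H z ∧ Q z} ≤ Nat.card (TF_T e g τ H) :=
    Nat.card_le_card_of_injective f hf
  rw [TF_card] at h0
  have h1 : (1 : ℝ) ≤ H := by exact_mod_cast hH
  have h2 : (1 : ℝ) ≤ (H : ℝ) ^ 2 := one_le_pow₀ h1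
  have h3 : (1 : ℝ) ≤ (H : ℝ) ^ 3 := one_le_pow₀ h1
  have h4 : (Nat.card {z : Cv e g × (τ → ℤ) // Box ω H z ∧ Q z} : ℝ) ≤
      ((2 * (H : ℝ) ^ 2 + 1) ^ e * (2 * (H : ℝ) ^ 3 + 1) ^ e) ^ g * (2 * (H : ℝ) + 1) ^ Fintype.card τ := by
    exact_mod_cast h0
  refine h4.trans ?_
  have h5 : (2 * (H : ℝ) ^ 2 + 1) ^ e * (2 * (H : ℝ) ^ 3 + 1) ^ e ≤ (16 * (H : ℝ) ^ 5) ^ e := by
    rw [← mul_pow]
    refine pow_le_pow_left₀ (by positivity) ?_ e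
    calc (2 * (H : ℝ) ^ 2 + 1) * (2 * (H : ℝ) ^ 3 + 1)
        ≤ (4 * (H : ℝ) ^ 2) * (4 * (H : ℝ) ^ 3) :=
          mul_le_mul (by linarith) (by linarith) (by positivity) (by positivity)
      _ = 16 * (H : ℝ) ^ 5 := by ring
  have h6 : (2 * (H : ℝ) + 1) ^ Fintype.card τ ≤ (4 * (H : ℝ)) ^ Fintype.card τ :=
    pow_le_pow_left₀ (by positivity) (by linarith) _
  calc ((2 * (H : ℝ) ^ 2 + 1) ^ e * (2 * (H : ℝ) ^ 3 + 1) ^ e) ^ g * (2 * (H : ℝ) + 1) ^ Fintype.card τ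
      ≤ ((16 * (H : ℝ) ^ 5) ^ e) ^ g * (4 * (H : ℝ)) ^ Fintype.card τ :=
        mul_le_mul (pow_le_pow_left₀ (by positivity) h5 g) h6 (by positivity) (by positivity)
    _ = (16 ^ e) ^ g * 4 ^ Fintype.card τ * (H : ℝ) ^ (Fintype.card τ + 5 * e * g) := by
        rw [mul_pow, mul_pow, mul_pow, pow_add, pow_mul, pow_mul]
        ring

theorem box_union {K : Type} [Field K] [NumberField K] {e g : ℕ} {τ : Type} [Fintype τ] (ω : Fin e → 𝓞 K) (H : ℕ)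
    {I : Type} (𝒮 : Finset I) (Q : Cv e g × (τ → ℤ) → Prop) (Q' : I → Cv e g × (τ → ℤ) → Prop)
    (h : ∀ z, Box ω H z → Q z → ∃ i ∈ 𝒮, Q' i z) :
    Nat.card {z : Cv e g × (τ → ℤ) // Box ω H z ∧ Q z} ≤
      ∑ i ∈ 𝒮, Nat.card {z : Cv e g × (τ → ℤ) // Box ω H z ∧ Q' i z} := by
  have hfin : ∀ i, Finite {z : Cv e g × (τ → ℤ) // Box ω H z ∧ Q' i z} := fun i => TF_fin ω H (Q' i)
  have hs : Nat.card (Σ i : 𝒮, {z : Cv e g × (τ → ℤ) // Box ω H z ∧ Q' i z}) =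
      ∑ i ∈ 𝒮, Nat.card {z : Cv e g × (τ → ℤ) // Box ω H z ∧ Q' i z} := by
    rw [Nat.card_sigma]
    exact Finset.sum_coe_sort 𝒮 fun i => Nat.card {z : Cv e g × (τ → ℤ) // Box ω H z ∧ Q' i z}
  rw [← hs]
  choose i hi hQ using fun z : {z : Cv e g × (τ → ℤ) // Box ω H z ∧ Q z} => h z.1 z.2.1 z.2.2
  refine Nat.card_le_card_of_injective
    (fun z => (⟨⟨i z, hi z⟩, ⟨z.1, z.2.1, hQ z⟩⟩ : Σ i : 𝒮, {z : Cv e g × (τ → ℤ) // Box ω H z ∧ Q' i z})) ?_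
  intro a b hab
  exact Subtype.ext (congrArg (fun w : (Σ i : 𝒮, {z : Cv e g × (τ → ℤ) // Box ω H z ∧ Q' i z}) => w.2.1) hab)

end OCM
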