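import Mathlib

/-!
# LEAF TG: the parameters

PROOF.  `x = log H → ∞`; `x ^ (c₀ / 2) = o (x ^ c₀)` and `x ^ c₀ → ∞` (`isLittleO_rpow_rpow`, `tendsto_rpow_atTop`, `Real.tendsto_log_atTop`, `tendsto_natCast_atTop_atTop`); or directly: with `y = x ^ (c₀ / 2) → ∞`, `x ^ c₀ = y ^ 2` for `x ≥ 0` (`Real.rpow_mul`), and all three inequalities hold for `y ≥ t + n / log 2 + 2 / log 2 + 1`.
-/

namespace OCM

open Filter

theorem par_T {c₀ : ℝ} (hc : 0 < c₀) (t n : ℕ) : ∃ H₁ : ℕ, ∀ H : ℕ, H₁ ≤ H →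
    (t : ℝ) + n * ((Real.log H) ^ (c₀ / 2) / Real.log 2) ≤ (Real.log H) ^ c₀ ∧
    (Real.log H) ^ (c₀ / 2) / Real.log 2 ≤ (Real.log H) ^ c₀ ∧
    2 * (Real.log H) ^ (c₀ / 2) ≤ (Real.log H) ^ c₀ := by
  have h1 : Tendsto (fun H : ℕ => (Real.log (H : ℝ)) ^ (c₀ / 2)) atTop atTop :=
    (tendsto_rpow_atTop (half_pos hc)).comp (Real.tendsto_log_atTop.comp tendsto_natCast_atTop_atTop)
  have hL : 0 < Real.log 2 := Real.log_pos one_lt_two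
  have h2 := (h1.eventually_ge_atTop ((t : ℝ) + n * (Real.log 2)⁻¹ + (Real.log 2)⁻¹ + 2)).and
    (eventually_ge_atTop 1)
  obtain ⟨H₁, hH₁⟩ := eventually_atTop.1 h2
  refine ⟨H₁, fun H hH => ?_⟩
  obtain ⟨h3, h4⟩ := hH₁ H hH
  have h5 : (Real.log (H : ℝ)) ^ c₀ = (Real.log (H : ℝ)) ^ (c₀ / 2) * (Real.log (H : ℝ)) ^ (c₀ / 2) := by
    have h6 : 0 ≤ Real.log (H : ℝ) := Real.log_natCast_nonneg H
    rw [← Real.rpow_add_of_nonneg h6 (half_pos hc).le (half_pos hc).le, add_halves]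
  rw [h5]
  generalize (Real.log (H : ℝ)) ^ (c₀ / 2) = y at h3
  have hL' : 0 < (Real.log 2)⁻¹ := inv_pos.2 hL
  rw [div_eq_mul_inv]
  generalize (Real.log 2)⁻¹ = l at h3 hL'
  have ht : (0 : ℝ) ≤ t := Nat.cast_nonneg t
  have hn : (0 : ℝ) ≤ n * l := mul_nonneg (Nat.cast_nonneg n) hL'.le
  have hy : 2 ≤ y := by linarith
  have hy0 : 0 ≤ y := by linarith
  have e1 : 0 ≤ (y - (t + n * l + l + 2)) * y := mul_nonneg (by linarith) hy0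
  have e2 : 0 ≤ (t : ℝ) * (y - 1) := mul_nonneg ht (by linarith)
  have e3 : 0 ≤ (n * l) * y := mul_nonneg hn hy0
  have e4 : 0 ≤ l * y := mul_nonneg hL'.le hy0
  have e5 : 0 ≤ (t : ℝ) * y := mul_nonneg ht hy0
  refine ⟨?_, ?_, ?_⟩
  · nlinarith
  · nlinarith
  · nlinarith

end OCM
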