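import Pool.Agent.Lib.MP_17a322_ntVU.G3

/-!
# LEAF TL: the density of the coefficients of the sections with values in given sets, by the union bound

PROOF.  For `t ∈ T` the map `G : c ↦ (j ↦ sM E (fun q => ∑ k, c (q, k) * res π (ω k)) u z t j)` is additive and surjective onto `Fin s → ZMod p`: surjectivity: `bT_ne (E j) (d j) u hu z` gives an index `t₀ j` with `bT (E j) u z (t₀ j) ≠ 0`, `w_ne (π := π) ω fun k => rd_res (int_mem π (ω k))` gives `k₀` with `res π (ω k₀) ≠ 0`, and `t ≠ 0` (first part of `NP T`) gives a monomial `γ j : MWS.Mo M (ν j)` with `MWS.mo t (γ j) ≠ 0` (`i` with `t i ≠ 0`, all the degree on the coordinate `i`); choose the coefficient at `(⟨j, (γ j, t₀ j)⟩, k₀)` and `0` elsewhere (see the proof of `dens_sM` in `Pool/Agent/Lib/MP_17a322_ntVU/G3.lean`).  So for every `y` the number of the `c` with `G c = y` times `p ^ s` is `p ^ card` (`MWS.card_surj G hs {y}`, or the fibres of a surjective homomorphism).  Union bound over `t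 ∈ T`, `y ∈ Y t` (`Finset.card_biUnion_le`, or the injection of the set into the sigma type).
-/

namespace OCM

open Finset NumberField LVH VK VU

/-- a monomial of degree `n` which does not vanish at the vector `y` -/
private theorem TL_mo {F : Type} [Field F] {m : ℕ} (y : Fin (m + 1) → F) (hy : y ≠ 0) (n : ℕ) :
    ∃ e : MWS.Mo m n, MWS.mo y e ≠ 0 := by
  classical
  obtain ⟨i, hi⟩ := Function.ne_iff.1 hy
  refine ⟨⟨fun l => if l = i then Fin.last n else 0, ?_⟩, ?_⟩
  · rw [Finset.sum_eq_single i (fun l _ hl => ?_) (fun h => absurd (Finset.mem_univ i) h)]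
    · show (((if i = i then Fin.last n else 0 : Fin (n + 1))) : ℕ) = n
      rw [if_pos rfl]
      rfl
    · show (((if l = i then Fin.last n else 0 : Fin (n + 1))) : ℕ) = 0
      rw [if_neg hl]
      rfl
  · unfold MWS.mo
    refine Finset.prod_ne_zero_iff.2 fun l _ => ?_
    show y l ^ ((if l = i then Fin.last n else 0 : Fin (n + 1)) : ℕ) ≠ 0
    by_cases h : l = i
    · rw [h, if_pos rfl]
      exact pow_ne_zero _ hi
    · rw [if_neg h]
      show y l ^ 0 ≠ 0
      rw [pow_zero]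
      exact one_ne_zero

theorem dens_sMS {K : Type} [Field K] [NumberField K] {p : ℕ} [Fact p.Prime] (π : Pl K p) {n M g s e : ℕ} {ι : Type}
    [Fintype ι] [DecidableEq ι] [Nonempty ι] (ν : Fin s → ℕ) (d : Fin s → Fin g → ℕ) (E : Fin s → ι → Fin n → ℤ)
    (ω : Module.Basis (Fin e) ℤ (𝓞 K)) (u : Fin n → ZMod p) (hu : ∀ l, u l ≠ 0)
    (z : Fin g → Option (ZMod p × ZMod p)) (T : Finset (Fin (M + 1) → ZMod p)) (hT : NP T)
    (Y : (Fin (M + 1) → ZMod p) → Finset (Fin s → ZMod p)) :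
    Nat.card {c : IxM ι M ν d × Fin e → ZMod p // ∃ t ∈ T,
      (fun j => sM E (fun t => ∑ k, c (t, k) * res π ((ω k : 𝓞 K) : K)) u z t j) ∈ Y t} * p ^ s ≤
      (∑ t ∈ T, (Y t).card) * p ^ Fintype.card (IxM ι M ν d × Fin e) := by
  classical
  have hpp : p.Prime := Fact.out
  choose t₀ ht₀ using fun j => bT_ne (E j) (d j) u hu z
  have hw : (fun k => res π ((ω k : 𝓞 K) : K)) ≠ 0 := w_ne (π := π) ω fun k => rd_res (int_mem π (ω k))
  obtain ⟨k₀, hk₀⟩ := Function.ne_iff.1 hw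
  have hk₀' : res π ((ω k₀ : 𝓞 K) : K) ≠ 0 := hk₀
  -- one point
  have h1 : ∀ t ∈ T, Nat.card {c : IxM ι M ν d × Fin e → ZMod p //
      (fun j => sM E (fun t => ∑ k, c (t, k) * res π ((ω k : 𝓞 K) : K)) u z t j) ∈ Y t} * p ^ s =
      (Y t).card * p ^ Fintype.card (IxM ι M ν d × Fin e) := by
    intro t ht
    choose e₀ he₀ using fun j => TL_mo t (hT t ht).1 (ν j)
    let F : (IxM ι M ν d × Fin e → ZMod p) →+ (Fin s → ZMod p) :=
      { toFun := fun c j => sM E (fun t => ∑ k, c (t, k) * res π ((ω k : 𝓞 K) : K)) u z t j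
        map_zero' := by
          funext j
          unfold sM
          refine Finset.sum_eq_zero fun q _ => ?_
          have h0 : (∑ k, (0 : IxM ι M ν d × Fin e → ZMod p) ((⟨j, q⟩ : IxM ι M ν d), k) *
            res π ((ω k : 𝓞 K) : K)) = 0 := Finset.sum_eq_zero fun k _ => zero_mul _
          show (∑ k, (0 : IxM ι M ν d × Fin e → ZMod p) ((⟨j, q⟩ : IxM ι M ν d), k) *
            res π ((ω k : 𝓞 K) : K)) * _ = 0
          rw [h0, zero_mul]
        map_add' := fun c c' => by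
          funext j
          show sM E (fun t => ∑ k, (c (t, k) + c' (t, k)) * res π ((ω k : 𝓞 K) : K)) u z t j =
            sM E (fun t => ∑ k, c (t, k) * res π ((ω k : 𝓞 K) : K)) u z t j +
            sM E (fun t => ∑ k, c' (t, k) * res π ((ω k : 𝓞 K) : K)) u z t j
          unfold sM
          rw [← Finset.sum_add_distrib]
          refine Finset.sum_congr rfl fun q _ => ?_
          rw [← add_mul, ← Finset.sum_add_distrib]
          refine congrArg (· * _) (Finset.sum_congr rfl fun k _ => add_mul _ _ _) }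
    have hF : ∀ c j, F c j = ∑ q : MWS.Mo M (ν j) × IxT ι (d j), (∑ k, c (⟨j, q⟩, k) * res π ((ω k : 𝓞 K) : K)) *
        (MWS.mo t q.1 * bT (E j) u z q.2) := fun c j => rfl
    have hs : Function.Surjective F := by
      intro y
      refine ⟨fun q => if q.1.2 = (e₀ q.1.1, t₀ q.1.1) ∧ q.2 = k₀ then y q.1.1 *
        (res π ((ω k₀ : 𝓞 K) : K) * (MWS.mo t (e₀ q.1.1) * bT (E q.1.1) u z (t₀ q.1.1)))⁻¹ else 0, ?_⟩
      funext j
      rw [hF, Finset.sum_eq_single (e₀ j, t₀ j)]
      · rw [Finset.sum_eq_single k₀]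
        · show (if (e₀ j, t₀ j) = (e₀ j, t₀ j) ∧ k₀ = k₀ then y j *
            (res π ((ω k₀ : 𝓞 K) : K) * (MWS.mo t (e₀ j) * bT (E j) u z (t₀ j)))⁻¹ else 0) * res π ((ω k₀ : 𝓞 K) : K) *
              (MWS.mo t (e₀ j) * bT (E j) u z (t₀ j)) = y j
          rw [if_pos ⟨rfl, rfl⟩, mul_assoc, mul_assoc,
            inv_mul_cancel₀ (mul_ne_zero hk₀' (mul_ne_zero (he₀ j) (ht₀ j))), mul_one]
        · intro k _ hk
          show (if (e₀ j, t₀ j) = (e₀ j, t₀ j) ∧ k = k₀ then y j *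
            (res π ((ω k₀ : 𝓞 K) : K) * (MWS.mo t (e₀ j) * bT (E j) u z (t₀ j)))⁻¹ else 0) * res π ((ω k : 𝓞 K) : K) = 0
          rw [if_neg (fun h => hk h.2), zero_mul]
        · intro h
          exact absurd (Finset.mem_univ _) h
      · intro q _ hq
        have h0 : (∑ k, (if q = (e₀ j, t₀ j) ∧ k = k₀ then y j *
            (res π ((ω k₀ : 𝓞 K) : K) * (MWS.mo t (e₀ j) * bT (E j) u z (t₀ j)))⁻¹ else 0) *
              res π ((ω k : 𝓞 K) : K)) = 0 := by
          refine Finset.sum_eq_zero fun k _ => ?_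
          rw [if_neg (fun h => hq h.1), zero_mul]
        show (∑ k, (if q = (e₀ j, t₀ j) ∧ k = k₀ then y j *
            (res π ((ω k₀ : 𝓞 K) : K) * (MWS.mo t (e₀ j) * bT (E j) u z (t₀ j)))⁻¹ else 0) *
              res π ((ω k : 𝓞 K) : K)) * _ = 0
        rw [h0, zero_mul]
      · intro h
        exact absurd (Finset.mem_univ _) h
    have h2 := MWS.card_surj F hs (Y t : Set (Fin s → ZMod p))
    rw [Fintype.card_fin, Nat.card_coe_set_eq, Set.ncard_coe_finset] at h2
    exact h2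
  -- the union
  have h2 : Nat.card {c : IxM ι M ν d × Fin e → ZMod p // ∃ t ∈ T,
      (fun j => sM E (fun t => ∑ k, c (t, k) * res π ((ω k : 𝓞 K) : K)) u z t j) ∈ Y t} ≤
      ∑ t ∈ T, Nat.card {c : IxM ι M ν d × Fin e → ZMod p //
      (fun j => sM E (fun t => ∑ k, c (t, k) * res π ((ω k : 𝓞 K) : K)) u z t j) ∈ Y t} := by
    rw [← Finset.sum_coe_sort T fun t => Nat.card {c : IxM ι M ν d × Fin e → ZMod p //
      (fun j => sM E (fun t => ∑ k, c (t, k) * res π ((ω k : 𝓞 K) : K)) u z t j) ∈ Y t}, ← Nat.card_sigma]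
    have hex : ∀ c : {c : IxM ι M ν d × Fin e → ZMod p // ∃ t ∈ T,
      (fun j => sM E (fun t => ∑ k, c (t, k) * res π ((ω k : 𝓞 K) : K)) u z t j) ∈ Y t}, ∃ t : T,
        (fun j => sM E (fun t => ∑ k, c.1 (t, k) * res π ((ω k : 𝓞 K) : K)) u z t.1 j) ∈ Y t.1 := by
      rintro ⟨c, t, ht, h3⟩
      exact ⟨⟨t, ht⟩, h3⟩
    choose f hf using hex
    refine Nat.card_le_card_of_injective (fun c => (⟨f c, c.1, hf c⟩ : Σ t : T, {c : IxM ι M ν d × Fin e → ZMod p //
      (fun j => sM E (fun t => ∑ k, c (t, k) * res π ((ω k : 𝓞 K) : K)) u z t.1 j) ∈ Y t.1})) ?_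
    intro c c' h
    exact Subtype.ext (congrArg (fun x => x.2.1) h)
  calc _ ≤ (∑ t ∈ T, Nat.card {c : IxM ι M ν d × Fin e → ZMod p //
      (fun j => sM E (fun t => ∑ k, c (t, k) * res π ((ω k : 𝓞 K) : K)) u z t j) ∈ Y t}) * p ^ s :=
        Nat.mul_le_mul_right _ h2
    _ = ∑ t ∈ T, (Y t).card * p ^ Fintype.card (IxM ι M ν d × Fin e) := by
        rw [Finset.sum_mul]
        exact Finset.sum_congr rfl h1
    _ = _ := by rw [Finset.sum_mul]

end OCM
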