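import Pool.Agent.Lib.MP_17a322_ntOC.TK
import Pool.Agent.Lib.MP_17a322_ntOC.TL
import Pool.Agent.Lib.MP_17a322_ntVU.G4

/-!
# LEAF TM: the density of the local condition, with no hypothesis on the degrees if the log irregularity is greater than the dimension

PROOF.  The constants: `ν0, κ1` from `dens_RG K A' B' E' b hF`; `κ0 = min κ1 (1 / 2)`.  If `r + .. ≤ s + 1 ∧ ..` (the second alternative of `hi`) use `dens_RG` (and monotonicity: `1 - κ1 ≤ 1 - κ0`).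
First alternative `r + Set.finrank .. + (R \ V).card ≤ s`: copy the proof of `dens_RG` (`Pool/Agent/Lib/MP_17a322_ntVU/G4.lean`; the private lemma `G4_ch` with the prefix `TM_`; `sM_smul` is public) with `C`, `N0` from `cnt_fib K A' B' E' b r hF` (obtain them at the beginning), `pairsS` (leaf TK) in place of `pairs` and `dens_sMS` (leaf TL) in place of `hden` and `slice` (no `i0`, `N`, `Q`, `hRq`, `hT1`).  `p0 = N0 + 4 * C + 2`: with `S = ∑ t ∈ T, (Y t).card`: `p * S ≤ 2 * C * p ^ s`, so the number `#` of the `c` satisfies `# * p ^ s * p ≤ 2 * C * p ^ s * p ^ card`, i.e. `# * p ≤ 2 * C * p ^ card`, and `4 * C ≤ p` gives `# ≤ (1 / 2) * p ^ card ≤ (1 - κ0) * p ^ card`.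
-/

namespace OCM

open Finset NumberField LVH VK VU

/-- the value of the character `cl d ν` -/
private theorem TM_ch {p q : ℕ} [Fact p.Prime] (l : Fin q → ZMod p) (hl : ∀ i, l i ≠ 0) (a : ZMod p) (ha : a ≠ 0)
    (d : Fin q → ℕ) (ν : ℕ) :
    ((∏ m, (Sum.elim (fun i => Units.mk0 (l i) (hl i)) (fun _ => Units.mk0 a ha) m : (ZMod p)ˣ) ^ cl d ν m :
      (ZMod p)ˣ) : ZMod p) = (∏ i, l i ^ d i) * a ^ ν := by
  rw [Fintype.prod_sum_type]
  simp only [Sum.elim_inl, Sum.elim_inr, Finset.univ_unique, Finset.prod_singleton, cl]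
  rw [Units.val_mul, Units.coe_prod]
  congr 1

theorem dens_RT (K : Type) [Field K] [NumberField K] {n h r M w : ℕ} {κ : Type} [Fintype κ] {δ : Fin w → ℕ}
    {d' : Fin w → Fin h → ℕ} (A' B' : Fin h → 𝓞 K) (E' : Fin w → κ → Fin n → ℤ) (b : IxM κ M δ d' → 𝓞 K)
    (hF : Fib A' B' E' b r) : ∃ (ν0 : ℕ) (κ0 : ℝ), 0 < κ0 ∧ κ0 ≤ 1 ∧ ∀ (L : Type) [Field L] [NumberField L]
      (g s e : ℕ) (ι : Type) [Fintype ι] [DecidableEq ι] [Nonempty ι] (ν : Fin s → ℕ) (d : Fin s → Fin (h + g) → ℕ)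
      (E : Fin s → ι → Fin n → ℤ) (ω : Module.Basis (Fin e) ℤ (𝓞 K)) (W : Finset (Fin w)) (V R : Finset (Fin s))
      (ex : Fin s → ℕ), (∀ k ∈ W, 1 ≤ δ k) → (∀ j ∈ R, ex j ∣ ν j) →
      (r + Set.finrank ℤ (clD W V δ d' ν d) + (R \ V).card ≤ s ∨
        r + Set.finrank ℤ (clD W V δ d' ν d) + (R \ V).card ≤ s + 1 ∧
        ((∃ j, (ν0 ≤ ν j ∨ M = 0) ∧ (j ∈ V → ∃ N : ℕ, 1 ≤ N ∧
          (N : ℤ) • cl (d j) (ν j) ∈ Submodule.span ℤ (clD W (V.erase j) δ d' ν d)) ∧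
          (j ∉ V → j ∈ R → ∃ q : ℕ, q.Prime ∧ q ∣ ex j ∧ ∃ ζ : L, IsPrimitiveRoot ζ q)) ∨
          (w = 0 ∧ V = ∅ ∧ R = ∅ ∧ M ≤ s ∧ (∀ j, 1 ≤ ν j) ∧ M + 1 ≤ ∑ j, ν j))) →
      ∃ p0 : ℕ, DensK L p0 (RG A' B' W V R ex E' b ν d E ω) κ0 := by
  classical
  obtain ⟨C, N0, hN0, hC⟩ := cnt_fib K A' B' E' b r hF
  obtain ⟨ν0, κ1, hκ0, hκ1, hRG⟩ := dens_RG K A' B' E' b hF
  refine ⟨ν0, min κ1 (1 / 2), lt_min hκ0 (by norm_num), (min_le_left _ _).trans hκ1,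
    fun L _ _ g s e ι _ _ _ ν d E ω W V R ex hW hexν hi => ?_⟩
  rcases hi with hr | ⟨hr, hi⟩
  swap
  · obtain ⟨p0, hp0⟩ := hRG L g s e ι ν d E ω W V R ex hW hexν hr hi
    refine ⟨p0, fun p hpp hp hD1 π u z hu => (hp0 p hpp hp hD1 π u z hu).trans ?_⟩
    refine mul_le_mul_of_nonneg_right ?_ (by positivity)
    have := min_le_left κ1 (1 / 2 : ℝ)
    linarith
  refine ⟨N0 + 4 * C + 2, ?_⟩
  intro p hpp hp hD1 π u z hu
  have hfact : Fact p.Prime := ⟨hpp⟩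
  by_cases hz : ∀ l : Fin h, IsPt (res π ((A' l : 𝓞 K) : K)) (res π ((B' l : 𝓞 K) : K))
      (z (Fin.castAdd g l))
  swap
  · have h0 : RG A' B' W V R ex E' b ν d E ω p π u z = ∅ := by
      ext c
      constructor
      · rintro ⟨_, h1, _⟩
        exact absurd h1 hz
      · intro h1
        exact absurd h1 (Set.notMem_empty c)
    rw [h0, Nat.card_coe_set_eq, Set.ncard_empty, Nat.cast_zero]
    exact mul_nonneg (by linarith [min_le_right κ1 (1 / 2 : ℝ)]) (by positivity)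
  obtain ⟨φ, hφ⟩ := res_hom π
  obtain ⟨f, hf⟩ : ∃ f : Fin w → (Fin (M + 1) → ZMod p) → ZMod p, f = fun k y =>
      sM E' (fun t => res π ((b t : 𝓞 K) : K)) (fun l => u (Fin.castAdd (w + s) l))
        (fun l => z (Fin.castAdd g l)) y k := ⟨_, rfl⟩
  have hfs : ∀ k (l : ZMod p) y, f k (l • y) = l ^ δ k * f k y := by
    intro k l y
    rw [hf]
    exact sM_smul _ _ _ _ _ _ _
  have hNp : ((N0 : ℕ) : ZMod p) ≠ 0 := by
    intro h0
    rw [ZMod.natCast_eq_zero_iff] at h0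
    have h1 := Nat.le_of_dvd (Nat.pos_of_ne_zero hN0) h0
    omega
  have hCf : ∀ v1 : Fin w → ZMod p, (∀ k, v1 k = 0 ∨ 1 ≤ δ k) →
      Nat.card {y : Fin (M + 1) → ZMod p // ∀ k, f k y = v1 k} ≤ C * p ^ r := by
    intro v1 hv1
    have h1 := hC (ZMod p) φ hNp (fun l => u (Fin.castAdd (w + s) l)) (fun l => z (Fin.castAdd g l))
      (fun l => hu _) (fun l => by rw [hφ, hφ]; exact hz l) v1 hv1
    rw [Nat.card_zmod] at h1
    refine le_trans (le_of_eq (Nat.card_congr (Equiv.subtypeEquivRight fun y => ?_))) h1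
    refine forall_congr' fun k => ?_
    rw [hf]
    simp only [hφ]
  obtain ⟨T, hT, hcov⟩ := LVH.reps p (Fin (M + 1))
  obtain ⟨v, hv⟩ : ∃ v : Fin w → ZMod p, v = fun k => u (Fin.natAdd n (Fin.castAdd s k)) := ⟨_, rfl⟩
  obtain ⟨v', hv'⟩ : ∃ v' : Fin s → ZMod p, v' = fun j => u (Fin.natAdd n (Fin.natAdd w j)) := ⟨_, rfl⟩
  obtain ⟨dW, hdW⟩ : ∃ dW : Fin w → Fin (h + g) → ℕ, dW = fun k => Fin.append (d' k) (0 : Fin g → ℕ) := ⟨_, rfl⟩
  have hcc : ∀ V, cc W V δ dW ν d = clD W V δ d' ν d := by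
    intro V
    rw [hdW]
    rfl
  have hpairs := pairsS W V R ex δ dW ν d f hfs hCf hW v v' T hT (by rw [hcc]; exact hr)
  obtain ⟨Y, hY⟩ : ∃ Y : (Fin (M + 1) → ZMod p) → Finset (Fin s → ZMod p),
      Y = fun y => (Set.toFinite (Tt W V R ex δ dW ν d f v v' y)).toFinset := ⟨_, rfl⟩
  have hYm : ∀ y t, t ∈ Y y ↔ t ∈ Tt W V R ex δ dW ν d f v v' y := by
    intro y t
    rw [hY]
    exact Set.Finite.mem_toFinset _
  have hYc : ∀ y, (Y y).card = Nat.card (Tt W V R ex δ dW ν d f v v' y) := by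
    intro y
    rw [hY]
    exact (Nat.card_eq_card_finite_toFinset (Set.toFinite (Tt W V R ex δ dW ν d f v v' y))).symm
  have hD := dens_sMS π ν d E ω (fun l => u (Fin.castAdd (w + s) l)) (fun l => hu _) z T hT Y
  simp_rw [hYc] at hD
  have hsub : RG A' B' W V R ex E' b ν d E ω p π u z ⊆ {c : IxM ι M ν d × Fin e → ZMod p | ∃ t ∈ T,
      (fun j => sM E (fun t => ∑ k, c (t, k) * res π ((ω k : 𝓞 K) : K)) (fun l => u (Fin.castAdd (w + s) l)) z t j) ∈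
        Y t} := by
    rintro c ⟨_, _, y, hy, l, hl, h1, h2, h3, h4⟩
    obtain ⟨t, ht, a, ha, hat⟩ := hcov y hy
    refine ⟨t, ht, (hYm _ _).2 ⟨fun m => Sum.elim (fun i => Units.mk0 (l i) (hl i)) (fun _ => Units.mk0 a ha) m,
      fun k => ?_, fun j hj => ?_, fun j hj hjR => ?_, fun j hj hjR => ?_⟩⟩
    · rw [TM_ch l hl a ha, hdW, Fin.prod_univ_add]
      have e1 : ∏ i : Fin g, l (Fin.natAdd h i) ^ (Fin.append (d' k) (0 : Fin g → ℕ)) (Fin.natAdd h i) = 1 :=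
        Finset.prod_eq_one fun i _ => by rw [Fin.append_right, Pi.zero_apply, pow_zero]
      have e2 : ∏ i : Fin h, l (Fin.castAdd g i) ^ (Fin.append (d' k) (0 : Fin g → ℕ)) (Fin.castAdd g i) =
          ∏ i : Fin h, l (Fin.castAdd g i) ^ d' k i :=
        Finset.prod_congr rfl fun i _ => by rw [Fin.append_left]
      rw [e1, e2, mul_one]
      have e3 := h1 k
      rw [← hat, sM_smul, ← mul_assoc] at e3
      rw [hf, hv]
      exact e3
    · have e3 := h2 j hj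
      rw [← hat, sM_smul, ← mul_assoc] at e3
      have hne : (∏ i, l i ^ d j i) * a ^ ν j ≠ 0 :=
        mul_ne_zero (Finset.prod_ne_zero_iff.2 fun i _ => pow_ne_zero _ (hl i)) (pow_ne_zero _ ha)
      rw [Units.val_inv_eq_inv_val, TM_ch l hl a ha, hv']
      exact (eq_mul_inv_iff_mul_eq₀ hne).2 (by rw [mul_comm]; exact e3)
    · obtain ⟨w', hw'⟩ := h3 j hj hjR
      rw [← hat, sM_smul] at hw'
      obtain ⟨m, hm⟩ := hexν j hjR
      refine ⟨w' * (a ^ m)⁻¹, ?_⟩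
      rw [hv']
      show u (Fin.natAdd n (Fin.natAdd w j)) * (w' * (a ^ m)⁻¹) ^ ex j = _
      rw [mul_pow, ← mul_assoc, hw', inv_pow, ← pow_mul, mul_comm m, ← hm, mul_comm (a ^ ν j),
        mul_inv_cancel_right₀ (pow_ne_zero _ ha)]
    · have e3 := h4 j hj hjR
      rw [← hat, sM_smul] at e3
      exact (mul_eq_zero.1 e3).resolve_left (pow_ne_zero _ ha)
  have h3 := Nat.card_mono (Set.toFinite _) hsub
  obtain ⟨x, hx⟩ : ∃ x : ℕ, x = Nat.card (RG A' B' W V R ex E' b ν d E ω p π u z) := ⟨_, rfl⟩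
  rw [← hx] at h3 ⊢
  obtain ⟨S, hS⟩ : ∃ S : ℕ, S = ∑ t ∈ T, Nat.card (Tt W V R ex δ dW ν d f v v' t) := ⟨_, rfl⟩
  rw [← hS] at hpairs hD
  obtain ⟨m, hm⟩ : ∃ m : ℕ, m = Fintype.card (IxM ι M ν d × Fin e) := ⟨_, rfl⟩
  rw [← hm] at hD ⊢
  have h4 : x * p ^ s ≤ S * p ^ m := (Nat.mul_le_mul_right _ h3).trans hD
  have h5 : p ^ s * (p * x) ≤ p ^ s * (2 * C * p ^ m) := by
    calc p ^ s * (p * x) = p * (x * p ^ s) := by ring
      _ ≤ p * (S * p ^ m) := Nat.mul_le_mul_left _ h4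
      _ = p * S * p ^ m := by ring
      _ ≤ 2 * C * p ^ s * p ^ m := Nat.mul_le_mul_right _ hpairs
      _ = p ^ s * (2 * C * p ^ m) := by ring
  have h6 : p * x ≤ 2 * C * p ^ m := Nat.le_of_mul_le_mul_left h5 (pow_pos hpp.pos _)
  have h7 : p * (2 * x) ≤ p * p ^ m := by
    calc p * (2 * x) = 2 * (p * x) := by ring
      _ ≤ 2 * (2 * C * p ^ m) := Nat.mul_le_mul_left _ h6
      _ = 4 * C * p ^ m := by ring
      _ ≤ p * p ^ m := Nat.mul_le_mul_right _ (by omega)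
  have h8 : 2 * x ≤ p ^ m := Nat.le_of_mul_le_mul_left h7 hpp.pos
  have h9 : (2 : ℝ) * x ≤ (p : ℝ) ^ m := by exact_mod_cast h8
  have h10 : (0 : ℝ) ≤ (p : ℝ) ^ m := by positivity
  have h11 : min κ1 (1 / 2) ≤ (1 / 2 : ℝ) := min_le_right _ _
  nlinarith [mul_le_mul_of_nonneg_right h11 h10]

end OCM
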