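import Pool.Agent.Lib.MP_17a322_ntOC.TP
import Pool.Agent.Lib.MP_17a322_ntOC.TD
import Pool.Agent.Lib.MP_17a322_ntOC.TE
import Pool.Agent.Lib.MP_17a322_ntOC.TF
import Pool.Agent.Lib.MP_17a322_ntOC.TG
import Pool.Agent.Lib.MP_17a322_ntOC.TH
import Pool.Agent.Lib.MP_17a322_ntOC.TM

/-!
# No point which is integral outside of `S`, for all `S` of bounded norm at the same time
-/

namespace OCM

open Finset NumberField LVH VK VU

/-- the places of `S` are over small primes -/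
private theorem TQ_far (K : Type) [Field K] [NumberField K] (S : Finset (FinitePlace K)) : ∃ p0 : ℕ, ∀ p : ℕ, p.Prime →
    p0 ≤ p → ∀ v : FinitePlace K, v (p : K) < 1 → v ∉ S := by
  obtain ⟨M0, hM0, hM⟩ := exists_M0 K S
  refine ⟨M0 + 1, fun p hp hpM v hv hvS => ?_⟩
  have h1 := hM v hvS
  have h2 := place_coprime K v hp hv (m := M0) (fun h => by
    have := Nat.le_of_dvd (Nat.pos_of_ne_zero hM0) h
    omega)
  rw [h2] at h1
  exact lt_irrefl _ h1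

theorem inter_U (K : Type) [Field K] [NumberField K] [DecidableEq K] (hFR : FactRK K) (hFQ : MWS.FactQ) (L : Type)
    [Field L] [NumberField L] [Algebra K L] {h : ℕ} (A' B' : Fin h → 𝓞 K) (hdd : ∀ l, ds (A' l) (B' l) ≠ 0)
    (hSm : Smo L A' B') : ∃ c : ℝ, 0 < c ∧
    ∀ (n r M w : ℕ) (κ : Type) [Fintype κ] (δ : Fin w → ℕ) (d' : Fin w → Fin h → ℕ)
    (E' : Fin w → κ → Fin n → ℤ) (b : IxM κ M δ d' → 𝓞 K), FibP A' B' E' b r → ∃ ν0 : ℕ, ∀ (Γ : Subgroup Kˣ), Γ.FG →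
    ∀ (e : ℕ) (ω : Module.Basis (Fin e) ℤ (𝓞 K)) (g s : ℕ) (ι : Type) [Fintype ι]
    [DecidableEq ι] [Nonempty ι] (ν : Fin s → ℕ) (E : Fin s → ι → Fin n → ℤ) (d : Fin s → Fin (h + g) → ℕ)
    (W : Finset (Fin w)) (V R : Finset (Fin s)) (ex : Fin s → ℕ), (∀ k ∈ W, 1 ≤ δ k) →
    (∀ j ∈ R, 1 ≤ ex j ∧ ex j ∣ ν j ∧ ∀ l, ex j ∣ 2 * d j l) →
    (r + Set.finrank ℤ (clD W V δ d' ν d) + (R \ V).card ≤ s ∨
      r + Set.finrank ℤ (clD W V δ d' ν d) + (R \ V).card ≤ s + 1 ∧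
      ((∃ j, (ν0 ≤ ν j ∨ M = 0) ∧ (j ∈ V → ∃ N : ℕ, 1 ≤ N ∧
        (N : ℤ) • cl (d j) (ν j) ∈ Submodule.span ℤ (clD W (V.erase j) δ d' ν d)) ∧
        (j ∉ V → j ∈ R → ∃ q : ℕ, q.Prime ∧ q ∣ ex j ∧ ∃ ζ : L, IsPrimitiveRoot ζ q)) ∨
        (w = 0 ∧ V = ∅ ∧ R = ∅ ∧ M ≤ s ∧ (∀ j, 1 ≤ ν j) ∧ M + 1 ≤ ∑ j, ν j))) → ∃ C : ℝ, ∀ H : ℕ, 1 ≤ H →
    (Nat.card {z : Cv e g × (IxM ι M ν d × Fin e → ℤ) // Box ω H z ∧ ∃ S : Finset (FinitePlace K),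
      ∏ v ∈ S, (nrm v : ℝ) ≤ Real.exp ((Real.log H) ^ c) ∧
      IntQ (Γ ⊔ Su S) S W V R ex E' (fun t => ((b t : 𝓞 K) : K)) E (aA ω A' z.1) (aB ω B' z.1) (cf ω z.2)} : ℝ) ≤
      C * (H : ℝ) ^ (e * (Fintype.card (IxM ι M ν d) + 5 * g)) * Real.exp (-(Real.log H) ^ c) := by
  classical
  obtain ⟨c₀, hc₀, hcore⟩ := coreU K hFR hFQ L A' B' hdd hSm
  obtain ⟨CK, hCK0, hCK⟩ := cnt_nrm K
  refine ⟨c₀ / 2, by positivity, fun n r M w κ _ δ d' E' b hFP => ?_⟩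
  obtain ⟨ν0, κ0, hκ0, hκ1, hden⟩ := dens_RT K A' B' E' b (fib_of hFP)
  refine ⟨ν0, fun Γ hΓ e ω g s ι _ _ _ ν E d W V R ex hW hex hi => ?_⟩
  obtain ⟨S1, -, hS1⟩ := scale K ∅
  obtain ⟨p2, hp2⟩ := TQ_far K S1
  have hΓ' : (Γ ⊔ Su S1).FG := hΓ.sup (Su_fg S1)
  obtain ⟨t1, ht1⟩ := fg_cls K (Γ ⊔ Su S1) hΓ' (n + (w + s) + 1)
  have ht1' : TCls (Γ ⊔ Su S1) (n + (w + s) + 1) t1 := ht1
  obtain ⟨M₀, hM₀⟩ := fg_pl K Γ hΓ
  obtain ⟨p0, hp0⟩ := hden L g s e ι ν d E ω W V R ex hW (fun j hj => (hex j hj).2.1) hi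
  obtain ⟨pm, hpm⟩ : ∃ pm : ℕ, pm = max p0 (max p2 (M₀ + 1)) := ⟨_, rfl⟩
  have hpm0 : p0 ≤ pm := by rw [hpm]; exact le_max_left _ _
  have hpm2 : p2 ≤ pm := by rw [hpm]; exact (le_max_left _ _).trans (le_max_right _ _)
  have hpm1 : M₀ + 1 ≤ pm := by rw [hpm]; exact (le_max_right _ _).trans (le_max_right _ _)
  obtain ⟨C, hC0, hC⟩ := hcore e ω (n + (w + s) + 1) g pm (Fintype.card (IxM ι M ν d × Fin e)) κ0 hκ0 hκ1
  obtain ⟨H₁, hH₁⟩ := par_T hc₀ t1 (n + (w + s) + 1)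
  have e1 : Fintype.card (IxM ι M ν d × Fin e) + 5 * e * g = e * (Fintype.card (IxM ι M ν d) + 5 * g) := by
    rw [Fintype.card_prod, Fintype.card_fin]
    ring
  obtain ⟨N, hN⟩ : ∃ N : ℕ, N = Fintype.card (IxM ι M ν d × Fin e) := ⟨_, rfl⟩
  rw [← hN] at e1 hC
  have hl2 : 0 < Real.log 2 := Real.log_pos (by norm_num)
  refine ⟨max (CK * C) ((16 ^ e) ^ g * 4 ^ N * Real.exp ((Real.log H₁) ^ (c₀ / 2))), fun H hH => ?_⟩
  rw [← e1]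
  have hHr : (1 : ℝ) ≤ H := by exact_mod_cast hH
  have hlogH : 0 ≤ Real.log H := Real.log_nonneg hHr
  have hEp : 0 < Real.exp (-(Real.log H) ^ (c₀ / 2)) := Real.exp_pos _
  have hHp : 0 < (H : ℝ) ^ (N + 5 * e * g) := by positivity
  rcases lt_or_ge H H₁ with hlt | hge
  · -- small `H`
    have h1 := box_triv (K := K) (e := e) (g := g) (τ := IxM ι M ν d × Fin e) (⇑ω) hH
      (fun z => ∃ S : Finset (FinitePlace K), ∏ v ∈ S, (nrm v : ℝ) ≤ Real.exp ((Real.log H) ^ (c₀ / 2)) ∧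
        IntQ (Γ ⊔ Su S) S W V R ex E' (fun t => ((b t : 𝓞 K) : K)) E (aA ω A' z.1) (aB ω B' z.1) (cf ω z.2))
    rw [← hN] at h1
    refine h1.trans ?_
    have hle : (H : ℝ) ≤ H₁ := by exact_mod_cast hlt.le
    have hl : Real.log H ≤ Real.log H₁ := Real.log_le_log (by linarith) hle
    have e3 : 1 ≤ Real.exp ((Real.log H₁) ^ (c₀ / 2)) * Real.exp (-(Real.log H) ^ (c₀ / 2)) := by
      rw [← Real.exp_add]
      refine Real.one_le_exp ?_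
      have := Real.rpow_le_rpow hlogH hl (show 0 ≤ c₀ / 2 by positivity)
      linarith
    calc (16 ^ e) ^ g * 4 ^ N * (H : ℝ) ^ (N + 5 * e * g) ≤
          (16 ^ e) ^ g * 4 ^ N * (H : ℝ) ^ (N + 5 * e * g) *
            (Real.exp ((Real.log H₁) ^ (c₀ / 2)) * Real.exp (-(Real.log H) ^ (c₀ / 2))) :=
            le_mul_of_one_le_right (by positivity) e3
      _ = ((16 ^ e) ^ g * 4 ^ N * Real.exp ((Real.log H₁) ^ (c₀ / 2))) * (H : ℝ) ^ (N + 5 * e * g) *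
            Real.exp (-(Real.log H) ^ (c₀ / 2)) := by ring
      _ ≤ _ := by
            refine mul_le_mul_of_nonneg_right (mul_le_mul_of_nonneg_right ?_ hHp.le) hEp.le
            exact le_max_right _ _
  · -- large `H`
    obtain ⟨q1, q2, q3⟩ := hH₁ H hge
    have hy0 : 0 ≤ (Real.log H) ^ (c₀ / 2) := Real.rpow_nonneg hlogH _
    obtain ⟨𝒮, h𝒮1, h𝒮2, h𝒮3⟩ := hCK (Real.exp ((Real.log H) ^ (c₀ / 2))) (Real.one_le_exp hy0)
    have hone : ∀ S ∈ 𝒮, (Nat.card {z : Cv e g × (IxM ι M ν d × Fin e → ℤ) // Box ω H z ∧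
        ∃ x : Fin (n + (w + s) + 1) → Kˣ, (∀ l, x l ∈ Γ ⊔ Su (S1 ∪ S)) ∧
          ∃ P : (l : Fin (h + g)) → Pt (aA ω A' z.1 l) (aB ω B' z.1 l),
            AdmK L pm (RU A' B' W V R ex E' b ν d E ω) (A := aA ω A' z.1) (B := aB ω B' z.1) z.2 x P} : ℝ) ≤
        C * (H : ℝ) ^ (N + 5 * e * g) * Real.exp (-(Real.log H) ^ c₀) := by
      intro S hS
      have h1 := card_nrm (h𝒮2 S hS)
      rw [Real.log_exp] at h1
      have h2 : (S.card : ℝ) ≤ (Real.log H) ^ (c₀ / 2) / Real.log 2 := by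
        rw [le_div_iff₀ hl2]
        exact h1
      obtain ⟨Bd, hBd1, hBd2⟩ := below S
      refine hC H hH (Γ ⊔ Su (S1 ∪ S)) (t1 + (n + (w + s) + 1) * S.card) Bd (tcls_su hS1 ht1' S) ?_ ?_ ?_ _ hN.symm
        (RU A' B' W V R ex E' b ν d E ω) (dens_RU L fun p hp hpp => hp0 p hp (hpm0.trans hpp))
      · rw [Nat.cast_add, Nat.cast_mul]
        have h3 : ((n + (w + s) + 1 : ℕ) : ℝ) * (S.card : ℝ) ≤
            ((n + (w + s) + 1 : ℕ) : ℝ) * ((Real.log H) ^ (c₀ / 2) / Real.log 2) :=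
          mul_le_mul_of_nonneg_left h2 (Nat.cast_nonneg _)
        linarith
      · have h3 : (Bd.card : ℝ) ≤ S.card := by exact_mod_cast hBd1
        linarith
      · intro p hp hpp hpB π
        refine sup_unit (fun γ hγ => hM₀ p hp (by omega) π γ hγ) (su_unit hp π fun v hv hvS => ?_)
        rcases mem_union.1 hvS with h3 | h3
        · exact hp2 p hp (hpm2.trans hpp) v hv h3
        · exact hBd2 p hp hpB v hv h3
    have hun := box_union (K := K) (e := e) (g := g) (τ := IxM ι M ν d × Fin e) (⇑ω) H 𝒮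
      (fun z => ∃ S : Finset (FinitePlace K), ∏ v ∈ S, (nrm v : ℝ) ≤ Real.exp ((Real.log H) ^ (c₀ / 2)) ∧
        IntQ (Γ ⊔ Su S) S W V R ex E' (fun t => ((b t : 𝓞 K) : K)) E (aA ω A' z.1) (aB ω B' z.1) (cf ω z.2))
      (fun S z => ∃ x : Fin (n + (w + s) + 1) → Kˣ, (∀ l, x l ∈ Γ ⊔ Su (S1 ∪ S)) ∧
          ∃ P : (l : Fin (h + g)) → Pt (aA ω A' z.1 l) (aB ω B' z.1 l),
            AdmK L pm (RU A' B' W V R ex E' b ν d E ω) (A := aA ω A' z.1) (B := aB ω B' z.1) z.2 x P)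
      (by
        rintro z hz ⟨S, hS, hI⟩
        obtain ⟨ϖ, hϖ1, hϖ2⟩ := sep hS1 S
        exact ⟨S, h𝒮1 S hS, loc_U L pm hS1 (fun p hp hpp => hp2 p hp (hpm2.trans hpp)) ϖ hϖ1 hϖ2 A' B' hdd E' b E (⇑ω)
          W V R ex hex Γ z hz hI⟩)
    refine le_trans (Nat.cast_le.2 hun) ?_
    rw [Nat.cast_sum]
    refine (sum_le_sum hone).trans ?_
    rw [sum_const, nsmul_eq_mul]
    have e4 : Real.exp ((Real.log H) ^ (c₀ / 2)) * Real.exp (-(Real.log H) ^ c₀) ≤ Real.exp (-(Real.log H) ^ (c₀ / 2)) := by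
      rw [← Real.exp_add]
      exact Real.exp_le_exp.2 (by linarith)
    calc (𝒮.card : ℝ) * (C * (H : ℝ) ^ (N + 5 * e * g) * Real.exp (-(Real.log H) ^ c₀)) ≤
          (CK * Real.exp ((Real.log H) ^ (c₀ / 2))) * (C * (H : ℝ) ^ (N + 5 * e * g) * Real.exp (-(Real.log H) ^ c₀)) :=
            mul_le_mul_of_nonneg_right h𝒮3 (by positivity)
      _ = CK * C * (H : ℝ) ^ (N + 5 * e * g) *
            (Real.exp ((Real.log H) ^ (c₀ / 2)) * Real.exp (-(Real.log H) ^ c₀)) := by ring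
      _ ≤ CK * C * (H : ℝ) ^ (N + 5 * e * g) * Real.exp (-(Real.log H) ^ (c₀ / 2)) :=
            mul_le_mul_of_nonneg_left e4 (by positivity)
      _ ≤ _ := by
            refine mul_le_mul_of_nonneg_right (mul_le_mul_of_nonneg_right ?_ hHp.le) hEp.le
            exact le_max_left _ _

end OCM
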