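import Pool.Agent.Lib.MP_17a322_ntVU.W1

/-!
# LEAF TB: a uniformizer at one place

PROOF.  Let `P = v.maximalIdeal` (a `HeightOneSpectrum (𝓞 K)`).  The ideal `P.asIdeal` is finitely generated: there are `m` and `u : Fin m → 𝓞 K` with `Ideal.span (Set.range u) = P.asIdeal` (`IsNoetherian`, `Submodule.fg_iff_exists_fin_generating_family`).  Not all `u i` are `0` (`P.ne_bot`).  Apply `hS` to `fun i => (u i : K)`: `l ≠ 0` with `⨆ i, v' (l * u i) = 1` for all `v' ∉ S0`.  Take `ϖ = l⁻¹` as a unit.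
For `v' ≠ v`, `v' ∉ S0`: some `u i` is not in `v'.maximalIdeal` (otherwise `P.asIdeal ≤ v'.maximalIdeal.asIdeal`, and both are maximal, so they are equal and `v = v'`: a finite place is determined by its maximal ideal, `FinitePlace.mk_maximalIdeal`), so `v' (u i) = 1` for it and all are `≤ 1` (`FinitePlace.norm_le_one`, `FinitePlace.norm_eq_one_iff_notMem` or similar, `FinitePlace.norm_embedding_eq`): `⨆ i, v' (l * u i) = v' l`, hence `v' l = 1`.
For `v`: all `v (u i) < 1`, so `v l > 1` and `v ϖ ≠ 1`.  Valuations: let `w = P.valuation K` (values in `ℤᵐ⁰`); `v x = 1 ↔ w x = 1` is `VU.fp_one`, more generally `v x = toNNReal (w x)` with `toNNReal` strictly monotone (see the proof of `fp_one` in `MP_17a322_ntVU/W1.lean`).  There is an `i` with `w (u i) = exp (-1)` (i.e. `ofAdd (-1)`): otherwise all `u i` are in `P ^ 2` (`w (u i) ≤ exp (-1)`, and `≤ exp (-2)` iff in `P ^ 2`: `HeightOneSpectrum.valuation_le_pow_iff_mem` / `intValuation_le_pow_iff_mem`), so `P ≤ P ^ 2`, impossible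 (`Ideal.pow_right_strictAnti` / `HeightOneSpectrum` lemmas; an alternative is `HeightOneSpectrum.valuation_exists_uniformizer` / `intValuation_exists_uniformizer`: an element `π` of `𝓞 K` with `w π = exp (-1)`, which is in `P`, hence a combination of the `u i`, so `exp (-1) = w π ≤ max w (u i)`).  So the supremum of `v (u i)` is the value of `exp (-1)` and `w ϖ = exp (-1)`.  For `a : Kˣ`, `w a = exp j` for an integer `j` (`≠ 0`, `WithZero` of `Multiplicative ℤ`); `k = j`: `w (a * ϖ ^ k) = exp (j - k) = 1`.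
-/

namespace OCM

open NumberField VU

private theorem TB_sup {ι : Type} [Finite ι] (f : ι → ℝ) (i0 : ι) (h : ∀ i, f i ≤ f i0) : ⨆ i, f i = f i0 := by
  have : Nonempty ι := ⟨i0⟩
  exact le_antisymm (ciSup_le h) (le_ciSup (Set.finite_range f).bddAbove i0)

open IsDedekindDomain in
private theorem TB_le {K : Type} [Field K] [NumberField K] (v : FinitePlace K) (x y : K) :
    v x ≤ v y ↔ v.maximalIdeal.valuation K x ≤ v.maximalIdeal.valuation K y := by
  have h1 : ∀ x : K, v x = ((WithZeroMulInt.toNNReal (HeightOneSpectrum.absNorm_ne_zero v.maximalIdeal)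
      (v.maximalIdeal.valuation K x) : NNReal) : ℝ) := by
    intro x
    rw [← FinitePlace.norm_embedding_eq, FinitePlace.norm_embedding]
    rfl
  rw [h1, h1, NNReal.coe_le_coe]
  exact (WithZeroMulInt.toNNReal_strictMono
    (HeightOneSpectrum.one_lt_absNorm_nnreal v.maximalIdeal)).le_iff_le

theorem unif {K : Type} [Field K] [NumberField K] {S0 : Finset (FinitePlace K)}
    (hS : ∀ (ι : Type) [Fintype ι] (x : ι → K), x ≠ 0 → ∃ l : K, l ≠ 0 ∧
      ∀ v : FinitePlace K, v ∉ S0 → (⨆ i, v (l * x i)) = 1) (v : FinitePlace K) (hv : v ∉ S0) :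
    ∃ ϖ : Kˣ, (∀ v' : FinitePlace K, v' ∉ S0 → v' ≠ v → v' (ϖ : K) = 1) ∧ v (ϖ : K) ≠ 1 ∧
      ∀ a : Kˣ, ∃ k : ℤ, v ((a * ϖ ^ k : Kˣ) : K) = 1 := by
  classical
  obtain ⟨π, hπ⟩ := v.maximalIdeal.valuation_exists_uniformizer' K
  obtain ⟨m, u, hu⟩ := Submodule.fg_iff_exists_fin_generating_family.1
    (IsNoetherian.noetherian v.maximalIdeal.asIdeal)
  have hu' : Ideal.span (Set.range u) = v.maximalIdeal.asIdeal := hu
  have hmem : ∀ i, u i ∈ v.maximalIdeal.asIdeal := fun i => by
    rw [← hu']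
    exact Ideal.subset_span ⟨i, rfl⟩
  obtain ⟨x, hx⟩ : ∃ x : Option (Fin m) → 𝓞 K, x = fun o => o.elim π u := ⟨_, rfl⟩
  have hxn : x none = π := by rw [hx]; rfl
  have hxs : ∀ i, x (some i) = u i := fun i => by rw [hx]; rfl
  have hπ0 : π ≠ 0 := by
    rintro rfl
    have h0 : v.maximalIdeal.valuation K (algebraMap (𝓞 K) K 0) = WithZero.exp (-1) := hπ
    rw [map_zero, map_zero] at h0
    exact WithZero.exp_ne_zero h0.symm
  obtain ⟨l, hl, hl1⟩ := hS (Option (Fin m)) (fun o => (algebraMap (𝓞 K) K (x o))) (by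
    intro h0
    have h1 := congrFun h0 none
    have h2 : algebraMap (𝓞 K) K (x none) = 0 := h1
    rw [hxn] at h2
    exact hπ0 ((FaithfulSMul.algebraMap_eq_zero_iff (𝓞 K) K).1 h2))
  -- the value at `v`
  have hle1 : (1 : WithZero (Multiplicative ℤ)) = WithZero.exp (-1 : ℤ) * WithZero.exp 1 := by
    rw [← WithZero.exp_add, neg_add_cancel]
    rfl
  have hmax : ∀ o, v (algebraMap (𝓞 K) K (x o)) ≤ v (algebraMap (𝓞 K) K (x none)) := by
    intro o
    rw [TB_le, hxn]
    rcases o with _ | i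
    · rw [hxn]
    · rw [hxs]
      have h1 : v.maximalIdeal.valuation K (algebraMap (𝓞 K) K (u i)) < 1 :=
        (v.maximalIdeal.valuation_lt_one_iff_mem (K := K) (u i)).2 (hmem i)
      rw [hle1, WithZero.lt_mul_exp_iff_le WithZero.exp_ne_zero] at h1
      refine h1.trans (le_of_eq ?_)
      exact hπ.symm
  have hv1 : v (l * algebraMap (𝓞 K) K π) = 1 := by
    have h1 := hl1 v hv
    rw [TB_sup (fun o => v (l * algebraMap (𝓞 K) K (x o))) none (fun o => by
      show v (l * algebraMap (𝓞 K) K (x o)) ≤ v (l * algebraMap (𝓞 K) K (x none))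
      rw [map_mul, map_mul]
      exact mul_le_mul_of_nonneg_left (hmax o) (apply_nonneg v l))] at h1
    have h2 : v (l * algebraMap (𝓞 K) K (x none)) = 1 := h1
    rwa [hxn] at h2
  have hwl : v.maximalIdeal.valuation K l = WithZero.exp 1 := by
    rw [fp_one, map_mul] at hv1
    have h2 : v.maximalIdeal.valuation K (algebraMap (𝓞 K) K π) = WithZero.exp (-1) := hπ
    rw [h2, WithZero.exp_neg] at hv1
    exact (mul_inv_eq_one₀ WithZero.exp_ne_zero).1 hv1
  have hwi : v.maximalIdeal.valuation K l⁻¹ = WithZero.exp (-1) := by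
    rw [map_inv₀, hwl, WithZero.exp_neg]
  refine ⟨Units.mk0 l⁻¹ (inv_ne_zero hl), fun v' hv' hne => ?_, ?_, fun a => ?_⟩
  · -- the other places
    have hex : ∃ i, u i ∉ v'.maximalIdeal.asIdeal := by
      by_contra hc
      push Not at hc
      have h1 : v.maximalIdeal.asIdeal ≤ v'.maximalIdeal.asIdeal := by
        rw [← hu']
        refine Ideal.span_le.2 ?_
        rintro _ ⟨i, rfl⟩
        exact hc i
      have h2 : v.maximalIdeal.asIdeal = v'.maximalIdeal.asIdeal :=
        v.maximalIdeal.isMaximal.eq_of_le v'.maximalIdeal.isPrime.ne_top h1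
      have h3 : v.maximalIdeal = v'.maximalIdeal := IsDedekindDomain.HeightOneSpectrum.ext h2
      exact hne (FinitePlace.maximalIdeal_injective h3).symm
    obtain ⟨i, hi⟩ := hex
    have h1 : v' (algebraMap (𝓞 K) K (x (some i))) = 1 := by
      rw [fp_one, hxs]
      exact (v'.maximalIdeal.valuation_eq_one_iff_notMem (K := K)).2 hi
    have h2 : ∀ o, v' (algebraMap (𝓞 K) K (x o)) ≤ 1 := by
      intro o
      have h3 : v' (algebraMap (𝓞 K) K (x o)) ≤ v' 1 := by
        rw [TB_le, map_one]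
        exact v'.maximalIdeal.valuation_le_one (K := K) (x o)
      rwa [map_one] at h3
    have h3 := hl1 v' hv'
    rw [TB_sup (fun o => v' (l * algebraMap (𝓞 K) K (x o))) (some i) (fun o => by
      show v' (l * algebraMap (𝓞 K) K (x o)) ≤ v' (l * algebraMap (𝓞 K) K (x (some i)))
      rw [map_mul, map_mul, h1]
      exact mul_le_mul_of_nonneg_left (h2 o) (apply_nonneg v' l))] at h3
    have h4 : v' (l * algebraMap (𝓞 K) K (x (some i))) = 1 := h3
    rw [map_mul, h1, mul_one] at h4
    rw [Units.val_mk0, map_inv₀, h4, inv_one]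
  · rw [Units.val_mk0]
    intro h
    rw [fp_one, hwi] at h
    have h1 := congrArg WithZero.log h
    rw [WithZero.log_exp, WithZero.log_one] at h1
    exact absurd h1 (by norm_num)
  · have ha : v.maximalIdeal.valuation K (a : K) ≠ 0 := (Valuation.ne_zero_iff _).2 a.ne_zero
    refine ⟨WithZero.log (v.maximalIdeal.valuation K (a : K)), ?_⟩
    rw [fp_one, Units.val_mul, Units.val_zpow_eq_zpow_val, Units.val_mk0, map_mul, map_zpow₀, hwi, ← WithZero.exp_zsmul]
    conv_lhs => rw [← WithZero.exp_log ha]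
    rw [WithZero.log_exp, ← WithZero.exp_add, smul_eq_mul, mul_neg, mul_one, add_neg_cancel]
    rfl

end OCM
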