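import Pool.Agent.Lib.MP_17a322_ntOC.TA
import Pool.Agent.Lib.MP_17a322_ntOC.TB

/-!
# LEAF TC: the classes of the `S`-units for varying `S`

PROOF of `su_insert`.  `a ∈ Su (insert v S)`: take `k` with `v (a * ϖ ^ k) = 1`; for `v' ∉ S`: if `v' = v` this is `1`; otherwise `v' ∉ insert v S`, `v' a = 1`, `v' ϖ = 1` (`v' ∉ S0` as `S0 ⊆ S`), so `a * ϖ ^ k ∈ Su S` and `a = (a * ϖ ^ k) * ϖ ^ (-k)`.
PROOF of `tcls_su`.  Induction on the finite set `S` (`Finset.induction_on`).  Empty: `S0 ∪ ∅ = S0`.  `insert v S`: if `v ∈ S0 ∪ S`, `S0 ∪ insert v S = S0 ∪ S`; and `TCls` is monotone in the exponent (`Fin (M ^ t)` into `Fin (M ^ t')`, or a lemma `tcls_mono`: compose with a surjection `Fin (M ^ t') → Fin (M ^ t)`).  Otherwise `S0 ∪ insert v S = insert v (S0 ∪ S)`, `Γ ⊔ Su (insert v (S0 ∪ S)) ≤ (Γ ⊔ Su (S0 ∪ S)) ⊔ zpowers ϖ` by `su_insert`, and equality holds because `ϖ ∈ Su (insert v (S0 ∪ S))`; then `tcls_sup`.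
PROOF of `sep`.  `ϖ = ∏ v ∈ (S \ S0).attach, ϖ_v` (or an induction on `S`).  For `v ∈ S \ S0`: `v (∏) = v (ϖ_v) ≠ 1`, as `v (ϖ_v') = 1` for the other `v'`.  For `v ∉ S0 ∪ S` all factors have value `1`.
-/

namespace OCM

open NumberField LVH VK VU

private theorem TC_zpow {K : Type} [Field K] [NumberField K] {v : FinitePlace K} {ϖ : Kˣ} (h : v (ϖ : K) = 1)
    (a : Kˣ) (k : ℤ) : v ((a * ϖ ^ k : Kˣ) : K) = v (a : K) := by
  rw [Units.val_mul, map_mul, Units.val_zpow_eq_zpow_val, map_zpow₀, h, one_zpow, mul_one]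

private theorem TC_mono {K : Type} [Field K] {Γ : Subgroup Kˣ} {n t t' : ℕ} (ht : t ≤ t') (h : TCls Γ n t) :
    TCls Γ n t' := by
  intro M hM
  obtain ⟨r, hr1, hr2⟩ := h M hM
  have hle : M ^ t ≤ M ^ t' := Nat.pow_le_pow_right hM ht
  have hpos : 0 < M ^ t := Nat.pow_pos hM
  refine ⟨fun i => if hi : (i : ℕ) < M ^ t then r ⟨i, hi⟩ else r ⟨0, hpos⟩, ?_, ?_⟩
  · intro i l
    by_cases hi : (i : ℕ) < M ^ t
    · simp only [hi, dif_pos]
      exact hr1 _ _
    · simp only [hi, dif_neg, not_false_eq_true]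
      exact hr1 _ _
  · intro x hx
    obtain ⟨i, y, hy1, hy2⟩ := hr2 x hx
    refine ⟨Fin.castLE hle i, y, hy1, fun l => ?_⟩
    have hi : ((Fin.castLE hle i : Fin (M ^ t')) : ℕ) < M ^ t := i.2
    simp only [hi, dif_pos]
    exact hy2 l

private theorem TC_su_mono {K : Type} [Field K] [NumberField K] {S T : Finset (FinitePlace K)} (h : S ⊆ T) :
    Su S ≤ Su T := fun _ ha v hv => ha v fun hv' => hv (h hv')

theorem su_insert {K : Type} [Field K] [NumberField K] {S0 S : Finset (FinitePlace K)} [DecidableEq (FinitePlace K)]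
    (hSS : S0 ⊆ S) {v : FinitePlace K} {ϖ : Kˣ} (h1 : ∀ v' : FinitePlace K, v' ∉ S0 → v' ≠ v → v' (ϖ : K) = 1)
    (h2 : ∀ a : Kˣ, ∃ k : ℤ, v ((a * ϖ ^ k : Kˣ) : K) = 1) : Su (insert v S) ≤ Su S ⊔ Subgroup.zpowers ϖ := by
  intro a ha
  obtain ⟨k, hk⟩ := h2 a
  have h3 : a * ϖ ^ k ∈ Su S := by
    intro v' hv'
    by_cases hvv : v' = v
    · rw [hvv]
      exact hk
    · rw [TC_zpow (h1 v' (fun h => hv' (hSS h)) hvv)]
      exact ha v' fun h => (Finset.mem_insert.1 h).elim hvv hv'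
  have h4 : a = (a * ϖ ^ k) * ϖ ^ (-k) := by
    rw [zpow_neg, mul_inv_cancel_right]
  rw [h4]
  exact Subgroup.mul_mem_sup h3 (Subgroup.zpow_mem_zpowers ϖ _)

open Classical in
theorem tcls_su {K : Type} [Field K] [NumberField K] {S0 : Finset (FinitePlace K)}
    (hS : ∀ (ι : Type) [Fintype ι] (x : ι → K), x ≠ 0 → ∃ l : K, l ≠ 0 ∧
      ∀ v : FinitePlace K, v ∉ S0 → (⨆ i, v (l * x i)) = 1) {Γ : Subgroup Kˣ} {n t : ℕ} (h : TCls (Γ ⊔ Su S0) n t)
    (S : Finset (FinitePlace K)) : TCls (Γ ⊔ Su (S0 ∪ S)) n (t + n * S.card) := by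
  induction S using Finset.induction_on with
  | empty =>
    rw [Finset.union_empty, Finset.card_empty, mul_zero, add_zero]
    exact h
  | insert v S hvS ih =>
    rw [Finset.card_insert_of_notMem hvS]
    by_cases hv : v ∈ S0
    · have e1 : S0 ∪ insert v S = S0 ∪ S := by
        rw [Finset.union_insert, Finset.insert_eq_of_mem (Finset.mem_union_left _ hv)]
      rw [e1]
      exact TC_mono (by rw [mul_add]; omega) ih
    · obtain ⟨ϖ, h1, -, h2⟩ := unif hS v hv
      have e1 : S0 ∪ insert v S = insert v (S0 ∪ S) := Finset.union_insert _ _ _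
      have e2 : Γ ⊔ Su (insert v (S0 ∪ S)) = (Γ ⊔ Su (S0 ∪ S)) ⊔ Subgroup.zpowers ϖ := by
        apply le_antisymm
        · rw [sup_assoc]
          exact sup_le_sup_left (su_insert Finset.subset_union_left h1 h2) _
        · refine sup_le (sup_le_sup_left (TC_su_mono (Finset.subset_insert _ _)) _) ?_
          rw [Subgroup.zpowers_le]
          refine Subgroup.mem_sup_right fun v' hv' => ?_
          exact h1 v' (fun hh => hv' (Finset.mem_insert_of_mem (Finset.mem_union_left _ hh)))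
            (fun hh => hv' (hh ▸ Finset.mem_insert_self _ _))
      have e3 : t + n * (S.card + 1) = t + n * S.card + n := by ring
      rw [e1, e2, e3]
      exact tcls_sup ih ϖ

open Classical in
theorem sep {K : Type} [Field K] [NumberField K] {S0 : Finset (FinitePlace K)}
    (hS : ∀ (ι : Type) [Fintype ι] (x : ι → K), x ≠ 0 → ∃ l : K, l ≠ 0 ∧
      ∀ v : FinitePlace K, v ∉ S0 → (⨆ i, v (l * x i)) = 1) (S : Finset (FinitePlace K)) :
    ∃ ϖ : Kˣ, ϖ ∈ Su (S0 ∪ S) ∧ ∀ v ∈ S, v ∉ S0 → v (ϖ : K) ≠ 1 := by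
  induction S using Finset.induction_on with
  | empty => exact ⟨1, Subgroup.one_mem _, fun v hv => absurd hv (Finset.notMem_empty v)⟩
  | insert v S hvS ih =>
    obtain ⟨ϖ', h1, h2⟩ := ih
    by_cases hv : v ∈ S0
    · have e1 : S0 ∪ insert v S = S0 ∪ S := by
        rw [Finset.union_insert, Finset.insert_eq_of_mem (Finset.mem_union_left _ hv)]
      rw [e1]
      refine ⟨ϖ', h1, fun v' hv' hv'' => ?_⟩
      rcases Finset.mem_insert.1 hv' with rfl | h3
      · exact absurd hv hv''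
      · exact h2 v' h3 hv''
    · obtain ⟨ϖ, h3, h4, -⟩ := unif hS v hv
      refine ⟨ϖ' * ϖ, ?_, ?_⟩
      · intro v' hv'
        rw [Finset.mem_union, Finset.mem_insert, not_or, not_or] at hv'
        obtain ⟨h5, h6, h7⟩ := hv'
        have h8 : v' ∉ S0 ∪ S := by
          rw [Finset.mem_union, not_or]
          exact ⟨h5, h7⟩
        rw [Units.val_mul, map_mul, h1 v' h8, h3 v' h5 h6, one_mul]
      · intro v' hv' hv''
        rcases Finset.mem_insert.1 hv' with rfl | h5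
        · have h8 : v' ∉ S0 ∪ S := by
            rw [Finset.mem_union, not_or]
            exact ⟨hv'', hvS⟩
          rw [Units.val_mul, map_mul, h1 v' h8, one_mul]
          exact h4
        · have h6 : v' ≠ v := fun hh => hvS (hh ▸ h5)
          rw [Units.val_mul, map_mul, h3 v' hv'' h6, mul_one]
          exact h2 v' h5 hv''

end OCM
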