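import Pool.Agent.Lib.MP_17a322_ntOC.TI
import Pool.Agent.Lib.MP_17a322_ntOC.TC
import Pool.Agent.Lib.MP_17a322_ntOC.PE

/-!
# The points of one pair which are integral outside of `S`, `S` arbitrary, satisfy the local conditions
-/

namespace OCM

open Finset NumberField LVH VK VU

/-- a finite place over a prime number -/
private theorem TP_place (K : Type) [Field K] [NumberField K] {p : ℕ} (hp : p.Prime) :
    ∃ v : FinitePlace K, v (p : K) < 1 := by
  classical
  have hpI : Prime (p : ℤ) := Nat.prime_iff_prime_int.1 hp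
  have hm : (Ideal.span {(p : ℤ)}).IsMaximal :=
    PrincipalIdealRing.isMaximal_of_irreducible hpI.irreducible
  obtain ⟨Q, hQ1, hQ2⟩ := Ideal.exists_maximal_ideal_liesOver_of_isIntegral (S := 𝓞 K) (Ideal.span {(p : ℤ)})
  have hmem : ((p : ℕ) : 𝓞 K) ∈ Q := by
    have h1 : (p : ℤ) ∈ Q.under ℤ := by
      rw [← hQ2.over]
      exact Ideal.mem_span_singleton_self _
    have h2 : algebraMap ℤ (𝓞 K) (p : ℤ) ∈ Q := h1
    rwa [map_natCast] at h2
  have hne : Q ≠ ⊥ := by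
    rintro rfl
    rw [Ideal.mem_bot, Nat.cast_eq_zero] at hmem
    exact hp.ne_zero hmem
  let P : IsDedekindDomain.HeightOneSpectrum (𝓞 K) := ⟨Q, hQ1.isPrime, hne⟩
  refine ⟨FinitePlace.mk P, ?_⟩
  have h3 := (FinitePlace.norm_lt_one_iff_mem K P ((p : ℕ) : 𝓞 K)).2 hmem
  rw [map_natCast (algebraMap (𝓞 K) K)] at h3
  rw [FinitePlace.mk_apply]
  exact h3

/-- the places of `S` are over small primes -/
private theorem TP_far (K : Type) [Field K] [NumberField K] (S : Finset (FinitePlace K)) : ∃ p0 : ℕ, ∀ p : ℕ, p.Prime →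
    p0 ≤ p → ∀ v : FinitePlace K, v (p : K) < 1 → v ∉ S := by
  obtain ⟨M0, hM0, hM⟩ := exists_M0 K S
  refine ⟨M0 + 1, fun p hp hpM v hv hvS => ?_⟩
  have h1 := hM v hvS
  have h2 := place_coprime K v hp hv (m := M0) (fun h => by
    have := Nat.le_of_dvd (Nat.pos_of_ne_zero hM0) h
    omega)
  rw [h2] at h1
  exact lt_irrefl _ h1

private theorem TP_hv {K : Type} [Field K] [NumberField K] (v : FinitePlace K) (P : Option (K × K)) :
    hv v P = max 1 (v (P.elim 0 Prod.fst)) := by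
  rcases P with _ | z
  · show (1 : ℝ) = max 1 (v 0)
    rw [map_zero]
    exact (max_eq_left zero_le_one).symm
  · rfl

/-- the scaled section has absolute value one -/
private theorem TP_one {K : Type} [Field K] [NumberField K] (v : FinitePlace K) {g M : ℕ} (μ : ℕ) (d : Fin g → ℕ)
    (P : Fin g → Option (K × K)) (u : Fin (M + 1) → K) (c0 : K) (hc : (⨆ i, v (c0 * u i)) = 1) (t : Fin g → K)
    (ht : ∀ l, v (t l) ^ 2 * hv v (P l) = 1) (F : K) (hF : v F = VK.lf v μ d P u) :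
    v (c0 ^ μ * (∏ l, t l ^ (2 * d l)) * F) = 1 := by
  have h1 : v c0 * (⨆ i, v (u i)) = 1 := by
    rw [← hc, Real.mul_iSup_of_nonneg (apply_nonneg v c0)]
    simp only [map_mul]
  rw [map_mul, map_mul, map_pow, map_prod, hF]
  unfold VK.lf
  have h2 : ∀ l, v (t l ^ (2 * d l)) * max 1 (v ((P l).elim 0 Prod.fst)) ^ d l = 1 := by
    intro l
    rw [← TP_hv, map_pow, pow_mul, ← mul_pow, ht l, one_pow]
  calc v c0 ^ μ * (∏ l, v (t l ^ (2 * d l))) * ((⨆ i, v (u i)) ^ μ * ∏ l, max 1 (v ((P l).elim 0 Prod.fst)) ^ d l) =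
        (v c0 * ⨆ i, v (u i)) ^ μ * ∏ l, (v (t l ^ (2 * d l)) * max 1 (v ((P l).elim 0 Prod.fst)) ^ d l) := by
          rw [mul_pow, Finset.prod_mul_distrib]
          ring
    _ = 1 := by
          rw [h1, one_pow, one_mul]
          exact Finset.prod_eq_one fun l _ => h2 l

open Classical in
theorem loc_U {K : Type} [Field K] [NumberField K] (L : Type) [Field L] [NumberField L] (p0 : ℕ)
    {S1 S : Finset (FinitePlace K)}
    (hS1 : ∀ (ι : Type) [Fintype ι] (x : ι → K), x ≠ 0 → ∃ l : K, l ≠ 0 ∧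
      ∀ v : FinitePlace K, v ∉ S1 → (⨆ i, v (l * x i)) = 1)
    (hp0 : ∀ p : ℕ, p.Prime → p0 ≤ p → ∀ v : FinitePlace K, v (p : K) < 1 → v ∉ S1) (ϖ : Kˣ)
    (hϖ1 : ϖ ∈ Su (S1 ∪ S)) (hϖ2 : ∀ v ∈ S, v ∉ S1 → v (ϖ : K) ≠ 1)
    {n h g M w s e : ℕ} {κ ι : Type} [Fintype κ] [Fintype ι] (A' B' : Fin h → 𝓞 K) (hdd : ∀ l, ds (A' l) (B' l) ≠ 0)
    {δ : Fin w → ℕ} {d' : Fin w → Fin h → ℕ} (E' : Fin w → κ → Fin n → ℤ) (b : IxM κ M δ d' → 𝓞 K)
    {ν : Fin s → ℕ} {d : Fin s → Fin (h + g) → ℕ} (E : Fin s → ι → Fin n → ℤ)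
    (ω : Fin e → 𝓞 K) (W : Finset (Fin w)) (V R : Finset (Fin s)) (ex : Fin s → ℕ)
    (hex : ∀ j ∈ R, 1 ≤ ex j ∧ ex j ∣ ν j ∧ ∀ l, ex j ∣ 2 * d j l) (Γ : Subgroup Kˣ) {H : ℕ}
    (z : Cv e g × (IxM ι M ν d × Fin e → ℤ)) (hz : Box ω H z)
    (hI : IntQ (Γ ⊔ Su S) S W V R ex E' (fun t => ((b t : 𝓞 K) : K)) E (aA ω A' z.1) (aB ω B' z.1) (cf ω z.2)) :
    ∃ x : Fin (n + (w + s) + 1) → Kˣ, (∀ l, x l ∈ Γ ⊔ Su (S1 ∪ S)) ∧
      ∃ P : (l : Fin (h + g)) → Pt (aA ω A' z.1 l) (aB ω B' z.1 l),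
        AdmK L p0 (RU A' B' W V R ex E' b ν d E ω) (A := aA ω A' z.1) (B := aB ω B' z.1) z.2 x P := by
  obtain ⟨x, hx, P, u, hP, hu, hY0, hV0, hR, hS⟩ := hI
  obtain ⟨S0, hS0e⟩ : ∃ S0 : Finset (FinitePlace K), S0 = S1 ∪ S := ⟨_, rfl⟩
  have hSS : S ⊆ S0 := by
    rw [hS0e]
    exact subset_union_right
  have hS0 : ∀ (ι : Type) [Fintype ι] (x : ι → K), x ≠ 0 → ∃ l : K, l ≠ 0 ∧
      ∀ v : FinitePlace K, v ∉ S0 → (⨆ i, v (l * x i)) = 1 := by
    intro ι _ x hx
    obtain ⟨l, hl, h1⟩ := hS1 ι x hx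
    refine ⟨l, hl, fun v hv => h1 v fun hv1 => hv ?_⟩
    rw [hS0e]
    exact mem_union_left _ hv1
  have hSu : Su S ≤ Su S0 := fun a ha v hv => ha v fun hv1 => hv (hSS hv1)
  rw [← hS0e] at hϖ1 ⊢
  obtain ⟨p2, hp2⟩ := TP_far K S0
  obtain ⟨v1, hv1⟩ : ∃ v : FinitePlace K, v ∉ S0 := by
    obtain ⟨p, hp, hpp⟩ := Nat.exists_infinite_primes p2
    obtain ⟨v, hv⟩ := TP_place K hpp
    exact ⟨v, hp2 p hpp hp v hv⟩
  have hGS : Γ ⊔ Su S ≤ Γ ⊔ Su S0 := sup_le_sup_left hSu Γ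
  have hds : ∀ l, ds (aA ω A' z.1 l) (aB ω B' z.1 l) ≠ 0 := by
    intro l
    refine Fin.addCases (fun i h0 => ?_) (fun i h0 => ?_) l
    · refine hdd i ?_
      apply RingOfIntegers.coe_injective
      rw [map_zero]
      rw [← h0]
      simp only [ds, aA, aB, Fin.append_left, map_add, map_mul, map_pow, map_ofNat]
    · refine (hz.1 i).1 ?_
      apply RingOfIntegers.coe_injective
      rw [map_zero]
      rw [← h0]
      simp only [ds, aA, aB, Fin.append_right, cA, cB, map_add, map_mul, map_pow, map_ofNat]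
  -- the scalings
  obtain ⟨c0, -, hc0⟩ := hS0 (Fin (M + 1)) u hu
  have htt : ∀ l, ∃ t : K, t ≠ 0 ∧ ∀ v : FinitePlace K, v ∉ S0 → v t ^ 2 * hv v (P l) = 1 := by
    intro l
    have h3 := hP l
    revert h3
    refine Fin.addCases (fun i => ?_) (fun i => ?_) l
    · intro h3
      rw [aA, aB, Fin.append_left, Fin.append_left] at h3
      exact tt_ex hS0 _ h3
    · intro h3
      rw [aA, aB, Fin.append_right, Fin.append_right] at h3
      exact tt_ex hS0 _ h3
  choose t ht0 ht using htt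
  -- the units
  obtain ⟨UW, hUW⟩ : ∃ UW : Fin w → K, UW = fun k => c0 ^ δ k * (∏ l, t (Fin.castAdd g l) ^ (2 * d' k l)) *
    sM E' (fun t => ((b t : 𝓞 K) : K)) (fun l => (x l : K)) (fun l => P (Fin.castAdd g l)) u k := ⟨_, rfl⟩
  obtain ⟨UV, hUV⟩ : ∃ UV : Fin s → K, UV = fun j => c0 ^ ν j * (∏ l, t l ^ (2 * d j l)) *
    sM E (cf ω z.2) (fun l => (x l : K)) P u j := ⟨_, rfl⟩
  have hUW1 : ∀ k ∈ W, ∀ v : FinitePlace K, v ∉ S0 → v (UW k) = 1 := by
    intro k hk v hv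
    rw [hUW]
    exact TP_one v (δ k) (d' k) (fun l => P (Fin.castAdd g l)) u c0 (hc0 v hv) (fun l => t (Fin.castAdd g l))
      (fun l => ht _ v hv) _ ((hS v fun h3 => hv (hSS h3)).1 k hk)
  have hUV1 : ∀ j ∈ V, ∀ v : FinitePlace K, v ∉ S0 → v (UV j) = 1 := by
    intro j hj v hv
    rw [hUV]
    exact TP_one v (ν j) (d j) P u c0 (hc0 v hv) t (fun l => ht _ v hv) _ ((hS v fun h3 => hv (hSS h3)).2 j hj)
  have hne : ∀ a : K, (∀ v : FinitePlace K, v ∉ S0 → v a = 1) → a ≠ 0 := by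
    rintro a ha rfl
    have h3 := ha v1 hv1
    rw [map_zero] at h3
    exact zero_ne_one h3
  have hyex : ∀ l : Fin (w + s), ∃ y : Kˣ, y ∈ Γ ⊔ Su S0 ∧
      (∀ k, l = Fin.castAdd s k → k ∈ W → (y : K) = UW k) ∧
      (∀ j, l = Fin.natAdd w j → j ∈ V → (y : K) = UV j) ∧
      ∀ j, l = Fin.natAdd w j → j ∉ V → j ∈ R → ∃ w' : K, (y : K) * w' ^ ex j =
        sM E (cf ω z.2) (fun l => (x l : K)) P u j := by
    intro l
    refine Fin.addCases (fun k => ?_) (fun j => ?_) l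
    · by_cases hk : k ∈ W
      · refine ⟨Units.mk0 (UW k) (hne _ (hUW1 k hk)), Subgroup.mem_sup_right (fun v hv => hUW1 k hk v hv),
          fun k' hk' _ => ?_, fun j hj => ?_, fun j hj => ?_⟩
        · have h3 := Fin.castAdd_inj.1 hk'
          subst h3
          rfl
        · exact absurd hj (by
            intro h3
            have h4 := congrArg Fin.val h3
            rw [Fin.val_castAdd, Fin.val_natAdd] at h4
            omega)
        · exact absurd hj (by
            intro h3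
            have h4 := congrArg Fin.val h3
            rw [Fin.val_castAdd, Fin.val_natAdd] at h4
            omega)
      · refine ⟨1, Subgroup.one_mem _, fun k' hk' hk'' => ?_, fun j hj => ?_, fun j hj => ?_⟩
        · rw [Fin.castAdd_inj.1 hk'] at hk
          exact absurd hk'' hk
        · exact absurd hj (by
            intro h3
            have h4 := congrArg Fin.val h3
            rw [Fin.val_castAdd, Fin.val_natAdd] at h4
            omega)
        · exact absurd hj (by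
            intro h3
            have h4 := congrArg Fin.val h3
            rw [Fin.val_castAdd, Fin.val_natAdd] at h4
            omega)
    · have hnk : ∀ k : Fin w, Fin.natAdd w j ≠ Fin.castAdd s k := by
        intro k h3
        have h4 := congrArg Fin.val h3
        rw [Fin.val_castAdd, Fin.val_natAdd] at h4
        omega
      by_cases hj : j ∈ V
      · refine ⟨Units.mk0 (UV j) (hne _ (hUV1 j hj)), Subgroup.mem_sup_right (fun v hv => hUV1 j hj v hv),
          fun k' hk' => absurd hk' (hnk k'), fun j' hj' _ => ?_, fun j' hj' hj'' => ?_⟩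
        · have h3 := (Fin.natAdd_inj w).1 hj'
          subst h3
          rfl
        · rw [(Fin.natAdd_inj w).1 hj'] at hj
          exact absurd hj hj''
      · by_cases hjR : j ∈ R
        · obtain ⟨γ, hγ, w', hw'⟩ := hR j hjR
          refine ⟨γ, hGS hγ, fun k' hk' => absurd hk' (hnk k'), fun j' hj' hj'' => ?_,
            fun j' hj' _ _ => ?_⟩
          · rw [(Fin.natAdd_inj w).1 hj'] at hj
            exact absurd hj'' hj
          · rw [← (Fin.natAdd_inj w).1 hj']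
            exact ⟨w', hw'.symm⟩
        · refine ⟨1, Subgroup.one_mem _, fun k' hk' => absurd hk' (hnk k'), fun j' hj' hj'' => ?_,
            fun j' hj' _ hj'' => ?_⟩
          · rw [(Fin.natAdd_inj w).1 hj'] at hj
            exact absurd hj'' hj
          · rw [(Fin.natAdd_inj w).1 hj'] at hjR
            exact absurd hj'' hjR
  choose y hy1 hy2 hy3 hy4 using hyex
  obtain ⟨Q, hQ⟩ := (pt_iff hds (fun P' => P' = P)).1 ⟨P, hP, rfl⟩
  subst hQ
  refine ⟨Fin.snoc (α := fun _ => Kˣ) (Fin.append x y) ϖ, fun l => ?_, Q, ?_⟩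
  · refine Fin.lastCases ?_ (fun l => ?_) l
    · rw [Fin.snoc_last]
      exact Subgroup.mem_sup_right hϖ1
    · rw [Fin.snoc_castSucc]
      refine Fin.addCases (fun i => ?_) (fun i => ?_) l
      · rw [Fin.append_left]
        exact hGS (hx i)
      · rw [Fin.append_right]
        exact hy1 i
  · refine adm_RU L p0 S0 ϖ (fun p hp hpp v hv hvS => ?_) A' B' E' b E ω
      (fun l => by simp only [aA, Fin.append_left]) (fun l => by simp only [aB, Fin.append_left]) W V R ex hex z.2 x Q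
      u c0 hc0 t (fun v hv l => ht l v hv) y (fun k => ?_) (fun j hj => ?_) (fun j hj hjR => ?_) (fun j hj hjR => ?_)
    · have h5 := hp0 p hp hpp v hv
      rw [hS0e] at hvS
      exact hϖ2 v ((mem_union.1 hvS).resolve_left h5) h5
    · by_cases hk : k ∈ W
      · rw [if_pos hk, hy2 _ k rfl hk, hUW]
      · rw [if_neg hk, hY0 k hk, mul_zero]
    · rw [hy3 _ j rfl hj, hUV]
    · exact hy4 _ j rfl hj hjR
    · exact hV0 j hj hjR

end OCM
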