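import Pool.Agent.Lib.MP_17a322_ntOC.TU2
import Pool.Agent.Lib.MP_17a322_ntOC.TP
import Pool.Agent.Lib.MP_17a322_ntOC.TD
import Pool.Agent.Lib.MP_17a322_ntOC.TE
import Pool.Agent.Lib.MP_17a322_ntOC.TM
import Pool.Agent.Lib.MP_17a322_ntVU.G6
import Pool.Agent.Lib.MP_17a322_ntFB.PLK
import Pool.Agent.Lib.MP_17a322_ntFB.PM2

/-!
# The powers of an elliptic curve of rank at most one over `ℚ`, all the factors of bounded norm at the same time
-/

namespace OCM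

open Finset NumberField VK LVH FB VU IsDedekindDomain

variable {K : Type} [Field K] [NumberField K]

/-- the residue field of a prime ideal of `𝓞 K` is the prime field -/
private theorem TV_rf_equiv (hK : Module.finrank ℚ K = 1) (v : HeightOneSpectrum (𝓞 K)) (p : ℕ) (hp : p.Prime) (hc : CharP (RF v) p) :
    Nonempty (RF v ≃+* ZMod p) := by
  have : Fact p.Prime := ⟨hp⟩
  obtain ⟨f, hf⟩ : ∃ f : ZMod p →+* RF v, f = ZMod.castHom (dvd_refl p) (RF v) := ⟨_, rfl⟩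
  have hsurj : Function.Surjective f := by
    intro x
    obtain ⟨a, ha⟩ := surj_RF v x
    obtain ⟨n, hn⟩ : ∃ n : ℤ, ((n : ℤ) : 𝓞 K) = a := by
      obtain ⟨q, hq⟩ : ∃ q : ℚ, algebraMap ℚ K q = (a : K) := by
        have h1 := (finrank_eq_one_iff_of_nonzero' (1 : K) one_ne_zero).1 hK (a : K)
        obtain ⟨q, hq⟩ := h1
        exact ⟨q, by rw [← hq, Algebra.smul_def, mul_one]⟩
      have hi : IsIntegral ℤ q := by
        have h1 : IsIntegral ℤ (algebraMap ℚ K q) := by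
          rw [hq]
          exact a.isIntegral_coe
        exact (isIntegral_algebraMap_iff (algebraMap ℚ K).injective).1 h1
      obtain ⟨n, hn⟩ := IsIntegrallyClosed.isIntegral_iff.1 hi
      refine ⟨n, RingOfIntegers.coe_injective ?_⟩
      have h2 : (((n : ℤ) : 𝓞 K) : K) = (n : K) := map_intCast (algebraMap (𝓞 K) K) n
      refine h2.trans (Eq.trans ?_ hq)
      rw [← hn]
      simp
    refine ⟨(n : ZMod p), ?_⟩
    rw [map_intCast]
    rw [← hn] at ha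
    have h1 : Rf (pV v) (((n : ℤ) : 𝓞 K) : K) ((n : ℤ) : RF v) := by
      have h2 : (((n : ℤ) : 𝓞 K) : K) = (n : K) := map_intCast (algebraMap (𝓞 K) K) n
      rw [h2]
      exact Rf.int n
    exact h1.unique ha
  exact ⟨(RingEquiv.ofBijective f ⟨f.injective, hsurj⟩).symm⟩

/-- the place with values in the prime field -/
private noncomputable def TV_plv (v : HeightOneSpectrum (𝓞 K)) {p : ℕ} (e : RF v ≃+* ZMod p) : Pl K p where
  V := (pV v).V
  ρ := (e : RF v →+* ZMod p).comp (pV v).ρ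
  ker := fun x hx => by rw [RingHom.comp_apply, (pV v).ker x hx, map_zero]

private theorem TV_res_plv (v : HeightOneSpectrum (𝓞 K)) {p : ℕ} (e : RF v ≃+* ZMod p) (x : K) :
    res (TV_plv v e) x = e (rf (pV v) x) := by
  unfold res rf
  by_cases h : x ∈ (pV v).V
  · rw [dif_pos h, dif_pos (show x ∈ (TV_plv v e).V from h)]
    rfl
  · rw [dif_neg h, dif_neg (show x ∉ (TV_plv v e).V from h), map_zero]

private theorem TV_rdK_plv (v : HeightOneSpectrum (𝓞 K)) {p : ℕ} (e : RF v ≃+* ZMod p) {A B : K} (P : Pt A B) :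
    rdK (TV_plv v e) P = (rdF (pV v) P).map (fun z => (e z.1, e z.2)) := by
  classical
  rcases P with _ | ⟨x, y, hxy⟩
  · rfl
  · show (if x ∈ (TV_plv v e).V then some (res (TV_plv v e) x, res (TV_plv v e) y) else none) =
      Option.map (fun z => (e z.1, e z.2)) (if x ∈ (pV v).V then some (rf (pV v) x, rf (pV v) y) else none)
    by_cases h : x ∈ (pV v).V
    · rw [if_pos h, if_pos (show x ∈ (TV_plv v e).V from h), TV_res_plv, TV_res_plv]
      rfl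
    · rw [if_neg h, if_neg (show x ∉ (TV_plv v e).V from h)]
      rfl

/-- a prime ideal of norm `p` -/
private theorem TV_d1_rat (hK : Module.finrank ℚ K = 1) (p : ℕ) : D1 K p := by
  refine ⟨Ideal.span {((p : ℕ) : 𝓞 K)}, ?_⟩
  rw [Ideal.absNorm_span_singleton]
  have h1 : ((p : ℕ) : 𝓞 K) = algebraMap ℤ (𝓞 K) (p : ℤ) := (map_natCast (algebraMap ℤ (𝓞 K)) p).symm
  rw [h1, Algebra.norm_algebraMap]
  have h2 : Module.finrank ℤ (𝓞 K) = 1 := by
    rw [RingOfIntegers.rank, hK]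
  rw [h2, pow_one, Int.natAbs_natCast]

/-- good reduction at the large primes -/
private theorem TV_good_large {A B : 𝓞 K} (hd : ds A B ≠ 0) : ∃ p1 : ℕ, ∀ p : ℕ, p.Prime → p1 ≤ p → ∀ (π : Pl K p),
    ds (res π ((A : 𝓞 K) : K)) (res π ((B : 𝓞 K) : K)) ≠ 0 := by
  have hn0 : ((ds A B : 𝓞 K) : K) ≠ 0 := fun h0 => hd (NumberField.RingOfIntegers.coe_eq_zero_iff.1 h0)
  obtain ⟨N, hN⟩ := unit_pl K (g := ((ds A B : 𝓞 K) : K)) hn0
  refine ⟨1 + N, fun p hp hpp π => ?_⟩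
  have : Fact p.Prime := ⟨hp⟩
  obtain ⟨u1, u2⟩ := hN p hp (by omega) π
  have hr := res_ne hn0 u1 u2
  have hA := rd_res (int_mem π A)
  have hB := rd_res (int_mem π B)
  have e4 : Rd π ((4 : ℤ) : K) ((4 : ℤ) : ZMod p) := Rd.int 4
  have e27 : Rd π ((27 : ℤ) : K) ((27 : ℤ) : ZMod p) := Rd.int 27
  have hds : Rd π ((ds A B : 𝓞 K) : K) (ds (res π ((A : 𝓞 K) : K)) (res π ((B : 𝓞 K) : K))) := by
    have h1 := (e4.mul (hA.pow 3)).add (e27.mul (hB.pow 2))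
    have h2 : ((ds A B : 𝓞 K) : K) = ((4 : ℤ) : K) * ((A : 𝓞 K) : K) ^ 3 + ((27 : ℤ) : K) * ((B : 𝓞 K) : K) ^ 2 := by
      unfold ds
      push_cast
      rfl
    have h3 : ds (res π ((A : 𝓞 K) : K)) (res π ((B : 𝓞 K) : K))
        = ((4 : ℤ) : ZMod p) * res π ((A : 𝓞 K) : K) ^ 3 + ((27 : ℤ) : ZMod p) * res π ((B : 𝓞 K) : K) ^ 2 := by
      unfold ds
      push_cast
      rfl
    rw [h2, h3]
    exact h1
  have h4 := hds.unique (rd_res u1)
  rw [h4]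
  exact hr


open Classical in
/-- the local condition at the prime ideals, with given values `U` of the coordinates of the torus -/
private noncomputable def TV_RZ {m h : ℕ} {ι : Type} (R : Loc K m h ι) (U : Fin m → Kˣ) : LocV K h ι := fun v p z =>
  if hh : Nonempty (RF v ≃+* ZMod p) then
    R p (TV_plv v hh.some) (fun l => res (TV_plv v hh.some) (U l : K))
      (fun l => (z l).map fun y => (hh.some y.1, hh.some y.2))
  else ∅

private theorem TV_dens (hK : Module.finrank ℚ K = 1) {m h : ℕ} {ι : Type} [Fintype ι] {R : Loc K m h ι} {p0 : ℕ} {κ : ℝ}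
    (hR : DensK K p0 R κ) {U : Fin m → Kˣ} {Bd : Finset ℕ}
    (hU : ∀ p : ℕ, p.Prime → p0 ≤ p → p ∉ Bd → ∀ (π : Pl K p) (l : Fin m), (U l : K) ∈ π.V ∧ (U l : K)⁻¹ ∈ π.V) :
    DensB p0 Bd (TV_RZ R U) κ := by
  intro v p hp hc hpN hpB z
  have hF : Fact p.Prime := ⟨hp⟩
  have hh := TV_rf_equiv hK v p hp hc
  unfold TV_RZ
  rw [dif_pos hh]
  refine hR p hp hpN (TV_d1_rat hK p) _ _ _ fun l => ?_
  have h1 := hU p hp hpN hpB (TV_plv v hh.some) l
  exact res_ne (U l).ne_zero h1.1 h1.2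

/-- the condition for `x` implies the condition for the representative of its class -/
private theorem TV_cls {p : ℕ} (π : Pl K p) {h M w s e : ℕ} {κ ι : Type} [Fintype κ] [Fintype ι]
    (A' B' : Fin h → 𝓞 K) {δ : Fin w → ℕ} {d' : Fin w → Fin h → ℕ} (R : Finset (Fin s))
    (ex : Fin s → ℕ) (E' : Fin w → κ → Fin 0 → ℤ) (b : IxM κ M δ d' → 𝓞 K) (ν : Fin s → ℕ)
    (d : Fin s → Fin (h + 0) → ℕ) (E : Fin s → ι → Fin 0 → ℤ) (ω : Fin e → 𝓞 K) (m : ℕ) (hm : ∀ j ∈ R, ex j ∣ m)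
    (u u' a : Fin (0 + (w + s) + 1) → ZMod p) (hu : ∀ l, u l = u' l * a l ^ m) (z : Fin (h + 0) → Option (ZMod p × ZMod p))
    (c : IxM ι M ν d × Fin e → ZMod p) (hc : c ∈ RU A' B' ∅ ∅ R ex E' b ν d E ω p π u z) :
    c ∈ RU A' B' ∅ ∅ R ex E' b ν d E ω p π u' z := by
  obtain ⟨hF, h1, y, hy, l, hl, h2, h3, h4, h5⟩ := hc
  have e0 : ∀ u1 u2 : Fin 0 → ZMod p, u1 = u2 := fun u1 u2 => Subsingleton.elim _ _
  refine ⟨hF, h1, y, hy, l, hl, fun k => ?_, fun j hj => absurd hj (Finset.notMem_empty j), fun j hj hjR => ?_,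
    fun j hj hjR => ?_⟩
  · have h6 := h2 k
    rw [if_neg (Finset.notMem_empty k)] at h6 ⊢
    rw [← h6]
    rw [e0 (fun l => u' (Fin.castSucc (Fin.castAdd (w + s) l))) (fun l => u (Fin.castSucc (Fin.castAdd (w + s) l)))]
  · obtain ⟨w', hw'⟩ := h4 j hj hjR
    obtain ⟨q, hq⟩ := hm j hjR
    refine ⟨a (Fin.castSucc (Fin.natAdd 0 (Fin.natAdd w j))) ^ q * w', ?_⟩
    rw [e0 (fun l => u' (Fin.castSucc (Fin.castAdd (w + s) l))) (fun l => u (Fin.castSucc (Fin.castAdd (w + s) l))), ← hw']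
    show u' (Fin.castSucc (Fin.natAdd 0 (Fin.natAdd w j))) *
      (a (Fin.castSucc (Fin.natAdd 0 (Fin.natAdd w j))) ^ q * w') ^ ex j =
      u (Fin.castSucc (Fin.natAdd 0 (Fin.natAdd w j))) * w' ^ ex j
    rw [hu (Fin.castSucc (Fin.natAdd 0 (Fin.natAdd w j))), mul_pow, hq, mul_assoc, ← pow_mul, mul_comm q]
  · rw [e0 (fun l => u' (Fin.castSucc (Fin.castAdd (w + s) l))) (fun l => u (Fin.castSucc (Fin.castAdd (w + s) l)))]
    exact h5 j hj hjR

private theorem TV_finite {ι : Type} [Fintype ι] (H : ℕ) (X : (ι → ℤ) → Prop) :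
    Finite {a : ι → ℤ // (∀ i, |a i| ≤ (H : ℤ)) ∧ X a} := by
  have h1 : Finite {a : ι → ℤ // ∀ i, |a i| ≤ (H : ℤ)} := by
    have h2 : Set.Finite {a : ι → ℤ | ∀ i, |a i| ≤ (H : ℤ)} := by
      refine Set.Finite.subset (Set.Finite.pi (fun _ => Set.finite_Icc (-(H : ℤ)) H)) fun a ha i _ => ?_
      exact Set.mem_Icc.2 (abs_le.1 (ha i))
    exact h2
  exact Finite.of_injective (β := {a : ι → ℤ // ∀ i, |a i| ≤ (H : ℤ)}) (fun a => ⟨a.1, a.2.1⟩)
    fun a b hab => Subtype.ext (congrArg (fun x => x.1) hab)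

private theorem TV_union {ι τ : Type} [Fintype ι] [Fintype τ] (H : ℕ) (X : (ι → ℤ) → Prop) (Y : τ → (ι → ℤ) → Prop)
    (h : ∀ a, X a → ∃ i, Y i a) :
    Nat.card {a : ι → ℤ // (∀ i, |a i| ≤ (H : ℤ)) ∧ X a} ≤
      ∑ i, Nat.card {a : ι → ℤ // (∀ i, |a i| ≤ (H : ℤ)) ∧ Y i a} := by
  have := fun i => TV_finite H (Y i)
  rw [← Nat.card_sigma]
  have hex : ∀ a : {a : ι → ℤ // (∀ i, |a i| ≤ (H : ℤ)) ∧ X a}, ∃ i : τ, (∀ i, |a.1 i| ≤ (H : ℤ)) ∧ Y i a.1 := by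
    rintro ⟨a, ha, hX⟩
    obtain ⟨i, hi⟩ := h a hX
    exact ⟨i, ha, hi⟩
  choose f hf using hex
  refine Nat.card_le_card_of_injective (fun a => (⟨f a, a.1, hf a⟩ : Σ i : τ,
    {a : ι → ℤ // (∀ i, |a i| ≤ (H : ℤ)) ∧ Y i a})) ?_
  intro a b hab
  exact Subtype.ext (congrArg (fun x => x.2.1) hab)

/-- the places of `S` are over small primes -/
private theorem TV_far (K : Type) [Field K] [NumberField K] (S : Finset (FinitePlace K)) : ∃ p0 : ℕ, ∀ p : ℕ, p.Prime →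
    p0 ≤ p → ∀ v : FinitePlace K, v (p : K) < 1 → v ∉ S := by
  obtain ⟨M0, hM0, hM⟩ := exists_M0 K S
  refine ⟨M0 + 1, fun p hp hpM v hv hvS => ?_⟩
  have h1 := hM v hvS
  have h2 := place_coprime K v hp hv (m := M0) (fun h => by
    have := Nat.le_of_dvd (Nat.pos_of_ne_zero hM0) h
    omega)
  rw [h2] at h1
  exact lt_irrefl _ h1


private theorem TV_adm (hK : Module.finrank ℚ K = 1) {m h : ℕ} {ι : Type} {R : Loc K m h ι} {A B : 𝓞 K} {p0 : ℕ}
    (hgood : ∀ p : ℕ, p.Prime → p0 ≤ p → ∀ (π : Pl K p), ds (res π ((A : 𝓞 K) : K)) (res π ((B : 𝓞 K) : K)) ≠ 0)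
    {Bd : Finset ℕ} {x U : Fin m → Kˣ}
    (hx : ∀ p : ℕ, p.Prime → p0 ≤ p → p ∉ Bd → ∀ (π : Pl K p) (l : Fin m), (x l : K) ∈ π.V ∧ (x l : K)⁻¹ ∈ π.V)
    (hcls : ∀ p : ℕ, p.Prime → p0 ≤ p → p ∉ Bd → ∀ (π : Pl K p) (z : Fin h → Option (ZMod p × ZMod p)) (c : ι → ZMod p),
      c ∈ R p π (fun l => res π (x l : K)) z → c ∈ R p π (fun l => res π (U l : K)) z)
    (c : ι → ℤ) (P : Fin h → Pt (A : K) (B : K))
    (hA : AdmK K p0 R (A := fun _ => (A : K)) (B := fun _ => (B : K)) c x P) : AdmB p0 Bd (TV_RZ R U) c P := by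
  intro v p hp hc hpN hpB
  have hF : Fact p.Prime := ⟨hp⟩
  have hh := TV_rf_equiv hK v p hp hc
  unfold TV_RZ
  rw [dif_pos hh]
  have h1 := hA p hp hpN (TV_d1_rat hK p) (TV_plv v hh.some)
    (fun l => ⟨VK.int_mem _ A, VK.int_mem _ B⟩) (fun l => hgood p hp hpN _) (fun l => hx p hp hpN hpB _ l)
  have h2 : (fun l => rdK (TV_plv v hh.some) (P l)) =
      fun l => (rdF (pV v) (P l)).map fun y => (hh.some y.1, hh.some y.2) := funext fun l => TV_rdK_plv v hh.some (P l)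
  rw [h2] at h1
  exact hcls p hp hpN hpB _ _ _ h1

/-- the number of the places of `S` is small compared with the logarithm of the product of the norms -/
private theorem TV_few (K : Type) [Field K] [NumberField K] (X : ℕ) (hX : 2 ≤ X) :
    ∃ n : ℕ, ∀ (S : Finset (FinitePlace K)) (T : ℝ), ∏ v ∈ S, (nrm v : ℝ) ≤ T →
      (S.card : ℝ) * Real.log X ≤ Real.log T + n * Real.log X := by
  classical
  obtain ⟨C, hC, h⟩ := cnt_nrm K
  have hX1 : (1 : ℝ) ≤ X := by exact_mod_cast (by omega : 1 ≤ X)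
  obtain ⟨𝒮, h1, h2, h3⟩ := h X hX1
  refine ⟨𝒮.card, fun S T hT => ?_⟩
  have hn : ∀ v : FinitePlace K, 1 ≤ (nrm v : ℝ) := fun v => by
    have h4 : nrm v ≠ 0 := fun h0 => v.maximalIdeal.ne_bot (Ideal.absNorm_eq_zero_iff.1 h0)
    exact_mod_cast Nat.one_le_iff_ne_zero.2 h4
  have hs : (S.filter fun v => (nrm v : ℝ) ≤ X).card ≤ 𝒮.card := by
    refine Finset.card_le_card_of_injOn (fun v => {v}) (fun v hv => h1 {v} ?_) ?_
    · rw [prod_singleton]
      exact (mem_filter.1 hv).2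
    · intro a _ b _ hab
      exact Finset.singleton_injective hab
  have hb : (X : ℝ) ^ (S.filter fun v => ¬ (nrm v : ℝ) ≤ X).card ≤ T := by
    refine le_trans ?_ hT
    rw [← prod_const]
    refine le_trans (prod_le_prod (fun v _ => by linarith) fun v hv => (not_le.1 (mem_filter.1 hv).2).le) ?_
    exact prod_le_prod_of_subset_of_one_le (filter_subset _ _) (fun v _ => by linarith [hn v]) fun v _ _ => hn v
  have hXp : (0 : ℝ) < (X : ℝ) ^ (S.filter fun v => ¬ (nrm v : ℝ) ≤ X).card := by positivity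
  have h4 := Real.log_le_log hXp hb
  rw [Real.log_pow] at h4
  have h5 : 0 ≤ Real.log X := Real.log_nonneg hX1
  have h6 : (S.card : ℝ) = ((S.filter fun v => (nrm v : ℝ) ≤ X).card : ℝ) +
      ((S.filter fun v => ¬ (nrm v : ℝ) ≤ X).card : ℝ) := by
    exact_mod_cast (Finset.card_filter_add_card_filter_not (s := S) (fun v => (nrm v : ℝ) ≤ X)).symm
  have h7 : (((S.filter fun v => (nrm v : ℝ) ≤ X).card : ℕ) : ℝ) ≤ (𝒮.card : ℝ) := by exact_mod_cast hs
  rw [h6, add_mul]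
  have h8 := mul_le_mul_of_nonneg_right h7 h5
  linarith

theorem rank_oneU {K : Type} [Field K] [NumberField K] [DecidableEq K] (hK : Module.finrank ℚ K = 1) {h r M w : ℕ}
    {κ : Type} [Fintype κ] {δ : Fin w → ℕ} {d' : Fin w → Fin h → ℕ} {A B : 𝓞 K} (hd : ds A B ≠ 0)
    (hΓ : Module.finrank ℤ (Pt (A : K) (B : K)) ≤ 1) (E' : Fin w → κ → Fin 0 → ℤ)
    (b : IxM κ M δ d' → 𝓞 K) (hF : FibP (fun _ : Fin h => A) (fun _ => B) E' b r) :
    ∃ (c : ℝ) (ν0 : ℕ), 0 < c ∧ ∀ G : Subgroup Kˣ, G.FG → ∀ (e : ℕ) (ω : Module.Basis (Fin e) ℤ (𝓞 K)) (s : ℕ)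
      (ι : Type) [Fintype ι] [DecidableEq ι] [Nonempty ι] (ν : Fin s → ℕ) (E : Fin s → ι → Fin 0 → ℤ)
      (d : Fin s → Fin (h + 0) → ℕ) (R : Finset (Fin s)) (ex : Fin s → ℕ),
      (∀ j ∈ R, 1 ≤ ex j ∧ ex j ∣ ν j ∧ ∀ l, ex j ∣ 2 * d j l) →
      (r + R.card ≤ s ∨ r + R.card ≤ s + 1 ∧
        ((∃ j, (ν0 ≤ ν j ∨ M = 0) ∧ (j ∈ R → 2 ∣ ex j)) ∨
          (w = 0 ∧ R = ∅ ∧ M ≤ s ∧ (∀ j, 1 ≤ ν j) ∧ M + 1 ≤ ∑ j, ν j))) →
      ∃ C : ℝ, ∀ H : ℕ, 1 ≤ H →
        (Nat.card {a : IxM ι M ν d × Fin e → ℤ // (∀ i, |a i| ≤ (H : ℤ)) ∧ ∃ S : Finset (FinitePlace K),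
          ∏ v ∈ S, (nrm v : ℝ) ≤ Real.exp (c * (Real.log (Real.log H)) ^ 2) ∧
          IntQ (g := 0) (G ⊔ Su S) S ∅ ∅ R ex E' (fun t => ((b t : 𝓞 K) : K)) E (fun _ => (A : K)) (fun _ => (B : K))
            (cf ω a)} : ℝ) ≤
          C * (H : ℝ) ^ Fintype.card (IxM ι M ν d × Fin e) * Real.exp (-(c * (Real.log (Real.log H)) ^ 2)) := by
  classical
  obtain ⟨ν0, κ0, hκ0, hκ1, hden⟩ := dens_RT K (fun _ : Fin h => A) (fun _ => B) E' b (fib_of hF)
  have hΓ' : Module.finrank ℤ (⊤ : AddSubgroup (Pt (A : K) (B : K))) ≤ 1 := by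
    have h1 : Module.finrank ℤ (⊤ : AddSubgroup (Pt (A : K) (B : K))) = Module.finrank ℤ (Pt (A : K) (B : K)) :=
      (AddSubgroup.topEquiv (G := Pt (A : K) (B : K))).toIntLinearEquiv.finrank_eq
    rw [h1]
    exact hΓ
  obtain ⟨c₁, hc₁, hcB⟩ := conclB hd ⊤ hΓ' hκ0
  obtain ⟨CK, hCK0, hCK⟩ := cnt_nrm K
  refine ⟨c₁ / 4, ν0, by positivity, fun G hG e ω s ι _ _ _ ν E d R ex hex hi => ?_⟩
  -- the density
  obtain ⟨p0, hp0⟩ := hden K 0 s e ι ν d E ω ∅ ∅ R ex (fun k hk => absurd hk (Finset.notMem_empty k))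
    (fun j hj => (hex j hj).2.1) (by
      have h1 : clD ∅ ∅ δ d' ν d = (∅ : Set (Fin (h + 0) ⊕ Unit → ℤ)) := by
        ext x
        constructor
        · rintro (⟨k, hk, -⟩ | ⟨k, hk, -⟩)
          · exact absurd hk (Finset.notMem_empty k)
          · exact absurd hk (Finset.notMem_empty k)
        · intro hx
          exact absurd hx (Set.notMem_empty x)
      have h2 : Set.finrank ℤ (∅ : Set (Fin (h + 0) ⊕ Unit → ℤ)) = 0 := by
        unfold Set.finrank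
        rw [Submodule.span_empty]
        exact finrank_bot ℤ _
      rw [h1, Finset.sdiff_empty, h2, add_zero]
      refine hi.imp id fun ⟨hr, hi⟩ => ⟨hr, ?_⟩
      rcases hi with ⟨j, hj, hjR⟩ | ⟨h1, h2, h3⟩
      · exact Or.inl ⟨j, hj, fun h1 => absurd h1 (Finset.notMem_empty j), fun _ h2 =>
          ⟨2, Nat.prime_two, hjR h2, -1, IsPrimitiveRoot.neg_one 0 (by norm_num)⟩⟩
      · exact Or.inr ⟨h1, rfl, h2, h3⟩)
  -- the places
  obtain ⟨S1, -, hS1⟩ := scale K ∅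
  obtain ⟨p2, hp2⟩ := TV_far K S1
  obtain ⟨t1, ht1⟩ := fg_cls K (G ⊔ Su S1) (hG.sup (Su_fg S1)) (0 + (w + s) + 1)
  have ht1' : TCls (G ⊔ Su S1) (0 + (w + s) + 1) t1 := ht1
  obtain ⟨M₀, hM₀⟩ := fg_pl K G hG
  obtain ⟨p3, hp3⟩ := TV_good_large hd
  obtain ⟨pm, hpm⟩ : ∃ pm : ℕ, pm = max (max p0 p3) (max p2 (M₀ + 1)) := ⟨_, rfl⟩
  have hpm0 : p0 ≤ pm := by rw [hpm]; exact (le_max_left _ _).trans (le_max_left _ _)
  have hpm3 : p3 ≤ pm := by rw [hpm]; exact (le_max_right _ _).trans (le_max_left _ _)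
  have hpm2 : p2 ≤ pm := by rw [hpm]; exact (le_max_left _ _).trans (le_max_right _ _)
  have hpm1 : M₀ + 1 ≤ pm := by rw [hpm]; exact (le_max_right _ _).trans (le_max_right _ _)
  obtain ⟨C, hC⟩ := hcB (h + 0) pm (Fintype.card (IxM ι M ν d × Fin e))
  -- the classes
  obtain ⟨m, hm, hmd⟩ : ∃ m : ℕ, 1 ≤ m ∧ ∀ j ∈ R, ex j ∣ m :=
    ⟨∏ j ∈ R, ex j, Nat.one_le_iff_ne_zero.2 (Finset.prod_ne_zero_iff.2 fun j hj => by
      have := (hex j hj).1
      omega), fun j hj => Finset.dvd_prod_of_mem ex hj⟩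
  obtain ⟨nn, hnn⟩ : ∃ nn : ℕ, nn = 0 + (w + s) + 1 := ⟨_, rfl⟩
  obtain ⟨X, hX, hXm⟩ : ∃ X : ℕ, 2 ≤ X ∧ Real.log m * nn ≤ Real.log X := by
    refine ⟨2 * m ^ nn, by
      have := Nat.one_le_pow nn m hm
      omega, ?_⟩
    have hm0 : (0 : ℝ) < m := by exact_mod_cast hm
    push_cast
    rw [Real.log_mul (by norm_num) (by positivity), Real.log_pow]
    have := Real.log_nonneg (show (1 : ℝ) ≤ 2 by norm_num)
    linarith
  obtain ⟨nX, hnX⟩ := TV_few K X hX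
  have hlX : 0 < Real.log X := Real.log_pos (by exact_mod_cast (by omega : 1 < X))
  have hlm : 0 ≤ Real.log m := Real.log_nonneg (by exact_mod_cast hm)
  refine ⟨CK * Real.exp (Real.log m * (t1 + nn * nX)) * |C|, fun H hH => ?_⟩
  obtain ⟨L, hL⟩ : ∃ L : ℝ, L = (Real.log (Real.log H)) ^ 2 := ⟨_, rfl⟩
  have hL0 : 0 ≤ L := by rw [hL]; exact sq_nonneg _
  rw [← hL]
  obtain ⟨𝒮, h𝒮1, h𝒮2, h𝒮3⟩ := hCK (Real.exp (c₁ / 4 * L)) (Real.one_le_exp (by positivity))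
  have hSc : ∀ S ∈ 𝒮, (S.card : ℝ) ≤ c₁ * L ∧
      Real.log m * ((t1 : ℝ) + ((nn * S.card : ℕ) : ℝ)) ≤ Real.log m * (t1 + nn * nX) + c₁ / 4 * L := by
    intro S hS
    have h1 := h𝒮2 S hS
    have h0 : (0 : ℝ) ≤ S.card := Nat.cast_nonneg _
    constructor
    · have h2 := card_nrm h1
      rw [Real.log_exp] at h2
      have h3 : (1 : ℝ) / 4 ≤ Real.log 2 := by
        have := Real.log_two_gt_d9
        linarith
      nlinarith
    · have h2 := hnX S _ h1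
      rw [Real.log_exp] at h2
      push_cast
      have hmn : 0 ≤ Real.log m * nn := by positivity
      have hcL : 0 ≤ c₁ / 4 * L := by positivity
      rcases le_total (S.card : ℝ) nX with h4 | h4
      · have h5 := mul_le_mul_of_nonneg_left h4 hmn
        nlinarith
      · have h5 : Real.log m * nn * ((S.card : ℝ) - nX) ≤ Real.log X * ((S.card : ℝ) - nX) :=
          mul_le_mul_of_nonneg_right hXm (by linarith)
        nlinarith
  choose rr hrr1 hrr2 using fun S : Finset (FinitePlace K) => tcls_su hS1 ht1' S m hm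
  choose Bd hBd1 hBd2 using fun S : Finset (FinitePlace K) => below S
  have hunit : ∀ (S : Finset (FinitePlace K)) (p : ℕ), p.Prime → pm ≤ p → p ∉ Bd S → ∀ (π : Pl K p),
      ∀ γ ∈ G ⊔ Su (S1 ∪ S), (γ : K) ∈ π.V ∧ (γ : K)⁻¹ ∈ π.V := by
    intro S p hp hpp hpB π
    refine sup_unit (fun γ hγ => hM₀ p hp (by omega) π γ hγ) (su_unit hp π fun v hv hvS => ?_)
    rcases mem_union.1 hvS with h3 | h3
    · exact hp2 p hp (hpm2.trans hpp) v hv h3
    · exact hBd2 S p hp hpB v hv h3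
  have hRU : DensK K pm (RU (fun _ : Fin h => A) (fun _ => B) ∅ ∅ R ex E' b ν d E ω) κ0 :=
    dens_RU K fun p hp hpp => hp0 p hp (hpm0.trans hpp)
  have hone : ∀ S ∈ 𝒮, ∀ i, (Nat.card {a : IxM ι M ν d × Fin e → ℤ // (∀ i, |a i| ≤ (H : ℤ)) ∧
      ∃ P : Fin (h + 0) → Pt (A : K) (B : K), (∀ l, P l ∈ (⊤ : AddSubgroup (Pt (A : K) (B : K)))) ∧
      AdmB pm (Bd S) (TV_RZ (RU (fun _ : Fin h => A) (fun _ => B) ∅ ∅ R ex E' b ν d E ω) (rr S i)) a P} : ℝ) ≤
      |C| * (H : ℝ) ^ Fintype.card (IxM ι M ν d × Fin e) * Real.exp (-(c₁ * L)) := by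
    intro S hS i
    have h1 := hC H hH (Bd S) (by
      rw [← hL]
      exact le_trans (by exact_mod_cast hBd1 S) (hSc S hS).1) (IxM ι M ν d × Fin e) rfl _
      (TV_dens hK hRU (U := rr S i) fun p hp hpp hpB π l => hunit S p hp hpp hpB π _ (hrr1 S i l))
    rw [← hL] at h1
    refine h1.trans ?_
    refine mul_le_mul_of_nonneg_right (mul_le_mul_of_nonneg_right (le_abs_self C) (by positivity)) (Real.exp_pos _).le
  have hun := TV_union (ι := IxM ι M ν d × Fin e) (τ := Σ S : 𝒮, Fin (m ^ (t1 + (0 + (w + s) + 1) * S.1.card))) H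
    (fun a => ∃ S : Finset (FinitePlace K), ∏ v ∈ S, (nrm v : ℝ) ≤ Real.exp (c₁ / 4 * L) ∧
          IntQ (g := 0) (G ⊔ Su S) S ∅ ∅ R ex E' (fun t => ((b t : 𝓞 K) : K)) E (fun _ => (A : K)) (fun _ => (B : K))
            (cf ω a))
    (fun q a => ∃ P : Fin (h + 0) → Pt (A : K) (B : K), (∀ l, P l ∈ (⊤ : AddSubgroup (Pt (A : K) (B : K)))) ∧
      AdmB pm (Bd q.1.1) (TV_RZ (RU (fun _ : Fin h => A) (fun _ => B) ∅ ∅ R ex E' b ν d E ω) (rr q.1.1 q.2)) a P)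
    (by
      rintro a ⟨S, hS, hI⟩
      have hS𝒮 := h𝒮1 S hS
      obtain ⟨ϖ, hϖ1, hϖ2⟩ := sep hS1 S
      have ea : ∀ z : Cv e 0, aA ω (fun _ : Fin h => A) z = fun _ => (A : K) := by
        intro z
        funext l
        refine Fin.addCases (fun i => ?_) (fun i => i.elim0) l
        simp only [aA, Fin.append_left]
      have eb : ∀ z : Cv e 0, aB ω (fun _ : Fin h => B) z = fun _ => (B : K) := by
        intro z
        funext l
        refine Fin.addCases (fun i => ?_) (fun i => i.elim0) l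
        simp only [aB, Fin.append_left]
      obtain ⟨z0, hz0⟩ : ∃ z0 : Cv e 0, z0 = fun l => l.elim0 := ⟨_, rfl⟩
      have hbox : Box (⇑ω) (∑ i, (a i).natAbs) ((z0, a) : Cv e 0 × (IxM ι M ν d × Fin e → ℤ)) := by
        refine ⟨fun l => l.elim0, fun k => ?_⟩
        have h1 : (a k).natAbs ≤ ∑ i, (a i).natAbs :=
          single_le_sum (f := fun i => (a i).natAbs) (fun i _ => Nat.zero_le _) (mem_univ k)
        have h2 : |a k| = (((a k).natAbs : ℕ) : ℤ) := Int.abs_eq_natAbs _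
        show |a k| ≤ _
        rw [h2]
        exact_mod_cast h1
      have hloc := loc_U K pm hS1 (fun p hp hpp => hp2 p hp (hpm2.trans hpp)) ϖ hϖ1 hϖ2 (fun _ : Fin h => A) (fun _ => B)
        (fun _ => hd) E' b E (⇑ω) ∅ ∅ R ex hex G (z0, a) hbox (by
          rw [ea, eb]
          exact hI)
      rw [ea, eb] at hloc
      obtain ⟨x, hx, P, hP⟩ := hloc
      obtain ⟨i, y, hy, hxy⟩ := hrr2 S x hx
      refine ⟨⟨⟨S, hS𝒮⟩, i⟩, P, fun l => AddSubgroup.mem_top _, ?_⟩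
      refine TV_adm hK (fun p hp hpp π => hp3 p hp (hpm3.trans hpp) π)
        (fun p hp hpp hpB π l => hunit S p hp hpp hpB π _ (hx l)) (fun p hp hpp hpB π z c hc => ?_) a P hP
      have hF : Fact p.Prime := ⟨hp⟩
      refine TV_cls π (fun _ => A) (fun _ => B) R ex E' b ν d E (⇑ω) m hmd _ _ (fun l => res π (y l : K)) (fun l => ?_) z c hc
      have h1 := hunit S p hp hpp hpB π _ (hrr1 S i l)
      have h2 := hunit S p hp hpp hpB π _ (hy l)
      have h3 := (rd_res h1.1).mul ((rd_res h2.1).pow m)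
      have h4 : (x l : K) = (rr S i l : K) * (y l : K) ^ m := by
        rw [hxy l, Units.val_mul, Units.val_pow_eq_pow_val]
      rw [← h4] at h3
      exact (rd_res (hunit S p hp hpp hpB π _ (hx l)).1).unique h3)
  refine le_trans (Nat.cast_le.2 hun) ?_
  rw [Nat.cast_sum, Fintype.sum_sigma]
  refine (sum_le_sum fun S _ => (sum_le_sum fun i _ => hone S.1 S.2 i)).trans ?_
  have h5 : ∀ S : 𝒮, ∑ _i : Fin (m ^ (t1 + (0 + (w + s) + 1) * S.1.card)),
      |C| * (H : ℝ) ^ Fintype.card (IxM ι M ν d × Fin e) * Real.exp (-(c₁ * L)) ≤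
      Real.exp (Real.log m * (t1 + nn * nX)) * Real.exp (c₁ / 4 * L) *
        (|C| * (H : ℝ) ^ Fintype.card (IxM ι M ν d × Fin e) * Real.exp (-(c₁ * L))) := by
    intro S
    rw [sum_const, card_univ, Fintype.card_fin, nsmul_eq_mul]
    refine mul_le_mul_of_nonneg_right ?_ (by positivity)
    have hm0 : (0 : ℝ) < m := by exact_mod_cast hm
    have h2 : ((m ^ (t1 + (0 + (w + s) + 1) * S.1.card) : ℕ) : ℝ) =
        Real.exp (Real.log m * ((t1 : ℝ) + ((nn * S.1.card : ℕ) : ℝ))) := by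
      rw [Real.exp_mul, Real.exp_log hm0, ← Nat.cast_add, Real.rpow_natCast, Nat.cast_pow, hnn]
    rw [h2, ← Real.exp_add]
    exact Real.exp_le_exp.2 (hSc S.1 S.2).2
  refine (sum_le_sum fun S _ => h5 S).trans ?_
  rw [sum_const, card_univ, Fintype.card_coe, nsmul_eq_mul]
  have h6 : (0 : ℝ) ≤ Real.exp (Real.log m * (t1 + nn * nX)) * Real.exp (c₁ / 4 * L) *
        (|C| * (H : ℝ) ^ Fintype.card (IxM ι M ν d × Fin e) * Real.exp (-(c₁ * L))) := by positivity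
  calc (𝒮.card : ℝ) * (Real.exp (Real.log m * (t1 + nn * nX)) * Real.exp (c₁ / 4 * L) *
        (|C| * (H : ℝ) ^ Fintype.card (IxM ι M ν d × Fin e) * Real.exp (-(c₁ * L)))) ≤
      (CK * Real.exp (c₁ / 4 * L)) * (Real.exp (Real.log m * (t1 + nn * nX)) * Real.exp (c₁ / 4 * L) *
        (|C| * (H : ℝ) ^ Fintype.card (IxM ι M ν d × Fin e) * Real.exp (-(c₁ * L)))) :=
        mul_le_mul_of_nonneg_right h𝒮3 h6
    _ = CK * Real.exp (Real.log m * (t1 + nn * nX)) * |C| * (H : ℝ) ^ Fintype.card (IxM ι M ν d × Fin e) *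
        (Real.exp (c₁ / 4 * L) * Real.exp (c₁ / 4 * L) * Real.exp (-(c₁ * L))) := by ring
    _ ≤ _ := by
        refine mul_le_mul_of_nonneg_left ?_ (by positivity)
        rw [← Real.exp_add, ← Real.exp_add]
        refine Real.exp_le_exp.2 ?_
        have : 0 ≤ c₁ * L := by positivity
        linarith

end OCM
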