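import Pool.Agent.Lib.MP_17a322_ntOC.OXDef

/-!
# Examples of curves with complex multiplication: `y² = x³ + A x` and `y² = x³ + B`
-/

namespace VK

open Polynomial

private theorem HasCM_ne {K : Type} [Field K] [CharZero K] {N : ℤ} (hN : N < 0) (n : ℤ) : (N : K) ≠ (n : K) ^ 2 := by
  intro h
  have h1 : (N : K) = ((n ^ 2 : ℤ) : K) := by
    rw [Int.cast_pow]
    exact h
  have h2 : N = n ^ 2 := Int.cast_injective h1
  have h3 : 0 ≤ n ^ 2 := sq_nonneg n
  omega

/-- `y² = x³ + A x`: `f = -x`, `s = -1` -/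
theorem hasCM_one {K : Type} [Field K] [CharZero K] (A : K) : HasCM A 0 := by
  refine ⟨-X, 1, ((-1 : ℤ) : K), HasCM_ne (by norm_num), ?_, ?_⟩
  · simp only [derivative_neg, derivative_X, derivative_one, mul_zero, sub_zero, mul_one]
    exact neg_ne_zero.2 one_ne_zero
  · simp only [derivative_X, derivative_one, mul_zero, sub_zero, mul_one, Int.cast_neg, Int.cast_one,
      map_zero, map_neg, map_one]
    ring

/-- `y² = x³ + B`: `f = (x³ + 4 B) / (-3 x²)`, `s = -3` -/
theorem hasCM_three {K : Type} [Field K] [CharZero K] (B : K) : HasCM 0 B := by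
  have h3 : derivative (X ^ 3 : K[X]) = 3 * X ^ 2 := by
    rw [derivative_X_pow]
    simp
    exact map_ofNat C 3
  have h2 : derivative (X ^ 2 : K[X]) = 2 * X := by
    rw [derivative_X_pow]
    simp
    exact map_ofNat C 2
  have hd : derivative (X ^ 3 + C (4 * B) : K[X]) * (C (-3) * X ^ 2) -
      (X ^ 3 + C (4 * B)) * derivative (C (-3) * X ^ 2 : K[X]) = C (-3) * X * (X ^ 3 - C (8 * B)) := by
    rw [derivative_add, derivative_C, derivative_C_mul, h2, h3]
    simp only [map_mul, map_neg, map_ofNat]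
    ring
  refine ⟨X ^ 3 + C (4 * B), C (-3) * X ^ 2, ((-3 : ℤ) : K), HasCM_ne (by norm_num), ?_, ?_⟩
  · rw [hd]
    refine mul_ne_zero (mul_ne_zero (C_ne_zero.2 (by norm_num)) X_ne_zero) ?_
    exact (monic_X_pow_sub_C _ (by norm_num)).ne_zero
  · rw [hd]
    simp only [map_zero, map_neg, map_mul, map_ofNat, Int.cast_neg, Int.cast_ofNat]
    ring

end VK
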