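import Pool.Agent.Lib.MP_17a322_ntOC.ZJ

/-!
# Fixed elliptic curves which are a curve of rank at most one or have finitely many points: the form of the final statement
-/

namespace OCM

open Finset NumberField LVH VK VU

theorem clF (K : Type) [Field K] [NumberField K] [DecidableEq K] {h : ℕ} (A' B' : Fin h → 𝓞 K)
    (hds : ∀ l, ds (A' l) (B' l) ≠ 0) (n r M w : ℕ) (κ : Type) [Fintype κ] (δ : Fin w → ℕ)
    (d' : Fin w → Fin h → ℕ) (E' : Fin w → κ → Fin n → ℤ) (b : IxM κ M δ d' → 𝓞 K) (hF : FibP A' B' E' b r)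
    {m : ℕ} (hm : 1 ≤ m) (hK : ∃ ζ : K, IsPrimitiveRoot ζ m)
    (hE : ∃ A B : 𝓞 K, ds A B ≠ 0 ∧ Module.finrank ℤ (Pt (A : K) (B : K)) ≤ 1 ∧
      ∀ l, (A' l = A ∧ B' l = B) ∨ Finite (Pt ((A' l : 𝓞 K) : K) ((B' l : 𝓞 K) : K))) (hn : n = 0) :
    ∃ (ν0 : ℕ) (c : ℝ), 0 < c ∧ ∀ Γ : Subgroup Kˣ, Γ.FG → ∀ (e : ℕ) (ω : Module.Basis (Fin e) ℤ (𝓞 K)) (g s : ℕ)
      (ι : Type) [Fintype ι] [DecidableEq ι] [Nonempty ι] (ν : Fin s → ℕ) (E : Fin s → ι → Fin n → ℤ)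
      (d : Fin s → Fin (h + g) → ℕ) (R : Finset (Fin s)) (ex : Fin s → ℕ), g = 0 →
      (∀ j ∈ R, 1 ≤ ex j ∧ ex j ∣ ν j ∧ ∀ l, ex j ∣ 2 * d j l) →
      (r + R.card ≤ s ∨ r + R.card ≤ s + 1 ∧
        ((∃ j, (ν0 ≤ ν j ∨ M = 0) ∧ (j ∈ R → ¬ (ex j).Coprime m)) ∨
          (w = 0 ∧ R = ∅ ∧ M ≤ s ∧ (∀ j, 1 ≤ ν j) ∧ M + 1 ≤ ∑ j, ν j))) →
      ∃ C : ℝ, ∀ H : ℕ, 1 ≤ H →
        (Nat.card {z : Cv e g × (IxM ι M ν d × Fin e → ℤ) // Box ω H z ∧ ∃ S : Finset (FinitePlace K),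
          ∏ v ∈ S, (nrm v : ℝ) ≤ Real.exp (c * (Real.log (Real.log H)) ^ 2) ∧
          IntQ (Γ ⊔ Su S) S ∅ ∅ R ex E' (fun t => ((b t : 𝓞 K) : K)) E (aA ω A' z.1) (aB ω B' z.1) (cf ω z.2)} : ℝ) ≤
          C * (H : ℝ) ^ (e * (Fintype.card (IxM ι M ν d) + 5 * g)) * Real.exp (-(c * (Real.log (Real.log H)) ^ 2)) := by
  subst hn
  obtain ⟨A, B, hd, hrk, hAB⟩ := hE
  obtain ⟨ζ, hζ⟩ := hK
  obtain ⟨c, ν0, hc, hh1⟩ := rank_oneF hm hζ hd hrk A' B' hds hAB E' b hF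
  refine ⟨ν0, c, hc, fun Γ hΓ e ω g s ι _ _ _ ν E d R ex hg hex hi => ?_⟩
  subst hg
  obtain ⟨C, hC⟩ := hh1 Γ hΓ e ω s ι ν E d R ex hex hi
  refine ⟨C, fun H hH => ?_⟩
  have h1 := hC H hH
  have e1 : Fintype.card (IxM ι M ν d × Fin e) = e * (Fintype.card (IxM ι M ν d) + 5 * 0) := by
    rw [Fintype.card_prod, Fintype.card_fin]
    ring
  rw [e1] at h1
  refine le_trans ?_ h1
  have hfin : Finite {c' : IxM ι M ν d × Fin e → ℤ // (∀ i, |c' i| ≤ (H : ℤ)) ∧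
      ∃ S : Finset (FinitePlace K), ∏ v ∈ S, (nrm v : ℝ) ≤ Real.exp (c * (Real.log (Real.log H)) ^ 2) ∧
      IntQ (g := 0) (Γ ⊔ Su S) S ∅ ∅ R ex E' (fun t => ((b t : 𝓞 K) : K)) E (fun l : Fin (h + 0) => ((A' l : 𝓞 K) : K))
        (fun l : Fin (h + 0) => ((B' l : 𝓞 K) : K)) (cf ω c')} := by
    let f : {c' : IxM ι M ν d × Fin e → ℤ // (∀ i, |c' i| ≤ (H : ℤ)) ∧
      ∃ S : Finset (FinitePlace K), ∏ v ∈ S, (nrm v : ℝ) ≤ Real.exp (c * (Real.log (Real.log H)) ^ 2) ∧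
      IntQ (g := 0) (Γ ⊔ Su S) S ∅ ∅ R ex E' (fun t => ((b t : 𝓞 K) : K)) E (fun l : Fin (h + 0) => ((A' l : 𝓞 K) : K))
        (fun l : Fin (h + 0) => ((B' l : 𝓞 K) : K)) (cf ω c')} →
        (IxM ι M ν d × Fin e → (Icc (-(H : ℤ)) H : Finset ℤ)) :=
      fun z i => ⟨z.1 i, mem_Icc.2 (abs_le.1 (z.2.1 i))⟩
    refine Finite.of_injective f fun a b hab => ?_
    exact Subtype.ext (funext fun i => congrArg (fun w => (w i : ℤ)) hab)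
  have ea : ∀ z : Cv e 0, aA ω A' z = fun l : Fin (h + 0) => ((A' l : 𝓞 K) : K) := by
    intro z
    funext l
    refine Fin.addCases (fun i => ?_) (fun i => i.elim0) l
    rw [aA, Fin.append_left]
    rfl
  have eb : ∀ z : Cv e 0, aB ω B' z = fun l : Fin (h + 0) => ((B' l : 𝓞 K) : K) := by
    intro z
    funext l
    refine Fin.addCases (fun i => ?_) (fun i => i.elim0) l
    rw [aB, Fin.append_left]
    rfl
  refine Nat.cast_le.2 (Nat.card_le_card_of_injective (fun z => ⟨z.1.2, z.2.1.2, ?_⟩) ?_)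
  · obtain ⟨S, h2, h3⟩ := z.2.2
    rw [ea, eb] at h3
    exact ⟨S, h2, h3⟩
  · intro a b hab
    refine Subtype.ext (Prod.ext (funext fun l => l.elim0) ?_)
    exact congrArg (fun w => w.1) hab

end OCM
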