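import Mathlib

/-!
# Frobenius of an elliptic curve with complex multiplication: the curve

`CW A B` is the curve `y² = x³ + A x + B`; `PL A B L` its points over an extension `L` of `K`; `LL A B` its function
field, an extension of degree `2` of `RatFunc K`, generated by `y`.
-/

set_option autoImplicit false

namespace OCM

open Polynomial

/-- the curve `y² = x³ + A x + B` -/
def CW {K : Type} [Field K] (A B : K) : WeierstrassCurve K := ⟨0, 0, 0, A, B⟩

/-- its points over an extension -/
abbrev PL {K : Type} [Field K] (A B : K) (L : Type) [Field L] [Algebra K L] : Type :=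
  ((CW A B).baseChange L).toAffine.Point

/-- the polynomial `Y² - (t³ + A t + B)` over `K(t)` -/
noncomputable def PY {K : Type} [Field K] (A B : K) : (RatFunc K)[X] :=
  X ^ 2 - C (RatFunc.X ^ 3 + RatFunc.C A * RatFunc.X + RatFunc.C B)

end OCM
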