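import Pool.Agent.Lib.MP_17a322_ntOC.Defs0

/-!
# LEAF OA: the function field

PROOF.  Copy `Pool/Agent/Lib/MP_10e784_agWP/WA.lean` (there the curve is `y² + x y = x³ - q`).  `PY_irr`: degree `2` and monic: no root `r` in `RatFunc K`: a root is integral over `K[X]`, so it is a polynomial `r`, `r² = X³ + A X + B`, but the degree of `r²` is even.
`xL_tr`: `RatFunc.X` is transcendental.  `LL_form`, `LL_uniq`: the basis `1, y`.
-/

set_option autoImplicit false

namespace OCM

open Polynomial

variable {K : Type} [Field K]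

private theorem OA_natDegree (A B : K) : (PY A B).natDegree = 2 := by
  unfold PY
  compute_degree!

private theorem OA_monic (A B : K) : (PY A B).Monic := by
  unfold PY
  monicity!

private theorem OA_poly (A B : K) (p : K[X]) : p ^ 2 ≠ X ^ 3 + C A * X + C B := by
  intro h
  have hr : (X ^ 3 + C A * X + C B : K[X]).natDegree = 3 := by compute_degree!
  have hl : (p ^ 2).natDegree = 3 := by rw [h, hr]
  rw [natDegree_pow] at hl
  omega

private theorem OA_noroot (A B : K) (r : RatFunc K) :
    r ^ 2 ≠ RatFunc.X ^ 3 + RatFunc.C A * RatFunc.X + RatFunc.C B := by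
  intro h
  have hX : algebraMap K[X] (RatFunc K) X = RatFunc.X := RatFunc.algebraMap_X
  have hC : ∀ q : K, algebraMap K[X] (RatFunc K) (C q) = RatFunc.C q := fun q => RatFunc.algebraMap_C q
  have hint : IsIntegral K[X] r := by
    refine ⟨X ^ 2 - C (X ^ 3 + C A * X + C B), by monicity!, ?_⟩
    rw [eval₂_sub, eval₂_pow, eval₂_X, eval₂_C, map_add, map_add, map_mul, map_pow, hX, hC, hC, h]
    ring
  obtain ⟨p, hp⟩ := IsIntegrallyClosed.isIntegral_iff.mp hint
  refine OA_poly A B p ?_
  have hinj := IsFractionRing.injective K[X] (RatFunc K)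
  apply hinj
  simp only [map_add, map_mul, map_pow]
  rw [hp, hX, hC, hC, h]

theorem PY_irr (A B : K) : Irreducible (PY A B) := by
  have hm := OA_monic A B
  have hd := OA_natDegree A B
  refine (hm.irreducible_iff_roots_eq_zero_of_degree_le_three (by omega) (by omega)).mpr ?_
  rw [Multiset.eq_zero_iff_forall_notMem]
  intro r hr
  have h1 := (mem_roots'.mp hr).2
  unfold PY at h1
  simp only [IsRoot.def, eval_sub, eval_pow, eval_X, eval_C] at h1
  exact OA_noroot A B r (sub_eq_zero.mp h1)

instance PY_fact (A B : K) : Fact (Irreducible (PY A B)) := ⟨PY_irr A B⟩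

/-- the function field -/
abbrev LL (A B : K) : Type := AdjoinRoot (PY A B)

/-- the coordinate `x` -/
noncomputable def xL (A B : K) : LL A B := algebraMap (RatFunc K) (LL A B) RatFunc.X

/-- the coordinate `y` -/
noncomputable def yL (A B : K) : LL A B := AdjoinRoot.root (PY A B)

/-- polynomials at `xL` -/
private theorem OA_aeval (A B : K) (P : K[X]) :
    aeval (xL A B) P = algebraMap (RatFunc K) (LL A B) (algebraMap K[X] (RatFunc K) P) := by
  have h1 : aeval (xL A B) P = algebraMap (RatFunc K) (LL A B) (aeval (RatFunc.X : RatFunc K) P) := by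
    unfold xL
    exact aeval_algebraMap_apply (LL A B) (RatFunc.X : RatFunc K) P
  rw [h1]
  congr 1
  induction P using Polynomial.induction_on' with
  | add a b ha hb =>
    have ha' : aeval (xL A B) a = algebraMap (RatFunc K) (LL A B) (aeval (RatFunc.X : RatFunc K) a) := by
      unfold xL
      exact aeval_algebraMap_apply (LL A B) (RatFunc.X : RatFunc K) a
    have hb' : aeval (xL A B) b = algebraMap (RatFunc K) (LL A B) (aeval (RatFunc.X : RatFunc K) b) := by
      unfold xL
      exact aeval_algebraMap_apply (LL A B) (RatFunc.X : RatFunc K) b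
    rw [map_add, map_add, ha ha', hb hb']
  | monomial n a =>
    rw [aeval_monomial, ← C_mul_X_pow_eq_monomial, map_mul, map_pow, RatFunc.algebraMap_X,
      RatFunc.algebraMap_C]
    rfl

theorem xL_tr (A B : K) : Transcendental K (xL A B) := by
  intro h
  obtain ⟨P, hP0, hP⟩ := h
  rw [OA_aeval] at hP
  have h1 : algebraMap K[X] (RatFunc K) P = 0 :=
    (algebraMap (RatFunc K) (LL A B)).injective (by rw [hP, map_zero])
  exact hP0 (IsFractionRing.injective K[X] (RatFunc K) (by rw [h1, map_zero]))

private theorem OA_eq (A B : K) : yL A B ^ 2 =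
    algebraMap (RatFunc K) (LL A B) (RatFunc.X ^ 3 + RatFunc.C A * RatFunc.X + RatFunc.C B) := by
  have h := AdjoinRoot.eval₂_root (PY A B)
  rw [show PY A B = X ^ 2 - C (RatFunc.X ^ 3 + RatFunc.C A * RatFunc.X + RatFunc.C B) from rfl] at h
  simp only [eval₂_sub, eval₂_pow, eval₂_X, eval₂_C] at h
  exact sub_eq_zero.mp h

theorem eqL (A B : K) : yL A B ^ 2 =
    xL A B ^ 3 + algebraMap K (LL A B) A * xL A B + algebraMap K (LL A B) B := by
  rw [OA_eq, map_add, map_add, map_mul, map_pow]
  rfl

theorem finrank_LL (A B : K) : Module.finrank (RatFunc K) (LL A B) = 2 := by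
  rw [(AdjoinRoot.powerBasis (PY_irr A B).ne_zero).finrank, AdjoinRoot.powerBasis_dim, OA_natDegree]

theorem LL_form (A B : K) (z : LL A B) : ∃ a b : RatFunc K,
    z = algebraMap (RatFunc K) (LL A B) a + algebraMap (RatFunc K) (LL A B) b * yL A B := by
  obtain ⟨g, rfl⟩ := AdjoinRoot.mk_surjective z
  have hm := OA_monic A B
  have hd : (g %ₘ PY A B).natDegree < 2 := by
    rw [← OA_natDegree A B]
    refine natDegree_modByMonic_lt g hm ?_
    intro h1
    have := OA_natDegree A B
    rw [h1, natDegree_one] at this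
    omega
  have hg : AdjoinRoot.mk (PY A B) g = AdjoinRoot.mk (PY A B) (g %ₘ PY A B) := by
    rw [AdjoinRoot.mk_eq_mk]
    refine ⟨g /ₘ PY A B, ?_⟩
    have := modByMonic_add_div g (PY A B)
    linear_combination - this
  refine ⟨(g %ₘ PY A B).coeff 0, (g %ₘ PY A B).coeff 1, ?_⟩
  rw [hg]
  conv_lhs => rw [eq_X_add_C_of_natDegree_le_one (show (g %ₘ PY A B).natDegree ≤ 1 by omega)]
  rw [map_add, map_mul, AdjoinRoot.mk_C, AdjoinRoot.mk_C, AdjoinRoot.mk_X]
  exact add_comm _ _

theorem LL_uniq (A B : K) (a b : RatFunc K)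
    (h : algebraMap (RatFunc K) (LL A B) a + algebraMap (RatFunc K) (LL A B) b * yL A B = 0) : a = 0 ∧ b = 0 := by
  have h1 : AdjoinRoot.mk (PY A B) (C a + C b * X) = 0 := by
    rw [map_add, map_mul, AdjoinRoot.mk_C, AdjoinRoot.mk_C, AdjoinRoot.mk_X]
    exact h
  rw [AdjoinRoot.mk_eq_zero] at h1
  have h2 : (C a + C b * X : (RatFunc K)[X]) = 0 := by
    by_contra h3
    have h4 := natDegree_le_of_dvd h1 h3
    rw [OA_natDegree] at h4
    have h5 : (C a + C b * X : (RatFunc K)[X]).natDegree ≤ 1 := by compute_degree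
    omega
  constructor
  · have := congrArg (fun p => coeff p 0) h2
    simpa using this
  · have := congrArg (fun p => coeff p 1) h2
    simpa using this

/-- polynomials at `xL` -/
theorem aeval_xL (A B : K) (P : K[X]) :
    aeval (xL A B) P = algebraMap (RatFunc K) (LL A B) (algebraMap K[X] (RatFunc K) P) := by
  exact OA_aeval A B P

end OCM
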