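import Pool.Agent.Lib.MP_17a322_ntOC.OA

/-!
# LEAF OB: homomorphisms of the function field

PROOF.  Copy `Pool/Agent/Lib/MP_10e784_agWP/WB.lean`.  `sigma`: `y ↦ - y`.  `fixed_sigma`, `anti_sigma`: `z = a + b y` (`LL_form`), `σ z = a - b y`, `LL_uniq`, `2 ≠ 0`.
`alg_const`: let `z = a + b y` be algebraic over `K`.  Then `σ z` is algebraic too (`σ` is an algebra homomorphism), so `2 a = z + σ z` and `a` are, an algebraic element of `RatFunc K` is in `K` (`RatFunc.algebraMap_...`, or: `K[X]` is integrally closed: an algebraic element `r` is integral over `K`, so it is a polynomial, a unit or `0`: degree `0`; see also `RatFunc.eq_C_iff`, `transcendental`-lemmas of `RatFunc`), so `b y = z - a` is algebraic and `(b y)² = b² F` is algebraic and in `RatFunc K`, so `b² F = c` is a constant, `F = X³ + A X + B`;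
if `b ≠ 0` write `b = m / n`: `m² F = c n²` in `K[X]`, `c ≠ 0`, and the degrees have different parity.
-/

set_option autoImplicit false

namespace OCM

open Polynomial

variable {K : Type} [Field K]

private theorem OB_poly {A B : K} {S : Type} [Field S] [Algebra K S] (f g : LL A B →ₐ[K] S)
    (hx : f (xL A B) = g (xL A B)) (P : K[X]) :
    f (algebraMap (RatFunc K) (LL A B) (algebraMap K[X] (RatFunc K) P)) =
      g (algebraMap (RatFunc K) (LL A B) (algebraMap K[X] (RatFunc K) P)) := by
  rw [← aeval_xL, ← aeval_algHom_apply, ← aeval_algHom_apply, hx]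

private theorem OB_rat {A B : K} {S : Type} [Field S] [Algebra K S] (f g : LL A B →ₐ[K] S)
    (hx : f (xL A B) = g (xL A B)) (r : RatFunc K) :
    f (algebraMap (RatFunc K) (LL A B) r) = g (algebraMap (RatFunc K) (LL A B) r) := by
  rw [← RatFunc.num_div_denom r, map_div₀, map_div₀, map_div₀, OB_poly f g hx, OB_poly f g hx]

theorem hom_ext {A B : K} {S : Type} [Field S] [Algebra K S] (f g : LL A B →ₐ[K] S) (hx : f (xL A B) = g (xL A B))
    (hy : f (yL A B) = g (yL A B)) : f = g := by
  refine AlgHom.ext fun z => ?_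
  obtain ⟨a, b, rfl⟩ := LL_form A B z
  rw [map_add, map_add, map_mul, map_mul, OB_rat f g hx, OB_rat f g hx, hy]

private theorem OB_eval {S : Type} [CommRing S] (A B : K) (φ : RatFunc K →+* S) (w : S) :
    (PY A B).eval₂ φ w = w ^ 2 - (φ RatFunc.X ^ 3 + φ (RatFunc.C A) * φ RatFunc.X + φ (RatFunc.C B)) := by
  unfold PY
  rw [eval₂_sub, eval₂_pow, eval₂_X, eval₂_C, map_add, map_add, map_pow, map_mul]

theorem hom_exists {A B : K} (z w : LL A B) (hz : Transcendental K z)
    (h : w ^ 2 = z ^ 3 + algebraMap K (LL A B) A * z + algebraMap K (LL A B) B) :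
    ∃ f : LL A B →ₐ[K] LL A B, f (xL A B) = z ∧ f (yL A B) = w := by
  have hinj : Function.Injective (aeval z : K[X] →ₐ[K] LL A B) := transcendental_iff_injective.1 hz
  let φ : RatFunc K →ₐ[K] LL A B := RatFunc.liftAlgHom (aeval z : K[X] →ₐ[K] LL A B) (by
    intro P hP
    rw [Submonoid.mem_comap]
    refine mem_nonZeroDivisors_of_ne_zero fun h0 => ?_
    refine nonZeroDivisors.ne_zero hP (hinj ?_)
    rw [map_zero]
    exact h0)
  have hφ : ∀ P : K[X], φ (algebraMap K[X] (RatFunc K) P) = aeval z P := fun P => by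
    have h1 := RatFunc.liftAlgHom_apply_div' (L := LL A B) (aeval z : K[X] →ₐ[K] LL A B) (by
      intro P hP
      rw [Submonoid.mem_comap]
      refine mem_nonZeroDivisors_of_ne_zero fun h0 => ?_
      refine nonZeroDivisors.ne_zero hP (hinj ?_)
      rw [map_zero]
      exact h0) P 1
    rw [map_one, map_one, map_one, div_one, div_one] at h1
    exact h1
  have hφX : φ RatFunc.X = z := by
    rw [← RatFunc.algebraMap_X, hφ, aeval_X]
  have hφC : ∀ c : K, φ (RatFunc.C c) = algebraMap K (LL A B) c := fun c => by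
    rw [← RatFunc.algebraMap_C, hφ, aeval_C]
  have hroot : (PY A B).eval₂ (φ : RatFunc K →+* LL A B) w = 0 := by
    have h1 : (φ : RatFunc K →+* LL A B) RatFunc.X = z := hφX
    have h2 : (φ : RatFunc K →+* LL A B) (RatFunc.C A) = algebraMap K (LL A B) A := hφC A
    have h3 : (φ : RatFunc K →+* LL A B) (RatFunc.C B) = algebraMap K (LL A B) B := hφC B
    rw [OB_eval, h1, h2, h3]
    linear_combination h
  let f0 : LL A B →+* LL A B := AdjoinRoot.lift (φ : RatFunc K →+* LL A B) w hroot
  have hf0 : ∀ r : RatFunc K, f0 (algebraMap (RatFunc K) (LL A B) r) = φ r := fun r => by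
    exact AdjoinRoot.lift_of hroot
  let f : LL A B →ₐ[K] LL A B :=
    { f0 with
      commutes' := fun c => by
        change f0 (algebraMap K (LL A B) c) = algebraMap K (LL A B) c
        rw [IsScalarTower.algebraMap_apply K (RatFunc K) (LL A B), hf0, AlgHom.commutes]
        rfl }
  refine ⟨f, ?_, ?_⟩
  · change f0 (algebraMap (RatFunc K) (LL A B) RatFunc.X) = z
    rw [hf0, hφX]
  · change f0 (AdjoinRoot.root (PY A B)) = w
    exact AdjoinRoot.lift_root hroot

theorem sigma (A B : K) : ∃ σ : LL A B →ₐ[K] LL A B, σ (yL A B) = -yL A B ∧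
    ∀ r : RatFunc K, σ (algebraMap (RatFunc K) (LL A B) r) = algebraMap (RatFunc K) (LL A B) r := by
  have h := eqL A B
  obtain ⟨σ, h1, h2⟩ := hom_exists (xL A B) (-yL A B) (xL_tr A B) (by linear_combination h)
  exact ⟨σ, h2, fun r => OB_rat σ (AlgHom.id K (LL A B)) h1 r⟩

theorem sigma_rat {A B : K} (σ : LL A B →ₐ[K] LL A B) (h : σ (xL A B) = xL A B) (r : RatFunc K) :
    σ (algebraMap (RatFunc K) (LL A B) r) = algebraMap (RatFunc K) (LL A B) r := by
  exact OB_rat σ (AlgHom.id K (LL A B)) h r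

private theorem OB_two (h2 : (2 : K) ≠ 0) : (2 : RatFunc K) ≠ 0 := by
  intro h7
  apply h2
  have h8 : algebraMap K (RatFunc K) 2 = algebraMap K (RatFunc K) 0 := by
    rw [map_ofNat, map_zero, h7]
  exact (algebraMap K (RatFunc K)).injective h8

theorem fixed_sigma (h2 : (2 : K) ≠ 0) {A B : K} (σ : LL A B →ₐ[K] LL A B) (h : σ (yL A B) = -yL A B)
    (h' : σ (xL A B) = xL A B) (z : LL A B) (hz : σ z = z) : ∃ r : RatFunc K, z = algebraMap (RatFunc K) (LL A B) r := by
  obtain ⟨a, b, rfl⟩ := LL_form A B z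
  rw [map_add, map_mul, sigma_rat σ h', sigma_rat σ h', h] at hz
  have h3 : algebraMap (RatFunc K) (LL A B) 0 + algebraMap (RatFunc K) (LL A B) (2 * b) * yL A B = 0 := by
    rw [map_zero, map_mul, map_ofNat]
    linear_combination -hz
  obtain ⟨-, h5⟩ := LL_uniq A B _ _ h3
  have h7 : b = 0 := (mul_eq_zero.1 h5).resolve_left (OB_two h2)
  refine ⟨a, ?_⟩
  rw [h7, map_zero, zero_mul, add_zero]

theorem anti_sigma (h2 : (2 : K) ≠ 0) {A B : K} (σ : LL A B →ₐ[K] LL A B) (h : σ (yL A B) = -yL A B)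
    (h' : σ (xL A B) = xL A B) (z : LL A B) (hz : σ z = -z) :
    ∃ r : RatFunc K, z = algebraMap (RatFunc K) (LL A B) r * yL A B := by
  obtain ⟨a, b, rfl⟩ := LL_form A B z
  rw [map_add, map_mul, sigma_rat σ h', sigma_rat σ h', h] at hz
  have h3 : algebraMap (RatFunc K) (LL A B) (2 * a) + algebraMap (RatFunc K) (LL A B) 0 * yL A B = 0 := by
    rw [map_zero, map_mul, map_ofNat]
    linear_combination hz
  obtain ⟨h5, -⟩ := LL_uniq A B _ _ h3
  have h7 : a = 0 := (mul_eq_zero.1 h5).resolve_left (OB_two h2)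
  refine ⟨b, ?_⟩
  rw [h7, map_zero, zero_add]

private theorem OB_alg {A B : K} (r : RatFunc K) (h : IsAlgebraic K (algebraMap (RatFunc K) (LL A B) r)) :
    ∃ c : K, r = RatFunc.C c := by
  by_contra hc
  have h1 : IsAlgebraic K r := (isAlgebraic_algebraMap_iff (algebraMap (RatFunc K) (LL A B)).injective).1 h
  exact RatFunc.transcendental_of_ne_C r hc h1

private theorem OB_deg (A B c : K) (b : RatFunc K)
    (h : b ^ 2 * (RatFunc.X ^ 3 + RatFunc.C A * RatFunc.X + RatFunc.C B) = RatFunc.C c) : b = 0 := by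
  by_contra hb
  have hF : (RatFunc.X ^ 3 + RatFunc.C A * RatFunc.X + RatFunc.C B : RatFunc K) =
      algebraMap K[X] (RatFunc K) (X ^ 3 + C A * X + C B) := by
    rw [map_add, map_add, map_pow, map_mul, RatFunc.algebraMap_X, RatFunc.algebraMap_C,
      RatFunc.algebraMap_C]
  have hd : (X ^ 3 + C A * X + C B : K[X]).natDegree = 3 := by compute_degree!
  have h0 : (X ^ 3 + C A * X + C B : K[X]) ≠ 0 := by
    intro h0
    rw [h0, natDegree_zero] at hd
    omega
  have h1 : algebraMap K[X] (RatFunc K) (X ^ 3 + C A * X + C B) ≠ 0 := by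
    intro h1
    apply h0
    apply IsFractionRing.injective K[X] (RatFunc K)
    rw [h1, map_zero]
  have h2 := congrArg RatFunc.intDegree h
  rw [hF, RatFunc.intDegree_mul (pow_ne_zero 2 hb) h1, pow_two, RatFunc.intDegree_mul hb hb,
    RatFunc.intDegree_polynomial, hd, RatFunc.intDegree_C] at h2
  push_cast at h2
  omega

theorem alg_const (h2 : (2 : K) ≠ 0) {A B : K} (z : LL A B) (hz : IsAlgebraic K z) :
    ∃ c : K, z = algebraMap K (LL A B) c := by
  obtain ⟨σ, hσ, hσ'⟩ := sigma A B
  obtain ⟨a, b, rfl⟩ := LL_form A B z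
  have e1 : IsAlgebraic K (σ (algebraMap (RatFunc K) (LL A B) a + algebraMap (RatFunc K) (LL A B) b * yL A B)) :=
    hz.algHom σ
  rw [map_add, map_mul, hσ', hσ', hσ] at e1
  have e2 := hz.add e1
  have e3 : algebraMap (RatFunc K) (LL A B) a + algebraMap (RatFunc K) (LL A B) b * yL A B +
      (algebraMap (RatFunc K) (LL A B) a + algebraMap (RatFunc K) (LL A B) b * -yL A B) =
      algebraMap (RatFunc K) (LL A B) (2 * a) := by
    rw [map_mul, map_ofNat]
    ring
  rw [e3] at e2
  obtain ⟨c, hc⟩ := OB_alg _ e2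
  have e4 : a = RatFunc.C (c / 2) := by
    have e5 : (2 : RatFunc K) * a = 2 * RatFunc.C (c / 2) := by
      rw [hc]
      have e6 : (2 : RatFunc K) = RatFunc.C 2 := by rw [map_ofNat]
      rw [e6, ← map_mul, mul_div_cancel₀ c h2]
    exact mul_left_cancel₀ (OB_two h2) e5
  have e7 : IsAlgebraic K (algebraMap (RatFunc K) (LL A B) a) := by
    rw [e4, ← RatFunc.algebraMap_eq_C, ← IsScalarTower.algebraMap_apply K (RatFunc K) (LL A B)]
    exact isAlgebraic_algebraMap _
  have e8 := (hz.sub e7).pow 2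
  have e9 : (algebraMap (RatFunc K) (LL A B) a + algebraMap (RatFunc K) (LL A B) b * yL A B -
      algebraMap (RatFunc K) (LL A B) a) ^ 2 = algebraMap (RatFunc K) (LL A B)
        (b ^ 2 * (RatFunc.X ^ 3 + RatFunc.C A * RatFunc.X + RatFunc.C B)) := by
    have e10 := eqL A B
    have e11 : xL A B = algebraMap (RatFunc K) (LL A B) RatFunc.X := rfl
    have e12 : ∀ d : K, algebraMap K (LL A B) d = algebraMap (RatFunc K) (LL A B) (RatFunc.C d) := fun d => by
      rw [← RatFunc.algebraMap_eq_C, ← IsScalarTower.algebraMap_apply K (RatFunc K) (LL A B)]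
    rw [e12, e12, e11] at e10
    rw [map_mul, map_pow, map_add, map_add, map_pow, map_mul, ← e10]
    ring
  rw [e9] at e8
  obtain ⟨c', hc'⟩ := OB_alg _ e8
  have e13 := OB_deg A B c' b hc'
  refine ⟨c / 2, ?_⟩
  rw [e13, map_zero, zero_mul, add_zero, e4, ← RatFunc.algebraMap_eq_C,
    ← IsScalarTower.algebraMap_apply K (RatFunc K) (LL A B)]

end OCM
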