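import Pool.Agent.Lib.MP_17a322_ntOC.OB

/-!
# LEAF OC: the generic point and the homomorphisms given by points

PROOF.  Copy `Pool/Agent/Lib/MP_10e784_agWP/WC.lean`.  `exists_g`: `eqL`, nonsingular because `y ≠ 0`, `2 ≠ 0`.  `hom_point`: `Q = some z w`; if `z` is algebraic over `K` then so is `w` (a root of `Y² - F(z)`), `alg_const` gives `z = c`, `w = c'`, and `Q` is the image of the point `(c, c')` of the curve over `K`
(nonsingular by `WeierstrassCurve.Affine.baseChange_nonsingular`, `map_nonsingular`), against `hQ`; so `z` is transcendental, `hom_exists`, `Point.map_some`.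
`trans_exists`: `g + cst T` is not `cst T'` as `g` is not the image of a point over `K` (`xL_tr`), so `hom_point`.
`gen_ext`: `Point.map f g = Point.map f' g` gives `f = f'` (`hom_ext`).  `map_cst`: `f.comp (Algebra.ofId K _) = Algebra.ofId K _`.
-/

set_option autoImplicit false

namespace OCM

open Polynomial WeierstrassCurve.Affine

variable {K : Type} [Field K]

open Classical in
/-- the constant points -/
noncomputable def cst {A B : K} (T : PL A B K) : PL A B (LL A B) := Point.map (Algebra.ofId K (LL A B)) T

open Classical in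
/-- the image of a point under a homomorphism of the function field -/
noncomputable def mp {A B : K} (τ : LL A B →ₐ[K] LL A B) (P : PL A B (LL A B)) : PL A B (LL A B) := Point.map τ P

/-- `g` is the generic point -/
def IsG {A B : K} (g : PL A B (LL A B)) : Prop := ∃ h, g = .some (xL A B) (yL A B) h

open Classical in
theorem mp_add {A B : K} (τ : LL A B →ₐ[K] LL A B) (P Q : PL A B (LL A B)) : mp τ (P + Q) = mp τ P + mp τ Q := by
  exact map_add (Point.map τ) P Q

open Classical in
theorem mp_neg {A B : K} (τ : LL A B →ₐ[K] LL A B) (P : PL A B (LL A B)) : mp τ (-P) = -mp τ P := by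
  exact map_neg (Point.map τ) P

open Classical in
theorem mp_zero {A B : K} (τ : LL A B →ₐ[K] LL A B) : mp τ (0 : PL A B (LL A B)) = 0 := by
  exact map_zero (Point.map τ)

theorem mp_comp {A B : K} (τ τ' : LL A B →ₐ[K] LL A B) (P : PL A B (LL A B)) :
    mp τ (mp τ' P) = mp (τ.comp τ') P := by
  classical
  exact Point.map_map _ _ _

theorem mp_cst {A B : K} (τ : LL A B →ₐ[K] LL A B) (T : PL A B K) : mp τ (cst T) = cst T := by
  classical
  have h1 : mp τ (cst T) = Point.map (τ.comp (Algebra.ofId K (LL A B))) T := Point.map_map _ _ _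
  have h2 : τ.comp (Algebra.ofId K (LL A B)) = Algebra.ofId K (LL A B) := Subsingleton.elim _ _
  rw [h1, h2]
  rfl

open Classical in
theorem cst_add {A B : K} (T T' : PL A B K) : cst (T + T') = cst T + cst T' := by
  exact map_add (Point.map (Algebra.ofId K (LL A B))) T T'

open Classical in
theorem cst_neg {A B : K} (T : PL A B K) : cst (-T) = -cst T := by
  exact map_neg (Point.map (Algebra.ofId K (LL A B))) T

theorem cst_inj {A B : K} {T T' : PL A B K} (h : cst T = cst T') : T = T' := by
  classical
  exact Point.map_injective (Algebra.ofId K (LL A B)) h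

theorem gen_ext {A B : K} {g : PL A B (LL A B)} (hg : IsG g) {f f' : LL A B →ₐ[K] LL A B} (h : mp f g = mp f' g) :
    f = f' := by
  classical
  obtain ⟨hg0, hg1⟩ := hg
  rw [hg1] at h
  have h1 := Point.some.inj h
  exact hom_ext f f' h1.1 h1.2

private theorem OC_eq {A B : K} {L : Type} [Field L] [Algebra K L] (z w : L) :
    ((CW A B).baseChange L).toAffine.Equation z w ↔
      w ^ 2 = z ^ 3 + algebraMap K L A * z + algebraMap K L B := by
  rw [WeierstrassCurve.Affine.equation_iff]
  simp only [CW, WeierstrassCurve.baseChange, WeierstrassCurve.map, map_zero]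
  constructor
  · intro h
    linear_combination h
  · intro h
    linear_combination h

private theorem OC_nons (h2 : (2 : K) ≠ 0) (A B : K) :
    ((CW A B).baseChange (LL A B)).toAffine.Nonsingular (xL A B) (yL A B) := by
  rw [WeierstrassCurve.Affine.nonsingular_iff']
  refine ⟨(OC_eq _ _).2 (eqL A B), Or.inr ?_⟩
  simp only [CW, WeierstrassCurve.baseChange, WeierstrassCurve.map, map_zero, zero_mul, add_zero]
  intro h
  have h1 : algebraMap (RatFunc K) (LL A B) 0 +
      algebraMap (RatFunc K) (LL A B) (RatFunc.C (2 : K)) * yL A B = 0 := by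
    have h3 : algebraMap (RatFunc K) (LL A B) (RatFunc.C (2 : K)) = 2 := by
      rw [map_ofNat, map_ofNat]
    rw [h3, map_zero, zero_add, h]
  have h4 := (LL_uniq A B _ _ h1).2
  rw [map_eq_zero] at h4
  exact h2 h4

theorem exists_g (h2 : (2 : K) ≠ 0) (A B : K) : ∃ g : PL A B (LL A B), IsG g := by
  exact ⟨.some (xL A B) (yL A B) (OC_nons h2 A B), OC_nons h2 A B, rfl⟩

theorem g_ne {A B : K} {g : PL A B (LL A B)} (hg : IsG g) (T : PL A B K) : g ≠ cst T := by
  classical
  intro h
  obtain ⟨hg0, hg1⟩ := hg
  rw [hg1] at h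
  rcases T with _ | ⟨a, b, hab⟩
  · exact Point.some_ne_zero hg0 h
  · have h1 := (Point.some.inj h).1
    have h2 : xL A B = algebraMap K (LL A B) a := h1
    refine xL_tr A B ?_
    rw [h2]
    exact isAlgebraic_algebraMap a

theorem hom_point (h2 : (2 : K) ≠ 0) {A B : K} {g : PL A B (LL A B)} (hg : IsG g) (Q : PL A B (LL A B))
    (hQ : ∀ T : PL A B K, Q ≠ cst T) : ∃ τ : LL A B →ₐ[K] LL A B, mp τ g = Q := by
  classical
  rcases Q with _ | ⟨z, w, h⟩
  · exfalso
    exact hQ 0 (map_zero (Point.map (Algebra.ofId K (LL A B)))).symm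
  · have heq : w ^ 2 = z ^ 3 + algebraMap K (LL A B) A * z + algebraMap K (LL A B) B :=
      (OC_eq z w).1 h.1
    have hz : Transcendental K z := by
      intro hz
      obtain ⟨c, hc⟩ := alg_const h2 z hz
      have hw : IsAlgebraic K w := by
        have h3 : IsAlgebraic K (w ^ 2) := by
          have h4 : w ^ 2 = algebraMap K (LL A B) (c ^ 3 + A * c + B) := by
            rw [heq, hc, map_add, map_add, map_mul, map_pow]
          rw [h4]
          exact isAlgebraic_algebraMap _
        exact h3.of_pow (by norm_num)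
      obtain ⟨c', hc'⟩ := alg_const h2 w hw
      subst hc
      subst hc'
      have h5 : ((CW A B).baseChange K).toAffine.Nonsingular c c' :=
        (WeierstrassCurve.Affine.baseChange_nonsingular (CW A B) (f := Algebra.ofId K (LL A B))
          (Algebra.ofId K (LL A B)).injective c c').1 h
      exact hQ (.some c c' h5) rfl
    obtain ⟨τ, hx, hy⟩ := hom_exists z w hz heq
    refine ⟨τ, ?_⟩
    obtain ⟨hg0, hg1⟩ := hg
    subst hg1
    unfold mp
    rw [WeierstrassCurve.Affine.Point.map_some]
    simp only [hx, hy]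

open Classical in
theorem trans_exists (h2 : (2 : K) ≠ 0) {A B : K} {g : PL A B (LL A B)} (hg : IsG g) (T : PL A B K) :
    ∃ τ : LL A B →ₐ[K] LL A B, mp τ g = g + cst T := by
  refine hom_point h2 hg _ fun T' hT' => ?_
  refine g_ne hg (T' - T) ?_
  have h3 : cst (T' - T) = cst T' - cst T :=
    map_sub (Point.map (Algebra.ofId K (LL A B))) T' T
  rw [h3, ← hT', add_sub_cancel_right]

end OCM
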