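import Pool.Agent.Lib.MP_17a322_ntOC.OC

/-!
# LEAF OD: a group of translations which fixes a function

PROOF.  Copy `Pool/Agent/Lib/MP_10e784_agWP/WD1.lean` and `WD2.lean`.  The set `V` of the translations is a subgroup of the points over `K`.
-/

set_option autoImplicit false

namespace OCM

open Polynomial WeierstrassCurve.Affine

variable {K : Type} [Field K]

theorem finrank_adj (A B : K) (r : RatFunc K) :
    Module.finrank (IntermediateField.adjoin K {algebraMap (RatFunc K) (LL A B) r}) (LL A B) =
      2 * max r.num.natDegree r.denom.natDegree := by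
  have h1 : IntermediateField.adjoin K {algebraMap (RatFunc K) (LL A B) r} =
      (IntermediateField.adjoin K {r}).map (IsScalarTower.toAlgHom K (RatFunc K) (LL A B)) := by
    rw [IntermediateField.adjoin_map, Set.image_singleton]
    rfl
  have h2 := Algebra.finrank_eq_of_equiv_equiv
    ((IntermediateField.adjoin K {r}).equivMap (IsScalarTower.toAlgHom K (RatFunc K) (LL A B))).toRingEquiv
    (RingEquiv.refl (LL A B)) (by ext z; rfl)
  rw [h1, ← h2, ← Module.finrank_mul_finrank (IntermediateField.adjoin K {r}) (RatFunc K) (LL A B),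
    RatFunc.finrank_eq_max_natDegree, finrank_LL, mul_comm]

theorem max_pos (r : RatFunc K) (hr : ¬ ∃ c : K, r = RatFunc.C c) : 0 < max r.num.natDegree r.denom.natDegree := by
  refine Nat.pos_of_ne_zero fun h => hr ?_
  exact (RatFunc.eq_C_iff r).2 (Nat.max_eq_zero_iff.1 h)

private theorem OD_gal {B L : Type} [Field B] [Field L] [Algebra B L] [FiniteDimensional B L] {G : Type} [Group G]
    (ρ : G →* (L →ₐ[B] L)) (hρ : Function.Injective ρ) : Nat.card G ∣ Module.finrank B L := by
  let e := Algebra.IsAlgebraic.algEquivEquivAlgHom B L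
  let ρ' : G →* (L ≃ₐ[B] L) := e.symm.toMonoidHom.comp ρ
  have hρ' : Function.Injective ρ' := fun a b h => hρ (e.symm.injective h)
  have h1 : Nat.card G = Nat.card ρ'.range := Nat.card_congr (MonoidHom.ofInjective hρ').toEquiv
  rw [h1, ← IntermediateField.finrank_fixedField_eq_card ρ'.range,
    ← Module.finrank_mul_finrank B (IntermediateField.fixedField ρ'.range) L]
  exact Dvd.intro_left _ rfl

open Classical in
private theorem OD_cst_zero {A B : K} : cst (0 : PL A B K) = 0 := by
  have h := cst_add (0 : PL A B K) 0
  rw [add_zero] at h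
  exact left_eq_add.1 h

open Classical in
theorem card_dvd (h2 : (2 : K) ≠ 0) {A B : K} {g : PL A B (LL A B)} (hg : IsG g) (V : AddSubgroup (PL A B K)) [Finite V]
    (r : RatFunc K) (hr : ¬ ∃ c : K, r = RatFunc.C c)
    (hinv : ∀ T ∈ V, ∀ τ : LL A B →ₐ[K] LL A B, mp τ g = g + cst T →
      τ (algebraMap (RatFunc K) (LL A B) r) = algebraMap (RatFunc K) (LL A B) r) :
    Nat.card V ∣ 2 * max r.num.natDegree r.denom.natDegree := by
  have hfr := finrank_adj A B r
  have hpos := max_pos r hr
  have hfin : FiniteDimensional (IntermediateField.adjoin K {algebraMap (RatFunc K) (LL A B) r}) (LL A B) :=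
    FiniteDimensional.of_finrank_pos (by rw [hfr]; omega)
  have hτ : ∀ T : V, ∃ τ : LL A B →ₐ[K] LL A B, mp τ g = g + cst (T : PL A B K) := fun T => trans_exists h2 hg T
  choose τ hτ using hτ
  have hfix : ∀ (T : V) (x : LL A B), x ∈ IntermediateField.adjoin K {algebraMap (RatFunc K) (LL A B) r} →
      τ T x = x := by
    intro T x hx
    induction hx using IntermediateField.adjoin_induction with
    | mem x hx =>
      rw [Set.mem_singleton_iff] at hx
      rw [hx]
      exact hinv T T.2 (τ T) (hτ T)
    | algebraMap x => exact (τ T).commutes x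
    | add x y _ _ h1 h2 => rw [map_add, h1, h2]
    | inv x _ h1 => rw [map_inv₀, h1]
    | mul x y _ _ h1 h2 => rw [map_mul, h1, h2]
  let ρ : Multiplicative V →* (LL A B →ₐ[IntermediateField.adjoin K {algebraMap (RatFunc K) (LL A B) r}] LL A B) :=
    { toFun := fun T => { (τ T.toAdd).toRingHom with commutes' := fun b => hfix T.toAdd _ b.2 }
      map_one' := by
        have h1 : τ 0 = AlgHom.id K (LL A B) := by
          refine gen_ext hg ?_
          rw [hτ]
          obtain ⟨hn, rfl⟩ := hg
          rw [AddSubgroup.coe_zero, OD_cst_zero, add_zero]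
          rfl
        refine AlgHom.ext fun x => ?_
        exact congrArg (fun f : LL A B →ₐ[K] LL A B => f x) h1
      map_mul' := fun T T' => by
        have h1 : τ (T.toAdd + T'.toAdd) = (τ T.toAdd).comp (τ T'.toAdd) := by
          refine gen_ext hg ?_
          rw [hτ, ← mp_comp, hτ, mp_add, hτ, mp_cst, AddSubgroup.coe_add, cst_add, add_assoc]
        refine AlgHom.ext fun x => ?_
        exact congrArg (fun f : LL A B →ₐ[K] LL A B => f x) h1 }
  have hρ : Function.Injective ρ := by
    intro T T' h
    have h1 : τ T.toAdd = τ T'.toAdd := by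
      refine AlgHom.ext fun x => ?_
      exact congrArg (fun f : LL A B →ₐ[IntermediateField.adjoin K {algebraMap (RatFunc K) (LL A B) r}] LL A B => f x) h
    have h2 := hτ T.toAdd
    rw [h1, hτ] at h2
    have h3 := cst_inj (add_left_cancel h2)
    exact (Multiplicative.toAdd.injective (Subtype.ext h3)).symm
  have h1 := OD_gal ρ hρ
  rw [hfr] at h1
  exact h1

end OCM
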