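import Pool.Agent.Lib.MP_17a322_ntOC.Defs0

/-!
# LEAF OE: the `x`-coordinates of `P + Q` and `P - Q`

`sy a b` is `(a₀ b₀, a₀ b₁ + a₁ b₀, a₁ b₁)`, `GG A B v` the forms of `WeierstrassCurve.addSubMap` for `y² = x³ + A x + B` (`b₂ = 0`, `b₄ = 2 A`, `b₆ = 4 B`, `b₈ = - A²`).
PROOF.  Copy `Pool/Agent/Lib/MP_10e784_agWP/WG.lean` (there `y² + x y = x³ - q`).  Cases: `P = 0` or `Q = 0`: direct; `x₁ ≠ x₂`: `e = (x₁ - x₂)²`, slopes `(y₁ - y₂) / (x₁ - x₂)` and `(y₁ + y₂) / (x₁ - x₂)`, `x(P ± Q) = l² - x₁ - x₂`; `x₁ = x₂`: by symmetry `P = Q`: if `y ≠ 0`: `e = 4 y²`, the duplication formula; if `y = 0` (`y = - y` and `2 ≠ 0`): `P + Q = 0` too, `e = (3 x² + A)²`, not `0` because the point is nonsingular.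
`GG_ne`, `GG_mem`: copy `WGb.lean`: `WeierstrassCurve.addSubMap_ne_zero`, `addSubMapCoeff_condition` for `⟨0, 0, 0, A, B⟩`, `Δ = - 16 (4 A³ + 27 B²)`.
-/

set_option autoImplicit false

namespace OCM

open Polynomial

/-- the symmetric functions of two points of the projective line -/
def sy {R : Type} [CommRing R] (a b : Fin 2 → R) : Fin 3 → R := ![a 0 * b 0, a 0 * b 1 + a 1 * b 0, a 1 * b 1]

/-- the map of sums and differences -/
def GG {R : Type} [CommRing R] (A B : R) (v : Fin 3 → R) : Fin 3 → R :=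
  ![(v 0 - A * v 2) ^ 2 - 4 * B * v 1 * v 2, 2 * (v 1 * (v 0 + A * v 2) + 2 * B * v 2 ^ 2), v 1 ^ 2 - 4 * v 0 * v 2]

private theorem OE_GG {R : Type} [CommRing R] (A B a b c d : R) :
    GG A B (sy ![a, c] ![b, d]) =
      ![(a * b - A * (c * d)) ^ 2 - 4 * B * (a * d + c * b) * (c * d),
        2 * ((a * d + c * b) * (a * b + A * (c * d)) + 2 * B * (c * d) ^ 2),
        (a * d + c * b) ^ 2 - 4 * (a * b) * (c * d)] := by
  rfl

private theorem OE_sy {R : Type} [CommRing R] (a b c d : R) :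
    sy ![a, c] ![b, d] = ![a * b, a * d + c * b, c * d] := by
  rfl

private theorem OE_fin {R : Type} [CommRing R] {e u0 u1 u2 v0 v1 v2 : R} (h0 : u0 = e * v0)
    (h1 : u1 = e * v1) (h2 : u2 = e * v2) (i : Fin 3) :
    (![u0, u1, u2] : Fin 3 → R) i = e * (![v0, v1, v2] : Fin 3 → R) i := by
  fin_cases i
  · exact h0
  · exact h1
  · exact h2

private theorem OE_comm {R : Type} [CommRing R] (a b : Fin 2 → R) : sy a b = sy b a := by
  unfold sy
  rw [mul_comm (a 0) (b 0), mul_comm (a 1) (b 1), mul_comm (a 0) (b 1), mul_comm (a 1) (b 0),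
    add_comm (b 1 * a 0)]

section

variable {F : Type} [Field F] [DecidableEq F] {W : WeierstrassCurve.Affine F} {A B : F}

omit [DecidableEq F] in
private theorem OE_eq (h1 : W.a₁ = 0) (h2 : W.a₂ = 0) (h3 : W.a₃ = 0) (h4 : W.a₄ = A)
    (h6 : W.a₆ = B) {x y : F} (h : W.Nonsingular x y) : y ^ 2 = x ^ 3 + A * x + B := by
  have h7 := (W.equation_iff x y).1 h.1
  rw [h1, h2, h3, h4, h6] at h7
  linear_combination h7

omit [DecidableEq F] in
private theorem OE_negY (h1 : W.a₁ = 0) (h3 : W.a₃ = 0) (x y : F) : W.negY x y = -y := by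
  unfold WeierstrassCurve.Affine.negY
  rw [h1, h3]
  ring

omit [DecidableEq F] in
private theorem OE_addX (h1 : W.a₁ = 0) (h2 : W.a₂ = 0) (x1 x2 l : F) :
    W.addX x1 x2 l = l ^ 2 - x1 - x2 := by
  unfold WeierstrassCurve.Affine.addX
  rw [h1, h2]
  ring

/-- the double of a point -/
private theorem OE_self (ht : (2 : F) ≠ 0) (h1 : W.a₁ = 0) (h2 : W.a₂ = 0) (h3 : W.a₃ = 0)
    (h4 : W.a₄ = A) (h6 : W.a₆ = B) {x y : F} (h : W.Nonsingular x y) : ∃ e : F, e ≠ 0 ∧ ∀ i,
      GG A B (sy (WeierstrassCurve.Affine.Point.some x y h).xRep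
        (WeierstrassCurve.Affine.Point.some x y h).xRep) i =
        e * sy (WeierstrassCurve.Affine.Point.some x y h +
          WeierstrassCurve.Affine.Point.some x y h).xRep (0 : W.Point).xRep i := by
  have he := OE_eq h1 h2 h3 h4 h6 h
  rw [WeierstrassCurve.Affine.Point.xRep_zero, WeierstrassCurve.Affine.Point.xRep_some, OE_GG]
  by_cases hy : y = W.negY x y
  · rw [WeierstrassCurve.Affine.Point.add_self_of_Y_eq hy, WeierstrassCurve.Affine.Point.xRep_zero,
      OE_sy]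
    rw [OE_negY h1 h3] at hy
    have hD : y = 0 := by
      have h5 : 2 * y = 0 := by linear_combination hy
      exact (mul_eq_zero.1 h5).resolve_left ht
    have hN : 3 * x ^ 2 + A ≠ 0 := by
      intro hN
      have h7 := (W.nonsingular_iff x y).1 h
      rcases h7.2 with h8 | h8
      · refine h8 ?_
        rw [h1, h2, h4]
        linear_combination -hN
      · refine h8 ?_
        rw [h1, h3]
        linear_combination 2 * hD
    refine ⟨(3 * x ^ 2 + A) ^ 2, pow_ne_zero 2 hN, OE_fin ?_ ?_ ?_⟩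
    · linear_combination (8 * x) * he - 8 * x * y * hD
    · linear_combination -4 * he + 4 * y * hD
    · ring
  · rw [WeierstrassCurve.Affine.Point.add_self_of_Y_ne hy, WeierstrassCurve.Affine.Point.xRep_some,
      OE_sy, OE_addX h1 h2, WeierstrassCurve.Affine.slope_of_Y_ne rfl hy, OE_negY h1 h3, h1, h2, h4]
    have hD : y ≠ 0 := by
      intro hD
      refine hy ?_
      rw [OE_negY h1 h3, hD, neg_zero]
    refine ⟨4 * y ^ 2, ?_, OE_fin ?_ ?_ ?_⟩
    · have h5 : (4 : F) = 2 ^ 2 := by norm_num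
      rw [h5]
      exact mul_ne_zero (pow_ne_zero 2 ht) (pow_ne_zero 2 hD)
    · have h9 : 4 * y ^ 2 * ((((3 * x ^ 2 + 2 * 0 * x + A - 0 * y) / (y - -y)) ^ 2 - x - x) * 1) =
          (3 * x ^ 2 + A) ^ 2 - 8 * x * y ^ 2 := by
        have h10 : y - -y = 2 * y := by ring
        rw [h10]
        field_simp
        ring
      rw [h9]
      linear_combination (8 * x) * he
    · linear_combination -4 * he
    · ring

private theorem OE_main (ht : (2 : F) ≠ 0) (h1 : W.a₁ = 0) (h2 : W.a₂ = 0) (h3 : W.a₃ = 0)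
    (h4 : W.a₄ = A) (h6 : W.a₆ = B) (P Q : W.Point) : ∃ e : F, e ≠ 0 ∧ ∀ i,
      GG A B (sy P.xRep Q.xRep) i = e * sy (P + Q).xRep (P - Q).xRep i := by
  rcases P with _ | ⟨x1, y1, hP⟩
  · have e1 : (WeierstrassCurve.Affine.Point.zero : W.Point) = 0 := rfl
    rw [e1, zero_add, zero_sub, WeierstrassCurve.Affine.Point.xRep_neg,
      WeierstrassCurve.Affine.Point.xRep_zero]
    rcases Q with _ | ⟨x2, y2, hQ⟩
    · have e2 : (WeierstrassCurve.Affine.Point.zero : W.Point) = 0 := rfl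
      rw [e2, WeierstrassCurve.Affine.Point.xRep_zero, OE_GG, OE_sy]
      exact ⟨1, one_ne_zero, OE_fin (by ring) (by ring) (by ring)⟩
    · rw [WeierstrassCurve.Affine.Point.xRep_some, OE_GG, OE_sy]
      exact ⟨1, one_ne_zero, OE_fin (by ring) (by ring) (by ring)⟩
  · rcases Q with _ | ⟨x2, y2, hQ⟩
    · have e2 : (WeierstrassCurve.Affine.Point.zero : W.Point) = 0 := rfl
      rw [e2, add_zero, sub_zero, WeierstrassCurve.Affine.Point.xRep_zero,
        WeierstrassCurve.Affine.Point.xRep_some, OE_GG, OE_sy]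
      exact ⟨1, one_ne_zero, OE_fin (by ring) (by ring) (by ring)⟩
    · by_cases hx : x1 = x2
      · have h5 : (WeierstrassCurve.Affine.Point.some x1 y1 hP).xRep =
            (WeierstrassCurve.Affine.Point.some x2 y2 hQ).xRep := by
          rw [WeierstrassCurve.Affine.Point.xRep_some, WeierstrassCurve.Affine.Point.xRep_some, hx]
        obtain ⟨e, he, h7⟩ := OE_self ht h1 h2 h3 h4 h6 hP
        rcases WeierstrassCurve.Affine.Point.eq_or_eq_neg_of_xRep_eq_xRep h5 with h8 | h8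
        · refine ⟨e, he, fun i => ?_⟩
          rw [← h8, sub_self]
          exact h7 i
        · refine ⟨e, he, fun i => ?_⟩
          have h9 : (WeierstrassCurve.Affine.Point.some x2 y2 hQ) =
              -(WeierstrassCurve.Affine.Point.some x1 y1 hP) := by rw [h8, neg_neg]
          rw [h9, WeierstrassCurve.Affine.Point.xRep_neg, add_neg_cancel, sub_neg_eq_add, h7 i]
          rw [OE_comm]
      · have hd : x1 - x2 ≠ 0 := sub_ne_zero.2 hx
        have he1 := OE_eq h1 h2 h3 h4 h6 hP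
        have he2 := OE_eq h1 h2 h3 h4 h6 hQ
        rw [sub_eq_add_neg, WeierstrassCurve.Affine.Point.neg_some,
          WeierstrassCurve.Affine.Point.add_of_X_ne hx, WeierstrassCurve.Affine.Point.add_of_X_ne hx,
          WeierstrassCurve.Affine.Point.xRep_some, WeierstrassCurve.Affine.Point.xRep_some,
          WeierstrassCurve.Affine.Point.xRep_some, WeierstrassCurve.Affine.Point.xRep_some,
          OE_GG, OE_sy, OE_addX h1 h2, OE_addX h1 h2, WeierstrassCurve.Affine.slope_of_X_ne hx,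
          WeierstrassCurve.Affine.slope_of_X_ne hx, OE_negY h1 h3]
        obtain ⟨U, hU⟩ : ∃ U, U = (y1 - y2) ^ 2 := ⟨_, rfl⟩
        obtain ⟨V, hV⟩ : ∃ V, V = (y1 + y2) ^ 2 := ⟨_, rfl⟩
        have hX : ((y1 - y2) / (x1 - x2)) ^ 2 - x1 - x2 = U / (x1 - x2) ^ 2 - (x1 + x2) := by
          rw [hU]
          field_simp
          ring
        have hY : ((y1 - -y2) / (x1 - x2)) ^ 2 - x1 - x2 = V / (x1 - x2) ^ 2 - (x1 + x2) := by
          rw [hV]
          field_simp
          ring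
        rw [hX, hY]
        have hUV : U + V = 2 * y1 ^ 2 + 2 * y2 ^ 2 := by
          rw [hU, hV]
          ring
        have hUV2 : U * V = (y1 ^ 2 - y2 ^ 2) ^ 2 := by
          rw [hU, hV]
          ring
        rw [he1, he2] at hUV hUV2
        refine ⟨(x1 - x2) ^ 2, pow_ne_zero 2 hd, OE_fin ?_ ?_ ?_⟩
        · have h9 : (x1 - x2) ^ 2 * ((U / (x1 - x2) ^ 2 - (x1 + x2)) * (V / (x1 - x2) ^ 2 - (x1 + x2))) =
              (U * V - (x1 + x2) * (x1 - x2) ^ 2 * (U + V) + (x1 + x2) ^ 2 * (x1 - x2) ^ 4) /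
                (x1 - x2) ^ 2 := by
            field_simp
            ring
          rw [h9, hUV, hUV2, eq_div_iff (pow_ne_zero 2 hd)]
          ring
        · have h9 : (x1 - x2) ^ 2 * ((U / (x1 - x2) ^ 2 - (x1 + x2)) * 1 +
              1 * (V / (x1 - x2) ^ 2 - (x1 + x2))) = U + V - 2 * (x1 + x2) * (x1 - x2) ^ 2 := by
            field_simp
            ring
          rw [h9, hUV]
          ring
        · ring

end

open Classical in
theorem addsub {K : Type} [Field K] (h2 : (2 : K) ≠ 0) {A B : K} {L : Type} [Field L] [Algebra K L] (P Q : PL A B L) :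
    ∃ e : L, e ≠ 0 ∧ ∀ i, GG (algebraMap K L A) (algebraMap K L B) (sy P.xRep Q.xRep) i =
      e * sy (P + Q).xRep (P - Q).xRep i := by
  have ht : (2 : L) ≠ 0 := by
    rw [← map_ofNat (algebraMap K L) 2]
    exact (_root_.map_ne_zero _).2 h2
  refine OE_main (A := algebraMap K L A) (B := algebraMap K L B) ht ?_ ?_ ?_ ?_ ?_ P Q
  · change algebraMap K L 0 = 0
    exact map_zero _
  · change algebraMap K L 0 = 0
    exact map_zero _
  · change algebraMap K L 0 = 0
    exact map_zero _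
  · rfl
  · rfl

private theorem OE_eval {R : Type} [CommRing R] (A B : R) (v : Fin 3 → R) (i : Fin 3) :
    MvPolynomial.eval v (WeierstrassCurve.addSubMap (⟨0, 0, 0, A, B⟩ : WeierstrassCurve R) i) = GG A B v i := by
  fin_cases i <;> simp [WeierstrassCurve.addSubMap, GG, WeierstrassCurve.b₂, WeierstrassCurve.b₄,
    WeierstrassCurve.b₆, WeierstrassCurve.b₈] <;> ring

private theorem OE_ell {R : Type} [CommRing R] {A B : R} (h : IsUnit (-16 * (4 * A ^ 3 + 27 * B ^ 2))) :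
    (⟨0, 0, 0, A, B⟩ : WeierstrassCurve R).IsElliptic := by
  refine ⟨?_⟩
  have e : (⟨0, 0, 0, A, B⟩ : WeierstrassCurve R).Δ = -16 * (4 * A ^ 3 + 27 * B ^ 2) := by
    simp [WeierstrassCurve.Δ, WeierstrassCurve.b₂, WeierstrassCurve.b₄, WeierstrassCurve.b₆,
      WeierstrassCurve.b₈]
    ring
  rw [e]
  exact h

private theorem OE_mem {R : Type} [CommRing R] {A B : R} (h : IsUnit (-16 * (4 * A ^ 3 + 27 * B ^ 2)))
    (v : Fin 3 → R) (i : Fin 3) : v i ^ 4 ∈ Ideal.span (Set.range (GG A B v)) := by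
  have hW := OE_ell h
  rw [← WeierstrassCurve.addSubMapCoeff_condition (⟨0, 0, 0, A, B⟩ : WeierstrassCurve R) v i]
  refine Ideal.sum_mem _ fun j _ => Ideal.mul_mem_left _ _ ?_
  rw [OE_eval]
  exact Ideal.subset_span ⟨j, rfl⟩

private theorem OE_unit {K : Type} [Field K] (h2 : (2 : K) ≠ 0) {A B : K}
    (hd : 4 * A ^ 3 + 27 * B ^ 2 ≠ 0) : IsUnit (-16 * (4 * A ^ 3 + 27 * B ^ 2)) := by
  have h3 : (-16 : K) = - 2 ^ 4 := by norm_num
  rw [h3]
  exact (mul_ne_zero (neg_ne_zero.2 (pow_ne_zero 4 h2)) hd).isUnit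

theorem GG_ne {K : Type} [Field K] (h2 : (2 : K) ≠ 0) {A B : K} (hd : 4 * A ^ 3 + 27 * B ^ 2 ≠ 0) {v : Fin 3 → K}
    (hv : v ≠ 0) : GG A B v ≠ 0 := by
  have hW := OE_ell (OE_unit h2 hd)
  have h := WeierstrassCurve.addSubMap_ne_zero (⟨0, 0, 0, A, B⟩ : WeierstrassCurve K) hv
  intro h0
  apply h
  funext i
  rw [OE_eval, h0]

theorem GG_cop {K : Type} [Field K] (h2 : (2 : K) ≠ 0) {A B : K} (hd : 4 * A ^ 3 + 27 * B ^ 2 ≠ 0) {v : Fin 3 → K[X]}
    (hv : Ideal.span (Set.range v) = ⊤) : Ideal.span (Set.range (GG (C A) (C B) v)) = ⊤ := by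
  have hu : IsUnit (-16 * (4 * (C A : K[X]) ^ 3 + 27 * C B ^ 2)) := by
    have e4 : (C (4 : K) : K[X]) = 4 := map_ofNat C 4
    have e16 : (C (16 : K) : K[X]) = 16 := map_ofNat C 16
    have e27 : (C (27 : K) : K[X]) = 27 := map_ofNat C 27
    have e : -16 * (4 * (C A : K[X]) ^ 3 + 27 * C B ^ 2) = C (-16 * (4 * A ^ 3 + 27 * B ^ 2)) := by
      rw [C_mul, C_neg, C_add, C_mul, C_mul, C_pow, C_pow, e4, e16, e27]
    rw [e]
    exact (OE_unit h2 hd).map C
  have h1 := Ideal.span_pow_eq_top _ hv 4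
  rw [eq_top_iff, ← h1, Ideal.span_le]
  rintro _ ⟨_, ⟨i, rfl⟩, rfl⟩
  exact OE_mem hu v i

end OCM
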