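import Pool.Agent.Lib.MP_17a322_ntOC.OF
import Pool.Agent.Lib.MP_17a322_ntOC.OC

/-!
# LEAF OG: the `x`-coordinates as pairs of coprime polynomials; the parallelogram law

PROOF.  Copy `Pool/Agent/Lib/MP_10e784_agWP/WJ.lean`.  `OPt P`: `P` is odd: `σ P = - P` for the automorphism `σ : y ↦ - y`.  `Rx_odd`: `P = some z w`: `σ z = z` (`Point.neg_some`, `Point.map_some`), so `z` is the image of `r` (`fixed_sigma`), `![r.num, r.denom]`; `P = 0`: `![1, 0]`.
`Rx_const`: if `md a = 0` then `a₀ = C α`, `a₁ = C β`: `β = 0`: `P = 0` (the second entry of `xRep` is `0`); `β ≠ 0`: `z = α / β` is a constant.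
`odd_two`: an odd point with `z` a constant `c`: `w² = F(c)` is a constant, `σ w = - w`, so `w = b y` (`anti_sigma`), `b² F = F(c)` in `RatFunc K`: the parity of the degrees gives `b = 0`, so `w = 0` and `P = - P`.
-/

set_option autoImplicit false

namespace OCM

open Polynomial WeierstrassCurve.Affine

variable {K : Type} [Field K]

open Classical in
/-- the odd points -/
def OPt {A B : K} (P : PL A B (LL A B)) : Prop :=
  ∀ σ : LL A B →ₐ[K] LL A B, σ (yL A B) = -yL A B → σ (xL A B) = xL A B → mp σ P = -P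

/-- the coprime pair `a` represents the `x`-coordinate of `P` -/
def Rx {A B : K} (P : PL A B (LL A B)) (a : Fin 2 → K[X]) : Prop :=
  IsCoprime (a 0) (a 1) ∧ ∃ e : LL A B, e ≠ 0 ∧ ∀ i, aeval (xL A B) (a i) = e * P.xRep i

private theorem OG_sy {R : Type} [CommRing R] (e₁ e₂ : R) (a b : Fin 2 → R) (i : Fin 3) :
    sy (fun i => e₁ * a i) (fun i => e₂ * b i) i = e₁ * e₂ * sy a b i := by
  fin_cases i
  · show e₁ * a 0 * (e₂ * b 0) = e₁ * e₂ * (a 0 * b 0)
    ring
  · show e₁ * a 0 * (e₂ * b 1) + e₁ * a 1 * (e₂ * b 0) = e₁ * e₂ * (a 0 * b 1 + a 1 * b 0)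
    ring
  · show e₁ * a 1 * (e₂ * b 1) = e₁ * e₂ * (a 1 * b 1)
    ring

private theorem OG_GG {R : Type} [CommRing R] (A B e : R) (v : Fin 3 → R) (i : Fin 3) :
    GG A B (fun i => e * v i) i = e ^ 2 * GG A B v i := by
  fin_cases i
  · show (e * v 0 - A * (e * v 2)) ^ 2 - 4 * B * (e * v 1) * (e * v 2) =
      e ^ 2 * ((v 0 - A * v 2) ^ 2 - 4 * B * v 1 * v 2)
    ring
  · show 2 * (e * v 1 * (e * v 0 + A * (e * v 2)) + 2 * B * (e * v 2) ^ 2) =
      e ^ 2 * (2 * (v 1 * (v 0 + A * v 2) + 2 * B * v 2 ^ 2))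
    ring
  · show (e * v 1) ^ 2 - 4 * (e * v 0) * (e * v 2) = e ^ 2 * (v 1 ^ 2 - 4 * v 0 * v 2)
    ring

private theorem OG_map_sy {R S : Type} [CommRing R] [CommRing S] (f : R →+* S) (a b : Fin 2 → R) (i : Fin 3) :
    f (sy a b i) = sy (fun i => f (a i)) (fun i => f (b i)) i := by
  fin_cases i
  · show f (a 0 * b 0) = f (a 0) * f (b 0)
    rw [map_mul]
  · show f (a 0 * b 1 + a 1 * b 0) = f (a 0) * f (b 1) + f (a 1) * f (b 0)
    rw [map_add, map_mul, map_mul]
  · show f (a 1 * b 1) = f (a 1) * f (b 1)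
    rw [map_mul]

private theorem OG_map_GG {R S : Type} [CommRing R] [CommRing S] (f : R →+* S) (A B : R) (v : Fin 3 → R)
    (i : Fin 3) : f (GG A B v i) = GG (f A) (f B) (fun i => f (v i)) i := by
  fin_cases i
  · show f ((v 0 - A * v 2) ^ 2 - 4 * B * v 1 * v 2) =
      (f (v 0) - f A * f (v 2)) ^ 2 - 4 * f B * f (v 1) * f (v 2)
    simp only [map_sub, map_mul, map_pow, map_ofNat]
  · show f (2 * (v 1 * (v 0 + A * v 2) + 2 * B * v 2 ^ 2)) =
      2 * (f (v 1) * (f (v 0) + f A * f (v 2)) + 2 * f B * f (v 2) ^ 2)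
    simp only [map_add, map_mul, map_pow, map_ofNat]
  · show f (v 1 ^ 2 - 4 * v 0 * v 2) = f (v 1) ^ 2 - 4 * f (v 0) * f (v 2)
    simp only [map_sub, map_mul, map_pow, map_ofNat]

private theorem OG_inj (A B : K) : Function.Injective (aeval (xL A B) : K[X] →ₐ[K] LL A B) :=
  transcendental_iff_injective.1 (xL_tr A B)

open Classical in
theorem Rx_par (h2 : (2 : K) ≠ 0) {A B : K} (hd : 4 * A ^ 3 + 27 * B ^ 2 ≠ 0) (P Q : PL A B (LL A B))
    {a b c d : Fin 2 → K[X]} (ha : Rx P a) (hb : Rx Q b) (hc : Rx (P + Q) c) (hd' : Rx (P - Q) d) :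
    md c + md d = 2 * md a + 2 * md b := by
  obtain ⟨ha0, e₁, he₁, ha1⟩ := ha
  obtain ⟨hb0, e₂, he₂, hb1⟩ := hb
  obtain ⟨hc0, e₃, he₃, hc1⟩ := hc
  obtain ⟨hd0, e₄, he₄, hd1⟩ := hd'
  obtain ⟨e, he, hadd⟩ := addsub h2 P Q
  have h1 : ∀ i, aeval (xL A B) (GG (C A) (C B) (sy a b) i) =
      (e₁ * e₂) ^ 2 * e * sy (P + Q).xRep (P - Q).xRep i := by
    intro i
    have h2 := OG_map_GG ((aeval (xL A B) : K[X] →ₐ[K] LL A B) : K[X] →+* LL A B) (C A) (C B) (sy a b) i
    have h3 : (fun i => ((aeval (xL A B) : K[X] →ₐ[K] LL A B) : K[X] →+* LL A B) (sy a b i)) =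
        fun i => e₁ * e₂ * sy P.xRep Q.xRep i := by
      funext i
      rw [OG_map_sy]
      have h4 : (fun i => ((aeval (xL A B) : K[X] →ₐ[K] LL A B) : K[X] →+* LL A B) (a i)) =
          fun i => e₁ * P.xRep i := funext ha1
      have h5 : (fun i => ((aeval (xL A B) : K[X] →ₐ[K] LL A B) : K[X] →+* LL A B) (b i)) =
          fun i => e₂ * Q.xRep i := funext hb1
      rw [h4, h5, OG_sy]
    have h6 : ((aeval (xL A B) : K[X] →ₐ[K] LL A B) : K[X] →+* LL A B) (C A) = algebraMap K (LL A B) A :=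
      aeval_C (xL A B) A
    have h6' : ((aeval (xL A B) : K[X] →ₐ[K] LL A B) : K[X] →+* LL A B) (C B) = algebraMap K (LL A B) B :=
      aeval_C (xL A B) B
    rw [h3, OG_GG, h6, h6', hadd] at h2
    have h7 : aeval (xL A B) (GG (C A) (C B) (sy a b) i) =
        ((aeval (xL A B) : K[X] →ₐ[K] LL A B) : K[X] →+* LL A B) (GG (C A) (C B) (sy a b) i) := rfl
    rw [h7, h2]
    ring
  have h3 : ∀ i, aeval (xL A B) (sy c d i) = e₃ * e₄ * sy (P + Q).xRep (P - Q).xRep i := by
    intro i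
    have h3 := OG_map_sy ((aeval (xL A B) : K[X] →ₐ[K] LL A B) : K[X] →+* LL A B) c d i
    have h4 : (fun i => ((aeval (xL A B) : K[X] →ₐ[K] LL A B) : K[X] →+* LL A B) (c i)) =
        fun i => e₃ * (P + Q).xRep i := funext hc1
    have h5 : (fun i => ((aeval (xL A B) : K[X] →ₐ[K] LL A B) : K[X] →+* LL A B) (d i)) =
        fun i => e₄ * (P - Q).xRep i := funext hd1
    rw [h4, h5, OG_sy] at h3
    exact h3
  refine par_poly h2 hd ha0 hb0 hc0 hd0 fun i j => OG_inj A B ?_
  rw [map_mul, map_mul, h1, h1, h3, h3]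
  ring

theorem Rx_uniq {A B : K} (P : PL A B (LL A B)) {a b : Fin 2 → K[X]} (ha : Rx P a) (hb : Rx P b) : md a = md b := by
  obtain ⟨ha0, e₁, he₁, ha1⟩ := ha
  obtain ⟨hb0, e₂, he₂, hb1⟩ := hb
  have h : a 0 * b 1 = a 1 * b 0 := by
    apply OG_inj A B
    rw [map_mul, map_mul, ha1, ha1, hb1, hb1]
    ring
  have h1 : Associated (a 0) (b 0) := by
    refine associated_of_dvd_dvd ?_ ?_
    · exact ha0.dvd_of_dvd_mul_left (Dvd.intro _ h)
    · refine hb0.dvd_of_dvd_mul_right ?_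
      rw [h]
      exact Dvd.intro_left _ rfl
  have h2 : Associated (a 1) (b 1) := by
    refine associated_of_dvd_dvd ?_ ?_
    · exact ha0.symm.dvd_of_dvd_mul_left (Dvd.intro _ h.symm)
    · refine hb0.symm.dvd_of_dvd_mul_right ?_
      rw [← h]
      exact Dvd.intro_left _ rfl
  rw [md, md, natDegree_eq_natDegree (degree_eq_degree_of_associated h1),
    natDegree_eq_natDegree (degree_eq_degree_of_associated h2)]

theorem Rx_g {A B : K} {g : PL A B (LL A B)} (hg : IsG g) : Rx g ![X, 1] := by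
  obtain ⟨h, rfl⟩ := hg
  refine ⟨isCoprime_one_right, 1, one_ne_zero, fun i => ?_⟩
  rw [one_mul, Point.xRep_some]
  fin_cases i
  · show aeval (xL A B) (X : K[X]) = xL A B
    rw [aeval_X]
  · show aeval (xL A B) (1 : K[X]) = 1
    rw [map_one]

private theorem OG_rat {A B : K} (z w : LL A B) (h) (r : RatFunc K)
    (hr : z = algebraMap (RatFunc K) (LL A B) r) :
    Rx (.some z w h : PL A B (LL A B)) ![r.num, r.denom] := by
  have h5 : algebraMap K[X] (RatFunc K) r.denom ≠ 0 := by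
    rw [Ne, FaithfulSMul.algebraMap_eq_zero_iff]
    exact r.denom_ne_zero
  refine ⟨r.isCoprime_num_denom,
    algebraMap (RatFunc K) (LL A B) (algebraMap K[X] (RatFunc K) r.denom), ?_, fun i => ?_⟩
  · rw [Ne, FaithfulSMul.algebraMap_eq_zero_iff]
    exact h5
  · rw [Point.xRep_some]
    fin_cases i
    · show aeval (xL A B) r.num =
        algebraMap (RatFunc K) (LL A B) (algebraMap K[X] (RatFunc K) r.denom) * z
      rw [aeval_xL, hr, ← map_mul]
      congr 1
      have h6 := r.num_div_denom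
      rw [div_eq_iff h5] at h6
      rw [h6, mul_comm]
    · show aeval (xL A B) r.denom =
        algebraMap (RatFunc K) (LL A B) (algebraMap K[X] (RatFunc K) r.denom) * 1
      rw [aeval_xL, mul_one]

theorem Rx_odd (h2 : (2 : K) ≠ 0) {A B : K} {P : PL A B (LL A B)} (hP : OPt P) : ∃ a, Rx P a := by
  classical
  obtain ⟨σ, h1, h3⟩ := sigma A B
  have h4 : σ (xL A B) = xL A B := h3 RatFunc.X
  have h5 := hP σ h1 h4
  rcases P with _ | ⟨z, w, hzw⟩
  · refine ⟨![1, 0], isCoprime_one_left, 1, one_ne_zero, fun i => ?_⟩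
    rw [one_mul]
    fin_cases i
    · show aeval (xL A B) (1 : K[X]) = 1
      rw [map_one]
    · show aeval (xL A B) (0 : K[X]) = 0
      rw [map_zero]
  · rw [mp, Point.map_some, Point.neg_some, Point.some.injEq] at h5
    obtain ⟨r, hr⟩ := fixed_sigma h2 σ h1 h4 z h5.1
    exact ⟨_, OG_rat z w hzw r hr⟩

theorem Rx_ratFunc {A B : K} {z w : LL A B} {h} {a : Fin 2 → K[X]} (ha : Rx (.some z w h : PL A B (LL A B)) a) :
    ∃ r : RatFunc K, z = algebraMap (RatFunc K) (LL A B) r ∧ max r.num.natDegree r.denom.natDegree = md a := by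
  obtain ⟨ha0, e, he, ha1⟩ := id ha
  have h0 := ha1 0
  have h1 := ha1 1
  rw [Point.xRep_some] at h0 h1
  have h2 : aeval (xL A B) (a 1) = e := by
    rw [h1]
    show e * 1 = e
    rw [mul_one]
  have h3 : aeval (xL A B) (a 0) = e * z := h0
  rw [aeval_xL] at h2 h3
  have h4 : algebraMap K[X] (RatFunc K) (a 1) ≠ 0 := by
    intro h5
    rw [h5, map_zero] at h2
    exact he h2.symm
  have hr : z = algebraMap (RatFunc K) (LL A B)
      (algebraMap K[X] (RatFunc K) (a 0) / algebraMap K[X] (RatFunc K) (a 1)) := by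
    rw [map_div₀, h3, h2, mul_div_cancel_left₀ _ he]
  exact ⟨_, hr, Rx_uniq _ (OG_rat z w h _ hr) ha⟩

private theorem OG_par {A B : K} (r : RatFunc K) (c : K)
    (h : r ^ 2 * (RatFunc.X ^ 3 + RatFunc.C A * RatFunc.X + RatFunc.C B) = RatFunc.C c) : r = 0 := by
  by_contra hr
  have hF : (RatFunc.X ^ 3 + RatFunc.C A * RatFunc.X + RatFunc.C B : RatFunc K) =
      algebraMap K[X] (RatFunc K) (X ^ 3 + C A * X + C B) := by
    rw [map_add, map_add, map_mul, map_pow, RatFunc.algebraMap_X, RatFunc.algebraMap_C,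
      RatFunc.algebraMap_C]
  have hd : (X ^ 3 + C A * X + C B : K[X]).natDegree = 3 := by
    compute_degree!
  have hF0 : (X ^ 3 + C A * X + C B : K[X]) ≠ 0 := by
    intro h0
    rw [h0, natDegree_zero] at hd
    exact absurd hd (by norm_num)
  have hF1 : algebraMap K[X] (RatFunc K) (X ^ 3 + C A * X + C B) ≠ 0 := by
    rw [Ne, FaithfulSMul.algebraMap_eq_zero_iff]
    exact hF0
  have h1 := congrArg RatFunc.intDegree h
  rw [hF, RatFunc.intDegree_mul (pow_ne_zero 2 hr) hF1, pow_two, RatFunc.intDegree_mul hr hr,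
    RatFunc.intDegree_polynomial, hd, RatFunc.intDegree_C] at h1
  push_cast at h1
  omega

open Classical in
theorem odd_two (h2 : (2 : K) ≠ 0) {A B : K} {P : PL A B (LL A B)} (hP : OPt P) {a : Fin 2 → K[X]} (ha : Rx P a)
    (h0 : md a = 0) : P + P = 0 := by
  obtain ⟨σ, h1, h3⟩ := sigma A B
  have h4 : σ (xL A B) = xL A B := h3 RatFunc.X
  have h5 := hP σ h1 h4
  rcases P with _ | ⟨z, w, hzw⟩
  · exact add_zero _
  · rw [mp, Point.map_some, Point.neg_some, Point.some.injEq] at h5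
    obtain ⟨ha0, e, he, ha1⟩ := id ha
    have k0 : aeval (xL A B) (a 0) = e * z := by
      rw [ha1 0, Point.xRep_some]
      rfl
    have k1 : aeval (xL A B) (a 1) = e := by
      rw [ha1 1, Point.xRep_some]
      exact mul_one e
    have d0 : (a 0).natDegree = 0 := by
      have := le_max_left (a 0).natDegree (a 1).natDegree
      rw [md] at h0
      omega
    have d1 : (a 1).natDegree = 0 := by
      have := le_max_right (a 0).natDegree (a 1).natDegree
      rw [md] at h0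
      omega
    rw [eq_C_of_natDegree_eq_zero d0, aeval_C] at k0
    rw [eq_C_of_natDegree_eq_zero d1, aeval_C] at k1
    have hz : z = algebraMap K (LL A B) ((a 0).coeff 0 / (a 1).coeff 0) := by
      rw [map_div₀, k0, k1, mul_div_cancel_left₀ _ he]
    have hn : ∀ u v : LL A B, ((CW A B).baseChange (LL A B)).toAffine.negY u v = -v := by
      intro u v
      simp [WeierstrassCurve.Affine.negY, WeierstrassCurve.baseChange, WeierstrassCurve.map, CW]
    have he2 : w ^ 2 = z ^ 3 + algebraMap K (LL A B) A * z + algebraMap K (LL A B) B := by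
      have h6 := (WeierstrassCurve.Affine.equation_iff _ _).1 hzw.1
      simpa [WeierstrassCurve.baseChange, WeierstrassCurve.map, CW] using h6
    have hw : σ w = -w := by
      rw [h5.2]
      exact hn z w
    obtain ⟨r, hr⟩ := anti_sigma h2 σ h1 h4 w hw
    have hr2 : r ^ 2 * (RatFunc.X ^ 3 + RatFunc.C A * RatFunc.X + RatFunc.C B) =
        RatFunc.C (((a 0).coeff 0 / (a 1).coeff 0) ^ 3 + A * ((a 0).coeff 0 / (a 1).coeff 0) + B) := by
      apply (algebraMap (RatFunc K) (LL A B)).injective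
      have h7 : algebraMap (RatFunc K) (LL A B)
          (RatFunc.X ^ 3 + RatFunc.C A * RatFunc.X + RatFunc.C B) = yL A B ^ 2 := by
        rw [eqL, map_add, map_add, map_mul, map_pow]
        rfl
      rw [map_mul, map_pow, h7, ← mul_pow, ← hr, he2, hz, ← map_pow, ← map_mul, ← map_add, ← map_add]
      rfl
    have hr0 := OG_par r _ hr2
    rw [hr0, map_zero, zero_mul] at hr
    rw [add_eq_zero_iff_eq_neg, Point.neg_some, Point.some.injEq]
    exact ⟨rfl, by rw [hn, hr, neg_zero]⟩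

end OCM
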