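import Pool.Agent.Lib.MP_17a322_ntOC.OG

/-!
# LEAF OH: the degree of an odd point

PROOF.  `dg_eq`: `Rx_uniq`.  `opt_*`: `mp_add`, `mp_neg`.  `opt_g`: `σ g = - g` (`Point.map_some`, `Point.neg_some`, `negY`).  `dg_par`: `Rx_odd` for `P`, `Q`, `P + Q`, `P - Q` and `Rx_par`.  `dg_g`: `Rx_g`.  `dg_zero`: `Rx 0 ![1, 0]`.  `dg_neg`: `xRep_neg`.
`dg_two`: `odd_two`.  `dg_of_two`: `dg_par` for `P`, `P`: `dg (P + P) + dg 0 = 4 dg P`.
`dg_nsmul`: two-step induction with `dg_par` for `n P`, `P`.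
-/

set_option autoImplicit false

namespace OCM

open Polynomial WeierstrassCurve.Affine

variable {K : Type} [Field K]

open Classical in
/-- the degree of the `x`-coordinate of an odd point -/
noncomputable def dg {A B : K} (P : PL A B (LL A B)) : ℕ := if h : ∃ a, Rx P a then md h.choose else 0

theorem dg_eq {A B : K} {P : PL A B (LL A B)} {a : Fin 2 → K[X]} (ha : Rx P a) : dg P = md a := by
  have hex : ∃ a, Rx P a := ⟨a, ha⟩
  unfold dg
  rw [dif_pos hex]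
  exact Rx_uniq P hex.choose_spec ha

open Classical in
theorem opt_add {A B : K} {P Q : PL A B (LL A B)} (hP : OPt P) (hQ : OPt Q) : OPt (P + Q) := by
  intro σ h1 h2
  rw [mp_add, hP σ h1 h2, hQ σ h1 h2, neg_add]

open Classical in
theorem opt_neg {A B : K} {P : PL A B (LL A B)} (hP : OPt P) : OPt (-P) := by
  intro σ h1 h2
  rw [mp_neg, hP σ h1 h2]

open Classical in
theorem opt_sub {A B : K} {P Q : PL A B (LL A B)} (hP : OPt P) (hQ : OPt Q) : OPt (P - Q) := by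
  rw [sub_eq_add_neg]
  exact opt_add hP (opt_neg hQ)

theorem opt_zero {A B : K} : OPt (0 : PL A B (LL A B)) := by
  intro σ _ _
  rw [mp_zero, Point.neg_zero]

theorem opt_g {A B : K} {g : PL A B (LL A B)} (hg : IsG g) : OPt g := by
  obtain ⟨h, rfl⟩ := hg
  intro σ h1 h2
  unfold mp
  rw [Point.map_some, Point.neg_some]
  simp only [Point.some.injEq]
  refine ⟨h2, ?_⟩
  rw [h1]
  simp [negY, CW, WeierstrassCurve.baseChange, WeierstrassCurve.map]

open Classical in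
theorem dg_par (h2 : (2 : K) ≠ 0) {A B : K} (hd : 4 * A ^ 3 + 27 * B ^ 2 ≠ 0) {P Q : PL A B (LL A B)} (hP : OPt P)
    (hQ : OPt Q) : dg (P + Q) + dg (P - Q) = 2 * dg P + 2 * dg Q := by
  obtain ⟨a, ha⟩ := Rx_odd h2 hP
  obtain ⟨b, hb⟩ := Rx_odd h2 hQ
  obtain ⟨c, hc⟩ := Rx_odd h2 (opt_add hP hQ)
  obtain ⟨e, he⟩ := Rx_odd h2 (opt_sub hP hQ)
  rw [dg_eq ha, dg_eq hb, dg_eq hc, dg_eq he]
  exact Rx_par h2 hd P Q ha hb hc he

theorem dg_g {A B : K} {g : PL A B (LL A B)} (hg : IsG g) : dg g = 1 := by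
  rw [dg_eq (Rx_g hg)]
  unfold md
  simp

theorem dg_zero {A B : K} : dg (0 : PL A B (LL A B)) = 0 := by
  have h : Rx (0 : PL A B (LL A B)) ![1, 0] := by
    refine ⟨isCoprime_one_left, 1, one_ne_zero, fun i => ?_⟩
    rw [one_mul]
    fin_cases i <;> simp
  rw [dg_eq h]
  unfold md
  simp

open Classical in
theorem dg_neg {A B : K} (P : PL A B (LL A B)) : dg (-P) = dg P := by
  have h : ∀ (Q : PL A B (LL A B)) (a : Fin 2 → K[X]), Rx Q a → Rx (-Q) a := fun Q a ha => by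
    obtain ⟨h1, e, he, h3⟩ := ha
    refine ⟨h1, e, he, fun i => ?_⟩
    rw [Point.xRep_neg]
    exact h3 i
  by_cases hex : ∃ a, Rx P a
  · obtain ⟨a, ha⟩ := hex
    rw [dg_eq ha, dg_eq (h P a ha)]
  · have hex' : ¬ ∃ a, Rx (-P) a := fun ⟨a, ha⟩ => hex ⟨a, by
      have := h (-P) a ha
      rwa [neg_neg] at this⟩
    unfold dg
    rw [dif_neg hex, dif_neg hex']

open Classical in
theorem dg_two (h2 : (2 : K) ≠ 0) {A B : K} {P : PL A B (LL A B)} (hP : OPt P) (h0 : dg P = 0) : P + P = 0 := by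
  obtain ⟨a, ha⟩ := Rx_odd h2 hP
  exact odd_two h2 hP ha ((dg_eq ha).symm.trans h0)

open Classical in
theorem dg_of_two (h2 : (2 : K) ≠ 0) {A B : K} (hd : 4 * A ^ 3 + 27 * B ^ 2 ≠ 0) {P : PL A B (LL A B)} (hP : OPt P)
    (h0 : P + P = 0) : dg P = 0 := by
  have h := dg_par h2 hd hP hP
  rw [h0, sub_self, dg_zero] at h
  omega

open Classical in
theorem dg_nsmul (h2 : (2 : K) ≠ 0) {A B : K} (hd : 4 * A ^ 3 + 27 * B ^ 2 ≠ 0) {P : PL A B (LL A B)} (hP : OPt P)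
    (n : ℕ) : OPt (n • P) ∧ dg (n • P) = n ^ 2 * dg P := by
  have key : ∀ n : ℕ, (OPt (n • P) ∧ dg (n • P) = n ^ 2 * dg P) ∧
      (OPt ((n + 1) • P) ∧ dg ((n + 1) • P) = (n + 1) ^ 2 * dg P) := fun n => by
    induction n with
    | zero =>
      refine ⟨⟨?_, ?_⟩, ?_, ?_⟩
      · rw [zero_smul]
        exact opt_zero
      · rw [zero_smul, dg_zero]
        ring
      · rw [zero_add, one_smul]
        exact hP
      · rw [zero_add, one_smul]
        ring
    | succ n ih =>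
      obtain ⟨⟨-, h2n⟩, h3, h4⟩ := ih
      have h5 : (n + 1 + 1) • P = (n + 1) • P + P := succ_nsmul P (n + 1)
      have h6 : (n + 1) • P - P = n • P := by rw [succ_nsmul, add_sub_cancel_right]
      refine ⟨⟨h3, by rw [h4]⟩, ?_, ?_⟩
      · rw [h5]
        exact opt_add h3 hP
      · have h7 := dg_par h2 hd h3 hP
        rw [h6, ← h5, h2n, h4] at h7
        nlinarith
  exact (key n).1

end OCM
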