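import Pool.Agent.Lib.MP_17a322_ntOC.OB

/-!
# LEAF OI: the derivation `d/dx` of the function field

PROOF.  `exists_der`: the `K`-algebra homomorphisms `L → L[ε]` (dual numbers over `L = LL A B`: `DualNumber L` or `TrivSqZeroExt L L`) which are the identity modulo `ε` are `z ↦ z + δ(z) ε`, `δ` a derivation.  Construct one: `K[X] → L[ε]`, `X ↦ x + ε` (`aeval`); a nonzero polynomial `P` goes to `P(x) + P'(x) ε`, `P(x) ≠ 0` (`xL_tr`), a unit, so it extends to `RatFunc K` (`IsLocalization.lift`, `RatFunc.liftRingHom`);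
`AdjoinRoot.lift` with the root `y + (F'(x) / (2 y)) ε` of `Y² - F(x + ε)`, `F = X³ + A X + B` (`(y + a ε)² = F(x) + 2 y a ε`, `2 ≠ 0`, `y ≠ 0`).  Then `δ = snd` of it; `Derivation.mk'`.  (Another way: define `δ (a + b y) = a' + (b' + b F' / (2 F)) y` with the derivative of rational functions; or `KaehlerDifferential`, or lemmas of Mathlib on extensions of derivations along separable algebraic extensions.)
`der_comp`: the set of the `z` with `δ (τ z) = τ (δ z) * δ (τ x)` is a subring closed under inverses (both sides are derivations along `τ`), contains `K` and `x`, and `y`: from `y² = F(x)`: `2 τ(y) δ(τ y) = F'(τ x) δ (τ x)` and `2 y δ y = F'(x)`, so `2 τ(y) τ(δ y) = F'(τ x)`, and `τ y ≠ 0`; so it is everything (`LL_form`).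
`der_poly`: `δ (P(x)) = P'(x)`: `Derivation.map_aeval`.
-/

set_option autoImplicit false

namespace OCM

open Polynomial

variable {K : Type} [Field K]

private theorem OI_y (A B : K) : yL A B ≠ 0 := by
  intro h
  have h1 := eqL A B
  rw [h] at h1
  have h3 : aeval (xL A B) (X ^ 3 + C A * X + C B : K[X]) = 0 := by
    rw [map_add, map_add, map_pow, map_mul, aeval_X, aeval_C, aeval_C, ← h1]
    ring
  have hd : (X ^ 3 + C A * X + C B : K[X]).natDegree = 3 := by compute_degree!
  have h4 : (X ^ 3 + C A * X + C B : K[X]) = 0 := by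
    by_contra hne
    exact xL_tr A B ⟨_, hne, h3⟩
  rw [h4, natDegree_zero] at hd
  omega

private theorem OI_two (h2 : (2 : K) ≠ 0) (A B : K) : (2 : LL A B) ≠ 0 := by
  intro h7
  apply h2
  have h8 : algebraMap K (LL A B) 2 = algebraMap K (LL A B) 0 := by
    rw [map_ofNat, map_zero, h7]
  exact (algebraMap K (LL A B)).injective h8

private theorem OI_eval {S : Type} [CommRing S] (A B : K) (φ : RatFunc K →+* S) (w : S) :
    (PY A B).eval₂ φ w = w ^ 2 - (φ RatFunc.X ^ 3 + φ (RatFunc.C A) * φ RatFunc.X + φ (RatFunc.C B)) := by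
  unfold PY
  rw [eval₂_sub, eval₂_pow, eval₂_X, eval₂_C, map_add, map_add, map_pow, map_mul]

private theorem OI_poly {L : Type} [Field L] [Algebra K L] (x : L) (P : K[X]) :
    aeval (TrivSqZeroExt.inl x + TrivSqZeroExt.inr 1 : TrivSqZeroExt L L) P =
      TrivSqZeroExt.inl (aeval x P) + TrivSqZeroExt.inr (aeval x (derivative P)) := by
  have hy : (TrivSqZeroExt.inr 1 : TrivSqZeroExt L L) ^ 2 = 0 := by
    rw [pow_two, TrivSqZeroExt.inr_mul_inr]
  have hin : ∀ Q : K[X], aeval (TrivSqZeroExt.inl x : TrivSqZeroExt L L) Q = TrivSqZeroExt.inl (aeval x Q) := by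
    intro Q
    exact aeval_algHom_apply (TrivSqZeroExt.inlAlgHom K L L) x Q
  rw [Polynomial.aeval_add_of_sq_eq_zero P _ _ hy, hin, hin]
  congr 1
  rw [TrivSqZeroExt.inl_mul_inr, smul_eq_mul, mul_one]

private theorem OI_hom (h2 : (2 : K) ≠ 0) (A B : K) : ∃ f : LL A B →+* TrivSqZeroExt (LL A B) (LL A B),
    f (xL A B) = TrivSqZeroExt.inl (xL A B) + TrivSqZeroExt.inr 1 ∧ (∀ z, (f z).fst = z) ∧
      ∀ c : K, f (algebraMap K (LL A B) c) = TrivSqZeroExt.inl (algebraMap K (LL A B) c) := by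
  let x := xL A B
  let y := yL A B
  let g : K[X] →+* TrivSqZeroExt (LL A B) (LL A B) :=
    ((aeval (TrivSqZeroExt.inl x + TrivSqZeroExt.inr 1 : TrivSqZeroExt (LL A B) (LL A B)) :
      K[X] →ₐ[K] TrivSqZeroExt (LL A B) (LL A B)) : K[X] →+* TrivSqZeroExt (LL A B) (LL A B))
  have hgP : ∀ P : K[X], g P = TrivSqZeroExt.inl (aeval x P) + TrivSqZeroExt.inr (aeval x (derivative P)) :=
    fun P => OI_poly x P
  have hg : ∀ Q : nonZeroDivisors K[X], IsUnit (g Q) := by
    intro Q
    rw [TrivSqZeroExt.isUnit_iff_isUnit_fst, hgP, TrivSqZeroExt.fst_add, TrivSqZeroExt.fst_inl,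
      TrivSqZeroExt.fst_inr, add_zero]
    refine isUnit_iff_ne_zero.2 fun h0 => ?_
    exact xL_tr A B ⟨_, nonZeroDivisors.ne_zero Q.2, h0⟩
  let φ : RatFunc K →+* TrivSqZeroExt (LL A B) (LL A B) := IsLocalization.lift hg
  have hφ : ∀ P : K[X], φ (algebraMap K[X] (RatFunc K) P) = g P := fun P => IsLocalization.lift_eq hg P
  have hφX : φ RatFunc.X = TrivSqZeroExt.inl x + TrivSqZeroExt.inr 1 := by
    rw [← RatFunc.algebraMap_X, hφ]
    exact aeval_X _
  have hφC : ∀ c : K, φ (RatFunc.C c) = TrivSqZeroExt.inl (algebraMap K (LL A B) c) := fun c => by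
    rw [← RatFunc.algebraMap_C, hφ, hgP, derivative_C, aeval_C, map_zero, TrivSqZeroExt.inr_zero, add_zero]
  let w : TrivSqZeroExt (LL A B) (LL A B) :=
    TrivSqZeroExt.inl y + TrivSqZeroExt.inr ((3 * x ^ 2 + algebraMap K (LL A B) A) / (2 * y))
  have hy : y ≠ 0 := OI_y A B
  have h2' : (2 : LL A B) ≠ 0 := OI_two h2 A B
  have hroot : (PY A B).eval₂ φ w = 0 := by
    rw [OI_eval, hφX, hφC, hφC, sub_eq_zero]
    have he : y ^ 2 = x ^ 3 + algebraMap K (LL A B) A * x + algebraMap K (LL A B) B := eqL A B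
    refine TrivSqZeroExt.ext ?_ ?_
    · simp only [w, TrivSqZeroExt.fst_add, TrivSqZeroExt.fst_mul, TrivSqZeroExt.fst_pow, TrivSqZeroExt.fst_inl,
        TrivSqZeroExt.fst_inr, add_zero]
      exact he
    · simp only [w, pow_succ, pow_zero, one_mul, TrivSqZeroExt.snd_add, TrivSqZeroExt.snd_mul,
        TrivSqZeroExt.fst_add, TrivSqZeroExt.fst_mul, TrivSqZeroExt.fst_inl,
        TrivSqZeroExt.fst_inr, TrivSqZeroExt.snd_inl, TrivSqZeroExt.snd_inr, add_zero, zero_add, smul_eq_mul,
        MulOpposite.smul_eq_mul_unop, MulOpposite.unop_op, smul_zero, mul_one, one_mul]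
      field_simp
      ring
  let f : LL A B →+* TrivSqZeroExt (LL A B) (LL A B) := AdjoinRoot.lift φ w hroot
  have hf0 : ∀ r : RatFunc K, f (algebraMap (RatFunc K) (LL A B) r) = φ r := fun r => by
    exact AdjoinRoot.lift_of hroot
  have hfy : f y = w := AdjoinRoot.lift_root hroot
  have hfst : ∀ P : K[X], (φ (algebraMap K[X] (RatFunc K) P)).fst = aeval x P := by
    intro P
    rw [hφ, hgP, TrivSqZeroExt.fst_add, TrivSqZeroExt.fst_inl, TrivSqZeroExt.fst_inr, add_zero]
  have hfr : ∀ r : RatFunc K, (φ r).fst = algebraMap (RatFunc K) (LL A B) r := by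
    intro r
    have hQ : algebraMap K[X] (RatFunc K) r.denom ≠ 0 := by
      intro h0
      exact r.denom_ne_zero (IsFractionRing.injective K[X] (RatFunc K) (by rw [h0, map_zero]))
    have hr : r * algebraMap K[X] (RatFunc K) r.denom = algebraMap K[X] (RatFunc K) r.num := by
      conv_lhs => rw [← RatFunc.num_div_denom r]
      rw [RatFunc.num_div_denom r]
      exact (div_eq_iff hQ).1 (RatFunc.num_div_denom r) |>.symm
    have h3 := congrArg (fun s => (φ s).fst) hr
    simp only [map_mul, TrivSqZeroExt.fst_mul, hfst] at h3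
    have h4 := congrArg (algebraMap (RatFunc K) (LL A B)) hr
    rw [map_mul, ← aeval_xL, ← aeval_xL] at h4
    have h5 : aeval x r.denom ≠ 0 := fun h0 => xL_tr A B ⟨_, r.denom_ne_zero, h0⟩
    exact mul_right_cancel₀ h5 (h3.trans h4.symm)
  refine ⟨f, ?_, ?_, ?_⟩
  · have h3 : f (algebraMap (RatFunc K) (LL A B) RatFunc.X) = TrivSqZeroExt.inl x + TrivSqZeroExt.inr 1 := by
      rw [hf0, hφX]
    exact h3
  · intro z
    obtain ⟨a, b, rfl⟩ := LL_form A B z
    have h3 : (f (yL A B)).fst = yL A B := by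
      have h4 : f (yL A B) = w := hfy
      rw [h4]
      simp only [w, TrivSqZeroExt.fst_add, TrivSqZeroExt.fst_inl, TrivSqZeroExt.fst_inr, add_zero]
      rfl
    rw [map_add, map_mul, TrivSqZeroExt.fst_add, TrivSqZeroExt.fst_mul, hf0, hf0, hfr, hfr, h3]
  · intro c
    have h3 : algebraMap K (LL A B) c = algebraMap (RatFunc K) (LL A B) (RatFunc.C c) := by
      rw [IsScalarTower.algebraMap_apply K (RatFunc K) (LL A B)]
      rfl
    have h4 : f (algebraMap (RatFunc K) (LL A B) (RatFunc.C c)) = TrivSqZeroExt.inl (algebraMap K (LL A B) c) := by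
      rw [hf0, hφC]
    rw [← h4, ← h3]

theorem exists_der (h2 : (2 : K) ≠ 0) (A B : K) : ∃ δ : Derivation K (LL A B) (LL A B), δ (xL A B) = 1 := by
  obtain ⟨f, hf, hfst, hfc⟩ := OI_hom h2 A B
  have hsm : ∀ (c : K) (z : LL A B), c • z = algebraMap K (LL A B) c * z := fun c z => Algebra.smul_def c z
  have hmul : ∀ a b : LL A B, (f (a * b)).snd = a * (f b).snd + b * (f a).snd := by
    intro a b
    rw [map_mul, TrivSqZeroExt.snd_mul, hfst, hfst, smul_eq_mul, MulOpposite.smul_eq_mul_unop,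
      MulOpposite.unop_op, mul_comm (f a).snd b]
  let D : LL A B →ₗ[K] LL A B :=
    { toFun := fun z => (f z).snd
      map_add' := fun a b => by
        change (f (a + b)).snd = (f a).snd + (f b).snd
        rw [map_add, TrivSqZeroExt.snd_add]
      map_smul' := fun c z => by
        change (f (c • z)).snd = c • (f z).snd
        rw [hsm, hsm, hmul, hfc, TrivSqZeroExt.snd_inl, mul_zero, add_zero] }
  refine ⟨Derivation.mk' D fun a b => ?_, ?_⟩
  · change (f (a * b)).snd = a • (f b).snd + b • (f a).snd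
    rw [hmul, smul_eq_mul, smul_eq_mul]
  · change (f (xL A B)).snd = 1
    rw [hf, TrivSqZeroExt.snd_add, TrivSqZeroExt.snd_inl, TrivSqZeroExt.snd_inr, zero_add]

theorem der_poly {A B : K} (δ : Derivation K (LL A B) (LL A B)) (hδ : δ (xL A B) = 1) (P : K[X]) :
    δ (aeval (xL A B) P) = aeval (xL A B) (derivative P) := by
  rw [Derivation.map_aeval, hδ, smul_eq_mul, mul_one]

theorem der_comp (h2 : (2 : K) ≠ 0) {A B : K} (δ : Derivation K (LL A B) (LL A B)) (hδ : δ (xL A B) = 1)
    (τ : LL A B →ₐ[K] LL A B) (z : LL A B) : δ (τ z) = τ (δ z) * δ (τ (xL A B)) := by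
  have h2' : (2 : LL A B) ≠ 0 := OI_two h2 A B
  have hdp : ∀ (u : LL A B) (P : K[X]), δ (aeval u P) = aeval u (derivative P) * δ u := fun u P => by
    rw [Derivation.map_aeval, smul_eq_mul]
  have hτ : ∀ Q : K[X], τ (aeval (xL A B) Q) = aeval (τ (xL A B)) Q := fun Q =>
    (aeval_algHom_apply τ (xL A B) Q).symm
  have hP : ∀ P : K[X], δ (τ (aeval (xL A B) P)) = τ (δ (aeval (xL A B) P)) * δ (τ (xL A B)) := by
    intro P
    rw [der_poly δ hδ, hτ, hτ, hdp]
  have hmul : ∀ u v : LL A B, δ (u * v) = u * δ v + v * δ u := fun u v => by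
    rw [Derivation.leibniz, smul_eq_mul, smul_eq_mul]
  have hdiv : ∀ a b c : LL A B, a * b = c → b ≠ 0 → δ (τ b) = τ (δ b) * δ (τ (xL A B)) →
      δ (τ c) = τ (δ c) * δ (τ (xL A B)) → δ (τ a) = τ (δ a) * δ (τ (xL A B)) := by
    intro a b c habc hb h1 h3
    have hτb : τ b ≠ 0 := (map_ne_zero τ).2 hb
    have e1 : δ (τ c) = τ a * δ (τ b) + τ b * δ (τ a) := by rw [← habc, map_mul, hmul]
    have e2 : τ (δ c) = τ a * τ (δ b) + τ b * τ (δ a) := by
      rw [← habc, hmul, map_add, map_mul, map_mul]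
    refine mul_left_cancel₀ hτb ?_
    linear_combination h3 - e1 + e2 * δ (τ (xL A B)) - τ a * h1
  have hrat : ∀ r : RatFunc K, δ (τ (algebraMap (RatFunc K) (LL A B) r)) =
      τ (δ (algebraMap (RatFunc K) (LL A B) r)) * δ (τ (xL A B)) := by
    intro r
    have hQ : algebraMap K[X] (RatFunc K) r.denom ≠ 0 := by
      intro h0
      exact r.denom_ne_zero (IsFractionRing.injective K[X] (RatFunc K) (by rw [h0, map_zero]))
    have hr : r * algebraMap K[X] (RatFunc K) r.denom = algebraMap K[X] (RatFunc K) r.num :=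
      ((div_eq_iff hQ).1 (RatFunc.num_div_denom r)).symm
    have h4 := congrArg (algebraMap (RatFunc K) (LL A B)) hr
    rw [map_mul, ← aeval_xL, ← aeval_xL] at h4
    have h5 : aeval (xL A B) r.denom ≠ 0 := fun h0 => xL_tr A B ⟨_, r.denom_ne_zero, h0⟩
    exact hdiv _ _ _ h4 h5 (hP _) (hP _)
  have hyy : δ (τ (yL A B)) = τ (δ (yL A B)) * δ (τ (xL A B)) := by
    have hy := OI_y A B
    have hτy : τ (yL A B) ≠ 0 := (map_ne_zero τ).2 hy
    have e0 : yL A B * yL A B = aeval (xL A B) (X ^ 3 + C A * X + C B : K[X]) := by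
      rw [map_add, map_add, map_pow, map_mul, aeval_X, aeval_C, aeval_C, ← eqL, pow_two]
    have e1 := hP (X ^ 3 + C A * X + C B : K[X])
    rw [← e0, map_mul, hmul, hmul, map_add, map_mul] at e1
    refine mul_left_cancel₀ (mul_ne_zero h2' hτy) ?_
    linear_combination e1
  obtain ⟨a, b, rfl⟩ := LL_form A B z
  have ha := hrat a
  have hb := hrat b
  rw [map_add, map_add, map_add, map_add, map_mul, hmul, hmul, map_add, map_mul, map_mul, ha, hb, hyy]
  ring

end OCM
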