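import Mathlib

/-!
# LEAF OJ: the invariant differential `dx / y` is additive

`W` is the curve `y² = x³ + a x + b` over a field `F` of characteristic different from `2` with a derivation `δ` which kills `a` and `b`.  `wt δ P = δ(x) / y` for `P = (x, y)`, and `0` for `P = 0` (it is `0` if `y = 0`: then `0 = δ(x³ + a x + b) = (3 x² + a) δ x` and `3 x² + a ≠ 0` as `P` is nonsingular, so `δ x = 0`).
PROOF of `wt_add`.  `2 y δ y = (3 x² + a) δ x` (apply `δ` to the equation).  `P = 0` or `Q = 0` or `P + Q = 0`: direct (`wt (-P) = - wt P`).  First the identity (*): if `P = (x₁, y₁)`, `Q = (x₂, y₂)`, `P + Q = (x₃, y₃)`, and `w_i` are elements with `δ x_i = w_i y_i`, `2 δ y_i = w_i (3 x_i² + a)` (`i = 1, 2`), then `δ x₃ = (w₁ + w₂) y₃`.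
Case `x₁ ≠ x₂`: `l = (y₁ - y₂) / (x₁ - x₂)`, `x₃ = l² - x₁ - x₂`, `y₃ = - (l (x₃ - x₁) + y₁)`: `δ x₃ = 2 l δ l - δ x₁ - δ x₂`; clear the denominator `(x₁ - x₂)³`; modulo the two equations it is a polynomial identity (linear in `w₁` and in `w₂`).  Case `P = Q`: `l = (3 x₁² + a) / (2 y₁)`, `w₁ = w₂`.
So `wt (P + Q) = w₁ + w₂` if `y₃ ≠ 0` (take `w_i = wt P_i`; if `y_i = 0` then `δ x_i = 0` and `δ y_i = 0`, so (*) can be applied with `w_i = 0 = wt P_i`).  If `y₃ = 0`: `R = P + Q` has order two, `wt R = 0`, `- P = Q + R` (`R = - R`), so if `y₁ ≠ 0` then (*) for `Q`, `R`, `- P` gives `- wt P = wt Q + 0`; if `y₁ = 0` then `Q = R - P` and by the same argument (`y₂ ≠ 0`) `wt Q = wt R + wt (- P) = 0`, or `y₂ = 0` and everything is `0`.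
-/

set_option autoImplicit false

namespace OCM

open WeierstrassCurve.Affine

/-- the value of `dx / y` -/
noncomputable def wt {F : Type} [Field F] {W : WeierstrassCurve.Affine F} (δ : F → F) : W.Point → F
  | .zero => 0
  | .some x y _ => δ x / y

private theorem OJ_zero {F : Type} [Field F] {W : WeierstrassCurve.Affine F} (δ : Derivation ℤ F F) :
    wt δ (0 : W.Point) = 0 := rfl

private theorem OJ_some {F : Type} [Field F] {W : WeierstrassCurve.Affine F} (δ : Derivation ℤ F F)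
    (x y : F) (h : W.Nonsingular x y) : wt δ (Point.some x y h) = δ x / y := rfl

private theorem OJ_neg {F : Type} [Field F] {W : WeierstrassCurve.Affine F} (h1 : W.a₁ = 0)
    (h3 : W.a₃ = 0) (δ : Derivation ℤ F F) (P : W.Point) : wt δ (-P) = -wt δ P := by
  rcases P with _ | ⟨x, y, h⟩
  · show (0 : F) = -0
    rw [neg_zero]
  · show δ x / W.negY x y = -(δ x / y)
    rw [negY, h1, h3, zero_mul, sub_zero, sub_zero, div_neg]

private theorem OJ_eq {F : Type} [Field F] {W : WeierstrassCurve.Affine F} (h1 : W.a₁ = 0)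
    (h2' : W.a₂ = 0) (h3 : W.a₃ = 0) {x y : F} (h : W.Equation x y) :
    y ^ 2 = x ^ 3 + W.a₄ * x + W.a₆ := by
  rw [equation_iff, h1, h2', h3] at h
  linear_combination h

private theorem OJ_dif {F : Type} [Field F] {W : WeierstrassCurve.Affine F} (h1 : W.a₁ = 0)
    (h2' : W.a₂ = 0) (h3 : W.a₃ = 0) (δ : Derivation ℤ F F) (h4 : δ W.a₄ = 0) (h6 : δ W.a₆ = 0)
    {x y : F} (h : W.Equation x y) : 2 * y * δ y = (3 * x ^ 2 + W.a₄) * δ x := by
  have h7 : y * y = x * (x * x) + W.a₄ * x + W.a₆ := by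
    have := OJ_eq h1 h2' h3 h
    linear_combination this
  have h8 := congrArg δ h7
  simp only [map_add, Derivation.leibniz, smul_eq_mul, h4, h6] at h8
  linear_combination h8

private theorem OJ_w {F : Type} [Field F] (h2 : (2 : F) ≠ 0) {W : WeierstrassCurve.Affine F}
    (h1 : W.a₁ = 0) (h2' : W.a₂ = 0) (h3 : W.a₃ = 0) (δ : Derivation ℤ F F) (h4 : δ W.a₄ = 0)
    (h6 : δ W.a₆ = 0) {x y : F} (h : W.Nonsingular x y) :
    δ x = δ x / y * y ∧ 2 * δ y = δ x / y * (3 * x ^ 2 + W.a₄) := by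
  have hd := OJ_dif h1 h2' h3 δ h4 h6 h.1
  by_cases hy : y = 0
  · subst hy
    have h5 : (3 * x ^ 2 + W.a₄) ≠ 0 := by
      have h7 := ((nonsingular_iff' ..).1 h).2
      rw [h1, h2', h3] at h7
      rcases h7 with h8 | h8
      · intro h9
        apply h8
        linear_combination -h9
      · exact absurd (by ring) h8
    have h7 : δ x = 0 := by
      rw [mul_zero, zero_mul] at hd
      exact (mul_eq_zero.1 hd.symm).resolve_left h5
    rw [h7, map_zero]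
    constructor
    · rw [zero_div, zero_mul]
    · rw [zero_div, zero_mul, mul_zero]
  · have h7 : δ x / y * y = δ x := div_mul_cancel₀ _ hy
    refine ⟨h7.symm, ?_⟩
    apply mul_left_cancel₀ hy
    linear_combination hd - (3 * x ^ 2 + W.a₄) * h7

private theorem OJ_alg1 {F : Type} [Field F] (x₁ x₂ y₁ y₂ a b L dL dx₁ dx₂ dy₁ dy₂ w₁ w₂ : F)
    (hx : x₁ - x₂ ≠ 0) (e1 : y₁ ^ 2 = x₁ ^ 3 + a * x₁ + b) (e2 : y₂ ^ 2 = x₂ ^ 3 + a * x₂ + b)
    (hN : L * (x₁ - x₂) = y₁ - y₂) (hdN : dL * (x₁ - x₂) + L * (dx₁ - dx₂) = dy₁ - dy₂)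
    (p1 : dx₁ = w₁ * y₁) (p2 : dx₂ = w₂ * y₂) (q1 : 2 * dy₁ = w₁ * (3 * x₁ ^ 2 + a))
    (q2 : 2 * dy₂ = w₂ * (3 * x₂ ^ 2 + a)) :
    2 * L * dL - dx₁ - dx₂ = (w₁ + w₂) * -(L * ((L ^ 2 - x₁ - x₂) - x₁) + y₁) := by
  have hR : x₁ ^ 2 + x₁ * x₂ + x₂ ^ 2 + a = L * (y₁ + y₂) := by
    apply mul_left_cancel₀ hx
    linear_combination e2 - e1 - (y₁ + y₂) * hN
  subst p1
  subst p2
  apply mul_left_cancel₀ hx
  linear_combination 2 * L * hdN + L * q1 - L * q2 +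
    (w₁ * L ^ 2 + w₂ * L ^ 2 - w₂ * (x₁ - x₂)) * hN + (w₁ - w₂) * L * hR

private theorem OJ_alg2 {F : Type} [Field F] (x y a L dL dx dy w₁ w₂ : F) (h2 : (2 : F) ≠ 0)
    (hy : y ≠ 0) (hN : L * (2 * y) = 3 * x ^ 2 + a)
    (hdN : 2 * (dL * y) + 2 * (L * dy) = 6 * x * dx) (p1 : dx = w₁ * y) (p2 : dx = w₂ * y)
    (q1 : 2 * dy = w₁ * (3 * x ^ 2 + a)) :
    2 * L * dL - dx - dx = (w₁ + w₂) * -(L * ((L ^ 2 - x - x) - x) + y) := by
  have hw : w₂ = w₁ := by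
    apply mul_right_cancel₀ hy
    rw [← p1, ← p2]
  subst hw
  subst p1
  have h3 : dL = 3 * x * w₂ - w₂ * L ^ 2 := by
    apply mul_left_cancel₀ (mul_ne_zero h2 hy)
    linear_combination hdN - L * q1 + w₂ * L * hN
  rw [h3]
  ring

open Classical in
private theorem OJ_star {F : Type} [Field F] (h2 : (2 : F) ≠ 0) {W : WeierstrassCurve.Affine F}
    (h1 : W.a₁ = 0) (h2' : W.a₂ = 0) (h3 : W.a₃ = 0) (δ : Derivation ℤ F F) (h4 : δ W.a₄ = 0)
    (h6 : δ W.a₆ = 0) {x₁ y₁ x₂ y₂ : F} (n1 : W.Nonsingular x₁ y₁) (n2 : W.Nonsingular x₂ y₂)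
    (hxy : ¬(x₁ = x₂ ∧ y₁ = W.negY x₂ y₂)) :
    δ (W.addX x₁ x₂ (W.slope x₁ x₂ y₁ y₂)) =
      (δ x₁ / y₁ + δ x₂ / y₂) * W.addY x₁ x₂ y₁ (W.slope x₁ x₂ y₁ y₂) := by
  obtain ⟨L, hL⟩ : ∃ L, L = W.slope x₁ x₂ y₁ y₂ := ⟨_, rfl⟩
  obtain ⟨p1, q1⟩ := OJ_w h2 h1 h2' h3 δ h4 h6 n1
  obtain ⟨p2, q2⟩ := OJ_w h2 h1 h2' h3 δ h4 h6 n2
  have e1 := OJ_eq h1 h2' h3 n1.1
  have e2 := OJ_eq h1 h2' h3 n2.1
  rw [← hL]
  have eX : W.addX x₁ x₂ L = L ^ 2 - x₁ - x₂ := by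
    rw [addX, h1, h2']
    ring
  have eY : W.addY x₁ x₂ y₁ L = -(L * ((L ^ 2 - x₁ - x₂) - x₁) + y₁) := by
    rw [addY, negY, negAddY, eX, h1, h3]
    ring
  have eD : δ (L ^ 2 - x₁ - x₂) = 2 * L * δ L - δ x₁ - δ x₂ := by
    rw [sq, map_sub, map_sub, Derivation.leibniz, smul_eq_mul]
    ring
  rw [eX, eY, eD]
  by_cases hx : x₁ = x₂
  · have hy : y₁ ≠ W.negY x₂ y₂ := fun h => hxy ⟨hx, h⟩
    have hyy : y₁ = y₂ := Y_eq_of_Y_ne n1.1 n2.1 hx hy
    subst hx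
    subst hyy
    have hy0 : y₁ ≠ 0 := by
      intro h0
      apply hy
      rw [negY, h1, h3, h0]
      ring
    have hN : L * (2 * y₁) = 3 * x₁ ^ 2 + W.a₄ := by
      rw [hL, slope_of_Y_ne rfl hy, negY, h1, h2', h3]
      have h5 : y₁ - (-y₁ - 0 * x₁ - 0) = 2 * y₁ := by ring
      rw [h5, div_mul_cancel₀ _ (mul_ne_zero h2 hy0)]
      ring
    have hN' : L * y₁ + L * y₁ = x₁ * x₁ + x₁ * x₁ + x₁ * x₁ + W.a₄ := by
      linear_combination hN
    have h8 := congrArg δ hN'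
    simp only [map_add, Derivation.leibniz, smul_eq_mul, h4] at h8
    refine OJ_alg2 x₁ y₁ W.a₄ L (δ L) (δ x₁) (δ y₁) _ _ h2 hy0 hN ?_ p1 p2 q1
    linear_combination h8
  · have hN : L * (x₁ - x₂) = y₁ - y₂ := by
      rw [hL, slope_of_X_ne hx]
      exact div_mul_cancel₀ _ (sub_ne_zero.2 hx)
    have h8 := congrArg δ hN
    simp only [map_sub, Derivation.leibniz, smul_eq_mul] at h8
    refine OJ_alg1 x₁ x₂ y₁ y₂ W.a₄ W.a₆ L (δ L) (δ x₁) (δ x₂) (δ y₁) (δ y₂) _ _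
      (sub_ne_zero.2 hx) e1 e2 hN ?_ p1 p2 q1 q2
    linear_combination h8

open Classical in
private theorem OJ_B {F : Type} [Field F] (h2 : (2 : F) ≠ 0) {W : WeierstrassCurve.Affine F}
    (h1 : W.a₁ = 0) (h2' : W.a₂ = 0) (h3 : W.a₃ = 0) (δ : Derivation ℤ F F) (h4 : δ W.a₄ = 0)
    (h6 : δ W.a₆ = 0) (P Q : W.Point) (hPQ : P + Q ≠ -(P + Q)) :
    wt δ (P + Q) = wt δ P + wt δ Q := by
  rcases P with _ | ⟨x₁, y₁, n1⟩
  · have e1 : (Point.zero : W.Point) = 0 := rfl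
    rw [e1, zero_add, OJ_zero, zero_add]
  rcases Q with _ | ⟨x₂, y₂, n2⟩
  · have e1 : (Point.zero : W.Point) = 0 := rfl
    rw [e1, add_zero, OJ_zero, add_zero]
  by_cases hxy : x₁ = x₂ ∧ y₁ = W.negY x₂ y₂
  · exfalso
    apply hPQ
    rw [Point.add_of_Y_eq hxy.1 hxy.2, Point.neg_zero]
  · rw [Point.add_some hxy] at hPQ ⊢
    rw [OJ_some, OJ_some, OJ_some, OJ_star h2 h1 h2' h3 δ h4 h6 n1 n2 hxy]
    have hy : W.addY x₁ x₂ y₁ (W.slope x₁ x₂ y₁ y₂) ≠ 0 := by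
      intro h0
      apply hPQ
      rw [Point.neg_some]
      have h5 : W.negY (W.addX x₁ x₂ (W.slope x₁ x₂ y₁ y₂))
          (W.addY x₁ x₂ y₁ (W.slope x₁ x₂ y₁ y₂)) = W.addY x₁ x₂ y₁ (W.slope x₁ x₂ y₁ y₂) := by
        rw [negY, h1, h3, h0]
        ring
      simp only [h5]
    exact mul_div_cancel_right₀ _ hy

private theorem OJ_C {F : Type} [Field F] (h2 : (2 : F) ≠ 0) {W : WeierstrassCurve.Affine F}
    (h1 : W.a₁ = 0) (h3 : W.a₃ = 0) (δ : Derivation ℤ F F) (R : W.Point) (hR : R = -R) :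
    wt δ R = 0 := by
  rcases R with _ | ⟨x, y, n⟩
  · rfl
  · rw [Point.neg_some, Point.some.injEq] at hR
    have h5 := hR.2
    rw [negY, h1, h3] at h5
    have h6 : 2 * y = 0 := by linear_combination h5
    have h7 : y = 0 := (mul_eq_zero.1 h6).resolve_left h2
    rw [OJ_some, h7, div_zero]

open Classical in
theorem wt_add {F : Type} [Field F] (h2 : (2 : F) ≠ 0) {W : WeierstrassCurve.Affine F} (h1 : W.a₁ = 0) (h2' : W.a₂ = 0)
    (h3 : W.a₃ = 0) (δ : Derivation ℤ F F) (h4 : δ W.a₄ = 0) (h6 : δ W.a₆ = 0) (P Q : W.Point) :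
    wt δ (P + Q) = wt δ P + wt δ Q := by
  by_cases hPQ : P + Q = -(P + Q)
  · have hR := OJ_C h2 h1 h3 δ (P + Q) hPQ
    rw [hR]
    by_cases hP : P = -P
    · have hP0 := OJ_C h2 h1 h3 δ P hP
      by_cases hQ : Q = -Q
      · rw [hP0, OJ_C h2 h1 h3 δ Q hQ, add_zero]
      · have e1 : P + (P + Q) = -Q := by
          have e2 : P + (P + Q) = P + -(P + Q) := by rw [← hPQ]
          rw [e2]
          abel
        have h7 := OJ_B h2 h1 h2' h3 δ h4 h6 P (P + Q) (by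
          rw [e1, neg_neg]
          exact fun h => hQ h.symm)
        rw [e1, OJ_neg h1 h3, hR, hP0] at h7
        rw [hP0]
        linear_combination h7
    · have e1 : Q + (P + Q) = -P := by
        have e2 : Q + (P + Q) = Q + -(P + Q) := by rw [← hPQ]
        rw [e2]
        abel
      have h7 := OJ_B h2 h1 h2' h3 δ h4 h6 Q (P + Q) (by
        rw [e1, neg_neg]
        exact fun h => hP h.symm)
      rw [e1, OJ_neg h1 h3, hR] at h7
      linear_combination h7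
  · exact OJ_B h2 h1 h2' h3 δ h4 h6 P Q hPQ

open Classical in
theorem wt_neg {F : Type} [Field F] {W : WeierstrassCurve.Affine F} (h1 : W.a₁ = 0) (h3 : W.a₃ = 0)
    (δ : Derivation ℤ F F) (P : W.Point) : wt δ (-P) = -wt δ P := by
  exact OJ_neg h1 h3 δ P

end OCM
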