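import Pool.Agent.Lib.MP_17a322_ntOC.OH
import Pool.Agent.Lib.MP_17a322_ntOC.OI
import Pool.Agent.Lib.MP_17a322_ntOC.OJ

/-!
# LEAF OK1: the multiplier of a point

`WT P n`: the pull back of `dx / y` under the point `P` is `n` times `dx / y`.
PROOF.  `WT_add`: `wt_add` for `F = LL A B` and the derivation `δ` over `ℤ` (`Derivation.restrictScalars ℤ`); `a₄`, `a₆` are constants, `δ` kills them.  `WT_cst`: `δ` kills the coordinates of `cst T`.  `WT_g`: `δ x / y * y = 1`.
`WT_comp`: `P = some z w`: `wt δ (mp τ P) = δ (τ z) / τ w = τ (δ z / w) δ (τ x)` (`der_comp`), `δ z / w = m / y` (`y ≠ 0`), `Q = mp τ g = some (τ x) (τ y)`, `δ (τ x) / τ y = n / y`; so it is `(m / τ y) (n τ y / y) = m n / y`.  `P = 0`: `m = 0` (from `WT 0 m`, `exists_der`).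
`WT_uniq`: `exists_der`, `algebraMap` is injective.
-/

set_option autoImplicit false

namespace OCM

open Polynomial WeierstrassCurve.Affine

variable {K : Type} [Field K]

/-- the multiplier of `P` is `n` -/
def WT {A B : K} (P : PL A B (LL A B)) (n : K) : Prop :=
  ∀ δ : Derivation K (LL A B) (LL A B), δ (xL A B) = 1 → wt δ P * yL A B = algebraMap K (LL A B) n

private theorem OK1_y (A B : K) : yL A B ≠ 0 := by
  intro h
  have h1 := LL_uniq A B 0 1 (by rw [h, mul_zero, map_zero, add_zero])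
  exact one_ne_zero h1.2

private theorem OK1_two (h2 : (2 : K) ≠ 0) (A B : K) : (2 : LL A B) ≠ 0 := by
  intro h
  apply h2
  apply (algebraMap K (LL A B)).injective
  rw [map_ofNat, map_zero, h]

private noncomputable def OK1_der {F : Type} [Field F] (f : F →+ F)
    (hf : ∀ a b, f (a * b) = a * f b + b * f a) : Derivation ℤ F F :=
  Derivation.mk' f.toIntLinearMap hf

private theorem OK1_add (h2 : (2 : K) ≠ 0) {A B : K} (δ : Derivation K (LL A B) (LL A B))
    (P Q : PL A B (LL A B)) : (open Classical in wt δ (P + Q)) = wt δ P + wt δ Q := by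
  classical
  have h4 : (OK1_der (δ : LL A B →ₗ[K] LL A B).toAddMonoidHom (fun a b => δ.leibniz a b))
      ((CW A B).baseChange (LL A B)).toAffine.a₄ = 0 := Derivation.map_algebraMap δ A
  have h6 : (OK1_der (δ : LL A B →ₗ[K] LL A B).toAddMonoidHom (fun a b => δ.leibniz a b))
      ((CW A B).baseChange (LL A B)).toAffine.a₆ = 0 := Derivation.map_algebraMap δ B
  exact wt_add (OK1_two h2 A B) (map_zero _) (map_zero _) (map_zero _) _ h4 h6 P Q

private theorem OK1_neg {A B : K} (δ : Derivation K (LL A B) (LL A B)) (P : PL A B (LL A B)) :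
    wt δ (-P) = -wt δ P := by
  classical
  exact wt_neg (map_zero _) (map_zero _)
    (OK1_der (δ : LL A B →ₗ[K] LL A B).toAddMonoidHom (fun a b => δ.leibniz a b)) P

theorem WT_g {A B : K} {g : PL A B (LL A B)} (hg : IsG g) : WT g 1 := by
  intro δ hδ
  obtain ⟨h, rfl⟩ := hg
  show δ (xL A B) / yL A B * yL A B = algebraMap K (LL A B) 1
  rw [hδ, map_one, div_mul_cancel₀ _ (OK1_y A B)]

theorem WT_cst {A B : K} (T : PL A B K) : WT (cst T) 0 := by
  classical
  intro δ _
  rw [map_zero]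
  rcases T with _ | ⟨x, y, h⟩
  · exact zero_mul _
  · show δ (algebraMap K (LL A B) x) / algebraMap K (LL A B) y * yL A B = 0
    rw [Derivation.map_algebraMap, zero_div, zero_mul]

open Classical in
theorem WT_add (h2 : (2 : K) ≠ 0) {A B : K} {P Q : PL A B (LL A B)} {m n : K} (hP : WT P m) (hQ : WT Q n) :
    WT (P + Q) (m + n) := by
  intro δ hδ
  rw [OK1_add h2, add_mul, hP δ hδ, hQ δ hδ, map_add]

open Classical in
theorem WT_sub (h2 : (2 : K) ≠ 0) {A B : K} {P Q : PL A B (LL A B)} {m n : K} (hP : WT P m) (hQ : WT Q n) :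
    WT (P - Q) (m - n) := by
  intro δ hδ
  rw [sub_eq_add_neg, OK1_add h2, OK1_neg, add_mul, neg_mul, hP δ hδ, hQ δ hδ, map_sub, sub_eq_add_neg]

theorem WT_comp (h2 : (2 : K) ≠ 0) {A B : K} {g : PL A B (LL A B)} (hg : IsG g) {P Q : PL A B (LL A B)} {m n : K}
    (hP : WT P m) (hQ : WT Q n) {τ : LL A B →ₐ[K] LL A B} (hτ : mp τ g = Q) : WT (mp τ P) (m * n) := by
  classical
  intro δ hδ
  have hy := OK1_y A B
  have hty : τ (yL A B) ≠ 0 := by
    intro h
    exact hy (τ.toRingHom.injective (by rw [map_zero]; exact h))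
  have hQ' := hQ δ hδ
  have hP' := hP δ hδ
  obtain ⟨hg1, rfl⟩ := hg
  have e1 : δ (τ (xL A B)) / τ (yL A B) * yL A B = algebraMap K (LL A B) n := by
    rw [← hQ', ← hτ]
    rfl
  rcases P with _ | ⟨z, w, h⟩
  · have h0 : algebraMap K (LL A B) m = 0 := by
      rw [← hP']
      exact zero_mul _
    have h3 : wt δ (mp τ (Point.zero : PL A B (LL A B))) = 0 := rfl
    rw [h3, zero_mul, map_mul, h0, zero_mul]
  · have e2 : δ z / w * yL A B = algebraMap K (LL A B) m := hP'
    have e3 : τ (δ z) / τ w * τ (yL A B) = algebraMap K (LL A B) m := by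
      rw [← map_div₀, ← map_mul, e2, AlgHom.commutes]
    have e4 : wt δ (mp τ (Point.some z w h : PL A B (LL A B))) = δ (τ z) / τ w := rfl
    rw [e4, der_comp h2 δ hδ τ z, map_mul, ← e3, ← e1]
    field_simp

theorem WT_uniq (h2 : (2 : K) ≠ 0) {A B : K} {P : PL A B (LL A B)} {m n : K} (hm : WT P m) (hn : WT P n) : m = n := by
  obtain ⟨δ, hδ⟩ := exists_der h2 A B
  exact (algebraMap K (LL A B)).injective ((hm δ hδ).symm.trans (hn δ hδ))

end OCM
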