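import Pool.Agent.Lib.MP_17a322_ntOC.OK1

/-!
# LEAF OK2: the multiplier `0` in characteristic `p`

PROOF.  `Rx_odd`: `Rx P a`, `dg P = md a`.  `P = 0`: `dg_zero`.  `P = some z w`: let `δ` be from `exists_der`; `δ z / w * y = 0`.  If `w = 0` then `P = - P`, `P + P = 0` and `dg P = 0` (`dg_of_two`).  Otherwise `δ z = 0`.  `a₀(x) = a₁(x) z` (`Rx`, `xRep = ![z, 1]`), so (`der_poly`) `a₀'(x) = a₁'(x) z` and `a₀' a₁ = a₁' a₀` in `K[X]` (`xL_tr`);
`a₀`, `a₁` are coprime, so `a₁ ∣ a₁'`, `a₁' = 0` (degree) and `a₀' a₁ = 0`, `a₁ ≠ 0`, `a₀' = 0`.  A polynomial `f` with `f' = 0` in characteristic `p` has `p ∣ natDegree f` (the coefficient `n c_n` of `f'`, `n = natDegree f`, is `0`).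
-/

set_option autoImplicit false

namespace OCM

open Polynomial WeierstrassCurve.Affine

variable {K : Type} [Field K]

private theorem OK2_y (A B : K) : yL A B ≠ 0 := by
  intro h
  obtain ⟨_, h2⟩ := LL_uniq A B 0 1 (by rw [map_zero, map_one, zero_add, one_mul, h])
  exact one_ne_zero h2

private theorem OK2_inj (A B : K) : Function.Injective (aeval (xL A B) : K[X] →ₐ[K] LL A B) :=
  transcendental_iff_injective.1 (xL_tr A B)

private theorem OK2_deg (p : ℕ) [CharP K p] {f : K[X]} (hf : derivative f = 0) : p ∣ f.natDegree := by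
  by_cases h0 : f.natDegree = 0
  · rw [h0]
    exact dvd_zero p
  · have h1 : (derivative f).coeff (f.natDegree - 1) = 0 := by rw [hf, coeff_zero]
    rw [coeff_derivative] at h1
    have h3 : f.natDegree - 1 + 1 = f.natDegree := by omega
    have h4 : f.coeff f.natDegree ≠ 0 := by
      intro h5
      have h6 : f = 0 := leadingCoeff_eq_zero.1 h5
      rw [h6, natDegree_zero] at h0
      exact h0 rfl
    rw [h3] at h1
    have h7 := (mul_eq_zero.1 h1).resolve_left h4
    rw [← Nat.cast_add_one, h3] at h7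
    exact (CharP.cast_eq_zero_iff K p _).1 h7

theorem WT_dvd (h2 : (2 : K) ≠ 0) (p : ℕ) [Fact p.Prime] [CharP K p] {A B : K} (hd : 4 * A ^ 3 + 27 * B ^ 2 ≠ 0)
    {P : PL A B (LL A B)} (hP : OPt P) (hW : WT P 0) : p ∣ dg P := by
  classical
  obtain ⟨a, ha⟩ := Rx_odd h2 hP
  obtain ⟨δ, hδ⟩ := exists_der h2 A B
  rcases P with _ | ⟨z, w, hzw⟩
  · show p ∣ dg (0 : PL A B (LL A B))
    rw [dg_zero]
    exact dvd_zero p
  · have h1 : δ z / w * yL A B = algebraMap K (LL A B) 0 := hW δ hδ
    rw [map_zero] at h1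
    have h3 : δ z / w = 0 := (mul_eq_zero.1 h1).resolve_right (OK2_y A B)
    by_cases hw : w = 0
    · have h4 : (.some z w hzw : PL A B (LL A B)) + .some z w hzw = 0 := by
        rw [Point.add_self_of_Y_eq]
        subst hw
        simp [WeierstrassCurve.Affine.negY, CW]
      rw [dg_of_two h2 hd hP h4]
      exact dvd_zero p
    · have hz : δ z = 0 := (div_eq_zero_iff.1 h3).resolve_right hw
      obtain ⟨hc, e, he, ha1⟩ := id ha
      have e0 := ha1 0
      have e1 := ha1 1
      rw [Point.xRep_some] at e0 e1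
      have e0' : aeval (xL A B) (a 0) = e * z := e0
      have e1' : aeval (xL A B) (a 1) = e := by
        rw [e1]
        show e * 1 = e
        rw [mul_one]
      have e2 : aeval (xL A B) (a 0) = aeval (xL A B) (a 1) * z := by rw [e1', e0']
      have e3 := congrArg δ e2
      rw [δ.leibniz, der_poly δ hδ, der_poly δ hδ, hz, smul_zero, zero_add, smul_eq_mul] at e3
      have e4 : derivative (a 0) * a 1 = derivative (a 1) * a 0 := by
        apply OK2_inj A B
        rw [map_mul, map_mul, e3, e2]
        ring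
      have h10 : a 1 ≠ 0 := by
        intro h
        rw [h, map_zero] at e1'
        exact he e1'.symm
      have h11 : a 1 ∣ derivative (a 1) :=
        hc.symm.dvd_of_dvd_mul_right (Dvd.intro_left _ e4)
      have h12 : derivative (a 1) = 0 := by
        by_contra h
        exact absurd (degree_le_of_dvd h11 h) (not_le.2 (degree_derivative_lt h10))
      rw [h12, zero_mul] at e4
      have h13 : derivative (a 0) = 0 := (mul_eq_zero.1 e4).resolve_right h10
      rw [dg_eq ha, md]
      rcases max_choice (a 0).natDegree (a 1).natDegree with h | h <;> rw [h]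
      · exact OK2_deg p h13
      · exact OK2_deg p h12

end OCM
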