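import Pool.Agent.Lib.MP_17a322_ntOC.OH

/-!
# LEAF OL: the degree of a composite

PROOF.  `mp τ P` is odd: for `σ` as in `OPt`: `σ ∘ τ = τ ∘ σ` (`hom_ext`: at `x`: `σ (τ x) = τ x` because `σ Q = - Q`, `Q = some (τ x) (τ y)`; at `y`: `σ (τ y) = - τ y`), so `σ (τ P) = τ (σ P) = - τ P`.
`Rx P a`, `Rx Q b`, `m = md a`, `n = md b`.  Let `c_i = ∑_k coeff (a i) k * b₀ ^ k * b₁ ^ (m - k)` (the form of degree `m` of `a i` at `(b₀, b₁)`).  Then `Rx (mp τ P) c`: the values at `x`: `b₀(x) = e τ(x)`, `b₁(x) = e` (`Q = some (τ x) (τ y)`), so `c_i(x) = e ^ m * τ (a_i(x))`, and `a_i(x) = e' P.xRep i`.  The `c_i` are coprime: if an irreducible polynomial `π` divides both, then in the field `κ = K[X]/(π)` the forms `A_0`, `A_1` of degree `m` have the common zero `(b₀, b₁) mod π ≠ (0, 0)`: if `b₁ ≠ 0` then `b₀ / b₁` is a common root of `a₀`, `a₁` in `κ`, against `IsCoprime`; if `b₁ = 0` then both coefficients of degree `m` vanish, against `m = md a`.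
`md c = m n`: `natDegree c_i ≤ m n`, and the coefficients of degree `m n` of the `c_i` are the forms `A_i` at the vector `(β₀, β₁) ≠ 0` of the coefficients of degree `n` of `b`; not both are `0` by the same argument (over `K`).  (Another way: `finrank_adj`, `RatFunc.finrank_eq_max_natDegree` and the tower `K(r(s)) ⊆ K(s) ⊆ K(X)`.)
-/

set_option autoImplicit false

namespace OCM

open Polynomial WeierstrassCurve.Affine

variable {K : Type} [Field K]

private noncomputable def OL_c {K : Type} [Field K] (m : ℕ) (p b0 b1 : K[X]) : K[X] :=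
  ∑ k ∈ Finset.range (m + 1), C (p.coeff k) * b0 ^ k * b1 ^ (m - k)

private theorem OL_form {K F : Type} [Field K] [Field F] [Algebra K F] {a : Fin 2 → K[X]}
    (ha : IsCoprime (a 0) (a 1)) (β0 β1 : F) (hβ : β0 ≠ 0 ∨ β1 ≠ 0) :
    ∃ i, ∑ k ∈ Finset.range (md a + 1), algebraMap K F ((a i).coeff k) * β0 ^ k * β1 ^ (md a - k) ≠ 0 := by
  have hdeg : ∀ i, (a i).natDegree < md a + 1 := by
    intro i
    have h0 : (a 0).natDegree ≤ md a := le_max_left _ _
    have h1 : (a 1).natDegree ≤ md a := le_max_right _ _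
    fin_cases i
    · exact Nat.lt_succ_of_le h0
    · exact Nat.lt_succ_of_le h1
  by_cases h1 : β1 = 0
  · have h0 : β0 ≠ 0 := hβ.resolve_right (fun h => h h1)
    obtain ⟨i, hi⟩ : ∃ i, (a i).coeff (md a) ≠ 0 := by
      by_contra hc
      push Not at hc
      have h2 : ∀ i, (a i).natDegree = md a → a i = 0 := by
        intro i hi
        have h3 := hc i
        rw [← hi] at h3
        exact leadingCoeff_eq_zero.mp h3
      rcases max_choice (a 0).natDegree (a 1).natDegree with h3 | h3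
      · have h4 : a 0 = 0 := h2 0 h3.symm
        have h5 : md a = 0 := by
          show max _ _ = 0
          rw [h3, h4, natDegree_zero]
        have h6 : (a 1).natDegree ≤ 0 := by
          rw [← h5]
          exact le_max_right _ _
        have h7 : a 1 = 0 := h2 1 (by omega)
        rw [h4, h7] at ha
        exact not_isCoprime_zero_zero ha
      · have h4 : a 1 = 0 := h2 1 h3.symm
        have h5 : md a = 0 := by
          show max _ _ = 0
          rw [h3, h4, natDegree_zero]
        have h6 : (a 0).natDegree ≤ 0 := by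
          rw [← h5]
          exact le_max_left _ _
        have h7 : a 0 = 0 := h2 0 (by omega)
        rw [h4, h7] at ha
        exact not_isCoprime_zero_zero ha
    refine ⟨i, ?_⟩
    rw [Finset.sum_eq_single (md a)]
    · rw [Nat.sub_self, pow_zero, mul_one]
      exact mul_ne_zero ((_root_.map_ne_zero _).mpr hi) (pow_ne_zero _ h0)
    · intro k hk hne
      have hlt : k < md a := lt_of_le_of_ne (Nat.lt_succ_iff.mp (Finset.mem_range.mp hk)) hne
      rw [h1, zero_pow (by omega), mul_zero]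
    · intro hn
      exact absurd (Finset.mem_range.mpr (Nat.lt_succ_self _)) hn
  · have key : ∀ i, ∑ k ∈ Finset.range (md a + 1),
        algebraMap K F ((a i).coeff k) * β0 ^ k * β1 ^ (md a - k) =
        β1 ^ (md a) * aeval (β0 / β1) (a i) := by
      intro i
      rw [aeval_eq_sum_range' (hdeg i), Finset.mul_sum]
      refine Finset.sum_congr rfl fun k hk => ?_
      have hk' : k ≤ md a := Nat.lt_succ_iff.mp (Finset.mem_range.mp hk)
      have e1 : β1 ^ md a = β1 ^ (md a - k) * β1 ^ k := by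
        rw [← pow_add, Nat.sub_add_cancel hk']
      rw [e1, Algebra.smul_def, div_pow]
      field_simp
    obtain ⟨u, v, huv⟩ := ha
    by_contra hc
    push Not at hc
    have hz : ∀ i, aeval (β0 / β1) (a i) = 0 := by
      intro i
      have := hc i
      rw [key i] at this
      exact (mul_eq_zero.mp this).resolve_left (pow_ne_zero _ h1)
    have h2 := congrArg (aeval (β0 / β1)) huv
    rw [map_add, map_mul, map_mul, hz 0, hz 1, mul_zero, mul_zero, add_zero, map_one] at h2
    exact zero_ne_one h2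

private theorem OL_aeval {K F : Type} [Field K] [Field F] [Algebra K F] (m : ℕ) (p b0 b1 : K[X]) (t : F) :
    aeval t (OL_c m p b0 b1) =
      ∑ k ∈ Finset.range (m + 1), algebraMap K F (p.coeff k) * (aeval t b0) ^ k * (aeval t b1) ^ (m - k) := by
  unfold OL_c
  rw [map_sum]
  refine Finset.sum_congr rfl fun k _ => ?_
  rw [map_mul, map_mul, map_pow, map_pow, aeval_C]

private theorem OL_hom {K F : Type} [Field K] [Field F] [Algebra K F] {m : ℕ} {p : K[X]} (hp : p.natDegree ≤ m)
    (e s : F) : ∑ k ∈ Finset.range (m + 1), algebraMap K F (p.coeff k) * (e * s) ^ k * e ^ (m - k) =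
      e ^ m * aeval s p := by
  rw [aeval_eq_sum_range' (Nat.lt_succ_of_le hp), Finset.mul_sum]
  refine Finset.sum_congr rfl fun k hk => ?_
  have hk' : k ≤ m := Nat.lt_succ_iff.mp (Finset.mem_range.mp hk)
  have e1 : e ^ m = e ^ (m - k) * e ^ k := by
    rw [← pow_add, Nat.sub_add_cancel hk']
  rw [e1, Algebra.smul_def, mul_pow]
  ring

private theorem OL_cop {K : Type} [Field K] {a b : Fin 2 → K[X]} (ha : IsCoprime (a 0) (a 1))
    (hb : IsCoprime (b 0) (b 1)) :
    IsCoprime (OL_c (md a) (a 0) (b 0) (b 1)) (OL_c (md a) (a 1) (b 0) (b 1)) := by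
  refine (isCoprime_iff_aeval_ne_zero_of_isAlgClosed K (AlgebraicClosure K) _ _).mpr fun t => ?_
  have hβ : aeval t (b 0) ≠ 0 ∨ aeval t (b 1) ≠ 0 :=
    (isCoprime_iff_aeval_ne_zero_of_isAlgClosed K (AlgebraicClosure K) _ _).mp hb t
  obtain ⟨i, hi⟩ := OL_form ha (aeval t (b 0)) (aeval t (b 1)) hβ
  rw [OL_aeval, OL_aeval]
  fin_cases i
  · exact Or.inl hi
  · exact Or.inr hi

private theorem OL_term {K : Type} [Field K] {m k n : ℕ} (hk : k ≤ m) {b0 b1 : K[X]} (c : K)
    (h0 : b0.natDegree ≤ n) (h1 : b1.natDegree ≤ n) :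
    (C c * b0 ^ k * b1 ^ (m - k)).natDegree ≤ m * n ∧
      (C c * b0 ^ k * b1 ^ (m - k)).coeff (m * n) = c * (b0.coeff n) ^ k * (b1.coeff n) ^ (m - k) := by
  have hmn : m * n = k * n + (m - k) * n := by
    rw [← Nat.add_mul, Nat.add_sub_cancel' hk]
  have hp0 : (b0 ^ k).natDegree ≤ k * n := natDegree_pow_le_of_le k h0
  have hp1 : (b1 ^ (m - k)).natDegree ≤ (m - k) * n := natDegree_pow_le_of_le _ h1
  have hq0 : (C c * b0 ^ k).natDegree ≤ k * n := (natDegree_C_mul_le _ _).trans hp0
  constructor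
  · rw [hmn]
    exact natDegree_mul_le_of_le hq0 hp1
  · rw [hmn, coeff_mul_add_eq_of_natDegree_le hq0 hp1, coeff_C_mul,
      coeff_pow_of_natDegree_le h0, coeff_pow_of_natDegree_le h1]

private theorem OL_md {K : Type} [Field K] {a b : Fin 2 → K[X]} (ha : IsCoprime (a 0) (a 1))
    (hb : IsCoprime (b 0) (b 1)) :
    md ![OL_c (md a) (a 0) (b 0) (b 1), OL_c (md a) (a 1) (b 0) (b 1)] = md b * md a := by
  have hb0 : (b 0).natDegree ≤ md b := le_max_left _ _
  have hb1 : (b 1).natDegree ≤ md b := le_max_right _ _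
  have hle : ∀ i, (OL_c (md a) (a i) (b 0) (b 1)).natDegree ≤ md a * md b := by
    intro i
    refine natDegree_sum_le_of_forall_le _ _ fun k hk => ?_
    exact (OL_term (Nat.lt_succ_iff.mp (Finset.mem_range.mp hk)) _ hb0 hb1).1
  have hco : ∀ i, (OL_c (md a) (a i) (b 0) (b 1)).coeff (md a * md b) =
      ∑ k ∈ Finset.range (md a + 1), algebraMap K K ((a i).coeff k) *
        ((b 0).coeff (md b)) ^ k * ((b 1).coeff (md b)) ^ (md a - k) := by
    intro i
    unfold OL_c
    rw [finsetSum_coeff]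
    refine Finset.sum_congr rfl fun k hk => ?_
    exact (OL_term (Nat.lt_succ_iff.mp (Finset.mem_range.mp hk)) _ hb0 hb1).2
  have hβ : (b 0).coeff (md b) ≠ 0 ∨ (b 1).coeff (md b) ≠ 0 := by
    obtain ⟨i, hi⟩ := OL_form (F := K) hb (1 : K) 0 (Or.inl one_ne_zero)
    rw [Finset.sum_eq_single (md b)] at hi
    · rw [Nat.sub_self, pow_zero, mul_one, one_pow, mul_one] at hi
      fin_cases i
      · exact Or.inl hi
      · exact Or.inr hi
    · intro k hk hne
      have hlt : k < md b := lt_of_le_of_ne (Nat.lt_succ_iff.mp (Finset.mem_range.mp hk)) hne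
      rw [zero_pow (by omega), mul_zero]
    · intro hn
      exact absurd (Finset.mem_range.mpr (Nat.lt_succ_self _)) hn
  obtain ⟨i, hi⟩ := OL_form (F := K) ha _ _ hβ
  rw [← hco i] at hi
  have hge : md a * md b ≤ (OL_c (md a) (a i) (b 0) (b 1)).natDegree := le_natDegree_of_ne_zero hi
  have e : md ![OL_c (md a) (a 0) (b 0) (b 1), OL_c (md a) (a 1) (b 0) (b 1)] =
      max (OL_c (md a) (a 0) (b 0) (b 1)).natDegree (OL_c (md a) (a 1) (b 0) (b 1)).natDegree := rfl
  rw [e, mul_comm (md b)]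
  refine le_antisymm (max_le (hle 0) (hle 1)) ?_
  fin_cases i
  · exact hge.trans (le_max_left _ _)
  · exact hge.trans (le_max_right _ _)

private theorem OL_xRep {K : Type} [Field K] {A B : K} (τ : LL A B →ₐ[K] LL A B) (P : PL A B (LL A B)) (i : Fin 2) :
    (mp τ P).xRep i = τ (P.xRep i) := by
  classical
  rcases P with _ | ⟨z, w, h⟩
  · have h1 : mp τ (0 : PL A B (LL A B)) = 0 := mp_zero τ
    show (mp τ (0 : PL A B (LL A B))).xRep i = τ ((0 : PL A B (LL A B)).xRep i)
    rw [h1]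
    fin_cases i
    · exact (map_one τ).symm
    · exact (map_zero τ).symm
  · unfold mp
    rw [WeierstrassCurve.Affine.Point.map_some]
    fin_cases i
    · rfl
    · exact (map_one τ).symm

theorem dg_comp (h2 : (2 : K) ≠ 0) {A B : K} {g : PL A B (LL A B)} (hg : IsG g) {P Q : PL A B (LL A B)} (hP : OPt P)
    (hQ : OPt Q) {τ : LL A B →ₐ[K] LL A B} (hτ : mp τ g = Q) : OPt (mp τ P) ∧ dg (mp τ P) = dg Q * dg P := by
  classical
  obtain ⟨a, ha⟩ := Rx_odd h2 hP
  obtain ⟨b, hb⟩ := Rx_odd h2 hQ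
  obtain ⟨hg0, hg1⟩ := hg
  have hQs : ∃ h, Q = .some (τ (xL A B)) (τ (yL A B)) h := by
    rw [← hτ, hg1]
    unfold mp
    rw [WeierstrassCurve.Affine.Point.map_some]
    exact ⟨_, rfl⟩
  obtain ⟨hQ0, hQ1⟩ := hQs
  have hodd : OPt (mp τ P) := by
    intro σ hσy hσx
    have h3 := hQ σ hσy hσx
    rw [hQ1] at h3
    unfold mp at h3
    rw [WeierstrassCurve.Affine.Point.map_some, WeierstrassCurve.Affine.Point.neg_some] at h3
    obtain ⟨h4, h5⟩ := Point.some.inj h3
    have h6 : ((CW A B).baseChange (LL A B)).toAffine.negY (τ (xL A B)) (τ (yL A B)) = -τ (yL A B) := by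
      simp only [WeierstrassCurve.Affine.negY, CW, WeierstrassCurve.baseChange, WeierstrassCurve.map, map_zero,
        zero_mul, sub_zero]
    rw [h6] at h5
    have h7 : σ.comp τ = τ.comp σ := by
      refine hom_ext _ _ ?_ ?_
      · show σ (τ (xL A B)) = τ (σ (xL A B))
        rw [h4, hσx]
      · show σ (τ (yL A B)) = τ (σ (yL A B))
        rw [h5, hσy, map_neg]
    rw [mp_comp, h7, ← mp_comp, hP σ hσy hσx, mp_neg]
  refine ⟨hodd, ?_⟩
  obtain ⟨ha0, e', he', ha1⟩ := ha
  obtain ⟨hb0, e, he, hb1⟩ := hb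
  have hx0 : aeval (xL A B) (b 0) = e * τ (xL A B) := by
    rw [hb1 0, hQ1]
    rfl
  have hx1 : aeval (xL A B) (b 1) = e := by
    rw [hb1 1, hQ1]
    exact mul_one e
  have hR : Rx (mp τ P) ![OL_c (md a) (a 0) (b 0) (b 1), OL_c (md a) (a 1) (b 0) (b 1)] := by
    refine ⟨OL_cop ha0 hb0, e ^ md a * τ e', mul_ne_zero (pow_ne_zero _ he) ((_root_.map_ne_zero τ).mpr he'), ?_⟩
    have hd : ∀ i, (a i).natDegree ≤ md a := by
      intro i
      fin_cases i
      · exact le_max_left _ _
      · exact le_max_right _ _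
    have key : ∀ i, aeval (xL A B) (OL_c (md a) (a i) (b 0) (b 1)) = e ^ md a * τ e' * (mp τ P).xRep i := by
      intro i
      rw [OL_aeval, hx0, hx1, OL_hom (hd i), aeval_algHom_apply, ha1 i, map_mul, OL_xRep]
      ring
    intro i
    fin_cases i
    · exact key 0
    · exact key 1
  rw [dg_eq hR, dg_eq (⟨ha0, e', he', ha1⟩ : Rx P a), dg_eq (⟨hb0, e, he, hb1⟩ : Rx Q b), OL_md ha0 hb0]

end OCM
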