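import Mathlib

/-!
# LEAF OM0: symmetric forms of two points of the projective line

`hf m a x u` is the form of degree `m` of the polynomial `a` at `(x, u)`.
PROOF.  Linear in `(a, b)`, so for `a = X ^ i`, `b = X ^ j`, `i ≤ j ≤ m` (both sides are symmetric in `a`, `b`): `x₁^i u₁^(m-i) x₂^j u₂^(m-j) + x₁^j u₁^(m-j) x₂^i u₂^(m-i) = (x₁ x₂)^i (u₁ u₂)^(m-j) ((x₂ u₁)^(j-i) + (x₁ u₂)^(j-i))`, and `α^k + β^k` with `α = x₁ u₂`, `β = x₂ u₁` is a form of degree `k` in `s₀ = x₁ x₂`, `s₁ = α + β`, `s₂ = u₁ u₂` (`α β = s₀ s₂`): induction, `p_0 = 2`, `p_1 = s₁`, `p_(k+2) = s₁ p_(k+1) - s₀ s₂ p_k`.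
The sum over the pairs `(i, j)` of the monomials of `a`, `b`: `H = ∑_(i, j) a_i b_j H_(i, j)`, each `H_(i, j)` homogeneous of degree `m`.
-/

set_option autoImplicit false

namespace OCM

open Polynomial

/-- the form of degree `m` of the polynomial `a` at `(x, u)` -/
noncomputable def hf {K F : Type} [Field K] [Field F] [Algebra K F] (m : ℕ) (a : K[X]) (x u : F) : F :=
  ∑ k ∈ Finset.range (m + 1), algebraMap K F (a.coeff k) * x ^ k * u ^ (m - k)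

private theorem OM0_pw (K : Type) [Field K] (k : ℕ) : ∃ P : MvPolynomial (Fin 3) K, P.IsHomogeneous k ∧
    ∀ (F : Type) [Field F] [Algebra K F] (x₁ u₁ x₂ u₂ : F),
      (x₁ * u₂) ^ k + (x₂ * u₁) ^ k =
        MvPolynomial.aeval ![x₁ * x₂, x₁ * u₂ + x₂ * u₁, u₁ * u₂] P := by
  induction k using Nat.twoStepInduction with
  | zero =>
    refine ⟨MvPolynomial.C 2, MvPolynomial.isHomogeneous_C _ _, ?_⟩
    intro F _ _ x₁ u₁ x₂ u₂
    rw [MvPolynomial.aeval_C, map_ofNat]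
    norm_num
  | one =>
    refine ⟨MvPolynomial.X 1, MvPolynomial.isHomogeneous_X _ _, ?_⟩
    intro F _ _ x₁ u₁ x₂ u₂
    rw [MvPolynomial.aeval_X]
    simp
  | more k h0 h1 =>
    obtain ⟨P, hP, hP'⟩ := h0
    obtain ⟨Q, hQ, hQ'⟩ := h1
    refine ⟨MvPolynomial.X 1 * Q - MvPolynomial.X 0 * MvPolynomial.X 2 * P, ?_, ?_⟩
    · have e1 := (MvPolynomial.isHomogeneous_X K (1 : Fin 3)).mul hQ
      have e2 := ((MvPolynomial.isHomogeneous_X K (0 : Fin 3)).mul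
        (MvPolynomial.isHomogeneous_X K (2 : Fin 3))).mul hP
      rw [show 1 + (k + 1) = k + 2 from by ring] at e1
      rw [show 1 + 1 + k = k + 2 from by ring] at e2
      exact e1.sub e2
    · intro F _ _ x₁ u₁ x₂ u₂
      rw [map_sub, map_mul, map_mul, map_mul, ← hP' F x₁ u₁ x₂ u₂, ← hQ' F x₁ u₁ x₂ u₂,
        MvPolynomial.aeval_X, MvPolynomial.aeval_X, MvPolynomial.aeval_X]
      simp only [Matrix.cons_val_zero, Matrix.cons_val_one, Matrix.cons_val]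
      ring

private theorem OM0_mono (K : Type) [Field K] (m i j : ℕ) (hij : i ≤ j) (hj : j ≤ m) :
    ∃ H : MvPolynomial (Fin 3) K, H.IsHomogeneous m ∧
    ∀ (F : Type) [Field F] [Algebra K F] (x₁ u₁ x₂ u₂ : F),
      x₁ ^ i * u₁ ^ (m - i) * (x₂ ^ j * u₂ ^ (m - j)) + x₁ ^ j * u₁ ^ (m - j) * (x₂ ^ i * u₂ ^ (m - i)) =
        MvPolynomial.aeval ![x₁ * x₂, x₁ * u₂ + x₂ * u₁, u₁ * u₂] H := by
  obtain ⟨P, hP, hP'⟩ := OM0_pw K (j - i)
  refine ⟨MvPolynomial.X 0 ^ i * MvPolynomial.X 2 ^ (m - j) * P, ?_, ?_⟩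
  · have e1 := (((MvPolynomial.isHomogeneous_X K (0 : Fin 3)).pow i).mul
      ((MvPolynomial.isHomogeneous_X K (2 : Fin 3)).pow (m - j))).mul hP
    rw [show 1 * i + 1 * (m - j) + (j - i) = m from by omega] at e1
    exact e1
  · intro F _ _ x₁ u₁ x₂ u₂
    rw [map_mul, map_mul, map_pow, map_pow, ← hP' F x₁ u₁ x₂ u₂, MvPolynomial.aeval_X,
      MvPolynomial.aeval_X]
    simp only [Matrix.cons_val_zero, Matrix.cons_val]
    obtain ⟨d, rfl⟩ := Nat.exists_eq_add_of_le hij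
    obtain ⟨e, rfl⟩ := Nat.exists_eq_add_of_le hj
    rw [show i + d + e - i = d + e from by omega, show i + d + e - (i + d) = e from by omega,
      show i + d - i = d from by omega]
    ring

private theorem OM0_mono' (K : Type) [Field K] (m i j : ℕ) (hi : i ≤ m) (hj : j ≤ m) :
    ∃ H : MvPolynomial (Fin 3) K, H.IsHomogeneous m ∧
    ∀ (F : Type) [Field F] [Algebra K F] (x₁ u₁ x₂ u₂ : F),
      x₁ ^ i * u₁ ^ (m - i) * (x₂ ^ j * u₂ ^ (m - j)) + x₁ ^ j * u₁ ^ (m - j) * (x₂ ^ i * u₂ ^ (m - i)) =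
        MvPolynomial.aeval ![x₁ * x₂, x₁ * u₂ + x₂ * u₁, u₁ * u₂] H := by
  rcases le_total i j with h | h
  · exact OM0_mono K m i j h hj
  · obtain ⟨H, hH, hH'⟩ := OM0_mono K m j i h hi
    refine ⟨H, hH, ?_⟩
    intro F _ _ x₁ u₁ x₂ u₂
    rw [← hH' F x₁ u₁ x₂ u₂, add_comm]

theorem sym_form {K : Type} [Field K] (m : ℕ) (a b : K[X]) : ∃ H : MvPolynomial (Fin 3) K, H.IsHomogeneous m ∧
    ∀ (F : Type) [Field F] [Algebra K F] (x₁ u₁ x₂ u₂ : F),
      hf m a x₁ u₁ * hf m b x₂ u₂ + hf m b x₁ u₁ * hf m a x₂ u₂ =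
        MvPolynomial.aeval ![x₁ * x₂, x₁ * u₂ + x₂ * u₁, u₁ * u₂] H := by
  classical
  have h0 : ∀ i j : ℕ, ∃ H : MvPolynomial (Fin 3) K, H.IsHomogeneous m ∧ (i ≤ m → j ≤ m →
      ∀ (F : Type) [Field F] [Algebra K F] (x₁ u₁ x₂ u₂ : F),
        x₁ ^ i * u₁ ^ (m - i) * (x₂ ^ j * u₂ ^ (m - j)) + x₁ ^ j * u₁ ^ (m - j) * (x₂ ^ i * u₂ ^ (m - i)) =
          MvPolynomial.aeval ![x₁ * x₂, x₁ * u₂ + x₂ * u₁, u₁ * u₂] H) := by
    intro i j
    by_cases hi : i ≤ m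
    · by_cases hj : j ≤ m
      · obtain ⟨H, hH, hH'⟩ := OM0_mono' K m i j hi hj
        exact ⟨H, hH, fun _ _ => hH'⟩
      · exact ⟨0, MvPolynomial.isHomogeneous_zero _ _ _, fun _ h => absurd h hj⟩
    · exact ⟨0, MvPolynomial.isHomogeneous_zero _ _ _, fun h => absurd h hi⟩
  choose H hH hH' using h0
  refine ⟨∑ i ∈ Finset.range (m + 1), ∑ j ∈ Finset.range (m + 1),
    MvPolynomial.C (a.coeff i * b.coeff j) * H i j, ?_, ?_⟩
  · refine MvPolynomial.IsHomogeneous.sum _ _ _ fun i _ => MvPolynomial.IsHomogeneous.sum _ _ _ fun j _ => ?_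
    have e1 := (MvPolynomial.isHomogeneous_C (Fin 3) (a.coeff i * b.coeff j)).mul (hH i j)
    rwa [zero_add] at e1
  · intro F _ _ x₁ u₁ x₂ u₂
    have h1 : hf m b x₁ u₁ * hf m a x₂ u₂ = ∑ i ∈ Finset.range (m + 1), ∑ j ∈ Finset.range (m + 1),
        algebraMap K F (a.coeff i * b.coeff j) *
          (x₁ ^ j * u₁ ^ (m - j) * (x₂ ^ i * u₂ ^ (m - i))) := by
      rw [Finset.sum_comm]
      unfold hf
      rw [Finset.sum_mul_sum]
      refine Finset.sum_congr rfl fun i _ => Finset.sum_congr rfl fun j _ => ?_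
      rw [map_mul]
      ring
    have h2 : hf m a x₁ u₁ * hf m b x₂ u₂ = ∑ i ∈ Finset.range (m + 1), ∑ j ∈ Finset.range (m + 1),
        algebraMap K F (a.coeff i * b.coeff j) *
          (x₁ ^ i * u₁ ^ (m - i) * (x₂ ^ j * u₂ ^ (m - j))) := by
      unfold hf
      rw [Finset.sum_mul_sum]
      refine Finset.sum_congr rfl fun i _ => Finset.sum_congr rfl fun j _ => ?_
      rw [map_mul]
      ring
    rw [h1, h2, ← Finset.sum_add_distrib, map_sum]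
    refine Finset.sum_congr rfl fun i hi => ?_
    rw [← Finset.sum_add_distrib, map_sum]
    refine Finset.sum_congr rfl fun j hj => ?_
    rw [map_mul (MvPolynomial.aeval _), MvPolynomial.aeval_C, ← hH' i j (Nat.lt_succ_iff.1 (Finset.mem_range.1 hi))
      (Nat.lt_succ_iff.1 (Finset.mem_range.1 hj)) F x₁ u₁ x₂ u₂, mul_add]

end OCM
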