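import Pool.Agent.Lib.MP_17a322_ntOC.OG
import Pool.Agent.Lib.MP_17a322_ntOC.OM0

/-!
# LEAF OM1a: the coordinate of a composite as a form; even points

PROOF.  `form_comp`: `Q` is not a constant point; `Q = mp τ g = some (τ x) (τ y)` (`IsG`, `Point.map_some`), `Q.xRep = ![τ x, 1]`, and `hf m (a i) (τ x) 1 = aeval (τ x) (a i)` (`Polynomial.aeval_eq_sum_range'`, the degree of `a i` is at most `md a`) `= τ (aeval x (a i)) = τ (e₀ * P.xRep i) = τ e₀ * (mp τ P).xRep i`, where `e₀` is from `Rx P a` (`(mp τ P).xRep i = τ (P.xRep i)`: cases on `P`); `τ e₀ ≠ 0`.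
`Rx_even`: `V = 0`: `![1, 0]`.  `V = some z w`: `σ z = z`, so `z = r(x)` (`fixed_sigma`), take `![r.num, r.denom]` (as in the proof of `Rx_odd`).
`hf_smul`: homogeneity.
-/

set_option autoImplicit false

namespace OCM

open Polynomial WeierstrassCurve.Affine

theorem hf_smul {K F : Type} [Field K] [Field F] [Algebra K F] (m : ℕ) (a : K[X]) (e x u : F) :
    hf m a (e * x) (e * u) = e ^ m * hf m a x u := by
  unfold hf
  rw [Finset.mul_sum]
  refine Finset.sum_congr rfl fun k hk => ?_
  rw [Finset.mem_range] at hk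
  have h1 : e ^ m = e ^ k * e ^ (m - k) := by
    rw [← pow_add, Nat.add_sub_cancel' (by omega)]
  rw [mul_pow, mul_pow, h1]
  ring

private theorem OM1a_hf {K F : Type} [Field K] [Field F] [Algebra K F] {m : ℕ} {a : K[X]}
    (h : a.natDegree ≤ m) (x : F) : hf m a x 1 = aeval x a := by
  unfold hf
  rw [aeval_eq_sum_range' (lt_of_le_of_lt h (Nat.lt_succ_self m))]
  refine Finset.sum_congr rfl fun k _ => ?_
  rw [one_pow, mul_one, Algebra.smul_def]

variable {K : Type} [Field K]

theorem form_comp {A B : K} {g : PL A B (LL A B)} (hg : IsG g) {P : PL A B (LL A B)} {a : Fin 2 → K[X]} (ha : Rx P a)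
    {τ : LL A B →ₐ[K] LL A B} : ∃ e : LL A B, e ≠ 0 ∧ ∀ i,
      hf (md a) (a i) ((mp τ g).xRep 0) ((mp τ g).xRep 1) = e * (mp τ P).xRep i := by
  classical
  obtain ⟨-, e₀, he₀, h1⟩ := ha
  obtain ⟨h, rfl⟩ := hg
  have hm : ∀ i, (a i).natDegree ≤ md a := by
    intro i
    unfold md
    fin_cases i
    · exact le_max_left _ _
    · exact le_max_right _ _
  have hP : ∀ i, (mp τ P).xRep i = τ (P.xRep i) := by
    intro i
    rcases P with _ | ⟨z, w, hzw⟩
    · show (0 : PL A B (LL A B)).xRep i = τ ((0 : PL A B (LL A B)).xRep i)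
      rw [Point.xRep_zero]
      fin_cases i
      · show (1 : LL A B) = τ 1
        rw [map_one]
      · show (0 : LL A B) = τ 0
        rw [map_zero]
    · rw [mp, Point.map_some, Point.xRep_some, Point.xRep_some]
      fin_cases i
      · rfl
      · show (1 : LL A B) = τ 1
        rw [map_one]
  refine ⟨τ e₀, (map_ne_zero τ).2 he₀, fun i => ?_⟩
  rw [hP, ← map_mul, ← h1, mp, Point.map_some, Point.xRep_some]
  show hf (md a) (a i) (τ (xL A B)) 1 = _
  rw [OM1a_hf (hm i), aeval_algHom_apply]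

private theorem OM1a_rat {A B : K} (z w : LL A B) (h) (r : RatFunc K)
    (hr : z = algebraMap (RatFunc K) (LL A B) r) :
    Rx (.some z w h : PL A B (LL A B)) ![r.num, r.denom] := by
  have h5 : algebraMap K[X] (RatFunc K) r.denom ≠ 0 := by
    rw [Ne, FaithfulSMul.algebraMap_eq_zero_iff]
    exact r.denom_ne_zero
  refine ⟨r.isCoprime_num_denom,
    algebraMap (RatFunc K) (LL A B) (algebraMap K[X] (RatFunc K) r.denom), ?_, fun i => ?_⟩
  · rw [Ne, FaithfulSMul.algebraMap_eq_zero_iff]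
    exact h5
  · rw [Point.xRep_some]
    fin_cases i
    · show aeval (xL A B) r.num =
        algebraMap (RatFunc K) (LL A B) (algebraMap K[X] (RatFunc K) r.denom) * z
      rw [aeval_xL, hr, ← map_mul]
      congr 1
      have h6 := r.num_div_denom
      rw [div_eq_iff h5] at h6
      rw [h6, mul_comm]
    · show aeval (xL A B) r.denom =
        algebraMap (RatFunc K) (LL A B) (algebraMap K[X] (RatFunc K) r.denom) * 1
      rw [aeval_xL, mul_one]

theorem Rx_even (h2 : (2 : K) ≠ 0) {A B : K} {V : PL A B (LL A B)}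
    (hV : ∀ σ : LL A B →ₐ[K] LL A B, σ (yL A B) = -yL A B → σ (xL A B) = xL A B → mp σ V = V) : ∃ c, Rx V c := by
  classical
  obtain ⟨σ, h1, h3⟩ := sigma A B
  have h4 : σ (xL A B) = xL A B := h3 RatFunc.X
  have h5 := hV σ h1 h4
  rcases V with _ | ⟨z, w, hzw⟩
  · refine ⟨![1, 0], isCoprime_one_left, 1, one_ne_zero, fun i => ?_⟩
    rw [one_mul]
    fin_cases i
    · show aeval (xL A B) (1 : K[X]) = 1
      rw [map_one]
    · show aeval (xL A B) (0 : K[X]) = 0
      rw [map_zero]
  · rw [mp, Point.map_some, Point.some.injEq] at h5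
    obtain ⟨r, hr⟩ := fixed_sigma h2 σ h1 h4 z h5.1
    exact ⟨_, OM1a_rat z w hzw r hr⟩

end OCM
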