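import Pool.Agent.Lib.MP_17a322_ntOC.OH
import Pool.Agent.Lib.MP_17a322_ntOC.OM1a

/-!
# LEAF OM1b: the sum of two translates of a point

PROOF.  Let `V = mp τ P + mp τ' P`, `V' = mp τ P - mp τ' P`, `σ` the involution (`sigma`).  `σ ∘ τ = τ' ∘ σ` (`gen_ext`: `mp σ (mp τ g) = mp σ (g + cst T) = - g + cst T`, `mp τ' (mp σ g) = mp τ' (- g) = - (g - cst T)`; `opt`-type computation of `mp σ g = - g` from `IsG`; any `σ` as in `OPt`), so `σ (τ P) = τ' (σ P) = - τ' P`, `σ (τ' P) = - τ P`.  So `V` is odd and `V'` is even: `Rx V b` (`Rx_odd`), `Rx V' c` (`Rx_even`).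
Let `Rx P a`, `m = md a = dg P` (`dg_eq`).  `s = sy (g + cst T).xRep (g - cst T).xRep`.  By `addsub` (`L = LL A B`, the points `g`, `cst T`) `GG (sy g.xRep (cst T).xRep) = e₁ * s`, `e₁ ≠ 0`, and `g.xRep = ![x, 1]`, `(cst T).xRep = ![t, 1]` or `![1, 0]` with constants, so `GG (sy g.xRep (cst T).xRep) i = aeval x (Γ i)` for polynomials `Γ i` of degree at most `2` (`Γ = GG (C A) (C B) (sy ![X, 1] ![C t, 1])`, or with `![1, 0]`).
`form_comp` for `τ` and for `τ'` and `sym_form` (for `(a 0, a 0)`, `(a 0, a 1)`, `(a 1, a 1)`): forms `H₀`, `H₁`, `H₂` of degree `m` with `2 e₂ * sy (mp τ P).xRep (mp τ' P).xRep i = H_i(s)` up to the factor `2` for `i = 1` (`H₀(s) = 2 e₂ (..) 0`, `H₁(s) = e₂ (..) 1`, `H₂(s) = 2 e₂ (..) 2`; put `S₀ = H₀(Γ)`, `S₁ = 2 H₁(Γ)`, `S₂ = H₂(Γ)` in `K[X]`), so `S_i(x) = e₃ * sy (mp τ P).xRep (mp τ' P).xRep i` with `e₃ = 2 e₂ e₁ ^ m ≠ 0` (`MvPolynomial.IsHomogeneous`), and `natDegree (S_i) ≤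 2 m` (a form of degree `m` at polynomials of degree at most `2`).
`addsub` for `mp τ P`, `mp τ' P`: `GG (sy ..) = e₄ * sy V.xRep V'.xRep`, so `GG (C A) (C B) S` at `x` is `e₅ * sy V.xRep V'.xRep` and `G_i * (sy b c)_j = G_j * (sy b c)_i` in `K[X]` (`xL_tr`), where `G = GG (C A) (C B) S` has `mt G ≤ 4 m`, `G ≠ 0` (`sy V.xRep V'.xRep ≠ 0`, as in the proof of `Rx_par`).
So by `sy_cop`, `mt_le`, `mt_sy`: `md b + md c = mt (sy b c) ≤ mt G ≤ 4 m`.
-/

set_option autoImplicit false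

namespace OCM

open Polynomial WeierstrassCurve.Affine

variable {K : Type} [Field K]

private theorem OM1b_sy {R : Type} [CommRing R] (e₁ e₂ : R) (a b : Fin 2 → R) (i : Fin 3) :
    sy (fun i => e₁ * a i) (fun i => e₂ * b i) i = e₁ * e₂ * sy a b i := by
  fin_cases i
  · show e₁ * a 0 * (e₂ * b 0) = e₁ * e₂ * (a 0 * b 0)
    ring
  · show e₁ * a 0 * (e₂ * b 1) + e₁ * a 1 * (e₂ * b 0) = e₁ * e₂ * (a 0 * b 1 + a 1 * b 0)
    ring
  · show e₁ * a 1 * (e₂ * b 1) = e₁ * e₂ * (a 1 * b 1)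
    ring

private theorem OM1b_GG {R : Type} [CommRing R] (A B e : R) (v : Fin 3 → R) (i : Fin 3) :
    GG A B (fun i => e * v i) i = e ^ 2 * GG A B v i := by
  fin_cases i
  · show (e * v 0 - A * (e * v 2)) ^ 2 - 4 * B * (e * v 1) * (e * v 2) =
      e ^ 2 * ((v 0 - A * v 2) ^ 2 - 4 * B * v 1 * v 2)
    ring
  · show 2 * (e * v 1 * (e * v 0 + A * (e * v 2)) + 2 * B * (e * v 2) ^ 2) =
      e ^ 2 * (2 * (v 1 * (v 0 + A * v 2) + 2 * B * v 2 ^ 2))
    ring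
  · show (e * v 1) ^ 2 - 4 * (e * v 0) * (e * v 2) = e ^ 2 * (v 1 ^ 2 - 4 * v 0 * v 2)
    ring

private theorem OM1b_map_sy {R S : Type} [CommRing R] [CommRing S] (f : R →+* S) (a b : Fin 2 → R) (i : Fin 3) :
    f (sy a b i) = sy (fun i => f (a i)) (fun i => f (b i)) i := by
  fin_cases i
  · show f (a 0 * b 0) = f (a 0) * f (b 0)
    rw [map_mul]
  · show f (a 0 * b 1 + a 1 * b 0) = f (a 0) * f (b 1) + f (a 1) * f (b 0)
    rw [map_add, map_mul, map_mul]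
  · show f (a 1 * b 1) = f (a 1) * f (b 1)
    rw [map_mul]

private theorem OM1b_map_GG {R S : Type} [CommRing R] [CommRing S] (f : R →+* S) (A B : R) (v : Fin 3 → R)
    (i : Fin 3) : f (GG A B v i) = GG (f A) (f B) (fun i => f (v i)) i := by
  fin_cases i
  · show f ((v 0 - A * v 2) ^ 2 - 4 * B * v 1 * v 2) =
      (f (v 0) - f A * f (v 2)) ^ 2 - 4 * f B * f (v 1) * f (v 2)
    simp only [map_sub, map_mul, map_pow, map_ofNat]
  · show f (2 * (v 1 * (v 0 + A * v 2) + 2 * B * v 2 ^ 2)) =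
      2 * (f (v 1) * (f (v 0) + f A * f (v 2)) + 2 * f B * f (v 2) ^ 2)
    simp only [map_add, map_mul, map_pow, map_ofNat]
  · show f (v 1 ^ 2 - 4 * v 0 * v 2) = f (v 1) ^ 2 - 4 * f (v 0) * f (v 2)
    simp only [map_sub, map_mul, map_pow, map_ofNat]

private theorem OM1b_inj (A B : K) : Function.Injective (aeval (xL A B) : K[X] →ₐ[K] LL A B) :=
  transcendental_iff_injective.1 (xL_tr A B)

private theorem OM1b_vec2 {R : Type} [Zero R] {u : Fin 2 → R} (h0 : u 0 = 0) (h1 : u 1 = 0) : u = 0 := by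
  funext i
  fin_cases i
  · exact h0
  · exact h1

private theorem OM1b_sy_ne {F : Type} [Field F] {u v : Fin 2 → F} (hu : u ≠ 0) (hv : v ≠ 0) : sy u v ≠ 0 := by
  intro h
  have h0 : u 0 * v 0 = 0 := congrFun h 0
  have h1 : u 0 * v 1 + u 1 * v 0 = 0 := congrFun h 1
  have h2 : u 1 * v 1 = 0 := congrFun h 2
  rcases mul_eq_zero.1 h0 with h3 | h3
  · rw [h3, zero_mul, zero_add] at h1
    have h4 : u 1 ≠ 0 := fun h4 => hu (OM1b_vec2 h3 h4)
    exact hv (OM1b_vec2 ((mul_eq_zero.1 h1).resolve_left h4) ((mul_eq_zero.1 h2).resolve_left h4))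
  · rw [h3, mul_zero, add_zero] at h1
    have h4 : v 1 ≠ 0 := fun h4 => hv (OM1b_vec2 h3 h4)
    exact hu (OM1b_vec2 ((mul_eq_zero.1 h1).resolve_right h4) ((mul_eq_zero.1 h2).resolve_right h4))

private theorem OM1b_sum {H : MvPolynomial (Fin 3) K} {m : ℕ} (hH : H.IsHomogeneous m) {d : Fin 3 →₀ ℕ}
    (hd : d ∈ H.support) : ∑ i, d i = m := by
  have h1 := hH (MvPolynomial.mem_support_iff.1 hd)
  rw [← h1, ← Finsupp.degree_eq_sum, Finsupp.degree_eq_weight_one]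
  rfl

private theorem OM1b_scale {S : Type} [CommRing S] [Algebra K S] {H : MvPolynomial (Fin 3) K} {m : ℕ}
    (hH : H.IsHomogeneous m) (e : S) (s : Fin 3 → S) :
    MvPolynomial.aeval (fun i => e * s i) H = e ^ m * MvPolynomial.aeval s H := by
  rw [MvPolynomial.aeval_def, MvPolynomial.aeval_def, MvPolynomial.eval₂_eq', MvPolynomial.eval₂_eq',
    Finset.mul_sum]
  refine Finset.sum_congr rfl fun d hd => ?_
  have h1 : ∏ i, (e * s i) ^ d i = e ^ m * ∏ i, s i ^ d i := by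
    rw [← OM1b_sum hH hd, ← Finset.prod_pow_eq_pow_sum, ← Finset.prod_mul_distrib]
    exact Finset.prod_congr rfl fun i _ => mul_pow _ _ _
  rw [h1]
  ring

private theorem OM1b_deg {H : MvPolynomial (Fin 3) K} {m n : ℕ} (hH : H.IsHomogeneous m) {Γ : Fin 3 → K[X]}
    (hΓ : ∀ i, (Γ i).natDegree ≤ n) : (MvPolynomial.aeval Γ H).natDegree ≤ n * m := by
  rw [MvPolynomial.aeval_def, MvPolynomial.eval₂_eq']
  refine natDegree_sum_le_of_forall_le _ _ fun d hd => ?_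
  refine (natDegree_C_mul_le _ _).trans ?_
  refine (natDegree_prod_le _ _).trans ?_
  rw [← OM1b_sum hH hd, Finset.mul_sum]
  refine Finset.sum_le_sum fun i _ => ?_
  refine natDegree_pow_le.trans ?_
  rw [Nat.mul_comm]
  exact Nat.mul_le_mul_right _ (hΓ i)

private theorem OM1b_cst {A B : K} (T : PL A B K) (i : Fin 2) :
    (cst T : PL A B (LL A B)).xRep i = algebraMap K (LL A B) (T.xRep i) := by
  classical
  rcases T with _ | ⟨a, b, hab⟩
  · have h1 : (cst (Point.zero : PL A B K) : PL A B (LL A B)) = 0 :=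
      map_zero (Point.map (Algebra.ofId K (LL A B)))
    rw [h1]
    fin_cases i
    · show (1 : LL A B) = algebraMap K (LL A B) 1
      rw [map_one]
    · show (0 : LL A B) = algebraMap K (LL A B) 0
      rw [map_zero]
  · fin_cases i
    · rfl
    · show (1 : LL A B) = algebraMap K (LL A B) 1
      rw [map_one]

private theorem OM1b_mt_le (v : Fin 3 → K[X]) (i : Fin 3) : (v i).natDegree ≤ mt v := by
  unfold mt
  fin_cases i
  · exact le_max_left _ _
  · exact (le_max_left _ _).trans (le_max_right _ _)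
  · exact (le_max_right _ _).trans (le_max_right _ _)

private theorem OM1b_Gam (h2 : (2 : K) ≠ 0) {A B : K} (hd : 4 * A ^ 3 + 27 * B ^ 2 ≠ 0)
    {g : PL A B (LL A B)} (hg : IsG g) (T : PL A B K) : ∃ Γ : Fin 3 → K[X],
      (∀ i, (Γ i).natDegree ≤ 2) ∧ ∀ i, aeval (xL A B) (Γ i) =
        GG (algebraMap K (LL A B) A) (algebraMap K (LL A B) B) (sy g.xRep (cst T).xRep) i := by
  refine ⟨GG (C A) (C B) (sy ![X, 1] (fun i => C (T.xRep i))), fun i => ?_, fun i => ?_⟩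
  · have ha : (![X, 1] : Fin 2 → K[X]) ≠ 0 := fun h => one_ne_zero (congrFun h 1)
    have hb : (fun i => C (T.xRep i) : Fin 2 → K[X]) ≠ 0 := by
      intro h
      refine Point.xRep_ne_zero T (funext fun i => ?_)
      exact C_eq_zero.1 (congrFun h i)
    have h3 : mt (sy ![X, 1] (fun i => C (T.xRep i))) = 1 := by
      have h4 : md (![X, 1] : Fin 2 → K[X]) = 1 := by
        show max (X : K[X]).natDegree (1 : K[X]).natDegree = 1
        rw [natDegree_X, natDegree_one]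
        rfl
      have h5 : md (fun i => C (T.xRep i) : Fin 2 → K[X]) = 0 := by
        show max (C (T.xRep 0)).natDegree (C (T.xRep 1)).natDegree = 0
        rw [natDegree_C, natDegree_C]
        rfl
      rw [mt_sy ha hb, h4, h5]
    have h6 : sy ![X, 1] (fun i => C (T.xRep i)) ≠ 0 := by
      intro h6
      rw [h6] at h3
      have h7 : mt (0 : Fin 3 → K[X]) = 0 := by
        unfold mt
        rw [Pi.zero_apply, Pi.zero_apply, Pi.zero_apply, natDegree_zero]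
        rfl
      omega
    have h7 := mt_GG h2 hd h6
    rw [h3] at h7
    exact (OM1b_mt_le _ i).trans h7.le
  · have h3 := OM1b_map_GG ((aeval (xL A B) : K[X] →ₐ[K] LL A B) : K[X] →+* LL A B) (C A) (C B)
      (sy ![X, 1] (fun i => C (T.xRep i))) i
    have h6 : ((aeval (xL A B) : K[X] →ₐ[K] LL A B) : K[X] →+* LL A B) (C A) = algebraMap K (LL A B) A :=
      aeval_C (xL A B) A
    have h6' : ((aeval (xL A B) : K[X] →ₐ[K] LL A B) : K[X] →+* LL A B) (C B) = algebraMap K (LL A B) B :=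
      aeval_C (xL A B) B
    have h4 : (fun i => ((aeval (xL A B) : K[X] →ₐ[K] LL A B) : K[X] →+* LL A B)
        ((![X, 1] : Fin 2 → K[X]) i)) = g.xRep := by
      obtain ⟨h, rfl⟩ := hg
      rw [Point.xRep_some]
      funext i
      fin_cases i
      · show aeval (xL A B) (X : K[X]) = xL A B
        rw [aeval_X]
      · show aeval (xL A B) (1 : K[X]) = 1
        rw [map_one]
    have h5 : (fun i => ((aeval (xL A B) : K[X] →ₐ[K] LL A B) : K[X] →+* LL A B)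
        ((fun i => C (T.xRep i) : Fin 2 → K[X]) i)) = (cst T : PL A B (LL A B)).xRep := by
      funext i
      rw [OM1b_cst]
      exact aeval_C (xL A B) (T.xRep i)
    have h7 : (fun i => ((aeval (xL A B) : K[X] →ₐ[K] LL A B) : K[X] →+* LL A B)
        (sy ![X, 1] (fun i => C (T.xRep i)) i)) = sy g.xRep (cst T : PL A B (LL A B)).xRep := by
      funext i
      rw [OM1b_map_sy, h4, h5]
    rw [h7, h6, h6'] at h3
    exact h3

/-- the coordinates of the two translates as forms in `x` -/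
private theorem OM1b_S (h2 : (2 : K) ≠ 0) {A B : K}
    {s : Fin 3 → LL A B} {Γ : Fin 3 → K[X]} (hΓ : ∀ i, (Γ i).natDegree ≤ 2) {e₁ : LL A B} (he₁ : e₁ ≠ 0)
    (hΓs : ∀ i, aeval (xL A B) (Γ i) = e₁ * s i) {Q Q' : Fin 2 → LL A B} (hs : s = sy Q Q')
    {P P' : Fin 2 → LL A B} {a : Fin 2 → K[X]} {e e' : LL A B} (he : e ≠ 0) (he' : e' ≠ 0)
    (hP : ∀ i, hf (md a) (a i) (Q 0) (Q 1) = e * P i) (hP' : ∀ i, hf (md a) (a i) (Q' 0) (Q' 1) = e' * P' i) :
    ∃ S : Fin 3 → K[X], mt S ≤ 2 * md a ∧ ∃ e₃ : LL A B, e₃ ≠ 0 ∧ ∀ i,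
      aeval (xL A B) (S i) = e₃ * sy P P' i := by
  have h2L : (2 : LL A B) ≠ 0 := by
    rw [← map_ofNat (algebraMap K (LL A B)) 2]
    exact (_root_.map_ne_zero _).2 h2
  obtain ⟨H0, hH0, h0⟩ := sym_form (md a) (a 0) (a 0)
  obtain ⟨H1, hH1, h1⟩ := sym_form (md a) (a 0) (a 1)
  obtain ⟨H2, hH2, h3⟩ := sym_form (md a) (a 1) (a 1)
  have k0 := h0 (LL A B) (Q 0) (Q 1) (Q' 0) (Q' 1)
  have k1 := h1 (LL A B) (Q 0) (Q 1) (Q' 0) (Q' 1)
  have k2 := h3 (LL A B) (Q 0) (Q 1) (Q' 0) (Q' 1)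
  have hs' : (![Q 0 * Q' 0, Q 0 * Q' 1 + Q' 0 * Q 1, Q 1 * Q' 1] : Fin 3 → LL A B) = s := by
    rw [hs, mul_comm (Q' 0) (Q 1)]
    rfl
  rw [hs', hP, hP'] at k0
  rw [hs', hP, hP, hP', hP'] at k1
  rw [hs', hP, hP'] at k2
  have hae : ∀ {H : MvPolynomial (Fin 3) K}, H.IsHomogeneous (md a) →
      aeval (xL A B) (MvPolynomial.aeval Γ H) = e₁ ^ md a * MvPolynomial.aeval s H := by
    intro H hH
    rw [← OM1b_scale hH e₁ s, ← funext hΓs]
    exact MvPolynomial.comp_aeval_apply Γ (aeval (xL A B)) H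
  refine ⟨![MvPolynomial.aeval Γ H0, C 2 * MvPolynomial.aeval Γ H1, MvPolynomial.aeval Γ H2],
    max_le (OM1b_deg hH0 hΓ) (max_le ((natDegree_C_mul_le _ _).trans (OM1b_deg hH1 hΓ)) (OM1b_deg hH2 hΓ)),
    2 * (e₁ ^ md a * (e * e')), mul_ne_zero h2L (mul_ne_zero (pow_ne_zero _ he₁) (mul_ne_zero he he')),
    fun i => ?_⟩
  fin_cases i
  · show aeval (xL A B) (MvPolynomial.aeval Γ H0) = 2 * (e₁ ^ md a * (e * e')) * (P 0 * P' 0)
    rw [hae hH0, ← k0]
    ring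
  · show aeval (xL A B) (C 2 * MvPolynomial.aeval Γ H1) =
      2 * (e₁ ^ md a * (e * e')) * (P 0 * P' 1 + P 1 * P' 0)
    rw [map_mul, aeval_C, map_ofNat, hae hH1, ← k1]
    ring
  · show aeval (xL A B) (MvPolynomial.aeval Γ H2) = 2 * (e₁ ^ md a * (e * e')) * (P 1 * P' 1)
    rw [hae hH2, ← k2]
    ring

open Classical in
theorem dg_VT (h2 : (2 : K) ≠ 0) {A B : K} (hd : 4 * A ^ 3 + 27 * B ^ 2 ≠ 0) {g : PL A B (LL A B)} (hg : IsG g)
    {P : PL A B (LL A B)} (hP : OPt P) (T : PL A B K) {τ τ' : LL A B →ₐ[K] LL A B} (hτ : mp τ g = g + cst T)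
    (hτ' : mp τ' g = g - cst T) : OPt (mp τ P + mp τ' P) ∧ dg (mp τ P + mp τ' P) ≤ 4 * dg P := by
  -- the involution exchanges the two translates
  have key : ∀ σ : LL A B →ₐ[K] LL A B, σ (yL A B) = -yL A B → σ (xL A B) = xL A B →
      mp σ (mp τ P) = -mp τ' P ∧ mp σ (mp τ' P) = -mp τ P := by
    intro σ h1 h3
    have hgσ : mp σ g = -g := opt_g hg σ h1 h3
    have e1 : σ.comp τ = τ'.comp σ := by
      refine gen_ext hg ?_
      rw [← mp_comp, ← mp_comp, hτ, hgσ, mp_add, mp_neg, hgσ, mp_cst, hτ']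
      abel
    have e2 : σ.comp τ' = τ.comp σ := by
      refine gen_ext hg ?_
      rw [← mp_comp, ← mp_comp, hτ', hgσ, sub_eq_add_neg, mp_add, mp_neg, mp_neg, hgσ, mp_cst, hτ]
      abel
    rw [mp_comp, mp_comp, e1, e2, ← mp_comp, ← mp_comp, hP σ h1 h3, mp_neg, mp_neg]
    exact ⟨rfl, rfl⟩
  have hV : OPt (mp τ P + mp τ' P) := by
    intro σ h1 h3
    rw [mp_add, (key σ h1 h3).1, (key σ h1 h3).2]
    abel
  have hV' : ∀ σ : LL A B →ₐ[K] LL A B, σ (yL A B) = -yL A B → σ (xL A B) = xL A B →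
      mp σ (mp τ P - mp τ' P) = mp τ P - mp τ' P := by
    intro σ h1 h3
    rw [sub_eq_add_neg, mp_add, mp_neg, (key σ h1 h3).1, (key σ h1 h3).2]
    abel
  refine ⟨hV, ?_⟩
  obtain ⟨a, ha⟩ := Rx_odd h2 hP
  obtain ⟨b, hb⟩ := Rx_odd h2 hV
  obtain ⟨c, hc⟩ := Rx_even h2 hV'
  rw [dg_eq hb, dg_eq ha]
  obtain ⟨Γ, hΓ, hΓg⟩ := OM1b_Gam h2 hd hg T
  obtain ⟨e₁, he₁, h1⟩ := addsub h2 g (cst T)
  obtain ⟨e, he, h3⟩ := form_comp hg ha (τ := τ)
  obtain ⟨e', he', h4⟩ := form_comp hg ha (τ := τ')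
  obtain ⟨S, hS, e₃, he₃, h5⟩ := OM1b_S h2 hΓ he₁ (s := sy (g + cst T).xRep (g - cst T).xRep)
    (fun i => (hΓg i).trans (h1 i)) rfl he he' (fun i => by rw [← hτ]; exact h3 i)
    (fun i => by rw [← hτ']; exact h4 i)
  obtain ⟨e₄, he₄, h6⟩ := addsub h2 (mp τ P) (mp τ' P)
  have hS0 : S ≠ 0 := by
    intro h0
    refine OM1b_sy_ne (Point.xRep_ne_zero (mp τ P)) (Point.xRep_ne_zero (mp τ' P)) (funext fun i => ?_)
    have h7 := h5 i
    rw [h0, Pi.zero_apply, map_zero] at h7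
    exact (mul_eq_zero.1 h7.symm).resolve_left he₃
  have hG : ∀ i, aeval (xL A B) (GG (C A) (C B) S i) =
      e₃ ^ 2 * e₄ * sy (mp τ P + mp τ' P).xRep (mp τ P - mp τ' P).xRep i := by
    intro i
    have h7 := OM1b_map_GG ((aeval (xL A B) : K[X] →ₐ[K] LL A B) : K[X] →+* LL A B) (C A) (C B) S i
    have h8 : ((aeval (xL A B) : K[X] →ₐ[K] LL A B) : K[X] →+* LL A B) (C A) = algebraMap K (LL A B) A :=
      aeval_C (xL A B) A
    have h8' : ((aeval (xL A B) : K[X] →ₐ[K] LL A B) : K[X] →+* LL A B) (C B) = algebraMap K (LL A B) B :=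
      aeval_C (xL A B) B
    have h9 : (fun i => ((aeval (xL A B) : K[X] →ₐ[K] LL A B) : K[X] →+* LL A B) (S i)) =
        fun i => e₃ * sy (mp τ P).xRep (mp τ' P).xRep i := funext h5
    rw [h9, OM1b_GG, h8, h8', h6] at h7
    have h10 : aeval (xL A B) (GG (C A) (C B) S i) =
        ((aeval (xL A B) : K[X] →ₐ[K] LL A B) : K[X] →+* LL A B) (GG (C A) (C B) S i) := rfl
    rw [h10, h7]
    ring
  obtain ⟨hb0, eb, heb, hb1⟩ := hb
  obtain ⟨hc0, ec, hec, hc1⟩ := hc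
  have hbc : ∀ i, aeval (xL A B) (sy b c i) =
      eb * ec * sy (mp τ P + mp τ' P).xRep (mp τ P - mp τ' P).xRep i := by
    intro i
    have h7 := OM1b_map_sy ((aeval (xL A B) : K[X] →ₐ[K] LL A B) : K[X] →+* LL A B) b c i
    have h8 : (fun i => ((aeval (xL A B) : K[X] →ₐ[K] LL A B) : K[X] →+* LL A B) (b i)) =
        fun i => eb * (mp τ P + mp τ' P).xRep i := funext hb1
    have h9 : (fun i => ((aeval (xL A B) : K[X] →ₐ[K] LL A B) : K[X] →+* LL A B) (c i)) =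
        fun i => ec * (mp τ P - mp τ' P).xRep i := funext hc1
    rw [h8, h9, OM1b_sy] at h7
    exact h7
  have hne : ∀ {e : Fin 2 → K[X]}, IsCoprime (e 0) (e 1) → e ≠ 0 := by
    intro e he h0
    rw [h0] at he
    obtain ⟨u, v, huv⟩ := he
    rw [Pi.zero_apply, Pi.zero_apply, mul_zero, mul_zero, add_zero] at huv
    exact zero_ne_one huv
  have hG0 : GG (C A) (C B) S ≠ 0 := by
    intro h0
    refine OM1b_sy_ne (Point.xRep_ne_zero (mp τ P + mp τ' P)) (Point.xRep_ne_zero (mp τ P - mp τ' P))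
      (funext fun i => ?_)
    have h7 := hG i
    rw [h0, Pi.zero_apply, map_zero] at h7
    exact (mul_eq_zero.1 h7.symm).resolve_left (mul_ne_zero (pow_ne_zero 2 he₃) he₄)
  have h7 := mt_le (sy_cop hb0 hc0) hG0 fun i j => OM1b_inj A B (by
    rw [map_mul, map_mul, hG, hG, hbc, hbc]
    ring)
  rw [mt_sy (hne hb0) (hne hc0), mt_GG h2 hd hS0] at h7
  omega

end OCM
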