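import Pool.Agent.Lib.MP_17a322_ntOC.OH

/-!
# LEAF OM2: torsion points over the function field are constant

PROOF.  `tors_const`: otherwise (`hom_point`) `P = mp τ g` for some `τ`, and `mp τ (n • g) = n • P = 0` (`mp` is a homomorphism: `mp_add`, or `map_nsmul (Point.map τ)`), `mp τ` is injective (`Point.map_injective`), so `n • g = 0`; `dg_nsmul` for `g` (`opt_g`, `dg_g`): `n ^ 2 = dg (n • g) = dg 0 = 0`.
`cst_two`: if `cst T` is odd then `cst T = mp σ (cst T) = - cst T` (`mp_cst`, `sigma`), so `dg (cst T) = 0` (`dg_of_two`).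
-/

set_option autoImplicit false

namespace OCM

open Polynomial WeierstrassCurve.Affine

variable {K : Type} [Field K]

open Classical in
theorem tors_const (h2 : (2 : K) ≠ 0) {A B : K} (hd : 4 * A ^ 3 + 27 * B ^ 2 ≠ 0) {g : PL A B (LL A B)} (hg : IsG g)
    {P : PL A B (LL A B)} {n : ℕ} (hn : 0 < n) (h : n • P = 0) : ∃ T : PL A B K, P = cst T := by
  by_contra hc
  obtain ⟨τ, hτ⟩ := hom_point h2 hg P fun T hT => hc ⟨T, hT⟩
  have h3 : mp τ (n • g) = mp τ 0 := by
    have h4 : mp τ (n • g) = n • mp τ g := map_nsmul (Point.map τ) n g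
    rw [h4, hτ, h, mp_zero]
  have h5 : n • g = 0 := Point.map_injective τ h3
  have h6 := (dg_nsmul h2 hd (opt_g hg) n).2
  rw [h5, dg_zero, dg_g hg, mul_one] at h6
  exact (pow_pos hn 2).ne h6

theorem cst_two (h2 : (2 : K) ≠ 0) {A B : K} (hd : 4 * A ^ 3 + 27 * B ^ 2 ≠ 0) {T : PL A B K}
    (hT : OPt (cst T)) : dg (cst T) = 0 := by
  classical
  obtain ⟨σ, h1, h3⟩ := sigma A B
  have h4 := hT σ h1 (h3 RatFunc.X)
  rw [mp_cst] at h4
  refine dg_of_two h2 hd hT ?_
  exact eq_neg_iff_add_eq_zero.1 h4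

end OCM
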