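import Pool.Agent.Lib.MP_17a322_ntOC.OM1b
import Pool.Agent.Lib.MP_17a322_ntOC.OM2
import Pool.Agent.Lib.MP_17a322_ntOC.OK2

/-!
# LEAF OM3: a translate of an odd point of small degree

PROOF.  Let `τ'` be the translation by `- T` (`trans_exists` for `- T`, `cst_neg`).  `V = mp τ P + mp τ' P` is odd and `dg V ≤ 4 dg P` (`dg_VT`).  `W = V - (P + P)` is odd (`opt_sub`, `opt_add`), `dg W ≤ 2 dg V + 2 dg (P + P) ≤ 8 dg P + 8 dg P = 16 dg P < p` (`dg_par`; `dg (P + P) = 4 dg P`: `dg_nsmul`).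
`WT (mp τ g) 1` (`WT_add`, `WT_g`, `WT_cst`) and the same for `τ'`, so (`WT_comp`) `WT (mp τ P) (c * 1)`, `WT (mp τ' P) (c * 1)`, so `WT W (c + c - (c + c))`, `WT W 0` and (`WT_dvd`) `p ∣ dg W`, so `dg W = 0` and (`dg_two`) `W + W = 0`.
So `2 τP + 2 τ'P = 4 P` (1).  Let `u m = 2 • mp (τ ^ m) P` (`τ ^ m` the iterate: `mp (τ ^ m) g = g + m • cst T`, by induction with `mp_cst`; the monoid structure of `LL A B →ₐ[K] LL A B`, or define the iterates by recursion).  Apply `mp (τ ^ (m + 1))` to (1): `u (m + 2) + u m = 2 • u (m + 1)` (`τ ^ (m + 1) ∘ τ' = τ ^ m`: `gen_ext`).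
So `u m = u 0 + m • (u 1 - u 0)`.  `τ ^ n = id` (`gen_ext`, `n • T = 0`), so `n • (u 1 - u 0) = 0`, that is `(2 * n) • (mp τ P - P) = 0`; `tors_const`.
-/

set_option autoImplicit false

namespace OCM

open Polynomial WeierstrassCurve.Affine

variable {K : Type} [Field K]

open Classical in
private theorem OM3_id {A B : K} (P : PL A B (LL A B)) : mp (AlgHom.id K (LL A B)) P = P :=
  Point.map_id P

open Classical in
private theorem OM3_sub {A B : K} (τ : LL A B →ₐ[K] LL A B) (P Q : PL A B (LL A B)) :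
    mp τ (P - Q) = mp τ P - mp τ Q := by
  rw [sub_eq_add_neg, mp_add, mp_neg, ← sub_eq_add_neg]

open Classical in
private theorem OM3_nsmul {A B : K} (T : PL A B K) (n : ℕ) : cst (n • T) = n • cst T := by
  induction n with
  | zero =>
    rw [zero_nsmul, zero_nsmul]
    rfl
  | succ n ih => rw [succ_nsmul, succ_nsmul, cst_add, ih]

/-- the iterates -/
private noncomputable def OM3_it {A B : K} (τ : LL A B →ₐ[K] LL A B) : ℕ → (LL A B →ₐ[K] LL A B)
  | 0 => AlgHom.id K (LL A B)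
  | m + 1 => τ.comp (OM3_it τ m)

private theorem OM3_it_succ {A B : K} (τ : LL A B →ₐ[K] LL A B) (m : ℕ) (P : PL A B (LL A B)) :
    mp (OM3_it τ (m + 1)) P = mp τ (mp (OM3_it τ m) P) := by
  rw [mp_comp]
  rfl

open Classical in
private theorem OM3_it_g {A B : K} {g : PL A B (LL A B)} {T : PL A B K} {τ : LL A B →ₐ[K] LL A B}
    (hτ : mp τ g = g + cst T) (m : ℕ) : mp (OM3_it τ m) g = g + m • cst T := by
  induction m with
  | zero =>
    rw [zero_nsmul, add_zero]
    exact OM3_id g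
  | succ m ih =>
    have h1 : mp τ (m • cst T : PL A B (LL A B)) = m • cst T := by
      rw [← OM3_nsmul, mp_cst]
    rw [OM3_it_succ, ih, mp_add, h1, hτ, succ_nsmul]
    abel

open Classical in
theorem trans_psi (h2 : (2 : K) ≠ 0) (p : ℕ) [Fact p.Prime] [CharP K p] {A B : K} (hd : 4 * A ^ 3 + 27 * B ^ 2 ≠ 0)
    {g : PL A B (LL A B)} (hg : IsG g) {P : PL A B (LL A B)} (hP : OPt P) {c : K} (hW : WT P c) (hb : 16 * dg P < p)
    {T : PL A B K} {n : ℕ} (hn : 0 < n) (hT : n • T = 0) {τ : LL A B →ₐ[K] LL A B} (hτ : mp τ g = g + cst T) :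
    ∃ S : PL A B K, mp τ P = P + cst S := by
  obtain ⟨τ', hτ0⟩ := trans_exists h2 hg (-T)
  have hτ' : mp τ' g = g - cst T := by
    rw [hτ0, cst_neg, ← sub_eq_add_neg]
  obtain ⟨hV, hVd⟩ := dg_VT h2 hd hg hP T hτ hτ'
  obtain ⟨-, hPd⟩ := dg_nsmul h2 hd hP 2
  rw [two_nsmul] at hPd
  have hPP : OPt (P + P) := opt_add hP hP
  have hWo : OPt (mp τ P + mp τ' P - (P + P)) := opt_sub hV hPP
  have hWd := dg_par h2 hd hV hPP
  have hlt : dg (mp τ P + mp τ' P - (P + P)) < p := by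
    rw [hPd] at hWd
    omega
  -- the multiplier
  have w1 : WT (mp τ P) (c * (1 + 0)) := WT_comp h2 hg hW (WT_add h2 (WT_g hg) (WT_cst T)) hτ
  have w2 : WT (mp τ' P) (c * (1 - 0)) := WT_comp h2 hg hW (WT_sub h2 (WT_g hg) (WT_cst T)) hτ'
  have w3 := WT_sub h2 (WT_add h2 w1 w2) (WT_add h2 hW hW)
  have w4 : c * (1 + 0) + c * (1 - 0) - (c + c) = 0 := by ring
  rw [w4] at w3
  have hz : dg (mp τ P + mp τ' P - (P + P)) = 0 :=
    Nat.eq_zero_of_dvd_of_lt (WT_dvd h2 p hd hWo w3) hlt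
  have hrel := dg_two h2 hWo hz
  -- the inverse
  have hinv : τ.comp τ' = AlgHom.id K (LL A B) := by
    refine gen_ext hg ?_
    rw [← mp_comp, hτ', OM3_sub, mp_cst, hτ, OM3_id, add_sub_cancel_right]
  have hττ' : mp τ (mp τ' P) = P := by
    rw [mp_comp, hinv, OM3_id]
  -- the iterates
  have hrel2 : ∀ m : ℕ, (mp (OM3_it τ (m + 2)) P + mp (OM3_it τ m) P -
      (mp (OM3_it τ (m + 1)) P + mp (OM3_it τ (m + 1)) P)) +
      (mp (OM3_it τ (m + 2)) P + mp (OM3_it τ m) P -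
      (mp (OM3_it τ (m + 1)) P + mp (OM3_it τ (m + 1)) P)) = 0 := by
    intro m
    induction m with
    | zero =>
      have h3 := congrArg (mp τ) hrel
      rw [mp_add, OM3_sub, mp_add, mp_add, hττ', mp_zero] at h3
      have h4 : mp (OM3_it τ 0) P = P := OM3_id P
      have h5 : mp (OM3_it τ (0 + 1)) P = mp τ P := by
        rw [OM3_it_succ, h4]
      have h6 : mp (OM3_it τ (0 + 2)) P = mp τ (mp τ P) := by
        rw [OM3_it_succ, h5]
      rw [h6, h5, h4]
      exact h3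
    | succ m ih =>
      have h3 := congrArg (mp τ) ih
      rw [mp_add, OM3_sub, mp_add, mp_add, mp_zero, ← OM3_it_succ, ← OM3_it_succ, ← OM3_it_succ] at h3
      exact h3
  have hstep : ∀ m : ℕ, (mp (OM3_it τ (m + 1)) P + mp (OM3_it τ (m + 1)) P) -
      (mp (OM3_it τ m) P + mp (OM3_it τ m) P) = (mp τ P + mp τ P) - (P + P) := by
    intro m
    induction m with
    | zero =>
      have h4 : mp (OM3_it τ 0) P = P := OM3_id P
      have h5 : mp (OM3_it τ (0 + 1)) P = mp τ P := by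
        rw [OM3_it_succ, h4]
      rw [h5, h4]
    | succ m ih =>
      rw [← ih, ← sub_eq_zero]
      have h3 := hrel2 m
      rw [← h3]
      abel
  have hsum : ∀ m : ℕ, mp (OM3_it τ m) P + mp (OM3_it τ m) P =
      (P + P) + m • ((mp τ P + mp τ P) - (P + P)) := by
    intro m
    induction m with
    | zero =>
      have h4 : mp (OM3_it τ 0) P = P := OM3_id P
      rw [h4, zero_nsmul, add_zero]
    | succ m ih =>
      have h3 := hstep m
      rw [sub_eq_iff_eq_add] at h3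
      rw [h3, ih, succ_nsmul]
      abel
  have hn1 : OM3_it τ n = AlgHom.id K (LL A B) := by
    refine gen_ext hg ?_
    rw [OM3_it_g hτ, ← OM3_nsmul, hT, OM3_id]
    have h3 : cst (0 : PL A B K) = 0 := rfl
    rw [h3, add_zero]
  have hfin := hsum n
  rw [hn1, OM3_id] at hfin
  have h7 : n • ((mp τ P + mp τ P) - (P + P)) = 0 := by
    have h8 := hfin.symm
    rwa [add_eq_left] at h8
  have h9 : (n * 2) • (mp τ P - P) = 0 := by
    rw [mul_nsmul', two_nsmul, ← h7]
    congr 1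
    abel
  obtain ⟨S, hS⟩ := tors_const h2 hd hg (by omega : 0 < n * 2) h9
  refine ⟨S, ?_⟩
  rw [← hS]
  abel

end OCM
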