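import Pool.Agent.Lib.MP_17a322_ntOC.OM3

/-!
# LEAF OM4: the homomorphism of the constant points given by an odd point

PROOF.  For every `T` choose `τ_T` with `mp τ_T g = g + cst T` (`trans_exists`; by `gen_ext` it is the only one) and (`trans_psi` with `n = Nat.card (PL A B K)`, `card_nsmul_eq_zero'`) the point `s T` with `mp τ_T P = P + cst (s T)` (only one: `cst_inj`).  Additive: `mp (τ_T ∘ τ_T') g = mp τ_T (g + cst T') = g + cst T + cst T'` (`mp_comp`, `mp_add`, `mp_cst`, `cst_add`), so `τ_T ∘ τ_T' = τ_(T + T')`, and `mp (τ_T ∘ τ_T') P = mp τ_T (P + cst (s T')) = P + cst (s T) + cst (s T')`.  `AddMonoidHom.mk'`.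
`trans_comp`: `mp (τ ∘ ρ) g = mp τ Q = Q + cst U = mp ρ (g + cst U) = mp (ρ ∘ κ) g`, so `τ ∘ ρ = ρ ∘ κ` (`gen_ext`) and `mp τ (mp ρ P) = mp ρ (mp κ P)`.
-/

set_option autoImplicit false

namespace OCM

open Polynomial WeierstrassCurve.Affine

variable {K : Type} [Field K]

open Classical in
theorem trans_hom (h2 : (2 : K) ≠ 0) (p : ℕ) [Fact p.Prime] [CharP K p] {A B : K} (hd : 4 * A ^ 3 + 27 * B ^ 2 ≠ 0)
    [Finite (PL A B K)] {g : PL A B (LL A B)} (hg : IsG g) {P : PL A B (LL A B)} (hP : OPt P) {c : K} (hW : WT P c)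
    (hb : 16 * dg P < p) :
    ∃ s : PL A B K →+ PL A B K, ∀ (T : PL A B K) (τ : LL A B →ₐ[K] LL A B), mp τ g = g + cst T →
      mp τ P = P + cst (s T) := by
  have hn : 0 < Nat.card (PL A B K) := Nat.card_pos
  choose τ hτ using fun T : PL A B K => trans_exists h2 hg T
  choose s hs using fun T : PL A B K =>
    trans_psi h2 p hd hg hP hW hb hn (card_nsmul_eq_zero' (x := T)) (hτ T)
  have hadd : ∀ T T', s (T + T') = s T + s T' := by
    intro T T'
    refine cst_inj ?_
    have e : (τ T).comp (τ T') = τ (T + T') := by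
      refine gen_ext hg ?_
      rw [← mp_comp, hτ T', mp_add, hτ T, mp_cst, hτ (T + T'), cst_add, add_assoc]
    have e1 := hs (T + T')
    rw [← e, ← mp_comp, hs T', mp_add, hs T, mp_cst, add_assoc] at e1
    rw [cst_add]
    exact (add_left_cancel e1).symm
  refine ⟨AddMonoidHom.mk' s hadd, fun T τ' hτ' => ?_⟩
  have e2 : τ' = τ T := gen_ext hg (hτ'.trans (hτ T).symm)
  rw [e2]
  exact hs T

open Classical in
theorem trans_comp {A B : K} {g : PL A B (LL A B)} (hg : IsG g) {Q : PL A B (LL A B)} {ρ τ κ : LL A B →ₐ[K] LL A B}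
    (hρ : mp ρ g = Q) {U : PL A B K} (hτ : mp τ Q = Q + cst U) (hκ : mp κ g = g + cst U) (P : PL A B (LL A B)) :
    mp τ (mp ρ P) = mp ρ (mp κ P) := by
  have e : τ.comp ρ = ρ.comp κ := by
    refine gen_ext hg ?_
    rw [← mp_comp, hρ, hτ, ← mp_comp, hκ, mp_add, hρ, mp_cst]
  rw [mp_comp, e, ← mp_comp]

end OCM
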