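import Pool.Agent.Lib.MP_17a322_ntOC.OK2
import Pool.Agent.Lib.MP_17a322_ntOC.OL

/-!
# LEAF ON1: an odd point of small degree is additive up to points of order two

PROOF.  `W = mp τ₂ P - mp τ₁ P - P`.  Odd: `dg_comp`, `opt_sub` (`P + g` is odd: `opt_add`, `opt_g`).  `dg (mp τ₂ P) = dg (P + g) * dg P ≤ (2 d + 2) d` (`dg_comp`; `dg_par`, `dg_g`), `dg (mp τ₁ P) = d * d`, `d = dg P`, and by `dg_par` twice `dg W ≤ 2 (2 (2 d + 2) d + 2 d²) + 2 d = 12 d² + 10 d < p`.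
`WT W (c * (c + 1) - c * c - c)` (`WT_comp`, `WT_add`, `WT_g`, `WT_sub`), which is `WT W 0`; so `p ∣ dg W` (`WT_dvd`), `dg W = 0`.
-/

set_option autoImplicit false

namespace OCM

open Polynomial WeierstrassCurve.Affine

variable {K : Type} [Field K]

open Classical in
theorem left_small (h2 : (2 : K) ≠ 0) (p : ℕ) [Fact p.Prime] [CharP K p] {A B : K} (hd : 4 * A ^ 3 + 27 * B ^ 2 ≠ 0)
    {g : PL A B (LL A B)} (hg : IsG g) {P : PL A B (LL A B)} (hP : OPt P) {c : K} (hW : WT P c)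
    {τ₁ τ₂ : LL A B →ₐ[K] LL A B} (h1 : mp τ₁ g = P) (h3 : mp τ₂ g = P + g) (hb : 12 * dg P ^ 2 + 10 * dg P < p) :
    OPt (mp τ₂ P - mp τ₁ P - P) ∧ dg (mp τ₂ P - mp τ₁ P - P) = 0 := by
  have hPg := opt_add hP (opt_g hg)
  obtain ⟨o2, d2⟩ := dg_comp h2 hg hP hPg h3
  obtain ⟨o1, d1⟩ := dg_comp h2 hg hP hP h1
  have hW2 := WT_comp h2 hg hW (WT_add h2 hW (WT_g hg)) h3
  have hW1 := WT_comp h2 hg hW hW h1
  have hWW := WT_sub h2 (WT_sub h2 hW2 hW1) hW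
  have hc : c * (c + 1) - c * c - c = 0 := by ring
  rw [hc] at hWW
  have hO := opt_sub (opt_sub o2 o1) hP
  refine ⟨hO, ?_⟩
  have hdvd := WT_dvd h2 p hd hO hWW
  have e1 := dg_par h2 hd hP (opt_g hg)
  rw [dg_g hg] at e1
  have e2 := dg_par h2 hd o2 o1
  have e3 := dg_par h2 hd (opt_sub o2 o1) hP
  rw [d2, d1] at e2
  have e4 : dg (P + g) * dg P ≤ (2 * dg P + 2) * dg P := Nat.mul_le_mul_right _ (by omega)
  have e5 : dg (mp τ₂ P - mp τ₁ P - P) < p := by nlinarith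
  exact Nat.eq_zero_of_dvd_of_lt hdvd e5

end OCM
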