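import Pool.Agent.Lib.MP_17a322_ntOC.OH
import Pool.Agent.Lib.MP_10e784_agBS.Defs

/-!
# LEAF OO: Frobenius of the function field

`fb` is the Frobenius of the function field, `φ = mp fb g = (x^p, y^p)`.
PROOF of `dg_fb`.  Odd: `σ (z ^ p) = (σ z) ^ p`, i.e. `fb_comm`, `mp_comp`.  `Rx P a`: `a_i(x) = e P.xRep i`, so `a_i(x) ^ p = e ^ p * (mp fb P).xRep i`, and `a_i(x) ^ p = a_i(x ^ p) = (expand p a_i)(x)` (`ZMod.expand_card`: `expand (ZMod p) p f = f ^ p`), so `Rx (mp fb P) (a_i ^ p)` (`IsCoprime.pow`) and `md = p md a` (`natDegree_pow`).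
`card_PL`: `Nat.card` of the points over `ZMod p` is `nz + 1` (compare `MP_17a322_ntVK/EB.lean`, `Nat.card (Pt a b) = MWS.nz a b + 1`; `(CW A B).baseChange (ZMod p)` is `⟨0, 0, 0, A, B⟩` as `algebraMap (ZMod p) (ZMod p)` is the identity; every point of the equation is nonsingular by `hd` and `5 ≤ p`).
-/

set_option autoImplicit false

namespace OCM

open Polynomial WeierstrassCurve.Affine

section

variable {p : ℕ} [Fact p.Prime]

/-- Frobenius of the function field -/
noncomputable def fb (A B : ZMod p) : LL A B →ₐ[ZMod p] LL A B := FiniteField.frobeniusAlgHom (ZMod p) (LL A B)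

theorem fb_apply {A B : ZMod p} (z : LL A B) : fb A B z = z ^ p := by
  have h : fb A B z = z ^ Fintype.card (ZMod p) := rfl
  rw [h, ZMod.card]

theorem fb_comm {A B : ZMod p} (τ : LL A B →ₐ[ZMod p] LL A B) : τ.comp (fb A B) = (fb A B).comp τ := by
  refine AlgHom.ext fun z => ?_
  rw [AlgHom.comp_apply, AlgHom.comp_apply, fb_apply, fb_apply, map_pow]

private theorem OO_cast {n : ℕ} (h0 : n ≠ 0) (hn : n < p) : ((n : ℕ) : ZMod p) ≠ 0 := by
  intro h
  rw [ZMod.natCast_eq_zero_iff] at h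
  exact h0 (Nat.eq_zero_of_dvd_of_lt h hn)

private theorem OO_two (hp : 5 ≤ p) : (2 : ZMod p) ≠ 0 := by
  have h := OO_cast (p := p) (n := 2) (by norm_num) (by omega)
  exact_mod_cast h

private theorem OO_rep {A B : ZMod p} (P : PL A B (LL A B)) (i : Fin 2) :
    (mp (fb A B) P).xRep i = P.xRep i ^ p := by
  have hp0 : p ≠ 0 := (Fact.out : p.Prime).ne_zero
  rcases P with _ | ⟨x, y, h⟩
  · have h1 : (mp (fb A B) (Point.zero : PL A B (LL A B))) = Point.zero := by
      classical
      exact mp_zero (fb A B)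
    rw [h1]
    fin_cases i
    · exact (one_pow p).symm
    · exact (zero_pow hp0).symm
  · rw [mp, Point.map_some, Point.xRep_some, Point.xRep_some]
    fin_cases i
    · exact fb_apply x
    · exact (one_pow p).symm

theorem dg_fb (hp : 5 ≤ p) {A B : ZMod p} {P : PL A B (LL A B)} (hP : OPt P) :
    OPt (mp (fb A B) P) ∧ dg (mp (fb A B) P) = p * dg P := by
  classical
  refine ⟨fun σ h1 h2 => ?_, ?_⟩
  · rw [mp_comp, fb_comm, ← mp_comp, hP σ h1 h2, mp_neg]
  · obtain ⟨a, ha⟩ := Rx_odd (OO_two hp) hP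
    have hb : Rx (mp (fb A B) P) fun i => a i ^ p := by
      obtain ⟨h1, e, he, h2⟩ := ha
      refine ⟨h1.pow, e ^ p, pow_ne_zero _ he, fun i => ?_⟩
      rw [map_pow, h2, OO_rep, mul_pow]
    rw [dg_eq hb, dg_eq ha, md, md, natDegree_pow, natDegree_pow]
    exact (Nat.mul_max_mul_left p _ _).symm ▸ rfl

private theorem OO_eq {A B : ZMod p} (x y : ZMod p) :
    ((CW A B).baseChange (ZMod p)).toAffine.Equation x y ↔ y ^ 2 = x ^ 3 + A * x + B := by
  rw [WeierstrassCurve.Affine.equation_iff]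
  simp only [CW, WeierstrassCurve.baseChange, WeierstrassCurve.map, map_zero]
  have h : ∀ c : ZMod p, (algebraMap (ZMod p) (ZMod p)) c = c := fun c => by simp
  rw [h, h]
  constructor
  · intro h
    linear_combination h
  · intro h
    linear_combination h

private theorem OO_nons (hp : 5 ≤ p) {A B : ZMod p} (hd : 4 * A ^ 3 + 27 * B ^ 2 ≠ 0) (x y : ZMod p) :
    ((CW A B).baseChange (ZMod p)).toAffine.Nonsingular x y ↔ y ^ 2 = x ^ 3 + A * x + B := by
  rw [WeierstrassCurve.Affine.nonsingular_iff', OO_eq]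
  refine ⟨fun h => h.1, fun h => ⟨h, ?_⟩⟩
  by_contra hcon
  rw [not_or, not_not, not_not] at hcon
  obtain ⟨h3, h4⟩ := hcon
  simp only [CW, WeierstrassCurve.baseChange, WeierstrassCurve.map, map_zero] at h3 h4
  have hid : ∀ c : ZMod p, (algebraMap (ZMod p) (ZMod p)) c = c := fun c => by simp
  rw [hid] at h3
  have h4' : y = 0 := by
    have h6 : 2 * y = 0 := by linear_combination h4
    exact (mul_eq_zero.1 h6).resolve_left (OO_two hp)
  refine hd ?_
  rw [h4'] at h
  have ha : A = -3 * x ^ 2 := by linear_combination -h3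
  have hb : B = 2 * x ^ 3 := by
    rw [ha] at h
    linear_combination -h
  rw [ha, hb]
  ring

/-- the points and the affine points -/
private noncomputable def OO_equiv (hp : 5 ≤ p) {A B : ZMod p} (hd : 4 * A ^ 3 + 27 * B ^ 2 ≠ 0) :
    PL A B (ZMod p) ≃ Option {z : ZMod p × ZMod p // z.2 ^ 2 = z.1 ^ 3 + A * z.1 + B} where
  toFun
    | .zero => none
    | .some x y h => some ⟨(x, y), (OO_eq x y).1 h.1⟩
  invFun
    | none => .zero
    | some z => .some z.1.1 z.1.2 ((OO_nons hp hd _ _).2 z.2)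
  left_inv P := by
    rcases P with _ | ⟨x, y, h⟩ <;> rfl
  right_inv z := by
    rcases z with _ | ⟨⟨x, y⟩, h⟩ <;> rfl

theorem card_PL (hp : 5 ≤ p) {A B : ZMod p} (hd : 4 * A ^ 3 + 27 * B ^ 2 ≠ 0) :
    Nat.card (PL A B (ZMod p)) = MWS.nz A B + 1 := by
  rw [Nat.card_congr (OO_equiv hp hd), Finite.card_option]
  rfl

end

end OCM
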