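import Pool.Agent.Lib.MP_17a322_ntOC.OM4
import Pool.Agent.Lib.MP_17a322_ntOC.OL
import Pool.Agent.Lib.MP_17a322_ntOC.OO
import Pool.Agent.Lib.MP_17a322_ntOC.OD

/-!
# LEAF ON2: an odd point of small degree is additive at Frobenius

PROOF.  `φ = mp (fb A B) g`, `Q = P + φ`, `W = mp τ₂ P - mp τ₁ P - mp fb P`, `d = dg P`, `N = nz + 1 = Nat.card (PL A B (ZMod p))` (`card_PL`; so `PL A B (ZMod p)` is finite, `Nat.finite_of_card_ne_zero`).
`WT_fb`: `φ = some (x ^ p) (y ^ p)`, `δ (x ^ p) = p x ^ (p - 1) δ x = 0` (`Derivation.leibniz_pow`, characteristic `p`).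
Odd and degrees: `dg φ = p`, `dg (mp fb P) = p d` (`dg_fb`), `dg Q ≤ 2 d + 2 p`, `dg (mp τ₂ P) = dg Q * d`, `dg (mp τ₁ P) = d * d` (`dg_comp`), so by `dg_par` twice `dg W ≤ 2 (2 (2 d + 2 p) d + 2 d²) + 2 p d = 12 d² + 10 d p`.
`WT W (c * (c + 0) - c * c - c * 0)` is `WT W 0` (`WT_comp`, `WT_add`, `WT_fb`): `p ∣ dg W` (`WT_dvd`).
Translations: let `s` be from `trans_hom`.  Let `mp τ g = g + cst T`.  `mp τ P = P + cst (s T)`.  `mp τ φ = φ + cst T` (`φ = mp fb g`; `mp_comp`, `fb_comm`, `mp_add`, `mp_cst`) and in the same way `mp τ (mp fb P) = mp fb P + cst (s T)`.  `mp τ Q = Q + cst (s T + T)`.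
`mp τ (mp τ₂ P) = mp τ₂ (mp κ P)` with `κ` the translation by `s T + T` (`trans_comp`), `= mp τ₂ (P + cst (s (s T + T))) = mp τ₂ P + cst (s (s T + T))`; `mp τ (mp τ₁ P) = mp τ₁ P + cst (s (s T))`.  So `mp τ W = W + cst (s (s T + T) - s (s T) - s T) = W` (`s` additive).
Suppose `dg W ≠ 0`.  `Rx W a`, `dg W = md a` (`Rx_odd`, `dg_eq`); `W = some z w` (`dg_zero`), `z = r(x)`, `max r.num.natDegree r.denom.natDegree = dg W` (`Rx_ratFunc`), `r` is not constant, and `τ z = z` for the translations `τ` (`Point.map_some`), so `card_dvd` with `V = ⊤`: `N ∣ 2 * dg W` (`Nat.card (⊤ : AddSubgroup _)`).  `p ∣ dg W`, `p` is prime and does not divide `N`, so `p N ∣ 2 dg W`, `p N ≤ 24 d² + 20 d p`, against `hb'`.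
-/

set_option autoImplicit false

namespace OCM

open Polynomial WeierstrassCurve.Affine

section

variable {K : Type} [Field K]

open Classical in
private theorem ON2_inv (h2 : (2 : K) ≠ 0) {A B : K} {g : PL A B (LL A B)} (hg : IsG g) {P : PL A B (LL A B)}
    {f τ₁ τ₂ : LL A B →ₐ[K] LL A B} (hf : ∀ τ : LL A B →ₐ[K] LL A B, τ.comp f = f.comp τ) (h1 : mp τ₁ g = P)
    (h3 : mp τ₂ g = P + mp f g) (s : PL A B K →+ PL A B K)
    (hs : ∀ (T : PL A B K) (τ : LL A B →ₐ[K] LL A B), mp τ g = g + cst T → mp τ P = P + cst (s T))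
    (T : PL A B K) (τ : LL A B →ₐ[K] LL A B) (hτ : mp τ g = g + cst T) :
    mp τ (mp τ₂ P - mp τ₁ P - mp f P) = mp τ₂ P - mp τ₁ P - mp f P := by
  have hfbT : ∀ (R : PL A B (LL A B)) (U : PL A B K) (τ : LL A B →ₐ[K] LL A B), mp τ R = R + cst U →
      mp τ (mp f R) = mp f R + cst U := by
    intro R U τ h
    rw [mp_comp, hf, ← mp_comp, h, mp_add, mp_cst]
  have k1 := hs T τ hτ
  have k2 := hfbT g T τ hτ
  have k3 := hfbT P (s T) τ k1
  have k4 : mp τ (P + mp f g) = P + mp f g + cst (s T + T) := by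
    rw [mp_add, k1, k2, cst_add]
    abel
  obtain ⟨κ, hκ⟩ := trans_exists h2 hg (s T + T)
  obtain ⟨κ', hκ'⟩ := trans_exists h2 hg (s T)
  have k5 : mp τ (mp τ₂ P) = mp τ₂ P + cst (s (s T + T)) := by
    rw [trans_comp hg h3 k4 hκ P, hs _ κ hκ, mp_add, mp_cst]
  have k6 : mp τ (mp τ₁ P) = mp τ₁ P + cst (s (s T)) := by
    rw [trans_comp hg h1 k1 hκ' P, hs _ κ' hκ', mp_add, mp_cst]
  rw [sub_eq_add_neg, sub_eq_add_neg, mp_add, mp_add, mp_neg, mp_neg, k5, k6, k3, map_add, cst_add]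
  abel

open Classical in
private theorem ON2_card (h2 : (2 : K) ≠ 0) {A B : K} [Finite (PL A B K)] {g : PL A B (LL A B)} (hg : IsG g)
    {W : PL A B (LL A B)} (hWo : OPt W)
    (hinv : ∀ (T : PL A B K) (τ : LL A B →ₐ[K] LL A B), mp τ g = g + cst T → mp τ W = W) (hne : dg W ≠ 0) :
    Nat.card (PL A B K) ∣ 2 * dg W := by
  obtain ⟨a, ha⟩ := Rx_odd h2 hWo
  have hda := dg_eq ha
  rcases W with _ | ⟨z, w, hzw⟩
  · exact absurd dg_zero hne
  obtain ⟨r, hr1, hr2⟩ := Rx_ratFunc ha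
  have hr : ¬ ∃ c : K, r = RatFunc.C c := by
    rintro ⟨c, rfl⟩
    rw [RatFunc.num_C, RatFunc.denom_C, natDegree_C, natDegree_one, max_self] at hr2
    exact hne (hda.trans hr2.symm)
  have hdv := card_dvd h2 hg (⊤ : AddSubgroup (PL A B K)) r hr (fun T _ τ hτ => by
    have k1 := hinv T τ hτ
    rw [mp, Point.map_some] at k1
    have k2 := (Point.some.inj k1).1
    rw [← hr1]
    exact k2)
  rwa [hr2, ← hda, AddSubgroup.card_top] at hdv

end

section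

variable {p : ℕ} [Fact p.Prime]

theorem WT_fb {A B : ZMod p} {g : PL A B (LL A B)} (hg : IsG g) : WT (mp (fb A B) g) 0 := by
  classical
  intro δ _
  obtain ⟨h, rfl⟩ := hg
  have h1 : wt δ (mp (fb A B) (Point.some (xL A B) (yL A B) h : PL A B (LL A B))) =
      δ (fb A B (xL A B)) / fb A B (yL A B) := rfl
  have h2 : ((p : ℕ) : LL A B) = 0 := by
    have h3 : algebraMap (ZMod p) (LL A B) ((p : ℕ) : ZMod p) = ((p : ℕ) : LL A B) := map_natCast _ p
    rw [← h3, CharP.cast_eq_zero, map_zero]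
  rw [h1, fb_apply, Derivation.leibniz_pow, ← Nat.cast_smul_eq_nsmul (LL A B), h2, zero_smul, zero_div, zero_mul,
    map_zero]

private theorem ON2_two (hp : 5 ≤ p) : (2 : ZMod p) ≠ 0 := by
  intro h
  have h1 : ((2 : ℕ) : ZMod p) = 0 := by exact_mod_cast h
  rw [ZMod.natCast_eq_zero_iff] at h1
  have h2 := Nat.le_of_dvd (by norm_num) h1
  omega

open Classical in
theorem left_big (hp : 5 ≤ p) {A B : ZMod p} (hd : 4 * A ^ 3 + 27 * B ^ 2 ≠ 0) {g : PL A B (LL A B)} (hg : IsG g)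
    {P : PL A B (LL A B)} (hP : OPt P) {c : ZMod p} (hW : WT P c) {τ₁ τ₂ : LL A B →ₐ[ZMod p] LL A B}
    (h1 : mp τ₁ g = P) (h3 : mp τ₂ g = P + mp (fb A B) g) (hN : ¬ p ∣ MWS.nz A B + 1) (hb : 16 * dg P < p)
    (hb' : 24 * dg P ^ 2 + 20 * dg P * p < p * (MWS.nz A B + 1)) :
    OPt (mp τ₂ P - mp τ₁ P - mp (fb A B) P) ∧ dg (mp τ₂ P - mp τ₁ P - mp (fb A B) P) = 0 := by
  have h2 := ON2_two hp
  obtain ⟨hφo, hφd⟩ := dg_fb hp (opt_g hg)
  rw [dg_g hg, mul_one] at hφd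
  have hQo : OPt (P + mp (fb A B) g) := opt_add hP hφo
  have hQd := dg_par h2 hd hP hφo
  obtain ⟨ho1, hd1⟩ := dg_comp h2 hg hP hP h1
  obtain ⟨ho2, hd2⟩ := dg_comp h2 hg hP hQo h3
  obtain ⟨ho3, hd3⟩ := dg_fb hp hP
  have hWo : OPt (mp τ₂ P - mp τ₁ P - mp (fb A B) P) := opt_sub (opt_sub ho2 ho1) ho3
  refine ⟨hWo, ?_⟩
  have e1 := dg_par h2 hd ho2 ho1
  have e2 := dg_par h2 hd (opt_sub ho2 ho1) ho3
  -- the bound of the degree
  have hWd : dg (mp τ₂ P - mp τ₁ P - mp (fb A B) P) ≤ 12 * dg P ^ 2 + 10 * dg P * p := by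
    have k1 : dg (P + mp (fb A B) g) ≤ 2 * dg P + 2 * p := by omega
    have k2 : dg (P + mp (fb A B) g) * dg P ≤ (2 * dg P + 2 * p) * dg P := Nat.mul_le_mul_right _ k1
    nlinarith [k2, e1, e2, hd1, hd2, hd3]
  -- the multiplier
  have hWW : WT (mp τ₂ P - mp τ₁ P - mp (fb A B) P) 0 := by
    have k1 : WT (mp τ₂ P) (c * (c + 0)) := WT_comp h2 hg hW (WT_add h2 hW (WT_fb hg)) h3
    have k2 : WT (mp τ₁ P) (c * c) := WT_comp h2 hg hW hW h1
    have k3 : WT (mp (fb A B) P) (c * 0) := WT_comp h2 hg hW (WT_fb hg) rfl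
    have k4 := WT_sub h2 (WT_sub h2 k1 k2) k3
    have k5 : c * (c + 0) - c * c - c * 0 = 0 := by ring
    rwa [k5] at k4
  have hdvd := WT_dvd h2 p hd hWo hWW
  -- the translations
  have hcard := card_PL hp hd
  have hfin : Finite (PL A B (ZMod p)) := Nat.finite_of_card_ne_zero (by rw [hcard]; omega)
  obtain ⟨s, hs⟩ := trans_hom h2 p hd hg hP hW hb
  have hinv := ON2_inv h2 hg fb_comm h1 h3 s hs
  -- suppose that the degree is not zero
  by_contra hne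
  have hdv := ON2_card h2 hg hWo hinv hne
  rw [hcard] at hdv
  have hcop : Nat.Coprime p (MWS.nz A B + 1) := (Nat.Prime.coprime_iff_not_dvd Fact.out).2 hN
  have hmul := Nat.Coprime.mul_dvd_of_dvd_of_dvd hcop (Dvd.dvd.mul_left hdvd 2) hdv
  have hle := Nat.le_of_dvd (by omega) hmul
  linarith

end

end OCM
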