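import Pool.Agent.Lib.MP_17a322_ntOC.OO

/-!
# LEAF OP: the number of points and the degree of `φ - 1`

`fb` is the Frobenius of the function field, `φ = mp fb g = (x^p, y^p)`.
PROOF of `manin`.  `F = X³ + A X + B`, `y^p = F^((p-1)/2) y`.  `φ - g = (x^p, y^p) + (x, - y)`: the slope is `(y^p + y) / (x^p - x)` (`x^p ≠ x`: `xL_tr`), so its `x`-coordinate is `z = r(x)`, `r = F (F^((p-1)/2) + 1)² / (X^p - X)² - X^p - X = G / (X^p - X)²`.
Because `F^p = X^(3p) + A X^p + B` (`ZMod.expand_card`): `G = F^p + 2 F^((p+1)/2) + F - (X^p + X) (X^p - X)² = X^(2p+1) + X^(p+2) + A X^p + A X + 2 B + 2 F^((p+1)/2)`, monic of degree `2 p + 1` (`3 (p+1)/2 < 2 p + 1`).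
Let `N₋` = the set of the `c` in `ZMod p` with `F(c)` not a square, `N₀` = the roots of `F`, `N₊` the others.  `X^p - X = ∏ (X - c)` (`FiniteField.X_pow_card_sub_X_...`, `ZMod`).  Put `E = ∏_(c ∈ N₋) (X - c)`, `E₀ = ∏_(c ∈ N₀) (X - c)`.  `E² E₀` divides `G` and `(X^p - X)²`: `G = F (F^((p-1)/2) + 1)² - (X^p + X) (X^p - X)²`, `E ∣ F^((p-1)/2) + 1` (Euler's criterion), `E₀ ∣ F`.
The quotients are coprime: `(X^p - X)² / (E² E₀) = E₀ E₊²`; its irreducible factors are `X - c`, `c ∈ N₀ ∪ N₊`; `G / (E² E₀)` at such a `c`: for `c ∈ N₊` `G(c) = F(c) (1 + 1)² ≠ 0`; for `c ∈ N₀`: `G / (X - c)` at `c` is `F'(c) (0 + 1)² ≠ 0` (`F` has simple roots, `hd`; `(X^p - X)² / (X - c)` vanishes at `c`).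
So `dg (φ - g) = 2 p + 1 - 2 #N₋ - #N₀` (`dg_eq` with this pair; the other degree is `2 p - 2 #N₋ - #N₀`), and `nz = 2 #N₊ + #N₀`, `#N₊ + #N₋ + #N₀ = p`: this is `2 #N₊ + #N₀ + 1`.
-/

set_option autoImplicit false

namespace OCM

open Polynomial WeierstrassCurve.Affine

section

variable {p : ℕ} [Fact p.Prime]

private theorem OP_two (hp : 5 ≤ p) : (2 : ZMod p) ≠ 0 := by
  intro h
  have h1 : ((2 : ℕ) : ZMod p) = 0 := by exact_mod_cast h
  rw [ZMod.natCast_eq_zero_iff] at h1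
  have h2 := Nat.le_of_dvd (by norm_num) h1
  omega

private theorem OP_chi (hp : 5 ≤ p) (a : ZMod p) :
    (a = 0 ∧ Nat.card {y : ZMod p // y ^ 2 = a} = 1) ∨
    (a ≠ 0 ∧ a ^ (p / 2) = 1 ∧ Nat.card {y : ZMod p // y ^ 2 = a} = 2) ∨
    (a ≠ 0 ∧ a ^ (p / 2) = -1 ∧ Nat.card {y : ZMod p // y ^ 2 = a} = 0) := by
  have hc : ringChar (ZMod p) ≠ 2 := by
    rw [ZMod.ringChar_zmod_n]
    omega
  have h1 := quadraticChar_card_sqrts hc a
  have h2 := quadraticChar_eq_pow_of_char_ne_two' hc a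
  rw [ZMod.card] at h2
  have h3 : Nat.card {y : ZMod p // y ^ 2 = a} = ({x : ZMod p | x ^ 2 = a}.toFinset).card := by
    rw [Set.toFinset_card, ← Nat.card_eq_fintype_card]
    rfl
  rw [← h3] at h1
  by_cases h0 : a = 0
  · left
    refine ⟨h0, ?_⟩
    rw [h0] at h1 ⊢
    rw [quadraticChar_zero] at h1
    omega
  · right
    rcases quadraticChar_dichotomy h0 with h4 | h4
    · left
      rw [h4] at h1 h2
      refine ⟨h0, ?_, by omega⟩
      rw [← h2]
      simp
    · right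
      rw [h4] at h1 h2
      refine ⟨h0, ?_, by omega⟩
      rw [← h2]
      simp

private theorem OP_nz (A B : ZMod p) : MWS.nz A B =
    ∑ c : ZMod p, Nat.card {y : ZMod p // y ^ 2 = c ^ 3 + A * c + B} := by
  rw [← Nat.card_sigma]
  exact Nat.card_congr (Equiv.subtypeProdEquivSigmaSubtype fun c y : ZMod p => y ^ 2 = c ^ 3 + A * c + B)

private theorem OP_prod : (X ^ p - X : (ZMod p)[X]) = ∏ c : ZMod p, (X - C c) := by
  have hp : 1 < p := (Fact.out (p := p.Prime)).one_lt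
  have h1 : (X ^ p - X : (ZMod p)[X]).roots = Finset.univ.val := by
    have h := FiniteField.roots_X_pow_card_sub_X (ZMod p)
    rwa [ZMod.card] at h
  have h2 : (X ^ p - X : (ZMod p)[X]).natDegree = p := FiniteField.X_pow_card_sub_X_natDegree_eq _ hp
  have h3 : (X ^ p - X : (ZMod p)[X]).Monic := by
    refine monic_X_pow_sub ?_
    rw [degree_X]
    exact_mod_cast hp
  have h4 := prod_multiset_X_sub_C_of_monic_of_roots_card_eq h3 (by
    rw [h1, h2, ← Finset.card_def, Finset.card_univ, ZMod.card])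
  rw [h1] at h4
  exact h4.symm

/-- the cubic -/
private noncomputable def OP_F (A B : ZMod p) : (ZMod p)[X] := X ^ 3 + C A * X + C B

/-- the numerator -/
private noncomputable def OP_G (A B : ZMod p) : (ZMod p)[X] :=
  OP_F A B * (OP_F A B ^ (p / 2) + 1) ^ 2 - (X ^ p + X) * (X ^ p - X) ^ 2

private theorem OP_Feval (A B c : ZMod p) : eval c (OP_F A B) = c ^ 3 + A * c + B := by
  simp [OP_F]

private theorem OP_double {A B : ZMod p} (hd : 4 * A ^ 3 + 27 * B ^ 2 ≠ 0) (c : ZMod p)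
    (h : (X - C c) ^ 2 ∣ OP_F A B) : False := by
  obtain ⟨q, hq⟩ := h
  have h1 : eval c (OP_F A B) = 0 := by
    rw [hq]
    simp
  have h2 : eval c (derivative (OP_F A B)) = 0 := by
    rw [hq, derivative_mul, derivative_pow]
    simp
  rw [OP_Feval] at h1
  have h3 : eval c (derivative (OP_F A B)) = 3 * c ^ 2 + A := by
    simp [OP_F]
    left
    norm_num
  rw [h3] at h2
  apply hd
  have h4 : A = -(3 * c ^ 2) := by linear_combination h2
  have h5 : B = 2 * c ^ 3 := by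
    rw [h4] at h1
    linear_combination h1
  rw [h4, h5]
  ring

private theorem OP_dvd (A B c : ZMod p) :
    (X - C c) ^ 2 ∣ OP_G A B - OP_F A B * (OP_F A B ^ (p / 2) + 1) ^ 2 := by
  have h1 : (X - C c : (ZMod p)[X]) ∣ X ^ p - X := by
    rw [OP_prod]
    exact Finset.dvd_prod_of_mem (fun c : ZMod p => (X - C c : (ZMod p)[X])) (Finset.mem_univ c)
  have h2 : OP_G A B - OP_F A B * (OP_F A B ^ (p / 2) + 1) ^ 2 = (-(X ^ p + X)) * (X ^ p - X) ^ 2 := by
    unfold OP_G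
    ring
  rw [h2]
  exact Dvd.dvd.mul_left (pow_dvd_pow_of_dvd h1 2) _

private theorem OP_loc (hp : 5 ≤ p) {A B : ZMod p} (hd : 4 * A ^ 3 + 27 * B ^ 2 ≠ 0) (c : ZMod p) {n : ℕ}
    (hn : Nat.card {y : ZMod p // y ^ 2 = c ^ 3 + A * c + B} = n) :
    n ≤ 2 ∧ (X - C c) ^ (2 - n) ∣ OP_G A B ∧ (n ≠ 0 → ¬ (X - C c) ^ (2 - n + 1) ∣ OP_G A B) := by
  have hc := OP_dvd A B c
  have hk : p / 2 ≠ 0 := by omega
  rcases OP_chi hp (c ^ 3 + A * c + B) with ⟨h1, h2⟩ | ⟨h1, h2, h3⟩ | ⟨h1, h2, h3⟩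
  · rw [hn] at h2
    rw [h2]
    have h5 : (X - C c : (ZMod p)[X]) ∣ OP_F A B := by
      rw [dvd_iff_isRoot, IsRoot.def, OP_Feval, h1]
    refine ⟨by norm_num, ?_, fun _ h4 => ?_⟩
    · have h6 : (X - C c) ^ 1 ∣ OP_G A B - OP_F A B * (OP_F A B ^ (p / 2) + 1) ^ 2 :=
        (pow_dvd_pow _ (by norm_num)).trans hc
      have h7 : (X - C c) ^ 1 ∣ OP_F A B * (OP_F A B ^ (p / 2) + 1) ^ 2 := by
        rw [pow_one]
        exact Dvd.dvd.mul_right h5 _
      have h8 := dvd_add h6 h7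
      rwa [sub_add_cancel] at h8
    · have h6 := dvd_sub h4 hc
      rw [sub_sub_cancel] at h6
      have h7 : IsCoprime ((X - C c : (ZMod p)[X]) ^ 2) ((OP_F A B ^ (p / 2) + 1) ^ 2) := by
        apply IsCoprime.pow
        rw [Irreducible.coprime_iff_not_dvd (irreducible_X_sub_C c), dvd_iff_isRoot, IsRoot.def]
        rw [eval_add, eval_pow, OP_Feval, h1, zero_pow hk, eval_one]
        simp
      exact OP_double hd c (h7.dvd_of_dvd_mul_right h6)
  · rw [hn] at h3
    rw [h3]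
    refine ⟨le_refl _, by simp, fun _ h4 => ?_⟩
    have h6 : (X - C c) ^ 1 ∣ OP_G A B - OP_F A B * (OP_F A B ^ (p / 2) + 1) ^ 2 :=
      (pow_dvd_pow _ (by norm_num)).trans hc
    have h7 := dvd_sub h4 h6
    rw [sub_sub_cancel, pow_one, dvd_iff_isRoot, IsRoot.def, eval_mul, eval_pow, eval_add, eval_pow,
      OP_Feval, h2, eval_one] at h7
    have h8 := (mul_eq_zero.1 h7).resolve_left h1
    have h9 : (2 : ZMod p) ^ 2 = 0 := by
      rw [← h8]
      norm_num
    exact OP_two hp (pow_eq_zero_iff (by norm_num) |>.1 h9)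
  · rw [hn] at h3
    rw [h3]
    refine ⟨by norm_num, ?_, fun h => absurd rfl h⟩
    have h5 : (X - C c : (ZMod p)[X]) ∣ OP_F A B ^ (p / 2) + 1 := by
      rw [dvd_iff_isRoot, IsRoot.def, eval_add, eval_pow, OP_Feval, h2, eval_one]
      ring
    have h7 : (X - C c) ^ 2 ∣ OP_F A B * (OP_F A B ^ (p / 2) + 1) ^ 2 :=
      Dvd.dvd.mul_left (pow_dvd_pow_of_dvd h5 2) _
    have h8 := dvd_add hc h7
    rwa [sub_add_cancel] at h8

private theorem OP_poly (hp : 5 ≤ p) {A B : ZMod p} (hd : 4 * A ^ 3 + 27 * B ^ 2 ≠ 0) :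
    ∃ H G' D' : (ZMod p)[X], H ≠ 0 ∧ OP_G A B = H * G' ∧ (X ^ p - X : (ZMod p)[X]) ^ 2 = H * D' ∧
      IsCoprime G' D' ∧ H.natDegree + MWS.nz A B = 2 * p := by
  let n : ZMod p → ℕ := fun c => Nat.card {y : ZMod p // y ^ 2 = c ^ 3 + A * c + B}
  have hl : ∀ c, n c ≤ 2 ∧ (X - C c) ^ (2 - n c) ∣ OP_G A B ∧
      (n c ≠ 0 → ¬ (X - C c) ^ (2 - n c + 1) ∣ OP_G A B) := fun c => OP_loc hp hd c rfl
  have hG : (∏ c : ZMod p, (X - C c : (ZMod p)[X]) ^ (2 - n c)) ∣ OP_G A B := by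
    refine Fintype.prod_dvd_of_coprime ?_ fun c => (hl c).2.1
    intro c c' hcc
    exact IsCoprime.pow (pairwise_coprime_X_sub_C Function.injective_id hcc)
  obtain ⟨G', hG'⟩ := hG
  refine ⟨∏ c : ZMod p, (X - C c : (ZMod p)[X]) ^ (2 - n c), G', ∏ c : ZMod p, (X - C c : (ZMod p)[X]) ^ n c,
    ?_, hG', ?_, ?_, ?_⟩
  · rw [Finset.prod_ne_zero_iff]
    intro c _
    exact pow_ne_zero _ (X_sub_C_ne_zero c)
  · rw [OP_prod, ← Finset.prod_pow, ← Finset.prod_mul_distrib]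
    refine Finset.prod_congr rfl fun c _ => ?_
    rw [← pow_add, Nat.sub_add_cancel (hl c).1]
  · refine IsCoprime.prod_right fun c _ => ?_
    by_cases h0 : n c = 0
    · rw [h0, pow_zero]
      exact isCoprime_one_right
    · refine IsCoprime.pow_right (IsCoprime.symm ?_)
      rw [Irreducible.coprime_iff_not_dvd (irreducible_X_sub_C c)]
      intro h1
      refine (hl c).2.2 h0 ?_
      rw [hG', pow_succ]
      exact mul_dvd_mul (Finset.dvd_prod_of_mem (fun c : ZMod p => (X - C c : (ZMod p)[X]) ^ (2 - n c))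
        (Finset.mem_univ c)) h1
  · rw [natDegree_prod_of_monic _ _ fun c _ => (monic_X_sub_C c).pow _, OP_nz, ← Finset.sum_add_distrib]
    have h1 : ∀ c ∈ (Finset.univ : Finset (ZMod p)), ((X - C c : (ZMod p)[X]) ^ (2 - n c)).natDegree +
        Nat.card {y : ZMod p // y ^ 2 = c ^ 3 + A * c + B} = 2 := by
      intro c _
      rw [natDegree_pow, natDegree_X_sub_C, mul_one]
      exact Nat.sub_add_cancel (hl c).1
    rw [Finset.sum_congr rfl h1, Finset.sum_const, Finset.card_univ, ZMod.card, smul_eq_mul, mul_comm]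

private theorem OP_deg (hp : 5 ≤ p) (A B : ZMod p) : (OP_G A B).natDegree = 2 * p + 1 := by
  have hodd : 2 * (p / 2) + 1 = p := by
    rcases (Fact.out (p := p.Prime)).eq_two_or_odd with h | h
    · omega
    · omega
  have hF : OP_F A B ^ p = X ^ (3 * p) + C A * X ^ p + C B := by
    rw [← ZMod.expand_card, OP_F]
    simp only [map_add, map_mul, map_pow, expand_X, expand_C]
    rw [← pow_mul, mul_comm p 3]
  have hF' : OP_F A B * (OP_F A B ^ (p / 2)) ^ 2 = OP_F A B ^ p := by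
    rw [← pow_mul, ← pow_succ']
    congr 1
    omega
  have hG : OP_G A B = X ^ (2 * p + 1) + (X ^ (p + 2) + C A * X ^ p + C B + 2 * (OP_F A B) ^ (p / 2 + 1) +
      C A * X + C B) := by
    have h1 : OP_G A B = OP_F A B * (OP_F A B ^ (p / 2)) ^ 2 + 2 * (OP_F A B) ^ (p / 2 + 1) + OP_F A B -
        (X ^ p + X) * (X ^ p - X) ^ 2 := by
      unfold OP_G
      ring
    rw [h1, hF', hF]
    have h2 : (X : (ZMod p)[X]) ^ (3 * p) = (X ^ p) ^ 3 := by ring
    have h3 : (X : (ZMod p)[X]) ^ (2 * p + 1) = (X ^ p) ^ 2 * X := by ring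
    have h4 : (X : (ZMod p)[X]) ^ (p + 2) = X ^ p * X ^ 2 := by ring
    rw [h2, h3, h4]
    have h5 : (OP_F A B : (ZMod p)[X]) = X ^ 3 + C A * X + C B := rfl
    linear_combination h5
  have hF3 : (OP_F A B).natDegree ≤ 3 := by
    unfold OP_F
    compute_degree
  have hF4 : ((OP_F A B) ^ (p / 2 + 1)).natDegree ≤ 2 * p := by
    refine natDegree_pow_le.trans ?_
    have h1 := Nat.mul_le_mul_left (p / 2 + 1) hF3
    omega
  have hR : (X ^ (p + 2) + C A * X ^ p + C B + 2 * (OP_F A B) ^ (p / 2 + 1) +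
      C A * X + C B : (ZMod p)[X]).natDegree ≤ 2 * p := by
    refine natDegree_add_le_of_degree_le (natDegree_add_le_of_degree_le (natDegree_add_le_of_degree_le
      (natDegree_add_le_of_degree_le (natDegree_add_le_of_degree_le ?_ ?_) ?_) ?_) ?_) ?_
    · rw [natDegree_X_pow]
      omega
    · refine (natDegree_C_mul_X_pow_le _ _).trans ?_
      omega
    · rw [natDegree_C]
      exact Nat.zero_le _
    · have h2 : (2 : (ZMod p)[X]) = C 2 := (map_ofNat C 2).symm
      rw [h2]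
      exact (natDegree_C_mul_le _ _).trans hF4
    · refine (natDegree_C_mul_le _ _).trans ?_
      rw [natDegree_X]
      omega
    · rw [natDegree_C]
      exact Nat.zero_le _
  rw [hG, natDegree_add_eq_left_of_natDegree_lt, natDegree_X_pow]
  rw [natDegree_X_pow]
  omega

open Classical in
private theorem OP_pt (hodd : 2 * (p / 2) + 1 = p) {A B : ZMod p} {g : PL A B (LL A B)} (hg : IsG g) : ∃ z w h,
    mp (fb A B) g - g = (.some z w h : PL A B (LL A B)) ∧
      z * aeval (xL A B) ((X ^ p - X : (ZMod p)[X]) ^ 2) = aeval (xL A B) (OP_G A B) := by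
  obtain ⟨h, rfl⟩ := hg
  have hp1 : 1 < p := (Fact.out (p := p.Prime)).one_lt
  have hQ : (X ^ p - X : (ZMod p)[X]) ≠ 0 := FiniteField.X_pow_card_sub_X_ne_zero _ hp1
  have hq : xL A B ^ p - xL A B ≠ 0 := by
    intro h0
    refine xL_tr A B ⟨X ^ p - X, hQ, ?_⟩
    rw [map_sub, map_pow, aeval_X, h0]
  have hx : fb A B (xL A B) ≠ xL A B := by
    rw [fb_apply]
    exact fun h0 => hq (sub_eq_zero.2 h0)
  rw [mp, Point.map_some, sub_eq_add_neg, Point.neg_some, Point.add_of_X_ne hx]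
  refine ⟨_, _, _, rfl, ?_⟩
  have hn : ∀ u v : LL A B, ((CW A B).baseChange (LL A B)).toAffine.negY u v = -v := by
    intro u v
    simp [WeierstrassCurve.Affine.negY, WeierstrassCurve.baseChange, WeierstrassCurve.map, CW]
  have ha : ∀ x1 x2 l : LL A B, ((CW A B).baseChange (LL A B)).toAffine.addX x1 x2 l = l ^ 2 - x1 - x2 := by
    intro x1 x2 l
    simp [WeierstrassCurve.Affine.addX, WeierstrassCurve.baseChange, WeierstrassCurve.map, CW]
  have hF : aeval (xL A B) (OP_F A B) = yL A B ^ 2 := by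
    rw [eqL]
    simp [OP_F]
  have hG : aeval (xL A B) (OP_G A B) = yL A B ^ 2 * ((yL A B ^ 2) ^ (p / 2) + 1) ^ 2 -
      (xL A B ^ p + xL A B) * (xL A B ^ p - xL A B) ^ 2 := by
    unfold OP_G
    simp only [map_add, map_sub, map_mul, map_pow, aeval_X, map_one, hF]
  have hD : aeval (xL A B) ((X ^ p - X : (ZMod p)[X]) ^ 2) = (xL A B ^ p - xL A B) ^ 2 := by
    simp only [map_sub, map_pow, aeval_X]
  have hy : yL A B ^ p = (yL A B ^ 2) ^ (p / 2) * yL A B := by
    rw [← pow_mul, ← pow_succ, hodd]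
  rw [slope_of_X_ne hx, ha, hn, fb_apply, fb_apply, hG, hD, hy]
  field_simp
  ring

open Classical in
theorem manin (hp : 5 ≤ p) {A B : ZMod p} (hd : 4 * A ^ 3 + 27 * B ^ 2 ≠ 0) {g : PL A B (LL A B)} (hg : IsG g) :
    dg (mp (fb A B) g - g) = MWS.nz A B + 1 := by
  have hodd : 2 * (p / 2) + 1 = p := by
    rcases (Fact.out (p := p.Prime)).eq_two_or_odd with h | h
    · omega
    · omega
  obtain ⟨H, G', D', hH, hG', hD', hc, hn⟩ := OP_poly hp hd
  obtain ⟨z, w, h, hz, hz'⟩ := OP_pt hodd hg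
  have hinj : Function.Injective (aeval (xL A B) : (ZMod p)[X] →ₐ[ZMod p] LL A B) :=
    transcendental_iff_injective.1 (xL_tr A B)
  have hne : ∀ f : (ZMod p)[X], f ≠ 0 → aeval (xL A B) f ≠ 0 := by
    intro f hf h0
    exact hf (hinj (by rw [h0, map_zero]))
  have hp1 : 1 < p := (Fact.out (p := p.Prime)).one_lt
  have hQ : (X ^ p - X : (ZMod p)[X]) ≠ 0 := FiniteField.X_pow_card_sub_X_ne_zero _ hp1
  have hD0 : D' ≠ 0 := by
    intro h0
    rw [h0, mul_zero] at hD'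
    exact pow_ne_zero 2 hQ hD'
  have hdG := OP_deg hp A B
  have hG0 : G' ≠ 0 := by
    intro h0
    rw [hG', h0, mul_zero, natDegree_zero] at hdG
    omega
  have hR : Rx (mp (fb A B) g - g) ![G', D'] := by
    refine ⟨hc, aeval (xL A B) D', hne _ hD0, fun i => ?_⟩
    rw [hz, Point.xRep_some]
    fin_cases i
    · show aeval (xL A B) G' = aeval (xL A B) D' * z
      rw [hG', hD', map_mul, map_mul] at hz'
      apply mul_left_cancel₀ (hne H hH)
      linear_combination -hz'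
    · show aeval (xL A B) D' = aeval (xL A B) D' * 1
      rw [mul_one]
  rw [dg_eq hR]
  have h1 : G'.natDegree + H.natDegree = 2 * p + 1 := by
    rw [← hdG, hG', natDegree_mul hH hG0, add_comm]
  have h2 : D'.natDegree + H.natDegree = 2 * p := by
    have h3 : ((X ^ p - X : (ZMod p)[X]) ^ 2).natDegree = 2 * p := by
      rw [natDegree_pow, FiniteField.X_pow_card_sub_X_natDegree_eq _ hp1]
    rw [← h3, hD', natDegree_mul hH hD0, add_comm]
  have h3 : md ![G', D'] = max G'.natDegree D'.natDegree := rfl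
  rw [h3, max_eq_left (by omega)]
  omega

end

end OCM
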