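import Mathlib

/-!
# LEAF OQ: two commuting similarities of a quadratic form

PROOF.  `B x y = D (x + y) - D x - D y` is symmetric and biadditive (the parallelogram law; `D 0 = 0`, `D (-x) = D x`, `D (n x) = n² D x`; the Jordan - von Neumann argument; `B (n x) y = n B x y` for integers `n`), `B x x = 2 D x`.  If `D z = 0` then `B z w = 0` for all `w` (`0 ≤ D (n z + w) = n B z w + D w` for all integers `n`), so `D (z + w) = D w`.  `B (R x) (R y) = d B x y`, `B (S x) (S y) = p B x y`.
Put `t = B (R g) g`, `a = B (S g) g`.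
(1) `D (R R g - t R g + d g) = 0`: `B (R R g) (R g) = d t`; put `u = B (R R g) g`; `h1` reads `d² + 4 d + 1 + 2 d t + u + 2 t = (d + 1 + t)²`, so `u = t² - 2 d`; expand.  (2) In the same way `D (S S g - a S g + p g) = 0`.  (3) So `D (R R S g - t R S g + d S g) = p * 0 = 0` (apply `S`, `hRS`).
(4) `s = B (R g) (S g)`, `v = B g (R S g)`: `d v = B (R g) (R R S g) = B (R g) (t R S g - d S g) = t B (R g) (R S g) - d s = t d a - d s`, so `v = t a - s`.
(5) `h3`: the left side is `D (t R g - d g + 2 R S g + a S g - p g)` by (1), (2) and `D (z + w) = D w`; with `B (R g) (R S g) = d a`, `B (S g) (R S g) = p t`, `D (R S g) = p d` and `m = p + d` it is `4 p d + a² p + t² d + m² + 4 a t m / 2 - 2 m v + a t s - a² m - t² m` where `2 a B (S g) (R S g) + 2 t B (R g) (R S g) = 2 a t p + 2 t a d = 2 a t m`; with (4) this is `4 p d - a² d - t² p + m² + 2 m s + a t s`, and the right side is `(m + s)²`.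
So `s² - a t s + a² d + t² p - 4 p d = 0`, `(2 s - a t)² = (4 p - a²) (4 d - t²)`.
`form_lt`: `0 ≤ D (2 R g - t g) = 4 d - t²`; if it is `0` then `t = 2 n`, `d = n²` and `D (R g - n g) = d - n t + n² = 0`.
-/

set_option autoImplicit false

namespace OCM

/-- The bilinear form of `D`. -/
private theorem OQ_bil {M : Type} [AddCommGroup M] (D : M → ℤ) (hD : ∀ x, 0 ≤ D x)
    (hpar : ∀ x y, D (x + y) + D (x - y) = 2 * D x + 2 * D y) :
    ∃ B : M →+ M →+ ℤ, (∀ x y, D (x + y) = B x y + D x + D y) ∧ (∀ x y, B x y = B y x) ∧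
      (∀ x, B x x = 2 * D x) ∧ (∀ z w, D z = 0 → B z w = 0) ∧ (∀ z w, D z = 0 → D (z + w) = D w) := by
  have h6 : ∀ x y z, D (x + y + z) = D (x + y) + D (x + z) + D (y + z) - D x - D y - D z := by
    intro x y z
    have a := hpar (x + y) z
    have b := hpar (x - z) y
    have c := hpar x (y + z)
    have e := hpar x z
    rw [show x - z + y = x + y - z by abel, show x - z - y = x - (y + z) by abel] at b
    rw [show x + (y + z) = x + y + z by abel] at c
    linarith
  have h0 : D 0 = 0 := by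
    have h := hpar 0 0
    rw [add_zero, sub_zero] at h
    linarith
  let B : M →+ M →+ ℤ := AddMonoidHom.mk' (fun x => AddMonoidHom.mk' (fun y => D (x + y) - D x - D y) (by
      intro y z
      have h := h6 x y z
      rw [← add_assoc, h]
      ring)) (by
      intro x y
      ext z
      change D (x + y + z) - D (x + y) - D z = (D (x + z) - D x - D z) + (D (y + z) - D y - D z)
      rw [h6 x y z]
      ring)
  have hB : ∀ x y, D (x + y) = B x y + D x + D y := by
    intro x y
    change D (x + y) = (D (x + y) - D x - D y) + D x + D y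
    ring
  have hs : ∀ x y, B x y = B y x := by
    intro x y
    have h1 := hB x y
    have h2 := hB y x
    rw [add_comm y x] at h2
    linarith
  have hBB : ∀ x, B x x = 2 * D x := by
    intro x
    have h1 := hB x x
    have h2 := hpar x x
    rw [sub_self, h0] at h2
    linarith
  have hz : ∀ z w, D z = 0 → B z w = 0 := by
    intro z w h
    by_contra hne
    have hn : ∀ n : ℤ, 0 ≤ n * B z w + D w := by
      intro n
      have h1 := hD (n • z + w)
      have h2 := hBB (n • z)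
      rw [hB, map_zsmul, AddMonoidHom.zsmul_apply, smul_eq_mul] at h1
      simp only [map_zsmul, AddMonoidHom.zsmul_apply, smul_eq_mul] at h2
      rw [hBB z, h] at h2
      linarith
    have h1 := hn (-(B z w) * (D w + 1))
    have h2 : 1 ≤ B z w * B z w := by
      have h3 : 0 < B z w * B z w := mul_self_pos.2 hne
      omega
    have h3 := hD w
    nlinarith
  exact ⟨B, hB, hs, hBB, hz, fun z w h => by rw [hB, hz z w h, h, zero_add, zero_add]⟩

/-- The characteristic relation of one similarity. -/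
private theorem OQ_rel {M : Type} [AddCommGroup M] {D : M → ℤ} {B : M →+ M →+ ℤ}
    (hB : ∀ x y, D (x + y) = B x y + D x + D y) (hs : ∀ x y, B x y = B y x) (hBB : ∀ x, B x x = 2 * D x)
    (R : M →+ M) {d : ℤ} (hR : ∀ x, D (R x) = d * D x) (g : M) (hg : D g = 1)
    (hBR : ∀ x y, B (R x) (R y) = d * B x y)
    (h1 : D (R (R g) + R g + (R g + g)) = D (R g + g) ^ 2) :
    D (R (R g) - (B (R g) g) • R g + d • g) = 0 := by
  have e1 : B (R (R g)) (R g) = d * B (R g) g := hBR _ _
  have e2 : B (R g) (R (R g)) = d * B (R g) g := by rw [hs, e1]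
  have e3 : B g g = 2 := by rw [hBB, hg, mul_one]
  have e4 : B (R g) (R g) = 2 * d := by rw [hBR, e3, mul_comm]
  have e5 : B (R (R g)) (R (R g)) = 2 * d ^ 2 := by rw [hBR, e4]; ring
  have e6 : B g (R g) = B (R g) g := hs _ _
  have e7 : B g (R (R g)) = B (R (R g)) g := hs _ _
  have u : B (R (R g)) g = B (R g) g ^ 2 - 2 * d := by
    rw [hB, hB, hB, hR, hR, hg] at h1
    simp only [map_add, AddMonoidHom.add_apply] at h1
    rw [e1, e4] at h1
    linear_combination h1
  have h2 := hBB (R (R g) - (B (R g) g) • R g + d • g)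
  simp only [map_add, map_sub, map_zsmul, AddMonoidHom.add_apply, AddMonoidHom.sub_apply, AddMonoidHom.zsmul_apply,
    smul_eq_mul] at h2
  rw [e1, e2, e3, e4, e5, e6, e7, u] at h2
  have h3 : 2 * D (R (R g) - (B (R g) g) • R g + d • g) = 0 := by linear_combination -h2
  omega

theorem form_sq {M : Type} [AddCommGroup M] (D : M → ℤ) (hD : ∀ x, 0 ≤ D x)
    (hpar : ∀ x y, D (x + y) + D (x - y) = 2 * D x + 2 * D y) (R S : M →+ M) (hRS : ∀ x, R (S x) = S (R x)) {d p : ℤ}
    (hd : 0 < d) (hR : ∀ x, D (R x) = d * D x) (hS : ∀ x, D (S x) = p * D x) (g : M) (hg : D g = 1)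
    (h1 : D (R (R g) + R g + (R g + g)) = D (R g + g) ^ 2)
    (h2 : D (S (S g) + S g + (S g + g)) = D (S g + g) ^ 2)
    (h3 : D (R (R g) + S (R g) + (S (R g) + S (S g))) = D (R g + S g) ^ 2) :
    ∃ k : ℤ, (4 * p - (D (S g + g) - p - 1) ^ 2) * (4 * d - (D (R g + g) - d - 1) ^ 2) = k ^ 2 := by
  obtain ⟨B, hB, hs, hBB, hz, hadd⟩ := OQ_bil D hD hpar
  have hBR : ∀ x y, B (R x) (R y) = d * B x y := by
    intro x y
    have h4 := hB (R x) (R y)
    rw [← map_add, hR, hR, hR, hB x y] at h4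
    linear_combination -h4
  have hBS : ∀ x y, B (S x) (S y) = p * B x y := by
    intro x y
    have h4 := hB (S x) (S y)
    rw [← map_add, hS, hS, hS, hB x y] at h4
    linear_combination -h4
  have hE := OQ_rel hB hs hBB R hR g hg hBR h1
  have hF := OQ_rel hB hs hBB S hS g hg hBS h2
  obtain ⟨t, ht⟩ : ∃ t, t = B (R g) g := ⟨_, rfl⟩
  obtain ⟨a, ha⟩ : ∃ a, a = B (S g) g := ⟨_, rfl⟩
  obtain ⟨s, hs1⟩ : ∃ s, s = B (R g) (S g) := ⟨_, rfl⟩
  obtain ⟨v, hv⟩ : ∃ v, v = B g (S (R g)) := ⟨_, rfl⟩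
  rw [← ht] at hE
  rw [← ha] at hF
  have e1 : B g g = 2 := by rw [hBB, hg, mul_one]
  have e2 : B (R g) (R g) = 2 * d := by rw [hBR, e1, mul_comm]
  have e3 : B (S g) (S g) = 2 * p := by rw [hBS, e1, mul_comm]
  have e4 : B (S (R g)) (S (R g)) = 2 * d * p := by rw [hBS, e2, mul_comm]
  have e5 : B (R g) (S (R g)) = d * a := by rw [← hRS, hBR, ha, hs]
  have e6 : B (S (R g)) (S g) = p * t := by rw [hBS, ht]
  have hv1 : v = t * a - s := by
    have h4 : D (S (R (R g) - t • R g + d • g)) = 0 := by rw [hS, hE, mul_zero]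
    have h5 := hz _ (R g) h4
    rw [hs] at h5
    simp only [map_add, map_sub, map_zsmul, smul_eq_mul] at h5
    rw [e5, ← hs1] at h5
    have h6 : B (R g) (S (R (R g))) = d * v := by rw [← hRS, hBR, hv]
    rw [h6] at h5
    have h7 : d * (v - (t * a - s)) = 0 := by linear_combination h5
    rcases mul_eq_zero.1 h7 with h8 | h8
    · exact absurd h8 hd.ne'
    · linarith
  have h4 : R (R g) + S (R g) + (S (R g) + S (S g)) = (R (R g) - t • R g + d • g) + ((S (S g) - a • S g + p • g) +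
      (t • R g - (d + p) • g + (2 : ℤ) • S (R g) + a • S g)) := by
    rw [two_zsmul, add_zsmul]
    abel
  rw [h4, hadd _ _ hE, hadd _ _ hF] at h3
  have h5 := hBB (t • R g - (d + p) • g + (2 : ℤ) • S (R g) + a • S g)
  simp only [map_add, map_sub, map_zsmul, AddMonoidHom.add_apply, AddMonoidHom.sub_apply, AddMonoidHom.zsmul_apply,
    smul_eq_mul] at h5
  have f1 : B g (R g) = t := by rw [hs, ht]
  have f2 : B g (S g) = a := by rw [hs, ha]
  have f3 : B (S g) (R g) = s := by rw [hs, hs1]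
  have f4 : B (S (R g)) g = v := by rw [hs, hv]
  have f5 : B (S (R g)) (R g) = d * a := by rw [hs, e5]
  have f6 : B (S g) (S (R g)) = p * t := by rw [hs, e6]
  rw [e1, e2, e3, e4, e5, e6, f1, f2, f3, f4, f5, f6, ← ht, ← ha, ← hs1, ← hv, h3, hB (R g) (S g), ← hs1, hR, hS, hg, hv1] at h5
  refine ⟨2 * s - a * t, ?_⟩
  rw [hB (S g) g, hB (R g) g, hS, hR, hg, ← ha, ← ht]
  linear_combination (2 : ℤ) * h5

theorem form_lt {M : Type} [AddCommGroup M] (D : M → ℤ) (hD : ∀ x, 0 ≤ D x)
    (hpar : ∀ x y, D (x + y) + D (x - y) = 2 * D x + 2 * D y) {d : ℤ} (x g : M) (hx : D x = d) (hg : D g = 1)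
    (hn : ∀ n : ℤ, D (x - n • g) ≠ 0) : (D (x + g) - d - 1) ^ 2 < 4 * d := by
  obtain ⟨B, hB, hs, hBB, hz, hadd⟩ := OQ_bil D hD hpar
  obtain ⟨t, ht⟩ : ∃ t, t = B x g := ⟨_, rfl⟩
  have e1 : B g g = 2 := by rw [hBB, hg, mul_one]
  have e2 : B x x = 2 * d := by rw [hBB, hx]
  have e3 : B g x = t := by rw [hs, ht]
  have h1 := hBB ((2 : ℤ) • x - t • g)
  simp only [map_sub, map_zsmul, AddMonoidHom.sub_apply, AddMonoidHom.zsmul_apply, smul_eq_mul] at h1
  rw [e1, e2, e3, ← ht] at h1
  have h2 := hD ((2 : ℤ) • x - t • g)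
  rw [hB x g, hx, hg, ← ht, show t + d + 1 - d - 1 = t by ring]
  have h3 : t ^ 2 ≤ 4 * d := by nlinarith
  refine lt_of_le_of_ne h3 fun h4 => ?_
  have h5 : Even t := by
    have h6 : Even (t ^ 2) := by
      rw [h4]
      exact ⟨2 * d, by ring⟩
    exact (Int.even_pow' (by norm_num)).1 h6
  obtain ⟨n, hn1⟩ := h5
  apply hn n
  have h6 := hBB (x - n • g)
  simp only [map_sub, map_zsmul, AddMonoidHom.sub_apply, AddMonoidHom.zsmul_apply, smul_eq_mul] at h6
  rw [e1, e2, e3, ← ht] at h6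
  have h7 : d = n ^ 2 := by
    have h8 : 4 * d = 4 * n ^ 2 := by
      rw [← h4, hn1]
      ring
    linarith
  rw [h7, hn1] at h6
  nlinarith

end OCM
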