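import Mathlib

/-!
# LEAF OQ2: the inequality of Cauchy for an integral quadratic form

PROOF.  `B x y = D (x + y) - D x - D y` is symmetric and biadditive, `D (n x) = n² D x` for integers `n`, `B (n x) y = n B x y` (the Jordan - von Neumann argument from the parallelogram law; `D 0 = 0`, `D (-x) = D x`).  With `t = B x g = D (x + g) - d - 1`: `0 ≤ D (2 x - t g) = 4 d - 2 t * t + t² = 4 d - t²`.
`form_add_zero`: `D z = 0`: `0 ≤ D (w + n z) = D w + n B w z` for all integers `n`, so `B w z = 0`.
-/

set_option autoImplicit false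

namespace OCM

private theorem OQ2_zero {M : Type} [AddCommGroup M] (D : M → ℤ)
    (hpar : ∀ x y, D (x + y) + D (x - y) = 2 * D x + 2 * D y) : D 0 = 0 := by
  have h := hpar 0 0
  rw [add_zero, sub_zero] at h
  linarith

private theorem OQ2_neg {M : Type} [AddCommGroup M] (D : M → ℤ)
    (hpar : ∀ x y, D (x + y) + D (x - y) = 2 * D x + 2 * D y) (x : M) : D (-x) = D x := by
  have h := hpar 0 x
  rw [zero_add, zero_sub, OQ2_zero D hpar] at h
  linarith

private theorem OQ2_tri {M : Type} [AddCommGroup M] (D : M → ℤ)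
    (hpar : ∀ x y, D (x + y) + D (x - y) = 2 * D x + 2 * D y) (x y z : M) :
    D (x + y + z) = D (x + y) + D (y + z) + D (x + z) - D x - D y - D z := by
  have h1 := hpar (x + y) z
  have h2 := hpar (x + z) y
  have h3 := hpar (y + z) x
  have e2 : x + z + y = x + y + z := by abel
  have e3 : y + z + x = x + y + z := by abel
  rw [e2] at h2
  rw [e3] at h3
  have h4 := hpar x (y - z)
  have h5 := hpar z (x - y)
  have h6 := hpar y (x - z)
  have e4 : x + (y - z) = x + y - z := by abel
  have e4' : x - (y - z) = x + z - y := by abel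
  have e5 : z + (x - y) = x + z - y := by abel
  have e5' : z - (x - y) = y + z - x := by abel
  have e6 : y + (x - z) = x + y - z := by abel
  have e6' : y - (x - z) = y + z - x := by abel
  rw [e4, e4'] at h4
  rw [e5, e5'] at h5
  rw [e6, e6'] at h6
  have h7 := hpar y z
  have h8 := hpar x y
  have h9 := hpar x z
  linarith

private theorem OQ2_two {M : Type} [AddCommGroup M] (D : M → ℤ)
    (hpar : ∀ x y, D (x + y) + D (x - y) = 2 * D x + 2 * D y) (x : M) : D (x + x) = 4 * D x := by
  have h := hpar x x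
  rw [sub_self, OQ2_zero D hpar] at h
  linarith

private theorem OQ2_zsmul {M : Type} [AddCommGroup M] (D : M → ℤ)
    (hpar : ∀ x y, D (x + y) + D (x - y) = 2 * D x + 2 * D y) (z : M) (n : ℤ) :
    ∀ w : M, D (w + n • z) = D w + n * (D (w + z) - D w - D z) + n ^ 2 * D z := by
  induction n using Int.induction_on with
  | zero =>
    intro w
    rw [zero_smul, add_zero]
    ring
  | succ n ih =>
    intro w
    have h1 := ih (w + z)
    have e1 : w + z + (n : ℤ) • z = w + ((n : ℤ) + 1) • z := by
      rw [add_smul, one_smul]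
      abel
    rw [e1] at h1
    rw [h1]
    have h2 := OQ2_tri D hpar w z z
    have h3 := OQ2_two D hpar z
    rw [h2, h3]
    ring
  | pred n ih =>
    intro w
    have h1 := ih (w - z)
    have e1 : w - z + (-(n : ℤ)) • z = w + (-(n : ℤ) - 1) • z := by
      rw [sub_smul, one_smul]
      abel
    rw [e1, sub_add_cancel] at h1
    rw [h1]
    have h2 := hpar w z
    have h3 : D (w - z) = 2 * D w + 2 * D z - D (w + z) := by linarith
    rw [h3]
    ring

theorem form_le {M : Type} [AddCommGroup M] (D : M → ℤ) (hD : ∀ x, 0 ≤ D x)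
    (hpar : ∀ x y, D (x + y) + D (x - y) = 2 * D x + 2 * D y) {d : ℤ} (x g : M) (hx : D x = d) (hg : D g = 1) :
    (D (x + g) - d - 1) ^ 2 ≤ 4 * d := by
  obtain ⟨t, ht⟩ : ∃ t, t = D (x + g) - d - 1 := ⟨_, rfl⟩
  have h1 := OQ2_zsmul D hpar g (-t) (x + x)
  have h2 := OQ2_tri D hpar x x g
  have h3 := OQ2_two D hpar x
  have h4 := hD (x + x + (-t) • g)
  rw [h1, h2, h3, hx, hg] at h4
  rw [← ht]
  have h5 : D (x + g) = t + d + 1 := by linarith
  rw [h5] at h4
  nlinarith

theorem form_add_zero {M : Type} [AddCommGroup M] (D : M → ℤ) (hD : ∀ x, 0 ≤ D x)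
    (hpar : ∀ x y, D (x + y) + D (x - y) = 2 * D x + 2 * D y) {w z : M} (hz : D z = 0) : D (w + z) = D w := by
  obtain ⟨b, hb⟩ : ∃ b, b = D (w + z) - D w := ⟨_, rfl⟩
  by_contra hne
  have hb0 : b ≠ 0 := by
    intro h
    exact hne (by linarith)
  have h1 := OQ2_zsmul D hpar z (-((D w + 1) * b)) w
  have h2 := hD (w + (-((D w + 1) * b)) • z)
  rw [h1, hz, sub_zero, mul_zero, add_zero, ← hb] at h2
  have h3 : 1 ≤ b ^ 2 := by
    have := sq_pos_of_ne_zero hb0
    linarith
  have h4 := hD w
  nlinarith [mul_le_mul_of_nonneg_left h3 (by linarith : (0 : ℤ) ≤ D w + 1)]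

end OCM
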