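import Pool.Agent.Lib.MP_17a322_ntOC.OL
import Pool.Agent.Lib.MP_17a322_ntOC.OO

/-!
# LEAF OR0: the group of the odd points and its endomorphisms

PROOF.  `Rm_exists`: `mp τ` preserves the odd points (`dg_comp`), it is additive (`mp_add`); `AddMonoidHom.mk'`.  `Fm_exists`: `dg_fb`.  `D_par`: `dg_par`.
-/

set_option autoImplicit false

namespace OCM

open Polynomial WeierstrassCurve.Affine

variable {K : Type} [Field K]

open Classical in
/-- the group of the odd points -/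
noncomputable def Mo (A B : K) : AddSubgroup (PL A B (LL A B)) where
  carrier := {P | OPt P}
  add_mem' := fun hP hQ => opt_add hP hQ
  zero_mem' := opt_zero
  neg_mem' := fun hP => opt_neg hP

open Classical in
/-- the degree form -/
noncomputable def Dm (A B : K) (x : Mo A B) : ℤ := (dg x.1 : ℤ)

open Classical in
theorem Dm_par (h2 : (2 : K) ≠ 0) {A B : K} (hd : 4 * A ^ 3 + 27 * B ^ 2 ≠ 0) (x y : Mo A B) :
    Dm A B (x + y) + Dm A B (x - y) = 2 * Dm A B x + 2 * Dm A B y := by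
  have h := dg_par h2 hd x.2 y.2
  have h3 : (x + y).1 = x.1 + y.1 := rfl
  have h4 : (x - y).1 = x.1 - y.1 := rfl
  unfold Dm
  rw [h3, h4]
  exact_mod_cast h

open Classical in
theorem Rm_exists (h2 : (2 : K) ≠ 0) {A B : K} {g : PL A B (LL A B)} (hg : IsG g) {Q : PL A B (LL A B)} (hQ : OPt Q)
    {τ : LL A B →ₐ[K] LL A B} (hτ : mp τ g = Q) :
    ∃ R : Mo A B →+ Mo A B, (∀ x, (R x).1 = mp τ x.1) ∧ ∀ x, Dm A B (R x) = (dg Q : ℤ) * Dm A B x := by
  refine ⟨AddMonoidHom.mk' (fun x => ⟨mp τ x.1, (dg_comp h2 hg x.2 hQ hτ).1⟩) fun x y => ?_, fun x => rfl, fun x => ?_⟩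
  · exact Subtype.ext (mp_add τ x.1 y.1)
  · have h := (dg_comp h2 hg x.2 hQ hτ).2
    have h3 : Dm A B (AddMonoidHom.mk' (fun x : Mo A B => (⟨mp τ x.1, (dg_comp h2 hg x.2 hQ hτ).1⟩ : Mo A B))
        (fun x y => Subtype.ext (mp_add τ x.1 y.1)) x) = (dg (mp τ x.1) : ℤ) := rfl
    refine h3.trans ?_
    rw [h, Nat.cast_mul]
    rfl

open Classical in
theorem Fm_exists {p : ℕ} [Fact p.Prime] (hp : 5 ≤ p) (A B : ZMod p) :
    ∃ S : Mo A B →+ Mo A B, (∀ x, (S x).1 = mp (fb A B) x.1) ∧ ∀ x, Dm A B (S x) = (p : ℤ) * Dm A B x := by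
  refine ⟨AddMonoidHom.mk' (fun x => ⟨mp (fb A B) x.1, (dg_fb hp x.2).1⟩) fun x y => ?_, fun x => rfl, fun x => ?_⟩
  · exact Subtype.ext (mp_add (fb A B) x.1 y.1)
  · have h := (dg_fb hp x.2).2
    have h3 : Dm A B (AddMonoidHom.mk' (fun x : Mo A B => (⟨mp (fb A B) x.1, (dg_fb hp x.2).1⟩ : Mo A B))
        (fun x y => Subtype.ext (mp_add (fb A B) x.1 y.1)) x) = (dg (mp (fb A B) x.1) : ℤ) := rfl
    refine h3.trans ?_
    rw [h, Nat.cast_mul]
    rfl

end OCM
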