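import Pool.Agent.Lib.MP_17a322_ntOC.OR0
import Pool.Agent.Lib.MP_17a322_ntOC.OP
import Pool.Agent.Lib.MP_17a322_ntOC.OQ2

/-!
# LEAF OR1: the trace of Frobenius and the inequality of Hasse

PROOF.  `tr_fb`: `dg_par` for `φ = mp fb g` and `g`: `dg (φ + g) + dg (φ - g) = 2 p + 2` (`dg_fb`, `dg_g`, `opt_g`) and `manin`.  `hasse`: `form_le` for `M = Mo A B`, `D = Dm A B`, `x = φ`, `d = p`, and `tr_fb` (`exists_g`).
-/

set_option autoImplicit false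

namespace OCM

open Polynomial WeierstrassCurve.Affine

section

variable {p : ℕ} [Fact p.Prime]

private theorem OR1_two (hp : 5 ≤ p) : (2 : ZMod p) ≠ 0 := by
  intro h
  have h1 : ((2 : ℕ) : ZMod p) = 0 := by
    rw [Nat.cast_ofNat]
    exact h
  have h2 := Nat.le_of_dvd two_pos ((ZMod.natCast_eq_zero_iff 2 p).1 h1)
  omega

open Classical in
theorem tr_fb (hp : 5 ≤ p) {A B : ZMod p} (hd : 4 * A ^ 3 + 27 * B ^ 2 ≠ 0) {g : PL A B (LL A B)} (hg : IsG g) :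
    (dg (mp (fb A B) g + g) : ℤ) - p - 1 = p - MWS.nz A B := by
  have h2 := OR1_two hp
  obtain ⟨hf, hf'⟩ := dg_fb hp (opt_g hg)
  have h3 := dg_par h2 hd hf (opt_g hg)
  rw [hf', manin hp hd hg, dg_g hg] at h3
  omega

theorem hasse (hp : 5 ≤ p) {A B : ZMod p} (hd : 4 * A ^ 3 + 27 * B ^ 2 ≠ 0) :
    ((p : ℤ) - MWS.nz A B) ^ 2 ≤ 4 * p := by
  classical
  have h2 := OR1_two hp
  obtain ⟨g, hg⟩ := exists_g h2 A B
  obtain ⟨hf, hf'⟩ := dg_fb hp (opt_g hg)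
  have h3 := form_le (M := Mo A B) (Dm A B) (fun x => Int.natCast_nonneg _) (Dm_par h2 hd) (d := p)
    ⟨mp (fb A B) g, hf⟩ ⟨g, opt_g hg⟩ (by
      change ((dg (mp (fb A B) g) : ℕ) : ℤ) = p
      rw [hf', dg_g hg, mul_one]) (by
      change ((dg g : ℕ) : ℤ) = 1
      rw [dg_g hg, Nat.cast_one])
  have h4 := tr_fb hp hd hg
  have h5 : Dm A B (⟨mp (fb A B) g, hf⟩ + ⟨g, opt_g hg⟩) = (dg (mp (fb A B) g + g) : ℤ) := rfl
  rw [h5, h4] at h3
  exact h3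

end

end OCM
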