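import Pool.Agent.Lib.MP_17a322_ntOC.OR1
import Pool.Agent.Lib.MP_17a322_ntOC.OQ
import Pool.Agent.Lib.MP_17a322_ntOC.OM2
import Pool.Agent.Lib.MP_17a322_ntOC.ON1
import Pool.Agent.Lib.MP_17a322_ntOC.ON2

/-!
# LEAF OR2: the two traces

PROOF.  `exists_g`: `g`.  `φ = mp fb g`.  `Ψ` is not constant (`cst_two`, `1 ≤ dg Ψ`), so (`hom_point`) `Ψ = mp τ₁ g`.  `Rm_exists`: `R` for `Ψ`, `τ₁`; `Fm_exists`: `S`.  `R`, `S` commute (`fb_comm`, `mp_comp`, `Subtype.ext`).  `D = Dm A B`, `D x = dg x.1 ≥ 0`.  `form_sq` for `M = Mo A B`, `D`, `R`, `S`, `d = dg Ψ`, `p`, the point `g` (odd, `opt_g`; `dg_g`); `(R g).1 = Ψ`, `(S g).1 = φ`.  `D (S g + g) - p - 1 = p - nz` (`tr_fb`).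
`hne`: `D (R g - n g) ≠ 0` for every integer `n`: otherwise `dg Ψ = n²` (`form_add_zero` with `z = R g - n g`, `w = n g`, and `D (n g) = n²`, from `dg_nsmul`, `dg_neg`), and `(R g - n g) + (R g - n g) = 0` (`dg_two`), so `WT`: `(c - n) + (c - n) = 0` (`WT_sub`, `WT_add`, `WT (n • g) n` by induction, `WT_cst` for `0`, `WT_uniq`), `c = n`, against `hc`.  `form_lt`: `t ^ 2 < 4 d`, `t = D (R g + g) - d - 1`.
`h1` of `form_sq`: `Ψ + g` is not constant (`cst_two` and `hne` for `n = -1`), `Ψ + g = mp τ₂ g`; `left_small`: `W = mp τ₂ Ψ - mp τ₁ Ψ - Ψ` has `dg W = 0`; `mp τ₂ (Ψ + g) = mp τ₂ Ψ + mp τ₂ g = mp τ₁ Ψ + Ψ + W + (Ψ + g)` and `dg (mp τ₂ (Ψ + g)) = dg (Ψ + g) ^ 2` (`dg_comp`); `form_add_zero` removes `W`.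
`h2`: `φ + g = mp τ g` (it is not constant: `WT (φ + g) (0 + 1)`, `WT_cst`, `WT_uniq`), `mp τ φ = mp fb (φ + g)` (`mp_comp`, `fb_comm`), so `mp τ (φ + g) = mp fb φ + φ + (φ + g)`, `dg_comp`.
`h3`: `Ψ + φ = mp τ₂ g` (not constant: `WT (Ψ + φ) (c + 0)`, `c ≠ 0`: `hc` for `n = 0` is not available, use `hc0`), `mp τ₂ φ = mp fb (Ψ + φ)`, and `left_big`: `mp τ₂ Ψ = mp τ₁ Ψ + mp fb Ψ + W`, `dg W = 0`; so `mp τ₂ (Ψ + φ) = (R (R g) + S (R g) + (S (R g) + S (S g))).1 + W`, `dg_comp`, `form_add_zero`.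
-/

set_option autoImplicit false

namespace OCM

open Polynomial WeierstrassCurve.Affine

section

variable {p : ℕ} [Fact p.Prime]

private theorem OR2_two (hp : 5 ≤ p) : (2 : ZMod p) ≠ 0 := by
  intro h
  have h1 : ((2 : ℕ) : ZMod p) = 0 := by exact_mod_cast h
  rw [ZMod.natCast_eq_zero_iff] at h1
  have h2 := Nat.le_of_dvd (by norm_num) h1
  omega

open Classical in
private theorem OR2_WT_nsmul (hp : 5 ≤ p) {A B : ZMod p} {g : PL A B (LL A B)} (hg : IsG g) (n : ℕ) :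
    WT (n • g) (n : ZMod p) := by
  induction n with
  | zero =>
    rw [zero_smul, Nat.cast_zero]
    have h1 : (0 : PL A B (LL A B)) = cst 0 := (map_zero (Point.map (Algebra.ofId (ZMod p) (LL A B)))).symm
    rw [h1]
    exact WT_cst 0
  | succ n ih =>
    rw [succ_nsmul, Nat.cast_succ]
    exact WT_add (OR2_two hp) ih (WT_g hg)

open Classical in
private theorem OR2_WT_zsmul (hp : 5 ≤ p) {A B : ZMod p} {g : PL A B (LL A B)} (hg : IsG g) (n : ℤ) :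
    WT (n • g) (n : ZMod p) := by
  have h0 : (0 : PL A B (LL A B)) = cst 0 := (map_zero (Point.map (Algebra.ofId (ZMod p) (LL A B)))).symm
  have hW0 : WT (0 : PL A B (LL A B)) 0 := by
    rw [h0]
    exact WT_cst 0
  rcases Int.natAbs_eq n with h | h
  · rw [h, natCast_zsmul, Int.cast_natCast]
    exact OR2_WT_nsmul hp hg _
  · rw [h, neg_smul, natCast_zsmul, Int.cast_neg, Int.cast_natCast, ← zero_sub (n.natAbs • g),
      ← zero_sub ((n.natAbs : ℕ) : ZMod p)]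
    exact WT_sub (OR2_two hp) hW0 (OR2_WT_nsmul hp hg _)

open Classical in
private theorem OR2_dg_zsmul (hp : 5 ≤ p) {A B : ZMod p} (hd : 4 * A ^ 3 + 27 * B ^ 2 ≠ 0)
    {g : PL A B (LL A B)} (hg : IsG g) (n : ℤ) : (dg (n • g) : ℤ) = n ^ 2 := by
  have h3 : ∀ m : ℕ, (dg (m • g) : ℤ) = (m : ℤ) ^ 2 := by
    intro m
    rw [(dg_nsmul (OR2_two hp) hd (opt_g hg) m).2, dg_g hg, mul_one]
    push_cast
    rfl
  rcases Int.natAbs_eq n with h | h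
  · rw [h, natCast_zsmul]
    exact h3 _
  · rw [h, neg_smul, natCast_zsmul, dg_neg, neg_sq]
    exact h3 _

private theorem OR2_fb {A B : ZMod p} {g : PL A B (LL A B)} (τ : LL A B →ₐ[ZMod p] LL A B) :
    mp τ (mp (fb A B) g) = mp (fb A B) (mp τ g) := by
  rw [mp_comp, mp_comp, fb_comm]

open Classical in
private theorem OR2_ne (hp : 5 ≤ p) {A B : ZMod p} {P : PL A B (LL A B)} {n : ZMod p}
    (hW : WT P n) (hn : n ≠ 0) (T : PL A B (ZMod p)) : P ≠ cst T := by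
  intro h
  rw [h] at hW
  exact hn (WT_uniq (OR2_two hp) hW (WT_cst T))

open Classical in
private theorem OR2_cst {A B : ZMod p} (hp : 5 ≤ p) (hd : 4 * A ^ 3 + 27 * B ^ 2 ≠ 0)
    {P : PL A B (LL A B)} (hP : OPt P) (h : dg P ≠ 0) (T : PL A B (ZMod p)) : P ≠ cst T := by
  intro h1
  rw [h1] at hP h
  exact h (cst_two (OR2_two hp) hd hP)

theorem two_traces (hp : 5 ≤ p) {A B : ZMod p} (hd : 4 * A ^ 3 + 27 * B ^ 2 ≠ 0) {Ψ : PL A B (LL A B)} (hΨ : OPt Ψ)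
    {c : ZMod p} (hW : WT Ψ c) (hc0 : c ≠ 0) (h1 : 1 ≤ dg Ψ) (hc : ∀ n : ℤ, n ^ 2 = dg Ψ → c ≠ (n : ZMod p))
    (hN : ¬ p ∣ MWS.nz A B + 1) (hb : 16 * dg Ψ < p) (hb1 : 12 * dg Ψ ^ 2 + 10 * dg Ψ < p)
    (hb' : 24 * dg Ψ ^ 2 + 20 * dg Ψ * p < p * (MWS.nz A B + 1)) :
    ∃ t k : ℤ, t ^ 2 < 4 * dg Ψ ∧ (4 * p - ((p : ℤ) - MWS.nz A B) ^ 2) * (4 * dg Ψ - t ^ 2) = k ^ 2 := by
  classical
  have h2 := OR2_two hp
  obtain ⟨g, hg⟩ := exists_g h2 A B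
  have hog := opt_g hg
  have hΨc := OR2_cst hp hd hΨ (by omega)
  obtain ⟨τ₁, hτ₁⟩ := hom_point h2 hg Ψ hΨc
  obtain ⟨R, hR, hRD⟩ := Rm_exists h2 hg hΨ hτ₁
  obtain ⟨S, hS, hSD⟩ := Fm_exists hp A B
  have hofb : OPt (mp (fb A B) g) := (dg_fb hp hog).1
  obtain ⟨gM, hgM⟩ : ∃ gM : Mo A B, gM.1 = g := ⟨⟨g, hog⟩, rfl⟩
  have hRg : (R gM).1 = Ψ := by rw [hR, hgM, hτ₁]
  have hSg : (S gM).1 = mp (fb A B) g := by rw [hS, hgM]
  have hRS : ∀ x, R (S x) = S (R x) := by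
    intro x
    apply Subtype.ext
    rw [hR, hS, hS, hR]
    exact OR2_fb τ₁
  have hD0 : ∀ x, 0 ≤ Dm A B x := fun x => Int.natCast_nonneg _
  have hDg : Dm A B gM = 1 := by
    rw [Dm, hgM, dg_g hg]
    rfl
  have hDR : Dm A B (R gM) = (dg Ψ : ℤ) := by
    rw [Dm, hRg]
  have hne : ∀ n : ℤ, Dm A B (R gM - n • gM) ≠ 0 := by
    intro n hn
    have e1 := form_add_zero (Dm A B) hD0 (Dm_par h2 hd) (w := n • gM) hn
    rw [add_sub_cancel, hDR] at e1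
    have e2 : Dm A B (n • gM) = n ^ 2 := by
      rw [Dm, AddSubgroup.coe_zsmul, hgM]
      exact OR2_dg_zsmul hp hd hg n
    rw [e2] at e1
    have e3 : (R gM - n • gM).1 = Ψ - n • g := by
      rw [AddSubgroup.coe_sub, AddSubgroup.coe_zsmul, hRg, hgM]
    have e4 : dg (Ψ - n • g) = 0 := by
      rw [Dm, e3] at hn
      exact_mod_cast hn
    have e5 : OPt (Ψ - n • g) := by
      rw [← e3]
      exact (R gM - n • gM).2
    have e6 := dg_two h2 e5 e4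
    have e7 : WT (Ψ - n • g) (c - n) := WT_sub h2 hW (OR2_WT_zsmul hp hg n)
    have e8 := WT_add h2 e7 e7
    have e9 : (0 : PL A B (LL A B)) = cst 0 := (map_zero (Point.map (Algebra.ofId (ZMod p) (LL A B)))).symm
    rw [e6, e9] at e8
    have e10 := WT_uniq h2 e8 (WT_cst 0)
    have e11 : (2 : ZMod p) * (c - n) = 0 := by rw [two_mul]; exact e10
    rcases mul_eq_zero.1 e11 with e12 | e12
    · exact h2 e12
    · exact hc n e1.symm (sub_eq_zero.1 e12)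
  -- the first identity
  have hQ1 : OPt (Ψ + g) := opt_add hΨ hog
  have k1 : Dm A B (R (R gM) + R gM + (R gM + gM)) = Dm A B (R gM + gM) ^ 2 := by
    have e0 : (R gM + gM).1 = Ψ + g := by rw [AddSubgroup.coe_add, hRg, hgM]
    have e1 : dg (Ψ + g) ≠ 0 := by
      intro h
      have e2 := hne (-1)
      apply e2
      rw [neg_one_smul, sub_neg_eq_add, Dm, e0, h]
      rfl
    obtain ⟨τ₂, hτ₂⟩ := hom_point h2 hg (Ψ + g) (OR2_cst hp hd hQ1 e1)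
    obtain ⟨w1, w2⟩ := left_small h2 p hd hg hΨ hW hτ₁ hτ₂ hb1
    obtain ⟨c1, c2⟩ := dg_comp h2 hg hQ1 hQ1 hτ₂
    have e3 := form_add_zero (Dm A B) hD0 (Dm_par h2 hd) (w := R (R gM) + R gM + (R gM + gM))
      (z := (⟨mp τ₂ Ψ - mp τ₁ Ψ - Ψ, w1⟩ : Mo A B)) (by rw [Dm]; exact_mod_cast w2)
    rw [← e3]
    have e4 : (R (R gM) + R gM + (R gM + gM) + (⟨mp τ₂ Ψ - mp τ₁ Ψ - Ψ, w1⟩ : Mo A B)).1 =
        mp τ₂ (Ψ + g) := by
      rw [AddSubgroup.coe_add, AddSubgroup.coe_add, AddSubgroup.coe_add, e0, hR, hRg, mp_add, hτ₂]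
      change mp τ₁ Ψ + Ψ + (Ψ + g) + (mp τ₂ Ψ - mp τ₁ Ψ - Ψ) = mp τ₂ Ψ + (Ψ + g)
      abel
    rw [Dm, e4, c2, Dm, e0]
    push_cast
    ring
  -- the second identity
  have hφ1 : WT (mp (fb A B) g) 0 := WT_fb hg
  have hQ2 : OPt (mp (fb A B) g + g) := opt_add hofb hog
  have k2 : Dm A B (S (S gM) + S gM + (S gM + gM)) = Dm A B (S gM + gM) ^ 2 := by
    have e0 : (S gM + gM).1 = mp (fb A B) g + g := by rw [AddSubgroup.coe_add, hSg, hgM]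
    obtain ⟨τ, hτ⟩ := hom_point h2 hg (mp (fb A B) g + g)
      (OR2_ne hp (WT_add h2 hφ1 (WT_g hg)) (by rw [zero_add]; exact one_ne_zero))
    obtain ⟨c1, c2⟩ := dg_comp h2 hg hQ2 hQ2 hτ
    have e4 : (S (S gM) + S gM + (S gM + gM)).1 = mp τ (mp (fb A B) g + g) := by
      rw [AddSubgroup.coe_add, AddSubgroup.coe_add, e0, hS, hSg, mp_add τ, hτ, OR2_fb τ, hτ, mp_add (fb A B)]
    rw [Dm, e4, c2, Dm, e0]
    push_cast
    ring
  -- the third identity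
  have hQ3 : OPt (Ψ + mp (fb A B) g) := opt_add hΨ hofb
  have k3 : Dm A B (R (R gM) + S (R gM) + (S (R gM) + S (S gM))) = Dm A B (R gM + S gM) ^ 2 := by
    have e0 : (R gM + S gM).1 = Ψ + mp (fb A B) g := by rw [AddSubgroup.coe_add, hRg, hSg]
    obtain ⟨τ₂, hτ₂⟩ := hom_point h2 hg (Ψ + mp (fb A B) g)
      (OR2_ne hp (WT_add h2 hW hφ1) (by rw [add_zero]; exact hc0))
    obtain ⟨w1, w2⟩ := left_big hp hd hg hΨ hW hτ₁ hτ₂ hN hb hb'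
    obtain ⟨c1, c2⟩ := dg_comp h2 hg hQ3 hQ3 hτ₂
    have e3 := form_add_zero (Dm A B) hD0 (Dm_par h2 hd)
      (w := R (R gM) + S (R gM) + (S (R gM) + S (S gM)))
      (z := (⟨mp τ₂ Ψ - mp τ₁ Ψ - mp (fb A B) Ψ, w1⟩ : Mo A B)) (by rw [Dm]; exact_mod_cast w2)
    rw [← e3]
    have e4 : (R (R gM) + S (R gM) + (S (R gM) + S (S gM)) +
        (⟨mp τ₂ Ψ - mp τ₁ Ψ - mp (fb A B) Ψ, w1⟩ : Mo A B)).1 = mp τ₂ (Ψ + mp (fb A B) g) := by
      rw [AddSubgroup.coe_add, AddSubgroup.coe_add, AddSubgroup.coe_add, AddSubgroup.coe_add, hR, hS (R gM),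
        hS (S gM), hRg, hSg, mp_add τ₂, OR2_fb τ₂, hτ₂, mp_add (fb A B)]
      change mp τ₁ Ψ + mp (fb A B) Ψ + (mp (fb A B) Ψ + mp (fb A B) (mp (fb A B) g)) +
        (mp τ₂ Ψ - mp τ₁ Ψ - mp (fb A B) Ψ) =
        mp τ₂ Ψ + (mp (fb A B) Ψ + mp (fb A B) (mp (fb A B) g))
      abel
    rw [Dm, e4, c2, Dm, e0]
    push_cast
    ring
  have hdpos : (0 : ℤ) < dg Ψ := by exact_mod_cast h1
  obtain ⟨k, hk⟩ := form_sq (Dm A B) hD0 (Dm_par h2 hd) R S hRS hdpos hRD hSD gM hDg k1 k2 k3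
  have hlt := form_lt (Dm A B) hD0 (Dm_par h2 hd) (R gM) gM hDR hDg hne
  refine ⟨Dm A B (R gM + gM) - dg Ψ - 1, k, hlt, ?_⟩
  have htr := tr_fb hp hd hg
  have e0 : Dm A B (S gM + gM) - p - 1 = p - MWS.nz A B := by
    rw [← htr, Dm, AddSubgroup.coe_add, hSg, hgM]
  rw [e0] at hk
  exact hk

end

end OCM
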