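import Mathlib
import Pool.Agent.Lib.MP_10e784_agBS.Defs

/-!
# LEAF OT: the quadratic twist

PROOF.  `twist_nz`: for every `c` the number of the `y` with `y² = F(c)` plus the number of the `y` with `y² = u³ F(c)` is `2` (`u³` is not a square; `F(c) = 0`: `1 + 1`), and `u³ F(c) = F_u(u c)`, `F_u = X³ + A u² X + B u³`; sum over `c` (compare `MP_17a322_ntVY/CD.lean`, `MP_17a322_ntVB/BD.lean`).
`twist_cm`: `P_u = C u * P.comp (C u⁻¹ * X)`, `Q_u = Q.comp (C u⁻¹ * X)`: substitute `X ↦ u⁻¹ X` in the identity and multiply by `u³`; `(P.comp (C u⁻¹ * X))' = u⁻¹ (P'.comp ..)`.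
-/

set_option autoImplicit false

namespace OCM

open Polynomial

private theorem OT_card {p : ℕ} [Fact p.Prime] (hp : 5 ≤ p) (a b : ZMod p) :
    (MWS.nz a b : ℤ) = ∑ x : ZMod p, (quadraticChar (ZMod p) (x ^ 3 + a * x + b) + 1) := by
  classical
  have h1 : MWS.nz a b = ∑ x : ZMod p, Nat.card {y : ZMod p // y ^ 2 = x ^ 3 + a * x + b} := by
    unfold MWS.nz
    rw [Nat.card_congr (Equiv.subtypeProdEquivSigmaSubtype
      (fun x y : ZMod p => y ^ 2 = x ^ 3 + a * x + b)), Nat.card_sigma]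
  rw [h1, Nat.cast_sum]
  refine Finset.sum_congr rfl fun x _ => ?_
  have h2 : ringChar (ZMod p) ≠ 2 := by
    rw [ZMod.ringChar_zmod_n]
    omega
  rw [← quadraticChar_card_sqrts h2, Set.toFinset_card, Nat.card_eq_fintype_card]
  rfl

theorem twist_nz {p : ℕ} [Fact p.Prime] (hp : 5 ≤ p) (A B : ZMod p) {u : ZMod p} (hu : ¬ IsSquare u) :
    MWS.nz (A * u ^ 2) (B * u ^ 3) + MWS.nz A B = 2 * p := by
  classical
  have hu0 : u ≠ 0 := by
    intro h
    exact hu ⟨0, by rw [h, mul_zero]⟩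
  have h1 : ((MWS.nz (A * u ^ 2) (B * u ^ 3) + MWS.nz A B : ℕ) : ℤ) = ((2 * p : ℕ) : ℤ) := by
    rw [Nat.cast_add, OT_card hp, OT_card hp, ← Equiv.sum_comp (Equiv.mulLeft₀ u hu0), ← Finset.sum_add_distrib]
    have h2 : ∀ x : ZMod p, (quadraticChar (ZMod p)
        ((Equiv.mulLeft₀ u hu0 x) ^ 3 + A * u ^ 2 * (Equiv.mulLeft₀ u hu0 x) + B * u ^ 3) + 1) +
        (quadraticChar (ZMod p) (x ^ 3 + A * x + B) + 1) = 2 := by
      intro x
      have h3 : (Equiv.mulLeft₀ u hu0 x) ^ 3 + A * u ^ 2 * (Equiv.mulLeft₀ u hu0 x) + B * u ^ 3 =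
          u ^ 3 * (x ^ 3 + A * x + B) := by
        rw [Equiv.mulLeft₀_apply]
        ring
      rw [h3, map_mul, map_pow, quadraticChar_neg_one_iff_not_isSquare.2 hu]
      ring
    rw [Finset.sum_congr rfl fun x _ => h2 x, Finset.sum_const, Finset.card_univ, ZMod.card, nsmul_eq_mul]
    push_cast
    ring
  exact_mod_cast h1

theorem twist_cm {K : Type} [Field K] {A B s u : K} (hu : u ≠ 0) {P Q : K[X]}
    (hR : derivative P * Q - P * derivative Q ≠ 0)
    (h : C s * (Q * (P ^ 3 + C A * P * Q ^ 2 + C B * Q ^ 3)) =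
      (X ^ 3 + C A * X + C B) * (derivative P * Q - P * derivative Q) ^ 2) :
    ∃ P' Q' : K[X], P'.natDegree ≤ P.natDegree ∧ Q'.natDegree ≤ Q.natDegree ∧
      derivative P' * Q' - P' * derivative Q' ≠ 0 ∧
      C s * (Q' * (P' ^ 3 + C (A * u ^ 2) * P' * Q' ^ 2 + C (B * u ^ 3) * Q' ^ 3)) =
        (X ^ 3 + C (A * u ^ 2) * X + C (B * u ^ 3)) * (derivative P' * Q' - P' * derivative Q') ^ 2 := by
  have hCu : (C u : K[X]) * C u⁻¹ = 1 := by rw [← C_mul, mul_inv_cancel₀ hu, C_1]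
  have hd : ∀ R : K[X], derivative (R.comp (C u⁻¹ * X)) = C u⁻¹ * (derivative R).comp (C u⁻¹ * X) := by
    intro R
    rw [derivative_comp, derivative_C_mul, derivative_X, mul_one]
  have hdeg : ∀ R : K[X], (R.comp (C u⁻¹ * X)).natDegree ≤ R.natDegree := by
    intro R
    refine natDegree_comp_le.trans ?_
    calc R.natDegree * (C u⁻¹ * X : K[X]).natDegree ≤ R.natDegree * 1 := by
          refine Nat.mul_le_mul_left _ ?_
          exact (natDegree_C_mul_le _ _).trans natDegree_X_le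
      _ = R.natDegree := mul_one _
  have hW : derivative (C u * P.comp (C u⁻¹ * X)) * Q.comp (C u⁻¹ * X) -
      C u * P.comp (C u⁻¹ * X) * derivative (Q.comp (C u⁻¹ * X)) =
      (derivative P * Q - P * derivative Q).comp (C u⁻¹ * X) := by
    rw [derivative_C_mul, hd, hd, sub_comp, mul_comp, mul_comp]
    linear_combination ((derivative P).comp (C u⁻¹ * X) * Q.comp (C u⁻¹ * X) -
      P.comp (C u⁻¹ * X) * (derivative Q).comp (C u⁻¹ * X)) * hCu
  refine ⟨C u * P.comp (C u⁻¹ * X), Q.comp (C u⁻¹ * X), (natDegree_C_mul_le _ _).trans (hdeg P), hdeg Q, ?_, ?_⟩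
  · rw [hW]
    intro h0
    apply hR
    have h1 := congrArg (fun R : K[X] => R.comp (C u * X)) h0
    have h2 : (C u⁻¹ * X : K[X]).comp (C u * X) = X := by
      rw [mul_comp, C_comp, X_comp, ← mul_assoc, mul_comm (C u⁻¹), hCu, one_mul]
    simp only [comp_assoc, h2, comp_X, zero_comp] at h1
    exact h1
  · rw [hW]
    have h1 := congrArg (fun R : K[X] => R.comp (C u⁻¹ * X)) h
    simp only [mul_comp, add_comp, pow_comp, C_comp, X_comp] at h1
    rw [C_mul, C_mul, C_pow, C_pow]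
    have h3 : (C u : K[X]) ^ 3 * (C u⁻¹) ^ 3 = 1 := by rw [← mul_pow, hCu, one_pow]
    have h4 : (C u : K[X]) ^ 3 * C u⁻¹ = C u ^ 2 := by
      calc (C u : K[X]) ^ 3 * C u⁻¹ = C u ^ 2 * (C u * C u⁻¹) := by ring
        _ = C u ^ 2 := by rw [hCu, mul_one]
    linear_combination (C u : K[X]) ^ 3 * h1 +
      ((derivative P * Q - P * derivative Q).comp (C u⁻¹ * X)) ^ 2 * (X ^ 3 * h3 + C A * X * h4)

end OCM
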