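import Pool.Agent.Lib.MP_17a322_ntOC.OK2

/-!
# LEAF OW: the point given by a solution of the equation of Abel

PROOF.  `R = P' Q - P Q'`, `p(x)` for the value of a polynomial at `xL` (nonzero if the polynomial is, `xL_tr`; `Q ≠ 0` since `R ≠ 0`).  `z = P(x) / Q(x)`, `w = R(x) y / (c Q(x)²)`.  The equation at `x`: `c² Q(x) (P(x)³ + A P(x) Q(x)² + B Q(x)³) = F(x) R(x)²`, `y² = F(x)`: divided by `c² Q(x)⁴` it is `z³ + A z + B = w²`.  `Ψ = some z w`, nonsingular because `w ≠ 0`, `2 ≠ 0`.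
Odd: `σ z = z`, `σ w = - w`.  `WT`: `δ z = R(x) / Q(x)²` (`der_poly`, quotient rule), `δ z / w * y = c`.  `dg Ψ ≤ max ..`: `z` is the image of `r = P / Q`, `Rx Ψ ![r.num, r.denom]` and the degrees of `r.num`, `r.denom` are at most those of `P`, `Q` (`RatFunc.natDegree_num_div`..., or: `r.num ∣ P`, `r.denom ∣ Q` up to units: `RatFunc.num_div_dvd`, `RatFunc.denom_div_dvd`).
`1 ≤ dg Ψ`: if `dg Ψ = 0` then `Ψ + Ψ = 0`, `2 c = 0` (`WT_add`, `WT_cst` for `0`, `WT_uniq`), but `c ≠ 0`, `2 ≠ 0`.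
-/

set_option autoImplicit false

namespace OCM

open Polynomial WeierstrassCurve.Affine

variable {K : Type} [Field K]

private theorem OW_ne {A B : K} {P : K[X]} (hP : P ≠ 0) : aeval (xL A B) P ≠ 0 := by
  intro h
  exact hP (transcendental_iff_injective.1 (xL_tr A B) (by rw [h, map_zero]))

private theorem OW_y (A B : K) : yL A B ≠ 0 := by
  intro h
  have h1 : aeval (xL A B) (X ^ 3 + C A * X + C B : K[X]) = 0 := by
    rw [map_add, map_add, map_mul, map_pow, aeval_X, aeval_C, aeval_C, ← eqL, h]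
    ring
  refine OW_ne ?_ h1
  intro h0
  have hd : (X ^ 3 + C A * X + C B : K[X]).natDegree = 3 := by
    compute_degree!
  rw [h0, natDegree_zero] at hd
  exact absurd hd (by norm_num)

private theorem OW_two (h2 : (2 : K) ≠ 0) (A B : K) : (2 : LL A B) ≠ 0 := by
  rw [← map_ofNat (algebraMap K (LL A B)) 2]
  exact (_root_.map_ne_zero _).2 h2

private theorem OW_nons (h2 : (2 : K) ≠ 0) {A B : K} {z w : LL A B} (hw : w ≠ 0)
    (h : w ^ 2 = z ^ 3 + algebraMap K (LL A B) A * z + algebraMap K (LL A B) B) :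
    ((CW A B).baseChange (LL A B)).toAffine.Nonsingular z w := by
  rw [WeierstrassCurve.Affine.nonsingular_iff']
  refine ⟨?_, Or.inr ?_⟩
  · rw [WeierstrassCurve.Affine.equation_iff]
    simp only [CW, WeierstrassCurve.baseChange, WeierstrassCurve.map, map_zero]
    linear_combination h
  · simp only [CW, WeierstrassCurve.baseChange, WeierstrassCurve.map, map_zero, zero_mul, add_zero]
    exact mul_ne_zero (OW_two h2 A B) hw

private theorem OW_gcd {P Q : K[X]} (hQ : Q ≠ 0) : ∃ d P₁ Q₁ : K[X], P = d * P₁ ∧ Q = d * Q₁ ∧ IsCoprime P₁ Q₁ := by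
  classical
  obtain ⟨P₁, hP₁⟩ := EuclideanDomain.gcd_dvd_left P Q
  obtain ⟨Q₁, hQ₁⟩ := EuclideanDomain.gcd_dvd_right P Q
  have hd : EuclideanDomain.gcd P Q ≠ 0 := by
    intro h
    rw [h, zero_mul] at hQ₁
    exact hQ hQ₁
  refine ⟨EuclideanDomain.gcd P Q, P₁, Q₁, hP₁, hQ₁, ?_⟩
  have hbez := EuclideanDomain.gcd_eq_gcd_ab P Q
  refine ⟨EuclideanDomain.gcdA P Q, EuclideanDomain.gcdB P Q, ?_⟩
  generalize EuclideanDomain.gcdA P Q = u at hbez ⊢
  generalize EuclideanDomain.gcdB P Q = v at hbez ⊢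
  generalize EuclideanDomain.gcd P Q = d at hP₁ hQ₁ hd hbez ⊢
  apply mul_left_cancel₀ hd
  rw [hP₁, hQ₁] at hbez
  linear_combination -hbez

private theorem OW_le {d P P₁ : K[X]} (hd : d ≠ 0) (h : P = d * P₁) : P₁.natDegree ≤ P.natDegree := by
  rcases eq_or_ne P₁ 0 with h0 | h0
  · rw [h0, natDegree_zero]
    exact Nat.zero_le _
  · rw [h, natDegree_mul hd h0]
    exact Nat.le_add_left _ _

theorem psi_exists (h2 : (2 : K) ≠ 0) {A B c : K} (hc : c ≠ 0) {P Q : K[X]}
    (hR : derivative P * Q - P * derivative Q ≠ 0)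
    (h : C (c ^ 2) * (Q * (P ^ 3 + C A * P * Q ^ 2 + C B * Q ^ 3)) =
      (X ^ 3 + C A * X + C B) * (derivative P * Q - P * derivative Q) ^ 2) :
    ∃ Ψ : PL A B (LL A B), OPt Ψ ∧ WT Ψ c ∧ 1 ≤ dg Ψ ∧ dg Ψ ≤ max P.natDegree Q.natDegree := by
  classical
  obtain ⟨R, hRdef⟩ : ∃ R : K[X], R = derivative P * Q - P * derivative Q := ⟨_, rfl⟩
  have hQ0 : Q ≠ 0 := by
    intro h0
    apply hR
    rw [h0, derivative_zero]
    ring
  rw [← hRdef] at hR h
  have hq : aeval (xL A B) Q ≠ 0 := OW_ne hQ0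
  have hr : aeval (xL A B) R ≠ 0 := OW_ne hR
  have hy := OW_y A B
  have hcL : algebraMap K (LL A B) c ≠ 0 := (_root_.map_ne_zero _).2 hc
  have hR' : aeval (xL A B) R = aeval (xL A B) (derivative P) * aeval (xL A B) Q -
      aeval (xL A B) P * aeval (xL A B) (derivative Q) := by
    rw [hRdef, map_sub, map_mul, map_mul]
  have heq : algebraMap K (LL A B) c ^ 2 * (aeval (xL A B) Q * (aeval (xL A B) P ^ 3 +
      algebraMap K (LL A B) A * aeval (xL A B) P * aeval (xL A B) Q ^ 2 +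
        algebraMap K (LL A B) B * aeval (xL A B) Q ^ 3)) = yL A B ^ 2 * aeval (xL A B) R ^ 2 := by
    have h1 := congrArg (aeval (xL A B)) h
    simp only [map_mul, map_add, map_pow, aeval_X, aeval_C] at h1
    rw [eqL]
    exact h1
  obtain ⟨z, hz⟩ : ∃ z : LL A B, z = aeval (xL A B) P / aeval (xL A B) Q := ⟨_, rfl⟩
  obtain ⟨w, hw⟩ : ∃ w : LL A B, w = aeval (xL A B) R * yL A B /
      (algebraMap K (LL A B) c * aeval (xL A B) Q ^ 2) := ⟨_, rfl⟩
  have hw0 : w ≠ 0 := by
    rw [hw]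
    exact div_ne_zero (mul_ne_zero hr hy) (mul_ne_zero hcL (pow_ne_zero 2 hq))
  have hzw : w ^ 2 = z ^ 3 + algebraMap K (LL A B) A * z + algebraMap K (LL A B) B := by
    rw [hw, hz]
    field_simp
    linear_combination -heq
  have hns := OW_nons h2 hw0 hzw
  have hO : OPt (.some z w hns : PL A B (LL A B)) := by
    intro σ hσ hσx
    have e1 : ∀ T : K[X], σ (aeval (xL A B) T) = aeval (xL A B) T := fun T => by
      rw [← aeval_algHom_apply, hσx]
    have e2 : σ z = z := by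
      rw [hz, map_div₀, e1, e1]
    have e3 : σ w = -w := by
      rw [hw, map_div₀, map_mul, map_mul, map_pow, e1, e1, hσ, AlgHom.commutes]
      ring
    rw [mp, Point.map_some, Point.neg_some, Point.some.injEq]
    refine ⟨e2, ?_⟩
    rw [e3]
    unfold WeierstrassCurve.Affine.negY
    simp only [CW, WeierstrassCurve.baseChange, WeierstrassCurve.map, map_zero]
    ring
  have hWT : WT (.some z w hns : PL A B (LL A B)) c := by
    intro δ hδ
    show δ z / w * yL A B = algebraMap K (LL A B) c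
    have e1 : δ z = aeval (xL A B) R / aeval (xL A B) Q ^ 2 := by
      have e2 : z * aeval (xL A B) Q = aeval (xL A B) P := by
        rw [hz, div_mul_cancel₀ _ hq]
      have e3 := congrArg δ e2
      rw [Derivation.leibniz, der_poly δ hδ, der_poly δ hδ, smul_eq_mul, smul_eq_mul] at e3
      rw [eq_div_iff (pow_ne_zero 2 hq), hR']
      have e4 : aeval (xL A B) P = z * aeval (xL A B) Q := e2.symm
      rw [e4]
      linear_combination aeval (xL A B) Q * e3
    rw [e1, hw]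
    field_simp
  have hWle : dg (.some z w hns : PL A B (LL A B)) ≤ max P.natDegree Q.natDegree := by
    obtain ⟨d, P₁, Q₁, hP₁, hQ₁, hco⟩ := OW_gcd (P := P) hQ0
    have hd0 : d ≠ 0 := by
      intro h0
      rw [h0, zero_mul] at hQ₁
      exact hQ0 hQ₁
    have hQ₁0 : Q₁ ≠ 0 := by
      intro h0
      rw [h0, mul_zero] at hQ₁
      exact hQ0 hQ₁
    have hdx : aeval (xL A B) d ≠ 0 := OW_ne hd0
    have hQx : aeval (xL A B) Q₁ ≠ 0 := OW_ne hQ₁0
    have hRx : Rx (.some z w hns : PL A B (LL A B)) ![P₁, Q₁] := by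
      refine ⟨hco, aeval (xL A B) Q₁, hQx, fun i => ?_⟩
      rw [Point.xRep_some]
      fin_cases i
      · show aeval (xL A B) P₁ = aeval (xL A B) Q₁ * z
        rw [hz, hP₁, hQ₁, map_mul, map_mul]
        field_simp
      · show aeval (xL A B) Q₁ = aeval (xL A B) Q₁ * 1
        rw [mul_one]
    rw [dg_eq hRx]
    exact max_le_max (OW_le hd0 hP₁) (OW_le hd0 hQ₁)
  refine ⟨_, hO, hWT, ?_, hWle⟩
  by_contra hlt
  have h0 : dg (.some z w hns : PL A B (LL A B)) = 0 := by omega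
  have h1 := dg_two h2 hO h0
  have h3 := WT_add h2 hWT hWT
  rw [h1] at h3
  have h4 : WT (0 : PL A B (LL A B)) (0 : K) := by
    intro δ hδ
    show (0 : LL A B) * yL A B = algebraMap K (LL A B) 0
    rw [zero_mul, map_zero]
  have h5 := WT_uniq h2 h3 h4
  rw [← two_mul] at h5
  exact mul_ne_zero h2 hc h5

end OCM
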