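import Pool.Agent.Lib.MP_17a322_ntOC.OR2
import Pool.Agent.Lib.MP_17a322_ntOC.OW
import Pool.Agent.Lib.MP_17a322_ntOC.OT

/-!
# LEAF OV: the field of complex multiplication of the reduction

PROOF.  Case 1: `p` does not divide `nz + 1`.  `psi_exists`: `Ψ`, `1 ≤ dg Ψ ≤ d0`.  `hc` gives `c ≠ 0` (`n = 0`) and `c ≠ n` for `n² = dg Ψ`.  `hasse`: `(p - nz)² ≤ 4 p`, and `100 ≤ p`, so `2 nz ≥ p` (if `2 nz < p` then `(p - nz)² > p² / 4 ≥ 25 p`); so `p (nz + 1) ≥ p² / 2 ≥ 24 d0² + 20 d0 p + 1` as `p ≥ 100 (d0 + 1)²`; `16 d0 < p`, `12 d0² + 10 d0 < p`.  `two_traces`: `δ = 4 dg Ψ - t²`, `1 ≤ δ ≤ 4 d0`.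
Case 2: `p` divides `nz + 1`.  Let `u` be a nonsquare of `ZMod p` (`FiniteField.exists_nonsquare`, `p` odd), `u ≠ 0`.  `twist_nz`: `nz' + nz = 2 p`, so `(nz' + 1) + (nz + 1) = 2 p + 2` and `p` does not divide `nz' + 1` (`p ∣ 2` is false).  `twist_cm` with `s = c ^ 2`: polynomials of degrees at most `d0` for the twist; its discriminant is `u⁶ (4 A³ + 27 B²) ≠ 0`.  Case 1 for the twist, and `(p - nz')² = (nz - p)²`.
-/

set_option autoImplicit false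

namespace OCM

open Polynomial WeierstrassCurve.Affine

private theorem OV_big {d d0 p n : ℕ} (hp : 100 * (d0 + 1) ^ 2 ≤ p) (hd : d ≤ d0) (hn : ((p : ℤ) - n) ^ 2 ≤ 4 * p) :
    16 * d < p ∧ 12 * d ^ 2 + 10 * d < p ∧ 24 * d ^ 2 + 20 * d * p < p * (n + 1) := by
  have h2 : d ^ 2 ≤ d0 ^ 2 := Nat.pow_le_pow_left hd 2
  have h3 : (d0 + 1) ^ 2 = d0 ^ 2 + 2 * d0 + 1 := by ring
  rw [h3] at hp
  refine ⟨by omega, by omega, ?_⟩
  have h4 : p ≤ 2 * n := by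
    by_contra hlt
    push Not at hlt
    have h5 : (2 * (n : ℤ)) < p := by exact_mod_cast hlt
    have h6 : (100 : ℤ) ≤ p := by
      have : 100 ≤ p := by omega
      exact_mod_cast this
    nlinarith
  have h5 : d * p ≤ d0 * p := Nat.mul_le_mul_right p hd
  have h6 : p * p ≤ 2 * (p * n) := by
    have := Nat.mul_le_mul_left p h4
    linarith [this]
  have h7 : (100 * (d0 ^ 2 + 2 * d0 + 1)) * p ≤ p * p := Nat.mul_le_mul_right p hp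
  have h8 : p * (n + 1) = p * n + p := by ring
  rw [h8]
  have h9 : (100 * (d0 ^ 2 + 2 * d0 + 1)) * p = 100 * (d0 ^ 2 * p) + 200 * (d0 * p) + 100 * p := by ring
  rw [h9] at h7
  have h10 : 20 * d * p = 20 * (d * p) := by ring
  rw [h10]
  generalize d0 ^ 2 * p = a1 at h7
  generalize d0 * p = a2 at h5 h7
  generalize d * p = a3 at h5 ⊢
  generalize p * n = a4 at h6 ⊢
  generalize p * p = a5 at h6 h7
  omega

private theorem OV_case {p : ℕ} [Fact p.Prime] {A B : ZMod p} (hd : 4 * A ^ 3 + 27 * B ^ 2 ≠ 0) {d0 : ℕ}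
    (hp : 100 * (d0 + 1) ^ 2 ≤ p) (h5 : 5 ≤ p) (h2 : (2 : ZMod p) ≠ 0) {P Q : (ZMod p)[X]} (hP : P.natDegree ≤ d0)
    (hQ : Q.natDegree ≤ d0) {c : ZMod p}
    (hc : ∀ n : ℤ, n ^ 2 ≤ d0 → c ≠ (n : ZMod p)) (hR : derivative P * Q - P * derivative Q ≠ 0)
    (h : C (c ^ 2) * (Q * (P ^ 3 + C A * P * Q ^ 2 + C B * Q ^ 3)) =
      (X ^ 3 + C A * X + C B) * (derivative P * Q - P * derivative Q) ^ 2) (hN : ¬ p ∣ MWS.nz A B + 1) :
    ∃ δ k : ℤ, 1 ≤ δ ∧ δ ≤ 4 * d0 ∧ (4 * p - ((p : ℤ) - MWS.nz A B) ^ 2) * δ = k ^ 2 := by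
  have hc0 : c ≠ 0 := by
    have h1 := hc 0 (by positivity)
    rw [Int.cast_zero] at h1
    exact h1
  obtain ⟨Ψ, hO, hW, h1, hle⟩ := psi_exists h2 hc0 hR h
  have hle' : dg Ψ ≤ d0 := hle.trans (max_le hP hQ)
  obtain ⟨b1, b2, b3⟩ := OV_big (n := MWS.nz A B) hp hle' (hasse h5 hd)
  obtain ⟨t, k, ht, hk⟩ := two_traces h5 hd hO hW hc0 h1
    (fun n hn => hc n (by rw [hn]; exact_mod_cast hle')) hN b1 b2 b3
  refine ⟨4 * dg Ψ - t ^ 2, k, ?_, ?_, hk⟩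
  · linarith
  · have h3 : (dg Ψ : ℤ) ≤ d0 := by exact_mod_cast hle'
    have h4 : 0 ≤ t ^ 2 := sq_nonneg t
    linarith

theorem ord_main {p : ℕ} [Fact p.Prime] {A B : ZMod p} (hd : 4 * A ^ 3 + 27 * B ^ 2 ≠ 0) {d0 : ℕ}
    (hp : 100 * (d0 + 1) ^ 2 ≤ p) {P Q : (ZMod p)[X]} (hP : P.natDegree ≤ d0) (hQ : Q.natDegree ≤ d0) {c : ZMod p}
    (hc : ∀ n : ℤ, n ^ 2 ≤ d0 → c ≠ (n : ZMod p)) (hR : derivative P * Q - P * derivative Q ≠ 0)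
    (h : C (c ^ 2) * (Q * (P ^ 3 + C A * P * Q ^ 2 + C B * Q ^ 3)) =
      (X ^ 3 + C A * X + C B) * (derivative P * Q - P * derivative Q) ^ 2) :
    ∃ δ k : ℤ, 1 ≤ δ ∧ δ ≤ 4 * d0 ∧ (4 * p - ((p : ℤ) - MWS.nz A B) ^ 2) * δ = k ^ 2 := by
  have hp100 : 100 ≤ p := by
    have h3 : (d0 + 1) ^ 2 = d0 ^ 2 + 2 * d0 + 1 := by ring
    rw [h3] at hp
    omega
  have h5 : 5 ≤ p := by omega
  have h2 : (2 : ZMod p) ≠ 0 := by
    intro h0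
    have h1 : ((2 : ℕ) : ZMod p) = 0 := by exact_mod_cast h0
    rw [ZMod.natCast_eq_zero_iff] at h1
    have := Nat.le_of_dvd (by norm_num) h1
    omega
  by_cases hN : p ∣ MWS.nz A B + 1
  · have hch : ringChar (ZMod p) ≠ 2 := by
      rw [ZMod.ringChar_zmod_n]
      omega
    obtain ⟨u, hu⟩ := FiniteField.exists_nonsquare hch
    have hu0 : u ≠ 0 := by
      rintro rfl
      exact hu (IsSquare.zero)
    have hnz := twist_nz h5 A B hu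
    obtain ⟨P', Q', hP', hQ', hR', h'⟩ := twist_cm hu0 hR h
    have hd' : 4 * (A * u ^ 2) ^ 3 + 27 * (B * u ^ 3) ^ 2 ≠ 0 := by
      have h6 : 4 * (A * u ^ 2) ^ 3 + 27 * (B * u ^ 3) ^ 2 = u ^ 6 * (4 * A ^ 3 + 27 * B ^ 2) := by ring
      rw [h6]
      exact mul_ne_zero (pow_ne_zero 6 hu0) hd
    have hN' : ¬ p ∣ MWS.nz (A * u ^ 2) (B * u ^ 3) + 1 := by
      intro h7
      have h8 : p ∣ (MWS.nz (A * u ^ 2) (B * u ^ 3) + 1) + (MWS.nz A B + 1) := dvd_add h7 hN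
      have h9 : (MWS.nz (A * u ^ 2) (B * u ^ 3) + 1) + (MWS.nz A B + 1) = p * 2 + 2 := by omega
      rw [h9] at h8
      have h10 : p ∣ 2 := (Nat.dvd_add_right (Dvd.intro 2 rfl)).1 h8
      have := Nat.le_of_dvd (by norm_num) h10
      omega
    obtain ⟨δ, k, e1, e2, e3⟩ := OV_case hd' hp h5 h2 (hP'.trans hP) (hQ'.trans hQ) hc hR' h' hN'
    refine ⟨δ, k, e1, e2, ?_⟩
    rw [← e3]
    have h11 : (MWS.nz (A * u ^ 2) (B * u ^ 3) : ℤ) = 2 * p - MWS.nz A B := by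
      have : ((MWS.nz (A * u ^ 2) (B * u ^ 3) + MWS.nz A B : ℕ) : ℤ) = ((2 * p : ℕ) : ℤ) := by rw [hnz]
      push_cast at this
      linarith
    rw [h11]
    ring
  · exact OV_case hd hp h5 h2 hP hQ hc hR h hN

end OCM
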