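import Pool.Agent.Lib.MP_17a322_ntOC.OXDef
import Pool.Agent.Lib.MP_17a322_ntVY.CE

/-!
# LEAF OX: the reduction of Abel's equation

PROOF.  Copy the proof of `cm_red` (`Pool/Agent/Lib/MP_17a322_ntVY/CE.lean`; its private lemmas have to be copied too, with the prefix `OX_`).  `P`, `Q` are scaled to polynomials over `𝓞 K` by a common integer (both sides are homogeneous of degree `4` in `(P, Q)`, so `s` does not change; the degrees do not grow); `d0 = max P.natDegree Q.natDegree`; `s = s₁ / s₂` with `s₁, s₂` in `𝓞 K`, `s₂ ≠ 0`; multiply the equation by `s₂`.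
For `p` large the images under `φ` of the following finitely many nonzero elements of `𝓞 K` are not `0` (as in `cm_red`: norms): `s₂`, a nonzero coefficient of `P' Q - P Q'`, and `s₁ - n² s₂` for the integers `n` with `n² ≤ d0`.  `s = φ s₁ / φ s₂`; `P`, `Q` are the images (`natDegree_map_le`).
-/

set_option autoImplicit false

namespace OCM

open Polynomial NumberField

private theorem OX_norm {K : Type} [Field K] [NumberField K] (P : K[X]) :
    ∃ (P₁ : (𝓞 K)[X]) (b : 𝓞 K), b ≠ 0 ∧ P₁.map (algebraMap (𝓞 K) K) = C (algebraMap (𝓞 K) K b) * P := by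
  obtain ⟨b, hbm, hb⟩ := IsLocalization.integerNormalization_spec (nonZeroDivisors (𝓞 K)) P
  refine ⟨_, b, nonZeroDivisors.ne_zero hbm, hb.trans ?_⟩
  ext i
  rw [coeff_smul, coeff_C_mul, Algebra.smul_def]

private theorem OX_norm2 {K : Type} [Field K] [NumberField K] (P Q : K[X]) :
    ∃ (P₁ Q₁ : (𝓞 K)[X]) (n : K), n ≠ 0 ∧ P₁.map (algebraMap (𝓞 K) K) = C n * P ∧
      Q₁.map (algebraMap (𝓞 K) K) = C n * Q := by
  obtain ⟨P₁, b, hb, hP⟩ := OX_norm P
  obtain ⟨Q₁, b', hb', hQ⟩ := OX_norm Q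
  refine ⟨C b' * P₁, C b * Q₁, algebraMap (𝓞 K) K (b * b'), ?_, ?_, ?_⟩
  · exact (map_ne_zero_iff _ (FaithfulSMul.algebraMap_injective (𝓞 K) K)).2 (mul_ne_zero hb hb')
  · rw [Polynomial.map_mul, map_C, hP, map_mul, map_mul]
    ring
  · rw [Polynomial.map_mul, map_C, hQ, map_mul, map_mul]
    ring

private theorem OX_dvd {K : Type} [Field K] [NumberField K] (a : 𝓞 K) {p : ℕ} (φ : 𝓞 K →+* ZMod p) (h : φ a = 0) :
    p ∣ Ideal.absNorm (Ideal.span {a}) := by
  have h1 := Ideal.absNorm_mem (Ideal.span {a})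
  obtain ⟨b, hb⟩ := Ideal.mem_span_singleton.1 h1
  have h2 := congrArg φ hb
  rw [map_mul, h, zero_mul, map_natCast] at h2
  exact (ZMod.natCast_eq_zero_iff _ _).1 h2

theorem cm_red2 {K : Type} [Field K] [NumberField K] (A B : 𝓞 K) (h : VK.HasCM ((A : 𝓞 K) : K) ((B : 𝓞 K) : K)) :
    ∃ p1 d0 : ℕ, ∀ (p : ℕ) [Fact p.Prime], p1 ≤ p → ∀ φ : 𝓞 K →+* ZMod p,
      ∃ (s : ZMod p) (P Q : (ZMod p)[X]), (∀ n : ℤ, n ^ 2 ≤ d0 → s ≠ (n : ZMod p) ^ 2) ∧ P.natDegree ≤ d0 ∧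
        Q.natDegree ≤ d0 ∧ derivative P * Q - P * derivative Q ≠ 0 ∧
        C s * (Q * (P ^ 3 + C (φ A) * P * Q ^ 2 + C (φ B) * Q ^ 3)) =
          (X ^ 3 + C (φ A) * X + C (φ B)) * (derivative P * Q - P * derivative Q) ^ 2 := by
  obtain ⟨P, Q, s, hs, hR, hE⟩ := h
  obtain ⟨P₁, Q₁, n, hn, hP, hQ⟩ := OX_norm2 P Q
  obtain ⟨s₁, s₂, hs₂, hs12⟩ := IsFractionRing.div_surjective (A := 𝓞 K) s
  have hs₂0 : s₂ ≠ 0 := nonZeroDivisors.ne_zero hs₂
  have hinj := FaithfulSMul.algebraMap_injective (𝓞 K) K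
  have hs₂K : algebraMap (𝓞 K) K s₂ ≠ 0 := (map_ne_zero_iff _ hinj).2 hs₂0
  have hss : s * algebraMap (𝓞 K) K s₂ = algebraMap (𝓞 K) K s₁ := by
    rw [← hs12, div_mul_cancel₀ _ hs₂K]
  have hsn : ∀ m : ℤ, s₁ - (m : 𝓞 K) ^ 2 * s₂ ≠ 0 := by
    intro m h0
    apply hs m
    have h1 := congrArg (algebraMap (𝓞 K) K) (sub_eq_zero.1 h0)
    rw [map_mul, map_pow, map_intCast, ← hss] at h1
    exact mul_right_cancel₀ hs₂K h1
  have hRm : (derivative P₁ * Q₁ - P₁ * derivative Q₁).map (algebraMap (𝓞 K) K) =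
      C (n ^ 2) * (derivative P * Q - P * derivative Q) := by
    rw [Polynomial.map_sub, Polynomial.map_mul, Polynomial.map_mul, ← derivative_map, ← derivative_map, hP, hQ,
      derivative_C_mul, derivative_C_mul, C_pow]
    ring
  have hR₁ : derivative P₁ * Q₁ - P₁ * derivative Q₁ ≠ 0 := by
    intro h0
    rw [h0, Polynomial.map_zero] at hRm
    exact mul_ne_zero (C_ne_zero.2 (pow_ne_zero 2 hn)) hR hRm.symm
  obtain ⟨i, hi⟩ : ∃ i, (derivative P₁ * Q₁ - P₁ * derivative Q₁).coeff i ≠ 0 := by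
    by_contra hcon
    push Not at hcon
    exact hR₁ (Polynomial.ext fun i => by rw [hcon i, coeff_zero])
  have hE₁ : C s₁ * (Q₁ * (P₁ ^ 3 + C A * P₁ * Q₁ ^ 2 + C B * Q₁ ^ 3)) =
      C s₂ * ((X ^ 3 + C A * X + C B) * (derivative P₁ * Q₁ - P₁ * derivative Q₁) ^ 2) := by
    apply Polynomial.map_injective _ hinj
    have e1 : C (algebraMap (𝓞 K) K s₁) = C s * C (algebraMap (𝓞 K) K s₂) := by
      rw [← C_mul, hss]
    rw [Polynomial.map_mul, Polynomial.map_mul, Polynomial.map_mul, Polynomial.map_mul, Polynomial.map_pow (n := 2), hRm,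
      Polynomial.map_add, Polynomial.map_add, Polynomial.map_add, Polynomial.map_add, Polynomial.map_mul, Polynomial.map_mul,
      Polynomial.map_mul, Polynomial.map_mul, Polynomial.map_pow, Polynomial.map_pow, Polynomial.map_pow, Polynomial.map_pow,
      hP, hQ, map_C, map_C, map_C, map_C, map_X, C_pow, e1]
    linear_combination (C (algebraMap (𝓞 K) K s₂) * C n ^ 4) * hE
  obtain ⟨d, hd⟩ : ∃ d : ℕ, d = max P₁.natDegree Q₁.natDegree := ⟨_, rfl⟩
  obtain ⟨a, ha⟩ : ∃ a : 𝓞 K, a = s₂ * (derivative P₁ * Q₁ - P₁ * derivative Q₁).coeff i *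
      ∏ m ∈ Finset.Icc (-(d : ℤ)) (d : ℤ), (s₁ - (m : 𝓞 K) ^ 2 * s₂) := ⟨_, rfl⟩
  have ha0 : a ≠ 0 := by
    rw [ha]
    exact mul_ne_zero (mul_ne_zero hs₂0 hi) (Finset.prod_ne_zero_iff.2 fun m _ => hsn m)
  refine ⟨Ideal.absNorm (Ideal.span {a}) + 1, d, fun p hp hp1 φ => ?_⟩
  have hφa : φ a ≠ 0 := by
    intro h0
    have h1 := OX_dvd a φ h0
    have h2 : Ideal.absNorm (Ideal.span {a}) ≠ 0 := by
      rw [Ne, Ideal.absNorm_eq_zero_iff, Ideal.span_singleton_eq_bot]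
      exact ha0
    have h3 := Nat.le_of_dvd (Nat.pos_of_ne_zero h2) h1
    omega
  rw [ha, map_mul, map_mul, map_prod] at hφa
  have hφm := Finset.prod_ne_zero_iff.1 (right_ne_zero_of_mul hφa)
  have hφ2 := left_ne_zero_of_mul (left_ne_zero_of_mul hφa)
  have hφc := right_ne_zero_of_mul (left_ne_zero_of_mul hφa)
  have hRφ : derivative (P₁.map φ) * Q₁.map φ - P₁.map φ * derivative (Q₁.map φ) =
      (derivative P₁ * Q₁ - P₁ * derivative Q₁).map φ := by
    rw [Polynomial.map_sub, Polynomial.map_mul, Polynomial.map_mul, derivative_map, derivative_map]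
  refine ⟨φ s₁ / φ s₂, P₁.map φ, Q₁.map φ, ?_, ?_, ?_, ?_, ?_⟩
  · intro m hm h0
    have hmd : m ∈ Finset.Icc (-(d : ℤ)) (d : ℤ) := by
      rw [Finset.mem_Icc]
      constructor
      · nlinarith
      · nlinarith
    apply hφm m hmd
    rw [map_sub, map_mul, map_pow, map_intCast, ← h0, div_mul_cancel₀ _ hφ2, sub_self]
  · rw [hd]
    exact natDegree_map_le.trans (le_max_left _ _)
  · rw [hd]
    exact natDegree_map_le.trans (le_max_right _ _)
  · rw [hRφ]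
    intro h0
    apply hφc
    rw [← coeff_map, h0, coeff_zero]
  · rw [hRφ]
    have h1 := congrArg (Polynomial.map φ) hE₁
    rw [Polynomial.map_mul, Polynomial.map_mul, Polynomial.map_mul, Polynomial.map_mul,
      Polynomial.map_pow (n := 2) (p := derivative P₁ * Q₁ - P₁ * derivative Q₁), map_C, map_C] at h1
    have e2 : (P₁ ^ 3 + C A * P₁ * Q₁ ^ 2 + C B * Q₁ ^ 3).map φ =
        P₁.map φ ^ 3 + C (φ A) * P₁.map φ * Q₁.map φ ^ 2 + C (φ B) * Q₁.map φ ^ 3 := by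
      simp only [Polynomial.map_add, Polynomial.map_mul, Polynomial.map_pow, map_C]
    have e3 : (X ^ 3 + C A * X + C B : (𝓞 K)[X]).map φ = X ^ 3 + C (φ A) * X + C (φ B) := by
      simp only [Polynomial.map_add, Polynomial.map_mul, Polynomial.map_pow, map_C, map_X]
    rw [e2, e3] at h1
    have h2 : C (φ s₁ / φ s₂) = C ((φ s₂)⁻¹) * C (φ s₁) := by
      rw [← C_mul, div_eq_inv_mul]
    have h3 : C ((φ s₂)⁻¹) * C (φ s₂) = (1 : (ZMod p)[X]) := by
      rw [← C_mul, inv_mul_cancel₀ hφ2, C_1]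
    rw [h2, mul_assoc, h1, ← mul_assoc, h3, one_mul]

end OCM
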