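import Pool.Agent.Lib.MP_17a322_ntOC.OV
import Pool.Agent.Lib.MP_17a322_ntOC.OX
import Pool.Agent.Lib.MP_17a322_ntVY.CC
import Pool.Agent.Lib.MP_17a322_ntVY.CD

/-!
# LEAF OY: the traces of the reductions of a curve with complex multiplication (Deuring)

PROOF.  `cm_red2`: `p1`, `d0`.  The discriminant `4 A³ + 27 B²` is a nonzero element of `𝓞 K`: its image is not `0` for `p ≥ p2` (norm, as in `cm_red`).  `p0 = max (max p1 p2) (100 (d0 + 1)²)`.  If `s` is not a square: `hasse_zero` and `card_of_coeff` (namespace `VK`): `nz = p` (`MWS.nz` unfolds to that cardinality).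
If `s = c²` (`IsSquare`: `s = c * c`): `ord_main` (`c = n` would give `s = n²`).  `δ ≤ 4 d0`; so `CMF` with `d0' = 4 d0`.
-/

set_option autoImplicit false

namespace OCM

open Polynomial NumberField

/-- the trace `a = p - nz` of Frobenius at the primes of degree one of a curve over `𝓞 K`: `0`, or `(4 p - a²) δ` is a square
for a bounded positive `δ` -/
def CMF {K : Type} [Field K] [NumberField K] (A B : 𝓞 K) : Prop :=
  ∃ d0 p0 : ℕ, ∀ (p : ℕ) [Fact p.Prime], p0 ≤ p → ∀ φ : 𝓞 K →+* ZMod p, 4 * (φ A) ^ 3 + 27 * (φ B) ^ 2 ≠ 0 ∧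
    (MWS.nz (φ A) (φ B) = p ∨ ∃ δ k : ℤ, 1 ≤ δ ∧ δ ≤ d0 ∧
      (4 * p - ((p : ℤ) - MWS.nz (φ A) (φ B)) ^ 2) * δ = k ^ 2)

private theorem OY_dvd {K : Type} [Field K] [NumberField K] (a : 𝓞 K) {p : ℕ} (φ : 𝓞 K →+* ZMod p)
    (h : φ a = 0) : p ∣ Ideal.absNorm (Ideal.span {a}) := by
  have h1 := Ideal.absNorm_mem (Ideal.span {a})
  obtain ⟨b, hb⟩ := Ideal.mem_span_singleton.1 h1
  have h2 := congrArg φ hb
  rw [map_mul, h, zero_mul, map_natCast] at h2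
  exact (ZMod.natCast_eq_zero_iff _ _).1 h2

theorem cmf_of {K : Type} [Field K] [NumberField K] {A B : 𝓞 K} (hd : 4 * A ^ 3 + 27 * B ^ 2 ≠ 0)
    (h : VK.HasCM ((A : 𝓞 K) : K) ((B : 𝓞 K) : K)) : CMF A B := by
  obtain ⟨p1, d0, h1⟩ := cm_red2 A B h
  refine ⟨4 * d0, max (max p1 (Ideal.absNorm (Ideal.span {4 * A ^ 3 + 27 * B ^ 2}) + 1))
    (100 * (d0 + 1) ^ 2), fun p _ hp φ => ?_⟩
  have hp1 : p1 ≤ p := ((le_max_left _ _).trans (le_max_left _ _)).trans hp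
  have hp2 : Ideal.absNorm (Ideal.span {4 * A ^ 3 + 27 * B ^ 2}) + 1 ≤ p :=
    ((le_max_right _ _).trans (le_max_left _ _)).trans hp
  have hp3 : 100 * (d0 + 1) ^ 2 ≤ p := (le_max_right _ _).trans hp
  have hp6 : 1 ≤ (d0 + 1) ^ 2 := Nat.one_le_pow _ _ (Nat.succ_pos d0)
  have hp5 : 5 ≤ p := by omega
  have hda : 4 * (φ A) ^ 3 + 27 * (φ B) ^ 2 ≠ 0 := by
    intro h0
    have h2 : φ (4 * A ^ 3 + 27 * B ^ 2) = 0 := by
      rw [map_add, map_mul, map_mul, map_pow, map_pow, map_ofNat, map_ofNat]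
      exact h0
    have h3 := OY_dvd _ φ h2
    have h4 : Ideal.absNorm (Ideal.span {4 * A ^ 3 + 27 * B ^ 2}) ≠ 0 := by
      rw [Ne, Ideal.absNorm_eq_zero_iff, Ideal.span_singleton_eq_bot]
      exact hd
    have h5 := Nat.le_of_dvd (Nat.pos_of_ne_zero h4) h3
    omega
  refine ⟨hda, ?_⟩
  obtain ⟨s, P, Q, hs, hP, hQ, hR, hE⟩ := h1 p hp1 φ
  by_cases hsq : IsSquare s
  · right
    obtain ⟨c, rfl⟩ := hsq
    obtain ⟨δ, k, h6, h7, h8⟩ := ord_main hda hp3 hP hQ (c := c)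
      (fun n hn he => hs n hn (by rw [he, pow_two])) hR (by rw [pow_two]; exact hE)
    exact ⟨δ, k, h6, by exact_mod_cast h7, h8⟩
  · left
    exact VK.card_of_coeff hp5 _ _ (VK.hasse_zero hp5 (φ A) (φ B) s hsq P Q hR hE)

end OCM
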