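import Pool.Agent.Lib.MP_17a322_ntOC.PDefs
import Pool.Agent.Lib.MP_17a322_ntVB.BF
import Pool.Agent.Lib.MP_10e784_agBS.S6

/-!
# LEAF PB: one product of curves, some of them with smooth orders at the primes of `S`

PROOF.  Copy `one_tupleV` (`Pool/Agent/Lib/MP_17a322_ntVB/BF.lean`, and its private lemmas, with the prefix `PB_`).  The only difference: the fixed curves have at the place `π` a number of points `nz + 1` all of whose prime factors are at most `Y` (there: `nz = p` and `p + 1`).  `nz + 1 ≤ 2 p + 1 ≤ 3 X` (`MWS.nz_le`, `MP_10e784_agBS/S6.lean`), `MWS.dvd_prim (nz + 1) (3 * X) Y ..` in place of `MWS.dvd_prim (q + 1) ..`.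
-/

namespace OCM

open Finset NumberField LVH VK

private theorem PB_primorial {Y : ℕ} (hY : 4 ≤ Y) : 2 ≤ primorial Y := by
  refine Nat.le_of_dvd (primorial_pos Y) ?_
  unfold primorial
  exact Finset.dvd_prod_of_mem (f := fun p => p) (a := 2)
    (Finset.mem_filter.2 ⟨Finset.mem_range.2 (by omega), Nat.prime_two⟩)

private theorem PB_box {ι : Type} [Fintype ι] [DecidableEq ι] {H : ℕ} (hH : 1 ≤ H) (Q : (ι → ℤ) → Prop) :
    (Nat.card {c : ι → ℤ // (∀ i, |c i| ≤ (H : ℤ)) ∧ Q c} : ℝ) ≤ (4 * (H : ℝ)) ^ Fintype.card ι := by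
  classical
  rw [MWS.VM_card H Q]
  have h1 : ((Fintype.piFinset (fun _ : ι => Icc (-(H : ℤ)) H)).filter Q).card ≤ (2 * H + 1) ^ Fintype.card ι := by
    refine (card_filter_le _ _).trans ?_
    rw [Fintype.card_piFinset, Finset.prod_const, Int.card_Icc, card_univ]
    refine Nat.pow_le_pow_left ?_ _
    omega
  have h2 : (((Fintype.piFinset (fun _ : ι => Icc (-(H : ℤ)) H)).filter Q).card : ℝ) ≤ ((2 * H + 1 : ℕ) : ℝ) ^ Fintype.card ι := by
    exact_mod_cast h1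
  refine h2.trans ?_
  have h3 : (1 : ℝ) ≤ H := by exact_mod_cast hH
  refine pow_le_pow_left₀ (by positivity) ?_ _
  push_cast
  linarith

private theorem PB_ndvd {p Y b : ℕ} (hp : p.Prime) (h : Y < p) : ¬ p ∣ primorial Y ^ b := by
  intro h1
  have h2 : p ∣ primorial Y := hp.dvd_of_dvd_pow h1
  unfold primorial at h2
  rw [hp.prime.dvd_finsetProd_iff] at h2
  obtain ⟨q, hq, h3⟩ := h2
  rw [Finset.mem_filter, Finset.mem_range] at hq
  have h4 : p ≤ q := Nat.le_of_dvd hq.2.pos h3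
  omega

private theorem PB_aAl {K : Type} [Field K] [NumberField K] {e h g : ℕ} (ω : Fin e → 𝓞 K) (A' : Fin h → 𝓞 K) (z : Cv e g)
    (i : Fin h) : aA ω A' z (Fin.castAdd g i) = ((A' i : 𝓞 K) : K) := Fin.append_left _ _ i

private theorem PB_aAr {K : Type} [Field K] [NumberField K] {e h g : ℕ} (ω : Fin e → 𝓞 K) (A' : Fin h → 𝓞 K) (z : Cv e g)
    (j : Fin g) : aA ω A' z (Fin.natAdd h j) = cA ω (z j) := Fin.append_right _ _ j

private theorem PB_aBl {K : Type} [Field K] [NumberField K] {e h g : ℕ} (ω : Fin e → 𝓞 K) (B' : Fin h → 𝓞 K) (z : Cv e g)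
    (i : Fin h) : aB ω B' z (Fin.castAdd g i) = ((B' i : 𝓞 K) : K) := Fin.append_left _ _ i

private theorem PB_aBr {K : Type} [Field K] [NumberField K] {e h g : ℕ} (ω : Fin e → 𝓞 K) (B' : Fin h → 𝓞 K) (z : Cv e g)
    (j : Fin g) : aB ω B' z (Fin.natAdd h j) = cB ω (z j) := Fin.append_right _ _ j

open Classical in
theorem one_tupleO {K : Type} [Field K] [NumberField K] [DecidableEq K] (L : Type) [Field L] [NumberField L] {p0 : ℕ}
    {ι : Type} [Fintype ι] [DecidableEq ι] {e n h g : ℕ} {κ : ℝ} (h0 : 0 ≤ κ) (h1 : κ ≤ 1) {R : Loc K n (h + g) ι}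
    (hR : DensK L p0 R κ) (ω : Fin e → 𝓞 K) (A' B' : Fin h → 𝓞 K) (hd' : ∀ l, ds (A' l) (B' l) ≠ 0) {t t' : ℕ} (z : Cv e g)
    (hd : ∀ l, ds (el ω (z l).1) (el ω (z l).2) ≠ 0) (hF' : ∀ l, FewK ((A' l : 𝓞 K) : K) ((B' l : 𝓞 K) : K) t)
    (hF : ∀ l, FewK (cA ω (z l)) (cB ω (z l)) t)
    {Γ : Subgroup Kˣ} (hΓ : TCls Γ n t') (S : Finset ℕ) (w : (p : ℕ) → Fin e → ZMod p) {X U Y b H : ℕ}
    (hw : ∀ p ∈ S, ∃ π : Pl K p, (∀ k, Rd π ((ω k : 𝓞 K) : K) (w p k)) ∧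
      (∀ l, ds (res π ((A' l : 𝓞 K) : K)) (res π ((B' l : 𝓞 K) : K)) ≠ 0 ∧
        ∀ q : ℕ, q.Prime → q ∣ MWS.nz (res π ((A' l : 𝓞 K) : K)) (res π ((B' l : 𝓞 K) : K)) + 1 → q ≤ Y) ∧
      ∀ γ ∈ Γ, (γ : K) ∈ π.V ∧ (γ : K)⁻¹ ∈ π.V)
    (hS : ∀ p ∈ S, p.Prime ∧ 11 ≤ p ∧ p ≤ X ∧ Y < p ∧ p0 ≤ p ∧ D1 L p ∧
      ∀ q : ℕ, q.Prime → q ∣ p - 1 → q ≤ Y)
    (hU : 1 ≤ U) (hY : 4 * U ≤ Y) (hX : 3 * X ≤ Y * U ^ 1) (he : 3 * X ≤ 2 ^ b) (hq : ∏ p ∈ S, p ≤ H) :
    (Nat.card {c : ι → ℤ // (∀ i, |c i| ≤ (H : ℤ)) ∧ ∃ x : Fin n → Kˣ, (∀ l, x l ∈ Γ) ∧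
      ∃ P : (l : Fin (h + g)) → Pt (aA ω A' z l) (aB ω B' z l),
        AdmK L p0 R (A := aA ω A' z) (B := aB ω B' z) c x P} : ℝ) ≤
      ((primorial Y : ℝ) ^ b) ^ (t' + (t + 1) * (h + g)) * ((4 * (H : ℝ)) ^ Fintype.card ι *
        (1 - κ) ^ (S.filter fun p => ∀ l, MWS.Gk p U 1 (∑ k, (((z l).1 k : ℤ) : ZMod p) * w p k,
          ∑ k, (((z l).2 k : ℤ) : ZMod p) * w p k)).card) := by
  have hprod : ∀ T : Finset ℕ, T ⊆ S → ∏ p ∈ T, p ≤ ∏ p ∈ S, p := fun T hT =>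
    Finset.prod_le_prod_of_subset_of_one_le' hT fun p hp _ => (hS p hp).1.one_lt.le
  have hH : 1 ≤ H := by
    have := (hprod ∅ (Finset.empty_subset S)).trans hq
    simpa using this
  have hP : 2 ≤ primorial Y := PB_primorial (by omega)
  obtain ⟨T, hTdef⟩ : ∃ T : Finset ℕ, T = S.filter fun p => ∀ l, MWS.Gk p U 1 (∑ k, (((z l).1 k : ℤ) : ZMod p) * w p k,
          ∑ k, (((z l).2 k : ℤ) : ZMod p) * w p k) :=
    ⟨_, rfl⟩
  rw [← hTdef]
  have hTS : T ⊆ S := by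
    rw [hTdef]
    exact Finset.filter_subset _ _
  rcases T.eq_empty_or_nonempty with hT | ⟨p, hp⟩
  · rw [hT, Finset.card_empty, pow_zero, mul_one]
    refine (PB_box hH _).trans ?_
    have h2 : (1 : ℝ) ≤ ((primorial Y : ℝ) ^ b) ^ (t' + (t + 1) * (h + g)) := by
      refine one_le_pow₀ (one_le_pow₀ ?_)
      have : (2 : ℝ) ≤ primorial Y := by exact_mod_cast hP
      linarith
    have h3 : (0 : ℝ) ≤ (4 * (H : ℝ)) ^ Fintype.card ι := by positivity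
    nlinarith
  · have hG : ∀ q ∈ T, ∀ l, MWS.Gk q U 1 (∑ k, (((z l).1 k : ℤ) : ZMod q) * w q k,
          ∑ k, (((z l).2 k : ℤ) : ZMod q) * w q k) := fun q hq => by
      rw [hTdef] at hq
      exact (Finset.mem_filter.1 hq).2
    have hlog : Nat.log 2 (3 * X) ≤ b := by
      calc Nat.log 2 (3 * X) ≤ Nat.log 2 (2 ^ b) := Nat.log_mono_right he
        _ = b := Nat.log_pow one_lt_two b
    have hT' : ∀ q ∈ T, q.Prime ∧ 3 ≤ q ∧ p0 ≤ q ∧ D1 L q ∧ q - 1 ∣ primorial Y ^ b ∧ ∃ π : Pl K q,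
        (∀ l, aA ω A' z l ∈ π.V ∧ aB ω B' z l ∈ π.V) ∧
        (∀ l, ds (res π (aA ω A' z l)) (res π (aB ω B' z l)) ≠ 0 ∧
          MWS.nz (res π (aA ω A' z l)) (res π (aB ω B' z l)) + 1 ∣ primorial Y ^ b) ∧
        ∀ γ ∈ Γ, (γ : K) ∈ π.V ∧ (γ : K)⁻¹ ∈ π.V := by
      intro q hq
      obtain ⟨a1, a2, a3, a4, a5, a6, a7⟩ := hS q (hTS hq)
      obtain ⟨π, c1, c3, c2⟩ := hw q (hTS hq)
      have : Fact q.Prime := ⟨a1⟩
      have e1 : ∀ l, res π (cA ω (z l)) = ∑ k, (((z l).1 k : ℤ) : ZMod q) * w q k := fun l =>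
        res_eq (el_rd c1 (z l).1)
      have e2 : ∀ l, res π (cB ω (z l)) = ∑ k, (((z l).2 k : ℤ) : ZMod q) * w q k := fun l =>
        res_eq (el_rd c1 (z l).2)
      refine ⟨a1, by omega, a5, a6, ?_, π, fun l => ?_, fun l => ?_, c2⟩
      · exact (MWS.dvd_prim (q - 1) (3 * X) Y (by omega) (by omega) fun r hr hr' => a7 r hr hr').trans
          (pow_dvd_pow _ hlog)
      · refine Fin.addCases (fun i => ?_) (fun j => ?_) l
        · rw [PB_aAl, PB_aBl]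
          exact ⟨int_mem π _, int_mem π _⟩
        · rw [PB_aAr, PB_aBr]
          exact ⟨int_mem π _, int_mem π _⟩
      · refine Fin.addCases (fun i => ?_) (fun j => ?_) l
        · rw [PB_aAl, PB_aBl]
          refine ⟨(c3 i).1, ?_⟩
          have hnz := MWS.nz_le a1 (res π ((A' i : 𝓞 K) : K)) (res π ((B' i : 𝓞 K) : K))
          exact (MWS.dvd_prim (MWS.nz (res π ((A' i : 𝓞 K) : K)) (res π ((B' i : 𝓞 K) : K)) + 1) (3 * X) Y (by omega)
            (by omega) (c3 i).2).trans (pow_dvd_pow _ hlog)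
        · rw [PB_aAr, PB_aBr, e1, e2]
          exact ⟨(hG q hq j).1, MWS.Gk_dvd a1 a3 (hG q hq j) hU hY hX he⟩
    obtain ⟨b1, b2, b3, b4, -, -, -⟩ := hS p (hTS hp)
    obtain ⟨-, -, -, -, -, π, d1, d2, d3⟩ := hT' p hp
    have : Fact p.Prime := ⟨b1⟩
    have hL : 2 * p + 1 ≤ primorial Y ^ b := by
      have : 2 ^ b ≤ primorial Y ^ b := Nat.pow_le_pow_left hP b
      omega
    have hds : ∀ l, ds (aA ω A' z l) (aB ω B' z l) ≠ 0 := by
      intro l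
      refine Fin.addCases (fun i => ?_) (fun j => ?_) l
      · rw [PB_aAl, PB_aBl]
        intro h
        refine hd' i (RingOfIntegers.ext ?_)
        unfold ds at h
        unfold ds
        push_cast
        exact h
      · rw [PB_aAr, PB_aBr]
        intro h
        refine hd j (RingOfIntegers.ext ?_)
        unfold ds cA cB at h
        unfold ds
        push_cast
        exact h
    have hFew : ∀ l, FewK (aA ω A' z l) (aB ω B' z l) t := by
      intro l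
      refine Fin.addCases (fun i => ?_) (fun j => ?_) l
      · rw [PB_aAl, PB_aBl]
        exact hF' i
      · rw [PB_aAr, PB_aBr]
        exact hF j
    have hcls := fun l => few_clsK (hds l) (hFew l) π (d1 l).1 (d1 l).2 (by omega) (d2 l).1
      (PB_ndvd (b := b) b1 b4) hL
    choose r hr using hcls
    obtain ⟨s, hs1, hs2⟩ := hΓ (primorial Y ^ b) (by omega)
    have key := fixedK L h0 h1 hR r hr s hs1 hs2 T hT' (H := H) ((hprod T hTS).trans hq)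
    refine key.trans (le_of_eq ?_)
    push_cast
    rw [pow_add _ t' ((t + 1) * (h + g)), pow_mul _ (t + 1) (h + g)]

end OCM
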