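import Pool.Agent.Lib.MP_17a322_ntOC.PC
import Pool.Agent.Lib.MP_17a322_ntVB.BH

/-!
# LEAF PD: the sieve on average

PROOF.  Copy `coreV` (`Pool/Agent/Lib/MP_17a322_ntVB/BH.lean`, and its private lemmas, with the prefix `PD_`) with `totalO` (PC) in place of `totalV`, and the parameters `A`, `Q`, `x0` from the hypothesis `hSm : Smo L A' B'` in place of `smoothV L hJ`; `S₀ = SO L A' B' A Q X`; there is no `p1` and no `Ssg`: the conditions at the places are in the definition of `SO`.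
The constant `c₀` comes after `A'`, `B'` because `A` depends on them.
-/

namespace OCM

open Finset NumberField LVH VK

/-- the bad part has the right power of `H` -/
private theorem PD_pow (e g : ℕ) {H : ℝ} (hH : 0 ≤ H) :
    (g : ℝ) * (H ^ (5 * e) * ((16 * H ^ 5) ^ e) ^ (g - 1)) ≤ g * (16 ^ e) ^ g * H ^ (5 * e * g) := by
  cases g with
  | zero => simp
  | succ n =>
    rw [Nat.add_sub_cancel, mul_pow, mul_pow]
    have h1 : ((n + 1 : ℕ) : ℝ) * (H ^ (5 * e) * ((16 ^ e) ^ n * ((H ^ 5) ^ e) ^ n)) =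
        (n + 1 : ℕ) * (16 ^ e) ^ n * H ^ (5 * e * (n + 1)) := by
      have h2 : H ^ (5 * e * (n + 1)) = H ^ (5 * e) * ((H ^ 5) ^ e) ^ n := by
        rw [← pow_mul, ← pow_mul, ← pow_add]
        congr 1
        ring
      rw [h2]
      ring
    rw [h1]
    refine mul_le_mul_of_nonneg_right ?_ (pow_nonneg hH _)
    refine mul_le_mul_of_nonneg_left ?_ (Nat.cast_nonneg _)
    rw [pow_succ]
    have h2 : (0 : ℝ) ≤ (16 ^ e) ^ n := by positivity
    have h3 : (1 : ℝ) ≤ 16 ^ e := one_le_pow₀ (by norm_num)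
    exact le_mul_of_one_le_right h2 h3

/-- one choice of the parameters -/
private theorem PD_step {K : Type} [Field K] [NumberField K] [DecidableEq K] (L : Type) [Field L] [NumberField L]
    {p0 : ℕ} {ι : Type} [Fintype ι] [DecidableEq ι] {e n h g : ℕ} {κ : ℝ} (h0 : 0 ≤ κ) (h1 : κ ≤ 1) {R : Loc K n (h + g) ι}
    (hR : DensK L p0 R κ) (ω : Module.Basis (Fin e) ℤ (𝓞 K)) (A' B' : Fin h → 𝓞 K)
    (hd' : ∀ l, ds (A' l) (B' l) ≠ 0) {C c₀ γ₀ : ℝ} (hC : 0 ≤ C) {k t t' H : ℕ} (hH : 1 ≤ H)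
    (hF' : ∀ l, FewK ((A' l : 𝓞 K) : K) ((B' l : 𝓞 K) : K) t)
    (hbad : (Nat.card {z : (Fin e → ℤ) × (Fin e → ℤ) // (∀ i, |z.1 i| ≤ (H : ℤ) ^ 2) ∧ (∀ i, |z.2 i| ≤ (H : ℤ) ^ 3) ∧
      ds (el ω z.1) (el ω z.2) ≠ 0 ∧ ¬ FewK ((el ω z.1 : 𝓞 K) : K) ((el ω z.2 : 𝓞 K) : K) t} : ℝ) * 2 ^ t ≤
      C * (H : ℝ) ^ (5 * e) * (1 + Real.log H) ^ k)
    {Γ : Subgroup Kˣ} (hΓ : TCls Γ n t') (S : Finset ℕ) (w : (p : ℕ) → Fin e → ZMod p)
    {X U Y b : ℕ}
    (hw : ∀ p ∈ S, ∃ π : Pl K p, (∀ k, Rd π ((ω k : 𝓞 K) : K) (w p k)) ∧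
      (∀ l, ds (res π ((A' l : 𝓞 K) : K)) (res π ((B' l : 𝓞 K) : K)) ≠ 0 ∧
        ∀ q : ℕ, q.Prime → q ∣ MWS.nz (res π ((A' l : 𝓞 K) : K)) (res π ((B' l : 𝓞 K) : K)) + 1 → q ≤ Y) ∧
      ∀ γ ∈ Γ, (γ : K) ∈ π.V ∧ (γ : K)⁻¹ ∈ π.V)
    (hS : ∀ p ∈ S, p.Prime ∧ 11 ≤ p ∧ p ≤ X ∧ Y < p ∧ p0 ≤ p ∧ D1 L p ∧ ∀ q : ℕ, q.Prime → q ∣ p - 1 → q ≤ Y)
    (hU : 1 ≤ U) (hY : 4 * U ≤ Y) (hX : 3 * X ≤ Y * U ^ 1) (he : 3 * X ≤ 2 ^ b) (hq : 4 ^ X ≤ H) (hγ0 : 0 ≤ γ₀)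
    (hγ : ∀ p ∈ S, γ₀ * (p : ℝ) ^ 2 ≤ (Nat.card {z // MWS.Gk p U 1 z} : ℝ)) (htt : t' ≤ t)
    (hl : (((h + g : ℕ) : ℝ) + 1) * (((t : ℝ) + 1) * b * Y * Real.log 4) + (Real.log H) ^ c₀ ≤ κ * (S.card * γ₀ ^ g))
    (ht : k * Real.log (1 + Real.log H) + (Real.log H) ^ c₀ ≤ t * Real.log 2) :
    (Nat.card (ZV L p0 (n := n) (g := g) (ι := ι) ω A' B' Γ H R) : ℝ) ≤
      4 ^ Fintype.card ι * ((16 ^ e) ^ g + g * C * (16 ^ e) ^ g) * (H : ℝ) ^ (Fintype.card ι + 5 * e * g) *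
        Real.exp (-(Real.log H) ^ c₀) := by
  have hHr : (1 : ℝ) ≤ H := by exact_mod_cast hH
  have hlog : 0 ≤ Real.log H := Real.log_nonneg hHr
  have hq' : ∏ p ∈ S, p ≤ H := by
    refine le_trans ?_ ((primorial_le_four_pow X).trans hq)
    unfold primorial
    refine prod_le_prod_of_subset_of_one_le' (fun p hp => ?_) (fun p hp _ => ?_)
    · obtain ⟨a1, a2, a3, -⟩ := hS p hp
      exact mem_filter.2 ⟨mem_range.2 (by omega), a1⟩
    · exact (mem_filter.1 hp).2.one_le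
  have h2 := totalO L h0 h1 hR ω A' B' hd' hC hH hF' hbad hΓ S w hw hS hU hY hX he hq' (fun _ => γ₀) (fun _ _ => hγ0) hγ
  refine h2.trans ?_
  have hpr : (1 : ℝ) ≤ (primorial Y : ℝ) ^ b := by
    refine one_le_pow₀ ?_
    have : 1 ≤ primorial Y := primorial_pos Y
    exact_mod_cast this
  have e1 : ((primorial Y : ℝ) ^ b) ^ (t' + (t + 1) * (h + g)) ≤
      Real.exp ((((h + g : ℕ) : ℝ) + 1) * (((t : ℝ) + 1) * b * Y * Real.log 4)) := by
    have a1 : (primorial Y : ℝ) ≤ 4 ^ Y := by exact_mod_cast primorial_le_four_pow Y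
    have a2 : Real.exp ((((h + g : ℕ) : ℝ) + 1) * (((t : ℝ) + 1) * b * Y * Real.log 4)) =
        ((((4 : ℝ) ^ Y) ^ b) ^ (t + 1)) ^ (h + g + 1) := by
      have a3 : Real.log (((((4 : ℝ) ^ Y) ^ b) ^ (t + 1)) ^ (h + g + 1)) =
          (((h + g : ℕ) : ℝ) + 1) * (((t : ℝ) + 1) * b * Y * Real.log 4) := by
        rw [Real.log_pow, Real.log_pow, Real.log_pow, Real.log_pow]
        push_cast
        ring
      rw [← a3, Real.exp_log (by positivity)]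
    rw [a2]
    calc ((primorial Y : ℝ) ^ b) ^ (t' + (t + 1) * (h + g)) ≤ ((primorial Y : ℝ) ^ b) ^ ((t + 1) * (h + g + 1)) := by
          refine pow_le_pow_right₀ hpr ?_
          have : (t + 1) * (h + g + 1) = (t + 1) * (h + g) + t + 1 := by ring
          omega
      _ = (((primorial Y : ℝ) ^ b) ^ (t + 1)) ^ (h + g + 1) := by rw [pow_mul]
      _ ≤ _ := pow_le_pow_left₀ (by positivity) (pow_le_pow_left₀ (by positivity)
          (pow_le_pow_left₀ (by positivity) a1 _) _) _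
  have e2 : κ * ∑ p ∈ S, (fun _ : ℕ => γ₀) p ^ g = κ * (S.card * γ₀ ^ g) := by
    rw [sum_const, nsmul_eq_mul]
  have e3 : ((primorial Y : ℝ) ^ b) ^ (t' + (t + 1) * (h + g)) *
      (((16 * (H : ℝ) ^ 5) ^ e) ^ g * Real.exp (-(κ * ∑ p ∈ S, (fun _ : ℕ => γ₀) p ^ g))) ≤
      (16 ^ e) ^ g * (H : ℝ) ^ (5 * e * g) * Real.exp (-(Real.log H) ^ c₀) := by
    rw [e2]
    calc ((primorial Y : ℝ) ^ b) ^ (t' + (t + 1) * (h + g)) *
          (((16 * (H : ℝ) ^ 5) ^ e) ^ g * Real.exp (-(κ * (S.card * γ₀ ^ g)))) ≤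
          Real.exp ((((h + g : ℕ) : ℝ) + 1) * (((t : ℝ) + 1) * b * Y * Real.log 4)) *
            (((16 * (H : ℝ) ^ 5) ^ e) ^ g * Real.exp (-(κ * (S.card * γ₀ ^ g)))) :=
          mul_le_mul_of_nonneg_right e1 (by positivity)
      _ = (16 ^ e) ^ g * (H : ℝ) ^ (5 * e * g) *
            Real.exp ((((h + g : ℕ) : ℝ) + 1) * (((t : ℝ) + 1) * b * Y * Real.log 4) - κ * (S.card * γ₀ ^ g)) := by
          rw [sub_eq_add_neg, Real.exp_add, mul_pow, mul_pow, ← pow_mul, ← pow_mul]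
          ring
      _ ≤ (16 ^ e) ^ g * (H : ℝ) ^ (5 * e * g) * Real.exp (-(Real.log H) ^ c₀) := by
          refine mul_le_mul_of_nonneg_left (Real.exp_le_exp.2 ?_) (by positivity)
          linarith
  have e4 : (1 + Real.log H) ^ k / 2 ^ t ≤ Real.exp (-(Real.log H) ^ c₀) := by
    rw [div_le_iff₀ (by positivity)]
    have a1 : (2 : ℝ) ^ t = Real.exp (t * Real.log 2) := by
      rw [← Real.log_pow, Real.exp_log (by positivity)]
    calc (1 + Real.log H) ^ k = Real.exp (k * Real.log (1 + Real.log H)) := by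
          rw [← Real.log_pow, Real.exp_log (by positivity)]
      _ ≤ Real.exp (-(Real.log H) ^ c₀ + t * Real.log 2) := Real.exp_le_exp.2 (by linarith)
      _ = _ := by rw [Real.exp_add, a1]
  have e5 : (g : ℝ) * (C * (H : ℝ) ^ (5 * e) * (1 + Real.log H) ^ k / 2 ^ t) * ((16 * (H : ℝ) ^ 5) ^ e) ^ (g - 1) ≤
      g * C * (16 ^ e) ^ g * (H : ℝ) ^ (5 * e * g) * Real.exp (-(Real.log H) ^ c₀) := by
    calc (g : ℝ) * (C * (H : ℝ) ^ (5 * e) * (1 + Real.log H) ^ k / 2 ^ t) * ((16 * (H : ℝ) ^ 5) ^ e) ^ (g - 1) =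
          C * ((g : ℝ) * ((H : ℝ) ^ (5 * e) * ((16 * (H : ℝ) ^ 5) ^ e) ^ (g - 1))) *
            ((1 + Real.log H) ^ k / 2 ^ t) := by ring
      _ ≤ C * ((g : ℝ) * (16 ^ e) ^ g * (H : ℝ) ^ (5 * e * g)) * ((1 + Real.log H) ^ k / 2 ^ t) := by
          refine mul_le_mul_of_nonneg_right (mul_le_mul_of_nonneg_left ?_ hC) (by positivity)
          exact PD_pow e g (by linarith)
      _ ≤ C * ((g : ℝ) * (16 ^ e) ^ g * (H : ℝ) ^ (5 * e * g)) * Real.exp (-(Real.log H) ^ c₀) :=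
          mul_le_mul_of_nonneg_left e4 (by positivity)
      _ = _ := by ring
  calc (4 * (H : ℝ)) ^ Fintype.card ι * (((primorial Y : ℝ) ^ b) ^ (t' + (t + 1) * (h + g)) *
        (((16 * (H : ℝ) ^ 5) ^ e) ^ g * Real.exp (-(κ * ∑ p ∈ S, (fun _ : ℕ => γ₀) p ^ g))) +
        g * (C * (H : ℝ) ^ (5 * e) * (1 + Real.log H) ^ k / 2 ^ t) * ((16 * (H : ℝ) ^ 5) ^ e) ^ (g - 1)) ≤
        (4 * (H : ℝ)) ^ Fintype.card ι * ((16 ^ e) ^ g * (H : ℝ) ^ (5 * e * g) * Real.exp (-(Real.log H) ^ c₀) +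
          g * C * (16 ^ e) ^ g * (H : ℝ) ^ (5 * e * g) * Real.exp (-(Real.log H) ^ c₀)) :=
        mul_le_mul_of_nonneg_left (add_le_add e3 e5) (by positivity)
    _ = _ := by
        rw [mul_pow, pow_add]
        ring

theorem coreO (K : Type) [Field K] [NumberField K] [DecidableEq K] (hFR : FactRK K) (hFQ : MWS.FactQ) (L : Type)
    [Field L] [NumberField L] [Algebra K L] {h : ℕ} (A' B' : Fin h → 𝓞 K) (hd' : ∀ l, ds (A' l) (B' l) ≠ 0)
    (hSm : Smo L A' B') : ∃ c₀ : ℝ, 0 < c₀ ∧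
    ∀ (e : ℕ) (ω : Module.Basis (Fin e) ℤ (𝓞 K)) (Γ : Subgroup Kˣ), Γ.FG →
    ∀ (n g p0 N : ℕ) (κ : ℝ), 0 < κ → κ ≤ 1 → ∃ C : ℝ, ∀ H : ℕ, 1 ≤ H →
    ∀ (ι : Type) [Fintype ι] [DecidableEq ι], Fintype.card ι = N → ∀ R : Loc K n (h + g) ι, DensK L p0 R κ →
    (Nat.card (ZV L p0 (n := n) (g := g) (ι := ι) ω A' B' Γ H R) : ℝ) ≤
      C * (H : ℝ) ^ (N + 5 * e * g) * Real.exp (-(Real.log H) ^ c₀) := by
  classical
  obtain ⟨c', hc', K₁, hP'⟩ := hFQ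
  obtain ⟨A, hA1, hA2, Q, hQ, x0, hx0, hSS⟩ := hSm
  obtain ⟨c₀, hc₀, hpar⟩ := par_HK K₁ A hA1
  set c : ℝ := min c' 1 with hcdef
  have hc : 0 < c := lt_min hc' one_pos
  have hc1 : c ≤ 1 := min_le_right _ _
  have hP : ∀ U : ℕ, K₁ ≤ U → ∀ p : ℕ, p.Prime → U ^ K₁ ≤ p →
      (K₁ : ℝ) * Real.log p ≤ U → c * (p : ℝ) ^ 2 / Real.log p ≤ (Nat.card {z // MWS.Gk p U 1 z} : ℝ) := by
    intro U h1 p h2 h3 h4
    refine le_trans ?_ (hP' U h1 p h2 h3 h4)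
    have h5 : 0 ≤ Real.log p := Real.log_natCast_nonneg p
    gcongr
    exact min_le_left _ _
  refine ⟨c₀, hc₀, fun e ω Γ hΓ n g p0 N κ hκ hκ1 => ?_⟩
  obtain ⟨tf, htf⟩ := few_all K hFR A' B' hd'
  obtain ⟨CR, k, hRR⟩ := hFR e ω
  obtain ⟨t', hT⟩ := fg_cls K Γ hΓ n
  have hTC : TCls Γ n t' := hT
  obtain ⟨M₀, hM₀⟩ := fg_pl K Γ hΓ
  have hQ0 : 0 < Q := by linarith
  have hg : 0 < κ * c ^ (h + g + 1) / Q := by positivity
  obtain ⟨H₀, hH₀⟩ := hpar (h + g + 1) k (max t' tf) Q (κ * c ^ (h + g + 1) / Q) hQ hg (x0 + (11 + p0 + M₀ + 2))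
  set M : ℝ := max CR 0 with hM
  have hM0 : 0 ≤ M := le_max_right _ _
  have hbad : ∀ H : ℕ, 1 ≤ H → ∀ t : ℕ,
      (Nat.card {z : (Fin e → ℤ) × (Fin e → ℤ) // (∀ i, |z.1 i| ≤ (H : ℤ) ^ 2) ∧ (∀ i, |z.2 i| ≤ (H : ℤ) ^ 3) ∧
        ds (el ω z.1) (el ω z.2) ≠ 0 ∧ ¬ FewK ((el ω z.1 : 𝓞 K) : K) ((el ω z.2 : 𝓞 K) : K) t} : ℝ) * 2 ^ t ≤
      M * (H : ℝ) ^ (5 * e) * (1 + Real.log H) ^ k := by
    intro H hH t
    have hHr : (1 : ℝ) ≤ H := by exact_mod_cast hH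
    have hlogH : 0 ≤ Real.log H := Real.log_nonneg hHr
    refine (hRR H hH t).trans ?_
    refine mul_le_mul_of_nonneg_right ?_ (by positivity)
    exact mul_le_mul_of_nonneg_right (le_max_left _ _) (by positivity)
  set C1 : ℝ := 4 ^ N * ((16 ^ e) ^ g + g * M * (16 ^ e) ^ g) with hC1
  set C2 : ℝ := 4 ^ N * ((16 ^ e) ^ g + g * (M * (1 + Real.log H₀) ^ k) * (16 ^ e) ^ g) *
    Real.exp ((Real.log H₀) ^ c₀) with hC2
  refine ⟨max C1 C2, fun H hH ι _ _ hι R hR => ?_⟩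
  subst hι
  have hHr : (1 : ℝ) ≤ H := by exact_mod_cast hH
  have hlogH : 0 ≤ Real.log H := Real.log_nonneg hHr
  have hE : 0 < Real.exp (-(Real.log H) ^ c₀) := Real.exp_pos _
  rcases lt_or_ge H H₀ with hlt | hge
  · -- small `H`
    have h2 := totalO L hκ.le hκ1 hR ω A' B' hd' hM0 (k := k) (t := tf) hH htf (hbad H hH tf) hTC ∅ (fun _ _ => 0)
      (fun p hp => absurd hp (notMem_empty p)) (X := 0) (U := 1) (Y := 4) (b := 0)
      (fun p hp => absurd hp (notMem_empty p)) le_rfl (by norm_num) (by norm_num) (by norm_num)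
      (by rw [prod_empty]; exact hH) (fun _ => 0) (fun p hp => absurd hp (notMem_empty p))
      (fun p hp => absurd hp (notMem_empty p))
    refine h2.trans ?_
    have hle : (H : ℝ) ≤ H₀ := by exact_mod_cast hlt.le
    have hl : Real.log H ≤ Real.log H₀ := Real.log_le_log (by linarith) hle
    have hl0 : 0 ≤ Real.log H₀ := hlogH.trans hl
    have e1 : (g : ℝ) * (M * (H : ℝ) ^ (5 * e) * (1 + Real.log H) ^ k / 2 ^ tf) *
        ((16 * (H : ℝ) ^ 5) ^ e) ^ (g - 1) ≤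
        g * (M * (1 + Real.log H₀) ^ k) * (16 ^ e) ^ g * (H : ℝ) ^ (5 * e * g) := by
      have e0 : M * (H : ℝ) ^ (5 * e) * (1 + Real.log H) ^ k / 2 ^ tf ≤ M * (H : ℝ) ^ (5 * e) * (1 + Real.log H) ^ k :=
        div_le_self (by positivity) (one_le_pow₀ (by norm_num))
      refine le_trans (mul_le_mul_of_nonneg_right (mul_le_mul_of_nonneg_left e0 (Nat.cast_nonneg g))
        (by positivity)) ?_
      calc (g : ℝ) * (M * (H : ℝ) ^ (5 * e) * (1 + Real.log H) ^ k) * ((16 * (H : ℝ) ^ 5) ^ e) ^ (g - 1) =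
            (M * (1 + Real.log H) ^ k) * ((g : ℝ) * ((H : ℝ) ^ (5 * e) * ((16 * (H : ℝ) ^ 5) ^ e) ^ (g - 1))) := by
              ring
        _ ≤ (M * (1 + Real.log H₀) ^ k) * ((g : ℝ) * (16 ^ e) ^ g * (H : ℝ) ^ (5 * e * g)) := by
            refine mul_le_mul ?_ (PD_pow e g (by linarith)) (by positivity) (by positivity)
            exact mul_le_mul_of_nonneg_left (pow_le_pow_left₀ (by linarith) (by linarith) _) hM0
        _ = _ := by ring
    have e2 : (4 * (H : ℝ)) ^ Fintype.card ι * (((primorial 4 : ℝ) ^ 0) ^ (t' + (tf + 1) * (h + g)) *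
        (((16 * (H : ℝ) ^ 5) ^ e) ^ g * Real.exp (-(κ * ∑ p ∈ (∅ : Finset ℕ), (fun _ : ℕ => (0 : ℝ)) p ^ g))) +
          g * (M * (H : ℝ) ^ (5 * e) * (1 + Real.log H) ^ k / 2 ^ tf) * ((16 * (H : ℝ) ^ 5) ^ e) ^ (g - 1)) ≤
        (4 ^ Fintype.card ι * ((16 ^ e) ^ g + g * (M * (1 + Real.log H₀) ^ k) * (16 ^ e) ^ g)) *
          (H : ℝ) ^ (Fintype.card ι + 5 * e * g) := by
      rw [sum_empty, mul_zero, neg_zero, Real.exp_zero, mul_one, pow_zero, one_pow, one_mul]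
      calc (4 * (H : ℝ)) ^ Fintype.card ι * (((16 * (H : ℝ) ^ 5) ^ e) ^ g +
              g * (M * (H : ℝ) ^ (5 * e) * (1 + Real.log H) ^ k / 2 ^ tf) * ((16 * (H : ℝ) ^ 5) ^ e) ^ (g - 1)) ≤
            (4 * (H : ℝ)) ^ Fintype.card ι * (((16 * (H : ℝ) ^ 5) ^ e) ^ g +
              g * (M * (1 + Real.log H₀) ^ k) * (16 ^ e) ^ g * (H : ℝ) ^ (5 * e * g)) :=
            mul_le_mul_of_nonneg_left (by linarith) (by positivity)
        _ = _ := by
            have a1 : ((16 * (H : ℝ) ^ 5) ^ e) ^ g = (16 ^ e) ^ g * (H : ℝ) ^ (5 * e * g) := by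
              rw [mul_pow, mul_pow, ← pow_mul (H : ℝ) 5 e, ← pow_mul (H : ℝ) (5 * e) g]
            rw [a1, mul_pow, pow_add]
            ring
    refine e2.trans ?_
    have e3 : 1 ≤ Real.exp ((Real.log H₀) ^ c₀) * Real.exp (-(Real.log H) ^ c₀) := by
      rw [← Real.exp_add]
      refine Real.one_le_exp ?_
      have := Real.rpow_le_rpow hlogH hl hc₀.le
      linarith
    have e4 : 0 ≤ 4 ^ Fintype.card ι * ((16 ^ e) ^ g + g * (M * (1 + Real.log H₀) ^ k) * (16 ^ e) ^ g) *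
        (H : ℝ) ^ (Fintype.card ι + 5 * e * g) := by
      positivity
    calc (4 ^ Fintype.card ι * ((16 ^ e) ^ g + g * (M * (1 + Real.log H₀) ^ k) * (16 ^ e) ^ g)) *
            (H : ℝ) ^ (Fintype.card ι + 5 * e * g) ≤
          (4 ^ Fintype.card ι * ((16 ^ e) ^ g + g * (M * (1 + Real.log H₀) ^ k) * (16 ^ e) ^ g)) *
            (H : ℝ) ^ (Fintype.card ι + 5 * e * g) *
            (Real.exp ((Real.log H₀) ^ c₀) * Real.exp (-(Real.log H) ^ c₀)) := le_mul_of_one_le_right e4 e3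
      _ = C2 * (H : ℝ) ^ (Fintype.card ι + 5 * e * g) * Real.exp (-(Real.log H) ^ c₀) := by
          rw [hC2]
          ring
      _ ≤ max C1 C2 * (H : ℝ) ^ (Fintype.card ι + 5 * e * g) * Real.exp (-(Real.log H) ^ c₀) := by
          refine mul_le_mul_of_nonneg_right ?_ hE.le
          exact mul_le_mul_of_nonneg_right (le_max_right _ _) (by positivity)
  · obtain ⟨X, U, t, b, Y, hxX, hq, h11, hU1, hUK, hUX, hUl, he, hY, hX, hYX, hXA, htt, hl, ht⟩ := hH₀ H hge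
    have hx3 : (0 : ℝ) ≤ p0 := Nat.cast_nonneg _
    have hx4 : (0 : ℝ) ≤ M₀ := Nat.cast_nonneg _
    have htt1 : t' ≤ t := (le_max_left _ _).trans htt
    have htt2 : tf ≤ t := (le_max_right _ _).trans htt
    have hX3 : (11 : ℝ) ≤ X := by linarith
    have hlX : 1 ≤ Real.log X := by
      rw [Real.le_log_iff_exp_le (by linarith)]
      have := Real.exp_one_lt_d9
      linarith
    have hlX0 : 0 < Real.log X := by linarith
    set S₀ := SO L A' B' A Q (X : ℝ) with hS₀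
    have hcard := hSS (X : ℝ) (by linarith)
    rw [← hS₀] at hcard
    have hle : ∀ q : ℕ, (q : ℝ) ^ A ≤ X → q ≤ Y := by
      intro q h7
      by_contra hcon
      push Not at hcon
      have h5 : (Y : ℝ) < q := by exact_mod_cast hcon
      have h6 : (Y : ℝ) ^ A < (q : ℝ) ^ A := Real.rpow_lt_rpow (Nat.cast_nonneg _) h5 (by linarith)
      linarith
    have hmem : ∀ p ∈ S₀, p.Prime ∧ D1 L p ∧ 11 + p0 + M₀ + 1 < p ∧ p ≤ X ∧ U ^ K₁ ≤ p ∧ Y < p ∧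
        (∀ q : ℕ, q.Prime → q ∣ p - 1 → q ≤ Y) ∧ ∀ (π : Pl K p) (l : Fin h),
          ds (res π ((A' l : 𝓞 K) : K)) (res π ((B' l : 𝓞 K) : K)) ≠ 0 ∧ ∀ q : ℕ, q.Prime →
            q ∣ MWS.nz (res π ((A' l : 𝓞 K) : K)) (res π ((B' l : 𝓞 K) : K)) + 1 → q ≤ Y := by
      intro p hp
      rw [hS₀] at hp
      unfold SO at hp
      rw [mem_filter, mem_Ioc] at hp
      obtain ⟨⟨a1, a2⟩, a3, a5, a8, a6⟩ := hp
      have a4 : (X : ℝ) / Q < p := (Nat.floor_lt (by positivity)).1 a1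
      rw [Nat.floor_natCast] at a2
      refine ⟨a3, a5, ?_, a2, ?_, ?_, fun q hq1 hq2 => hle q (a6 q hq1 hq2), fun π l =>
        ⟨(a8 π l).1, fun q hq1 hq2 => hle q ((a8 π l).2 q hq1 hq2)⟩⟩
      · have h3 : ((11 + p0 + M₀ + 1 : ℕ) : ℝ) < p := by
          push_cast
          linarith
        exact_mod_cast h3
      · have : ((U ^ K₁ : ℕ) : ℝ) < p := by
          push_cast
          linarith
        exact (by exact_mod_cast this : U ^ K₁ < p).le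
      · have : (Y : ℝ) < p := hYX.trans a4
        exact_mod_cast this
    have hpl : ∀ p ∈ S₀, Nonempty (Pl K p) := fun p hp => sub_pl (hmem p hp).1 (hmem p hp).2.1
    have hlp : ∀ p ∈ S₀, 0 < Real.log p ∧ Real.log p ≤ Real.log X := by
      intro p hp
      obtain ⟨a1, -, a2, a3, -⟩ := hmem p hp
      have b1 : (11 : ℝ) ≤ p := by exact_mod_cast (by omega : 11 ≤ p)
      have b2 : (p : ℝ) ≤ X := by exact_mod_cast a3
      exact ⟨Real.log_pos (by linarith), Real.log_le_log (by linarith) b2⟩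
    have hfin : 4 ^ Fintype.card ι * ((16 ^ e) ^ g + g * M * (16 ^ e) ^ g) *
        (H : ℝ) ^ (Fintype.card ι + 5 * e * g) * Real.exp (-(Real.log H) ^ c₀) ≤
        max C1 C2 * (H : ℝ) ^ (Fintype.card ι + 5 * e * g) * Real.exp (-(Real.log H) ^ c₀) := by
      refine mul_le_mul_of_nonneg_right ?_ hE.le
      exact mul_le_mul_of_nonneg_right (le_max_left _ _) (by positivity)
    refine le_trans ?_ hfin
    refine PD_step L hκ.le hκ1 hR ω A' B' hd' hM0 (k := k) (t := t) hH (fun l => few_mono htt2 (htf l)) (hbad H hH t) hTC S₀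
      (fun p i => if h : p ∈ S₀ then res (hpl p h).some ((ω i : 𝓞 K) : K) else 0) ?_
      (X := X) (U := U) (Y := Y) (b := b) (γ₀ := c / Real.log X) ?_ hU1 hY hX he hq (by positivity) ?_ htt1 ?_ ht
    · intro p hp
      refine ⟨(hpl p hp).some, fun i => ?_, fun l => ?_, fun γ hγ => ?_⟩
      · rw [dif_pos hp]
        exact rd_res (int_mem _ _)
      · obtain ⟨a1, a2, a3, -, -, -, -, a8⟩ := hmem p hp
        exact a8 _ l
      · obtain ⟨a1, -, a2, -⟩ := hmem p hp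
        exact hM₀ p a1 (by omega) _ γ hγ
    · intro p hp
      obtain ⟨a1, a2, a3, a4, a5, a6, a7, -⟩ := hmem p hp
      exact ⟨a1, by omega, a4, a6, by omega, a2, a7⟩
    · intro p hp
      obtain ⟨b1, b2⟩ := hlp p hp
      obtain ⟨d1, -, -, -, d2, -⟩ := hmem p hp
      have a1 := hP U hUK p d1 d2 ((mul_le_mul_of_nonneg_left b2 (Nat.cast_nonneg _)).trans hUl)
      refine le_trans ?_ a1
      rw [div_mul_eq_mul_div]
      exact div_le_div_of_nonneg_left (by positivity) b1 b2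
    · have hl' : (((h + g : ℕ) : ℝ) + 1) * (((t : ℝ) + 1) * b * Y * Real.log 4) + (Real.log H) ^ c₀ ≤
          κ * c ^ (h + g + 1) / Q * X / (Real.log X) ^ (h + g + 1 + 1) := by
        have := hl
        push_cast at this ⊢
        exact this
      refine hl'.trans ?_
      have e1 : κ * c ^ (h + g + 1) / Q * X / (Real.log X) ^ (h + g + 1 + 1) =
          κ * ((X / (Q * Real.log X)) * (c / Real.log X) ^ (h + g + 1)) := by
        rw [div_pow, pow_succ (Real.log X) (h + g + 1)]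
        field_simp
      rw [e1]
      refine mul_le_mul_of_nonneg_left ?_ hκ.le
      have e2 : 0 ≤ c / Real.log X := by positivity
      have e3 : c / Real.log X ≤ 1 := by
        rw [div_le_one hlX0]
        linarith
      have e4 : (c / Real.log X) ^ (h + g + 1) ≤ (c / Real.log X) ^ g := pow_le_pow_of_le_one e2 e3 (by omega)
      exact mul_le_mul hcard e4 (by positivity) (Nat.cast_nonneg _)

end OCM
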