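import Pool.Agent.Lib.MP_17a322_ntVB.Defs
import Pool.Agent.Lib.MP_17a322_ntOC.OY

/-!
# Many primes such that all the orders are smooth: definitions
-/

namespace OCM

open Finset NumberField LVH VK

open Classical in
/-- the primes `p` in `(x / Q, x]`, of degree one in `L`, such that all prime factors of `p - 1` are at most `x ^ (1 / A)` and
at every place of `K` with residue field the prime field all the fixed curves have good reduction and all prime factors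
of the number of points are at most `x ^ (1 / A)` -/
noncomputable def SO {K : Type} [Field K] [NumberField K] (L : Type) [Field L] [NumberField L] {h : ℕ} (A' B' : Fin h → 𝓞 K)
    (A Q x : ℝ) : Finset ℕ :=
  (Ioc ⌊x / Q⌋₊ ⌊x⌋₊).filter fun p => p.Prime ∧ D1 L p ∧ (∀ (π : Pl K p) (l : Fin h),
    ds (res π ((A' l : 𝓞 K) : K)) (res π ((B' l : 𝓞 K) : K)) ≠ 0 ∧ ∀ q : ℕ, q.Prime →
      q ∣ MWS.nz (res π ((A' l : 𝓞 K) : K)) (res π ((B' l : 𝓞 K) : K)) + 1 → (q : ℝ) ^ A ≤ x) ∧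
    ∀ q : ℕ, q.Prime → q ∣ p - 1 → (q : ℝ) ^ A ≤ x

/-- there are many such primes -/
def Smo {K : Type} [Field K] [NumberField K] (L : Type) [Field L] [NumberField L] {h : ℕ} (A' B' : Fin h → 𝓞 K) : Prop :=
  ∃ A : ℝ, 1 < A ∧ A ≤ 2 ∧ ∃ Q : ℝ, 1 ≤ Q ∧ ∃ x0 : ℝ, 2 ≤ x0 ∧ ∀ x : ℝ, x0 ≤ x →
    x / (Q * Real.log x) ≤ ((SO L A' B' A Q x).card : ℝ)

end OCM
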