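import Pool.Agent.Lib.MP_17a322_ntOC.SDefs

/-!
# Block B: definitions for the sieve in the plane
-/

set_option autoImplicit false

namespace OCM

open Finset

/-- the box -/
noncomputable def bx (U V : ℕ) : Finset (ℤ × ℤ) := Icc (-(U : ℤ)) U ×ˢ Icc (-(V : ℤ)) V

/-- reduction modulo `l` -/
def rd2 (l : ℕ) (w : ℤ × ℤ) : ZMod l × ZMod l := ((w.1 : ZMod l), (w.2 : ZMod l))

/-- the bad classes `(a, k)` modulo `l` (for the primes `l ≥ 7` such that `-δ` is a nonzero square modulo `l`) -/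
def bS (δ y l : ℕ) : Set (ZMod l × ZMod l) :=
  {z | 7 ≤ l ∧ ¬ l ∣ 2 * δ ∧ IsSquare (-(δ : ZMod l)) ∧
    (z.2 ^ 2 + (δ : ZMod l) * z.1 ^ 2 = 0 ∨ (y < l ∧ z.2 ^ 2 + (δ : ZMod l) * (z.1 - 2) ^ 2 = 0))}

/-- the density of a set of classes -/
noncomputable def dn (l : ℕ) (S : Set (ZMod l × ZMod l)) : ℝ := (Nat.card S : ℝ) / (l : ℝ) ^ 2

end OCM
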