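import Pool.Agent.Lib.MP_17a322_ntLH.T3A

/-!
# LEAF S1: the primes modulo which `D` is a square, lower bound

PROOF.  Let `K = AdjoinRoot (X ^ 2 - C (D : ℚ))`: a field as `X ^ 2 - D` is irreducible over `ℚ` (see `SA_irr` in MP_10e784_agW/SA.lean: `X_pow_sub_C_irreducible_of_prime`), a number field with `finrank ℚ K = 2` (`PowerBasis.finrank` of `AdjoinRoot.powerBasis`, `natDegree`; as in PT.root_primes).
`LVH.d1_sum K` gives `C` with `1 / 2 * log (x / y) - C ≤ ∑_{p ∈ (y, x], p prime, D1 K p} log p / p`.  It remains to see that `D1 K p` and `p` prime imply `IsSquare (D : ZMod p)` (then enlarge the set of summation, the terms are `≥ 0`):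
let `P` be an ideal of `𝓞 K` with `absNorm P = p`; the quotient ring `𝓞 K ⧸ P` has `p` elements (`Ideal.absNorm_apply`, `Submodule.cardQuot_apply`: `Nat.card`), so it is isomorphic to `ZMod p` (`ZMod.ringEquivOfPrime`, with a `Fintype` from `Nat.card ≠ 0`); the root `s` of `X ^ 2 - D` is in `𝓞 K`
(integral), `s ^ 2 = D`, and its image in `ZMod p` is a square root of `D` (ring homomorphisms preserve integers).
-/

set_option autoImplicit false

namespace OCM

open Finset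

private theorem S1_irr {D : ℤ} (hD : ¬ IsSquare D) :
    Irreducible (Polynomial.X ^ 2 - Polynomial.C ((D : ℤ) : ℚ) : Polynomial ℚ) := by
  refine X_pow_sub_C_irreducible_of_prime Nat.prime_two fun b hb => hD ?_
  rw [← Rat.isSquare_intCast_iff]
  exact ⟨b, by rw [← hb, sq]⟩

private theorem S1_sq {K : Type} [Field K] [NumberField K] {D : ℤ} (s : NumberField.RingOfIntegers K)
    (hs : s ^ 2 = ((D : ℤ) : NumberField.RingOfIntegers K)) {p : ℕ} (hp : p.Prime)
    (h : LVH.D1 K p) : IsSquare ((D : ℤ) : ZMod p) := by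
  obtain ⟨P, hP⟩ := h
  have hcard : Nat.card (NumberField.RingOfIntegers K ⧸ P) = p := by
    rw [← hP]
    rfl
  have hfin : Finite (NumberField.RingOfIntegers K ⧸ P) :=
    Nat.finite_of_card_ne_zero (by rw [hcard]; exact hp.ne_zero)
  have hft : Fintype (NumberField.RingOfIntegers K ⧸ P) := Fintype.ofFinite _
  have hc : Fintype.card (NumberField.RingOfIntegers K ⧸ P) = p := by
    rw [← Nat.card_eq_fintype_card, hcard]
  let e : ZMod p ≃+* NumberField.RingOfIntegers K ⧸ P :=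
    ZMod.ringEquivOfPrime (NumberField.RingOfIntegers K ⧸ P) hp hc
  refine ⟨e.symm (Ideal.Quotient.mk P s), ?_⟩
  have h1 : e.symm (Ideal.Quotient.mk P (s ^ 2)) = ((D : ℤ) : ZMod p) := by
    rw [hs, map_intCast, map_intCast]
  rw [← h1, map_pow, map_pow, sq]

private theorem S1_int {K : Type} [Field K] [NumberField K] {D : ℤ} (r : K) (hr : r ^ 2 = ((D : ℤ) : K)) :
    ∃ s : NumberField.RingOfIntegers K, s ^ 2 = ((D : ℤ) : NumberField.RingOfIntegers K) := by
  have hint : IsIntegral ℤ r := by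
    refine IsIntegral.of_pow (n := 2) (by norm_num) ?_
    rw [hr]
    exact isIntegral_algebraMap (x := D)
  refine ⟨⟨r, hint⟩, ?_⟩
  apply NumberField.RingOfIntegers.ext
  exact hr

private theorem S1_field {D : ℤ} (hD : ¬ IsSquare D) : ∃ (K : Type) (_ : Field K) (_ : NumberField K),
    Module.finrank ℚ K = 2 ∧ ∃ s : NumberField.RingOfIntegers K,
      s ^ 2 = ((D : ℤ) : NumberField.RingOfIntegers K) := by
  have hirr := S1_irr hD
  have hfact : Fact (Irreducible (Polynomial.X ^ 2 - Polynomial.C ((D : ℤ) : ℚ) : Polynomial ℚ)) := ⟨hirr⟩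
  have hne : (Polynomial.X ^ 2 - Polynomial.C ((D : ℤ) : ℚ) : Polynomial ℚ) ≠ 0 := hirr.ne_zero
  have hdeg : (Polynomial.X ^ 2 - Polynomial.C ((D : ℤ) : ℚ) : Polynomial ℚ).natDegree = 2 :=
    Polynomial.natDegree_X_pow_sub_C
  have hfd : Module.Finite ℚ (AdjoinRoot (Polynomial.X ^ 2 - Polynomial.C ((D : ℤ) : ℚ) : Polynomial ℚ)) :=
    (AdjoinRoot.powerBasis hne).finite
  have hcz : CharZero (AdjoinRoot (Polynomial.X ^ 2 - Polynomial.C ((D : ℤ) : ℚ) : Polynomial ℚ)) :=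
    algebraRat.charZero _
  have hroot : (AdjoinRoot.root (Polynomial.X ^ 2 - Polynomial.C ((D : ℤ) : ℚ) : Polynomial ℚ)) ^ 2 =
      ((D : ℤ) : AdjoinRoot (Polynomial.X ^ 2 - Polynomial.C ((D : ℤ) : ℚ) : Polynomial ℚ)) := by
    have h1 := AdjoinRoot.eval₂_root (Polynomial.X ^ 2 - Polynomial.C ((D : ℤ) : ℚ) : Polynomial ℚ)
    rw [Polynomial.eval₂_sub, Polynomial.eval₂_pow, Polynomial.eval₂_X, Polynomial.eval₂_C] at h1
    exact (sub_eq_zero.1 h1).trans (map_intCast _ D)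
  have hnf : NumberField (AdjoinRoot (Polynomial.X ^ 2 - Polynomial.C ((D : ℤ) : ℚ) : Polynomial ℚ)) := ⟨⟩
  refine ⟨AdjoinRoot (Polynomial.X ^ 2 - Polynomial.C ((D : ℤ) : ℚ) : Polynomial ℚ), inferInstance,
    hnf, ?_, S1_int _ hroot⟩
  rw [(AdjoinRoot.powerBasis hne).finrank, AdjoinRoot.powerBasis_dim, hdeg]

open Classical in
theorem split_low {D : ℤ} (hD : ¬ IsSquare D) : ∃ C : ℝ, 0 ≤ C ∧ ∀ y x : ℝ, 2 ≤ y → y ≤ x →
    1 / 2 * Real.log (x / y) - C ≤
      ∑ p ∈ (Ioc ⌊y⌋₊ ⌊x⌋₊).filter (fun p => p.Prime ∧ IsSquare ((D : ℤ) : ZMod p)), Real.log p / p := by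
  obtain ⟨K, _, _, h2, s, hs⟩ := S1_field hD
  obtain ⟨C, hC, h⟩ := LVH.d1_sum K
  refine ⟨C, hC.le, fun y x hy hyx => ?_⟩
  have h1 := h y x hy hyx
  rw [h2, Nat.cast_ofNat] at h1
  refine h1.trans (sum_le_sum_of_subset_of_nonneg ?_ ?_)
  · intro p hp
    rw [mem_filter] at hp ⊢
    exact ⟨hp.1, hp.2.1, S1_sq s hs hp.2.1 hp.2.2⟩
  · intro p _ _
    exact div_nonneg (Real.log_natCast_nonneg _) (Nat.cast_nonneg _)

end OCM
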