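import Mathlib

/-!
# LEAF S2: partial summation

PROOF.  `w m = 1 / log m - 1 / log (m + 1) ≥ 0`, `A v = ∑_{n ∈ (u, v]} a n`, `B v = 1/2 (log v - log u) - C ≤ A v`.
`∑_{n ∈ (u, v]} a n / log n = A v / log (v + 1) + ∑_{m ∈ (u, v]} w m * A m` (`Nat.le_induction` on `v`), which is `≥ B v / log (v + 1) + ∑_{m ∈ (u, v]} w m * B m =: T v`, and `T v ≥ 1/2 (log log (v + 1) - log log (u + 1)) - C / log (u + 1)` by induction on `v`:
`T (v + 1) - T v = (B (v + 1) - B v) / log (v + 1) = 1/2 (log (v + 1) - log v) / log (v + 1) ≥ 1/2 (log (v + 2) - log (v + 1)) / log (v + 1) ≥ 1/2 (log log (v + 2) - log log (v + 1))`.  Finally `log log (u + 1) - log log u ≤ (log (u + 1) - log u) / log u ≤ 1 / (u log u) ≤ 1`.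
-/

set_option autoImplicit false

namespace OCM

open Finset

private theorem S2_logpos {n : ℕ} (hn : 2 ≤ n) : 0 < Real.log n := by
  apply Real.log_pos
  have : (2 : ℝ) ≤ n := by exact_mod_cast hn
  linarith

private theorem S2_ll {x y : ℝ} (hx : 0 < x) (hy : 0 < y) :
    Real.log y - Real.log x ≤ (y - x) / x := by
  have h1 := Real.log_le_sub_one_of_pos (div_pos hy hx)
  rw [Real.log_div hy.ne' hx.ne'] at h1
  have h2 : y / x - 1 = (y - x) / x := by
    field_simp
  linarith

private theorem S2_abel (a : ℕ → ℝ) (u : ℕ) (hu : 2 ≤ u) (v : ℕ) (hv : u ≤ v) :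
    ∑ n ∈ Ioc u v, a n / Real.log n = (∑ n ∈ Ioc u v, a n) / Real.log (v + 1 : ℕ) +
      ∑ m ∈ Ioc u v, (1 / Real.log m - 1 / Real.log (m + 1 : ℕ)) * ∑ n ∈ Ioc u m, a n := by
  induction v, hv using Nat.le_induction with
  | base => simp
  | succ v hv ih =>
    have h1 : 0 < Real.log (v + 1 : ℕ) := S2_logpos (by omega)
    have h2 : 0 < Real.log (v + 1 + 1 : ℕ) := S2_logpos (by omega)
    rw [Finset.sum_Ioc_succ_top hv (fun n : ℕ => a n / Real.log n),
      Finset.sum_Ioc_succ_top hv (fun m : ℕ => (1 / Real.log m - 1 / Real.log (m + 1 : ℕ)) *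
        ∑ n ∈ Ioc u m, a n), ih, Finset.sum_Ioc_succ_top hv a]
    field_simp
    ring

private theorem S2_T (C : ℝ) (u : ℕ) (hu : 2 ≤ u) (v : ℕ) (hv : u ≤ v) :
    1 / 2 * (Real.log (Real.log (v + 1 : ℕ)) - Real.log (Real.log (u + 1 : ℕ))) -
      C / Real.log (u + 1 : ℕ) ≤
    (1 / 2 * (Real.log v - Real.log u) - C) / Real.log (v + 1 : ℕ) +
      ∑ m ∈ Ioc u v, (1 / Real.log m - 1 / Real.log (m + 1 : ℕ)) *
        (1 / 2 * (Real.log m - Real.log u) - C) := by
  induction v, hv using Nat.le_induction with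
  | base =>
    simp only [sub_self, mul_zero, Finset.Ioc_self, Finset.sum_empty, add_zero]
    apply le_of_eq
    ring
  | succ v hv ih =>
    have h0 : 0 < Real.log v := S2_logpos (by omega)
    have h1 : 0 < Real.log (v + 1 : ℕ) := S2_logpos (by omega)
    have h2 : 0 < Real.log (v + 1 + 1 : ℕ) := S2_logpos (by omega)
    rw [Finset.sum_Ioc_succ_top hv (fun m : ℕ => (1 / Real.log m - 1 / Real.log (m + 1 : ℕ)) *
        (1 / 2 * (Real.log m - Real.log u) - C))]
    have h3 : (1 / 2 * (Real.log (v + 1 : ℕ) - Real.log u) - C) / Real.log (v + 1 + 1 : ℕ) +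
        (1 / Real.log (v + 1 : ℕ) - 1 / Real.log (v + 1 + 1 : ℕ)) *
          (1 / 2 * (Real.log (v + 1 : ℕ) - Real.log u) - C) =
        (1 / 2 * (Real.log v - Real.log u) - C) / Real.log (v + 1 : ℕ) +
          1 / 2 * ((Real.log (v + 1 : ℕ) - Real.log v) / Real.log (v + 1 : ℕ)) := by
      field_simp
      ring
    have h4 : Real.log (v + 1 + 1 : ℕ) - Real.log (v + 1 : ℕ) ≤
        Real.log (v + 1 : ℕ) - Real.log v := by
      have hv0 : (0 : ℝ) < v := by
        have : 0 < v := by omega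
        exact_mod_cast this
      have h5 : Real.log (v + 1 + 1 : ℕ) + Real.log v ≤
          Real.log (v + 1 : ℕ) + Real.log (v + 1 : ℕ) := by
        rw [← Real.log_mul (by positivity) hv0.ne', ← Real.log_mul (by positivity) (by positivity)]
        apply Real.log_le_log (by positivity)
        push_cast
        nlinarith
      linarith
    have h6 := S2_ll h1 h2
    have h7 : (Real.log (v + 1 + 1 : ℕ) - Real.log (v + 1 : ℕ)) / Real.log (v + 1 : ℕ) ≤
        (Real.log (v + 1 : ℕ) - Real.log v) / Real.log (v + 1 : ℕ) :=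
      div_le_div_of_nonneg_right h4 h1.le
    linarith

theorem psum {a : ℕ → ℝ} {C : ℝ} (hC : 0 ≤ C) (h : ∀ u v : ℕ, 2 ≤ u → u ≤ v →
      1 / 2 * (Real.log v - Real.log u) - C ≤ ∑ n ∈ Ioc u v, a n) :
    ∀ u v : ℕ, 2 ≤ u → u ≤ v →
      1 / 2 * (Real.log (Real.log v) - Real.log (Real.log u)) - (C / Real.log 2 + 1) ≤ ∑ n ∈ Ioc u v, a n / Real.log n := by
  intro u v hu hv
  have h0 : 0 < Real.log u := S2_logpos hu
  have h1 : 0 < Real.log (v + 1 : ℕ) := S2_logpos (by omega)
  have hA : ∀ m : ℕ, u ≤ m → 1 / 2 * (Real.log m - Real.log u) - C ≤ ∑ n ∈ Ioc u m, a n :=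
    fun m hm => h u m hu hm
  have hw : ∀ m ∈ Ioc u v, 0 ≤ 1 / Real.log m - 1 / Real.log (m + 1 : ℕ) := by
    intro m hm
    have hm' := Finset.mem_Ioc.1 hm
    have h2 : 0 < Real.log m := S2_logpos (by omega)
    have h3 : Real.log m ≤ Real.log (m + 1 : ℕ) := by
      apply Real.log_le_log
      · have : 0 < m := by omega
        exact_mod_cast this
      · push_cast
        linarith
    have h4 := one_div_le_one_div_of_le h2 h3
    linarith
  have hT := S2_T C u hu v hv
  have hS := S2_abel a u hu v hv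
  have h2 : (1 / 2 * (Real.log v - Real.log u) - C) / Real.log (v + 1 : ℕ) ≤
      (∑ n ∈ Ioc u v, a n) / Real.log (v + 1 : ℕ) :=
    div_le_div_of_nonneg_right (hA v hv) h1.le
  have h3 : ∑ m ∈ Ioc u v, (1 / Real.log m - 1 / Real.log (m + 1 : ℕ)) *
        (1 / 2 * (Real.log m - Real.log u) - C) ≤
      ∑ m ∈ Ioc u v, (1 / Real.log m - 1 / Real.log (m + 1 : ℕ)) * ∑ n ∈ Ioc u m, a n := by
    refine Finset.sum_le_sum fun m hm => ?_
    exact mul_le_mul_of_nonneg_left (hA m (Finset.mem_Ioc.1 hm).1.le) (hw m hm)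
  have hl2 : 1 / 2 ≤ Real.log 2 := by
    have := Real.log_two_gt_d9
    linarith
  have hu2 : (2 : ℝ) ≤ u := by exact_mod_cast hu
  have hlu : Real.log 2 ≤ Real.log u := Real.log_le_log two_pos hu2
  have h4 : Real.log (Real.log v) ≤ Real.log (Real.log (v + 1 : ℕ)) := by
    apply Real.log_le_log (S2_logpos (by omega))
    apply Real.log_le_log
    · have : 0 < v := by omega
      exact_mod_cast this
    · push_cast
      linarith
  have h5 : Real.log (Real.log (u + 1 : ℕ)) - Real.log (Real.log u) ≤ 1 := by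
    have h6 : 0 < Real.log (u + 1 : ℕ) := S2_logpos (by omega)
    have h7 := S2_ll h0 h6
    have h8 : Real.log (u + 1 : ℕ) - Real.log u ≤ 1 / 2 := by
      have h9 := S2_ll (x := (u : ℝ)) (y := ((u + 1 : ℕ) : ℝ)) (by linarith) (by positivity)
      refine h9.trans ?_
      push_cast
      rw [add_sub_cancel_left, div_le_div_iff₀ (by linarith) two_pos]
      linarith
    refine h7.trans ?_
    rw [div_le_one h0]
    linarith
  have h6 : C / Real.log (u + 1 : ℕ) ≤ C / Real.log 2 := by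
    apply div_le_div_of_nonneg_left hC (by linarith)
    apply Real.log_le_log two_pos
    push_cast
    linarith
  linarith

end OCM
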