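import Pool.Agent.Lib.MP_42948a_nt.TQ.A2

/-!
# LEAF S3: upper sieve weights of dimension four

PROOF.  Copy `prec` (TQ/A1.lean) and `fund` (TQ/A2.lean) with `τ = 1` and `g p ≤ 4 / p` in place of `g p ≤ 2 / p`: in `prec` the only change is `L = 4 * L0` in place of `L = 2 * L0` (`hS`); `exp_tail (4 * L0) (exp (-(2 * (4 * L0))) * (1 / 2))`.  Only the upper half is needed.
The private lemmas `A2_sup`, `A2_expand`, `A2_ge`, `A2_point` are to be copied as well.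
-/

set_option autoImplicit false

namespace OCM

open Finset Pool.Agent.Lib.MP_42948a_nt.OA Pool.Agent.Lib.MP_42948a_nt.AC Pool.Agent.Lib.MP_42948a_nt.TQ

private theorem S3_prec (τ : ℝ) (hτ : 0 < τ) (hτ1 : τ ≤ 1) : ∃ b0 : ℕ, ∀ (z : ℕ) (g : ℕ → ℝ),
    (∀ p ∈ PP z, 0 ≤ g p ∧ g p ≤ 3 / 4 ∧ g p ≤ 4 / p) →
    (1 - τ) * ∏ p ∈ PP z, (1 - g p) ≤ FF z b0 g ∧ UU z b0 g ≤ (1 + τ) * ∏ p ∈ PP z, (1 - g p) := by
  obtain ⟨L0, hL0, hrec⟩ := block_recip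
  obtain ⟨b0, hb0⟩ := exp_tail (4 * L0) (Real.exp (-(2 * (4 * L0))) * (τ / 2)) (by linarith)
    (by have := Real.exp_pos (-(2 * (4 * L0))); positivity)
  set L : ℝ := 4 * L0 with hL
  have hLpos : 0 < L := by rw [hL]; linarith
  refine ⟨b0, fun z g hg => ?_⟩
  have hsub : ∀ l, ∀ p ∈ Pj z l, p ∈ PP z := fun l p hp => (mem_filter.mp hp).1
  have hg0 : ∀ l, ∀ p ∈ Pj z l, 0 ≤ g p := fun l p hp => (hg p (hsub l p hp)).1
  have hg34 : ∀ l, ∀ p ∈ Pj z l, g p ≤ 3 / 4 := fun l p hp => (hg p (hsub l p hp)).2.1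
  have hg1 : ∀ l, ∀ p ∈ Pj z l, g p ≤ 1 := fun l p hp => (hg34 l p hp).trans (by norm_num)
  have hS0 : ∀ l, 0 ≤ ∑ p ∈ Pj z l, g p := fun l => sum_nonneg (hg0 l)
  have hS : ∀ l, ∑ p ∈ Pj z l, g p ≤ L := by
    intro l
    calc ∑ p ∈ Pj z l, g p ≤ ∑ p ∈ Pj z l, 4 * ((1 : ℝ) / p) := by
          refine sum_le_sum fun p hp => ?_
          refine (hg p (hsub l p hp)).2.2.trans (le_of_eq ?_)
          ring
      _ = 4 * ∑ p ∈ Pj z l, (1 : ℝ) / p := by rw [mul_sum]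
      _ ≤ L := by
          rw [hL]
          exact mul_le_mul_of_nonneg_left (hrec z l) (by norm_num)
  have hV : ∀ l, Real.exp (-(2 * L)) ≤ ∏ p ∈ Pj z l, (1 - g p) := by
    intro l
    refine le_trans ?_ (exp_le_prod (Pj z l) g (hg0 l) (hg34 l))
    apply Real.exp_le_exp.mpr
    linarith [hS l]
  have hU : ∀ l, ∏ p ∈ Pj z l, (1 - g p) ≤ bon (Pj z l) g (2 * (b0 + l)) :=
    fun l => bon_ge (Pj z l) g (hg0 l) (hg1 l) (b0 + l)
  have hU0 : ∀ l, 0 < bon (Pj z l) g (2 * (b0 + l)) :=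
    fun l => lt_of_lt_of_le (Real.exp_pos _) ((hV l).trans (hU l))
  have hE : ∀ l, esy (Pj z l) g (2 * (b0 + l) + 1) ≤
      L ^ (2 * (b0 + l) + 1) / ((2 * (b0 + l) + 1).factorial : ℝ) := by
    intro l
    refine (esy_le (Pj z l) g (hg0 l) _).trans ?_
    have h1 : (∑ p ∈ Pj z l, g p) ^ (2 * (b0 + l) + 1) ≤ L ^ (2 * (b0 + l) + 1) :=
      pow_le_pow_left₀ (hS0 l) (hS l) _
    have h2 : (0 : ℝ) < ((2 * (b0 + l) + 1).factorial : ℝ) := by exact_mod_cast Nat.factorial_pos _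
    exact div_le_div_of_nonneg_right h1 h2.le
  set PU : ℝ := ∏ j ∈ range z, bon (Pj z j) g (2 * (b0 + j)) with hPU
  have hPU0 : 0 ≤ PU := prod_nonneg fun j _ => (hU0 j).le
  have hterm : ∀ l ∈ range z, esy (Pj z l) g (2 * (b0 + l) + 1) *
      ∏ j ∈ (range z).erase l, bon (Pj z j) g (2 * (b0 + j)) ≤
      L ^ (2 * (b0 + l) + 1) / ((2 * (b0 + l) + 1).factorial : ℝ) * (Real.exp (2 * L) * PU) := by
    intro l hl
    have hX0 : 0 ≤ ∏ j ∈ (range z).erase l, bon (Pj z j) g (2 * (b0 + j)) :=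
      prod_nonneg fun j _ => (hU0 j).le
    have hX : ∏ j ∈ (range z).erase l, bon (Pj z j) g (2 * (b0 + j)) ≤ Real.exp (2 * L) * PU := by
      rw [hPU, ← mul_prod_erase (range z) (fun j => bon (Pj z j) g (2 * (b0 + j))) hl, ← mul_assoc]
      have h1 : 1 ≤ Real.exp (2 * L) * bon (Pj z l) g (2 * (b0 + l)) := by
        calc (1 : ℝ) = Real.exp (2 * L) * Real.exp (-(2 * L)) := by
              rw [← Real.exp_add, add_neg_cancel, Real.exp_zero]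
          _ ≤ Real.exp (2 * L) * bon (Pj z l) g (2 * (b0 + l)) :=
              mul_le_mul_of_nonneg_left ((hV l).trans (hU l)) (Real.exp_pos _).le
      exact le_mul_of_one_le_left hX0 h1
    have h2 : (0 : ℝ) ≤ L ^ (2 * (b0 + l) + 1) / ((2 * (b0 + l) + 1).factorial : ℝ) := by positivity
    exact (mul_le_mul_of_nonneg_right (hE l) hX0).trans (mul_le_mul_of_nonneg_left hX h2)
  have hsum : ∑ l ∈ range z, esy (Pj z l) g (2 * (b0 + l) + 1) *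
      ∏ j ∈ (range z).erase l, bon (Pj z j) g (2 * (b0 + j)) ≤ PU * (τ / 2) := by
    refine (sum_le_sum hterm).trans ?_
    rw [← sum_mul]
    have h1 : (0 : ℝ) ≤ Real.exp (2 * L) * PU := mul_nonneg (Real.exp_pos _).le hPU0
    refine (mul_le_mul_of_nonneg_right (hb0 z) h1).trans (le_of_eq ?_)
    have h2 : Real.exp (-(2 * L)) * Real.exp (2 * L) = 1 := by
      rw [← Real.exp_add, neg_add_cancel, Real.exp_zero]
    linear_combination (PU * (τ / 2)) * h2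
  have hPV : ∏ p ∈ PP z, (1 - g p) ≤ PU := by
    rw [prod_PP, hPU]
    exact prod_le_prod (fun j _ => (Real.exp_pos _).le.trans (hV j)) fun j _ => hU j
  have hFF : (1 - τ / 2) * PU ≤ FF z b0 g := by
    unfold FF
    rw [← hPU]
    linarith
  have hUU : UU z b0 g = PU := rfl
  have hFle : FF z b0 g ≤ ∏ p ∈ PP z, (1 - g p) :=
    FF_le z b0 g (fun p hp => (hg p hp).1) (fun p hp => (hg p hp).2.1.trans (by norm_num))
  have hV0 : 0 ≤ ∏ p ∈ PP z, (1 - g p) :=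
    prod_nonneg fun p hp => sub_nonneg.mpr ((hg p hp).2.1.trans (by norm_num))
  rw [hUU]
  constructor
  · have h1 : (1 - τ) * ∏ p ∈ PP z, (1 - g p) ≤ (1 - τ / 2) * ∏ p ∈ PP z, (1 - g p) :=
      mul_le_mul_of_nonneg_right (by linarith) hV0
    have h2 : (1 - τ / 2) * ∏ p ∈ PP z, (1 - g p) ≤ (1 - τ / 2) * PU :=
      mul_le_mul_of_nonneg_left hPV (by linarith)
    linarith
  · have h1 : PU ≤ (1 + τ) * ((1 - τ / 2) * PU) := by
      have h3 : 0 ≤ PU * (τ * (1 - τ) / 2) := by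
        have h4 : 0 ≤ 1 - τ := by linarith
        positivity
      nlinarith
    have h2 : (1 + τ) * ((1 - τ / 2) * PU) ≤ (1 + τ) * ∏ p ∈ PP z, (1 - g p) :=
      mul_le_mul_of_nonneg_left (hFF.trans hFle) (by linarith)
    linarith

private theorem S3_sup (z b0 : ℕ) (T : Finset ℕ) (h : um z b0 T ≠ 0) :
    ∀ j < z, (T ∩ Pj z j).card ≤ 2 * (b0 + j) + 1 := by
  intro j hj
  by_contra hcon
  push Not at hcon
  apply h
  unfold um
  refine Finset.prod_eq_zero (mem_range.2 hj) ?_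
  exact SK_cc_zero _ _ (by omega)

private theorem S3_expand (z b0 : ℕ) (g : ℕ → ℝ) :
    UU z b0 g = ∑ T ∈ (PP z).powerset, um z b0 T * ∏ p ∈ T, g p := SJ_A z b0 g

private theorem S3_ge (z b0 : ℕ) (g : ℕ → ℝ) (h0 : ∀ p, 0 ≤ g p) (h1 : ∀ p, g p ≤ 1) :
    ∏ p ∈ PP z, (1 - g p) ≤ UU z b0 g := by
  unfold UU
  rw [prod_PP]
  refine Finset.prod_le_prod ?_ ?_
  · intro j _
    exact Finset.prod_nonneg fun p _ => by linarith [h1 p]
  · intro j _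
    exact bon_ge _ g (fun p _ => h0 p) (fun p _ => h1 p) _

private theorem S3_point (z b0 n : ℕ) : (if ∀ p ∈ PP z, ¬ p ∣ n then (1 : ℝ) else 0) ≤
    ∑ T ∈ (PP z).powerset, um z b0 T * (if ∀ p ∈ T, p ∣ n then (1 : ℝ) else 0) := by
  have h := S3_ge z b0 (fun p => if p ∣ n then (1 : ℝ) else 0)
    (fun p => by split_ifs <;> norm_num) (fun p => by split_ifs <;> norm_num)
  rw [S3_expand, SO_one] at h
  simp only [SO_all] at h
  exact h

theorem fund4 : ∃ K : ℕ, 1 ≤ K ∧ ∀ z : ℕ, 2 ≤ z → ∃ u : Finset ℕ → ℝ, (∀ T, |u T| ≤ 1) ∧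
    (∀ T, T ⊆ PP z → u T ≠ 0 → ∏ p ∈ T, p ≤ z ^ K) ∧
    (∀ n : ℕ, (if ∀ p ∈ PP z, ¬ p ∣ n then (1 : ℝ) else 0) ≤
      ∑ T ∈ (PP z).powerset, u T * (if ∀ p ∈ T, p ∣ n then (1 : ℝ) else 0)) ∧
    ∀ g : ℕ → ℝ, (∀ p ∈ PP z, 0 ≤ g p ∧ g p ≤ 3 / 4 ∧ g p ≤ 4 / p) →
      ∑ T ∈ (PP z).powerset, u T * ∏ p ∈ T, g p ≤ 2 * ∏ p ∈ PP z, (1 - g p) := by
  obtain ⟨b0, hb0⟩ := S3_prec 1 one_pos le_rfl
  refine ⟨4 * b0 + 6, by omega, ?_⟩
  intro z hz
  refine ⟨um z b0, ?_, ?_, S3_point z b0, ?_⟩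
  · intro T
    unfold um
    exact SK_prod_abs _ fun j _ => SK_cc_abs _ _
  · intro T hT h
    exact level z b0 (by omega) T hT (S3_sup z b0 T h)
  · intro g hg
    rw [← S3_expand]
    have h1 := (hb0 z g hg).2
    have h2 : (1 : ℝ) + 1 = 2 := by norm_num
    rw [h2] at h1
    exact h1

end OCM
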