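import Pool.Agent.Lib.MP_17a322_ntOC.S0

/-!
# LEAF S4: the densities of the bad classes

PROOF.  `dn ≥ 0` is clear.  If `l < 7` the set is empty.  Let `l ≥ 7`.  Upper bound: for each `a` at most two `k` with `k ^ 2 = - δ a ^ 2` and at most two with `k ^ 2 = - δ (a - 2) ^ 2`, so `Nat.card ≤ 4 l` (map to the `l` values of `a`, fibres in the roots of two quadratic polynomials; or: with `r ^ 2 = -δ`
the set is contained in the union of the four lines `k = ± r a`, `k = ± r (a - 2)`, each with `l` elements, images of `ZMod l`); `dn ≤ 4 / l ≤ 4 / 7 ≤ 3 / 4`.  Lower bounds: `r ≠ 0` and `2 ≠ 0` in the field `ZMod l`.  The two lines `k = r a` and `k = - r a` meet only in `(0, 0)`: `2 l - 1` elements.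
If `y < l` the set contains the four lines `k = r a`, `k = - r a`, `k = r (a - 2)`, `k = - r (a - 2)`; the lines `1, 3` are disjoint and `2, 4` are disjoint, and the pairs `(1,2), (1,4), (2,3), (3,4)` meet in one point each (`a = 0, 1, 1, 2`): at least `4 l - 4` elements
(for instance: for `a ∉ {0, 1, 2}` the four values `± r a, ± r (a - 2)` are distinct, and for `a = 0, 1, 2` there are `3, 2, 3` values: in total `4 (l - 3) + 8 = 4 l - 4`; or inclusion-exclusion for the unions `X = 1 ∪ 3`, `Y = 2 ∪ 4` with `2 l` elements each and `#(X ∩ Y) ≤ 4`).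
-/

set_option autoImplicit false

namespace OCM

open Finset

private theorem S4_sq {l : ℕ} [Fact l.Prime] {δ : ℕ} {r : ZMod l} (hr : -(δ : ZMod l) = r * r) (a k : ZMod l) :
    k ^ 2 + (δ : ZMod l) * a ^ 2 = 0 ↔ k = r * a ∨ k = -(r * a) := by
  rw [← sq_eq_sq_iff_eq_or_eq_neg]
  constructor
  · intro h
    linear_combination h + a ^ 2 * hr
  · intro h
    linear_combination h - a ^ 2 * hr

/-- the line through `(e, 0)` of slope `c`, without the points over `E` -/
private noncomputable def S4_L {l : ℕ} [Fact l.Prime] (c e : ZMod l) (E : Finset (ZMod l)) :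
    Finset (ZMod l × ZMod l) :=
  (univ \ E).image fun a => (a, c * (a - e))

private theorem S4_card {l : ℕ} [Fact l.Prime] (c e : ZMod l) (E : Finset (ZMod l)) :
    (S4_L c e E).card = l - E.card := by
  unfold S4_L
  rw [card_image_of_injective _ (fun a b h => (Prod.mk.inj h).1), card_univ_sdiff, ZMod.card]

private theorem S4_disj {l : ℕ} [Fact l.Prime] {c e c' e' : ZMod l} {E E' : Finset (ZMod l)}
    (h : ∀ a, a ∉ E → a ∉ E' → c * (a - e) ≠ c' * (a - e')) : Disjoint (S4_L c e E) (S4_L c' e' E') := by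
  unfold S4_L
  rw [disjoint_left]
  intro x hx hx'
  rw [mem_image] at hx hx'
  obtain ⟨a, ha, rfl⟩ := hx
  obtain ⟨b, hb, hab⟩ := hx'
  obtain ⟨h1, h2⟩ := Prod.mk.inj hab
  subst h1
  rw [mem_sdiff] at ha hb
  exact h b ha.2 hb.2 h2.symm

private theorem S4_mem {l : ℕ} [Fact l.Prime] {c e : ZMod l} {E : Finset (ZMod l)} {x : ZMod l × ZMod l}
    (h : x ∈ S4_L c e E) : x.2 = c * (x.1 - e) := by
  unfold S4_L at h
  rw [mem_image] at h
  obtain ⟨a, -, rfl⟩ := h
  rfl

private theorem S4_ge {l : ℕ} [Fact l.Prime] {S : Set (ZMod l × ZMod l)} {U : Finset (ZMod l × ZMod l)}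
    (h : ∀ x ∈ U, x ∈ S) : U.card ≤ Nat.card S := by
  have h1 : Nat.card (U : Set (ZMod l × ZMod l)) = U.card := by
    rw [Nat.card_coe_set_eq, Set.ncard_coe_finset]
  rw [← h1]
  exact Nat.card_mono (Set.toFinite S) h

theorem bS_adm (δ y : ℕ) {l : ℕ} (hl : l.Prime) :
    0 ≤ dn l (bS δ y l) ∧ dn l (bS δ y l) ≤ 3 / 4 ∧ dn l (bS δ y l) ≤ 4 / l := by
  have hF : Fact l.Prime := ⟨hl⟩
  have hl0 : (0 : ℝ) < l := by exact_mod_cast hl.pos
  have h0 : 0 ≤ dn l (bS δ y l) := by
    unfold dn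
    positivity
  by_cases hc : 7 ≤ l ∧ ¬ l ∣ 2 * δ ∧ IsSquare (-(δ : ZMod l))
  · obtain ⟨h7, hd, r, hr⟩ := hc
    have hcard : Nat.card (bS δ y l) ≤ 4 * l := by
      have hsub : bS δ y l ⊆ Set.range (fun p : ZMod l × Fin 4 => ((p.1, (![r * p.1, -(r * p.1), r * (p.1 - 2),
          -(r * (p.1 - 2))] : Fin 4 → ZMod l) p.2) : ZMod l × ZMod l)) := by
        rintro ⟨a, k⟩ ⟨-, -, -, h⟩
        rcases h with h | ⟨-, h⟩
        · rcases (S4_sq hr a k).1 h with h | h
          · exact ⟨(a, 0), by simp [h]⟩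
          · exact ⟨(a, 1), by simp [h]⟩
        · rcases (S4_sq hr (a - 2) k).1 h with h | h
          · exact ⟨(a, 2), by simp [h]⟩
          · exact ⟨(a, 3), by simp [h]⟩
      refine (Nat.card_mono (Set.toFinite _) hsub).trans ((Finite.card_range_le _).trans ?_)
      rw [Nat.card_prod, Nat.card_zmod, Nat.card_fin]
      omega
    have h4 : dn l (bS δ y l) ≤ 4 / l := by
      unfold dn
      rw [div_le_div_iff₀ (by positivity) hl0]
      have h5 : (Nat.card (bS δ y l) : ℝ) ≤ 4 * l := by exact_mod_cast hcard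
      nlinarith
    refine ⟨h0, h4.trans ?_, h4⟩
    rw [div_le_div_iff₀ hl0 (by norm_num)]
    have h5 : (7 : ℝ) ≤ l := by exact_mod_cast h7
    linarith
  · have he : bS δ y l = ∅ := by
      rw [Set.eq_empty_iff_forall_notMem]
      rintro z ⟨h1, h2, h3, -⟩
      exact hc ⟨h1, h2, h3⟩
    have h5 : dn l (bS δ y l) = 0 := by
      unfold dn
      rw [he]
      simp
    rw [h5]
    refine ⟨le_rfl, by norm_num, by positivity⟩

theorem bS_ge (δ y : ℕ) {l : ℕ} (hl : l.Prime) (h7 : 7 ≤ l) (hd : ¬ l ∣ 2 * δ) (hs : IsSquare (-(δ : ZMod l))) :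
    2 / (l : ℝ) - 1 / (l : ℝ) ^ 2 ≤ dn l (bS δ y l) ∧ (y < l → 4 / (l : ℝ) - 4 / (l : ℝ) ^ 2 ≤ dn l (bS δ y l)) := by
  have hF : Fact l.Prime := ⟨hl⟩
  have hl0 : (0 : ℝ) < l := by exact_mod_cast hl.pos
  obtain ⟨r, hr⟩ := hs
  have h2d : ((2 * δ : ℕ) : ZMod l) ≠ 0 := fun h => hd ((ZMod.natCast_eq_zero_iff _ _).1 h)
  rw [Nat.cast_mul, Nat.cast_ofNat] at h2d
  have h2 : (2 : ZMod l) ≠ 0 := left_ne_zero_of_mul h2d
  have hδ : (δ : ZMod l) ≠ 0 := right_ne_zero_of_mul h2d
  have hr0 : r ≠ 0 := by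
    rintro rfl
    rw [mul_zero, neg_eq_zero] at hr
    exact hδ hr
  have h2r : 2 * r ≠ 0 := mul_ne_zero h2 hr0
  have hs : IsSquare (-(δ : ZMod l)) := ⟨r, hr⟩
  have d12 : Disjoint (S4_L r 0 ∅) (S4_L (-r) 0 {0}) := by
    refine S4_disj fun a _ ha h => ha ?_
    rw [mem_singleton]
    have h1 : 2 * r * a = 0 := by linear_combination h
    exact (mul_eq_zero.1 h1).resolve_left h2r
  refine ⟨?_, fun hy => ?_⟩
  · have hU : ∀ x ∈ S4_L r 0 ∅ ∪ S4_L (-r) 0 {0}, x ∈ bS δ y l := by
      intro x hx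
      refine ⟨h7, hd, hs, Or.inl ?_⟩
      rw [S4_sq hr]
      rcases mem_union.1 hx with hx | hx
      · left
        rw [S4_mem hx]
        ring
      · right
        rw [S4_mem hx]
        ring
    have hc := S4_ge hU
    rw [card_union_of_disjoint d12, S4_card, S4_card, card_empty, card_singleton] at hc
    have hc' : 2 * (l : ℝ) - 1 ≤ (Nat.card (bS δ y l) : ℝ) := by
      have h5 : 2 * l ≤ Nat.card (bS δ y l) + 1 := by omega
      have h6 : 2 * (l : ℝ) ≤ (Nat.card (bS δ y l) : ℝ) + 1 := by exact_mod_cast h5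
      linarith
    unfold dn
    rw [div_sub_div _ _ hl0.ne' (by positivity), div_le_div_iff₀ (by positivity) (by positivity)]
    have h8 : (2 * (l : ℝ) ^ 2 - l * 1) * (l : ℝ) ^ 2 = (2 * (l : ℝ) - 1) * ((l : ℝ) * (l : ℝ) ^ 2) := by ring
    rw [h8]
    exact mul_le_mul_of_nonneg_right hc' (by positivity)
  · have h12 : (1 : ZMod l) ≠ 2 := by
      intro h
      have h1 : (1 : ZMod l) = 0 := by linear_combination -h
      exact one_ne_zero h1
    have d3 : Disjoint (S4_L r 0 ∅ ∪ S4_L (-r) 0 {0}) (S4_L r 2 {1}) := by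
      rw [disjoint_union_left]
      refine ⟨S4_disj fun a _ _ h => ?_, S4_disj fun a _ ha h => ha ?_⟩
      · refine h2r ?_
        linear_combination h
      · rw [mem_singleton]
        have h1 : 2 * r * (a - 1) = 0 := by linear_combination -h
        exact sub_eq_zero.1 ((mul_eq_zero.1 h1).resolve_left h2r)
    have d4 : Disjoint (S4_L r 0 ∅ ∪ S4_L (-r) 0 {0} ∪ S4_L r 2 {1}) (S4_L (-r) 2 {1, 2}) := by
      rw [disjoint_union_left, disjoint_union_left]
      refine ⟨⟨S4_disj fun a _ ha h => ha ?_, S4_disj fun a _ _ h => ?_⟩, S4_disj fun a _ ha h => ha ?_⟩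
      · rw [mem_insert]
        left
        have h1 : 2 * r * (a - 1) = 0 := by linear_combination h
        exact sub_eq_zero.1 ((mul_eq_zero.1 h1).resolve_left h2r)
      · refine h2r ?_
        linear_combination -h
      · rw [mem_insert, mem_singleton]
        right
        have h1 : 2 * r * (a - 2) = 0 := by linear_combination h
        exact sub_eq_zero.1 ((mul_eq_zero.1 h1).resolve_left h2r)
    have hU : ∀ x ∈ S4_L r 0 ∅ ∪ S4_L (-r) 0 {0} ∪ S4_L r 2 {1} ∪ S4_L (-r) 2 {1, 2}, x ∈ bS δ y l := by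
      intro x hx
      refine ⟨h7, hd, hs, ?_⟩
      rw [S4_sq hr, S4_sq hr]
      rcases mem_union.1 hx with hx | hx
      · rcases mem_union.1 hx with hx | hx
        · rcases mem_union.1 hx with hx | hx
          · left
            left
            rw [S4_mem hx]
            ring
          · left
            right
            rw [S4_mem hx]
            ring
        · right
          refine ⟨hy, Or.inl ?_⟩
          rw [S4_mem hx]
      · right
        refine ⟨hy, Or.inr ?_⟩
        rw [S4_mem hx]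
        ring
    have hc := S4_ge hU
    rw [card_union_of_disjoint d4, card_union_of_disjoint d3, card_union_of_disjoint d12, S4_card, S4_card,
      S4_card, S4_card, card_empty, card_singleton, card_singleton, card_pair h12] at hc
    have hc' : 4 * (l : ℝ) - 4 ≤ (Nat.card (bS δ y l) : ℝ) := by
      have h5 : 4 * l ≤ Nat.card (bS δ y l) + 4 := by omega
      have h6 : 4 * (l : ℝ) ≤ (Nat.card (bS δ y l) : ℝ) + 4 := by exact_mod_cast h5
      linarith
    unfold dn
    rw [div_sub_div _ _ hl0.ne' (by positivity), div_le_div_iff₀ (by positivity) (by positivity)]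
    have h8 : (4 * (l : ℝ) ^ 2 - l * 4) * (l : ℝ) ^ 2 = (4 * (l : ℝ) - 4) * ((l : ℝ) * (l : ℝ) ^ 2) := by ring
    rw [h8]
    exact mul_le_mul_of_nonneg_right hc' (by positivity)

end OCM
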