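import Pool.Agent.Lib.MP_17a322_ntOC.S0

/-!
# LEAF S5: counting in a box with conditions modulo primes

PROOF.  By induction over `T` (as `SB1_ind` in MP_10e784_agW/SB1.lean) one proves, for all `N ≥ 1` coprime to the `p ∈ T` and all integers `α, β`: the number `c` of `w ∈ bx U V` with `w.1 ≡ α`, `w.2 ≡ β` modulo `N` and `rd2 l w ∈ S l` for all `l ∈ T` satisfies
`|c - L1 * L2 / N ^ 2 * ∏_{l ∈ T} dn l (S l)| ≤ (∏_{l ∈ T} Nat.card (S l)) * (L1 + L2 + 1)`, `L1 = 2 U + 1`, `L2 = 2 V + 1`.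
`T = ∅`: `c = c1 * c2`, `c1` the number of `a ∈ [-U, U]` with `a ≡ α mod N`, `|c1 - L1 / N| ≤ 1`, `|c2 - L2 / N| ≤ 1` (`Int.Ico_filter_modEq_card`-like lemmas or SB1_base shifted), `|c1 c2 - L1 L2 / N ^ 2| ≤ c2 |c1 - L1 / N| + (L1 / N) |c2 - L2 / N| ≤ L2 / N + 1 + L1 / N ≤ L1 + L2 + 1`.
Step, `insert p T`: the set is the disjoint union over `s ∈ S p` of the sets with `w.1 ≡ s.1`, `w.2 ≡ s.2` modulo `p` in addition, i.e. (Chinese remainder theorem, `N` and `p` coprime) `w.1 ≡ α'`, `w.2 ≡ β'` modulo `N * p`; apply the induction hypothesis to `N * p`, `α'`, `β'` and add up: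
`L1 L2 / (N p) ^ 2 * Nat.card (S p) = L1 L2 / N ^ 2 * dn p (S p)`.  For the statement take `N = 1`.
-/

set_option autoImplicit false

namespace OCM

open Finset

private theorem S5_one (N : ℕ) (hN : 1 ≤ N) (α : ℤ) (U : ℕ) :
    |(((Icc (-(U : ℤ)) U).filter (fun a => a ≡ α [ZMOD (N : ℤ)])).card : ℝ) - (2 * U + 1) / N| ≤ 1 := by
  have hNz : (0 : ℤ) < N := by exact_mod_cast hN
  have hNq : (0 : ℚ) < N := by exact_mod_cast hN
  have hN' : (0 : ℝ) < N := by exact_mod_cast hN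
  have hI : Icc (-(U : ℤ)) U = Ioc (-(U : ℤ) - 1) U := by
    ext q
    simp only [mem_Icc, mem_Ioc]
    omega
  have h1 := Int.Ioc_filter_modEq_card (-(U : ℤ) - 1) (U : ℤ) hNz α
  rw [hI]
  set x : ℚ := (((U : ℤ) : ℚ) - (α : ℚ)) / ((N : ℤ) : ℚ) with hx
  set y : ℚ := (((-(U : ℤ) - 1 : ℤ) : ℚ) - (α : ℚ)) / ((N : ℤ) : ℚ) with hy
  have hxy : x - y = (2 * (U : ℚ) + 1) / N := by
    rw [hx, hy]
    push_cast
    field_simp
    ring
  have hpos : 0 < (2 * (U : ℚ) + 1) / N := by positivity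
  have a1 := Int.floor_le x
  have a2 := Int.lt_floor_add_one x
  have b1 := Int.floor_le y
  have b2 := Int.lt_floor_add_one y
  have hD : 0 ≤ ⌊x⌋ - ⌊y⌋ := by
    have h2 : (-1 : ℚ) < ((⌊x⌋ - ⌊y⌋ : ℤ) : ℚ) := by
      push_cast
      linarith
    have h3 : (-1 : ℤ) < ⌊x⌋ - ⌊y⌋ := by exact_mod_cast h2
    omega
  rw [max_eq_left hD] at h1
  have h2 : (((Ioc (-(U : ℤ) - 1) (U : ℤ)).filter (fun a => a ≡ α [ZMOD (N : ℤ)])).card : ℚ) =
      ((⌊x⌋ - ⌊y⌋ : ℤ) : ℚ) := by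
    rw [← h1]
    push_cast
    rfl
  have h3 : |(((Ioc (-(U : ℤ) - 1) (U : ℤ)).filter (fun a => a ≡ α [ZMOD (N : ℤ)])).card : ℚ) -
      (2 * U + 1) / N| ≤ 1 := by
    rw [h2, ← hxy, abs_le]
    push_cast
    constructor <;> linarith
  have h4 : ((|(((Ioc (-(U : ℤ) - 1) (U : ℤ)).filter (fun a => a ≡ α [ZMOD (N : ℤ)])).card : ℚ) -
      (2 * U + 1) / N| : ℚ) : ℝ) ≤ ((1 : ℚ) : ℝ) := by exact_mod_cast h3
  push_cast at h4
  exact h4

private theorem S5_crt (N p : ℕ) (h : Nat.Coprime N p) (hp : p.Prime) (α : ℤ) (c : ZMod p) :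
    ∃ α' : ℤ, ∀ x : ℤ, x ≡ α' [ZMOD ((N * p : ℕ) : ℤ)] ↔ (x ≡ α [ZMOD (N : ℤ)] ∧ (x : ZMod p) = c) := by
  have hnz : NeZero p := ⟨hp.ne_zero⟩
  obtain ⟨u, v, huv⟩ := Nat.isCoprime_iff_coprime.2 h
  have hc : ((c.val : ℤ) : ZMod p) = c := by
    push_cast
    exact ZMod.natCast_zmod_val c
  refine ⟨α * v * p + c.val * u * N, fun x => ?_⟩
  have e1 : α * v * p + c.val * u * N ≡ α [ZMOD (N : ℤ)] := by
    apply Int.ModEq.symm
    rw [Int.modEq_iff_dvd]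
    exact ⟨u * (c.val - α), by linear_combination α * huv⟩
  have e2 : α * v * p + c.val * u * N ≡ (c.val : ℤ) [ZMOD (p : ℤ)] := by
    apply Int.ModEq.symm
    rw [Int.modEq_iff_dvd]
    exact ⟨v * (α - c.val), by linear_combination (c.val : ℤ) * huv⟩
  have e3 : (x : ZMod p) = c ↔ x ≡ (c.val : ℤ) [ZMOD (p : ℤ)] := by
    rw [← ZMod.intCast_eq_intCast_iff, hc]
  have hco : (N : ℤ).natAbs.Coprime (p : ℤ).natAbs := by
    rw [Int.natAbs_natCast, Int.natAbs_natCast]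
    exact h
  have e4 := Int.modEq_and_modEq_iff_modEq_mul (a := x) (b := α * v * p + c.val * u * N) hco
  rw [e3]
  push_cast
  rw [← e4]
  constructor
  · rintro ⟨h1, h2⟩
    exact ⟨h1.trans e1, h2.trans e2⟩
  · rintro ⟨h1, h2⟩
    exact ⟨h1.trans e1.symm, h2.trans e2.symm⟩

open Classical in
private theorem S5_base (N : ℕ) (hN : 1 ≤ N) (α β : ℤ) (U V : ℕ) :
    |(((bx U V).filter (fun w => w.1 ≡ α [ZMOD (N : ℤ)] ∧ w.2 ≡ β [ZMOD (N : ℤ)])).card : ℝ) -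
      (2 * (U : ℝ) + 1) * (2 * (V : ℝ) + 1) / (N : ℝ) ^ 2| ≤ 2 * (U : ℝ) + 2 * (V : ℝ) + 3 := by
  have hN' : (1 : ℝ) ≤ N := by exact_mod_cast hN
  have h1 := S5_one N hN α U
  have h2 := S5_one N hN β V
  have h3 : (bx U V).filter (fun w => w.1 ≡ α [ZMOD (N : ℤ)] ∧ w.2 ≡ β [ZMOD (N : ℤ)]) =
      ((Icc (-(U : ℤ)) U).filter (fun a => a ≡ α [ZMOD (N : ℤ)])) ×ˢ
        ((Icc (-(V : ℤ)) V).filter (fun a => a ≡ β [ZMOD (N : ℤ)])) := by
    ext w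
    simp only [bx, mem_filter, mem_product]
    tauto
  rw [h3, card_product, Nat.cast_mul]
  set c1 : ℝ := (((Icc (-(U : ℤ)) U).filter (fun a => a ≡ α [ZMOD (N : ℤ)])).card : ℝ)
  set c2 : ℝ := (((Icc (-(V : ℤ)) V).filter (fun a => a ≡ β [ZMOD (N : ℤ)])).card : ℝ)
  have hc2 : 0 ≤ c2 := Nat.cast_nonneg _
  have hU : (0 : ℝ) ≤ U := Nat.cast_nonneg _
  have hV : (0 : ℝ) ≤ V := Nat.cast_nonneg _
  have hx : 0 ≤ (2 * (U : ℝ) + 1) / N := by positivity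
  have hy : 0 ≤ (2 * (V : ℝ) + 1) / N := by positivity
  have hx1 : (2 * (U : ℝ) + 1) / N ≤ 2 * U + 1 := div_le_self (by positivity) hN'
  have hy1 : (2 * (V : ℝ) + 1) / N ≤ 2 * V + 1 := div_le_self (by positivity) hN'
  have h4 : c1 * c2 - (2 * U + 1) * (2 * V + 1) / (N : ℝ) ^ 2 =
      (c1 - (2 * U + 1) / N) * c2 + (2 * U + 1) / N * (c2 - (2 * V + 1) / N) := by
    field_simp
    ring
  rw [h4]
  have h5 : |(c1 - (2 * U + 1) / N) * c2| ≤ c2 := by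
    rw [abs_mul, abs_of_nonneg hc2]
    exact mul_le_of_le_one_left hc2 h1
  have h6 : |(2 * (U : ℝ) + 1) / N * (c2 - (2 * V + 1) / N)| ≤ (2 * U + 1) / N := by
    rw [abs_mul, abs_of_nonneg hx]
    exact mul_le_of_le_one_right hx h2
  have h7 := abs_add_le ((c1 - (2 * U + 1) / N) * c2) ((2 * (U : ℝ) + 1) / N * (c2 - (2 * V + 1) / N))
  have h8 := (abs_le.1 h2).2
  linarith

open Classical in
private theorem S5_ind (S : ∀ l : ℕ, Set (ZMod l × ZMod l)) (U V : ℕ) (T : Finset ℕ) : (∀ p ∈ T, p.Prime) →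
    ∀ N : ℕ, 1 ≤ N → (∀ p ∈ T, Nat.Coprime N p) → ∀ α β : ℤ,
    |(((bx U V).filter (fun w => (w.1 ≡ α [ZMOD (N : ℤ)] ∧ w.2 ≡ β [ZMOD (N : ℤ)]) ∧
        ∀ l ∈ T, rd2 l w ∈ S l)).card : ℝ) -
      (2 * U + 1) * (2 * V + 1) / (N : ℝ) ^ 2 * ∏ l ∈ T, dn l (S l)| ≤
    (∏ l ∈ T, (Nat.card (S l) : ℝ)) * (2 * U + 2 * V + 3) := by
  induction T using Finset.induction_on with
  | empty =>
    intro _ N hN _ α β
    have h1 := S5_base N hN α β U V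
    simpa using h1
  | insert p T hpT ih =>
    intro hT N hN hco α β
    have hp : p.Prime := hT p (mem_insert_self p T)
    have hnz : NeZero p := ⟨hp.ne_zero⟩
    have hT' : ∀ p' ∈ T, p'.Prime := fun p' hp' => hT p' (mem_insert_of_mem hp')
    have hNp : Nat.Coprime N p := hco p (mem_insert_self p T)
    have hfin : (S p).Finite := Set.toFinite _
    have hcard : (Nat.card (S p) : ℝ) = (hfin.toFinset.card : ℝ) := by
      rw [Nat.card_coe_set_eq, Set.ncard_eq_toFinset_card (S p) hfin]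
    have hfib := card_eq_sum_card_fiberwise (s := (bx U V).filter
      (fun w => (w.1 ≡ α [ZMOD (N : ℤ)] ∧ w.2 ≡ β [ZMOD (N : ℤ)]) ∧ ∀ l ∈ insert p T, rd2 l w ∈ S l))
      (t := hfin.toFinset) (f := fun w => rd2 p w) (by
        intro w hw
        rw [mem_coe, mem_filter] at hw
        rw [mem_coe, Set.Finite.mem_toFinset]
        exact hw.2.2 p (mem_insert_self p T))
    have hpos : (0 : ℝ) ≤ ∏ l ∈ T, (Nat.card (S l) : ℝ) := prod_nonneg fun _ _ => Nat.cast_nonneg _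
    choose a ha using fun c : ZMod p => S5_crt N p hNp hp α c
    choose b hb using fun c : ZMod p => S5_crt N p hNp hp β c
    have hcl : ∀ c ∈ hfin.toFinset, ((bx U V).filter
        (fun w => (w.1 ≡ α [ZMOD (N : ℤ)] ∧ w.2 ≡ β [ZMOD (N : ℤ)]) ∧
          ∀ l ∈ insert p T, rd2 l w ∈ S l)).filter (fun w => rd2 p w = c) =
        (bx U V).filter (fun w => (w.1 ≡ a c.1 [ZMOD ((N * p : ℕ) : ℤ)] ∧
          w.2 ≡ b c.2 [ZMOD ((N * p : ℕ) : ℤ)]) ∧ ∀ l ∈ T, rd2 l w ∈ S l) := by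
      intro c hc
      rw [Set.Finite.mem_toFinset] at hc
      ext w
      rw [mem_filter, mem_filter, mem_filter, ha, hb]
      constructor
      · rintro ⟨⟨hw, ⟨h1, h2⟩, h3⟩, h4⟩
        refine ⟨hw, ⟨⟨h1, ?_⟩, ⟨h2, ?_⟩⟩, fun l hl => h3 l (mem_insert_of_mem hl)⟩
        · rw [← h4]
          rfl
        · rw [← h4]
          rfl
      · rintro ⟨hw, ⟨⟨h1, h2⟩, ⟨h3, h4⟩⟩, h5⟩
        have h6 : rd2 p w = c := Prod.ext h2 h4
        refine ⟨⟨hw, ⟨h1, h3⟩, ?_⟩, h6⟩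
        intro l hl
        rw [mem_insert] at hl
        rcases hl with rfl | hl
        · rw [h6]
          exact hc
        · exact h5 l hl
    have hsum : (((bx U V).filter
        (fun w => (w.1 ≡ α [ZMOD (N : ℤ)] ∧ w.2 ≡ β [ZMOD (N : ℤ)]) ∧
          ∀ l ∈ insert p T, rd2 l w ∈ S l)).card : ℝ) =
        ∑ c ∈ hfin.toFinset, (((bx U V).filter (fun w => (w.1 ≡ a c.1 [ZMOD ((N * p : ℕ) : ℤ)] ∧
          w.2 ≡ b c.2 [ZMOD ((N * p : ℕ) : ℤ)]) ∧ ∀ l ∈ T, rd2 l w ∈ S l)).card : ℝ) := by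
      rw [hfib]
      push_cast
      refine sum_congr rfl fun c hc => ?_
      rw [hcl c hc]
      push_cast
      rfl
    have hp0 : (p : ℝ) ≠ 0 := by exact_mod_cast hp.ne_zero
    have hN0 : (N : ℝ) ≠ 0 := by
      have : (0 : ℝ) < N := by exact_mod_cast hN
      exact this.ne'
    have hmain : (2 * (U : ℝ) + 1) * (2 * V + 1) / (N : ℝ) ^ 2 * ∏ l ∈ insert p T, dn l (S l) =
        ∑ _c ∈ hfin.toFinset, (2 * (U : ℝ) + 1) * (2 * V + 1) / ((N * p : ℕ) : ℝ) ^ 2 *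
          ∏ l ∈ T, dn l (S l) := by
      rw [prod_insert hpT, sum_const, nsmul_eq_mul]
      have h1 : dn p (S p) = (hfin.toFinset.card : ℝ) / (p : ℝ) ^ 2 := by
        unfold dn
        rw [hcard]
      rw [h1]
      push_cast
      field_simp
    rw [hsum, hmain, ← sum_sub_distrib, prod_insert hpT]
    refine (abs_sum_le_sum_abs _ _).trans ?_
    have hstep : ∀ c ∈ hfin.toFinset, |(((bx U V).filter
        (fun w => (w.1 ≡ a c.1 [ZMOD ((N * p : ℕ) : ℤ)] ∧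
          w.2 ≡ b c.2 [ZMOD ((N * p : ℕ) : ℤ)]) ∧ ∀ l ∈ T, rd2 l w ∈ S l)).card : ℝ) -
          (2 * (U : ℝ) + 1) * (2 * V + 1) / ((N * p : ℕ) : ℝ) ^ 2 * ∏ l ∈ T, dn l (S l)| ≤
        (∏ l ∈ T, (Nat.card (S l) : ℝ)) * (2 * U + 2 * V + 3) := by
      intro c _
      refine ih hT' (N * p) (Nat.mul_pos hN hp.pos) ?_ _ _
      intro p' hp'
      refine Nat.Coprime.mul_left (hco p' (mem_insert_of_mem hp')) ?_
      rw [Nat.coprime_primes hp (hT' p' hp')]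
      rintro rfl
      exact hpT hp'
    refine (sum_le_sum hstep).trans ?_
    rw [sum_const, nsmul_eq_mul, hcard, mul_assoc]

open Classical in
theorem cnt_box (S : ∀ l : ℕ, Set (ZMod l × ZMod l)) (T : Finset ℕ) (hT : ∀ p ∈ T, p.Prime) (U V : ℕ) :
    |(((bx U V).filter (fun w => ∀ l ∈ T, rd2 l w ∈ S l)).card : ℝ) -
      (2 * U + 1) * (2 * V + 1) * ∏ l ∈ T, dn l (S l)| ≤
    (∏ l ∈ T, (Nat.card (S l) : ℝ)) * (2 * U + 2 * V + 3) := by
  have h1 := S5_ind S U V T hT 1 le_rfl (fun p _ => Nat.coprime_one_left p) 0 0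
  have h2 : (bx U V).filter (fun w => (w.1 ≡ 0 [ZMOD ((1 : ℕ) : ℤ)] ∧ w.2 ≡ 0 [ZMOD ((1 : ℕ) : ℤ)]) ∧
        ∀ l ∈ T, rd2 l w ∈ S l) = (bx U V).filter (fun w => ∀ l ∈ T, rd2 l w ∈ S l) := by
    ext w
    rw [mem_filter, mem_filter]
    constructor
    · rintro ⟨h3, _, h4⟩
      exact ⟨h3, h4⟩
    · rintro ⟨h3, h4⟩
      exact ⟨h3, ⟨by rw [Nat.cast_one]; exact Int.modEq_one, by rw [Nat.cast_one]; exact Int.modEq_one⟩, h4⟩
  rw [h2, Nat.cast_one, one_pow, div_one] at h1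
  exact h1

end OCM
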