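import Pool.Agent.Lib.MP_17a322_ntOC.S3
import Pool.Agent.Lib.MP_17a322_ntOC.S5

/-!
# LEAF S6: the sieve in the plane

PROOF (as `SB_sieve` in MP_10e784_agW/SB.lean).  `K` from `fund4`, `u` for `z`.  For `w` in the box let `n(w) = ∏_{l ∈ PP z, rd2 l w ∈ S l} l`; for `p ∈ PP z`: `p ∣ n(w) ↔ rd2 p w ∈ S p` (distinct primes, `Prime.dvd_finset_prod_iff`), and for `T ⊆ PP z` `(∀ p ∈ T, p ∣ n(w)) ↔ ∀ p ∈ T, rd2 p w ∈ S p`.
Sum the pointwise inequality over the box and interchange: `# ≤ ∑_{T ⊆ PP z} u T * #{w : ∀ l ∈ T, rd2 l w ∈ S l}`.  By `cnt_box` the count is `L ∏_{l ∈ T} g l + err`, `L = (2 U + 1) (2 V + 1)`, `g l = dn l (S l)`, `|err| ≤ ∏_{l ∈ T} Nat.card (S l) * (2 U + 2 V + 3) ≤ (z ^ K) ^ 2 (2 U + 2 V + 3)` if `u T ≠ 0`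
(`Nat.card (S l) ≤ l ^ 2`: from `dn l (S l) ≤ 3 / 4`, and `∏_{l ∈ T} l ≤ z ^ K`); the number of such `T` is at most `z ^ K` (`count_sets`).  The main term is `L ∑_T u T ∏_T g ≤ 2 L ∏ (1 - g)`.
-/

set_option autoImplicit false

namespace OCM

open Finset Pool.Agent.Lib.MP_42948a_nt.OA

private theorem S6_PP {z p : ℕ} (hp : p ∈ PP z) : p.Prime := by
  unfold PP at hp
  exact (mem_filter.1 hp).2

open Classical in
private theorem S6_dvd (z : ℕ) (S : ∀ l : ℕ, Set (ZMod l × ZMod l)) (w : ℤ × ℤ) {p : ℕ} (hp : p ∈ PP z) :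
    p ∣ ∏ l ∈ (PP z).filter (fun l => rd2 l w ∈ S l), l ↔ rd2 p w ∈ S p := by
  constructor
  · intro h
    obtain ⟨l, hl, hd⟩ := (Prime.dvd_finsetProd_iff (S6_PP hp).prime _).1 h
    rw [mem_filter] at hl
    have h1 := (Nat.prime_dvd_prime_iff_eq (S6_PP hp) (S6_PP hl.1)).1 hd
    subst h1
    exact hl.2
  · intro h
    exact dvd_prod_of_mem _ (mem_filter.2 ⟨hp, h⟩)

private theorem S6_card {l : ℕ} (hl : l.Prime) (S : Set (ZMod l × ZMod l)) (h : dn l S ≤ 3 / 4) :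
    (Nat.card S : ℝ) ≤ (l : ℝ) ^ 2 := by
  have h0 : (0 : ℝ) < (l : ℝ) ^ 2 := by
    have := hl.pos
    positivity
  unfold dn at h
  rw [div_le_iff₀ h0] at h
  linarith

open Classical in
private theorem S6_main {K z : ℕ} {u : Finset ℕ → ℝ} (hu : ∀ T, |u T| ≤ 1)
    (hs : ∀ T, T ⊆ PP z → u T ≠ 0 → ∏ p ∈ T, p ≤ z ^ K)
    (hpt : ∀ n : ℕ, (if ∀ p ∈ PP z, ¬ p ∣ n then (1 : ℝ) else 0) ≤
      ∑ T ∈ (PP z).powerset, u T * (if ∀ p ∈ T, p ∣ n then (1 : ℝ) else 0))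
    (hsum : ∀ g : ℕ → ℝ, (∀ p ∈ PP z, 0 ≤ g p ∧ g p ≤ 3 / 4 ∧ g p ≤ 4 / p) →
      ∑ T ∈ (PP z).powerset, u T * ∏ p ∈ T, g p ≤ 2 * ∏ p ∈ PP z, (1 - g p))
    (S : ∀ l : ℕ, Set (ZMod l × ZMod l))
    (hS : ∀ l ∈ PP z, dn l (S l) ≤ 3 / 4 ∧ dn l (S l) ≤ 4 / l) (U V : ℕ) :
    (((bx U V).filter (fun w => ∀ l ∈ PP z, rd2 l w ∉ S l)).card : ℝ) ≤
      2 * ((2 * U + 1) * (2 * V + 1)) * ∏ l ∈ PP z, (1 - dn l (S l)) + (z : ℝ) ^ (3 * K) * (2 * U + 2 * V + 3) := by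
  have h3 : (((bx U V).filter (fun w => ∀ l ∈ PP z, rd2 l w ∉ S l)).card : ℝ) ≤
      ∑ T ∈ (PP z).powerset, u T * (((bx U V).filter (fun w => ∀ l ∈ T, rd2 l w ∈ S l)).card : ℝ) := by
    have e1 : (((bx U V).filter (fun w => ∀ l ∈ PP z, rd2 l w ∉ S l)).card : ℝ) =
        ∑ w ∈ bx U V, (if ∀ l ∈ PP z, rd2 l w ∉ S l then (1 : ℝ) else 0) := by
      rw [card_filter]
      push_cast
      rfl
    have e2 : ∀ T ∈ (PP z).powerset, u T *
        (((bx U V).filter (fun w => ∀ l ∈ T, rd2 l w ∈ S l)).card : ℝ) =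
        ∑ w ∈ bx U V, u T * (if ∀ l ∈ T, rd2 l w ∈ S l then (1 : ℝ) else 0) := by
      intro T _
      rw [card_filter, ← mul_sum]
      push_cast
      rfl
    rw [e1, sum_congr rfl e2, sum_comm]
    refine sum_le_sum fun w _ => ?_
    have h := hpt (∏ l ∈ (PP z).filter (fun l => rd2 l w ∈ S l), l)
    have a1 : (if ∀ p ∈ PP z, ¬ p ∣ ∏ l ∈ (PP z).filter (fun l => rd2 l w ∈ S l), l then (1 : ℝ) else 0) =
        (if ∀ l ∈ PP z, rd2 l w ∉ S l then (1 : ℝ) else 0) :=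
      if_congr ⟨fun q l hl h1 => q l hl ((S6_dvd z S w hl).2 h1),
        fun q l hl h1 => q l hl ((S6_dvd z S w hl).1 h1)⟩ rfl rfl
    have a2 : ∀ T ∈ (PP z).powerset,
        u T * (if ∀ p ∈ T, p ∣ ∏ l ∈ (PP z).filter (fun l => rd2 l w ∈ S l), l then (1 : ℝ) else 0) =
        u T * (if ∀ l ∈ T, rd2 l w ∈ S l then (1 : ℝ) else 0) := by
      intro T hT
      have hTs := mem_powerset.1 hT
      exact congrArg (u T * ·) (if_congr ⟨fun q l hl => (S6_dvd z S w (hTs hl)).1 (q l hl),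
        fun q l hl => (S6_dvd z S w (hTs hl)).2 (q l hl)⟩ rfl rfl)
    rw [a1, sum_congr rfl a2] at h
    exact h
  set L : ℝ := (2 * U + 1) * (2 * V + 1) with hL
  set E : ℝ := (z : ℝ) ^ (2 * K) * (2 * U + 2 * V + 3) with hE
  have hE0 : 0 ≤ E := by positivity
  have h4 : ∑ T ∈ (PP z).powerset, u T * (((bx U V).filter (fun w => ∀ l ∈ T, rd2 l w ∈ S l)).card : ℝ) ≤
      L * ∑ T ∈ (PP z).powerset, u T * ∏ l ∈ T, dn l (S l) + (z : ℝ) ^ K * E := by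
    have e3 : ∀ T ∈ (PP z).powerset, u T *
        (((bx U V).filter (fun w => ∀ l ∈ T, rd2 l w ∈ S l)).card : ℝ) ≤
        L * (u T * ∏ l ∈ T, dn l (S l)) + (if ∏ p ∈ T, p ≤ z ^ K then E else 0) := by
      intro T hT
      have hTs := mem_powerset.1 hT
      by_cases hu0 : u T = 0
      · rw [hu0, zero_mul, zero_mul, mul_zero, zero_add]
        split_ifs
        · exact hE0
        · exact le_rfl
      · have hs1 := hs T hTs hu0
        rw [if_pos hs1]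
        have hc := cnt_box S T (fun p hp => S6_PP (hTs hp)) U V
        have hsR : ∏ p ∈ T, (p : ℝ) ≤ (z : ℝ) ^ K := by
          have h8 : ((∏ p ∈ T, p : ℕ) : ℝ) ≤ ((z ^ K : ℕ) : ℝ) := Nat.cast_le.2 hs1
          rw [Nat.cast_prod, Nat.cast_pow] at h8
          exact h8
        have hP : ∏ l ∈ T, (Nat.card (S l) : ℝ) ≤ (z : ℝ) ^ (2 * K) := by
          calc ∏ l ∈ T, (Nat.card (S l) : ℝ) ≤ ∏ l ∈ T, (l : ℝ) ^ 2 :=
                prod_le_prod (fun l _ => Nat.cast_nonneg _)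
                  (fun l hl => S6_card (S6_PP (hTs hl)) (S l) (hS l (hTs hl)).1)
            _ = (∏ l ∈ T, (l : ℝ)) ^ 2 := prod_pow _ _ _
            _ ≤ ((z : ℝ) ^ K) ^ 2 :=
                pow_le_pow_left₀ (prod_nonneg fun l _ => Nat.cast_nonneg _) hsR 2
            _ = (z : ℝ) ^ (2 * K) := by rw [← pow_mul, mul_comm K 2]
        have hc2 := hc.trans (mul_le_mul_of_nonneg_right hP (by positivity))
        rw [← hL, ← hE] at hc2
        have hu1 := hu T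
        set c : ℝ := (((bx U V).filter (fun w => ∀ l ∈ T, rd2 l w ∈ S l)).card : ℝ)
        have e4 : u T * c = L * (u T * ∏ l ∈ T, dn l (S l)) + u T * (c - L * ∏ l ∈ T, dn l (S l)) := by ring
        rw [e4]
        have e5 : u T * (c - L * ∏ l ∈ T, dn l (S l)) ≤ E := by
          refine (le_abs_self _).trans ?_
          rw [abs_mul]
          calc |u T| * |c - L * ∏ l ∈ T, dn l (S l)| ≤ 1 * E :=
                mul_le_mul hu1 hc2 (abs_nonneg _) zero_le_one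
            _ = E := one_mul E
        linarith
    refine (sum_le_sum e3).trans ?_
    rw [sum_add_distrib, ← mul_sum, ← sum_filter, sum_const, nsmul_eq_mul]
    have hcs : (((PP z).powerset.filter (fun T => ∏ p ∈ T, p ≤ z ^ K)).card : ℝ) ≤ (z : ℝ) ^ K := by
      exact_mod_cast count_sets z (z ^ K)
    have := mul_le_mul_of_nonneg_right hcs hE0
    linarith
  have h5 := hsum (fun l => dn l (S l)) (fun l hl => ⟨by unfold dn; positivity, (hS l hl).1, (hS l hl).2⟩)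
  have hL0 : 0 ≤ L := by positivity
  have h6 := mul_le_mul_of_nonneg_left h5 hL0
  have h7 : (z : ℝ) ^ K * E = (z : ℝ) ^ (3 * K) * (2 * U + 2 * V + 3) := by
    rw [hE, ← mul_assoc, ← pow_add]
    congr 2
    ring
  have h8 : L * (2 * ∏ l ∈ PP z, (1 - dn l (S l))) = 2 * L * ∏ l ∈ PP z, (1 - dn l (S l)) := by ring
  rw [h8] at h6
  linarith

open Classical in
theorem sieve2 : ∃ K : ℕ, 1 ≤ K ∧ ∀ z : ℕ, 2 ≤ z → ∀ S : ∀ l : ℕ, Set (ZMod l × ZMod l),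
    (∀ l ∈ PP z, dn l (S l) ≤ 3 / 4 ∧ dn l (S l) ≤ 4 / l) → ∀ U V : ℕ,
    (((bx U V).filter (fun w => ∀ l ∈ PP z, rd2 l w ∉ S l)).card : ℝ) ≤
      2 * ((2 * U + 1) * (2 * V + 1)) * ∏ l ∈ PP z, (1 - dn l (S l)) + (z : ℝ) ^ (3 * K) * (2 * U + 2 * V + 3) := by
  obtain ⟨K, hK1, hK⟩ := fund4
  refine ⟨K, hK1, fun z hz S hS U V => ?_⟩
  obtain ⟨u, hu, hs, hpt, hsum⟩ := hK z hz
  exact S6_main hu hs hpt hsum S hS U V

end OCM
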