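import Pool.Agent.Lib.MP_17a322_ntOC.S1
import Pool.Agent.Lib.MP_17a322_ntOC.S2
import Pool.Agent.Lib.MP_17a322_ntOC.S4
import Pool.Agent.Lib.MP_42948a_nt.TQ.A2

/-!
# LEAF S7: the product over the primes

PROOF.  `D = -δ` is not a square in `ℤ` (negative).  `split_low` for `D` and `psum` with `a n = log n / n` if `n` is a prime with `IsSquare (D : ZMod n)`, `0` otherwise (`log (v / u) = log v - log u`; `a n / log n = 1 / n`) give `C₁` with `∑_{p ∈ (u, v], split} 1 / p ≥ 1/2 (log log v - log log u) - C₁` for naturals `2 ≤ u ≤ v`.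
For the primes `l ∈ PP z` let `g l = dn l (bS δ y l) ∈ [0, 3/4]`.  `1 - g ≤ exp (- g)`, so the product is `≤ exp (- ∑ g)`.  The primes `l < 7` and `l ∣ 2 δ` contribute to `∑_{split} 4 / l` at most a constant `C₂(δ)` (at most `4` times the sum of `1 / l` over the primes `l < 7` and the prime factors of `2 δ`),
and `∑_l 4 / l ^ 2 ≤ 8`.  So (`bS_ge`) `∑_{l ∈ PP z} g l ≥ ∑_{l ≤ z split} 2 / l + ∑_{y < l ≤ z split} 2 / l - C₂ - 8 ≥ (log log z - log log 2 - 2 C₁) + (log log z - log log y - 2 C₁) - C₂ - 8` if `y ≤ z`; then `exp (- ∑ g) ≤ C (log y) / (log z) ^ 2`.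
If `y > z` the first sum alone gives `exp (- ∑ g) ≤ C / log z ≤ C log y / (log z) ^ 2`.  (`log y ≥ log 2 > 0`.)
-/

set_option autoImplicit false

namespace OCM

open Finset Pool.Agent.Lib.MP_42948a_nt.OA

private def S7_Q (δ l : ℕ) : Prop := l.Prime ∧ IsSquare ((-(δ : ℤ) : ℤ) : ZMod l)

open Classical in
/-- sums of `1 / p` over the split primes -/
private theorem S7_low {δ : ℕ} (hδ : 1 ≤ δ) : ∃ C₁ : ℝ, 0 ≤ C₁ ∧ ∀ u v : ℕ, 2 ≤ u → u ≤ v →
    1 / 2 * (Real.log (Real.log v) - Real.log (Real.log u)) - C₁ ≤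
      ∑ l ∈ (Ioc u v).filter (S7_Q δ), 1 / (l : ℝ) := by
  have hD : ¬ IsSquare (-(δ : ℤ)) := by
    rintro ⟨r, hr⟩
    have h1 : 0 ≤ r * r := mul_self_nonneg r
    have h2 : (1 : ℤ) ≤ δ := by exact_mod_cast hδ
    omega
  obtain ⟨C₀, hC₀, h0⟩ := split_low hD
  have h1 := psum (a := fun n => if S7_Q δ n then Real.log n / n else 0) hC₀ (by
    intro u v hu huv
    have hu' : (2 : ℝ) ≤ u := by exact_mod_cast hu
    have huv' : (u : ℝ) ≤ v := by exact_mod_cast huv
    have h2 := h0 u v hu' huv'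
    rw [Nat.floor_natCast, Nat.floor_natCast, Real.log_div (by linarith) (by linarith)] at h2
    rw [← Finset.sum_filter]
    refine h2.trans (le_of_eq (Finset.sum_congr ?_ fun _ _ => rfl))
    ext n
    rw [Finset.mem_filter, Finset.mem_filter]
    exact Iff.rfl)
  refine ⟨C₀ / Real.log 2 + 1, add_nonneg (div_nonneg hC₀ (Real.log_nonneg (by norm_num))) zero_le_one,
    fun u v hu huv => (h1 u v hu huv).trans (le_of_eq ?_)⟩
  rw [Finset.sum_filter]
  refine Finset.sum_congr rfl fun n hn => ?_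
  by_cases hQ : S7_Q δ n
  · rw [if_pos hQ, if_pos hQ]
    have h3 : Real.log n ≠ 0 := by
      have : (1 : ℝ) < n := by exact_mod_cast hQ.1.one_lt
      exact (Real.log_pos this).ne'
    have h4 : (n : ℝ) ≠ 0 := by exact_mod_cast hQ.1.ne_zero
    field_simp
  · rw [if_neg hQ, if_neg hQ, zero_div]

private theorem S7_sq (z : ℕ) : ∑ l ∈ Icc 1 z, 4 / (l : ℝ) ^ 2 ≤ 8 := by
  have h := sum_Ioo_inv_sq_le (α := ℝ) 0 (z + 1)
  have h1 : Ioo 0 (z + 1) = Icc 1 z := by
    ext n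
    simp only [Finset.mem_Ioo, Finset.mem_Icc]
    omega
  rw [h1] at h
  have h2 : ∑ l ∈ Icc 1 z, 4 / (l : ℝ) ^ 2 = 4 * ∑ l ∈ Icc 1 z, ((l : ℝ) ^ 2)⁻¹ := by
    rw [Finset.mul_sum]
    exact Finset.sum_congr rfl fun l _ => by rw [div_eq_mul_inv]
  rw [h2]
  norm_num at h
  linarith

open Classical in
/-- lower bound for the sum of the densities -/
private theorem S7_sum {δ : ℕ} (hδ : 1 ≤ δ) : ∃ C₂ : ℝ, 0 ≤ C₂ ∧ ∀ y z : ℕ,
    2 * ∑ l ∈ (Ioc 2 z).filter (S7_Q δ), 1 / (l : ℝ) +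
      2 * ∑ l ∈ (Ioc y z).filter (S7_Q δ), 1 / (l : ℝ) - C₂ ≤ ∑ l ∈ PP z, dn l (bS δ y l) := by
  have hδ0 : 2 * δ ≠ 0 := by omega
  set B : Finset ℕ := Finset.range 7 ∪ (2 * δ).divisors with hB
  refine ⟨8 + ∑ l ∈ B, 4 / (l : ℝ), add_nonneg (by norm_num)
    (Finset.sum_nonneg fun l _ => div_nonneg (by norm_num) (Nat.cast_nonneg l)), fun y z => ?_⟩
  -- pointwise
  have hpt : ∀ l ∈ PP z, (if S7_Q δ l then (2 / (l : ℝ) + if y < l then 2 / (l : ℝ) else 0) else 0) -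
      4 / (l : ℝ) ^ 2 - (if l ∈ B then 4 / (l : ℝ) else 0) ≤ dn l (bS δ y l) := by
    intro l hl
    have hlp : l.Prime := (Finset.mem_filter.1 hl).2
    have hl0 : (0 : ℝ) < l := by exact_mod_cast hlp.pos
    have hadm := (bS_adm δ y hlp).1
    have hpos1 : 0 ≤ 4 / (l : ℝ) ^ 2 := div_nonneg (by norm_num) (pow_nonneg hl0.le 2)
    have hpos2 : 0 ≤ 4 / (l : ℝ) := div_nonneg (by norm_num) hl0.le
    have hpos3 : 0 ≤ 2 / (l : ℝ) := div_nonneg (by norm_num) hl0.le
    by_cases hQ : S7_Q δ l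
    · rw [if_pos hQ]
      by_cases hb : l ∈ B
      · rw [if_pos hb]
        have h24 : 4 / (l : ℝ) = 2 / (l : ℝ) + 2 / (l : ℝ) := by ring
        split_ifs <;> linarith
      · rw [if_neg hb]
        have h7 : 7 ≤ l := by
          by_contra hcon
          exact hb (Finset.mem_union_left _ (Finset.mem_range.2 (by omega)))
        have hd : ¬ l ∣ 2 * δ := fun hcon =>
          hb (Finset.mem_union_right _ (Nat.mem_divisors.2 ⟨hcon, hδ0⟩))
        have hs : IsSquare (-(δ : ZMod l)) := by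
          have h1 := hQ.2
          push_cast at h1
          exact h1
        obtain ⟨h1, h2⟩ := bS_ge δ y hlp h7 hd hs
        by_cases hy : y < l
        · rw [if_pos hy]
          have h3 := h2 hy
          have h24 : 4 / (l : ℝ) = 2 / (l : ℝ) + 2 / (l : ℝ) := by ring
          linarith
        · rw [if_neg hy]
          have h14 : 1 / (l : ℝ) ^ 2 ≤ 4 / (l : ℝ) ^ 2 :=
            div_le_div_of_nonneg_right (by norm_num) (pow_nonneg hl0.le 2)
          linarith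
    · rw [if_neg hQ]
      split_ifs <;> linarith
  have hsum := Finset.sum_le_sum hpt
  rw [Finset.sum_sub_distrib, Finset.sum_sub_distrib] at hsum
  have e2 : ∑ l ∈ PP z, 4 / (l : ℝ) ^ 2 ≤ 8 := by
    refine le_trans (Finset.sum_le_sum_of_subset_of_nonneg (Finset.filter_subset _ _) ?_) (S7_sq z)
    intro l _ _
    exact div_nonneg (by norm_num) (pow_nonneg (Nat.cast_nonneg l) 2)
  have e3 : ∑ l ∈ PP z, (if l ∈ B then 4 / (l : ℝ) else 0) ≤ ∑ l ∈ B, 4 / (l : ℝ) := by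
    rw [← Finset.sum_filter]
    refine Finset.sum_le_sum_of_subset_of_nonneg (fun l hl => (Finset.mem_filter.1 hl).2) ?_
    intro l _ _
    exact div_nonneg (by norm_num) (Nat.cast_nonneg l)
  have e1 : 2 * ∑ l ∈ (Ioc 2 z).filter (S7_Q δ), 1 / (l : ℝ) +
      2 * ∑ l ∈ (Ioc y z).filter (S7_Q δ), 1 / (l : ℝ) ≤
      ∑ l ∈ PP z, (if S7_Q δ l then (2 / (l : ℝ) + if y < l then 2 / (l : ℝ) else 0) else 0) := by
    rw [← Finset.sum_filter, Finset.sum_add_distrib, ← Finset.sum_filter, Finset.mul_sum,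
      Finset.mul_sum]
    refine add_le_add ?_ ?_
    · have h1 : ∑ l ∈ (Ioc 2 z).filter (S7_Q δ), 2 * (1 / (l : ℝ)) =
          ∑ l ∈ (Ioc 2 z).filter (S7_Q δ), 2 / (l : ℝ) :=
        Finset.sum_congr rfl fun l _ => by ring
      rw [h1]
      refine Finset.sum_le_sum_of_subset_of_nonneg ?_ ?_
      · intro l hl
        rw [Finset.mem_filter, Finset.mem_Ioc] at hl
        rw [Finset.mem_filter, PP, Finset.mem_filter, Finset.mem_Icc]
        exact ⟨⟨⟨by omega, hl.1.2⟩, hl.2.1⟩, hl.2⟩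
      · intro l _ _
        exact div_nonneg (by norm_num) (Nat.cast_nonneg l)
    · have h1 : ∑ l ∈ (Ioc y z).filter (S7_Q δ), 2 * (1 / (l : ℝ)) =
          ∑ l ∈ (Ioc y z).filter (S7_Q δ), 2 / (l : ℝ) :=
        Finset.sum_congr rfl fun l _ => by ring
      rw [h1]
      refine Finset.sum_le_sum_of_subset_of_nonneg ?_ ?_
      · intro l hl
        rw [Finset.mem_filter, Finset.mem_Ioc] at hl
        rw [Finset.mem_filter, Finset.mem_filter, PP, Finset.mem_filter, Finset.mem_Icc]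
        exact ⟨⟨⟨⟨by omega, hl.1.2⟩, hl.2.1⟩, hl.2⟩, hl.1.1⟩
      · intro l _ _
        exact div_nonneg (by norm_num) (Nat.cast_nonneg l)
  linarith

theorem prod_bd {δ : ℕ} (hδ : 1 ≤ δ) : ∃ C : ℝ, 0 < C ∧ ∀ y z : ℕ, 2 ≤ y → 2 ≤ z →
    ∏ l ∈ PP z, (1 - dn l (bS δ y l)) ≤ C * Real.log y / (Real.log z) ^ 2 := by
  classical
  obtain ⟨C₁, hC₁, hlow⟩ := S7_low hδ
  obtain ⟨C₂, hC₂, hsum⟩ := S7_sum hδ
  set c : ℝ := Real.log (Real.log (2 : ℕ)) with hc
  refine ⟨Real.exp (c + 4 * C₁ + C₂), Real.exp_pos _, fun y z hy hz => ?_⟩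
  have hyr : (2 : ℝ) ≤ y := by exact_mod_cast hy
  have hzr : (2 : ℝ) ≤ z := by exact_mod_cast hz
  have hly : 0 < Real.log y := Real.log_pos (by linarith)
  have hlz : 0 < Real.log z := Real.log_pos (by linarith)
  have hprod : ∏ l ∈ PP z, (1 - dn l (bS δ y l)) ≤ Real.exp (-∑ l ∈ PP z, dn l (bS δ y l)) := by
    rw [← Finset.sum_neg_distrib, Real.exp_sum]
    refine Finset.prod_le_prod ?_ ?_
    · intro l hl
      have := (bS_adm δ y (Finset.mem_filter.1 hl).2).2.1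
      linarith
    · intro l _
      have := Real.add_one_le_exp (-dn l (bS δ y l))
      linarith
  have h1 := hsum y z
  have h2 := hlow 2 z le_rfl hz
  rw [← hc] at h2
  have hexp : Real.exp (Real.log (Real.log y) - 2 * Real.log (Real.log z)) =
      Real.log y / (Real.log z) ^ 2 := by
    rw [Real.exp_sub, Real.exp_log hly, two_mul, Real.exp_add, Real.exp_log hlz, pow_two]
  refine hprod.trans ?_
  rw [mul_div_assoc, ← hexp, ← Real.exp_add]
  refine Real.exp_le_exp.2 ?_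
  rcases le_total y z with hyz | hyz
  · have h3 := hlow y z hy hyz
    linarith
  · have h3 : 0 ≤ ∑ l ∈ (Ioc y z).filter (S7_Q δ), 1 / (l : ℝ) :=
      Finset.sum_nonneg fun l _ => one_div_nonneg.2 (Nat.cast_nonneg l)
    have h4 : Real.log (Real.log z) ≤ Real.log (Real.log y) :=
      Real.log_le_log hlz (Real.log_le_log (by linarith) (by exact_mod_cast hyz))
    linarith

end OCM
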