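import Pool.Agent.Lib.MP_17a322_ntOC.S0
import Pool.Agent.Lib.MP_42948a_nt.OA.Defs

/-!
# LEAF S8: from primes of norm form to points of the box

PROOF.  The `p ≤ z` are at most `z`.  For `p ∈ badD`, `p > z`, choose `a, k, q` and map `p` to `(a, k)`: injective, as `4 p δ = k ^ 2 + δ a ^ 2`, `δ ≥ 1`.  `a ^ 2 ≤ 4 p ≤ 4 t < (U + 1) ^ 2` (`(4 p - a ^ 2) δ = k ^ 2 ≥ 0`), so `|a| ≤ U`; `k ^ 2 ≤ 4 p δ < (V + 1) ^ 2`, `|k| ≤ V`.
Let `l ∈ PP z` and suppose `rd2 l (a, k) ∈ bS δ y l`: `l` is a prime, `l ≤ z < p`, `l ∤ 2 δ`.  First case `k ^ 2 + δ a ^ 2 = 0` in `ZMod l`: `l ∣ 4 p δ`, so `l ∣ p`, `l = p > z`, a contradiction.  Second case `y < l` and `k ^ 2 + δ (a - 2) ^ 2 = 0`: `k ^ 2 + δ (a - 2) ^ 2 = 4 δ (p + 1 - a)`, so `l ∣ p + 1 - a`.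
`p + 1 - a = q m` with `m ≥ 1` (`p + 1 - a > 0` as `a ^ 2 ≤ 4 p < (p + 1) ^ 2` unless `p = 1`), and `l ∣ q` or `l ∣ m`.  `l = q`: `q > x ^ (1 / A) ≥ z` (from `x < q ^ A`), a contradiction.  `l ∣ m`: `l ≤ m`, `m = (p + 1 - a) / q ≤ (t + 1 + 2 √t) / x ^ (1 / A) ≤ 4 x / x ^ (1 / A) = 4 x ^ (1 - 1 / A) < y + 1`
(`|a| ≤ 2 √p`, or `- a ≤ p + 1`.. careful: `p + 1 - a ≤ p + 1 + 2 √p ≤ 4 t` for `t ≥ 1`), so `m ≤ y < l`, a contradiction.
-/

set_option autoImplicit false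

namespace OCM

open Finset Pool.Agent.Lib.MP_42948a_nt.OA

private theorem S8_abs {a : ℤ} {U : ℕ} (h : (a : ℝ) ^ 2 < ((U : ℝ) + 1) ^ 2) : a ∈ Icc (-(U : ℤ)) U := by
  have h1 : |(a : ℝ)| < (U : ℝ) + 1 := abs_lt_of_sq_lt_sq h (by positivity)
  obtain ⟨h2, h3⟩ := abs_lt.1 h1
  have h4 : a < (U : ℤ) + 1 := by exact_mod_cast h3
  have h5 : -((U : ℤ) + 1) < a := by
    have h6 : ((-((U : ℤ) + 1) : ℤ) : ℝ) < (a : ℝ) := by
      push_cast
      linarith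
    exact_mod_cast h6
  rw [mem_Icc]
  constructor
  · omega
  · omega

private theorem S8_dvd4 {l δ : ℕ} (hl : l.Prime) (h : ¬ l ∣ 2 * δ) {n : ℤ} (hn : (l : ℤ) ∣ 4 * δ * n) :
    (l : ℤ) ∣ n := by
  have hl' : Prime (l : ℤ) := Nat.prime_iff_prime_int.1 hl
  rcases hl'.dvd_or_dvd hn with h1 | h1
  · exfalso
    have h2 : (l : ℤ) ∣ 2 * (2 * (δ : ℤ)) := by
      have e : (4 * (δ : ℤ)) = 2 * (2 * (δ : ℤ)) := by ring
      rwa [e] at h1
    apply h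
    rcases hl'.dvd_or_dvd h2 with h3 | h3
    · have h4 : (l : ℤ) ∣ ((2 * δ : ℕ) : ℤ) := by
        push_cast
        exact Dvd.dvd.mul_right h3 _
      exact Int.natCast_dvd_natCast.1 h4
    · have h4 : (l : ℤ) ∣ ((2 * δ : ℕ) : ℤ) := by
        push_cast
        exact h3
      exact Int.natCast_dvd_natCast.1 h4
  · exact h1

/-- no class of the chosen point is bad -/
private theorem S8_good {δ : ℕ} {A x t : ℝ} (hA : 1 < A) (hx : 1 ≤ x) (ht : 1 ≤ t) (htx : t ≤ x)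
    {y z : ℕ} (hz : (z : ℝ) ≤ x ^ (1 / A)) (hy : 4 * x ^ (1 - 1 / A) < y + 1)
    {p : ℕ} (hp : p.Prime) (hpt : (p : ℝ) ≤ t) (hpz : z < p) {a k : ℤ} (ha : a ^ 2 ≤ 4 * (p : ℤ))
    (hk : (4 * (p : ℤ) - a ^ 2) * δ = k ^ 2) {q : ℕ} (hqd : (q : ℤ) ∣ (p : ℤ) + 1 - a)
    (hq : q.Prime) (hqx : x < (q : ℝ) ^ A) {l : ℕ} (hl : l ∈ PP z) : rd2 l (a, k) ∉ bS δ y l := by
  have hl' := (mem_filter.1 hl).2
  have hlz : l ≤ z := (mem_Icc.1 (mem_filter.1 hl).1).2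
  have hx0 : 0 < x := lt_of_lt_of_le one_pos hx
  have hA0 : 0 < A := lt_trans one_pos hA
  have hxA : 0 < x ^ (1 / A) := Real.rpow_pos_of_pos hx0 _
  have hxA2 : (x ^ (1 / A)) ^ A = x := by
    rw [← Real.rpow_mul hx0.le, one_div_mul_cancel hA0.ne', Real.rpow_one]
  have hqA : x ^ (1 / A) < (q : ℝ) := by
    by_contra hcon
    have h1 : (q : ℝ) ≤ x ^ (1 / A) := not_lt.1 hcon
    have h2 : (q : ℝ) ^ A ≤ (x ^ (1 / A)) ^ A := Real.rpow_le_rpow (Nat.cast_nonneg q) h1 hA0.le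
    rw [hxA2] at h2
    linarith
  rintro ⟨-, hl2, -, h | ⟨hyl, h⟩⟩
  · have h1 : ((4 * (δ : ℤ) * p : ℤ) : ZMod l) = 0 := by
      have e : (4 * (δ : ℤ) * p : ℤ) = k ^ 2 + δ * a ^ 2 := by linear_combination hk
      rw [e]
      push_cast
      exact h
    have h2 := S8_dvd4 hl' hl2 ((ZMod.intCast_zmod_eq_zero_iff_dvd _ l).1 h1)
    have h3 : l ∣ p := Int.natCast_dvd_natCast.1 h2
    have h4 := (Nat.prime_dvd_prime_iff_eq hl' hp).1 h3
    omega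
  · have h1 : ((4 * (δ : ℤ) * ((p : ℤ) + 1 - a) : ℤ) : ZMod l) = 0 := by
      have e : (4 * (δ : ℤ) * ((p : ℤ) + 1 - a) : ℤ) = k ^ 2 + δ * (a - 2) ^ 2 := by linear_combination hk
      rw [e]
      push_cast
      exact h
    have h2 := S8_dvd4 hl' hl2 ((ZMod.intCast_zmod_eq_zero_iff_dvd _ l).1 h1)
    have hp2 : (2 : ℤ) ≤ p := by exact_mod_cast hp.two_le
    have hpos : 0 < (p : ℤ) + 1 - a := by
      by_contra hcon
      have h3 : (p : ℤ) + 1 ≤ a := by linarith [not_lt.1 hcon]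
      nlinarith [sq_nonneg ((p : ℤ) - 1)]
    obtain ⟨m, hm⟩ := hqd
    have hq0 : (0 : ℤ) < q := by exact_mod_cast hq.pos
    have hm0 : 0 < m := by
      rw [hm] at hpos
      exact (mul_pos_iff_of_pos_left hq0).1 hpos
    have hlp : Prime (l : ℤ) := Nat.prime_iff_prime_int.1 hl'
    rw [hm] at h2
    rcases hlp.dvd_or_dvd h2 with h3 | h3
    · have h4 := (Nat.prime_dvd_prime_iff_eq hl' hq).1 (Int.natCast_dvd_natCast.1 h3)
      have h5 : (q : ℝ) ≤ z := by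
        rw [← h4]
        exact_mod_cast hlz
      linarith
    · have h4 : (l : ℤ) ≤ m := Int.le_of_dvd hm0 h3
      have h5 : ((p : ℝ) + 1 - a) ≤ 4 * t := by
        by_contra hcon
        have h6 : 4 * t < (p : ℝ) + 1 - a := not_le.1 hcon
        have h7 : ((a : ℝ)) ^ 2 ≤ 4 * (p : ℝ) := by exact_mod_cast ha
        have h8 : 2 * t < - (a : ℝ) := by linarith
        nlinarith
      have h6 : ((p : ℝ) + 1 - a) = (q : ℝ) * (m : ℝ) := by exact_mod_cast hm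
      have hmR : (0 : ℝ) < m := by exact_mod_cast hm0
      have h7 : (m : ℝ) * x ^ (1 / A) < 4 * x := by
        have h8 : (m : ℝ) * x ^ (1 / A) < (m : ℝ) * q := mul_lt_mul_of_pos_left hqA hmR
        rw [h6] at h5
        linarith [mul_comm (q : ℝ) (m : ℝ)]
      have h8 : x ^ (1 - 1 / A) * x ^ (1 / A) = x := by
        rw [← Real.rpow_add hx0, sub_add_cancel, Real.rpow_one]
      have h9 : (m : ℝ) < 4 * x ^ (1 - 1 / A) := by
        have h10 : (m : ℝ) * x ^ (1 / A) < 4 * x ^ (1 - 1 / A) * x ^ (1 / A) := by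
          rw [mul_assoc, h8]
          exact h7
        exact lt_of_mul_lt_mul_right h10 hxA.le
      have h10 : (m : ℝ) < y + 1 := h9.trans hy
      have h11 : m < (y : ℤ) + 1 := by exact_mod_cast h10
      omega

open Classical in
theorem badD_le {δ : ℕ} (hδ : 1 ≤ δ) {A x t : ℝ} (hA : 1 < A) (hx : 1 ≤ x) (ht : 1 ≤ t) (htx : t ≤ x)
    {y z U V : ℕ} (hz : (z : ℝ) ≤ x ^ (1 / A)) (hy : 4 * x ^ (1 - 1 / A) < y + 1)
    (hU : 4 * t < ((U : ℝ) + 1) ^ 2) (hV : 4 * (δ * t) < ((V : ℝ) + 1) ^ 2) :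
    ((badD δ A x t).card : ℝ) ≤
      z + (((bx U V).filter (fun w => ∀ l ∈ PP z, rd2 l w ∉ bS δ y l)).card : ℝ) := by
  have hex : ∀ p ∈ badD δ A x t, ∃ w : ℤ × ℤ, (4 * (p : ℤ) - w.1 ^ 2) * δ = w.2 ^ 2 ∧
      ∃ q : ℕ, q.Prime ∧ (q : ℤ) ∣ (p : ℤ) + 1 - w.1 ∧ x < (q : ℝ) ^ A := by
    intro p hp
    obtain ⟨a, k, h1, h2⟩ := (mem_filter.1 hp).2.2
    exact ⟨(a, k), h1, h2⟩
  choose! F hF using hex
  have hsplit := Finset.card_filter_add_card_filter_not (s := badD δ A x t) (fun p => p ≤ z)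
  have h1 : ((badD δ A x t).filter (fun p => p ≤ z)).card ≤ z := by
    have h2 : (badD δ A x t).filter (fun p => p ≤ z) ⊆ Icc 1 z := by
      intro p hp
      obtain ⟨h3, h4⟩ := mem_filter.1 hp
      exact mem_Icc.2 ⟨(mem_Icc.1 (mem_filter.1 h3).1).1, h4⟩
    have h3 := card_le_card h2
    rwa [Nat.card_Icc, Nat.add_sub_cancel] at h3
  have h2 : ((badD δ A x t).filter (fun p => ¬ p ≤ z)).card ≤
      ((bx U V).filter (fun w => ∀ l ∈ PP z, rd2 l w ∉ bS δ y l)).card := by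
    have hδ' : (1 : ℤ) ≤ δ := by exact_mod_cast hδ
    refine card_le_card_of_injOn F ?_ ?_
    · intro p hp
      obtain ⟨h3, h4⟩ := mem_filter.1 hp
      obtain ⟨h5, hpp, -⟩ := mem_filter.1 h3
      obtain ⟨h7, q, hq, hqd, hqx⟩ := hF p h3
      have hpt : (p : ℝ) ≤ t := (Nat.le_floor_iff (le_trans zero_le_one ht)).1 (mem_Icc.1 h5).2
      have ha : (F p).1 ^ 2 ≤ 4 * (p : ℤ) := by
        by_contra hcon
        have h8 : 4 * (p : ℤ) - (F p).1 ^ 2 < 0 := by linarith [not_le.1 hcon]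
        have h9 : (4 * (p : ℤ) - (F p).1 ^ 2) * δ < 0 := mul_neg_of_neg_of_pos h8 (by linarith)
        rw [h7] at h9
        exact absurd h9 (not_lt.2 (sq_nonneg _))
      have haR : ((F p).1 : ℝ) ^ 2 ≤ 4 * (p : ℝ) := by exact_mod_cast ha
      have hkR : ((F p).2 : ℝ) ^ 2 ≤ 4 * (δ * (p : ℝ)) := by
        have h8 : ((F p).2 : ℝ) ^ 2 = (4 * (p : ℝ) - ((F p).1 : ℝ) ^ 2) * δ := by exact_mod_cast h7.symm
        rw [h8]
        have h9 : 0 ≤ ((F p).1 : ℝ) ^ 2 * δ := by positivity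
        linarith
      have hδR : (0 : ℝ) ≤ δ := Nat.cast_nonneg δ
      have hdt : (δ : ℝ) * p ≤ δ * t := mul_le_mul_of_nonneg_left hpt hδR
      refine Finset.mem_coe.2 (mem_filter.2 ⟨?_, fun l hl => ?_⟩)
      · unfold bx
        exact mem_product.2 ⟨S8_abs (by linarith), S8_abs (by linarith)⟩
      · exact S8_good hA hx ht htx hz hy hpp hpt (not_le.1 h4) ha h7 hqd hq hqx hl
    · intro p hp p' hp' he
      have h3 := (mem_filter.1 (Finset.mem_coe.1 hp)).1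
      have h3' := (mem_filter.1 (Finset.mem_coe.1 hp')).1
      have h4 := (hF p h3).1
      have h4' := (hF p' h3').1
      rw [he] at h4
      have h5 : (4 * (p : ℤ) - (F p').1 ^ 2) * δ = (4 * (p' : ℤ) - (F p').1 ^ 2) * δ := h4.trans h4'.symm
      have h6 : 4 * (p : ℤ) - (F p').1 ^ 2 = 4 * (p' : ℤ) - (F p').1 ^ 2 :=
        mul_right_cancel₀ (by linarith : (δ : ℤ) ≠ 0) h5
      have h7 : (p : ℤ) = p' := by linarith
      exact_mod_cast h7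
  have h3 : (badD δ A x t).card ≤ z +
      ((bx U V).filter (fun w => ∀ l ∈ PP z, rd2 l w ∉ bS δ y l)).card := by
    rw [← hsplit]
    exact Nat.add_le_add h1 h2
  exact_mod_cast h3

end OCM
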