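import Pool.Agent.Lib.MP_17a322_ntOC.S6
import Pool.Agent.Lib.MP_17a322_ntOC.S7
import Pool.Agent.Lib.MP_17a322_ntOC.S8

/-!
# LEAF S9: the parameters (the final theorem `badD_card` of SMain is this statement)

PROOF.  `K` from `sieve2`, `C₁` from `prod_bd`.  `θ = 1 - 1 / A ∈ (0, 1/2]`.  `z = ⌊x ^ (1 / (16 K))⌋₊`, `y = ⌊4 x ^ θ⌋₊`, `U = ⌊2 √t⌋₊`, `V = ⌊2 √(δ t)⌋₊`.  `z ≤ x ^ (1 / 16) ≤ x ^ (1 / A)`; `z ≥ 2` and `log z ≥ log x / (32 K)` for `x ≥ x0`; `2 ≤ 4 ≤ y` and `log y ≤ log 4 + θ log x ≤ 2 θ log x` for `x ≥ x0(A)`.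
`(2 U + 1) (2 V + 1) ≤ (5 √t) (5 √δ √t) ≤ 25 δ t`, `2 U + 2 V + 3 ≤ 11 δ √t ≤ 11 δ √x`.  `badD_le`, `sieve2` with `S = bS δ y` (`bS_adm`) and `prod_bd`:
`# ≤ z + 50 δ t C₁ log y / (log z) ^ 2 + z ^ (3 K) 11 δ √x ≤ z + 50 δ t C₁ (2 θ log x) (32 K) ^ 2 / (log x) ^ 2 + 11 δ x ^ (3 / 16 + 1 / 2)`.  The first and the last term are `≤ 12 δ x ^ (11 / 16) ≤ θ x / (Q log x) ≤ θ t / log x` for `x ≥ x0(A, Q, δ)`.
-/

set_option autoImplicit false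

namespace OCM

open Finset

private theorem S9_prod {K C₁ θ Lx Ly Lz P : ℝ} (hK : 0 < K) (hC : 0 < C₁) (hθ : 0 < θ) (hLx : 0 < Lx)
    (hLz : 1 / (32 * K) * Lx ≤ Lz) (hLy : Ly ≤ 2 * θ * Lx) (hP : P ≤ C₁ * Ly / Lz ^ 2) :
    P ≤ 2 * C₁ * θ * (32 * K) ^ 2 / Lx := by
  have h0 : 0 < 1 / (32 * K) * Lx := by positivity
  have h1 : C₁ * Ly ≤ C₁ * (2 * θ * Lx) := mul_le_mul_of_nonneg_left hLy hC.le
  have h2 : (1 / (32 * K) * Lx) ^ 2 ≤ Lz ^ 2 := pow_le_pow_left₀ h0.le hLz 2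
  have h3 : C₁ * Ly / Lz ^ 2 ≤ C₁ * (2 * θ * Lx) / (1 / (32 * K) * Lx) ^ 2 :=
    (div_le_div_of_nonneg_right h1 (by positivity)).trans
      (div_le_div_of_nonneg_left (by positivity) (by positivity) h2)
  have h4 : C₁ * (2 * θ * Lx) / (1 / (32 * K) * Lx) ^ 2 = 2 * C₁ * θ * (32 * K) ^ 2 / Lx := by
    field_simp
  linarith

private theorem S9_main {δ : ℝ} {C₂ θ Lx t P U V s : ℝ} (hδ : 1 ≤ δ) (hs : 1 ≤ s) (hst : s ^ 2 = t)
    (hV0 : 0 ≤ V) (hU : U ≤ 2 * s) (hV : V ≤ 2 * (δ * s)) (hP0 : 0 ≤ P) (hP : P ≤ C₂ * θ / Lx) :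
    2 * ((2 * U + 1) * (2 * V + 1)) * P ≤ 50 * δ * C₂ * θ * t / Lx := by
  have h1 : 2 * U + 1 ≤ 5 * s := by linarith
  have h2 : 1 ≤ δ * s := by nlinarith
  have h3 : 2 * V + 1 ≤ 5 * (δ * s) := by linarith
  have h4 : (2 * U + 1) * (2 * V + 1) ≤ (5 * s) * (5 * (δ * s)) :=
    mul_le_mul h1 h3 (by positivity) (by linarith)
  have h5 : (5 * s) * (5 * (δ * s)) = 25 * δ * t := by rw [← hst]; ring
  rw [h5] at h4
  calc 2 * ((2 * U + 1) * (2 * V + 1)) * P ≤ 2 * (25 * δ * t) * P :=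
        mul_le_mul_of_nonneg_right (by linarith) hP0
    _ ≤ 2 * (25 * δ * t) * (C₂ * θ / Lx) := mul_le_mul_of_nonneg_left hP (by rw [← hst]; positivity)
    _ = 50 * δ * C₂ * θ * t / Lx := by ring

theorem badD_card' {δ : ℕ} (hδ : 1 ≤ δ) : ∃ C : ℝ, 0 < C ∧ ∀ A : ℝ, 1 < A → A ≤ 2 → ∀ Q : ℝ, 1 ≤ Q →
    ∃ x0 : ℝ, 2 ≤ x0 ∧ ∀ x : ℝ, x0 ≤ x → ∀ t : ℝ, x / Q ≤ t → t ≤ x →
      ((badD δ A x t).card : ℝ) ≤ C * (1 - 1 / A) * t / Real.log x := by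
  classical
  obtain ⟨K, hK, hsv⟩ := sieve2
  obtain ⟨C₁, hC₁, hpr⟩ := prod_bd hδ
  have hK' : (0 : ℝ) < K := by exact_mod_cast (Nat.lt_of_lt_of_le one_pos hK)
  have hK1 : (1 : ℝ) ≤ K := by exact_mod_cast hK
  have hδ' : (1 : ℝ) ≤ δ := by exact_mod_cast hδ
  have hδ0 : (0 : ℝ) < δ := by linarith
  have hlog2 : 0 < Real.log 2 := Real.log_pos (by norm_num)
  have hlog4 : Real.log 4 = 2 * Real.log 2 := by
    rw [show (4 : ℝ) = 2 ^ 2 by norm_num, Real.log_pow]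
    norm_num
  refine ⟨100 * δ * C₁ * (32 * K) ^ 2 + 1, by positivity, fun A hA1 hA2 Q hQ => ?_⟩
  obtain ⟨θ, hθ⟩ : ∃ θ : ℝ, θ = 1 - 1 / A := ⟨_, rfl⟩
  have hA0 : 0 < A := by linarith
  have hθ0 : 0 < θ := by
    rw [hθ, sub_pos, div_lt_one hA0]
    exact hA1
  have hAi : 1 / 2 ≤ 1 / A := one_div_le_one_div_of_le hA0 hA2
  have hev : ∀ᶠ x : ℝ in Filter.atTop, (2 ≤ x ∧ Q ≤ x ∧ 32 * K * Real.log 2 ≤ Real.log x ∧
      Real.log 4 ≤ θ * Real.log x ∧ 12 * δ * Q * Real.log x ≤ θ * x ^ (5 / 16 : ℝ)) := by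
    have h1 := (isLittleO_log_rpow_atTop (show (0 : ℝ) < 5 / 16 by norm_num)).def
      (show 0 < θ / (12 * δ * Q) by positivity)
    have h2 := Real.tendsto_log_atTop.eventually_ge_atTop (32 * K * Real.log 2)
    have h3 := Real.tendsto_log_atTop.eventually_ge_atTop (Real.log 4 / θ)
    filter_upwards [Filter.eventually_ge_atTop 2, Filter.eventually_ge_atTop Q, h1, h2, h3] with x hx2 hxQ h1 h2 h3
    refine ⟨hx2, hxQ, h2, ?_, ?_⟩
    · rw [div_le_iff₀ hθ0] at h3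
      linarith
    · have hx0 : 0 < x := by linarith
      rw [Real.norm_eq_abs, Real.norm_eq_abs, abs_of_nonneg (Real.log_nonneg (by linarith)),
        abs_of_nonneg (Real.rpow_pos_of_pos hx0 _).le] at h1
      have h4 := mul_le_mul_of_nonneg_left h1 (show 0 ≤ 12 * δ * Q by positivity)
      have h5 : 12 * δ * Q * (θ / (12 * δ * Q) * x ^ (5 / 16 : ℝ)) = θ * x ^ (5 / 16 : ℝ) := by
        field_simp
      linarith
  obtain ⟨x0, hx0⟩ := Filter.eventually_atTop.1 hev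
  refine ⟨max 2 x0, le_max_left _ _, fun x hx t ht1 ht2 => ?_⟩
  obtain ⟨hx2, hxQ, hxK, hx4, hxb⟩ := hx0 x ((le_max_right _ _).trans hx)
  have hxp : 0 < x := by linarith
  have hx1 : 1 ≤ x := by linarith
  have hlx : 0 < Real.log x := Real.log_pos (by linarith)
  have hQ0 : 0 < Q := by linarith
  have ht : 1 ≤ t := le_trans ((one_le_div hQ0).2 hxQ) ht1
  have ht0 : 0 < t := by linarith
  obtain ⟨e, he⟩ : ∃ e : ℝ, e = 1 / (16 * K) := ⟨_, rfl⟩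
  have he0 : 0 < e := by
    rw [he]
    positivity
  have heK : e * K = 1 / 16 := by
    rw [he]
    field_simp
  have hex : 2 * Real.log 2 ≤ e * Real.log x := by
    have h1 := mul_le_mul_of_nonneg_left hxK he0.le
    have h2 : e * (32 * K * Real.log 2) = 32 * (e * K) * Real.log 2 := by ring
    rw [h2, heK] at h1
    linarith
  have hxe : (4 : ℝ) ≤ x ^ e := by
    rw [← Real.log_le_log_iff (by norm_num) (Real.rpow_pos_of_pos hxp _), Real.log_rpow hxp, hlog4]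
    exact hex
  obtain ⟨z, hz⟩ : ∃ z : ℕ, z = ⌊x ^ e⌋₊ := ⟨_, rfl⟩
  have hz1 : (z : ℝ) ≤ x ^ e := by
    rw [hz]
    exact Nat.floor_le (Real.rpow_pos_of_pos hxp _).le
  have hz2 : x ^ e < z + 1 := by
    rw [hz]
    exact Nat.lt_floor_add_one _
  have hz3 : 2 ≤ z := by
    have h1 : (2 : ℝ) ≤ z := by linarith
    exact_mod_cast h1
  have hlz : 1 / (32 * K) * Real.log x ≤ Real.log z := by
    have h1 : x ^ e / 2 ≤ z := by linarith
    have h2 := Real.log_le_log (by positivity) h1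
    rw [Real.log_div (Real.rpow_pos_of_pos hxp _).ne' (by norm_num), Real.log_rpow hxp] at h2
    have h3 : 1 / (32 * (K : ℝ)) = e / 2 := by
      rw [he]
      field_simp
      norm_num
    rw [h3]
    linarith
  obtain ⟨y, hy⟩ : ∃ y : ℕ, y = ⌊4 * x ^ θ⌋₊ := ⟨_, rfl⟩
  have hxθ : 1 ≤ x ^ θ := Real.one_le_rpow hx1 hθ0.le
  have hy1 : (y : ℝ) ≤ 4 * x ^ θ := by
    rw [hy]
    exact Nat.floor_le (by positivity)
  have hy2 : 4 * x ^ θ < y + 1 := by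
    rw [hy]
    exact Nat.lt_floor_add_one _
  have hy3 : (2 : ℝ) ≤ y := by linarith
  have hy4 : 2 ≤ y := by exact_mod_cast hy3
  have hly : Real.log y ≤ 2 * θ * Real.log x := by
    have h2 := Real.log_le_log (by linarith) hy1
    rw [Real.log_mul (by norm_num) (by positivity), Real.log_rpow hxp] at h2
    linarith
  obtain ⟨U, hU⟩ : ∃ U : ℕ, U = ⌊2 * √t⌋₊ := ⟨_, rfl⟩
  obtain ⟨V, hV⟩ : ∃ V : ℕ, V = ⌊2 * √(δ * t)⌋₊ := ⟨_, rfl⟩
  have hU1 : (U : ℝ) ≤ 2 * √t := by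
    rw [hU]
    exact Nat.floor_le (by positivity)
  have hU2 : 2 * √t < U + 1 := by
    rw [hU]
    exact Nat.lt_floor_add_one _
  have hV1 : (V : ℝ) ≤ 2 * √(δ * t) := by
    rw [hV]
    exact Nat.floor_le (by positivity)
  have hV2 : 2 * √(δ * t) < V + 1 := by
    rw [hV]
    exact Nat.lt_floor_add_one _
  have hs : √t ^ 2 = t := Real.sq_sqrt ht0.le
  have hs1 : 1 ≤ √t := Real.one_le_sqrt.2 ht
  have hsδ : √(δ * t) ^ 2 = δ * t := Real.sq_sqrt (by positivity)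
  have hU3 : 4 * t < ((U : ℝ) + 1) ^ 2 := by
    have h1 : (2 * √t) ^ 2 < ((U : ℝ) + 1) ^ 2 := pow_lt_pow_left₀ hU2 (by positivity) (by norm_num)
    rw [mul_pow, hs] at h1
    linarith
  have hV3 : 4 * (δ * t) < ((V : ℝ) + 1) ^ 2 := by
    have h1 : (2 * √(δ * t)) ^ 2 < ((V : ℝ) + 1) ^ 2 := pow_lt_pow_left₀ hV2 (by positivity) (by norm_num)
    rw [mul_pow, hsδ] at h1
    linarith
  have hsδ2 : √(δ * t) ≤ δ * √t := by
    rw [Real.sqrt_le_left (by positivity), mul_pow, hs]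
    exact mul_le_mul_of_nonneg_right (by nlinarith) ht0.le
  have hV4 : (V : ℝ) ≤ 2 * (δ * √t) := by linarith
  have hzA : (z : ℝ) ≤ x ^ (1 / A) := by
    refine hz1.trans (Real.rpow_le_rpow_of_exponent_le hx1 ?_)
    have h1 : e * 1 ≤ e * K := mul_le_mul_of_nonneg_left hK1 he0.le
    linarith
  have h1 := badD_le (δ := δ) hδ hA1 hx1 ht ht2 (y := y) (z := z) (U := U) (V := V) hzA (by rw [← hθ]; exact hy2)
    hU3 hV3
  have hadm : ∀ l ∈ Pool.Agent.Lib.MP_42948a_nt.OA.PP z, 0 ≤ dn l (bS δ y l) ∧ dn l (bS δ y l) ≤ 3 / 4 ∧ dn l (bS δ y l) ≤ 4 / l :=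
    fun l hl => bS_adm δ y (Finset.mem_filter.1 hl).2
  have h2 := hsv z hz3 (bS δ y) (fun l hl => (hadm l hl).2) U V
  have h3 := S9_prod hK' hC₁ hθ0 hlx hlz hly (hpr y z hy4 hz3)
  have hP0 : 0 ≤ ∏ l ∈ Pool.Agent.Lib.MP_42948a_nt.OA.PP z, (1 - dn l (bS δ y l)) :=
    Finset.prod_nonneg fun l hl => by linarith [(hadm l hl).2.1]
  have h4 := S9_main (C₂ := 2 * C₁ * (32 * K) ^ 2) (θ := θ) (Lx := Real.log x) hδ' hs1 hs V.cast_nonneg hU1 hV4 hP0 (by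
    refine h3.trans (le_of_eq ?_)
    ring)
  have hzK : (z : ℝ) ^ (3 * K) ≤ x ^ (3 / 16 : ℝ) := by
    have h5 : (z : ℝ) ^ (3 * K) ≤ (x ^ e) ^ (3 * K) := pow_le_pow_left₀ z.cast_nonneg hz1 _
    have h6 : (x ^ e) ^ (3 * K) = x ^ (3 / 16 : ℝ) := by
      rw [← Real.rpow_natCast, ← Real.rpow_mul hxp.le]
      congr 1
      push_cast
      have h7 : e * (3 * (K : ℝ)) = 3 * (e * K) := by ring
      rw [h7, heK]
      norm_num
    rw [← h6]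
    exact h5
  have hUV : 2 * (U : ℝ) + 2 * V + 3 ≤ 11 * δ * √x := by
    have h5 : √t ≤ √x := Real.sqrt_le_sqrt ht2
    have h6 : 1 * √t ≤ δ * √t := mul_le_mul_of_nonneg_right hδ' (by linarith)
    have h7 : δ * √t ≤ δ * √x := mul_le_mul_of_nonneg_left h5 hδ0.le
    linarith
  have herr : (z : ℝ) ^ (3 * K) * (2 * U + 2 * V + 3) ≤ 11 * δ * x ^ (11 / 16 : ℝ) := by
    calc (z : ℝ) ^ (3 * K) * (2 * U + 2 * V + 3) ≤ x ^ (3 / 16 : ℝ) * (11 * δ * √x) :=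
          mul_le_mul hzK hUV (by positivity) (by positivity)
      _ = 11 * δ * x ^ (11 / 16 : ℝ) := by
          have h5 : x ^ (11 / 16 : ℝ) = x ^ (3 / 16 : ℝ) * √x := by
            rw [Real.sqrt_eq_rpow, ← Real.rpow_add hxp]
            norm_num
          rw [h5]
          ring
  have hzx : (z : ℝ) ≤ δ * x ^ (11 / 16 : ℝ) := by
    have h5 : x ^ e ≤ x ^ (11 / 16 : ℝ) := by
      refine Real.rpow_le_rpow_of_exponent_le hx1 ?_
      have h6 : e * 1 ≤ e * K := mul_le_mul_of_nonneg_left hK1 he0.le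
      linarith
    have h6 : 1 * x ^ (11 / 16 : ℝ) ≤ δ * x ^ (11 / 16 : ℝ) :=
      mul_le_mul_of_nonneg_right hδ' (Real.rpow_pos_of_pos hxp _).le
    linarith
  have hfin : 12 * δ * x ^ (11 / 16 : ℝ) ≤ θ * t / Real.log x := by
    rw [le_div_iff₀ hlx]
    have h5 : x = x ^ (11 / 16 : ℝ) * x ^ (5 / 16 : ℝ) := by
      rw [← Real.rpow_add hxp]
      norm_num
    have h6 : 12 * δ * x ^ (11 / 16 : ℝ) * Real.log x * Q ≤ θ * x := by
      have h7 := mul_le_mul_of_nonneg_left hxb (Real.rpow_pos_of_pos hxp (11 / 16 : ℝ)).le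
      have h8 : x ^ (11 / 16 : ℝ) * (θ * x ^ (5 / 16 : ℝ)) = θ * x := by
        conv_rhs => rw [h5]
        ring
      rw [h8] at h7
      linarith
    have h9 : x ≤ t * Q := (div_le_iff₀ hQ0).1 ht1
    have h10 : 12 * δ * x ^ (11 / 16 : ℝ) * Real.log x * Q ≤ θ * t * Q := by
      have h11 := mul_le_mul_of_nonneg_left h9 hθ0.le
      linarith
    exact le_of_mul_le_mul_right h10 hQ0
  rw [← hθ]
  have h12 : (100 * δ * C₁ * (32 * K) ^ 2 + 1) * θ * t / Real.log x =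
      50 * δ * (2 * C₁ * (32 * K) ^ 2) * θ * t / Real.log x + θ * t / Real.log x := by ring
  rw [h12]
  linarith

end OCM
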