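import Mathlib

/-!
# Few primes of norm form with a large prime factor of the order: definitions
-/

namespace OCM

open Finset

open Classical in
/-- the primes `p ≤ t` with `(4 p - a²) δ = k²` for integers `a`, `k` such that `p + 1 - a` has a prime factor
`q > x ^ (1 / A)` -/
noncomputable def badD (δ : ℕ) (A x t : ℝ) : Finset ℕ :=
  (Icc 1 ⌊t⌋₊).filter fun p => p.Prime ∧ ∃ a k : ℤ, (4 * (p : ℤ) - a ^ 2) * δ = k ^ 2 ∧
    ∃ q : ℕ, q.Prime ∧ (q : ℤ) ∣ (p : ℤ) + 1 - a ∧ x < (q : ℝ) ^ A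

end OCM
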