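import Pool.Agent.Lib.MP_17a322_ntVK.SDefs

/-!
# LEAF TA: classes modulo `M` in a group with one more generator

PROOF.  `M ≥ 1`; `r : Fin (M ^ t) → Fin n → Kˣ` the representatives for `Γ`.  `Fin (M ^ (t + n))` is in bijection with `Fin (M ^ t) × (Fin n → Fin M)` (cardinals: `Fintype.equivOfCardEq` / `finFunctionFinEquiv`, `finProdFinEquiv`); the new representatives are `r i l * ϖ ^ (a l : ℕ)`.  If all `x l ∈ Γ ⊔ zpowers ϖ`, then `x l = g l * ϖ ^ (k l)`, `g l ∈ Γ`, `k l : ℤ` (`Subgroup.mem_sup`, `Subgroup.mem_zpowers_iff`), and `g l = r i l * y l ^ M`, `k l = a l + M * b l` (`Int.emod`, `Int.ediv`): `x l = (r i l * ϖ ^ (a l)) * (y l * ϖ ^ (b l)) ^ M`.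
-/

namespace OCM

open Finset NumberField LVH VK

theorem tcls_sup {K : Type} [Field K] {Γ : Subgroup Kˣ} {n t : ℕ} (h : TCls Γ n t) (ϖ : Kˣ) :
    TCls (Γ ⊔ Subgroup.zpowers ϖ) n (t + n) := by
  intro M hM
  obtain ⟨r, hr1, hr2⟩ := h M hM
  have hc : Fintype.card (Fin (M ^ (t + n))) = Fintype.card (Fin (M ^ t) × (Fin n → Fin M)) := by
    rw [Fintype.card_prod, Fintype.card_fun, Fintype.card_fin, Fintype.card_fin, Fintype.card_fin, Fintype.card_fin,
      pow_add]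
  have e : Fin (M ^ (t + n)) ≃ Fin (M ^ t) × (Fin n → Fin M) := Fintype.equivOfCardEq hc
  have hϖ : ϖ ∈ Γ ⊔ Subgroup.zpowers ϖ := Subgroup.mem_sup_right (Subgroup.mem_zpowers ϖ)
  refine ⟨fun i l => r (e i).1 l * ϖ ^ (((e i).2 l : Fin M) : ℕ), ?_, ?_⟩
  · intro i l
    exact mul_mem (Subgroup.mem_sup_left (hr1 _ _)) (pow_mem hϖ _)
  · intro x hx
    have h1 : ∀ l, ∃ g ∈ Γ, ∃ k : ℤ, x l = g * ϖ ^ k := by
      intro l
      obtain ⟨g, hg, z, hz, hgz⟩ := Subgroup.mem_sup.1 (hx l)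
      obtain ⟨k, hk⟩ := Subgroup.mem_zpowers_iff.1 hz
      exact ⟨g, hg, k, by rw [hk, hgz]⟩
    choose g hg k hk using h1
    obtain ⟨i, y, hy, hxy⟩ := hr2 g hg
    have hM0 : (0 : ℤ) < M := by exact_mod_cast hM
    have ha : ∀ l, (k l % M).toNat < M := by
      intro l
      have h2 := Int.emod_nonneg (k l) hM0.ne'
      have h3 := Int.emod_lt_of_pos (k l) hM0
      omega
    refine ⟨e.symm (i, fun l => ⟨(k l % M).toNat, ha l⟩), fun l => y l * ϖ ^ (k l / M), ?_, ?_⟩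
    · intro l
      exact mul_mem (Subgroup.mem_sup_left (hy l)) (zpow_mem hϖ _)
    · intro l
      simp only [Equiv.apply_symm_apply]
      have h2 : (((k l % M).toNat : ℕ) : ℤ) = k l % M := Int.toNat_of_nonneg (Int.emod_nonneg (k l) hM0.ne')
      have h3 : k l = ((k l % M).toNat : ℕ) + k l / M * M := by
        rw [h2]
        have := Int.emod_add_mul_ediv (k l) M
        linarith
      have h4 : ϖ ^ k l = ϖ ^ (k l % M).toNat * (ϖ ^ (k l / M)) ^ M := by
        rw [← zpow_natCast (ϖ ^ (k l / M)) M, ← zpow_mul, ← zpow_natCast ϖ (k l % M).toNat, ← zpow_add, ← h3]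
      rw [hk l, hxy l, h4, mul_pow]
      exact mul_mul_mul_comm _ _ _ _

end OCM
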