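import Pool.Agent.Lib.MP_17a322_ntVU.GDefs

/-!
# The local condition with one more coordinate of the torus
-/

namespace OCM

open Finset NumberField LVH VK VU

/-- the local condition `RG`; the last coordinate of the torus has no meaning (it is a unit exactly outside of `S`) -/
def RU {K : Type} [Field K] [NumberField K] {n h g M w s e : ℕ} {κ ι : Type} [Fintype κ] [Fintype ι]
    (A' B' : Fin h → 𝓞 K) {δ : Fin w → ℕ} {d' : Fin w → Fin h → ℕ} (W : Finset (Fin w)) (V R : Finset (Fin s))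
    (ex : Fin s → ℕ) (E' : Fin w → κ → Fin n → ℤ) (b : IxM κ M δ d' → 𝓞 K) (ν : Fin s → ℕ)
    (d : Fin s → Fin (h + g) → ℕ) (E : Fin s → ι → Fin n → ℤ) (ω : Fin e → 𝓞 K) :
    Loc K (n + (w + s) + 1) (h + g) (IxM ι M ν d × Fin e) :=
  fun p π u z => RG A' B' W V R ex E' b ν d E ω p π (fun l => u (Fin.castSucc l)) z

theorem dens_RU {K : Type} [Field K] [NumberField K] (L : Type) [Field L] [NumberField L] {p0 : ℕ} {κ0 : ℝ}
    {n h g M w s e : ℕ} {κ ι : Type} [Fintype κ] [Fintype ι]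
    {A' B' : Fin h → 𝓞 K} {δ : Fin w → ℕ} {d' : Fin w → Fin h → ℕ} {W : Finset (Fin w)} {V R : Finset (Fin s)}
    {ex : Fin s → ℕ} {E' : Fin w → κ → Fin n → ℤ} {b : IxM κ M δ d' → 𝓞 K} {ν : Fin s → ℕ}
    {d : Fin s → Fin (h + g) → ℕ} {E : Fin s → ι → Fin n → ℤ} {ω : Fin e → 𝓞 K}
    (hR : DensK L p0 (RG A' B' W V R ex E' b ν d E ω) κ0) : DensK L p0 (RU A' B' W V R ex E' b ν d E ω) κ0 :=
  fun p hp hpp hD π u z hu => hR p hp hpp hD π (fun l => u (Fin.castSucc l)) z fun l => hu _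

end OCM
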