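import Pool.Agent.Lib.MP_17a322_ntVU.G2

/-!
# LEAF TK: the number of the pairs of a point and of the values of the sections, log irregularity greater than the dimension

PROOF.  Copy the proof of `pairs` (`Pool/Agent/Lib/MP_17a322_ntVU/G2.lean`, also the private lemma `G2_ch`, with the prefix `TK_`).  The only change is `s` in place of `s + 1` in `hr`: at the end `h2 : (∑ τ, ..) * p ^ (R \ V).card ≤ C * p ^ s`, `h3 : (p - 1) * S ≤ C * p ^ s`, and `p * S ≤ 2 * ((p - 1) * S) ≤ 2 * C * p ^ s`.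
-/

namespace OCM

open Finset LVH VU

/-- the same change of the last coordinate for all characters -/
private theorem TK_ch {G : Type} [CommGroup G] {q : ℕ} (l : Fin q ⊕ Unit → G) (a : G) (d : Fin q → ℕ) (ν : ℕ) :
    ∏ m, (fun m => Sum.elim (fun i => l (.inl i)) (fun u => l (.inr u) * a⁻¹) m : Fin q ⊕ Unit → G) m ^ cl d ν m =
      (∏ m, l m ^ cl d ν m) * (a ^ ν)⁻¹ := by
  rw [Fintype.prod_sum_type, Fintype.prod_sum_type]
  simp only [Sum.elim_inl, Sum.elim_inr, Finset.univ_unique, Finset.prod_singleton]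
  rw [mul_zpow, mul_assoc]
  congr 2
  show (a⁻¹) ^ ((ν : ℕ) : ℤ) = _
  rw [zpow_natCast, inv_pow]

open Classical in
theorem pairsS {p : ℕ} [Fact p.Prime] {σ : Type} [Finite σ] {w s q r C : ℕ} (W : Finset (Fin w))
    (V R : Finset (Fin s)) (ex : Fin s → ℕ) (δ : Fin w → ℕ) (dW : Fin w → Fin q → ℕ) (ν : Fin s → ℕ) (d : Fin s → Fin q → ℕ)
    (f : Fin w → (σ → ZMod p) → ZMod p) (hf : ∀ k (l : ZMod p) y, f k (l • y) = l ^ δ k * f k y)
    (hC : ∀ v1 : Fin w → ZMod p, (∀ k, v1 k = 0 ∨ 1 ≤ δ k) →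
      Nat.card {u : σ → ZMod p // ∀ k, f k u = v1 k} ≤ C * p ^ r) (hδ : ∀ k ∈ W, 1 ≤ δ k)
    (v : Fin w → ZMod p) (v' : Fin s → ZMod p) (T : Finset (σ → ZMod p)) (hT : NP T)
    (hr : r + Set.finrank ℤ (cc W V δ dW ν d) + (R \ V).card ≤ s) :
    p * ∑ y ∈ T, Nat.card (Tt W V R ex δ dW ν d f v v' y) ≤ 2 * C * p ^ s := by
  have hp : p.Prime := Fact.out
  let I : Type := {k // k ∈ W} ⊕ {j // j ∈ V}
  let c : I → (Fin q ⊕ Unit → ℤ) := Sum.elim (fun k => cl (dW k.1) (δ k.1)) (fun j => cl (d j.1) (ν j.1))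
  have hrange : Set.range c = cc W V δ dW ν d := by
    ext a
    constructor
    · rintro ⟨i, rfl⟩
      rcases i with k | j
      · exact Or.inl ⟨k.1, k.2, rfl⟩
      · exact Or.inr ⟨j.1, j.2, rfl⟩
    · rintro (⟨k, hk, rfl⟩ | ⟨j, hj, rfl⟩)
      · exact ⟨.inl ⟨k, hk⟩, rfl⟩
      · exact ⟨.inr ⟨j, hj⟩, rfl⟩
  let TT : Type := {τ : I → (ZMod p)ˣ // ∃ l : Fin q ⊕ Unit → (ZMod p)ˣ, τ = ch c l}
  have hTT : Nat.card TT ≤ (p - 1) ^ Set.finrank ℤ (cc W V δ dW ν d) := by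
    have h := ch_card (G := (ZMod p)ˣ) c
    rw [hrange, Nat.card_eq_fintype_card (α := (ZMod p)ˣ), ZMod.card_units p] at h
    exact h
  let U : TT → Type := fun τ => {u : σ → ZMod p // ∀ k, f k u =
    if h : k ∈ W then v k * (((τ.1 (.inl ⟨k, h⟩))⁻¹ : (ZMod p)ˣ) : ZMod p) else 0}
  have hU : ∀ τ, Nat.card (U τ) ≤ C * p ^ r := by
    intro τ
    refine hC _ fun k => ?_
    by_cases h : k ∈ W
    · exact Or.inr (hδ k h)
    · left
      rw [dif_neg h]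
  have hfin : Finite TT := inferInstance
  have hft : Fintype TT := Fintype.ofFinite TT
  -- the left-hand side
  let Q : Type := Σ y : T, Tt W V R ex δ dW ν d f v v' y.1
  have hQ : Nat.card Q = ∑ y ∈ T, Nat.card (Tt W V R ex δ dW ν d f v v' y) := by
    rw [Nat.card_sigma]
    exact Finset.sum_coe_sort T fun y => Nat.card (Tt W V R ex δ dW ν d f v v' y)
  have hex : ∀ a : Q, ∃ l : Fin q ⊕ Unit → (ZMod p)ˣ,
      (∀ k, ((∏ m, l m ^ cl (dW k) (δ k) m : (ZMod p)ˣ) : ZMod p) * f k a.1.1 = if k ∈ W then v k else 0) ∧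
      (∀ j ∈ V, a.2.1 j = v' j * (((∏ m, l m ^ cl (d j) (ν j) m : (ZMod p)ˣ)⁻¹ : (ZMod p)ˣ) : ZMod p)) ∧
      (∀ j ∉ V, j ∈ R → ∃ w : ZMod p, v' j * w ^ ex j = a.2.1 j) ∧ ∀ j ∉ V, j ∉ R → a.2.1 j = 0 := fun a => a.2.2
  choose lf hl1 hl2 hl3 hl4 using hex
  let L : (ZMod p)ˣ → Q → (Fin q ⊕ Unit → (ZMod p)ˣ) := fun a x m =>
    Sum.elim (fun i => lf x (.inl i)) (fun u => lf x (.inr u) * a⁻¹) m
  have hL : ∀ (a : (ZMod p)ˣ) (x : Q) (d0 : Fin q → ℕ) (ν0 : ℕ), ∏ m, L a x m ^ cl d0 ν0 m =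
      (∏ m, lf x m ^ cl d0 ν0 m) * (a ^ ν0)⁻¹ := fun a x d0 ν0 => TK_ch (lf x) a d0 ν0
  let Φ : (ZMod p)ˣ × Q → (Σ τ : TT, U τ) × ({j // j ∈ R \ V} → ZMod p) :=
    fun a => ⟨⟨⟨ch c (L a.1 a.2), ⟨_, rfl⟩⟩, ⟨(a.1 : ZMod p) • a.2.1.1, by
    intro k
    rw [hf]
    have h1 := hl1 a.2 k
    by_cases h : k ∈ W
    · rw [if_pos h] at h1
      rw [dif_pos h]
      show _ = v k * (((∏ m, L a.1 a.2 m ^ cl (dW k) (δ k) m)⁻¹ : (ZMod p)ˣ) : ZMod p)
      rw [hL, mul_inv, inv_inv, ← h1, Units.val_mul, Units.val_pow_eq_pow_val]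
      have h2 : ((∏ m, lf a.2 m ^ cl (dW k) (δ k) m : (ZMod p)ˣ) : ZMod p) *
          (((∏ m, lf a.2 m ^ cl (dW k) (δ k) m : (ZMod p)ˣ)⁻¹ : (ZMod p)ˣ) : ZMod p) = 1 := Units.mul_inv _
      linear_combination (-(f k a.2.1.1) * (a.1 : ZMod p) ^ δ k) * h2
    · rw [if_neg h] at h1
      rw [dif_neg h]
      rcases mul_eq_zero.1 h1 with h2 | h2
      · exact absurd h2 (Units.ne_zero _)
      · rw [h2, mul_zero]⟩⟩, fun j => a.2.2.1 j.1⟩
  have hΦ : Function.Injective Φ := by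
    rintro ⟨a, ⟨⟨y, hy⟩, ⟨t, ht⟩⟩⟩ ⟨a', ⟨⟨y', hy'⟩, ⟨t', ht'⟩⟩⟩ h
    obtain ⟨h, h0⟩ := Prod.mk.inj h
    obtain ⟨h1, h2⟩ := Sigma.mk.inj h
    have h1' := congrArg Subtype.val h1
    have h3 : (a : ZMod p) • y = (a' : ZMod p) • y' := by
      have h4 : ∀ (τ τ' : TT), τ = τ' → ∀ (u : U τ) (u' : U τ'), HEq u u' → u.1 = u'.1 := by
        rintro τ τ' rfl u u' h5
        rw [eq_of_heq h5]
      exact h4 _ _ h1 _ _ h2
    have h4 : y = y' := by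
      by_contra hne
      refine (hT y hy).2 y' hy' hne (((a' : ZMod p))⁻¹ * (a : ZMod p)) ?_
      rw [mul_smul, h3, smul_smul, inv_mul_cancel₀ (Units.ne_zero a'), one_smul]
    subst h4
    have h5 : a = a' := by
      obtain ⟨i, hi⟩ := Function.ne_iff.1 (hT y hy).1
      have h6 := congrFun h3 i
      rw [Pi.smul_apply, Pi.smul_apply, smul_eq_mul, smul_eq_mul] at h6
      exact Units.ext (mul_right_cancel₀ hi h6)
    subst h5
    have h6 : t = t' := by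
      funext j
      by_cases hj : j ∈ V
      · have e1 := hl2 ⟨⟨y, hy⟩, ⟨t, ht⟩⟩ j hj
        have e2 := hl2 ⟨⟨y, hy'⟩, ⟨t', ht'⟩⟩ j hj
        change t j = _ at e1
        change t' j = _ at e2
        rw [e1, e2]
        have h7 := congrFun h1' (.inr ⟨j, hj⟩)
        change ∏ m, L a ⟨⟨y, hy⟩, ⟨t, ht⟩⟩ m ^ cl (d j) (ν j) m = ∏ m, L a ⟨⟨y, hy'⟩, ⟨t', ht'⟩⟩ m ^ cl (d j) (ν j) m at h7
        rw [hL, hL] at h7
        rw [mul_right_cancel h7]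
      · by_cases hjR : j ∈ R
        · exact congrFun h0 ⟨j, mem_sdiff.2 ⟨hjR, hj⟩⟩
        · have e1 := hl4 ⟨⟨y, hy⟩, ⟨t, ht⟩⟩ j hj hjR
          have e2 := hl4 ⟨⟨y, hy'⟩, ⟨t', ht'⟩⟩ j hj hjR
          change t j = 0 at e1
          change t' j = 0 at e2
          rw [e1, e2]
    subst h6
    rfl
  have h1 := Nat.card_le_card_of_injective Φ hΦ
  rw [Nat.card_prod, Nat.card_eq_fintype_card (α := (ZMod p)ˣ), ZMod.card_units p, hQ, Nat.card_prod, Nat.card_sigma,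
    Nat.card_fun, Nat.card_zmod, Nat.card_eq_fintype_card (α := {j // j ∈ R \ V}), Fintype.card_coe] at h1
  have h2 : (∑ τ : TT, Nat.card (U τ)) * p ^ (R \ V).card ≤ C * p ^ s := by
    have h3 : ∑ τ : TT, Nat.card (U τ) ≤ C * p ^ (r + Set.finrank ℤ (cc W V δ dW ν d)) := by
      refine (Finset.sum_le_sum fun τ _ => hU τ).trans ?_
      rw [Finset.sum_const, Finset.card_univ, smul_eq_mul, ← Nat.card_eq_fintype_card]
      calc Nat.card TT * (C * p ^ r) ≤ p ^ Set.finrank ℤ (cc W V δ dW ν d) * (C * p ^ r) :=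
            Nat.mul_le_mul_right _ (hTT.trans (Nat.pow_le_pow_left (Nat.sub_le _ _) _))
        _ = C * p ^ (r + Set.finrank ℤ (cc W V δ dW ν d)) := by rw [pow_add p r]; ring
    calc (∑ τ : TT, Nat.card (U τ)) * p ^ (R \ V).card ≤
          C * p ^ (r + Set.finrank ℤ (cc W V δ dW ν d)) * p ^ (R \ V).card := Nat.mul_le_mul_right _ h3
      _ = C * p ^ (r + Set.finrank ℤ (cc W V δ dW ν d) + (R \ V).card) := by rw [pow_add p _ (R \ V).card, mul_assoc]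
      _ ≤ C * p ^ s := Nat.mul_le_mul_left _ (Nat.pow_le_pow_right hp.pos hr)
  obtain ⟨S, hS⟩ : ∃ S, S = ∑ y ∈ T, Nat.card (Tt W V R ex δ dW ν d f v v' y) := ⟨_, rfl⟩
  rw [← hS] at h1 ⊢
  have h3 : (p - 1) * S ≤ C * p ^ s := h1.trans h2
  have h4 : p ≤ 2 * (p - 1) := by
    have := hp.two_le
    omega
  calc p * S ≤ 2 * (p - 1) * S := Nat.mul_le_mul_right _ h4
    _ = 2 * ((p - 1) * S) := by ring
    _ ≤ 2 * (C * p ^ s) := Nat.mul_le_mul_left _ h3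
    _ = 2 * C * p ^ s := by ring

end OCM
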