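import Pool.Agent.Lib.MP_17a322_ntFB.PLK

/-!
# The sieve for local conditions outside of a set of bad primes
-/

namespace OCM

open Finset NumberField VK IsDedekindDomain FB

/-- the density of each local condition outside of the bad primes is at most `1 - κ` -/
def DensB {K : Type} [Field K] [NumberField K] (N0 : ℕ) (Bd : Finset ℕ) {ι : Type} [Fintype ι] {g : ℕ} (R : LocV K g ι)
    (κ : ℝ) : Prop :=
  ∀ (v : HeightOneSpectrum (𝓞 K)) (p : ℕ), p.Prime → CharP (RF v) p → N0 ≤ p → p ∉ Bd →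
    ∀ z : Fin g → Option (RF v × RF v), (Nat.card (R v p z) : ℝ) ≤ (1 - κ) * (p : ℝ) ^ Fintype.card ι

/-- the integral vector `c` satisfies the local conditions at all places of residue characteristic at least `N0` which is
not a bad prime -/
def AdmB {K : Type} [Field K] [NumberField K] (N0 : ℕ) (Bd : Finset ℕ) {ι : Type} {g : ℕ} (R : LocV K g ι) {A B : K}
    (c : ι → ℤ) (P : Fin g → Pt A B) : Prop :=
  ∀ (v : HeightOneSpectrum (𝓞 K)) (p : ℕ), p.Prime → CharP (RF v) p → N0 ≤ p → p ∉ Bd →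
    (fun i => ((c i : ℤ) : ZMod p)) ∈ R v p (fun l => rdF (pV v) (P l))

/-- the conclusion for one curve, one subgroup and conditions of density at most `1 - κ` outside of the bad primes -/
def ConclB {K : Type} [Field K] [NumberField K] [DecidableEq K] {A B : 𝓞 K} (κ : ℝ)
    (Γ : AddSubgroup (Pt (A : K) (B : K))) : Prop :=
  ∃ c : ℝ, 0 < c ∧ ∀ g N0 N : ℕ, ∃ C : ℝ, ∀ H : ℕ, 1 ≤ H → ∀ Bd : Finset ℕ,
    (Bd.card : ℝ) ≤ c * (Real.log (Real.log H)) ^ 2 → ∀ (ι : Type) [Fintype ι] [DecidableEq ι],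
    Fintype.card ι = N → ∀ R : LocV K g ι, DensB N0 Bd R κ →
    (Nat.card {c : ι → ℤ // (∀ i, |c i| ≤ (H : ℤ)) ∧ ∃ P : Fin g → Pt (A : K) (B : K), (∀ l, P l ∈ Γ) ∧
      AdmB N0 Bd R c P} : ℝ) ≤ C * (H : ℝ) ^ N * Real.exp (-(c * (Real.log (Real.log H)) ^ 2))

private theorem TU2_sieve {K : Type} [Field K] [NumberField K] [DecidableEq K] {N0 : ℕ} {Bd : Finset ℕ} {ι : Type} [Fintype ι] [DecidableEq ι]
    {g : ℕ} {A B : 𝓞 K} {κ : ℝ} (h0 : 0 ≤ κ) (h1 : κ ≤ 1) {R : LocV K g ι} (hR : DensB N0 Bd R κ)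
    {Γ : AddSubgroup (Pt (A : K) (B : K))} {N : ℕ} (r : Fin N → Pt (A : K) (B : K)) (S : Finset ℕ)
    (v : ℕ → HeightOneSpectrum (𝓞 K)) (hS : ∀ p ∈ S, p.Prime ∧ N0 ≤ p ∧ CharP (RF (v p)) p ∧ p ∉ Bd)
    (hr : ∀ P ∈ Γ, ∃ i, ∃ Q, P = r i + Q ∧ ∀ p ∈ S, inK (VR (v p)) Q) {H : ℕ} (hq : ∏ p ∈ S, p ≤ H) :
    (Nat.card {c : ι → ℤ // (∀ i, |c i| ≤ (H : ℤ)) ∧ ∃ P : Fin g → Pt (A : K) (B : K), (∀ l, P l ∈ Γ) ∧
      AdmB N0 Bd R c P} : ℝ) ≤ (N : ℝ) ^ g * ((4 * (H : ℝ)) ^ Fintype.card ι * (1 - κ) ^ S.card) := by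
  classical
  let e : (Fin g → Fin N) ≃ Fin (N ^ g) := finFunctionFinEquiv
  let W : Fin (N ^ g) → (p : ℕ) → Set (ι → ZMod p) := fun i p =>
    {b | b ∈ R (v p) p (fun l => rdF (pV (v p)) (r (e.symm i l)))}
  have hU := MWS.VM_union (ι := ι) (H := H) (N := N ^ g)
    (fun c => ∃ P : Fin g → Pt (A : K) (B : K), (∀ l, P l ∈ Γ) ∧ AdmB N0 Bd R c P)
    (fun i c => ∀ p ∈ S, (fun j => ((c j : ℤ) : ZMod p)) ∈ W i p)
    (by
      rintro c - ⟨P, hP1, hP⟩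
      choose j Q hj hQ using fun l => hr (P l) (hP1 l)
      refine ⟨e j, fun p hp => ?_⟩
      obtain ⟨g1, g2, g3, g4⟩ := hS p hp
      have k1 := hP (v p) p g1 g3 g2 g4
      have k3 : (fun l => rdF (pV (v p)) (P l)) = fun l => rdF (pV (v p)) (r (j l)) := by
        funext l
        rw [hj l]
        exact (rdF_add (pV (v p)) (int_mem (pV (v p)) A) (int_mem (pV (v p)) B) (hQ l p hp)).1
      rw [k3] at k1
      change (fun j => ((c j : ℤ) : ZMod p)) ∈ R (v p) p (fun l => rdF (pV (v p)) (r (e.symm (e j) l)))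
      rw [Equiv.symm_apply_apply]
      exact k1)
    1 ((4 * (H : ℝ)) ^ Fintype.card ι * (1 - κ) ^ S.card) zero_le_one
    (fun i => by
      rw [mul_one, MWS.VM_card]
      have hb := MWS.box_crt (ι := ι) S (fun p hp => (hS p hp).1) (fun _ => H) (fun _ => hq)
        (fun p b => if b ∈ W i p then (1 : ℝ) else 0)
        (fun p b => by split_ifs <;> norm_num) (fun _ => 1 - κ)
        (fun p hp hne => by
          obtain ⟨g1, g2, g3, g4⟩ := hS p hp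
          have h3 := hR (v p) p g1 g3 g2 g4 (fun l => rdF (pV (v p)) (r (e.symm i l)))
          rw [sum_boole]
          refine le_trans (le_of_eq ?_) h3
          rw [Nat.card_eq_fintype_card, Fintype.card_subtype]
          rfl)
      rw [prod_const, prod_const, card_univ] at hb
      refine le_trans (le_of_eq ?_) hb
      rw [card_filter]
      push_cast
      refine sum_congr rfl fun c _ => ?_
      rw [prod_boole])
  rw [mul_one, Nat.cast_pow] at hU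
  exact hU


/-- the number of the vectors of the box with some property -/
private theorem TU2_card {ι : Type} [Fintype ι] [DecidableEq ι] {N : ℕ} (hι : Fintype.card ι = N) (H : ℕ) (hH : 1 ≤ H)
    (Q : (ι → ℤ) → Prop) : (Nat.card {c : ι → ℤ // (∀ i, |c i| ≤ (H : ℤ)) ∧ Q c} : ℝ) ≤ 4 ^ N * (H : ℝ) ^ N := by
  have h1 : Nat.card {c : ι → ℤ // (∀ i, |c i| ≤ (H : ℤ)) ∧ Q c} ≤ Nat.card (ι → Finset.Icc (-(H : ℤ)) (H : ℤ)) := by
    refine Nat.card_le_card_of_injective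
      (fun c i => ⟨c.1 i, Finset.mem_Icc.2 (abs_le.1 (c.2.1 i))⟩) ?_
    intro c d hcd
    apply Subtype.ext
    funext i
    exact congrArg Subtype.val (congrFun hcd i)
  have h2 : Nat.card (ι → Finset.Icc (-(H : ℤ)) (H : ℤ)) = (2 * H + 1) ^ N := by
    rw [Nat.card_fun, Nat.card_eq_fintype_card (α := ι), hι, Nat.card_eq_fintype_card, Fintype.card_coe, Int.card_Icc]
    congr 1
    omega
  rw [h2] at h1
  have h3 : ((2 * H + 1) ^ N : ℕ) ≤ (4 * H) ^ N := Nat.pow_le_pow_left (by omega) N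
  calc (Nat.card {c : ι → ℤ // (∀ i, |c i| ≤ (H : ℤ)) ∧ Q c} : ℝ) ≤ (((4 * H) ^ N : ℕ) : ℝ) := by
        exact_mod_cast h1.trans h3
    _ = 4 ^ N * (H : ℝ) ^ N := by push_cast; rw [mul_pow]

/-- the small values of `H` -/
private theorem TU2_ofK {K : Type} [Field K] [NumberField K] [DecidableEq K] {A B : 𝓞 K} (κ : ℝ) (Γ : AddSubgroup (Pt (A : K) (B : K))) (c : ℝ)
    (hc : 0 < c) (h : ∀ g N0 N : ℕ, ∃ (C : ℝ) (H₀ : ℕ), ∀ H : ℕ, H₀ ≤ H → ∀ Bd : Finset ℕ,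
    (Bd.card : ℝ) ≤ c * (Real.log (Real.log H)) ^ 2 → ∀ (ι : Type) [Fintype ι] [DecidableEq ι],
    Fintype.card ι = N → ∀ R : LocV K g ι, DensB N0 Bd R κ →
    (Nat.card {c : ι → ℤ // (∀ i, |c i| ≤ (H : ℤ)) ∧ ∃ P : Fin g → Pt (A : K) (B : K), (∀ l, P l ∈ Γ) ∧
      AdmB N0 Bd R c P} : ℝ) ≤ C * (H : ℝ) ^ N * Real.exp (-(c * (Real.log (Real.log H)) ^ 2))) : ConclB κ Γ := by
  refine ⟨c, hc, fun g N0 N => ?_⟩
  obtain ⟨C, H₀, hC⟩ := h g N0 N
  refine ⟨max C (∑ h ∈ range H₀, 4 ^ N * Real.exp (c * (Real.log (Real.log h)) ^ 2)), fun H hH Bd hBd ι _ _ hι R hR => ?_⟩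
  rcases le_or_gt H₀ H with hH0 | hH0
  · refine (hC H hH0 Bd hBd ι hι R hR).trans ?_
    have : 0 ≤ (H : ℝ) ^ N * Real.exp (-(c * (Real.log (Real.log H)) ^ 2)) := by positivity
    calc C * (H : ℝ) ^ N * Real.exp (-(c * (Real.log (Real.log H)) ^ 2))
        = C * ((H : ℝ) ^ N * Real.exp (-(c * (Real.log (Real.log H)) ^ 2))) := by ring
      _ ≤ max C (∑ h ∈ range H₀, 4 ^ N * Real.exp (c * (Real.log (Real.log h)) ^ 2)) *
          ((H : ℝ) ^ N * Real.exp (-(c * (Real.log (Real.log H)) ^ 2))) :=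
        mul_le_mul_of_nonneg_right (le_max_left _ _) this
      _ = _ := by ring
  · refine (TU2_card hι H hH _).trans ?_
    have h1 : 4 ^ N * Real.exp (c * (Real.log (Real.log H)) ^ 2) ≤
        max C (∑ h ∈ range H₀, 4 ^ N * Real.exp (c * (Real.log (Real.log h)) ^ 2)) := by
      refine le_trans ?_ (le_max_right _ _)
      exact single_le_sum (f := fun h : ℕ => 4 ^ N * Real.exp (c * (Real.log (Real.log h)) ^ 2))
        (fun i _ => by positivity) (mem_range.2 hH0)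
    have h2 : Real.exp (c * (Real.log (Real.log H)) ^ 2) * Real.exp (-(c * (Real.log (Real.log H)) ^ 2)) = 1 := by
      rw [← Real.exp_add, add_neg_cancel, Real.exp_zero]
    calc (4 : ℝ) ^ N * (H : ℝ) ^ N
        = 4 ^ N * (H : ℝ) ^ N *
          (Real.exp (c * (Real.log (Real.log H)) ^ 2) * Real.exp (-(c * (Real.log (Real.log H)) ^ 2))) := by
          rw [h2, mul_one]
      _ = 4 ^ N * Real.exp (c * (Real.log (Real.log H)) ^ 2) *
          ((H : ℝ) ^ N * Real.exp (-(c * (Real.log (Real.log H)) ^ 2))) := by ring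
      _ ≤ max C (∑ h ∈ range H₀, 4 ^ N * Real.exp (c * (Real.log (Real.log h)) ^ 2)) *
          ((H : ℝ) ^ N * Real.exp (-(c * (Real.log (Real.log H)) ^ 2))) :=
        mul_le_mul_of_nonneg_right h1 (by positivity)
      _ = _ := by ring

private theorem TU2_dec {G : Type} [AddCommGroup G] (P0 : G) (b : ℕ) (hb : 0 < b) (n : ℤ) :
    ∃ m : ℕ, m < b ∧ n • P0 = (m : ℤ) • P0 + (n / (b : ℤ)) • (b • P0) := by
  have h6 : (0 : ℤ) < (b : ℤ) := by exact_mod_cast hb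
  have hm0 : 0 ≤ n % (b : ℤ) := Int.emod_nonneg _ h6.ne'
  have hm1 : n % (b : ℤ) < (b : ℤ) := Int.emod_lt_of_pos _ h6
  obtain ⟨m, hm⟩ := Int.eq_ofNat_of_zero_le hm0
  refine ⟨m, ?_, ?_⟩
  · have h7 : ((m : ℕ) : ℤ) < (b : ℤ) := hm ▸ hm1
    exact_mod_cast h7
  · have h8 : (m : ℤ) + (n / (b : ℤ)) * (b : ℤ) = n := by
      rw [← hm]
      have := Int.emod_add_mul_ediv n (b : ℤ)
      rw [mul_comm] at this
      exact this
    rw [← natCast_zsmul P0 b, ← mul_smul, ← add_smul, h8]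

/-- the bad primes cost a small power -/
private theorem TU2_bad (κ : ℝ) (hκ : 0 ≤ κ) (hκ1 : κ ≤ 1 / 20) {c L X : ℝ} (hc : 0 ≤ c) (hL : 0 ≤ L) (n m : ℕ)
    (hm : (m : ℝ) ≤ c / 2 * L) {Y : ℝ} (hX : 0 ≤ X) (h : X * (1 - κ) ^ (n + m) ≤ Y * Real.exp (-(c * L))) (hY : 0 ≤ Y) :
    X * (1 - κ) ^ n ≤ Y * Real.exp (-(c / 2 * L)) := by
  have h1 : Real.exp (-(2 * κ)) ≤ 1 - κ := by
    have h2 := Real.add_one_le_exp (2 * κ)
    rw [Real.exp_neg, inv_le_comm₀ (Real.exp_pos _) (by linarith)]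
    refine le_trans ?_ h2
    rw [inv_le_iff_one_le_mul₀ (by linarith)]
    nlinarith
  have h3 : Real.exp (-(2 * κ) * m) ≤ (1 - κ) ^ m := by
    rw [mul_comm, Real.exp_nat_mul]
    exact pow_le_pow_left₀ (Real.exp_pos _).le h1 m
  have h4 : Real.exp (-(c / 2 * L)) ≤ Real.exp (-(2 * κ) * m) := by
    refine Real.exp_le_exp.2 ?_
    have h5 : (0 : ℝ) ≤ m := Nat.cast_nonneg m
    nlinarith
  have h6 : 0 ≤ X * (1 - κ) ^ n := mul_nonneg hX (pow_nonneg (by linarith) n)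
  have h7 : X * (1 - κ) ^ n * Real.exp (-(c / 2 * L)) ≤ Y * Real.exp (-(c / 2 * L)) * Real.exp (-(c / 2 * L)) := by
    calc X * (1 - κ) ^ n * Real.exp (-(c / 2 * L)) ≤ X * (1 - κ) ^ n * (1 - κ) ^ m :=
          mul_le_mul_of_nonneg_left (h4.trans h3) h6
      _ = X * (1 - κ) ^ (n + m) := by rw [pow_add]; ring
      _ ≤ Y * Real.exp (-(c * L)) := h
      _ = Y * Real.exp (-(c / 2 * L)) * Real.exp (-(c / 2 * L)) := by
          rw [mul_assoc, ← Real.exp_add]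
          congr 2
          ring
  exact le_of_mul_le_mul_right h7 (Real.exp_pos _)

/-- one point of infinite order, given the places of the kernels of reduction -/
private theorem TU2_core1 {K : Type} [Field K] [NumberField K] [DecidableEq K] {A B : 𝓞 K} (Γ : AddSubgroup (Pt (A : K) (B : K)))
    (T0 : Finset (Pt (A : K) (B : K))) (P0 : Pt (A : K) (B : K)) (hT : ∀ P ∈ Γ, ∃ t ∈ T0, ∃ n : ℤ, P = t + n • P0)
    (κ : ℝ) (hκ : 0 < κ) (hκ1 : κ ≤ 1 / 20) (c₁ C₁ : ℝ) (h1 : 0 < c₁) (h2 : 0 < C₁) (h : ∀ a : ℕ, ∃ T : Finset (HeightOneSpectrum (𝓞 K)),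
      c₁ * (a : ℝ) ^ 2 - C₁ ≤ T.card ∧ (∀ v ∈ T, inK (VR v) ((6 ^ a) • P0)) ∧
      ∑ v ∈ T, Real.log (Ideal.absNorm v.asIdeal) ≤ C₁ * 36 ^ a) : ConclB κ Γ := by
  classical
  have he : 1 ≤ Module.finrank ℚ K := Module.finrank_pos
  obtain ⟨c, hc, hpar⟩ := parK κ hκ hκ1 c₁ C₁ h1 h2 (Module.finrank ℚ K) he
  refine TU2_ofK κ Γ (c / 2) (by positivity) ?_
  intro g N0 N
  obtain ⟨C, H₀, hH⟩ := hpar g T0.card N0
  refine ⟨4 ^ N * |C|, max H₀ 1, fun H hH0 Bd hBd ι _ _ hcard R hR => ?_⟩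
  obtain ⟨a, ha1, ha2⟩ := hH H ((le_max_left _ _).trans hH0)
  have hH1 : 1 ≤ H := (le_max_right _ _).trans hH0
  obtain ⟨T, hT1, hT2, hT3⟩ := h a
  obtain ⟨S1, v, hS1', hS2, hS3⟩ := sel K T N0
  obtain ⟨S, hS⟩ : ∃ S : Finset ℕ, S = S1 \ Bd := ⟨_, rfl⟩
  have hS1 : ∀ p ∈ S, p.Prime ∧ N0 ≤ p ∧ CharP (RF (v p)) p ∧ v p ∈ T := fun p hp => by
    rw [hS] at hp
    exact hS1' p (mem_sdiff.1 hp).1
  have hSB : ∀ p ∈ S, p ∉ Bd := fun p hp => by
    rw [hS] at hp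
    exact (mem_sdiff.1 hp).2
  have hSc : S1.card ≤ S.card + Bd.card := by
    rw [hS]
    exact Finset.card_le_card_sdiff_add_card
  have hS3' : Real.log (∏ p ∈ S, (p : ℝ)) ≤ ∑ w ∈ T, Real.log (Ideal.absNorm w.asIdeal) := by
    refine le_trans (Real.log_le_log (Finset.prod_pos fun p hp => by exact_mod_cast (hS1 p hp).1.pos) ?_) hS3
    refine Finset.prod_le_prod_of_subset_of_one_le (by rw [hS]; exact sdiff_subset) ?_ ?_
    · intro p hp
      exact_mod_cast (hS1 p hp).1.pos.le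
    · intro p hp _
      exact_mod_cast (hS1' p hp).1.one_lt.le
  have hprod : ∏ p ∈ S, p ≤ H := by
    have hpos : (0 : ℝ) < ∏ p ∈ S, (p : ℝ) :=
      Finset.prod_pos fun p hp => by exact_mod_cast (hS1 p hp).1.pos
    have hlog : Real.log (∏ p ∈ S, (p : ℝ)) ≤ Real.log H := hS3'.trans (hT3.trans ha1)
    have hHpos : (0 : ℝ) < H := by exact_mod_cast hH1
    have h3 := (Real.log_le_log_iff hpos hHpos).1 hlog
    have h4 : ((∏ p ∈ S, p : ℕ) : ℝ) ≤ (H : ℝ) := by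
      push_cast
      exact h3
    exact_mod_cast h4
  have hr : ∀ P ∈ Γ, ∃ i : Fin (T0.card * 6 ^ a), ∃ Q, P =
      (fun i : Fin (T0.card * 6 ^ a) => ((T0.equivFin.symm (finProdFinEquiv.symm i).1 : T0) : Pt (A : K) (B : K)) +
        (((finProdFinEquiv.symm i).2 : ℕ) : ℤ) • P0) i + Q ∧ ∀ p ∈ S, inK (VR (v p)) Q := by
    intro P hP
    obtain ⟨t, ht, n, hn⟩ := hT P hP
    obtain ⟨m, hm, hmn⟩ := TU2_dec P0 (6 ^ a) (by positivity) n
    refine ⟨finProdFinEquiv (T0.equivFin ⟨t, ht⟩, ⟨m, hm⟩), (n / ((6 ^ a : ℕ) : ℤ)) • ((6 ^ a) • P0), ?_, ?_⟩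
    · simp only [Equiv.symm_apply_apply]
      rw [hn, add_assoc, ← hmn]
    · intro p hp
      exact inK_zsmul (VR (v p)) (int_mem (pV (v p)) A) (int_mem (pV (v p)) B) (hT2 (v p) (hS1 p hp).2.2.2) _
  have hs := TU2_sieve (κ := κ) hκ.le (by linarith) hR
    (fun i : Fin (T0.card * 6 ^ a) => ((T0.equivFin.symm (finProdFinEquiv.symm i).1 : T0) : Pt (A : K) (B : K)) +
        (((finProdFinEquiv.symm i).2 : ℕ) : ℤ) • P0) S v
    (fun p hp => ⟨(hS1 p hp).1, (hS1 p hp).2.1, (hS1 p hp).2.2.1, hSB p hp⟩) hr hprod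
  have h5 : c₁ * (a : ℝ) ^ 2 - C₁ ≤ (Module.finrank ℚ K : ℕ) * (((S.card + Bd.card : ℕ) : ℝ) + N0) := by
    refine hT1.trans ?_
    have h6 : ((T.card : ℕ) : ℝ) ≤ ((Module.finrank ℚ K * (S.card + Bd.card + N0) : ℕ) : ℝ) := by
      exact_mod_cast hS2.trans (Nat.mul_le_mul_left _ (Nat.add_le_add_right hSc _))
    refine h6.trans (le_of_eq ?_)
    push_cast
    ring
  have h70 := ha2 (S.card + Bd.card) h5
  have h7 : ((T0.card : ℝ) * 6 ^ a) ^ g * (1 - κ) ^ S.card ≤ |C| * Real.exp (-(c / 2 * (Real.log (Real.log H)) ^ 2)) :=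
    TU2_bad κ hκ.le hκ1 hc.le (sq_nonneg _) S.card Bd.card hBd (by positivity)
      (h70.trans (mul_le_mul_of_nonneg_right (le_abs_self C) (Real.exp_pos _).le)) (abs_nonneg C)
  refine hs.trans ?_
  have h8 : (0 : ℝ) ≤ (4 * (H : ℝ)) ^ N := by positivity
  calc ((T0.card * 6 ^ a : ℕ) : ℝ) ^ g * ((4 * (H : ℝ)) ^ Fintype.card ι * (1 - κ) ^ S.card)
      = (4 * (H : ℝ)) ^ N * (((T0.card : ℝ) * 6 ^ a) ^ g * (1 - κ) ^ S.card) := by
        rw [hcard]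
        push_cast
        ring
    _ ≤ (4 * (H : ℝ)) ^ N * (|C| * Real.exp (-(c / 2 * (Real.log (Real.log H)) ^ 2))) :=
        mul_le_mul_of_nonneg_left h7 h8
    _ = 4 ^ N * |C| * (H : ℝ) ^ N * Real.exp (-(c / 2 * (Real.log (Real.log H)) ^ 2)) := by
        rw [mul_pow]
        ring


private theorem TU2_place (K : Type) [Field K] [NumberField K] {p : ℕ} (hp : p.Prime) :
    ∃ v : HeightOneSpectrum (𝓞 K), CharP (RF v) p := by
  have h1 : Ideal.span {(p : 𝓞 K)} ≠ ⊤ := by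
    intro h
    have h2 : Ideal.absNorm (Ideal.span {(p : 𝓞 K)}) = p ^ Module.finrank ℚ K := by
      rw [Ideal.absNorm_span_natCast, RingOfIntegers.rank K]
    rw [h, Ideal.absNorm_top] at h2
    have h3 : 0 < Module.finrank ℚ K := Module.finrank_pos
    have h4 : 1 < p ^ Module.finrank ℚ K := Nat.one_lt_pow h3.ne' hp.one_lt
    omega
  obtain ⟨M, hM, hle⟩ := Ideal.exists_le_maximal _ h1
  have hmem : (p : 𝓞 K) ∈ M := hle (Ideal.mem_span_singleton_self _)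
  exact ⟨⟨M, hM.isPrime, Ring.ne_bot_of_isMaximal_of_not_isField hM (RingOfIntegers.not_isField K)⟩,
    (char_mem hp).2 hmem⟩

private theorem TU2_exp (κ : ℝ) (hκ1 : κ ≤ 1 / 20) (n : ℕ) : ((1 : ℝ) - κ) ^ n ≤ Real.exp (-(κ * (n : ℝ))) := by
  have h1 : ((1 : ℝ) - κ) ≤ Real.exp (-κ) := by
    have := Real.add_one_le_exp (-κ)
    linarith
  calc ((1 : ℝ) - κ) ^ n ≤ Real.exp (-κ) ^ n := pow_le_pow_left₀ (by linarith) h1 n
    _ = Real.exp (-(κ * (n : ℝ))) := by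
        rw [← Real.exp_nat_mul]
        congr 1
        ring

/-- finitely many points -/
private theorem TU2_core0 {K : Type} [Field K] [NumberField K] [DecidableEq K] {A B : 𝓞 K} (Γ : AddSubgroup (Pt (A : K) (B : K)))
    (T0 : Finset (Pt (A : K) (B : K))) (κ : ℝ) (hκ : 0 < κ) (hκ1 : κ ≤ 1 / 20) (hT : ∀ P ∈ Γ, P ∈ T0) : ConclB κ Γ := by
  classical
  obtain ⟨c, H₀, hc, hpar⟩ := par0
  refine TU2_ofK κ Γ (κ * c / 2 / 2) (by positivity) ?_
  intro g N0 N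
  refine ⟨4 ^ N * ((T0.card : ℝ) ^ g * Real.exp (κ * (N0 : ℝ))), H₀, fun H hH Bd hBd ι _ _ hcard R hR => ?_⟩
  obtain ⟨S₀, hS1, hS2, hS3⟩ := hpar H hH
  have hne : Nonempty (HeightOneSpectrum (𝓞 K)) := ⟨(TU2_place K Nat.prime_two).choose⟩
  choose! w hw using fun (p : ℕ) (hp : p.Prime) => TU2_place K hp
  have hprod : ∏ p ∈ S₀.filter (fun p => N0 ≤ p ∧ p ∉ Bd), p ≤ H := by
    refine le_trans ?_ hS2
    exact Finset.prod_le_prod_of_subset_of_one_le' (Finset.filter_subset _ _)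
      fun p hp _ => (hS1 p hp).one_lt.le
  have hcardS : S₀.card ≤ (S₀.filter (fun p => N0 ≤ p ∧ p ∉ Bd)).card + Bd.card + N0 := by
    rw [← Finset.card_filter_add_card_filter_not (s := S₀) (fun p => N0 ≤ p ∧ p ∉ Bd), add_assoc]
    refine Nat.add_le_add_left ?_ _
    have h1 : S₀.filter (fun p => ¬ (N0 ≤ p ∧ p ∉ Bd)) ⊆ Bd ∪ Finset.range N0 := by
      intro p hp
      have h2 := (Finset.mem_filter.1 hp).2
      by_cases h3 : p ∈ Bd
      · exact mem_union_left _ h3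
      · exact mem_union_right _ (Finset.mem_range.2 (by
          by_contra h4
          exact h2 ⟨by omega, h3⟩))
    refine (Finset.card_le_card h1).trans ((Finset.card_union_le _ _).trans ?_)
    rw [Finset.card_range]
  have hr : ∀ P ∈ Γ, ∃ i : Fin T0.card, ∃ Q, P =
      (fun i : Fin T0.card => ((T0.equivFin.symm i : T0) : Pt (A : K) (B : K))) i + Q ∧
      ∀ p ∈ S₀.filter (fun p => N0 ≤ p ∧ p ∉ Bd), inK (VR (w p)) Q := by
    intro P hP
    refine ⟨T0.equivFin ⟨P, hT P hP⟩, 0, ?_, fun p _ => trivial⟩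
    simp only [Equiv.symm_apply_apply, add_zero]
  have hs := TU2_sieve (κ := κ) hκ.le (by linarith) hR
    (fun i : Fin T0.card => ((T0.equivFin.symm i : T0) : Pt (A : K) (B : K)))
    (S₀.filter (fun p => N0 ≤ p ∧ p ∉ Bd)) w
    (fun p hp => ⟨hS1 p (Finset.mem_filter.1 hp).1, (Finset.mem_filter.1 hp).2.1,
      hw p (hS1 p (Finset.mem_filter.1 hp).1), (Finset.mem_filter.1 hp).2.2⟩) hr hprod
  refine hs.trans ?_
  have h8 : (0 : ℝ) ≤ (4 * (H : ℝ)) ^ N := by positivity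
  have h9 : ((1 : ℝ) - κ) ^ (S₀.filter (fun p => N0 ≤ p ∧ p ∉ Bd)).card ≤
      Real.exp (κ * (N0 : ℝ)) * Real.exp (-(κ * c / 2 / 2 * (Real.log (Real.log H)) ^ 2)) := by
    refine (TU2_exp κ hκ1 _).trans ?_
    rw [← Real.exp_add]
    refine Real.exp_le_exp.2 ?_
    have h10 : (S₀.card : ℝ) ≤ (S₀.filter (fun p => N0 ≤ p ∧ p ∉ Bd)).card + Bd.card + N0 := by exact_mod_cast hcardS
    have h11 : 0 ≤ c * (Real.log (Real.log H)) ^ 2 := by positivity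
    have h14 : κ * (Bd.card : ℝ) ≤ κ * (κ * c / 2 / 2 * (Real.log (Real.log H)) ^ 2) := mul_le_mul_of_nonneg_left hBd hκ.le
    have h12 : κ * (c * (Real.log (Real.log H)) ^ 2) ≤
        κ * (((S₀.filter (fun p => N0 ≤ p ∧ p ∉ Bd)).card : ℝ) + Bd.card + N0) :=
      mul_le_mul_of_nonneg_left (hS3.trans h10) hκ.le
    have h13 : 0 ≤ κ * (c * (Real.log (Real.log H)) ^ 2) := by positivity
    have h15 : κ * (κ * c / 2 / 2 * (Real.log (Real.log H)) ^ 2) ≤ κ * (c * (Real.log (Real.log H)) ^ 2) / 2 := by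
      have h16 : κ * (c * (Real.log (Real.log H)) ^ 2) ≤ 1 * (c * (Real.log (Real.log H)) ^ 2) :=
        mul_le_mul_of_nonneg_right (by linarith) h11
      nlinarith
    nlinarith
  calc ((T0.card : ℕ) : ℝ) ^ g * ((4 * (H : ℝ)) ^ Fintype.card ι * (1 - κ) ^ (S₀.filter (fun p => N0 ≤ p ∧ p ∉ Bd)).card)
      = (4 * (H : ℝ)) ^ N * ((T0.card : ℝ) ^ g * (1 - κ) ^ (S₀.filter (fun p => N0 ≤ p ∧ p ∉ Bd)).card) := by
        rw [hcard]
        ring
    _ ≤ (4 * (H : ℝ)) ^ N * ((T0.card : ℝ) ^ g * (Real.exp (κ * (N0 : ℝ)) *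
        Real.exp (-(κ * c / 2 / 2 * (Real.log (Real.log H)) ^ 2)))) :=
        mul_le_mul_of_nonneg_left (mul_le_mul_of_nonneg_left h9 (by positivity)) h8
    _ = 4 ^ N * ((T0.card : ℝ) ^ g * Real.exp (κ * (N0 : ℝ))) * (H : ℝ) ^ N *
        Real.exp (-(κ * c / 2 / 2 * (Real.log (Real.log H)) ^ 2)) := by
        rw [mul_pow]
        ring

/-- the sieve for local conditions of density at most `1 - κ` outside of a set of bad primes -/
theorem conclB {K : Type} [Field K] [NumberField K] [DecidableEq K] {A B : 𝓞 K} (hd : ds A B ≠ 0)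
    (Γ : AddSubgroup (Pt (A : K) (B : K))) (hΓ : Module.finrank ℤ Γ ≤ 1) {κ : ℝ} (hκ : 0 < κ) : ConclB κ Γ := by
  have hd' : ds (A : K) (B : K) ≠ 0 := by
    intro h
    apply hd
    apply NumberField.RingOfIntegers.coe_injective
    rw [map_zero, ← h]
    have h4 : (algebraMap (𝓞 K) K) 4 = 4 := map_ofNat _ 4
    have h27 : (algebraMap (𝓞 K) K) 27 = 27 := map_ofNat _ 27
    simp only [ds, map_add, map_mul, map_pow, h4, h27]
  have key : ∀ κ' : ℝ, 0 < κ' → κ' ≤ 1 / 20 → ConclB κ' Γ := by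
    intro κ' hκ' hκ1
    obtain ⟨T0, hT | ⟨P0, hP0, hT⟩⟩ := struc hd' Γ hΓ
    · exact TU2_core0 Γ T0 κ' hκ' hκ1 hT
    · obtain ⟨c₁, C₁, h1, h2, h⟩ := prim hd hP0
      exact TU2_core1 Γ T0 P0 hT κ' hκ' hκ1 c₁ C₁ h1 h2 h
  obtain ⟨c, hc, h⟩ := key (min κ (1 / 20)) (lt_min hκ (by norm_num)) (min_le_right _ _)
  refine ⟨c, hc, fun g N0 N => ?_⟩
  obtain ⟨C, hC⟩ := h g N0 N
  refine ⟨C, fun H hH Bd hBd ι _ _ hι R hR => hC H hH Bd hBd ι hι R fun v p hp hcp hN hb z =>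
    (hR v p hp hcp hN hb z).trans ?_⟩
  refine mul_le_mul_of_nonneg_right ?_ (by positivity)
  have := min_le_left κ (1 / 20)
  linarith

end OCM
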