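import Pool.Agent.Lib.MP_17a322_ntLY.P1
import Pool.Agent.Lib.MP_17a322_ntLY.P2

/-!
# LEAF ZA: the Bonferroni inequality for maps with values in any finite set

PROOF.  Copy `bonfG` and its private lemmas (`Pool/Agent/Lib/MP_17a322_ntVU/V0.lean`, prefix `ZA_`) with a finite type `F` in place of `ZMod p` and `Fintype.card F` in place of `p` (`0 < Fintype.card F`: `Fintype.card_pos`).
-/

namespace OCM

open Finset LVY

/-- The number of the `a` with `X t a ∈ Y t` for all `t ∈ U`. -/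
private theorem ZA_count {Ω τ : Type} [Fintype Ω] [DecidableEq τ] [DecidableEq Ω] {F : Type} [DecidableEq F] [Nonempty F] (p : ℕ) (X : τ → Ω → F)
    (U : Finset τ) (h : ∀ v : τ → F, Nat.card {a : Ω // ∀ t ∈ U, X t a = v t} * p ^ U.card = Fintype.card Ω)
    (Y : τ → Finset F) :
    (univ.filter fun a : Ω => ∀ t ∈ U, X t a ∈ Y t).card * p ^ U.card = Fintype.card Ω * ∏ t ∈ U, (Y t).card := by
  classical
  have h1 : (univ.filter fun a : Ω => ∀ t ∈ U, X t a ∈ Y t).card =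
      ∑ v ∈ U.pi Y, (univ.filter fun a : Ω => ∀ t, ∀ ht : t ∈ U, X t a = v t ht).card := by
    rw [← card_biUnion]
    · congr 1
      ext a
      rw [mem_filter, mem_biUnion]
      constructor
      · rintro ⟨-, ha⟩
        exact ⟨fun t _ => X t a, mem_pi.2 fun t ht => ha t ht, mem_filter.2 ⟨mem_univ _, fun t _ => rfl⟩⟩
      · rintro ⟨v, hv, ha⟩
        refine ⟨mem_univ _, fun t ht => ?_⟩
        rw [(mem_filter.1 ha).2 t ht]
        exact mem_pi.1 hv t ht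
    · intro v _ w _ hvw
      rw [Function.onFun, disjoint_left]
      intro a ha hb
      apply hvw
      funext t ht
      rw [← (mem_filter.1 ha).2 t ht, (mem_filter.1 hb).2 t ht]
  rw [h1, sum_mul]
  have h2 : ∀ v ∈ U.pi Y, (univ.filter fun a : Ω => ∀ t, ∀ ht : t ∈ U, X t a = v t ht).card * p ^ U.card =
      Fintype.card Ω := by
    intro v _
    rw [← h fun t => if ht : t ∈ U then v t ht else Classical.arbitrary F]
    congr 1
    rw [Nat.card_eq_fintype_card, Fintype.card_subtype]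
    congr 1
    refine filter_congr fun a _ => forall_congr' fun t => forall_congr' fun ht => ?_
    rw [dif_pos ht]
  rw [sum_congr rfl h2, sum_const, card_pi, smul_eq_mul, mul_comm]

/-- `1 - x ≥ exp (- 2 x)` on `[0, 2 / 3]`. -/
private theorem ZA_exp (x : ℝ) (h0 : 0 ≤ x) (h1 : 3 * x ≤ 2) : Real.exp (-2 * x) ≤ 1 - x := by
  have h2 : 1 + 2 * x + (2 * x) ^ 2 / 2 ≤ Real.exp (2 * x) := by
    have := Real.quadratic_le_exp_of_nonneg (x := 2 * x) (by linarith)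
    linarith
  have h3 : Real.exp (-2 * x) * Real.exp (2 * x) = 1 := by
    rw [← Real.exp_add, show -2 * x + 2 * x = 0 by ring, Real.exp_zero]
  have h4 : 0 < Real.exp (-2 * x) := Real.exp_pos _
  have h5 : Real.exp (-2 * x) * (1 + 2 * x + (2 * x) ^ 2 / 2) ≤ 1 := (mul_le_mul_of_nonneg_left h2 h4.le).trans_eq h3
  have h6 : 1 ≤ (1 - x) * (1 + 2 * x + (2 * x) ^ 2 / 2) := by
    nlinarith [mul_nonneg h0 h0, mul_nonneg h0 (mul_nonneg h0 h0)]
  have h7 : 0 < 1 + 2 * x + (2 * x) ^ 2 / 2 := by positivity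
  exact le_of_mul_le_mul_right (h5.trans h6) h7

/-- the product is at least `exp (- 2 ∑ f)` -/
private theorem ZA_prod {τ : Type} [DecidableEq τ] (T : Finset τ) (f : τ → ℝ) (h0 : ∀ t ∈ T, 0 ≤ f t)
    (h1 : ∀ t ∈ T, 3 * f t ≤ 2) : Real.exp (-2 * ∑ t ∈ T, f t) ≤ ∏ t ∈ T, (1 - f t) := by
  rw [mul_sum, Real.exp_sum]
  exact prod_le_prod (fun t _ => (Real.exp_pos _).le) fun t ht => ZA_exp (f t) (h0 t ht) (h1 t ht)

theorem bonfF {Ω τ F : Type} [Fintype Ω] [DecidableEq τ] [Fintype F] [DecidableEq F] [Nonempty F] (X : τ → Ω → F)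
    (T : Finset τ) (m : ℕ) (hm : 1 ≤ m) (h : ∀ U ⊆ T, U.card < 2 * m → ∀ v : τ → F,
      Nat.card {a : Ω // ∀ t ∈ U, X t a = v t} * Fintype.card F ^ U.card = Fintype.card Ω)
    (Y : τ → Finset F) (C : ℝ) (h2 : ∀ t ∈ T, 3 * (Y t).card ≤ 2 * Fintype.card F)
    (hY : (∑ t ∈ T, ((Y t).card : ℝ)) ≤ C * Fintype.card F) :
    (Nat.card {a : Ω // ∃ t ∈ T, X t a ∈ Y t} : ℝ) ≤
      (1 - (Real.exp (-2 * C) - C ^ (2 * m) / (2 * m).factorial)) * Fintype.card Ω := by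
  classical
  obtain ⟨p, hpF⟩ : ∃ p : ℕ, p = Fintype.card F := ⟨_, rfl⟩
  have hp1 : 0 < p := by
    rw [hpF]
    exact Fintype.card_pos
  rw [← hpF] at h hY
  simp only [← hpF] at h2
  have hp : (0 : ℝ) < p := by exact_mod_cast hp1
  obtain ⟨f, hf⟩ : ∃ f : τ → ℝ, f = fun t => ((Y t).card : ℝ) / p := ⟨_, rfl⟩
  have hf0 : ∀ t ∈ T, 0 ≤ f t := fun t _ => by rw [hf]; positivity
  have hf2 : ∀ t ∈ T, 3 * f t ≤ 2 := by
    intro t ht
    rw [hf]
    have h3 : (3 : ℝ) * ((Y t).card : ℝ) ≤ 2 * p := by exact_mod_cast h2 t ht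
    show 3 * (((Y t).card : ℝ) / p) ≤ 2
    rw [mul_div_assoc', div_le_iff₀ hp]
    exact h3
  have hf1 : ∀ t ∈ T, f t ≤ 1 := fun t ht => by linarith [hf2 t ht, hf0 t ht]
  have hfs : ∑ t ∈ T, f t ≤ C := by
    rw [hf, ← sum_div, div_le_iff₀ hp]
    exact hY
  have hfs0 : 0 ≤ ∑ t ∈ T, f t := sum_nonneg hf0
  -- the numbers of the `a` which satisfy the conditions in `U`
  have hN : ∀ U ⊆ T, U.card < 2 * m → (((univ.filter fun a : Ω => ∀ t ∈ U, X t a ∈ Y t).card : ℕ) : ℝ) =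
      Fintype.card Ω * ∏ t ∈ U, f t := by
    intro U hU hU3
    have h1 := ZA_count p X U (h U hU hU3) Y
    have h2 : (((univ.filter fun a : Ω => ∀ t ∈ U, X t a ∈ Y t).card : ℕ) : ℝ) * (p : ℝ) ^ U.card =
        Fintype.card Ω * ∏ t ∈ U, ((Y t).card : ℝ) := by exact_mod_cast h1
    have h3 : ∏ t ∈ U, f t = (∏ t ∈ U, ((Y t).card : ℝ)) / (p : ℝ) ^ U.card := by
      rw [hf, prod_div_distrib, prod_const]
    rw [h3, mul_div_assoc', eq_div_iff (pow_pos hp _).ne', h2]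
  -- Bonferroni
  have hB : ∀ a : Ω, ∑ k ∈ range (2 * m), (-1 : ℤ) ^ k *
      ∑ U ∈ T.powersetCard k, (if ∀ t ∈ U, X t a ∈ Y t then 1 else 0 : ℤ) ≤
        1 - (if ∃ t ∈ T, X t a ∈ Y t then 1 else 0 : ℤ) := by
    intro a
    obtain ⟨S, hS⟩ : ∃ S : Finset τ, S = T.filter fun t => X t a ∈ Y t := ⟨_, rfl⟩
    have h2 : ∀ k, ∑ U ∈ T.powersetCard k, (if ∀ t ∈ U, X t a ∈ Y t then 1 else 0 : ℤ) = S.card.choose k := by
      intro k
      rw [sum_boole, ← card_powersetCard]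
      congr 1
      congr 1
      ext U
      rw [mem_filter, mem_powersetCard, mem_powersetCard, hS]
      constructor
      · rintro ⟨⟨h3, h4⟩, h5⟩
        exact ⟨fun t ht => mem_filter.2 ⟨h3 ht, h5 t ht⟩, h4⟩
      · rintro ⟨h3, h4⟩
        exact ⟨⟨fun t ht => (mem_filter.1 (h3 ht)).1, h4⟩, fun t ht => (mem_filter.1 (h3 ht)).2⟩
    have h3 : (∃ t ∈ T, X t a ∈ Y t) ↔ S.card ≠ 0 := by
      rw [← Nat.pos_iff_ne_zero, card_pos, hS]
      constructor
      · rintro ⟨t, ht, h4⟩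
        exact ⟨t, mem_filter.2 ⟨ht, h4⟩⟩
      · rintro ⟨t, ht⟩
        exact ⟨t, mem_filter.1 ht⟩
    have h4 := bon S.card m hm
    rw [sum_congr rfl fun k _ => by rw [h2 k]]
    refine h4.trans ?_
    by_cases h5 : S.card = 0
    · rw [if_pos h5, if_neg fun h6 => (h3.1 h6) h5]
      norm_num
    · rw [if_neg h5, if_pos (h3.2 h5)]
      norm_num
  have hsum := sum_le_sum fun a (_ : a ∈ (univ : Finset Ω)) => hB a
  rw [sum_comm, sum_sub_distrib] at hsum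
  have hsw : ∀ k ∈ range (2 * m), ∑ a : Ω, (-1 : ℤ) ^ k *
      ∑ U ∈ T.powersetCard k, (if ∀ t ∈ U, X t a ∈ Y t then 1 else 0 : ℤ) =
      (-1 : ℤ) ^ k * ∑ U ∈ T.powersetCard k, ((univ.filter fun a : Ω => ∀ t ∈ U, X t a ∈ Y t).card : ℤ) := by
    intro k _
    rw [← mul_sum, sum_comm]
    congr 1
    refine sum_congr rfl fun U _ => ?_
    rw [sum_boole]
  rw [sum_congr rfl hsw, sum_boole] at hsum
  have hsum' : ∑ k ∈ range (2 * m), (-1 : ℝ) ^ k *
      ∑ U ∈ T.powersetCard k, ((univ.filter fun a : Ω => ∀ t ∈ U, X t a ∈ Y t).card : ℝ) ≤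
      (Fintype.card Ω : ℝ) - ((univ.filter fun a : Ω => ∃ t ∈ T, X t a ∈ Y t).card : ℝ) := by
    have h6 : ∑ a : Ω, (1 : ℤ) = (Fintype.card Ω : ℤ) := by
      rw [sum_const, card_univ, nsmul_eq_mul, mul_one]
    rw [h6] at hsum
    exact_mod_cast hsum
  have e2 : ∀ k ∈ range (2 * m), (-1 : ℝ) ^ k *
      ∑ U ∈ T.powersetCard k, ((univ.filter fun a : Ω => ∀ t ∈ U, X t a ∈ Y t).card : ℝ) =
      Fintype.card Ω * ((-1 : ℝ) ^ k * Es T f k) := by
    intro k hk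
    rw [mul_left_comm]
    congr 1
    unfold Es
    rw [mul_sum]
    refine sum_congr rfl fun U hU => ?_
    obtain ⟨h1, h2⟩ := mem_powersetCard.1 hU
    exact hN U h1 (by rw [h2]; exact mem_range.1 hk)
  rw [sum_congr rfl e2, ← mul_sum] at hsum'
  have hes := es_even T f hf0 hf1 m
  rw [sum_range_succ] at hes
  have hpw : (-1 : ℝ) ^ (2 * m) = 1 := by
    rw [pow_mul]
    norm_num
  rw [hpw, one_mul] at hes
  have hfac : (0 : ℝ) < ((2 * m).factorial : ℝ) := by exact_mod_cast Nat.factorial_pos _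
  have hpowE : Es T f (2 * m) ≤ C ^ (2 * m) / (2 * m).factorial := by
    rw [le_div_iff₀ hfac, mul_comm]
    exact (es_pow T f hf0 (2 * m)).trans (pow_le_pow_left₀ hfs0 hfs _)
  have hexp : Real.exp (-2 * C) ≤ ∏ t ∈ T, (1 - f t) :=
    (Real.exp_le_exp.2 (by linarith)).trans (ZA_prod T f hf0 hf2)
  have hlow : Real.exp (-2 * C) - C ^ (2 * m) / (2 * m).factorial ≤ ∑ k ∈ range (2 * m), (-1 : ℝ) ^ k * Es T f k := by
    linarith
  have hcard : Nat.card {a : Ω // ∃ t ∈ T, X t a ∈ Y t} = (univ.filter fun a : Ω => ∃ t ∈ T, X t a ∈ Y t).card := by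
    rw [Nat.card_eq_fintype_card, Fintype.card_subtype]
  rw [hcard]
  have h9 := mul_le_mul_of_nonneg_left hlow (Nat.cast_nonneg (α := ℝ) (Fintype.card Ω))
  linarith

end OCM
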