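import Pool.Agent.Lib.MP_17a322_ntOC.ZA
import Pool.Agent.Lib.MP_17a322_ntVU.V1

/-!
# LEAF ZB: the density for families of homomorphisms which are independent in small subfamilies

PROOF.  This is the proof of `dens` (`Pool/Agent/Lib/MP_17a322_ntVU/V1.lean`) for abstract groups.  `m0`, `hmC` from `exists_m (2 * (C : ℝ))` (as there; `LVY.exists_m`), `m = 2 * m0`, `c = exp (-4 C) / 4`.  `Fintype` instances: `Fintype.ofFinite`.
For `b : V'` and `t` let `Tg b t` be the set of the `y i0`, `y ∈ Y t`, with `L' t b i = y i` for all `i ≠ i0`.  The number of the pairs is `∑ b : V', Nat.card {a : V // ∃ t ∈ T, L t a ∈ Tg b t}` (`Nat.card_sigma`).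
The private lemma `V1_big` (copy it with the prefix `ZB_`) with `B = V'`, `N b = ∑ t ∈ T, (Tg b t).card`, `p = Nat.card F`, `cA = Nat.card V`.  Its hypothesis (1): `bonfF` with `Ω = V`, `X t a = L t a`, `C := 2 C`; the independence: for `U ⊆ T` with `U.card < 2 * m0` the homomorphism `a ↦ (t : U) ↦ L t a` is surjective onto `U → F`, so every fibre has `card V / card F ^ U.card` elements (`MWS.card_surj` or `FB.card_surjA` applied to the singleton, or: all fibres of a surjective homomorphism of finite groups have the same number of elements); `3 * (Tg b t).card ≤ 2 * card F` from the last hypothesis with `b i = L' t b i` (`i ≠ i0`).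
(3) the mean: `(∑ b, (Tg b t).card) * (card F) ^ (s - 1) ≤ (Y t).card * card V'`: `(Tg b t).card` is at most the number of the `y ∈ Y t` with `L' t b = (y i)_{i ≠ i0}`, exchange the sums, every fibre of the surjective `L' t` has `card V' / card F ^ (s - 1)` elements (`Fintype.card {i : Fin s // i ≠ i0} + 1 = s`, private lemma `V1_card`).
-/

namespace OCM

open Finset

private theorem ZB_big {B : Type} [Fintype B] (N G : B → ℕ) (p cA C : ℕ) (c : ℝ) (hp : 0 < (p : ℝ)) (hc : 0 ≤ c)
    (h1 : ∀ b, (N b : ℝ) ≤ 2 * C * p → (G b : ℝ) ≤ (1 - 2 * c) * cA) (h2 : ∀ b, G b ≤ cA)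
    (h3 : ∑ b, N b ≤ C * (p * Fintype.card B)) :
    ((∑ b, G b : ℕ) : ℝ) ≤ (1 - c) * (cA * Fintype.card B) := by
  have hA : (0 : ℝ) ≤ cA := Nat.cast_nonneg _
  have hB : (0 : ℝ) ≤ Fintype.card B := Nat.cast_nonneg _
  rcases Nat.eq_zero_or_pos C with h0 | hC
  · subst h0
    have h4 : ∀ b, (G b : ℝ) ≤ (1 - 2 * c) * cA := by
      intro b
      refine h1 b ?_
      rw [zero_mul] at h3
      have h5 : N b ≤ ∑ b, N b := Finset.single_le_sum (fun _ _ => Nat.zero_le _) (Finset.mem_univ b)
      have h6 : N b = 0 := by omega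
      rw [h6]
      simp
    rw [Nat.cast_sum]
    refine (Finset.sum_le_sum fun b _ => h4 b).trans ?_
    rw [Finset.sum_const, Finset.card_univ, nsmul_eq_mul]
    have h5 : 0 ≤ c * (cA * Fintype.card B) := by positivity
    linarith
  · have hCp : (0 : ℝ) < 2 * C * p := by positivity
    have h4 : ∀ b, (G b : ℝ) ≤ (1 - 2 * c + 2 * c * ((N b : ℝ) / (2 * C * p))) * cA := by
      intro b
      have hN : (0 : ℝ) ≤ (N b : ℝ) / (2 * C * p) := by positivity
      rcases le_or_gt (N b : ℝ) (2 * C * p) with h | h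
      · refine (h1 b h).trans ?_
        refine mul_le_mul_of_nonneg_right ?_ hA
        have : 0 ≤ 2 * c * ((N b : ℝ) / (2 * C * p)) := by positivity
        linarith
      · have h5 : (1 : ℝ) ≤ (N b : ℝ) / (2 * C * p) := by
          rw [le_div_iff₀ hCp, one_mul]
          exact h.le
        have h6 : (G b : ℝ) ≤ cA := by exact_mod_cast h2 b
        have h7 : (1 : ℝ) ≤ 1 - 2 * c + 2 * c * ((N b : ℝ) / (2 * C * p)) := by
          have h8 : 2 * c * 1 ≤ 2 * c * ((N b : ℝ) / (2 * C * p)) :=
            mul_le_mul_of_nonneg_left h5 (by linarith)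
          linarith
        calc (G b : ℝ) ≤ 1 * cA := by rw [one_mul]; exact h6
          _ ≤ _ := mul_le_mul_of_nonneg_right h7 hA
    have h5 : ((∑ b, N b : ℕ) : ℝ) / (2 * C * p) ≤ Fintype.card B / 2 := by
      rw [div_le_iff₀ hCp]
      have h6 : ((∑ b, N b : ℕ) : ℝ) ≤ ((C * (p * Fintype.card B) : ℕ) : ℝ) := by exact_mod_cast h3
      rw [Nat.cast_mul, Nat.cast_mul] at h6
      linarith
    rw [Nat.cast_sum]
    refine (Finset.sum_le_sum fun b _ => h4 b).trans ?_
    rw [← Finset.sum_mul, Finset.sum_add_distrib, ← Finset.mul_sum, ← Finset.sum_div,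
      Finset.sum_const, Finset.card_univ, nsmul_eq_mul, ← Nat.cast_sum]
    have h8 : (Fintype.card B : ℝ) * (1 - 2 * c) + 2 * c * (((∑ b, N b : ℕ) : ℝ) / (2 * C * p)) ≤
        (1 - c) * Fintype.card B := by
      have h9 : 2 * c * (((∑ b, N b : ℕ) : ℝ) / (2 * C * p)) ≤ 2 * c * (Fintype.card B / 2) :=
        mul_le_mul_of_nonneg_left h5 (by linarith)
      linarith
    calc _ ≤ ((1 - c) * Fintype.card B) * cA := mul_le_mul_of_nonneg_right h8 hA
      _ = _ := by ring

private theorem ZB_card {s : ℕ} (i0 : Fin s) : Fintype.card {i : Fin s // i ≠ i0} + 1 = s := by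
  have h := Fintype.card_congr (Equiv.optionSubtypeNe i0)
  rw [Fintype.card_option, Fintype.card_fin] at h
  exact h

private theorem ZB_fib {A B : Type} [AddCommGroup A] [AddCommGroup B] [Finite A] [Finite B] (f : A →+ B)
    (hf : Function.Surjective f) (v : B) : Nat.card {c : A // f c = v} * Nat.card B = Nat.card A := by
  have := Fintype.ofFinite B
  have h1 : ∀ w : B, Nat.card {c : A // f c = w} = Nat.card f.ker := by
    intro w
    obtain ⟨c0, hc0⟩ := hf w
    refine Nat.card_congr ⟨fun c => ⟨c.1 - c0, ?_⟩, fun c => ⟨c.1 + c0, ?_⟩, fun c => ?_, fun c => ?_⟩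
    · rw [AddMonoidHom.mem_ker, map_sub, c.2, hc0, sub_self]
    · rw [map_add, AddMonoidHom.mem_ker.1 c.2, zero_add, hc0]
    · exact Subtype.ext (sub_add_cancel _ _)
    · exact Subtype.ext (add_sub_cancel_right _ _)
  have h2 : Nat.card A = ∑ w : B, Nat.card {c : A // f c = w} := by
    rw [← Nat.card_sigma]
    exact Nat.card_congr (Equiv.sigmaFiberEquiv f).symm
  rw [h2, Finset.sum_congr rfl fun w _ => h1 w, h1 v, Finset.sum_const, Finset.card_univ, smul_eq_mul,
    Nat.card_eq_fintype_card (α := B), mul_comm]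

open Classical in
theorem densA (C : ℕ) : ∃ (m : ℕ) (c : ℝ), 0 < c ∧ c < 1 ∧ ∀ (V V' F Z : Type) [AddCommGroup V] [Finite V]
    [AddCommGroup V'] [Finite V'] [AddCommGroup F] [Finite F] (s : ℕ) (i0 : Fin s) (L : Z → V →+ F)
    (L' : Z → V' →+ ({i : Fin s // i ≠ i0} → F)) (T : Finset Z) (Y : Z → Finset (Fin s → F)),
    (∀ t ∈ T, Function.Surjective (L' t)) →
    (∀ U ⊆ T, U.card ≤ m → Function.Surjective fun (a : V) (t : U) => L t a) →
    ∑ t ∈ T, (Y t).card ≤ C * Nat.card F ^ s →
    (∀ t ∈ T, ∀ b : Fin s → F, 3 * ((Y t).filter fun y => ∀ i, i ≠ i0 → y i = b i).card ≤ 2 * Nat.card F) →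
      (Nat.card {a : V × V' // ∃ t ∈ T, ∃ y ∈ Y t, L t a.1 = y i0 ∧ ∀ i : {i : Fin s // i ≠ i0}, L' t a.2 i = y i.1} :
        ℝ) ≤ (1 - c) * (Nat.card V * Nat.card V') := by
  obtain ⟨m, hm, hmC⟩ := LVY.exists_m (2 * (C : ℝ))
  refine ⟨2 * m, Real.exp (-2 * (2 * (C : ℝ))) / 4, by positivity, ?_, ?_⟩
  · have h1 : Real.exp (-2 * (2 * (C : ℝ))) ≤ 1 := by
      rw [Real.exp_le_one_iff]
      have : (0 : ℝ) ≤ C := Nat.cast_nonneg _
      linarith
    linarith
  · intro V V' F Z _ _ _ _ _ _ s i0 L L' T Y hL' hL hC h2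
    have := Fintype.ofFinite V
    have := Fintype.ofFinite V'
    have := Fintype.ofFinite F
    have hpp : 0 < Nat.card F := Nat.card_pos
    have hp : (0 : ℝ) < Nat.card F := by exact_mod_cast hpp
    let Tg : V' → Z → Finset F := fun b t =>
      ((Y t).filter fun y => ∀ i : {i : Fin s // i ≠ i0}, L' t b i = y i.1).image fun y => y i0
    have hTg : ∀ b t, (Tg b t).card ≤
        ((Y t).filter fun y => ∀ i : {i : Fin s // i ≠ i0}, L' t b i = y i.1).card := fun b t => card_image_le
    -- the splitting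
    have hsplit : Nat.card {a : V × V' // ∃ t ∈ T, ∃ y ∈ Y t, L t a.1 = y i0 ∧
        ∀ i : {i : Fin s // i ≠ i0}, L' t a.2 i = y i.1} =
        ∑ b : V', Nat.card {a : V // ∃ t ∈ T, L t a ∈ Tg b t} := by
      rw [← Nat.card_sigma]
      refine Nat.card_congr ⟨fun r => ⟨r.1.2, r.1.1, ?_⟩, fun r => ⟨(r.2.1, r.1), ?_⟩, fun _ => rfl, fun _ => rfl⟩
      · obtain ⟨t, ht, y, hy, h3, h4⟩ := r.2
        exact ⟨t, ht, mem_image.2 ⟨y, mem_filter.2 ⟨hy, h4⟩, h3.symm⟩⟩
      · obtain ⟨t, ht, hy⟩ := r.2.2
        obtain ⟨y, hy1, hy2⟩ := mem_image.1 hy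
        obtain ⟨hy3, hy4⟩ := mem_filter.1 hy1
        exact ⟨t, ht, y, hy3, hy2.symm, hy4⟩
    have hall : (Nat.card V : ℝ) * Nat.card V' = (Nat.card V : ℝ) * Fintype.card V' := by
      rw [Nat.card_eq_fintype_card (α := V')]
    rw [hsplit, hall]
    refine ZB_big (fun b : V' => ∑ t ∈ T, (Tg b t).card) _ (Nat.card F) (Nat.card V) C _ hp (by positivity) ?_ ?_ ?_
    · intro b hb
      have h1 := bonfF (Ω := V) (τ := Z) (F := F) (fun t a => L t a) T m hm
        (fun U hU hc v => by
          have h3 := ZB_fib (AddMonoidHom.mk' (fun (a : V) (t : U) => L t a) fun a a' => funext fun t => map_add _ _ _)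
            (hL U hU hc.le) fun t => v t
          rw [Nat.card_eq_fintype_card (α := U → F), Fintype.card_fun, Fintype.card_coe,
            Nat.card_eq_fintype_card (α := V)] at h3
          rw [← h3]
          refine congrArg (fun n => n * Fintype.card F ^ U.card) (Nat.card_congr (Equiv.subtypeEquivRight fun a => ?_))
          constructor
          · intro h
            exact funext fun t => h t.1 t.2
          · intro h t ht
            exact congrFun h ⟨t, ht⟩) (fun t => Tg b t) (2 * (C : ℝ))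
        (fun t ht => by
          rw [← Nat.card_eq_fintype_card]
          refine (Nat.mul_le_mul_left 3 (hTg b t)).trans ?_
          refine le_trans (Nat.mul_le_mul_left 3 (card_le_card ?_)) (h2 t ht fun i => if h : i ≠ i0 then L' t b ⟨i, h⟩ else 0)
          intro y hy
          obtain ⟨h3, h4⟩ := mem_filter.1 hy
          refine mem_filter.2 ⟨h3, fun i hi => ?_⟩
          rw [dif_pos hi]
          exact (h4 ⟨i, hi⟩).symm)
        (by
          rw [← Nat.card_eq_fintype_card]
          exact_mod_cast hb)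
      rw [← Nat.card_eq_fintype_card] at h1
      refine h1.trans (mul_le_mul_of_nonneg_right ?_ (Nat.cast_nonneg _))
      linarith
    · intro b
      exact Nat.card_le_card_of_injective (Subtype.val : {a : V // ∃ t ∈ T, L t a ∈ Tg b t} → _) Subtype.val_injective
    · -- the mean
      have hs1 : Fintype.card {i : Fin s // i ≠ i0} + 1 = s := ZB_card i0
      have hN : Nat.card ({i : Fin s // i ≠ i0} → F) = Nat.card F ^ Fintype.card {i : Fin s // i ≠ i0} := by
        rw [Nat.card_eq_fintype_card, Nat.card_eq_fintype_card, Fintype.card_fun]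
      have h3 : ∀ t ∈ T, (∑ b : V', (Tg b t).card) * Nat.card F ^ Fintype.card {i : Fin s // i ≠ i0} ≤
          (Y t).card * Fintype.card V' := by
        intro t ht
        have h4 : ∑ b : V', (Tg b t).card ≤
            ∑ b : V', ((Y t).filter fun y => ∀ i : {i : Fin s // i ≠ i0}, L' t b i = y i.1).card :=
          sum_le_sum fun b _ => hTg b t
        have h5 : ∑ b : V', ((Y t).filter fun y => ∀ i : {i : Fin s // i ≠ i0}, L' t b i = y i.1).card =
            ∑ y ∈ Y t, Nat.card {b : V' // L' t b = fun i => y i.1} := by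
          simp_rw [card_filter]
          rw [sum_comm]
          refine sum_congr rfl fun y _ => ?_
          rw [Nat.card_eq_fintype_card, Fintype.card_subtype, card_filter]
          refine sum_congr rfl fun b _ => ?_
          refine if_congr ?_ rfl rfl
          exact ⟨fun h => funext h, fun h i => congrFun h i⟩
        refine (Nat.mul_le_mul_right _ (h4.trans h5.le)).trans ?_
        rw [sum_mul, ← hN]
        refine (sum_le_sum fun y _ => (ZB_fib (L' t) (hL' t ht) fun i => y i.1).le).trans ?_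
        rw [sum_const, smul_eq_mul, Nat.card_eq_fintype_card]
      have h4 : (∑ b : V', ∑ t ∈ T, (Tg b t).card) * Nat.card F ^ Fintype.card {i : Fin s // i ≠ i0} ≤
          C * Nat.card F ^ s * Fintype.card V' := by
        rw [sum_comm, sum_mul]
        refine (sum_le_sum h3).trans ?_
        rw [← sum_mul]
        exact Nat.mul_le_mul_right _ hC
      refine Nat.le_of_mul_le_mul_right (c := Nat.card F ^ Fintype.card {i : Fin s // i ≠ i0}) (h4.trans ?_)
        (pow_pos hpp _)
      have h5 : Nat.card F ^ s = Nat.card F ^ Fintype.card {i : Fin s // i ≠ i0} * Nat.card F := by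
        rw [← pow_succ, hs1]
      rw [h5]
      refine le_of_eq ?_
      ring

end OCM
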