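import Pool.Agent.Lib.MP_17a322_ntOC.ZDefs

/-!
# LEAF ZC: the values of the sections with coefficients in a box, in the residue field of any prime ideal

PROOF of `evM_surj`.  By `evH_surj` (`Pool/Agent/Lib/MP_17a322_ntFY/B2a.lean`): `i₀ : ι` (nonempty); `E` is empty, so `bT E Fin.elim0 z (i, q) = ∏ l, bas ..` (the product over `Fin 0` is `1`: `Finset.univ_eq_empty`, `Finset.prod_empty`).  For given values take the `c'` of `evH_surj` and put `c ((γ, (i, q)), k) = if i = i₀ then c' ((γ, q), k) else 0`.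
PROOF of `sM_evM`.  Unfold `sM`, `evM`.
-/

namespace OCM

open Finset NumberField VK FB IsDedekindDomain

/-- the value at `(z, y)` of the section with the coefficients `∑ k, c (t, k) ω k`, in the residue field -/
noncomputable def evM {K : Type} [Field K] [NumberField K] (v : HeightOneSpectrum (𝓞 K)) {p : ℕ} (hc : CharP (RF v) p)
    {g M n e : ℕ} {ι : Type} [Fintype ι] {d : Fin g → ℕ} (E : ι → Fin 0 → ℤ) (ω : Fin e → 𝓞 K)
    (z : Fin g → Option (RF v × RF v)) (y : Fin (M + 1) → RF v) :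
    ((MWS.Mo M n × IxT ι d) × Fin e → ZMod p) →+ RF v where
  toFun c := ∑ t : MWS.Mo M n × IxT ι d, (∑ k, (ZMod.cast (c (t, k)) : RF v) * rf (pV v) ((ω k : 𝓞 K) : K)) *
    (MWS.mo y t.1 * bT E Fin.elim0 z t.2)
  map_zero' := by
    refine Finset.sum_eq_zero fun t _ => ?_
    have h1 : ∑ k, (ZMod.cast ((0 : (MWS.Mo M n × IxT ι d) × Fin e → ZMod p) (t, k)) : RF v) *
        rf (pV v) ((ω k : 𝓞 K) : K) = 0 := by
      refine Finset.sum_eq_zero fun k _ => ?_
      rw [Pi.zero_apply, ZMod.cast_zero, zero_mul]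
    rw [h1, zero_mul]
  map_add' c c' := by
    rw [← Finset.sum_add_distrib]
    refine Finset.sum_congr rfl fun t _ => ?_
    rw [← add_mul, ← Finset.sum_add_distrib]
    congr 1
    refine Finset.sum_congr rfl fun k _ => ?_
    rw [Pi.add_apply, ← add_mul]
    congr 1
    exact map_add (ZMod.castHom (dvd_refl p) (RF v)) _ _

theorem evM_surj {K : Type} [Field K] [NumberField K] (v : HeightOneSpectrum (𝓞 K)) {p : ℕ} (hc : CharP (RF v) p)
    {g M n e : ℕ} {ι : Type} [Fintype ι] [Nonempty ι] {d : Fin g → ℕ} (E : ι → Fin 0 → ℤ)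
    (ω : Module.Basis (Fin e) ℤ (𝓞 K)) (z : Fin g → Option (RF v × RF v)) (T : Finset (Fin (M + 1) → RF v))
    (hT : ∀ x ∈ T, Nrm x) (hn : T.card ≤ n + 1) :
    Function.Surjective fun (c : (MWS.Mo M n × IxT ι d) × Fin e → ZMod p) (x : T) => evM v hc E ω z x.1 c := by
  classical
  obtain ⟨i₀⟩ := ‹Nonempty ι›
  intro f
  obtain ⟨c', hc'⟩ := evH_surj v hc ω z T hT hn f
  refine ⟨fun q => if q.1.2.1 = i₀ then c' ((q.1.1, q.1.2.2), q.2) else 0, ?_⟩
  rw [← hc']
  funext x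
  show (∑ t : MWS.Mo M n × IxT ι d,
      (∑ k, (ZMod.cast (if t.2.1 = i₀ then c' ((t.1, t.2.2), k) else (0 : ZMod p)) : RF v) *
        rf (pV v) ((ω k : 𝓞 K) : K)) * (MWS.mo x.1 t.1 * bT E Fin.elim0 z t.2)) =
    ∑ t : MWS.Mo M n × RamCov.IxG d, (∑ k, (ZMod.cast (c' (t, k)) : RF v) * rf (pV v) ((ω k : 𝓞 K) : K)) *
      (MWS.mo x.1 t.1 * ∏ l, RamCov.bas (RF v) (d l) (z l) (t.2 l))
  rw [Fintype.sum_prod_type, Fintype.sum_prod_type]
  refine Finset.sum_congr rfl fun γ _ => ?_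
  rw [Fintype.sum_prod_type, Finset.sum_eq_single i₀]
  · refine Finset.sum_congr rfl fun q _ => ?_
    have h1 : ∀ k, (ZMod.cast (if i₀ = i₀ then c' ((γ, q), k) else (0 : ZMod p)) : RF v) =
        ZMod.cast (c' ((γ, q), k)) := fun k => by rw [if_pos rfl]
    have h2 : bT E Fin.elim0 z (i₀, q) = ∏ l, RamCov.bas (RF v) (d l) (z l) (q l) := by
      unfold bT
      rw [Finset.univ_eq_empty, Finset.prod_empty, one_mul]
    rw [h2]
    refine congrArg (· * _) (Finset.sum_congr rfl fun k _ => ?_)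
    exact congrArg (· * _) (h1 k)
  · intro i _ hi
    refine Finset.sum_eq_zero fun q _ => ?_
    have h1 : (∑ k, (ZMod.cast (if i = i₀ then c' ((γ, q), k) else (0 : ZMod p)) : RF v) *
        rf (pV v) ((ω k : 𝓞 K) : K)) = 0 := by
      refine Finset.sum_eq_zero fun k _ => ?_
      rw [if_neg hi, ZMod.cast_zero, zero_mul]
    exact (congrArg (· * _) h1).trans (zero_mul _)
  · intro h
    exact absurd (Finset.mem_univ _) h

theorem sM_evM {K : Type} [Field K] [NumberField K] (v : HeightOneSpectrum (𝓞 K)) {p : ℕ} (hc : CharP (RF v) p)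
    {g M s e : ℕ} {ι : Type} [Fintype ι] {ν : Fin s → ℕ} {d : Fin s → Fin g → ℕ} (E : Fin s → ι → Fin 0 → ℤ)
    (ω : Fin e → 𝓞 K) (z : Fin g → Option (RF v × RF v)) (y : Fin (M + 1) → RF v)
    (c : IxM ι M ν d × Fin e → ZMod p) (j : Fin s) :
    sM E (fun t => ∑ k, (ZMod.cast (c (t, k)) : RF v) * rf (pV v) ((ω k : 𝓞 K) : K)) Fin.elim0 z y j =
      evM v hc (E j) ω z y fun x => c (⟨j, x.1⟩, x.2) := by
  rfl

end OCM
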