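import Pool.Agent.Lib.MP_17a322_ntOC.ZB
import Pool.Agent.Lib.MP_17a322_ntOC.ZC

/-!
# LEAF ZD: the density of the coefficients of the sections with values in given sets at some point of a finite set

PROOF of `dens_M`.  `m`, `c` from `densA C`, `d0 = m`.  `V = ((MWS.Mo M (ν i0) × IxT ι (d i0)) × Fin e → ZMod p)`, `V' = ((j : {j // j ≠ i0}) → ((MWS.Mo M (ν j) × IxT ι (d j)) × Fin e → ZMod p))`, `L t = evM v hc (E i0) ω z t`, `L' t c j = evM v hc (E j) ω z t (c j)`: surjective for `t ∈ T` by `evM_surj` with the one-element set `{t}` for every `j`; for `U ⊆ T` with at most `m` elements, `evM_surj` (`m ≤ ν i0`, or `T.card ≤ 1 ≤ n + 1`).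
The vectors `c : IxM ι M ν d × Fin e → ZMod p` correspond to the pairs in `V × V'` by a bijection (as `B2_sp`, `B2_bij` in `Pool/Agent/Lib/MP_17a322_ntFY/B2.lean`); by `sM_evM` the value of the section of index `j` is `L t` or `L' t`.  `Nat.card V * Nat.card V' = p ^ card` (the same bijection).
PROOF of `dens_MS`.  For every `t ∈ T` the homomorphism `c ↦ (j ↦ evM v hc (E j) ω z t (c_j))` onto `Fin s → RF v` is surjective (`evM_surj` with `{t}` for every `j`), so the number of the `c` with the value `y` times `Nat.card (RF v) ^ s` is `p ^ card` (`FB.card_surjA` with a singleton); union bound over `t ∈ T`, `y ∈ Y t` (as in leaf `TL`).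
-/

namespace OCM

open Finset NumberField VK FB IsDedekindDomain

/-- the coefficients of the section of index `i0` and those of the sections of index `j ≠ i0` -/
private def ZD_sp {M s g e p : ℕ} {ι : Type} (ν : Fin s → ℕ) (d : Fin s → Fin g → ℕ) (i0 : Fin s)
    (c : IxM ι M ν d × Fin e → ZMod p) :
    ((MWS.Mo M (ν i0) × IxT ι (d i0)) × Fin e → ZMod p) ×
      ((j : {j : Fin s // j ≠ i0}) → ((MWS.Mo M (ν j.1) × IxT ι (d j.1)) × Fin e → ZMod p)) :=
  (fun tk => c (⟨i0, tk.1⟩, tk.2), fun j tk => c (⟨j.1, tk.1⟩, tk.2))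

private theorem ZD_bij {M s g e p : ℕ} {ι : Type} (ν : Fin s → ℕ) (d : Fin s → Fin g → ℕ) (i0 : Fin s) :
    Function.Bijective (ZD_sp (ι := ι) (M := M) (e := e) (p := p) ν d i0) := by
  constructor
  · intro c c' h
    funext ⟨⟨j, t⟩, k⟩
    by_cases hj : j = i0
    · subst hj
      exact congrFun (congrArg Prod.fst h) (t, k)
    · exact congrFun (congrFun (congrArg Prod.snd h) ⟨j, hj⟩) (t, k)
  · rintro ⟨a', a⟩
    refine ⟨fun x => if h : x.1.1 = i0 then a' (h ▸ x.1.2, x.2) else a ⟨x.1.1, h⟩ (x.1.2, x.2), ?_⟩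
    refine Prod.ext ?_ ?_
    · funext tk
      show (if h : i0 = i0 then a' (h ▸ tk.1, tk.2) else a ⟨i0, h⟩ (tk.1, tk.2)) = a' tk
      rw [dif_pos rfl]
    · funext j tk
      show (if h : j.1 = i0 then a' (h ▸ tk.1, tk.2) else a ⟨j.1, h⟩ (tk.1, tk.2)) = a j tk
      rw [dif_neg j.2]

/-- the values at `(z, y)` of the sections of index `j ≠ i0` -/
private noncomputable def ZD_K {K : Type} [Field K] [NumberField K] (v : HeightOneSpectrum (𝓞 K)) {p : ℕ}
    (hc : CharP (RF v) p) {g M s e : ℕ} {ι : Type} [Fintype ι] {ν : Fin s → ℕ} {d : Fin s → Fin g → ℕ}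
    (E : Fin s → ι → Fin 0 → ℤ) (ω : Fin e → 𝓞 K)
    (z : Fin g → Option (RF v × RF v)) (i0 : Fin s) (y : Fin (M + 1) → RF v) :
    ((j : {j : Fin s // j ≠ i0}) → ((MWS.Mo M (ν j.1) × IxT ι (d j.1)) × Fin e → ZMod p)) →+
      ({j : Fin s // j ≠ i0} → RF v) where
  toFun c j := evM v hc (E j.1) ω z y (c j)
  map_zero' := funext fun j => map_zero (evM v hc (E j.1) ω z y)
  map_add' c c' := funext fun j => map_add (evM v hc (E j.1) ω z y) (c j) (c' j)

private theorem ZD_one {K : Type} [Field K] [NumberField K] (v : HeightOneSpectrum (𝓞 K)) {p : ℕ} (hc : CharP (RF v) p)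
    {g M n e : ℕ} {ι : Type} [Fintype ι] [Nonempty ι] {d : Fin g → ℕ} (E : ι → Fin 0 → ℤ)
    (ω : Module.Basis (Fin e) ℤ (𝓞 K)) (z : Fin g → Option (RF v × RF v)) (y : Fin (M + 1) → RF v)
    (hy : Nrm y) (f : RF v) :
    ∃ c : (MWS.Mo M n × IxT ι d) × Fin e → ZMod p, evM v hc E ω z y c = f := by
  obtain ⟨c, hcc⟩ := evM_surj (n := n) (d := d) v hc E ω z {y}
    (fun x hx => by rw [Finset.mem_singleton.1 hx]; exact hy) (by rw [Finset.card_singleton]; omega)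
    (fun _ => f)
  exact ⟨c, congrFun hcc ⟨y, Finset.mem_singleton_self y⟩⟩

private theorem ZD_Ksurj {K : Type} [Field K] [NumberField K] (v : HeightOneSpectrum (𝓞 K)) {p : ℕ}
    (hc : CharP (RF v) p) {g M s e : ℕ} {ι : Type} [Fintype ι] [Nonempty ι] {ν : Fin s → ℕ}
    {d : Fin s → Fin g → ℕ} (E : Fin s → ι → Fin 0 → ℤ)
    (ω : Module.Basis (Fin e) ℤ (𝓞 K)) (z : Fin g → Option (RF v × RF v)) (i0 : Fin s)
    (y : Fin (M + 1) → RF v) (hy : Nrm y) :
    Function.Surjective (ZD_K (M := M) (ν := ν) (d := d) v hc E ω z i0 y) := by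
  intro f
  choose c hcc using fun j : {j : Fin s // j ≠ i0} =>
    ZD_one (n := ν j.1) (d := d j.1) v hc (E j.1) ω z y hy (f j)
  exact ⟨c, funext hcc⟩

/-- the coefficients of the section of index `j` -/
private def ZD_c {M s g e p : ℕ} {ι : Type} (ν : Fin s → ℕ) (d : Fin s → Fin g → ℕ) (j : Fin s) :
    (IxM ι M ν d × Fin e → ZMod p) →+ ((MWS.Mo M (ν j) × IxT ι (d j)) × Fin e → ZMod p) where
  toFun c x := c (⟨j, x.1⟩, x.2)
  map_zero' := rfl
  map_add' _ _ := rfl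

/-- all the values at `(z, y)` -/
private noncomputable def ZD_A {K : Type} [Field K] [NumberField K] (v : HeightOneSpectrum (𝓞 K)) {p : ℕ}
    (hc : CharP (RF v) p) {g M s e : ℕ} {ι : Type} [Fintype ι] {ν : Fin s → ℕ} {d : Fin s → Fin g → ℕ}
    (E : Fin s → ι → Fin 0 → ℤ) (ω : Fin e → 𝓞 K)
    (z : Fin g → Option (RF v × RF v)) (y : Fin (M + 1) → RF v) :
    (IxM ι M ν d × Fin e → ZMod p) →+ (Fin s → RF v) :=
  AddMonoidHom.pi fun j => (evM v hc (E j) ω z y).comp (ZD_c ν d j)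

private theorem ZD_Asurj {K : Type} [Field K] [NumberField K] (v : HeightOneSpectrum (𝓞 K)) {p : ℕ}
    (hc : CharP (RF v) p) {g M s e : ℕ} {ι : Type} [Fintype ι] [Nonempty ι] {ν : Fin s → ℕ}
    {d : Fin s → Fin g → ℕ} (E : Fin s → ι → Fin 0 → ℤ)
    (ω : Module.Basis (Fin e) ℤ (𝓞 K)) (z : Fin g → Option (RF v × RF v))
    (y : Fin (M + 1) → RF v) (hy : Nrm y) :
    Function.Surjective (ZD_A (M := M) (ν := ν) (d := d) v hc E ω z y) := by
  intro f
  choose c hcc using fun j : Fin s => ZD_one (n := ν j) (d := d j) v hc (E j) ω z y hy (f j)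
  exact ⟨fun x => c x.1.1 (x.1.2, x.2), funext hcc⟩

open Classical in
theorem dens_M (C : ℕ) : ∃ (d0 : ℕ) (c : ℝ), 0 < c ∧ c < 1 ∧ ∀ (K : Type) [Field K] [NumberField K]
    (v : HeightOneSpectrum (𝓞 K)) (p : ℕ), p.Prime → ∀ (hc : CharP (RF v) p) (M g s e : ℕ) (ι : Type) [Fintype ι]
    [Nonempty ι] (ν : Fin s → ℕ) (d : Fin s → Fin g → ℕ) (E : Fin s → ι → Fin 0 → ℤ)
    (ω : Module.Basis (Fin e) ℤ (𝓞 K)) (z : Fin g → Option (RF v × RF v)) (i0 : Fin s)
    (T : Finset (Fin (M + 1) → RF v)) (Y : (Fin (M + 1) → RF v) → Finset (Fin s → RF v)),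
    (d0 ≤ ν i0 ∨ T.card ≤ 1) → (∀ t ∈ T, Nrm t) → ∑ t ∈ T, (Y t).card ≤ C * Nat.card (RF v) ^ s →
    (∀ t ∈ T, ∀ b : Fin s → RF v, 3 * ((Y t).filter fun y => ∀ i, i ≠ i0 → y i = b i).card ≤ 2 * Nat.card (RF v)) →
      (Nat.card {c : IxM ι M ν d × Fin e → ZMod p // ∃ t ∈ T, (fun j => sM E (fun t => ∑ k,
        (ZMod.cast (c (t, k)) : RF v) * rf (pV v) ((ω k : 𝓞 K) : K)) Fin.elim0 z t j) ∈ Y t} : ℝ) ≤
        (1 - c) * (p : ℝ) ^ Nat.card (IxM ι M ν d × Fin e) := by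
  obtain ⟨m, c, hc0, hc1, hA⟩ := densA C
  refine ⟨m, c, hc0, hc1, ?_⟩
  intro K _ _ v p hpp hc M g s e ι _ _ ν d E ω z i0 T Y hd0 hT hC h2
  have hfp : Fact p.Prime := ⟨hpp⟩
  have hfin : Finite (RF v) := finite_RF v
  have h3 := hA ((MWS.Mo M (ν i0) × IxT ι (d i0)) × Fin e → ZMod p)
    ((j : {j : Fin s // j ≠ i0}) → ((MWS.Mo M (ν j.1) × IxT ι (d j.1)) × Fin e → ZMod p)) (RF v)
    (Fin (M + 1) → RF v) s i0 (fun y => evM v hc (E i0) ω z y) (fun y => ZD_K v hc E ω z i0 y) T Y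
    (fun t ht => ZD_Ksurj v hc E ω z i0 t (hT t ht))
    (fun U hU hUm => evM_surj v hc (E i0) ω z U (fun x hx => hT x (hU hx)) (by
      rcases hd0 with h | h
      · omega
      · have h4 := Finset.card_le_card hU
        omega)) hC h2
  have h4 := Nat.card_eq_of_bijective _ (ZD_bij (ι := ι) (M := M) (e := e) (p := p) ν d i0)
  have h5 : Nat.card (IxM ι M ν d × Fin e → ZMod p) = p ^ Nat.card (IxM ι M ν d × Fin e) := by
    rw [Nat.card_fun, Nat.card_zmod]
  rw [h5] at h4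
  replace h4 := h4.trans (Nat.card_prod _ _)
  have h6 := Nat.card_le_card_of_injective
    (fun c : {c : IxM ι M ν d × Fin e → ZMod p // ∃ t ∈ T, (fun j => sM E (fun t => ∑ k,
        (ZMod.cast (c (t, k)) : RF v) * rf (pV v) ((ω k : 𝓞 K) : K)) Fin.elim0 z t j) ∈ Y t} =>
      (⟨ZD_sp ν d i0 c.1, ?_⟩ : {a : ((MWS.Mo M (ν i0) × IxT ι (d i0)) × Fin e → ZMod p) ×
        ((j : {j : Fin s // j ≠ i0}) → ((MWS.Mo M (ν j.1) × IxT ι (d j.1)) × Fin e → ZMod p)) //
        ∃ t ∈ T, ∃ y ∈ Y t, evM v hc (E i0) ω z t a.1 = y i0 ∧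
          ∀ i : {i : Fin s // i ≠ i0}, ZD_K v hc E ω z i0 t a.2 i = y i.1})) ?_
  · calc _ ≤ _ := by exact_mod_cast h6
      _ ≤ _ := h3
      _ = _ := by
        have h7 := congrArg (fun n : ℕ => (n : ℝ)) h4
        simp only [Nat.cast_mul, Nat.cast_pow] at h7
        rw [h7]
  · obtain ⟨t, ht, hty⟩ := c.2
    exact ⟨t, ht, _, hty, (sM_evM v hc E ω z t c.1 i0).symm, fun i => (sM_evM v hc E ω z t c.1 i.1).symm⟩
  · intro c c' hcc
    exact Subtype.ext ((ZD_bij ν d i0).1 (congrArg Subtype.val hcc))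

theorem dens_MS {K : Type} [Field K] [NumberField K] (v : HeightOneSpectrum (𝓞 K)) {p : ℕ} (hp : p.Prime)
    (hc : CharP (RF v) p) {M g s e : ℕ} {ι : Type} [Fintype ι] [Nonempty ι] {ν : Fin s → ℕ}
    {d : Fin s → Fin g → ℕ} (E : Fin s → ι → Fin 0 → ℤ) (ω : Module.Basis (Fin e) ℤ (𝓞 K))
    (z : Fin g → Option (RF v × RF v)) (T : Finset (Fin (M + 1) → RF v)) (hT : ∀ t ∈ T, Nrm t)
    (Y : (Fin (M + 1) → RF v) → Finset (Fin s → RF v)) :
    Nat.card {c : IxM ι M ν d × Fin e → ZMod p // ∃ t ∈ T, (fun j => sM E (fun t => ∑ k,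
      (ZMod.cast (c (t, k)) : RF v) * rf (pV v) ((ω k : 𝓞 K) : K)) Fin.elim0 z t j) ∈ Y t} *
        Nat.card (RF v) ^ s ≤ (∑ t ∈ T, (Y t).card) * p ^ Nat.card (IxM ι M ν d × Fin e) := by
  classical
  have hfp : Fact p.Prime := ⟨hp⟩
  have hfin : Finite (RF v) := finite_RF v
  have h5 : Nat.card (IxM ι M ν d × Fin e → ZMod p) = p ^ Nat.card (IxM ι M ν d × Fin e) := by
    rw [Nat.card_fun, Nat.card_zmod]
  have h1 : ∀ t ∈ T, Nat.card {c : IxM ι M ν d × Fin e → ZMod p // ZD_A v hc E ω z t c ∈ (Y t : Set (Fin s → RF v))} *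
      Nat.card (RF v) ^ s = (Y t).card * p ^ Nat.card (IxM ι M ν d × Fin e) := by
    intro t ht
    have h2 := card_surjA (ZD_A (M := M) (ν := ν) (d := d) v hc E ω z t) (ZD_Asurj v hc E ω z t (hT t ht))
      (Y t : Set (Fin s → RF v))
    rw [h5, Nat.card_fun, Nat.card_fin] at h2
    have h3 : Nat.card ((Y t : Set (Fin s → RF v))) = (Y t).card := by
      rw [Nat.card_coe_set_eq, Set.ncard_coe_finset]
    rw [h3] at h2
    exact h2
  have h6 : Nat.card {c : IxM ι M ν d × Fin e → ZMod p // ∃ t ∈ T, (fun j => sM E (fun t => ∑ k,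
      (ZMod.cast (c (t, k)) : RF v) * rf (pV v) ((ω k : 𝓞 K) : K)) Fin.elim0 z t j) ∈ Y t} ≤
      ∑ t ∈ T, Nat.card {c : IxM ι M ν d × Fin e → ZMod p // ZD_A v hc E ω z t c ∈ (Y t : Set (Fin s → RF v))} := by
    rw [Nat.card_eq_fintype_card, Fintype.card_subtype]
    have h7 : (Finset.univ.filter fun c : IxM ι M ν d × Fin e → ZMod p => ∃ t ∈ T, (fun j => sM E (fun t => ∑ k,
        (ZMod.cast (c (t, k)) : RF v) * rf (pV v) ((ω k : 𝓞 K) : K)) Fin.elim0 z t j) ∈ Y t) ⊆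
        T.biUnion fun t => Finset.univ.filter fun c : IxM ι M ν d × Fin e → ZMod p =>
          ZD_A v hc E ω z t c ∈ (Y t : Set (Fin s → RF v)) := by
      intro c hcc
      rw [Finset.mem_filter] at hcc
      obtain ⟨-, t, ht, hty⟩ := hcc
      rw [Finset.mem_biUnion]
      refine ⟨t, ht, ?_⟩
      rw [Finset.mem_filter]
      refine ⟨Finset.mem_univ _, ?_⟩
      have h8 : (fun j => sM E (fun t => ∑ k, (ZMod.cast (c (t, k)) : RF v) * rf (pV v) ((ω k : 𝓞 K) : K))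
          Fin.elim0 z t j) = ZD_A v hc E ω z t c := funext fun j => sM_evM v hc E ω z t c j
      rw [← h8]
      exact hty
    refine (Finset.card_le_card h7).trans (Finset.card_biUnion_le.trans (Finset.sum_le_sum fun t _ => ?_))
    rw [Nat.card_eq_fintype_card, Fintype.card_subtype]
  calc _ ≤ (∑ t ∈ T, Nat.card {c : IxM ι M ν d × Fin e → ZMod p //
        ZD_A v hc E ω z t c ∈ (Y t : Set (Fin s → RF v))}) * Nat.card (RF v) ^ s := Nat.mul_le_mul_right _ h6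
    _ = ∑ t ∈ T, (Y t).card * p ^ Nat.card (IxM ι M ν d × Fin e) := by
      rw [Finset.sum_mul]
      exact Finset.sum_congr rfl h1
    _ = _ := by rw [Finset.sum_mul]

end OCM
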