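import Pool.Agent.Lib.MP_17a322_ntFB.PL0
import Pool.Agent.Lib.MP_17a322_ntFY.B2a

/-!
# The local conditions at all prime ideals: definitions
-/

namespace OCM

open Finset NumberField VK FB IsDedekindDomain

/-- the local condition at the prime ideal `v` for the `F_j = 0`, `j ∉ R`, and the cyclic covers `γ_j t ^ (ex j) = F_j`,
`j ∈ R`, of the fixed variety with the coefficients `b` -/
def RW {K : Type} [Field K] [NumberField K] {h M w s e : ℕ} {κ ι : Type} [Fintype κ] [Fintype ι]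
    (A' B' : Fin h → 𝓞 K) {δ : Fin w → ℕ} {d' : Fin w → Fin h → ℕ} (R : Finset (Fin s))
    (ex : Fin s → ℕ) (E' : Fin w → κ → Fin 0 → ℤ) (b : IxM κ M δ d' → 𝓞 K) (ν : Fin s → ℕ)
    (d : Fin s → Fin (h + 0) → ℕ) (E : Fin s → ι → Fin 0 → ℤ) (ω : Fin e → 𝓞 K) (γ : Fin s → K) :
    LocV K (h + 0) (IxM ι M ν d × Fin e) := fun v _ z =>
  {c | (∀ l : Fin h, IsPt (rf (pV v) ((A' l : 𝓞 K) : K)) (rf (pV v) ((B' l : 𝓞 K) : K)) (z (Fin.castAdd 0 l))) ∧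
    ∃ y : Fin (M + 1) → RF v, y ≠ 0 ∧
      (∀ k, sM E' (fun t => rf (pV v) ((b t : 𝓞 K) : K)) Fin.elim0 (fun l => z (Fin.castAdd 0 l)) y k = 0) ∧
      (∀ j ∈ R, ∃ w' : RF v, rf (pV v) (γ j) * w' ^ ex j =
        sM E (fun t => ∑ k, (ZMod.cast (c (t, k)) : RF v) * rf (pV v) ((ω k : 𝓞 K) : K)) Fin.elim0 z y j) ∧
      ∀ j ∉ R,
        sM E (fun t => ∑ k, (ZMod.cast (c (t, k)) : RF v) * rf (pV v) ((ω k : 𝓞 K) : K)) Fin.elim0 z y j = 0}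

end OCM
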