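import Pool.Agent.Lib.MP_17a322_ntFB.PG

/-!
# LEAF ZE: the number of the values of `γ s ^ e` in a finite field

PROOF of `pow_valF`.  Copy the private lemma `G2_pow` (`Pool/Agent/Lib/MP_17a322_ntVU/G2.lean`) with a finite field `F` in place of `ZMod p` and `Nat.card F` in place of `p` (the order of `Fˣ`: `Nat.card_units`; see also `PF1_pow` in `Pool/Agent/Lib/MP_17a322_ntFB/PF1.lean`, which is the case `γ = 1`, `e = q`).
PROOF of `root_F`.  Copy the private lemma `PG_root` of `Pool/Agent/Lib/MP_17a322_ntFB/PG.lean`.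
-/

namespace OCM

open Finset NumberField VK FB IsDedekindDomain

theorem pow_valF {F : Type} [Field F] [Finite F] {q e : ℕ} (hq : q.Prime) (hpq : q ∣ Nat.card F - 1) (he : q ∣ e) (γ : F)
    (A : Finset F) (hA : ∀ x ∈ A, ∃ s : F, γ * s ^ e = x) : 2 * A.card ≤ Nat.card F + 1 := by
  classical
  have := Fintype.ofFinite F
  obtain ⟨ζ, hζ⟩ := exists_prime_orderOf_dvd_card' (G := Fˣ) (p := q) (hp := ⟨hq⟩)
    (by rw [Nat.card_units]; exact hpq)
  have hζ1 : ζ ≠ 1 := by
    intro h
    rw [h, orderOf_one] at hζ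
    exact hq.one_lt.ne hζ
  have hζe : (ζ : F) ^ e = 1 := by
    obtain ⟨k, rfl⟩ := he
    rw [pow_mul, ← hζ, ← Units.val_pow_eq_pow_val, pow_orderOf_eq_one, Units.val_one, one_pow]
  have hζ0 : (ζ : F) ≠ 0 := ζ.ne_zero
  set f : F → F := fun s => γ * s ^ e with hf
  set S : Finset F := univ.erase 0 with hS
  have hSc : S.card = Nat.card F - 1 := by
    rw [hS, Finset.card_erase_of_mem (Finset.mem_univ _), Finset.card_univ, Nat.card_eq_fintype_card]
  have h1 : (S.image f).card * 2 ≤ S.card := by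
    rw [Finset.card_eq_sum_card_image f S, ← smul_eq_mul]
    refine Finset.card_nsmul_le_sum _ _ _ fun b hb => ?_
    obtain ⟨s, hs, rfl⟩ := Finset.mem_image.1 hb
    have hs0 : s ≠ 0 := (Finset.mem_erase.1 hs).1
    have hne : s ≠ (ζ : F) * s := by
      intro h
      apply hζ1
      apply Units.ext
      rw [Units.val_one]
      have h2 : (1 : F) * s = (ζ : F) * s := by rw [one_mul]; exact h
      exact (mul_right_cancel₀ hs0 h2).symm
    have hsub : ({s, (ζ : F) * s} : Finset F) ⊆ S.filter (fun x => f x = f s) := by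
      intro t ht
      rw [Finset.mem_insert, Finset.mem_singleton] at ht
      rw [Finset.mem_filter, hS, Finset.mem_erase]
      rcases ht with rfl | rfl
      · exact ⟨⟨hs0, Finset.mem_univ _⟩, rfl⟩
      · refine ⟨⟨mul_ne_zero hζ0 hs0, Finset.mem_univ _⟩, ?_⟩
        show γ * ((ζ : F) * s) ^ e = γ * s ^ e
        rw [mul_pow, hζe, one_mul]
    calc 2 = ({s, (ζ : F) * s} : Finset F).card := (Finset.card_pair hne).symm
      _ ≤ _ := Finset.card_le_card hsub
  have h2 : A.card ≤ (univ.image f).card := by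
    refine Finset.card_le_card fun x hx => ?_
    obtain ⟨s, hs⟩ := hA x hx
    exact Finset.mem_image.2 ⟨s, Finset.mem_univ _, hs⟩
  have h3 : (univ.image f).card ≤ (S.image f).card + 1 := by
    have h4 : univ.image f ⊆ insert (f 0) (S.image f) := by
      intro x hx
      obtain ⟨s, -, rfl⟩ := Finset.mem_image.1 hx
      by_cases h : s = 0
      · rw [h]
        exact Finset.mem_insert_self _ _
      · exact Finset.mem_insert_of_mem (Finset.mem_image.2 ⟨s, Finset.mem_erase.2 ⟨h, Finset.mem_univ _⟩, rfl⟩)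
    exact (Finset.card_le_card h4).trans (Finset.card_insert_le _ _)
  have hp1 : 1 < Nat.card F := Finite.one_lt_card
  omega

theorem root_F {K F : Type} [Field K] [Field F] [Finite F] (π : PF K F) {q p : ℕ} (hq : q.Prime)
    (hqp : q < p) (hc : CharP F p) {ζ : K} (hζ : IsPrimitiveRoot ζ q) : q ∣ Nat.card F - 1 := by
  classical
  have hmem : ζ ∈ π.V := by
    refine mem_pow π (n := q) hq.one_lt.le ?_
    rw [hζ.pow_eq_one]
    exact π.V.one_mem
  have h1 : Rf π ζ (rf π ζ) := rf_res hmem
  have h2 : rf π ζ ^ q = 1 := by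
    have h3 := h1.pow q
    rw [hζ.pow_eq_one] at h3
    exact h3.unique Rf.one
  have h4 : rf π ζ ≠ 1 := by
    intro h5
    have h6 : Rf π (∑ i ∈ Finset.range q, ζ ^ i) (∑ i ∈ Finset.range q, rf π ζ ^ i) :=
      Rf.sum _ fun i _ => h1.pow i
    rw [hζ.geom_sum_eq_zero hq.one_lt, h5] at h6
    have h7 := h6.unique Rf.zero
    rw [Finset.sum_congr rfl fun i _ => one_pow (M := F) i, Finset.sum_const, Finset.card_range, nsmul_eq_mul,
      mul_one] at h7
    have h8 : p ∣ q := (CharP.cast_eq_zero_iff F p q).1 h7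
    exact absurd (Nat.le_of_dvd hq.pos h8) (not_le.2 hqp)
  have h0 : rf π ζ ≠ 0 := by
    intro h5
    rw [h5, zero_pow hq.ne_zero] at h2
    exact zero_ne_one h2
  have hF : Fintype F := Fintype.ofFinite F
  let u : Fˣ := Units.mk0 (rf π ζ) h0
  have hu : u ^ q = 1 := Units.ext h2
  have hu1 : u ≠ 1 := fun h => h4 (congrArg Units.val h)
  have hq' : Fact q.Prime := ⟨hq⟩
  have ho : orderOf u = q := orderOf_eq_prime hu hu1
  have hd := orderOf_dvd_card (x := u)
  rw [ho, Fintype.card_units, ← Nat.card_eq_fintype_card] at hd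
  exact hd

end OCM
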