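import Pool.Agent.Lib.MP_17a322_ntOC.ZC
import Pool.Agent.Lib.MP_17a322_ntFB.PL1

/-!
# LEAF ZG: the density for the complete intersections in the product with `ℙ^M`

PROOF.  `dens_RBV hM ν hν hs d ω v p hp hc h11 z` (`Pool/Agent/Lib/MP_17a322_ntFB/PL1.lean`, the set `RBV` in `PL0.lean`).  The homomorphism `S : (IxM ι M ν d × Fin e → ZMod p) →+ (RamCov.IxC M ν d × Fin e → ZMod p)`, `S c (⟨j, (γ, q)⟩, k) = ∑ i : ι, c (⟨j, (γ, (i, q))⟩, k)`, is surjective (put the value at one `i₀ : ι`).  As the product over `Fin 0` is `1`, `bT (E j) Fin.elim0 z (i, q) = ∏ l, RamCov.bas .. (q l)`, so the section of index `j` with the coefficients `c` has at `y` the value `∑ t : MWS.Mo M (ν j) × RamCov.IxG (d j), (∑ k, cast (S c (⟨j, t⟩, k)) * rf ..) * (MWS.mo y t.1 * ∏ l, ..)` (`ZMod.cast` is additive: `map_sum (ZMod.castHom (dvd_refl p) (RF v))`), and the set is `{c | S c ∈ RBV ν d ω v p z}`.  `FB.card_surjA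 S hS (RBV ..)` (`Pool/Agent/Lib/MP_17a322_ntFB/PF1.lean`).
-/

namespace OCM

open Finset NumberField VK FB IsDedekindDomain

private def ZG_S {M g s e : ℕ} {ι : Type} [Fintype ι] (ν : Fin s → ℕ) (d : Fin s → Fin g → ℕ) (p : ℕ) :
    (IxM ι M ν d × Fin e → ZMod p) →+ (RamCov.IxC M ν d × Fin e → ZMod p) where
  toFun c x := ∑ i : ι, c (⟨x.1.1, (x.1.2.1, (i, x.1.2.2))⟩, x.2)
  map_zero' := by
    funext x
    exact Finset.sum_eq_zero fun i _ => rfl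
  map_add' c c' := by
    funext x
    exact Finset.sum_add_distrib

private theorem ZG_surj {M g s e : ℕ} {ι : Type} [Fintype ι] [Nonempty ι] (ν : Fin s → ℕ) (d : Fin s → Fin g → ℕ)
    (p : ℕ) : Function.Surjective (ZG_S (M := M) (e := e) (ι := ι) ν d p) := by
  classical
  intro a
  have i₀ : ι := Classical.arbitrary ι
  refine ⟨fun t => if t.1.2.2.1 = i₀ then a (⟨t.1.1, (t.1.2.1, t.1.2.2.2)⟩, t.2) else 0, ?_⟩
  funext x
  change ∑ i : ι, (if i = i₀ then a (⟨x.1.1, (x.1.2.1, x.1.2.2)⟩, x.2) else 0) = a x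
  rw [Finset.sum_ite_eq' Finset.univ i₀ fun _ => a (⟨x.1.1, (x.1.2.1, x.1.2.2)⟩, x.2), if_pos (Finset.mem_univ _)]

private theorem ZG_val {F : Type} [Field F] {M g s e : ℕ} {ι : Type} [Fintype ι] {p : ℕ} (hc : CharP F p)
    (ν : Fin s → ℕ) (d : Fin s → Fin g → ℕ) (E : Fin s → ι → Fin 0 → ℤ) (w : Fin e → F)
    (z : Fin g → Option (F × F)) (c : IxM ι M ν d × Fin e → ZMod p) (y : Fin (M + 1) → F) (j : Fin s) :
    sM E (fun t => ∑ k, (ZMod.cast (c (t, k)) : F) * w k) Fin.elim0 z y j =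
      ∑ t : MWS.Mo M (ν j) × RamCov.IxG (d j), (∑ k, (ZMod.cast (ZG_S ν d p c (⟨j, t⟩, k)) : F) * w k) *
        (MWS.mo y t.1 * ∏ l, RamCov.bas F (d j l) (z l) (t.2 l)) := by
  classical
  unfold sM
  rw [Fintype.sum_prod_type, Fintype.sum_prod_type]
  refine Finset.sum_congr rfl fun a _ => ?_
  rw [Fintype.sum_prod_type, Finset.sum_comm]
  refine Finset.sum_congr rfl fun q _ => ?_
  have h1 : ∀ i : ι, bT (E j) (Fin.elim0 : Fin 0 → F) z (i, q) = ∏ l, RamCov.bas F (d j l) (z l) (q l) := by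
    intro i
    unfold bT
    rw [Finset.univ_eq_empty, Finset.prod_empty, one_mul]
  have h2 : ∀ k : Fin e, (ZMod.cast (ZG_S ν d p c (⟨j, (a, q)⟩, k)) : F) =
      ∑ i : ι, (ZMod.cast (c (⟨j, (a, (i, q))⟩, k)) : F) := fun k =>
    map_sum (ZMod.castHom (dvd_refl p) F) (fun i : ι => c (⟨j, (a, (i, q))⟩, k)) Finset.univ
  have h3 : ∑ k, (ZMod.cast (ZG_S ν d p c (⟨j, (a, q)⟩, k)) : F) * w k =
      ∑ i : ι, ∑ k, (ZMod.cast (c (⟨j, (a, (i, q))⟩, k)) : F) * w k := by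
    rw [Finset.sum_comm]
    refine Finset.sum_congr rfl fun k _ => ?_
    rw [h2, Finset.sum_mul]
  rw [h3, Finset.sum_mul]
  exact Finset.sum_congr rfl fun i _ => by rw [h1]

theorem dens_PM {K : Type} [Field K] [NumberField K] {M g s e : ℕ} {ι : Type} [Fintype ι] [Nonempty ι] (hM : M ≤ s)
    (ν : Fin s → ℕ) (hν : ∀ j, 1 ≤ ν j) (hs : M + 1 ≤ ∑ j, ν j) (d : Fin s → Fin g → ℕ) (E : Fin s → ι → Fin 0 → ℤ)
    (ω : Module.Basis (Fin e) ℤ (𝓞 K)) (v : HeightOneSpectrum (𝓞 K)) (p : ℕ) (hp : p.Prime) (hc : CharP (RF v) p)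
    (h11 : 11 ≤ p) (z : Fin g → Option (RF v × RF v)) :
    (Nat.card {c : IxM ι M ν d × Fin e → ZMod p // ∃ y : Fin (M + 1) → RF v, y ≠ 0 ∧ ∀ j, sM E (fun t => ∑ k,
      (ZMod.cast (c (t, k)) : RF v) * rf (pV v) ((ω k : 𝓞 K) : K)) Fin.elim0 z y j = 0} : ℝ) ≤
      (1 - 1 / 20) * (p : ℝ) ^ Nat.card (IxM ι M ν d × Fin e) := by
  classical
  have hfp : Fact p.Prime := ⟨hp⟩
  have h1 := card_surjA (ZG_S (M := M) (e := e) (ι := ι) ν d p) (ZG_surj ν d p) (RBV (m := M) ν d ω v p z)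
  have h2 : (Nat.card (RBV (m := M) ν d ω v p z) : ℝ) ≤
      (1 - 1 / 20) * (p : ℝ) ^ Fintype.card (RamCov.IxC M ν d × Fin e) := dens_RBV hM ν hν hs d ω v p hp hc h11 z
  have h3 : Nat.card {c : IxM ι M ν d × Fin e → ZMod p // ∃ y : Fin (M + 1) → RF v, y ≠ 0 ∧ ∀ j, sM E (fun t => ∑ k,
      (ZMod.cast (c (t, k)) : RF v) * rf (pV v) ((ω k : 𝓞 K) : K)) Fin.elim0 z y j = 0} =
      Nat.card {c : IxM ι M ν d × Fin e → ZMod p // ZG_S ν d p c ∈ RBV (m := M) ν d ω v p z} := by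
    refine Nat.card_congr (Equiv.subtypeEquivRight fun c => ?_)
    refine exists_congr fun y => and_congr_right fun _ => forall_congr' fun j => ?_
    rw [ZG_val hc ν d E (fun k => rf (pV v) ((ω k : 𝓞 K) : K)) z c y j]
  have h4 : Nat.card (RamCov.IxC M ν d × Fin e → ZMod p) = p ^ Fintype.card (RamCov.IxC M ν d × Fin e) := by
    rw [Nat.card_eq_fintype_card, Fintype.card_fun, ZMod.card]
  have h5 : Nat.card (IxM ι M ν d × Fin e → ZMod p) = p ^ Nat.card (IxM ι M ν d × Fin e) := by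
    rw [Nat.card_eq_fintype_card, Fintype.card_fun, ZMod.card, Nat.card_eq_fintype_card]
  rw [h3]
  rw [h4, h5] at h1
  have h6 : (Nat.card {c : IxM ι M ν d × Fin e → ZMod p // ZG_S ν d p c ∈ RBV (m := M) ν d ω v p z} : ℝ) *
      (p : ℝ) ^ Fintype.card (RamCov.IxC M ν d × Fin e) =
      (Nat.card (RBV (m := M) ν d ω v p z) : ℝ) * (p : ℝ) ^ Nat.card (IxM ι M ν d × Fin e) := by
    exact_mod_cast h1
  have hp0 : (0 : ℝ) < p := by exact_mod_cast hp.pos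
  have h7 : (0 : ℝ) < (p : ℝ) ^ Fintype.card (RamCov.IxC M ν d × Fin e) := pow_pos hp0 _
  have h8 : (0 : ℝ) ≤ (p : ℝ) ^ Nat.card (IxM ι M ν d × Fin e) := (pow_pos hp0 _).le
  refine le_of_mul_le_mul_right ?_ h7
  rw [h6]
  calc _ ≤ ((1 - 1 / 20) * (p : ℝ) ^ Fintype.card (RamCov.IxC M ν d × Fin e)) *
        (p : ℝ) ^ Nat.card (IxM ι M ν d × Fin e) := mul_le_mul_of_nonneg_right h2 h8
    _ = _ := by ring

end OCM
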