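import Pool.Agent.Lib.MP_17a322_ntOC.ZD
import Pool.Agent.Lib.MP_17a322_ntOC.ZE
import Pool.Agent.Lib.MP_17a322_ntOC.ZG
import Pool.Agent.Lib.MP_17a322_ntFY.B2
import Pool.Agent.Lib.MP_17a322_ntVY.UJ

/-!
# LEAF ZF: the density of the local condition at every prime ideal

PROOF.  Compare `dens_RG` (`Pool/Agent/Lib/MP_17a322_ntVU/G4.lean`), `dens_RT` (`TM.lean`) and `dens_RYV` (`Pool/Agent/Lib/MP_17a322_ntFY/B2.lean`).
`C`, `N1` from `cnt_fib K A' B' E' b r hF` (any finite field with a homomorphism from `𝓞 K`; `rf_hom v` is the homomorphism `φ` with `φ a = rf (pV v) a`).  `d0`, `c1` from `dens_M (2 * C)`; `ν0 = d0`, `κ0 = min c1 (1 / 20)` (`≤ 1 / 2`).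
`N0`: bigger than `N1`, `4 * C + 4`, `11` and, if `j ∈ R` is the index of the third alternative, than a common prime factor `q` of `ex j` and `m`.  Let `v`, `p ≥ N0`, `z` be given, `F = RF v` (finite: `finite_RF v`), `p ≤ Nat.card F` (the cardinality is a power of `p`: private lemma `PL1_le` of `Pool/Agent/Lib/MP_17a322_ntFB/PL1.lean`; or: `ZMod p` embeds by `ZMod.castHom`).
If some `z (Fin.castAdd 0 l)` is not on the curve the set is empty.
The alternative `w = 0 ∧ R = ∅ ∧ ..`: the set is contained in the set of `dens_PM`.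
Otherwise let `T` be the finite set of the normalised `y` (`Nrm y`) with `sM E' .. y k = 0` for all `k`: `S = {y | ∀ k, sM E' .. y k = 0}` is stable under scalars (`VU.sM_smul`), `Nat.card S ≤ C * Nat.card F ^ r` (`cnt_fib` with the values `0`).
If `r = 0`: `Nat.card S ≤ C`.. then `0 ∈ S` and for a normalised `y ∈ S` all its multiples are in `S`, so `Nat.card F ≤ C` if `T` is not empty: impossible as `C < p ≤ Nat.card F`; so `T` is empty and the set is empty.  If `r = m' + 1`: `T.card ≤ 2 * C * Nat.card F ^ m'` (`nrmF_card`).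
`Y y = {t : Fin s → F | (∀ j ∈ R, ∃ w', rf (pV v) (γ j) * w' ^ ex j = t j) ∧ ∀ j ∉ R, t j = 0}` (does not depend on `y`), `(Y y).card ≤ Nat.card F ^ R.card` (injection `t ↦ (j : R) ↦ t j`).  So `∑ y ∈ T, (Y y).card ≤ 2 * C * Nat.card F ^ (m' + R.card)`.
First alternative (`r + R.card ≤ s`): `∑ ≤ 2 * C * Nat.card F ^ (s - 1)`, `dens_MS`: `# * Nat.card F ^ s ≤ 2 * C * Nat.card F ^ (s - 1) * p ^ card`, so `# * Nat.card F ≤ 2 * C * p ^ card` and `4 * C ≤ Nat.card F`: `# ≤ (1 / 2) * p ^ card`.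
Third alternative (index `i0`): `dens_M` with `i0`; `T.card ≤ 1` if `M = 0` (two normalised vectors of length one are equal).  The last hypothesis: for given values of the other coordinates the `i0`-th coordinate takes at most one value (`0`) if `i0 ∉ R`, and the values `rf (γ i0) * w' ^ ex i0` otherwise: `pow_valF` with the prime `q ∣ ex i0`, `q ∣ m`, `root_F` with `ζ ^ (m / q)` (`IsPrimitiveRoot.pow`, see `roots` in `PE.lean`): `2 * # ≤ Nat.card F + 1`, so `3 * # ≤ 2 * Nat.card F` as `Nat.card F ≥ 3`.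
The set `RW` is contained in `{c | ∃ y ∈ T, (values) ∈ Y y}`: for `y ≠ 0` in the definition take `l` with `Nrm (l • y)` (`nrm_ex`), `VU.sM_smul`; for `j ∈ R`: `rf (γ j) * w' ^ ex j = value at y`, so the value at `l • y` is `l ^ ν j * ..` and `ex j ∣ ν j`: `w' * l ^ (ν j / ex j)`.
-/

namespace OCM

open Finset NumberField VK FB IsDedekindDomain

private theorem ZF_le {F : Type} [Field F] [Finite F] {p : ℕ} (hp : p.Prime) (hc : CharP F p) : p ≤ Nat.card F := by
  have : Fact p.Prime := ⟨hp⟩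
  have h := Nat.card_le_card_of_injective (ZMod.castHom (dvd_refl p) F) (ZMod.castHom (dvd_refl p) F).injective
  rwa [Nat.card_zmod] at h

private theorem ZF_mo {F : Type} [Field F] {m n : ℕ} (l : F) (y : Fin (m + 1) → F) (γ : MWS.Mo m n) :
    MWS.mo (l • y) γ = l ^ n * MWS.mo y γ := by
  unfold MWS.mo
  have h1 : ∀ i, (l • y) i ^ (γ.1 i : ℕ) = l ^ (γ.1 i : ℕ) * y i ^ (γ.1 i : ℕ) := fun i => by
    rw [Pi.smul_apply, smul_eq_mul, mul_pow]
  rw [Finset.prod_congr rfl fun i _ => h1 i, Finset.prod_mul_distrib, Finset.prod_pow_eq_pow_sum,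
    γ.2]

private theorem ZF_smul {F : Type} [Field F] {n m g s : ℕ} {ι : Type} [Fintype ι] {ν : Fin s → ℕ}
    {d : Fin s → Fin g → ℕ} (E : Fin s → ι → Fin n → ℤ) (a : IxM ι m ν d → F) (x : Fin n → F)
    (P : Fin g → Option (F × F)) (l : F) (y : Fin (m + 1) → F) (j : Fin s) :
    sM E a x P (l • y) j = l ^ ν j * sM E a x P y j := by
  unfold sM
  rw [Finset.mul_sum]
  refine Finset.sum_congr rfl fun t _ => ?_
  rw [ZF_mo]
  ring

/-- the number of the normalised vectors in a finite cone -/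
private theorem ZF_cone {F : Type} [Field F] [Finite F] {q C r : ℕ} (S : Set (Fin q → F))
    (hS : ∀ x ∈ S, ∀ l : F, l • x ∈ S) (h : Nat.card S ≤ C * Nat.card F ^ r) (hC : C < Nat.card F) :
    Nat.card {x : Fin q → F | x ∈ S ∧ Nrm x} * Nat.card F ≤ 2 * C * Nat.card F ^ r := by
  rcases r with _ | m
  · have h0 : Nat.card {x : Fin q → F | x ∈ S ∧ Nrm x} = 0 := by
      have hE : IsEmpty {x : Fin q → F | x ∈ S ∧ Nrm x} := by
        refine ⟨fun x => ?_⟩
        have hx : (x : Fin q → F) ∈ S ∧ Nrm (x : Fin q → F) := x.2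
        have hinj : Function.Injective fun l : F => (⟨l • x.1, hS _ hx.1 l⟩ : S) := by
          intro l l' hl
          have h1 : l • x.1 = l' • x.1 := congrArg Subtype.val hl
          obtain ⟨i, hi, -⟩ := hx.2
          have h2 := congrFun h1 i
          rw [Pi.smul_apply, Pi.smul_apply, hi, smul_eq_mul, smul_eq_mul, mul_one, mul_one] at h2
          exact h2
        have h1 := Nat.card_le_card_of_injective _ hinj
        rw [pow_zero, mul_one] at h
        exact absurd (h1.trans h) (not_le.2 hC)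
      exact Nat.card_of_isEmpty
    rw [h0, zero_mul]
    exact Nat.zero_le _
  · have h1 := nrmF_card (C := C) (m := m) S hS h
    calc _ ≤ (2 * C * Nat.card F ^ m) * Nat.card F := Nat.mul_le_mul_right _ h1
      _ = _ := by rw [pow_succ]; ring

/-- the number of the vectors with the coordinates outside of `R` equal to `0` -/
private theorem ZF_Y {F : Type} [Field F] [Finite F] {s : ℕ} (R : Finset (Fin s)) (Y : Finset (Fin s → F))
    (hY : ∀ y ∈ Y, ∀ j ∉ R, y j = 0) : Y.card ≤ Nat.card F ^ R.card := by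
  have hinj : Function.Injective fun (y : Y) (j : R) => (y : Fin s → F) j := by
    intro y y' hy
    refine Subtype.ext (funext fun j => ?_)
    by_cases hj : j ∈ R
    · exact congrFun hy ⟨j, hj⟩
    · rw [hY _ y.2 j hj, hY _ y'.2 j hj]
  have h1 := Nat.card_le_card_of_injective _ hinj
  rw [Nat.card_eq_fintype_card, Fintype.card_coe, Nat.card_fun, Nat.card_eq_fintype_card (α := R), Fintype.card_coe] at h1
  exact h1

theorem dens_RW {K : Type} [Field K] [NumberField K] {m : ℕ} {ζ : K} (hm : 1 ≤ m) (hζ : IsPrimitiveRoot ζ m)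
    {h r M w : ℕ} {κ : Type} [Fintype κ] {δ : Fin w → ℕ} {d' : Fin w → Fin h → ℕ} (A' B' : Fin h → 𝓞 K)
    (E' : Fin w → κ → Fin 0 → ℤ) (b : IxM κ M δ d' → 𝓞 K) (hF : Fib A' B' E' b r) :
    ∃ (ν0 : ℕ) (κ0 : ℝ), 0 < κ0 ∧ κ0 ≤ 1 ∧ ∀ (s e : ℕ) (ι : Type) [Fintype ι] [Nonempty ι] (ν : Fin s → ℕ)
      (d : Fin s → Fin (h + 0) → ℕ) (E : Fin s → ι → Fin 0 → ℤ) (ω : Module.Basis (Fin e) ℤ (𝓞 K)) (R : Finset (Fin s))
      (ex : Fin s → ℕ), (∀ j ∈ R, ex j ∣ ν j) →
      (r + R.card ≤ s ∨ r + R.card ≤ s + 1 ∧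
        ((∃ j, (ν0 ≤ ν j ∨ M = 0) ∧ (j ∈ R → ¬ (ex j).Coprime m)) ∨
          (w = 0 ∧ R = ∅ ∧ M ≤ s ∧ (∀ j, 1 ≤ ν j) ∧ M + 1 ≤ ∑ j, ν j))) →
      ∃ N0 : ℕ, ∀ γ : Fin s → K, DensV N0 (RW A' B' R ex E' b ν d E ω γ) κ0 := by
  classical
  obtain ⟨C, N1, hN1, hC⟩ := cnt_fib K A' B' E' b r hF
  obtain ⟨d0, c1, hc0, hc1, hden⟩ := dens_M (2 * C)
  refine ⟨d0, min c1 (1 / 20), lt_min hc0 (by norm_num), (min_le_left _ _).trans hc1.le, ?_⟩
  intro s e ι _ _ ν d E ω R ex hex hi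
  refine ⟨N1 + 4 * C + 15 + m, ?_⟩
  intro γ v p hpp hc hp z
  have hfp : Fact p.Prime := ⟨hpp⟩
  have hfin : Finite (RF v) := finite_RF v
  have hpN : (0 : ℝ) ≤ (p : ℝ) ^ Fintype.card (IxM ι M ν d × Fin e) := by positivity
  have hk1 : min c1 (1 / 20) ≤ c1 := min_le_left _ _
  have hk2 : min c1 (1 / 20) ≤ (1 / 20 : ℝ) := min_le_right _ _
  have hpF : p ≤ Nat.card (RF v) := ZF_le hpp hc
  -- the fourth alternative
  by_cases hi4 : w = 0 ∧ R = ∅ ∧ M ≤ s ∧ (∀ j, 1 ≤ ν j) ∧ M + 1 ≤ ∑ j, ν j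
  · obtain ⟨-, hR0, hMs, hν1, hsum⟩ := hi4
    have h1 := dens_PM hMs ν hν1 hsum d E ω v p hpp hc (by omega) z
    have hsub : RW A' B' R ex E' b ν d E ω γ v p z ⊆ {c : IxM ι M ν d × Fin e → ZMod p |
        ∃ y : Fin (M + 1) → RF v, y ≠ 0 ∧ ∀ j, sM E (fun t => ∑ k,
          (ZMod.cast (c (t, k)) : RF v) * rf (pV v) ((ω k : 𝓞 K) : K)) Fin.elim0 z y j = 0} := by
      rintro c ⟨-, y, hy, -, -, h3⟩
      refine ⟨y, hy, fun j => h3 j ?_⟩
      rw [hR0]
      exact Finset.notMem_empty j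
    have h2 := Nat.card_mono (Set.toFinite _) hsub
    have h3 : (Nat.card (RW A' B' R ex E' b ν d E ω γ v p z) : ℝ) ≤
        (1 - 1 / 20) * (p : ℝ) ^ Nat.card (IxM ι M ν d × Fin e) := by
      refine le_trans ?_ h1
      exact_mod_cast h2
    rw [Nat.card_eq_fintype_card (α := IxM ι M ν d × Fin e)] at h3
    refine h3.trans (mul_le_mul_of_nonneg_right ?_ hpN)
    linarith
  by_cases hz : ∀ l : Fin h, IsPt (rf (pV v) ((A' l : 𝓞 K) : K)) (rf (pV v) ((B' l : 𝓞 K) : K)) (z (Fin.castAdd 0 l))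
  swap
  · have h0 : Nat.card (RW A' B' R ex E' b ν d E ω γ v p z) = 0 := by
      have hE : IsEmpty (RW A' B' R ex E' b ν d E ω γ v p z) := ⟨fun c => hz c.2.1⟩
      exact Nat.card_of_isEmpty
    rw [h0, Nat.cast_zero]
    exact mul_nonneg (by linarith) hpN
  obtain ⟨φ, hφ⟩ := rf_hom v
  have hN : (N1 : RF v) ≠ 0 := by
    intro h0
    have h1 := (CharP.cast_eq_zero_iff (RF v) p N1).1 h0
    have h2 := Nat.le_of_dvd (Nat.pos_of_ne_zero hN1) h1
    omega
  -- the cone `S`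
  obtain ⟨S, hS⟩ : ∃ S : Set (Fin (M + 1) → RF v), S = {y | ∀ k,
      sM E' (fun t => rf (pV v) ((b t : 𝓞 K) : K)) Fin.elim0 (fun l => z (Fin.castAdd 0 l)) y k = 0} := ⟨_, rfl⟩
  have hSc : Nat.card S ≤ C * Nat.card (RF v) ^ r := by
    have h1 := hC (RF v) φ hN Fin.elim0 (fun l => z (Fin.castAdd 0 l)) (fun l => l.elim0)
      (fun l => by rw [hφ, hφ]; exact hz l) (fun _ => 0) (fun _ => Or.inl rfl)
    have h2 : (fun t => φ (b t)) = fun t => rf (pV v) ((b t : 𝓞 K) : K) := funext fun t => hφ (b t)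
    rw [h2] at h1
    rw [hS]
    exact h1
  have hSs : ∀ x ∈ S, ∀ l : RF v, l • x ∈ S := by
    intro x hx l
    rw [hS] at hx ⊢
    intro k
    rw [ZF_smul, hx k, mul_zero]
  have hTq := ZF_cone S hSs hSc (by omega)
  obtain ⟨T, hT⟩ : ∃ T : Finset (Fin (M + 1) → RF v),
      T = (Set.toFinite {x : Fin (M + 1) → RF v | x ∈ S ∧ Nrm x}).toFinset := ⟨_, rfl⟩
  have hTm : ∀ x, x ∈ T ↔ x ∈ S ∧ Nrm x := by
    intro x
    rw [hT, Set.Finite.mem_toFinset]
    exact Iff.rfl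
  have hTc : T.card = Nat.card {x : Fin (M + 1) → RF v | x ∈ S ∧ Nrm x} := by
    rw [hT]
    exact (Nat.card_eq_card_finite_toFinset (Set.toFinite {x : Fin (M + 1) → RF v | x ∈ S ∧ Nrm x})).symm
  rw [← hTc] at hTq
  -- the values
  obtain ⟨Y, hY⟩ : ∃ Y : Finset (Fin s → RF v), Y = (Set.toFinite {y : Fin s → RF v |
      (∀ j ∈ R, ∃ w' : RF v, rf (pV v) (γ j) * w' ^ ex j = y j) ∧ ∀ j ∉ R, y j = 0}).toFinset := ⟨_, rfl⟩
  have hYm : ∀ y, y ∈ Y ↔ (∀ j ∈ R, ∃ w' : RF v, rf (pV v) (γ j) * w' ^ ex j = y j) ∧ ∀ j ∉ R, y j = 0 := by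
    intro y
    rw [hY, Set.Finite.mem_toFinset]
    exact Iff.rfl
  have hYc : Y.card ≤ Nat.card (RF v) ^ R.card := ZF_Y R Y fun y hy => ((hYm y).1 hy).2
  obtain ⟨q, hq⟩ : ∃ q : ℕ, q = Nat.card (RF v) := ⟨_, rfl⟩
  have hsum : ∑ t ∈ T, ((fun _ : Fin (M + 1) → RF v => Y) t).card = T.card * Y.card := by
    rw [Finset.sum_const, smul_eq_mul]
  have hsq : (T.card * Y.card) * Nat.card (RF v) ≤ 2 * C * Nat.card (RF v) ^ (r + R.card) := by
    calc (T.card * Y.card) * Nat.card (RF v) = (T.card * Nat.card (RF v)) * Y.card := by ring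
      _ ≤ (2 * C * Nat.card (RF v) ^ r) * Nat.card (RF v) ^ R.card := Nat.mul_le_mul hTq hYc
      _ = _ := by rw [pow_add]; ring
  have hq1 : 1 ≤ Nat.card (RF v) := by omega
  -- the inclusion
  have hsub : RW A' B' R ex E' b ν d E ω γ v p z ⊆ {c : IxM ι M ν d × Fin e → ZMod p | ∃ t ∈ T,
      (fun j => sM E (fun t => ∑ k, (ZMod.cast (c (t, k)) : RF v) * rf (pV v) ((ω k : 𝓞 K) : K)) Fin.elim0 z t j) ∈
        (fun _ : Fin (M + 1) → RF v => Y) t} := by
    rintro c ⟨-, y, hy, hyb, hyR, hyn⟩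
    obtain ⟨l, hl0, hl⟩ := nrm_ex hy
    refine ⟨l • y, (hTm _).2 ⟨hSs _ (by rw [hS]; exact hyb) l, hl⟩, (hYm _).2 ⟨fun j hj => ?_, fun j hj => ?_⟩⟩
    · obtain ⟨w', hw'⟩ := hyR j hj
      obtain ⟨a, ha⟩ := hex j hj
      refine ⟨w' * l ^ a, ?_⟩
      show rf (pV v) (γ j) * (w' * l ^ a) ^ ex j = sM E _ Fin.elim0 z (l • y) j
      rw [ZF_smul, ← hw', mul_pow, ← pow_mul, mul_comm a, ← ha]
      ring
    · show sM E _ Fin.elim0 z (l • y) j = 0
      rw [ZF_smul, hyn j hj, mul_zero]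
  have hcard := Nat.card_mono (Set.toFinite _) hsub
  by_cases hi1 : r + R.card ≤ s
  · -- the first alternative
    have hD := dens_MS v hpp hc E ω z T (fun t ht => ((hTm t).1 ht).2) (fun _ => Y) (d := d) (ν := ν)
    rw [hsum] at hD
    rw [← hq] at hD hsq hpF hq1
    obtain ⟨x, hx⟩ : ∃ x : ℕ, x = Nat.card (RW A' B' R ex E' b ν d E ω γ v p z) := ⟨_, rfl⟩
    rw [← hx] at hcard ⊢
    rw [Nat.card_eq_fintype_card (α := IxM ι M ν d × Fin e)] at hD
    obtain ⟨N, hNN⟩ : ∃ N : ℕ, N = Fintype.card (IxM ι M ν d × Fin e) := ⟨_, rfl⟩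
    rw [← hNN] at hD hpN ⊢
    obtain ⟨S', hS'⟩ : ∃ S' : ℕ, S' = T.card * Y.card := ⟨_, rfl⟩
    rw [← hS'] at hD hsq
    have h4 : x * q ^ s ≤ S' * p ^ N := (Nat.mul_le_mul_right _ hcard).trans hD
    have h4' : S' * q ≤ 2 * C * q ^ s := hsq.trans (Nat.mul_le_mul_left _ (Nat.pow_le_pow_right hq1 hi1))
    have h5 : q ^ s * (q * x) ≤ q ^ s * (2 * C * p ^ N) := by
      calc q ^ s * (q * x) = q * (x * q ^ s) := by ring
        _ ≤ q * (S' * p ^ N) := Nat.mul_le_mul_left _ h4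
        _ = (S' * q) * p ^ N := by ring
        _ ≤ (2 * C * q ^ s) * p ^ N := Nat.mul_le_mul_right _ h4'
        _ = q ^ s * (2 * C * p ^ N) := by ring
    have h6 : q * x ≤ 2 * C * p ^ N := Nat.le_of_mul_le_mul_left h5 (pow_pos (by omega) _)
    have h7 : q * (2 * x) ≤ q * p ^ N := by
      calc q * (2 * x) = 2 * (q * x) := by ring
        _ ≤ 2 * (2 * C * p ^ N) := Nat.mul_le_mul_left _ h6
        _ = 4 * C * p ^ N := by ring
        _ ≤ q * p ^ N := Nat.mul_le_mul_right _ (by omega)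
    have h8 : 2 * x ≤ p ^ N := Nat.le_of_mul_le_mul_left h7 (by omega)
    have h9 : (2 : ℝ) * x ≤ (p : ℝ) ^ N := by exact_mod_cast h8
    nlinarith [mul_le_mul_of_nonneg_right hk2 hpN]
  -- the third alternative
  obtain ⟨hr, i0, hi0, hiR⟩ : r + R.card ≤ s + 1 ∧
      ∃ j, (d0 ≤ ν j ∨ M = 0) ∧ (j ∈ R → ¬ (ex j).Coprime m) := by
    rcases hi with h1 | ⟨h1, h2 | h2⟩
    · exact absurd h1 hi1
    · exact ⟨h1, h2⟩
    · exact absurd h2 hi4
  have hT1 : M = 0 → T.card ≤ 1 := by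
    rintro rfl
    refine Finset.card_le_one.2 fun x hx x' hx' => ?_
    obtain ⟨i, hi, -⟩ := ((hTm x).1 hx).2
    obtain ⟨i', hi', -⟩ := ((hTm x').1 hx').2
    have e1 : i = 0 := Fin.fin_one_eq_zero i
    have e2 : i' = 0 := Fin.fin_one_eq_zero i'
    rw [e1] at hi
    rw [e2] at hi'
    funext a
    rw [Fin.fin_one_eq_zero a, hi, hi']
  have hYs : ∑ t ∈ T, ((fun _ : Fin (M + 1) → RF v => Y) t).card ≤ 2 * C * Nat.card (RF v) ^ s := by
    rw [hsum]
    have h1 : (T.card * Y.card) * Nat.card (RF v) ≤ (2 * C * Nat.card (RF v) ^ s) * Nat.card (RF v) := by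
      calc _ ≤ 2 * C * Nat.card (RF v) ^ (r + R.card) := hsq
        _ ≤ 2 * C * Nat.card (RF v) ^ (s + 1) := Nat.mul_le_mul_left _ (Nat.pow_le_pow_right hq1 hr)
        _ = _ := by rw [pow_succ]; ring
    exact Nat.le_of_mul_le_mul_right h1 hq1
  have hD := hden K v p hpp hc M (h + 0) s e ι ν d E ω z i0 T (fun _ => Y) (hi0.imp id hT1)
    (fun t ht => ((hTm t).1 ht).2) hYs (by
      intro t _ b'
      have hinj : Set.InjOn (fun y : Fin s → RF v => y i0)
          ((Y.filter fun y => ∀ i, i ≠ i0 → y i = b' i : Finset (Fin s → RF v)) : Set (Fin s → RF v)) := by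
        intro y hy y' hy' hyy
        have h1 := (Finset.mem_filter.1 (Finset.mem_coe.1 hy)).2
        have h2 := (Finset.mem_filter.1 (Finset.mem_coe.1 hy')).2
        funext i
        by_cases hi : i = i0
        · rw [hi]
          exact hyy
        · rw [h1 i hi, h2 i hi]
      have hcI := Finset.card_image_of_injOn hinj
      have h3 : 3 ≤ Nat.card (RF v) := by omega
      by_cases hi : i0 ∈ R
      · obtain ⟨q', hq', hqe, hqm⟩ := Nat.Prime.not_coprime_iff_dvd.1 (hiR hi)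
        obtain ⟨a, ha⟩ := hqm
        have hζ' : IsPrimitiveRoot (ζ ^ a) q' := hζ.pow (by omega) (by rw [ha, mul_comm])
        have hqm' : q' ≤ m := Nat.le_of_dvd (by omega) ⟨a, ha⟩
        have hdiv := root_F (pV v) hq' (by omega : q' < p) hc hζ'
        have h4 := pow_valF hq' hdiv hqe (rf (pV v) (γ i0))
          ((Y.filter fun y => ∀ i, i ≠ i0 → y i = b' i).image fun y : Fin s → RF v => y i0) (by
            intro x hx
            obtain ⟨y, hy, rfl⟩ := Finset.mem_image.1 hx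
            exact ((hYm y).1 (Finset.mem_filter.1 hy).1).1 i0 hi)
        rw [hcI] at h4
        omega
      · have h4 : ((Y.filter fun y => ∀ i, i ≠ i0 → y i = b' i).image fun y : Fin s → RF v => y i0).card ≤ 1 := by
          refine Finset.card_le_one.2 fun x hx x' hx' => ?_
          obtain ⟨y, hy, rfl⟩ := Finset.mem_image.1 hx
          obtain ⟨y', hy', rfl⟩ := Finset.mem_image.1 hx'
          rw [((hYm y).1 (Finset.mem_filter.1 hy).1).2 i0 hi, ((hYm y').1 (Finset.mem_filter.1 hy').1).2 i0 hi]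
        rw [hcI] at h4
        omega)
  rw [Nat.card_eq_fintype_card (α := IxM ι M ν d × Fin e)] at hD
  have h3 : (Nat.card (RW A' B' R ex E' b ν d E ω γ v p z) : ℝ) ≤
      (1 - c1) * (p : ℝ) ^ Fintype.card (IxM ι M ν d × Fin e) := by
    refine le_trans ?_ hD
    exact_mod_cast hcard
  refine h3.trans (mul_le_mul_of_nonneg_right ?_ hpN)
  linarith

end OCM
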