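import Pool.Agent.Lib.MP_17a322_ntOC.ZDefs
import Pool.Agent.Lib.MP_17a322_ntFB.PD1
import Pool.Agent.Lib.MP_17a322_ntVK.SD0

/-!
# LEAF ZH: one local scaling of a point for all degrees, at a place with any residue field

PROOF of `rho_exF`.  Copy `rho_ex` and its private lemmas (`Pool/Agent/Lib/MP_17a322_ntVU/W3.lean`, prefix `ZH_`) with `PF K F`, `Rf`, `rf`, `rdF` (`Pool/Agent/Lib/MP_17a322_ntFB/PDefs.lean` and the lemmas on `Rf` there and in `PD1.lean`, `PV.lean`) in place of `Pl K p`, `Rd`, `res`, `rdK`; the part about the values `v ρ` is not needed.  (`ρ = 1` at the point at infinity and at the integral points; otherwise `ρ = x / y`-like: `ρ ^ 2` has the value of `x⁻¹`, as there.)  `opP` and `opK` are the same function (both by cases on the point).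
PROOF of `sec_rf`.  Copy `sec_rd` (`Pool/Agent/Lib/MP_17a322_ntVU/G5.lean`) with `n = 0`: there is no torus, `bT (E j) Fin.elim0 P t = 1 * ∏ ..` (`Finset.univ_eq_empty`, `Finset.prod_empty`).
-/

namespace OCM

open Finset NumberField VK FB IsDedekindDomain

section

variable {K F : Type} [Field K] [Field F]

private theorem ZH_sq {π : PF K F} {x : K} {r : F} (h : Rf π (x ^ 2) r) : Rf π x (rf π x) ∧ rf π x ^ 2 = r := by
  have h1 : x ∈ π.V := mem_pow π (by norm_num) h.choose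
  have h2 := rf_res h1
  exact ⟨h2, (h2.pow 2).unique h⟩

private theorem ZH_inv {π : PF K F} {x : K} (hx : x ∉ π.V) : x ≠ 0 ∧ Rf π x⁻¹ 0 := by
  have h0 : x ≠ 0 := by
    rintro rfl
    exact hx π.V.zero_mem
  have h1 : x⁻¹ ∈ π.V := (π.V.mem_or_inv_mem x).resolve_left hx
  refine ⟨h0, h1, ?_⟩
  refine π.ker ⟨x⁻¹, h1⟩ ?_
  show (x⁻¹)⁻¹ ∉ π.V
  rw [inv_inv]
  exact hx

private theorem ZH_red {π : PF K F} {A B : K} (hA : A ∈ π.V) (hB : B ∈ π.V) {d : ℕ} {x y : K}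
    (he : y ^ 2 = x ^ 3 + A * x + B) (hx : x ∉ π.V) (k : RamCov.Ix d) :
    Rf π ((x⁻¹) ^ d * RamCov.bas K d (some (x, y)) k) (RamCov.bas (F) d none k) := by
  obtain ⟨hx0, ht⟩ := ZH_inv hx
  obtain ⟨t, htdef⟩ : ∃ t, t = x⁻¹ := ⟨_, rfl⟩
  rw [← htdef] at ht ⊢
  have hxt : x * t = 1 := by rw [htdef]; exact mul_inv_cancel₀ hx0
  obtain ⟨s, hsdef⟩ : ∃ s, s = y * t ^ 2 := ⟨_, rfl⟩
  have hs2 : s ^ 2 = t + A * t ^ 3 + B * t ^ 4 := by
    have e1 : s ^ 2 = y ^ 2 * t ^ 4 := by rw [hsdef]; ring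
    rw [e1, he]
    have e2 : x ^ 3 * t ^ 4 = t := by
      have : x ^ 3 * t ^ 4 = (x * t) ^ 3 * t := by ring
      rw [this, hxt]; ring
    have e3 : x * t ^ 4 = t ^ 3 := by
      have : x * t ^ 4 = (x * t) * t ^ 3 := by ring
      rw [this, hxt]; ring
    linear_combination e2 + A * e3
  have hs2r : Rf π (s ^ 2) 0 := by
    rw [hs2]
    have h3 := (ht.add ((rf_res hA).mul (ht.pow 3))).add ((rf_res hB).mul (ht.pow 4))
    simpa using h3
  have hs : Rf π s 0 := by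
    obtain ⟨h3, h4⟩ := ZH_sq hs2r
    have h5 : rf π s = 0 := (pow_eq_zero_iff two_ne_zero).1 h4
    rwa [h5] at h3
  rcases k with i | i
  · show Rf π (t ^ d * x ^ (i : ℕ)) (if i = Fin.last d then 1 else 0)
    have hi : (i : ℕ) ≤ d := Nat.lt_succ_iff.1 i.2
    have e4 : t ^ d * x ^ (i : ℕ) = t ^ (d - (i : ℕ)) := by
      have e5 : t ^ d = t ^ (i : ℕ) * t ^ (d - (i : ℕ)) := by rw [← pow_add, Nat.add_sub_cancel' hi]
      have e6 : x ^ (i : ℕ) * t ^ (i : ℕ) = 1 := by rw [← mul_pow, hxt, one_pow]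
      rw [e5]
      linear_combination (t ^ (d - (i : ℕ))) * e6
    rw [e4]
    by_cases hl : i = Fin.last d
    · have h6 : (i : ℕ) = d := by rw [hl]; rfl
      rw [if_pos hl, h6, Nat.sub_self, pow_zero]
      exact Rf.one
    · have h6 : (i : ℕ) < d := lt_of_le_of_ne hi fun h7 => hl (Fin.ext (by rw [h7]; rfl))
      rw [if_neg hl]
      have h7 := ht.pow (d - (i : ℕ))
      rwa [zero_pow (by omega)] at h7
  · show Rf π (t ^ d * (x ^ (i : ℕ) * y)) 0
    have hi : (i : ℕ) < d - 1 := i.2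
    have hi2 : (i : ℕ) + 2 ≤ d := by omega
    have e4 : t ^ d * (x ^ (i : ℕ) * y) = t ^ (d - ((i : ℕ) + 2)) * s := by
      have e5 : t ^ d = t ^ (i : ℕ) * t ^ 2 * t ^ (d - ((i : ℕ) + 2)) := by
        rw [← pow_add, ← pow_add, Nat.add_sub_cancel' hi2]
      have e6 : x ^ (i : ℕ) * t ^ (i : ℕ) = 1 := by rw [← mul_pow, hxt, one_pow]
      rw [e5, hsdef]
      linear_combination (t ^ 2 * y * t ^ (d - ((i : ℕ) + 2))) * e6
    rw [e4]
    have h7 := (ht.pow (d - ((i : ℕ) + 2))).mul hs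
    rwa [mul_zero] at h7

private theorem ZH_mo {K : Type} [Field K] {m n : ℕ} (c : K) (u : Fin (m + 1) → K) (e : MWS.Mo m n) :
    MWS.mo (fun l => c * u l) e = c ^ n * MWS.mo u e := by
  unfold MWS.mo
  simp only [mul_pow]
  rw [Finset.prod_mul_distrib, Finset.prod_pow_eq_pow_sum, e.2]

private theorem ZH_mo_rd {π : PF K F} {m n : ℕ} {u : Fin (m + 1) → K} {y : Fin (m + 1) → F}
    (h : ∀ l, Rf π (u l) (y l)) (e : MWS.Mo m n) : Rf π (MWS.mo u e) (MWS.mo y e) :=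
  Rf.prod _ fun l _ => (h l).pow _

end

theorem rho_exF {K F : Type} [Field K] [Field F] (π : PF K F) {A B : K} (hA : A ∈ π.V) (hB : B ∈ π.V) (P : Pt A B) :
    ∃ ρ : K, ρ ≠ 0 ∧ ∀ (d : ℕ) (k : RamCov.Ix d),
      Rf π (ρ ^ (2 * d) * RamCov.bas K d (opK P) k) (RamCov.bas F d (rdF π P) k) := by
  classical
  rcases P with _ | ⟨x, y, hxy⟩
  · refine ⟨1, one_ne_zero, fun d k => ?_⟩
    rw [one_pow, one_mul]
    rcases k with i | i
    · show Rf π (if i = Fin.last d then 1 else 0) (if i = Fin.last d then 1 else 0)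
      by_cases hi : i = Fin.last d
      · rw [if_pos hi, if_pos hi]
        exact Rf.one
      · rw [if_neg hi, if_neg hi]
        exact Rf.zero
    · exact Rf.zero
  · have he : y ^ 2 = x ^ 3 + A * x + B := (EK_eqn A B x y).1 hxy.1
    by_cases hx : x ∈ π.V
    · have h1 : rdF π (.some x y hxy : Pt A B) = some (rf π x, rf π y) := by
        unfold rdF
        exact if_pos hx
      rw [h1]
      have hy : y ∈ π.V := (den_xyK π hA hB he).1 hx
      refine ⟨1, one_ne_zero, fun d k => ?_⟩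
      rw [one_pow, one_mul]
      rcases k with i | i
      · show Rf π (x ^ (i : ℕ)) (rf π x ^ (i : ℕ))
        exact (rf_res hx).pow _
      · show Rf π (x ^ (i : ℕ) * y) (rf π x ^ (i : ℕ) * rf π y)
        exact ((rf_res hx).pow _).mul (rf_res hy)
    · have h1 : rdF π (.some x y hxy : Pt A B) = none := by
        unfold rdF
        exact if_neg hx
      rw [h1]
      obtain ⟨hx0, ht⟩ := ZH_inv hx
      have hxt : x * x⁻¹ = 1 := mul_inv_cancel₀ hx0
      have ht0 : x⁻¹ ≠ 0 := inv_ne_zero hx0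
      have hv : Rf π (1 + A * (x⁻¹) ^ 2 + B * (x⁻¹) ^ 3) 1 := by
        have h3 := (Rf.one.add ((rf_res hA).mul (ht.pow 2))).add ((rf_res hB).mul (ht.pow 3))
        simpa using h3
      have hv0 : 1 + A * (x⁻¹) ^ 2 + B * (x⁻¹) ^ 3 ≠ 0 := by
        intro h0
        rw [h0] at hv
        exact one_ne_zero (hv.unique Rf.zero)
      have hsq : (y * (x⁻¹) ^ 2) ^ 2 = x⁻¹ * (1 + A * (x⁻¹) ^ 2 + B * (x⁻¹) ^ 3) := by
        have e1 : (y * (x⁻¹) ^ 2) ^ 2 = y ^ 2 * (x⁻¹) ^ 4 := by ring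
        rw [e1, he]
        have e2 : x ^ 3 * (x⁻¹) ^ 4 = x⁻¹ := by
          have : x ^ 3 * (x⁻¹) ^ 4 = (x * x⁻¹) ^ 3 * x⁻¹ := by ring
          rw [this, hxt]; ring
        have e3 : x * (x⁻¹) ^ 4 = (x⁻¹) ^ 3 := by
          have : x * (x⁻¹) ^ 4 = (x * x⁻¹) * (x⁻¹) ^ 3 := by ring
          rw [this, hxt]; ring
        linear_combination e2 + A * e3
      have hs0 : y * (x⁻¹) ^ 2 ≠ 0 := by
        intro h0
        rw [h0, zero_pow two_ne_zero] at hsq
        exact mul_ne_zero ht0 hv0 hsq.symm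
      refine ⟨y * (x⁻¹) ^ 2, hs0, fun d k => ?_⟩
      have e : (y * (x⁻¹) ^ 2) ^ (2 * d) * RamCov.bas K d (opK (.some x y hxy : Pt A B)) k =
          (1 + A * (x⁻¹) ^ 2 + B * (x⁻¹) ^ 3) ^ d * ((x⁻¹) ^ d * RamCov.bas K d (some (x, y)) k) := by
        rw [pow_mul, hsq, mul_pow]
        show (x⁻¹) ^ d * (1 + A * (x⁻¹) ^ 2 + B * (x⁻¹) ^ 3) ^ d * RamCov.bas K d (some (x, y)) k = _
        ring
      rw [e]
      have h5 := (hv.pow d).mul (ZH_red (d := d) hA hB he hx k)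
      rw [one_pow, one_mul] at h5
      exact h5

theorem sec_rf {K F : Type} [Field K] [Field F] (π : PF K F) {M g s : ℕ} {ι : Type} [Fintype ι] {ν : Fin s → ℕ}
    {d : Fin s → Fin g → ℕ} (E : Fin s → ι → Fin 0 → ℤ) {A B : Fin g → K} (a : IxM ι M ν d → K) (a' : IxM ι M ν d → F)
    (ha : ∀ t, Rf π (a t) (a' t)) (P : (l : Fin g) → Pt (A l) (B l)) (ρ : Fin g → K)
    (hρ : ∀ l (d : ℕ) (k : RamCov.Ix d), Rf π (ρ l ^ (2 * d) * RamCov.bas K d (opK (P l)) k)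
      (RamCov.bas F d (rdF π (P l)) k)) (u : Fin (M + 1) → K) (c0 : K) (y' : Fin (M + 1) → F)
    (hR : ∀ l, Rf π (c0 * u l) (y' l)) (j : Fin s) :
    Rf π (c0 ^ ν j * (∏ l, ρ l ^ (2 * d j l)) * sM E a Fin.elim0 (fun l => opK (P l)) u j)
      (sM E a' Fin.elim0 (fun l => rdF π (P l)) y' j) := by
  have h2 : c0 ^ ν j * (∏ l, ρ l ^ (2 * d j l)) * sM E a Fin.elim0 (fun l => opK (P l)) u j =
      ∑ t : MWS.Mo M (ν j) × IxT ι (d j), a ⟨j, t⟩ *
        (MWS.mo (fun l => c0 * u l) t.1 * ((∏ l : Fin 0, (Fin.elim0 l : K) ^ E j t.2.1 l) *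
          ∏ l, (ρ l ^ (2 * d j l) * RamCov.bas K (d j l) (opK (P l)) (t.2.2 l)))) := by
    unfold sM
    rw [Finset.mul_sum]
    refine Finset.sum_congr rfl fun t _ => ?_
    rw [ZH_mo, Finset.prod_mul_distrib]
    unfold bT
    ring
  rw [h2]
  unfold sM
  refine Rf.sum _ fun t _ => (ha ⟨j, t⟩).mul ((ZH_mo_rd hR t.1).mul ?_)
  unfold bT
  exact (Rf.prod _ fun l _ => l.elim0).mul (Rf.prod _ fun l _ => hρ l (d j l) (t.2.2 l))

end OCM
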