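import Pool.Agent.Lib.MP_17a322_ntOC.ZH
import Pool.Agent.Lib.MP_17a322_ntFY.B3
import Pool.Agent.Lib.MP_17a322_ntFB.PG

/-!
# LEAF ZI: the points satisfy the local conditions at the prime ideals

PROOF.  Compare `adm_RG` (`Pool/Agent/Lib/MP_17a322_ntVU/G5.lean`), `adm_RYV` (`Pool/Agent/Lib/MP_17a322_ntFY/B3.lean`), `adm_RAG` (`Pool/Agent/Lib/MP_17a322_ntFB/PG.lean`).  `c0 ≠ 0` and `y' ≠ 0` with `Rf (pV v) (c0 * u l) (y' l)`: copy the private lemma `B3_scale`; `ρ l` from `rho_exF (pV v) (int_mem _ A) (int_mem _ B) (P l)`; `sec_rf` for the coefficients `cf ω c` (private lemma `B3_cf`, copy it) and for `b` (`rf_res`, `int_mem`), with the points `P (Fin.castAdd 0 l)` and scalings `ρ (Fin.castAdd 0 l)`; `Rf.unique`, `Rf.zero`.  The point is on the curve: `rdF_on v A B (P _)`.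
`j ∈ R`: `γ j * (t * (c0 ^ (ν j / ex j) * ∏ l, ρ l ^ (2 * d j l / ex j))) ^ ex j = c0 ^ ν j * (∏ l, ρ l ^ (2 * d j l)) * value`, and the power lemma: copy the private lemma `PG_pow` of `PG.lean` (`γ' ≠ 0` as `γ j` and its inverse are in `V`).
-/

namespace OCM

open Finset NumberField VK FB IsDedekindDomain

private theorem ZI_scale {K F : Type} [Field K] [Field F] (π : PF K F) {s : ℕ} (y : Fin s → K) (hy : y ≠ 0) :
    ∃ (c : K) (y' : Fin s → F), c ≠ 0 ∧ y' ≠ 0 ∧ ∀ l, Rf π (c * y l) (y' l) := by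
  obtain ⟨i, hi⟩ := Function.ne_iff.1 hy
  obtain ⟨k, -, hk⟩ := Finset.exists_max_image Finset.univ (fun l => π.V.valuation (y l)) ⟨i, Finset.mem_univ i⟩
  have hk0 : y k ≠ 0 := by
    intro h1
    have h2 := hk i (Finset.mem_univ i)
    rw [h1, map_zero] at h2
    exact hi (π.V.valuation.zero_iff.1 (le_antisymm h2 zero_le))
  have hm : ∀ l, (y k)⁻¹ * y l ∈ π.V := by
    intro l
    rw [← ValuationSubring.valuation_le_one_iff, map_mul, map_inv₀]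
    have h2 := hk l (Finset.mem_univ l)
    have h3 : π.V.valuation (y k) ≠ 0 := (π.V.valuation.ne_zero_iff).2 hk0
    calc (π.V.valuation (y k))⁻¹ * π.V.valuation (y l)
        ≤ (π.V.valuation (y k))⁻¹ * π.V.valuation (y k) := mul_le_mul_right h2 _
      _ = 1 := inv_mul_cancel₀ h3
  refine ⟨(y k)⁻¹, fun l => π.ρ ⟨_, hm l⟩, inv_ne_zero hk0, ?_, fun l => ⟨hm l, rfl⟩⟩
  intro h1
  have h2 : π.ρ ⟨_, hm k⟩ = 0 := congrFun h1 k
  have h3 : Rf π ((y k)⁻¹ * y k) 0 := ⟨hm k, h2⟩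
  rw [inv_mul_cancel₀ hk0] at h3
  exact one_ne_zero (Rf.one.unique h3 : (1 : F) = 0)

private theorem ZI_cf {K F : Type} [Field K] [NumberField K] [Field F] {p : ℕ} [CharP F p] (π : PF K F)
    {τ : Type} {e : ℕ} (ω : Fin e → 𝓞 K) (c : τ × Fin e → ℤ) (t : τ) :
    Rf π (cf ω c t) (∑ k, (ZMod.cast (((c (t, k) : ℤ)) : ZMod p) : F) * rf π ((ω k : 𝓞 K) : K)) := by
  have h1 := el_rf π ω (fun k => c (t, k))
  have h2 : (∑ k, (ZMod.cast (((c (t, k) : ℤ)) : ZMod p) : F) * rf π ((ω k : 𝓞 K) : K))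
      = ∑ k, ((c (t, k) : ℤ) : F) * rf π ((ω k : 𝓞 K) : K) := by
    refine Finset.sum_congr rfl fun k _ => ?_
    rw [ZMod.cast_intCast']
  rw [h2]
  exact h1

private theorem ZI_pow {K F : Type} [Field K] [Field F] {π : PF K F} {q : ℕ} (hq : 1 ≤ q) {γ w v₀ : K} {γ' v : F}
    (hγ : Rf π γ γ') (hγ0 : γ' ≠ 0) (hv : Rf π v₀ v) (h : γ * w ^ q = v₀) : ∃ s : F, γ' * s ^ q = v := by
  by_cases hw : w ∈ π.V
  · have h1 := rf_res hw
    have h2 := hγ.mul (h1.pow q)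
    rw [h] at h2
    exact ⟨_, h2.unique hv⟩
  · have hw0 : w ≠ 0 := by
      intro h1
      rw [h1] at hw
      exact hw π.V.zero_mem
    have h1 : w⁻¹ ∈ π.V := (π.V.mem_or_inv_mem w).resolve_left hw
    have h2 : Rf π w⁻¹ 0 := ⟨h1, π.ker ⟨w⁻¹, h1⟩ (by
      show (w⁻¹)⁻¹ ∉ π.V
      rw [inv_inv]
      exact hw)⟩
    have h3 := hv.mul (h2.pow q)
    rw [← h, mul_assoc, ← mul_pow, mul_inv_cancel₀ hw0, one_pow, mul_one, zero_pow (by omega), mul_zero] at h3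
    exact absurd (hγ.unique h3) hγ0

theorem adm_RW {K : Type} [Field K] [NumberField K] {h M w s e : ℕ} {κ ι : Type} [Fintype κ] [Fintype ι]
    {A' B' : Fin h → 𝓞 K} {δ : Fin w → ℕ} {d' : Fin w → Fin h → ℕ} (E' : Fin w → κ → Fin 0 → ℤ) (b : IxM κ M δ d' → 𝓞 K) {ν : Fin s → ℕ}
    {d : Fin s → Fin (h + 0) → ℕ} (E : Fin s → ι → Fin 0 → ℤ) (ω : Fin e → 𝓞 K) (R : Finset (Fin s)) (ex : Fin s → ℕ)
    (hex : ∀ j ∈ R, 1 ≤ ex j ∧ ex j ∣ ν j ∧ ∀ l, ex j ∣ 2 * d j l) (c : IxM ι M ν d × Fin e → ℤ)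
    (P : (l : Fin (h + 0)) → Pt ((A' l : 𝓞 K) : K) ((B' l : 𝓞 K) : K)) (u : Fin (M + 1) → K) (hu : u ≠ 0) (γ : Fin s → K)
    (hY : ∀ k, sM E' (fun t => ((b t : 𝓞 K) : K)) Fin.elim0 (fun l => opK (P (Fin.castAdd 0 l))) u k = 0)
    (hR : ∀ j ∈ R, ∃ t : K, γ j * t ^ ex j = sM E (cf ω c) Fin.elim0 (fun l => opK (P l)) u j)
    (h0 : ∀ j ∉ R, sM E (cf ω c) Fin.elim0 (fun l => opK (P l)) u j = 0) (v : HeightOneSpectrum (𝓞 K)) (p : ℕ)
    (hp : p.Prime) (hc : CharP (RF v) p)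
    (hγ : ∀ j ∈ R, γ j ≠ 0 ∧ γ j ∈ (pV v).V ∧ (γ j)⁻¹ ∈ (pV v).V) :
    (fun i => ((c i : ℤ) : ZMod p)) ∈
      RW A' B' R ex E' b ν d E ω γ v p (fun l => rdF (pV v) (P l)) := by
  have := hc
  obtain ⟨c0, y', -, hy', hR'⟩ := ZI_scale (pV v) u hu
  choose ρ _ hρ using fun l : Fin (h + 0) =>
    rho_exF (pV v) (int_mem (pV v) (A' l)) (int_mem (pV v) (B' l)) (P l)
  have hsec : ∀ j, Rf (pV v) (c0 ^ ν j * (∏ l, ρ l ^ (2 * d j l)) *
      sM E (cf ω c) Fin.elim0 (fun l => opK (P l)) u j)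
      (sM E (fun t => ∑ k, (ZMod.cast (((c (t, k) : ℤ)) : ZMod p) : RF v) *
        rf (pV v) ((ω k : 𝓞 K) : K)) Fin.elim0 (fun l => rdF (pV v) (P l)) y' j) := fun j =>
    sec_rf (pV v) E (cf ω c) _ (fun t => ZI_cf (pV v) ω c t) P ρ hρ u c0 y' hR' j
  refine ⟨fun l => rdF_on v (A' l) (B' l) (P (Fin.castAdd 0 l)), y', hy', fun k => ?_, fun j hj => ?_,
    fun j hj => ?_⟩
  · have h1 := sec_rf (pV v) E' (fun t => ((b t : 𝓞 K) : K)) (fun t => rf (pV v) ((b t : 𝓞 K) : K))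
      (fun t => rf_res (int_mem (pV v) (b t))) (fun l : Fin h => P (Fin.castAdd 0 l))
      (fun l => ρ (Fin.castAdd 0 l)) (fun l d k => hρ (Fin.castAdd 0 l) d k) u c0 y' hR' k
    rw [hY k, mul_zero] at h1
    exact h1.unique Rf.zero
  · obtain ⟨t, ht⟩ := hR j hj
    obtain ⟨hex1, hex2, hex3⟩ := hex j hj
    obtain ⟨hγ0, hγ1, hγ2⟩ := hγ j hj
    have hγ' : rf (pV v) (γ j) ≠ 0 := by
      intro h0
      rcases (res_zero (pV v) hγ1).1 h0 with h3 | h3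
      · exact hγ0 h3
      · exact h3 hγ2
    refine ZI_pow (w := t * (c0 ^ (ν j / ex j) * ∏ l, ρ l ^ (2 * d j l / ex j))) hex1 (rf_res hγ1) hγ'
      (hsec j) ?_
    have h4 : (∏ l, ρ l ^ (2 * d j l / ex j)) ^ ex j = ∏ l, ρ l ^ (2 * d j l) := by
      rw [← Finset.prod_pow]
      refine Finset.prod_congr rfl fun l _ => ?_
      rw [← pow_mul, Nat.div_mul_cancel (hex3 l)]
    rw [mul_pow, mul_pow, ← pow_mul, Nat.div_mul_cancel hex2, h4, ← mul_assoc, ht]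
    ring
  · have h1 := hsec j
    rw [h0 j hj, mul_zero] at h1
    exact h1.unique Rf.zero

end OCM
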