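import Pool.Agent.Lib.MP_17a322_ntFB.PG
import Pool.Agent.Lib.MP_17a322_ntOC.TE

/-!
# Units at the places with any residue field
-/

namespace OCM

open Finset NumberField VK VU FB IsDedekindDomain

theorem v_char {K : Type} [Field K] [NumberField K] {v : HeightOneSpectrum (𝓞 K)} {p : ℕ} (hp : p.Prime)
    (hc : CharP (RF v) p) : FinitePlace.mk v (p : K) < 1 := by
  have h1 : ((p : ℕ) : 𝓞 K) ∈ v.asIdeal := (char_mem hp).1 hc
  have h2 := (FinitePlace.norm_lt_one_iff_mem K v ((p : ℕ) : 𝓞 K)).2 h1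
  rw [map_natCast (algebraMap (𝓞 K) K)] at h2
  rw [FinitePlace.mk_apply]
  exact h2

theorem v_le {K : Type} [Field K] [NumberField K] (v : HeightOneSpectrum (𝓞 K)) (x : K) :
    x ∈ (pV v).V ↔ FinitePlace.mk v x ≤ 1 := by
  rw [FinitePlace.mk_apply, FinitePlace.norm_embedding, HeightOneSpectrum.adicAbv_def]
  have h1 : x ∈ (pV v).V ↔ v.valuation K x ≤ 1 := Iff.rfl
  rw [h1]
  have h2 := (WithZeroMulInt.toNNReal_strictMono (HeightOneSpectrum.one_lt_absNorm_nnreal v)).le_iff_le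
    (a := v.valuation K x) (b := 1)
  rw [map_one] at h2
  rw [← h2]
  exact_mod_cast Iff.rfl

theorem v_sup {K F : Type} [Field K] [Field F] {π : PF K F} {Γ₁ Γ₂ : Subgroup Kˣ}
    (h1 : ∀ γ ∈ Γ₁, (γ : K) ∈ π.V ∧ (γ : K)⁻¹ ∈ π.V) (h2 : ∀ γ ∈ Γ₂, (γ : K) ∈ π.V ∧ (γ : K)⁻¹ ∈ π.V) :
    ∀ γ ∈ Γ₁ ⊔ Γ₂, (γ : K) ∈ π.V ∧ (γ : K)⁻¹ ∈ π.V := by
  let U : Subgroup Kˣ :=
    { carrier := {g | (g : K) ∈ π.V ∧ (g : K)⁻¹ ∈ π.V}
      mul_mem' := fun {a b} ha hb => by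
        show ((a * b : Kˣ) : K) ∈ π.V ∧ ((a * b : Kˣ) : K)⁻¹ ∈ π.V
        rw [Units.val_mul, mul_inv]
        exact ⟨π.V.mul_mem _ _ ha.1 hb.1, π.V.mul_mem _ _ ha.2 hb.2⟩
      one_mem' := by
        show ((1 : Kˣ) : K) ∈ π.V ∧ ((1 : Kˣ) : K)⁻¹ ∈ π.V
        rw [Units.val_one, inv_one]
        exact ⟨π.V.one_mem, π.V.one_mem⟩
      inv_mem' := fun {a} ha => by
        show ((a⁻¹ : Kˣ) : K) ∈ π.V ∧ ((a⁻¹ : Kˣ) : K)⁻¹ ∈ π.V
        rw [Units.val_inv_eq_inv_val, inv_inv]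
        exact ⟨ha.2, ha.1⟩ }
  have h : Γ₁ ⊔ Γ₂ ≤ U := sup_le (fun γ hγ => h1 γ hγ) (fun γ hγ => h2 γ hγ)
  exact fun γ hγ => h hγ

theorem v_su {K : Type} [Field K] [NumberField K] {S : Finset (FinitePlace K)} (v : HeightOneSpectrum (𝓞 K))
    (hv : FinitePlace.mk v ∉ S) : ∀ γ ∈ Su S, (γ : K) ∈ (pV v).V ∧ (γ : K)⁻¹ ∈ (pV v).V := by
  intro γ hγ
  have h1 := mem_Su.1 hγ _ hv
  refine ⟨(v_le v _).2 h1.le, (v_le v _).2 ?_⟩
  rw [map_inv₀, h1, inv_one]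

private theorem ZK_int {K : Type} [Field K] [NumberField K] {a : 𝓞 K} (ha : a ≠ 0) {v : HeightOneSpectrum (𝓞 K)} {p : ℕ}
    (hp : p.Prime) (hc : CharP (RF v) p) (h : Ideal.absNorm (Ideal.span {a}) < p) :
    ((a : 𝓞 K) : K) ∈ (pV v).V ∧ ((a : 𝓞 K) : K)⁻¹ ∈ (pV v).V := by
  refine ⟨int_mem (pV v) a, ?_⟩
  by_contra h1
  refine unit_large ha hp hc h ?_
  exact (res_zero (pV v) (int_mem (pV v) a)).2 (Or.inr h1)

theorem v_fg (K : Type) [Field K] [NumberField K] (Γ : Subgroup Kˣ) (hΓ : Γ.FG) : ∃ M : ℕ,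
    ∀ (v : HeightOneSpectrum (𝓞 K)) (p : ℕ), p.Prime → CharP (RF v) p → M < p →
      ∀ g ∈ Γ, (g : K) ∈ (pV v).V ∧ (g : K)⁻¹ ∈ (pV v).V := by
  classical
  obtain ⟨S, hS⟩ := hΓ
  have h : ∀ g : Kˣ, ∃ M : ℕ, ∀ (v : HeightOneSpectrum (𝓞 K)) (p : ℕ), p.Prime → CharP (RF v) p → M < p →
      (g : K) ∈ (pV v).V ∧ (g : K)⁻¹ ∈ (pV v).V := by
    intro g
    obtain ⟨a, b, hb, hab⟩ := IsFractionRing.div_surjective (A := 𝓞 K) (g : K)
    have hb0 : b ≠ 0 := nonZeroDivisors.ne_zero hb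
    have ha0 : a ≠ 0 := by
      rintro rfl
      rw [map_zero, zero_div] at hab
      exact g.ne_zero hab.symm
    refine ⟨Ideal.absNorm (Ideal.span {a}) + Ideal.absNorm (Ideal.span {b}), fun v p hp hc hM => ?_⟩
    obtain ⟨h1, h2⟩ := ZK_int ha0 hp hc (by omega)
    obtain ⟨h3, h4⟩ := ZK_int hb0 hp hc (by omega)
    have e1 : (g : K) = ((a : 𝓞 K) : K) * ((b : 𝓞 K) : K)⁻¹ := by
      rw [← hab, div_eq_mul_inv]
    rw [e1, mul_inv, inv_inv]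
    exact ⟨(pV v).V.mul_mem _ _ h1 h4, (pV v).V.mul_mem _ _ h2 h3⟩
  choose M hM using h
  refine ⟨∑ g ∈ S, M g, fun v p hp hc hMp => ?_⟩
  have hcl : Γ ≤ ({ carrier := {g | (g : K) ∈ (pV v).V ∧ (g : K)⁻¹ ∈ (pV v).V}
                    mul_mem' := fun {a b} ha hb => by
                      show ((a * b : Kˣ) : K) ∈ (pV v).V ∧ ((a * b : Kˣ) : K)⁻¹ ∈ (pV v).V
                      rw [Units.val_mul, mul_inv]
                      exact ⟨(pV v).V.mul_mem _ _ ha.1 hb.1, (pV v).V.mul_mem _ _ ha.2 hb.2⟩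
                    one_mem' := by
                      show ((1 : Kˣ) : K) ∈ (pV v).V ∧ ((1 : Kˣ) : K)⁻¹ ∈ (pV v).V
                      rw [Units.val_one, inv_one]
                      exact ⟨(pV v).V.one_mem, (pV v).V.one_mem⟩
                    inv_mem' := fun {a} ha => by
                      show ((a⁻¹ : Kˣ) : K) ∈ (pV v).V ∧ ((a⁻¹ : Kˣ) : K)⁻¹ ∈ (pV v).V
                      rw [Units.val_inv_eq_inv_val, inv_inv]
                      exact ⟨ha.2, ha.1⟩ } : Subgroup Kˣ) := by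
    rw [← hS, Subgroup.closure_le]
    intro x hx
    exact hM x v p hp hc (lt_of_le_of_lt (Finset.single_le_sum (f := M) (fun _ _ => Nat.zero_le _) (Finset.mem_coe.1 hx)) hMp)
  exact fun g hg => hcl hg

end OCM
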