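import Pool.Agent.Lib.MP_17a322_ntOC.TU2
import Pool.Agent.Lib.MP_17a322_ntOC.TP
import Pool.Agent.Lib.MP_17a322_ntOC.TC
import Pool.Agent.Lib.MP_17a322_ntVU.G6
import Pool.Agent.Lib.MP_17a322_ntOC.TD
import Pool.Agent.Lib.MP_17a322_ntOC.ZF
import Pool.Agent.Lib.MP_17a322_ntOC.ZI
import Pool.Agent.Lib.MP_17a322_ntOC.ZK

/-!
# The products of copies of an elliptic curve of rank at most one and of elliptic curves with finitely many points, over any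
number field, all the factors of bounded norm at the same time
-/

namespace OCM

open Finset NumberField VK LVH FB VU IsDedekindDomain

variable {K : Type} [Field K] [NumberField K]

private theorem ZJ_finite {ι : Type} [Fintype ι] (H : ℕ) (X : (ι → ℤ) → Prop) :
    Finite {a : ι → ℤ // (∀ i, |a i| ≤ (H : ℤ)) ∧ X a} := by
  have h1 : Finite {a : ι → ℤ // ∀ i, |a i| ≤ (H : ℤ)} := by
    have h2 : Set.Finite {a : ι → ℤ | ∀ i, |a i| ≤ (H : ℤ)} := by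
      refine Set.Finite.subset (Set.Finite.pi (fun _ => Set.finite_Icc (-(H : ℤ)) H)) fun a ha i _ => ?_
      exact Set.mem_Icc.2 (abs_le.1 (ha i))
    exact h2
  exact Finite.of_injective (β := {a : ι → ℤ // ∀ i, |a i| ≤ (H : ℤ)}) (fun a => ⟨a.1, a.2.1⟩)
    fun a b hab => Subtype.ext (congrArg (fun x => x.1) hab)

private theorem ZJ_union {ι τ : Type} [Fintype ι] [Fintype τ] (H : ℕ) (X : (ι → ℤ) → Prop) (Y : τ → (ι → ℤ) → Prop)
    (h : ∀ a, X a → ∃ i, Y i a) :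
    Nat.card {a : ι → ℤ // (∀ i, |a i| ≤ (H : ℤ)) ∧ X a} ≤
      ∑ i, Nat.card {a : ι → ℤ // (∀ i, |a i| ≤ (H : ℤ)) ∧ Y i a} := by
  have := fun i => ZJ_finite H (Y i)
  rw [← Nat.card_sigma]
  have hex : ∀ a : {a : ι → ℤ // (∀ i, |a i| ≤ (H : ℤ)) ∧ X a}, ∃ i : τ, (∀ i, |a.1 i| ≤ (H : ℤ)) ∧ Y i a.1 := by
    rintro ⟨a, ha, hX⟩
    obtain ⟨i, hi⟩ := h a hX
    exact ⟨i, ha, hi⟩
  choose f hf using hex
  refine Nat.card_le_card_of_injective (fun a => (⟨f a, a.1, hf a⟩ : Σ i : τ,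
    {a : ι → ℤ // (∀ i, |a i| ≤ (H : ℤ)) ∧ Y i a})) ?_
  intro a b hab
  exact Subtype.ext (congrArg (fun x => x.2.1) hab)

/-- the places of `S` are over small primes -/
private theorem ZJ_far (K : Type) [Field K] [NumberField K] (S : Finset (FinitePlace K)) : ∃ p0 : ℕ, ∀ p : ℕ, p.Prime →
    p0 ≤ p → ∀ v : FinitePlace K, v (p : K) < 1 → v ∉ S := by
  obtain ⟨M0, hM0, hM⟩ := exists_M0 K S
  refine ⟨M0 + 1, fun p hp hpM v hv hvS => ?_⟩
  have h1 := hM v hvS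
  have h2 := place_coprime K v hp hv (m := M0) (fun h => by
    have := Nat.le_of_dvd (Nat.pos_of_ne_zero hM0) h
    omega)
  rw [h2] at h1
  exact lt_irrefl _ h1

/-- the number of the places of `S` is small compared with the logarithm of the product of the norms -/
private theorem ZJ_few (K : Type) [Field K] [NumberField K] (X : ℕ) (hX : 2 ≤ X) :
    ∃ n : ℕ, ∀ (S : Finset (FinitePlace K)) (T : ℝ), ∏ v ∈ S, (nrm v : ℝ) ≤ T →
      (S.card : ℝ) * Real.log X ≤ Real.log T + n * Real.log X := by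
  classical
  obtain ⟨C, hC, h⟩ := cnt_nrm K
  have hX1 : (1 : ℝ) ≤ X := by exact_mod_cast (by omega : 1 ≤ X)
  obtain ⟨𝒮, h1, h2, h3⟩ := h X hX1
  refine ⟨𝒮.card, fun S T hT => ?_⟩
  have hn : ∀ v : FinitePlace K, 1 ≤ (nrm v : ℝ) := fun v => by
    have h4 : nrm v ≠ 0 := fun h0 => v.maximalIdeal.ne_bot (Ideal.absNorm_eq_zero_iff.1 h0)
    exact_mod_cast Nat.one_le_iff_ne_zero.2 h4
  have hs : (S.filter fun v => (nrm v : ℝ) ≤ X).card ≤ 𝒮.card := by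
    refine Finset.card_le_card_of_injOn (fun v => {v}) (fun v hv => h1 {v} ?_) ?_
    · rw [prod_singleton]
      exact (mem_filter.1 hv).2
    · intro a _ b _ hab
      exact Finset.singleton_injective hab
  have hb : (X : ℝ) ^ (S.filter fun v => ¬ (nrm v : ℝ) ≤ X).card ≤ T := by
    refine le_trans ?_ hT
    rw [← prod_const]
    refine le_trans (prod_le_prod (fun v _ => by linarith) fun v hv => (not_le.1 (mem_filter.1 hv).2).le) ?_
    exact prod_le_prod_of_subset_of_one_le (filter_subset _ _) (fun v _ => by linarith [hn v]) fun v _ _ => hn v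
  have hXp : (0 : ℝ) < (X : ℝ) ^ (S.filter fun v => ¬ (nrm v : ℝ) ≤ X).card := by positivity
  have h4 := Real.log_le_log hXp hb
  rw [Real.log_pow] at h4
  have h5 : 0 ≤ Real.log X := Real.log_nonneg hX1
  have h6 : (S.card : ℝ) = ((S.filter fun v => (nrm v : ℝ) ≤ X).card : ℝ) +
      ((S.filter fun v => ¬ (nrm v : ℝ) ≤ X).card : ℝ) := by
    exact_mod_cast (Finset.card_filter_add_card_filter_not (s := S) (fun v => (nrm v : ℝ) ≤ X)).symm
  have h7 : (((S.filter fun v => (nrm v : ℝ) ≤ X).card : ℕ) : ℝ) ≤ (𝒮.card : ℝ) := by exact_mod_cast hs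
  rw [h6, add_mul]
  have h8 := mul_le_mul_of_nonneg_right h7 h5
  linarith

private theorem ZJ_cast {K : Type} [Field K] [NumberField K] {A B A1 B1 : K} (h1 : A1 = A) (h2 : B1 = B) (P : Pt A1 B1) :
    ∃ Q : Pt A B, ∀ v : HeightOneSpectrum (𝓞 K), rdF (pV v) Q = rdF (pV v) P := by
  subst h1 h2
  exact ⟨P, fun _ => rfl⟩

open Classical in
/-- the local condition in which the points of the curves of index not in `J` are given -/
private noncomputable def ZJ_R {K : Type} [Field K] [NumberField K] {h : ℕ} {ι : Type} {A' B' : Fin h → 𝓞 K}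
    (J : Fin h → Prop) (R : LocV K (h + 0) ι) (Q : (l : {l // ¬ J l}) → Pt ((A' l.1 : 𝓞 K) : K) ((B' l.1 : 𝓞 K) : K)) :
    LocV K (h + 0) ι := fun v p z =>
  R v p fun l : Fin (h + 0) => if hl : J l then z l else rdF (pV v) (Q ⟨l, hl⟩)

theorem rank_oneF {K : Type} [Field K] [NumberField K] [DecidableEq K] {m0 : ℕ} {ζ : K} (hm0 : 1 ≤ m0)
    (hζ : IsPrimitiveRoot ζ m0) {h r M w : ℕ}
    {κ : Type} [Fintype κ] {δ : Fin w → ℕ} {d' : Fin w → Fin h → ℕ} {A B : 𝓞 K} (hd : ds A B ≠ 0)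
    (hΓ : Module.finrank ℤ (Pt (A : K) (B : K)) ≤ 1) (A' B' : Fin h → 𝓞 K) (hd' : ∀ l, ds (A' l) (B' l) ≠ 0)
    (hE : ∀ l, (A' l = A ∧ B' l = B) ∨ Finite (Pt ((A' l : 𝓞 K) : K) ((B' l : 𝓞 K) : K))) (E' : Fin w → κ → Fin 0 → ℤ)
    (b : IxM κ M δ d' → 𝓞 K) (hF : FibP A' B' E' b r) :
    ∃ (c : ℝ) (ν0 : ℕ), 0 < c ∧ ∀ G : Subgroup Kˣ, G.FG → ∀ (e : ℕ) (ω : Module.Basis (Fin e) ℤ (𝓞 K)) (s : ℕ)
      (ι : Type) [Fintype ι] [DecidableEq ι] [Nonempty ι] (ν : Fin s → ℕ) (E : Fin s → ι → Fin 0 → ℤ)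
      (d : Fin s → Fin (h + 0) → ℕ) (R : Finset (Fin s)) (ex : Fin s → ℕ),
      (∀ j ∈ R, 1 ≤ ex j ∧ ex j ∣ ν j ∧ ∀ l, ex j ∣ 2 * d j l) →
      (r + R.card ≤ s ∨ r + R.card ≤ s + 1 ∧
        ((∃ j, (ν0 ≤ ν j ∨ M = 0) ∧ (j ∈ R → ¬ (ex j).Coprime m0)) ∨
          (w = 0 ∧ R = ∅ ∧ M ≤ s ∧ (∀ j, 1 ≤ ν j) ∧ M + 1 ≤ ∑ j, ν j))) →
      ∃ C : ℝ, ∀ H : ℕ, 1 ≤ H →
        (Nat.card {a : IxM ι M ν d × Fin e → ℤ // (∀ i, |a i| ≤ (H : ℤ)) ∧ ∃ S : Finset (FinitePlace K),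
          ∏ v ∈ S, (nrm v : ℝ) ≤ Real.exp (c * (Real.log (Real.log H)) ^ 2) ∧
          IntQ (g := 0) (G ⊔ Su S) S ∅ ∅ R ex E' (fun t => ((b t : 𝓞 K) : K)) E (fun l : Fin (h + 0) => ((A' l : 𝓞 K) : K))
            (fun l : Fin (h + 0) => ((B' l : 𝓞 K) : K)) (cf ω a)} : ℝ) ≤
          C * (H : ℝ) ^ Fintype.card (IxM ι M ν d × Fin e) * Real.exp (-(c * (Real.log (Real.log H)) ^ 2)) := by
  classical
  obtain ⟨ν0, κ0, hκ0, hκ1, hden⟩ := dens_RW hm0 hζ A' B' E' b (fib_of hF)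
  have hΓ' : Module.finrank ℤ (⊤ : AddSubgroup (Pt (A : K) (B : K))) ≤ 1 := by
    have h1 : Module.finrank ℤ (⊤ : AddSubgroup (Pt (A : K) (B : K))) = Module.finrank ℤ (Pt (A : K) (B : K)) :=
      (AddSubgroup.topEquiv (G := Pt (A : K) (B : K))).toIntLinearEquiv.finrank_eq
    rw [h1]
    exact hΓ
  obtain ⟨c₁, hc₁, hcB⟩ := conclB hd ⊤ hΓ' hκ0
  obtain ⟨CK, hCK0, hCK⟩ := cnt_nrm K
  refine ⟨c₁ / 4, ν0, by positivity, fun G hG e ω s ι _ _ _ ν E d R ex hex hi => ?_⟩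
  have hdK : ∀ l : Fin (h + 0), ds ((A' l : 𝓞 K) : K) ((B' l : 𝓞 K) : K) ≠ 0 := by
    intro l h1
    apply hd' l
    apply NumberField.RingOfIntegers.coe_injective
    rw [map_zero, ← h1]
    have h4 : (algebraMap (𝓞 K) K) 4 = 4 := map_ofNat _ 4
    have h27 : (algebraMap (𝓞 K) K) 27 = 27 := map_ofNat _ 27
    simp only [ds, map_add, map_mul, map_pow, h4, h27]
  -- the curves with finitely many points
  obtain ⟨J, hJd⟩ : ∃ J : Fin h → Prop, ∀ l, J l ↔ (A' l = A ∧ B' l = B) := ⟨_, fun _ => Iff.rfl⟩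
  have hfin : ∀ l : {l // ¬ J l}, Finite (Pt ((A' l.1 : 𝓞 K) : K) ((B' l.1 : 𝓞 K) : K)) := fun l =>
    (hE l.1).resolve_left fun h1 => l.2 ((hJd _).2 h1)
  have hT : Finite ((l : {l // ¬ J l}) → Pt ((A' l.1 : 𝓞 K) : K) ((B' l.1 : 𝓞 K) : K)) := Pi.finite
  obtain ⟨hTf⟩ := nonempty_fintype ((l : {l // ¬ J l}) → Pt ((A' l.1 : 𝓞 K) : K) ((B' l.1 : 𝓞 K) : K))
  obtain ⟨NT, hNT⟩ : ∃ NT : ℕ, NT = Fintype.card ((l : {l // ¬ J l}) → Pt ((A' l.1 : 𝓞 K) : K) ((B' l.1 : 𝓞 K) : K)) :=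
    ⟨_, rfl⟩
  -- the density
  obtain ⟨p0, hp0⟩ := hden s e ι ν d E ω R ex (fun j hj => (hex j hj).2.1) hi
  -- the places
  obtain ⟨S1, -, hS1⟩ := scale K ∅
  obtain ⟨p2, hp2⟩ := ZJ_far K S1
  obtain ⟨t1, ht1⟩ := fg_cls K (G ⊔ Su S1) (hG.sup (Su_fg S1)) s
  have ht1' : TCls (G ⊔ Su S1) s t1 := ht1
  obtain ⟨M₀, hM₀⟩ := v_fg K G hG
  obtain ⟨pm, hpm⟩ : ∃ pm : ℕ, pm = max p0 (max p2 (M₀ + 1)) := ⟨_, rfl⟩
  have hpm0 : p0 ≤ pm := by rw [hpm]; exact le_max_left _ _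
  have hpm2 : p2 ≤ pm := by rw [hpm]; exact (le_max_left _ _).trans (le_max_right _ _)
  have hpm1 : M₀ + 1 ≤ pm := by rw [hpm]; exact (le_max_right _ _).trans (le_max_right _ _)
  obtain ⟨C, hC⟩ := hcB (h + 0) pm (Fintype.card (IxM ι M ν d × Fin e))
  -- the classes
  obtain ⟨m, hm, hmd⟩ : ∃ m : ℕ, 1 ≤ m ∧ ∀ j ∈ R, ex j ∣ m :=
    ⟨∏ j ∈ R, ex j, Nat.one_le_iff_ne_zero.2 (Finset.prod_ne_zero_iff.2 fun j hj => by
      have := (hex j hj).1
      omega), fun j hj => Finset.dvd_prod_of_mem ex hj⟩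
  obtain ⟨X, hX, hXm⟩ : ∃ X : ℕ, 2 ≤ X ∧ Real.log m * s ≤ Real.log X := by
    refine ⟨2 * m ^ s, by
      have := Nat.one_le_pow s m hm
      omega, ?_⟩
    have hm0 : (0 : ℝ) < m := by exact_mod_cast hm
    push_cast
    rw [Real.log_mul (by norm_num) (by positivity), Real.log_pow]
    have := Real.log_nonneg (show (1 : ℝ) ≤ 2 by norm_num)
    linarith
  obtain ⟨nX, hnX⟩ := ZJ_few K X hX
  have hlX : 0 < Real.log X := Real.log_pos (by exact_mod_cast (by omega : 1 < X))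
  have hlm : 0 ≤ Real.log m := Real.log_nonneg (by exact_mod_cast hm)
  refine ⟨CK * Real.exp (Real.log m * (t1 + s * nX)) * (NT * |C|), fun H hH => ?_⟩
  obtain ⟨L, hL⟩ : ∃ L : ℝ, L = (Real.log (Real.log H)) ^ 2 := ⟨_, rfl⟩
  have hL0 : 0 ≤ L := by rw [hL]; exact sq_nonneg _
  rw [← hL]
  obtain ⟨𝒮, h𝒮1, h𝒮2, h𝒮3⟩ := hCK (Real.exp (c₁ / 4 * L)) (Real.one_le_exp (by positivity))
  have hSc : ∀ S ∈ 𝒮, (S.card : ℝ) ≤ c₁ * L ∧
      Real.log m * ((t1 : ℝ) + ((s * S.card : ℕ) : ℝ)) ≤ Real.log m * (t1 + s * nX) + c₁ / 4 * L := by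
    intro S hS
    have h1 := h𝒮2 S hS
    have h0 : (0 : ℝ) ≤ S.card := Nat.cast_nonneg _
    constructor
    · have h2 := card_nrm h1
      rw [Real.log_exp] at h2
      have h3 : (1 : ℝ) / 4 ≤ Real.log 2 := by
        have := Real.log_two_gt_d9
        linarith
      nlinarith
    · have h2 := hnX S _ h1
      rw [Real.log_exp] at h2
      push_cast
      have hmn : 0 ≤ Real.log m * s := by positivity
      have hcL : 0 ≤ c₁ / 4 * L := by positivity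
      rcases le_total (S.card : ℝ) nX with h4 | h4
      · have h5 := mul_le_mul_of_nonneg_left h4 hmn
        nlinarith
      · have h5 : Real.log m * s * ((S.card : ℝ) - nX) ≤ Real.log X * ((S.card : ℝ) - nX) :=
          mul_le_mul_of_nonneg_right hXm (by linarith)
        nlinarith
  choose rr hrr1 hrr2 using fun S : Finset (FinitePlace K) => tcls_su hS1 ht1' S m hm
  choose Bd hBd1 hBd2 using fun S : Finset (FinitePlace K) => below S
  have hunit : ∀ (S : Finset (FinitePlace K)) (v : HeightOneSpectrum (𝓞 K)) (p : ℕ), p.Prime → CharP (RF v) p → pm ≤ p →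
      p ∉ Bd S → ∀ γ ∈ G ⊔ Su (S1 ∪ S), (γ : K) ∈ (pV v).V ∧ (γ : K)⁻¹ ∈ (pV v).V := by
    intro S v p hp hc hpp hpB
    refine v_sup (fun γ hγ => hM₀ v p hp hc (by omega) γ hγ) (v_su v fun hvS => ?_)
    rcases mem_union.1 hvS with h3 | h3
    · exact hp2 p hp (hpm2.trans hpp) _ (v_char hp hc) h3
    · exact hBd2 S p hp hpB _ (v_char hp hc) h3
  have hone0 : ∀ S ∈ 𝒮, ∀ (i) (Q : (l : {l // ¬ J l}) → Pt ((A' l.1 : 𝓞 K) : K) ((B' l.1 : 𝓞 K) : K)), (Nat.card {a : IxM ι M ν d × Fin e → ℤ // (∀ i, |a i| ≤ (H : ℤ)) ∧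
      ∃ P : Fin (h + 0) → Pt (A : K) (B : K), (∀ l, P l ∈ (⊤ : AddSubgroup (Pt (A : K) (B : K)))) ∧
      AdmB pm (Bd S) (ZJ_R J (RW A' B' R ex E' b ν d E ω fun j => (rr S i j : K)) Q) a P} : ℝ) ≤
      |C| * (H : ℝ) ^ Fintype.card (IxM ι M ν d × Fin e) * Real.exp (-(c₁ * L)) := by
    intro S hS i Q
    have h1 := hC H hH (Bd S) (by
      rw [← hL]
      exact le_trans (by exact_mod_cast hBd1 S) (hSc S hS).1) (IxM ι M ν d × Fin e) rfl _
      (fun v p hp hc hpp _ z => by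
        have h2 := hp0 (fun j => (rr S i j : K)) v p hp hc (hpm0.trans hpp) fun l : Fin (h + 0) =>
          if hl : J l then z l else rdF (pV v) (Q ⟨l, hl⟩)
        exact h2)
    rw [← hL] at h1
    refine h1.trans ?_
    refine mul_le_mul_of_nonneg_right (mul_le_mul_of_nonneg_right (le_abs_self C) (by positivity)) (Real.exp_pos _).le
  have hone : ∀ S ∈ 𝒮, ∀ i, (Nat.card {a : IxM ι M ν d × Fin e → ℤ // (∀ i, |a i| ≤ (H : ℤ)) ∧
      ∃ (Q : (l : {l // ¬ J l}) → Pt ((A' l.1 : 𝓞 K) : K) ((B' l.1 : 𝓞 K) : K)) (P : Fin (h + 0) → Pt (A : K) (B : K)),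
        (∀ l, P l ∈ (⊤ : AddSubgroup (Pt (A : K) (B : K)))) ∧
      AdmB pm (Bd S) (ZJ_R J (RW A' B' R ex E' b ν d E ω fun j => (rr S i j : K)) Q) a P} : ℝ) ≤
      (NT * |C|) * (H : ℝ) ^ Fintype.card (IxM ι M ν d × Fin e) * Real.exp (-(c₁ * L)) := by
    intro S hS i
    have h1 := ZJ_union (ι := IxM ι M ν d × Fin e)
      (τ := (l : {l // ¬ J l}) → Pt ((A' l.1 : 𝓞 K) : K) ((B' l.1 : 𝓞 K) : K)) H
      (fun a => ∃ (Q : (l : {l // ¬ J l}) → Pt ((A' l.1 : 𝓞 K) : K) ((B' l.1 : 𝓞 K) : K)) (P : Fin (h + 0) → Pt (A : K) (B : K)),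
        (∀ l, P l ∈ (⊤ : AddSubgroup (Pt (A : K) (B : K)))) ∧
        AdmB pm (Bd S) (ZJ_R J (RW A' B' R ex E' b ν d E ω fun j => (rr S i j : K)) Q) a P)
      (fun Q a => ∃ P : Fin (h + 0) → Pt (A : K) (B : K), (∀ l, P l ∈ (⊤ : AddSubgroup (Pt (A : K) (B : K)))) ∧
        AdmB pm (Bd S) (ZJ_R J (RW A' B' R ex E' b ν d E ω fun j => (rr S i j : K)) Q) a P)
      (fun a ⟨Q, hQ⟩ => ⟨Q, hQ⟩)
    refine le_trans (Nat.cast_le.2 h1) ?_
    rw [Nat.cast_sum]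
    refine (sum_le_sum fun Q _ => hone0 S hS i Q).trans ?_
    rw [sum_const, card_univ, nsmul_eq_mul, ← hNT]
    exact le_of_eq (by ring)
  have hun := ZJ_union (ι := IxM ι M ν d × Fin e) (τ := Σ S : 𝒮, Fin (m ^ (t1 + s * S.1.card))) H
    (fun a => ∃ S : Finset (FinitePlace K), ∏ v ∈ S, (nrm v : ℝ) ≤ Real.exp (c₁ / 4 * L) ∧
          IntQ (g := 0) (G ⊔ Su S) S ∅ ∅ R ex E' (fun t => ((b t : 𝓞 K) : K)) E (fun l : Fin (h + 0) => ((A' l : 𝓞 K) : K))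
            (fun l : Fin (h + 0) => ((B' l : 𝓞 K) : K)) (cf ω a))
    (fun q a => ∃ (Q : (l : {l // ¬ J l}) → Pt ((A' l.1 : 𝓞 K) : K) ((B' l.1 : 𝓞 K) : K))
      (P : Fin (h + 0) → Pt (A : K) (B : K)), (∀ l, P l ∈ (⊤ : AddSubgroup (Pt (A : K) (B : K)))) ∧
      AdmB pm (Bd q.1.1) (ZJ_R J (RW A' B' R ex E' b ν d E ω fun j => (rr q.1.1 q.2 j : K)) Q) a P)
    (by
      rintro a ⟨S, hS, hI⟩
      have hS𝒮 := h𝒮1 S hS
      obtain ⟨x, -, P, u, hP, hu, hY, h0, hR, -⟩ := hI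
      have hx0 : (fun l : Fin 0 => ((x l : Kˣ) : K)) = Fin.elim0 := funext fun l => l.elim0
      rw [hx0] at hY h0 hR
      have hSS : G ⊔ Su S ≤ G ⊔ Su (S1 ∪ S) :=
        sup_le_sup_left (fun a ha v hv => ha v fun hv1 => hv (mem_union_right _ hv1)) G
      -- the factors
      obtain ⟨γ, hγ, hγR⟩ : ∃ γ : Fin s → Kˣ, (∀ j, γ j ∈ G ⊔ Su (S1 ∪ S)) ∧
          ∀ j ∈ R, ∃ t : K, sM E (cf ω a) Fin.elim0 P u j = (γ j : K) * t ^ ex j := by
        choose! f hf1 hf2 using hR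
        refine ⟨fun j => if j ∈ R then f j else 1, fun j => ?_, fun j hj => ?_⟩
        · show (if j ∈ R then f j else 1) ∈ _
          split_ifs with hj
          · exact hSS (hf1 j hj)
          · exact one_mem _
        · show ∃ t : K, sM E (cf ω a) Fin.elim0 P u j = (((if j ∈ R then f j else 1) : Kˣ) : K) * t ^ ex j
          rw [if_pos hj]
          exact hf2 j hj
      obtain ⟨i, y, hy, hxy⟩ := hrr2 S γ hγ
      obtain ⟨Q, hQ⟩ := (pt_iff hdK (fun P' => P' = P)).1 ⟨P, hP, rfl⟩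
      subst hQ
      have hP2 : ∀ l : Fin (h + 0), ∃ P2 : Pt (A : K) (B : K), J l →
          ∀ v : HeightOneSpectrum (𝓞 K), rdF (pV v) P2 = rdF (pV v) (Q l) := by
        intro l
        by_cases hl : J l
        · obtain ⟨P2, h2⟩ := ZJ_cast (A := (A : K)) (B := (B : K)) (by rw [((hJd l).1 hl).1])
            (by rw [((hJd l).1 hl).2]) (Q l)
          exact ⟨P2, fun _ => h2⟩
        · exact ⟨.zero, fun h1 => absurd h1 hl⟩
      choose P2 hP2 using hP2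
      refine ⟨⟨⟨S, hS𝒮⟩, i⟩, fun l => Q l.1, P2, fun l => AddSubgroup.mem_top _, ?_⟩
      intro v p hp hc hpN hpB
      show _ ∈ RW A' B' R ex E' b ν d E ω (fun j => (rr S i j : K)) v p _
      have hz : (fun l : Fin (h + 0) => if hl : J l then rdF (pV v) (P2 l) else rdF (pV v) (Q l)) =
          fun l => rdF (pV v) (Q l) := by
        funext l
        by_cases hl : J l
        · rw [dif_pos hl]
          exact hP2 l hl v
        · rw [dif_neg hl]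
      refine (congrArg (fun z => (fun i => ((a i : ℤ) : ZMod p)) ∈
        RW A' B' R ex E' b ν d E ω (fun j => (rr S i j : K)) v p z) hz).mpr ?_
      refine adm_RW E' b E (⇑ω) R ex hex a Q u hu (fun j => (rr S i j : K)) (fun k => hY k (Finset.notMem_empty k))
        (fun j hj => ?_) (fun j hj => h0 j (Finset.notMem_empty j) hj) v p hp hc (fun j hj => ?_)
      · obtain ⟨t, ht⟩ := hγR j hj
        obtain ⟨q, hq⟩ := hmd j hj
        refine ⟨(y j : K) ^ q * t, ?_⟩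
        have h4 : (γ j : K) = (rr S i j : K) * (y j : K) ^ m := by
          rw [hxy j, Units.val_mul, Units.val_pow_eq_pow_val]
        rw [ht, h4, mul_pow, ← pow_mul, mul_comm q, ← hq, mul_assoc]
      · exact ⟨Units.ne_zero _, hunit S v p hp hc hpN hpB _ (hrr1 S i j)⟩)
  refine le_trans (Nat.cast_le.2 hun) ?_
  rw [Nat.cast_sum, Fintype.sum_sigma]
  refine (sum_le_sum fun S _ => (sum_le_sum fun i _ => hone S.1 S.2 i)).trans ?_
  have h5 : ∀ S : 𝒮, ∑ _i : Fin (m ^ (t1 + s * S.1.card)),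
      (NT * |C|) * (H : ℝ) ^ Fintype.card (IxM ι M ν d × Fin e) * Real.exp (-(c₁ * L)) ≤
      Real.exp (Real.log m * (t1 + s * nX)) * Real.exp (c₁ / 4 * L) *
        ((NT * |C|) * (H : ℝ) ^ Fintype.card (IxM ι M ν d × Fin e) * Real.exp (-(c₁ * L))) := by
    intro S
    rw [sum_const, card_univ, Fintype.card_fin, nsmul_eq_mul]
    refine mul_le_mul_of_nonneg_right ?_ (by positivity)
    have hm0 : (0 : ℝ) < m := by exact_mod_cast hm
    have h2 : ((m ^ (t1 + s * S.1.card) : ℕ) : ℝ) =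
        Real.exp (Real.log m * ((t1 : ℝ) + ((s * S.1.card : ℕ) : ℝ))) := by
      rw [Real.exp_mul, Real.exp_log hm0, ← Nat.cast_add, Real.rpow_natCast, Nat.cast_pow]
    rw [h2, ← Real.exp_add]
    exact Real.exp_le_exp.2 (hSc S.1 S.2).2
  refine (sum_le_sum fun S _ => h5 S).trans ?_
  rw [sum_const, card_univ, Fintype.card_coe, nsmul_eq_mul]
  have h6 : (0 : ℝ) ≤ Real.exp (Real.log m * (t1 + s * nX)) * Real.exp (c₁ / 4 * L) *
        ((NT * |C|) * (H : ℝ) ^ Fintype.card (IxM ι M ν d × Fin e) * Real.exp (-(c₁ * L))) := by positivity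
  calc (𝒮.card : ℝ) * (Real.exp (Real.log m * (t1 + s * nX)) * Real.exp (c₁ / 4 * L) *
        ((NT * |C|) * (H : ℝ) ^ Fintype.card (IxM ι M ν d × Fin e) * Real.exp (-(c₁ * L)))) ≤
      (CK * Real.exp (c₁ / 4 * L)) * (Real.exp (Real.log m * (t1 + s * nX)) * Real.exp (c₁ / 4 * L) *
        ((NT * |C|) * (H : ℝ) ^ Fintype.card (IxM ι M ν d × Fin e) * Real.exp (-(c₁ * L)))) :=
        mul_le_mul_of_nonneg_right h𝒮3 h6
    _ = CK * Real.exp (Real.log m * (t1 + s * nX)) * (NT * |C|) * (H : ℝ) ^ Fintype.card (IxM ι M ν d × Fin e) *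
        (Real.exp (c₁ / 4 * L) * Real.exp (c₁ / 4 * L) * Real.exp (-(c₁ * L))) := by ring
    _ ≤ _ := by
        refine mul_le_mul_of_nonneg_left ?_ (by positivity)
        rw [← Real.exp_add, ← Real.exp_add]
        refine Real.exp_le_exp.2 ?_
        have : 0 ≤ c₁ * L := by positivity
        linarith

end OCM
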